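import Pool.Agent.StarTr.Law

set_option autoImplicit false

/-!
# StarTr, module Law2: the spherical Radon transform of a zonal function

* `sphInt_zonal`: an isometry of `(ℝ ∙ u)ᗮ` with `ℝ^m` that maps the projection of `e` to `√(1-t^2)` times the first basis vector,
  `t = ⟨u, e⟩` (`StarIB.toSphere_map`, `StarIB.sphEquiv`); if the projection of `e` is `0` then both sides are `φ 0` times the mass.
-/

open MeasureTheory Set Metric Module
open scoped ENNReal RealInnerProductSpace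

namespace StarTr

namespace Law2Aux

/-- the adapted isometry of the orthogonal complement -/
theorem exists_iso {m : ℕ} [NeZero m] {E : Type*} [NormedAddCommGroup E]
    [InnerProductSpace ℝ E] [FiniteDimensional ℝ E]
    (hE : finrank ℝ E = m + 1) (e u : E) (he : ‖e‖ = 1) (hu : ‖u‖ = 1) :
    ∃ Ψ : (ℝ ∙ u)ᗮ ≃ₗᵢ[ℝ] EuclideanSpace ℝ (Fin m),
      ∀ v : (ℝ ∙ u)ᗮ, ⟪(v : E), e⟫ = √(1 - ⟪u, e⟫ ^ 2) * (Ψ v) 0 := by
  have hu0 : u ≠ 0 := by
    rintro rfl
    simp at hu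
  have : Fact (finrank ℝ E = m + 1) := ⟨hE⟩
  have hdim : finrank ℝ (ℝ ∙ u)ᗮ = m := Submodule.finrank_orthogonal_span_singleton hu0
  -- the projection of `e`
  have hpmem : e - ⟪u, e⟫ • u ∈ (ℝ ∙ u)ᗮ := by
    rw [Submodule.mem_orthogonal_singleton_iff_inner_right, inner_sub_right, inner_smul_right,
      real_inner_self_eq_norm_sq, hu]
    ring
  set p : (ℝ ∙ u)ᗮ := ⟨e - ⟪u, e⟫ • u, hpmem⟩ with hp
  have hpnorm : ‖p‖ = √(1 - ⟪u, e⟫ ^ 2) := by
    have h1 : ‖p‖ ^ 2 = 1 - ⟪u, e⟫ ^ 2 := by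
      have h2 : ‖p‖ = ‖e - ⟪u, e⟫ • u‖ := rfl
      rw [h2, norm_sub_sq_real, norm_smul, inner_smul_right, he, hu, real_inner_comm e u,
        Real.norm_eq_abs, mul_one, sq_abs]
      ring
    rw [← h1, Real.sqrt_sq (norm_nonneg _)]
  have hinner : ∀ v : (ℝ ∙ u)ᗮ, ⟪(v : E), e⟫ = ⟪v, p⟫ := by
    intro v
    have h1 : ⟪v, p⟫ = ⟪(v : E), e - ⟪u, e⟫ • u⟫ := rfl
    have h2 : ⟪(v : E), u⟫ = 0 := by
      have h3 := Submodule.mem_orthogonal_singleton_iff_inner_right.1 v.2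
      rw [real_inner_comm]
      exact h3
    rw [h1, inner_sub_right, inner_smul_right, h2, mul_zero, sub_zero]
  -- a unit vector in the direction of `p`
  obtain ⟨w, hw, hpw⟩ : ∃ w : (ℝ ∙ u)ᗮ, ‖w‖ = 1 ∧ p = ‖p‖ • w := by
    by_cases h0 : p = 0
    · have h1 : 0 < finrank ℝ (ℝ ∙ u)ᗮ := by
        rw [hdim]
        exact Nat.pos_of_ne_zero (NeZero.ne m)
      have : Nontrivial (ℝ ∙ u)ᗮ := Module.nontrivial_of_finrank_pos h1
      obtain ⟨w, hw⟩ := exists_norm_eq (ℝ ∙ u)ᗮ zero_le_one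
      exact ⟨w, hw, by rw [h0, norm_zero, zero_smul]⟩
    · have h1 : ‖p‖ ≠ 0 := norm_ne_zero_iff.2 h0
      refine ⟨‖p‖⁻¹ • p, ?_, ?_⟩
      · rw [norm_smul, norm_inv, norm_norm, inv_mul_cancel₀ h1]
      · rw [smul_smul, mul_inv_cancel₀ h1, one_smul]
  have hcard : finrank ℝ (ℝ ∙ u)ᗮ = Fintype.card (Fin m) := by rw [hdim, Fintype.card_fin]
  have hon : Orthonormal ℝ (({0} : Set (Fin m)).domRestrict (fun _ => w)) := by
    refine ⟨fun i => hw, ?_⟩
    intro i j hij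
    exact absurd (Subsingleton.elim i j) hij
  obtain ⟨b, hb⟩ := hon.exists_orthonormalBasis_extension_of_card_eq hcard
  refine ⟨b.repr, fun v => ?_⟩
  rw [hinner v, b.repr_apply_apply, hb 0 (mem_singleton _), ← hpnorm]
  conv_lhs => rw [hpw]
  rw [inner_smul_right, real_inner_comm]

theorem nuS_integral {m : ℕ} [NeZero m] (hm : 1 ≤ m) (ψ : ℝ → ℝ)
    (hψ : ContinuousOn ψ (Icc (-1) 1)) :
    massS m * ∫ s, ψ s ∂(nuS m) =
      ∫ x : sphere (0 : EuclideanSpace ℝ (Fin m)) 1, ψ ((x : EuclideanSpace ℝ (Fin m)) 0)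
        ∂((volume : Measure (EuclideanSpace ℝ (Fin m))).toSphere) := by
  set σ := (volume : Measure (EuclideanSpace ℝ (Fin m))).toSphere with hσ
  set c : sphere (0 : EuclideanSpace ℝ (Fin m)) 1 → ℝ :=
    fun v => (v : EuclideanSpace ℝ (Fin m)) 0 with hc
  have hcm : Measurable c := by
    have h1 : Continuous c := by
      rw [hc]
      fun_prop
    exact h1.measurable
  have hcI : ∀ v, c v ∈ Icc (-1 : ℝ) 1 := by
    intro v
    have h1 : ‖(v : EuclideanSpace ℝ (Fin m))‖ = 1 := mem_sphere_zero_iff_norm.1 v.2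
    have h2 := EuclideanSpace.norm_eq (v : EuclideanSpace ℝ (Fin m))
    have h3 : ‖(v : EuclideanSpace ℝ (Fin m)) 0‖ ≤ ‖(v : EuclideanSpace ℝ (Fin m))‖ :=
      PiLp.norm_apply_le _ _
    rw [h1, Real.norm_eq_abs] at h3
    exact abs_le.1 h3
  -- continuous extension
  set ψ' : ℝ → ℝ := IccExtend (by norm_num : (-1 : ℝ) ≤ 1) (fun x => ψ x) with hψ'
  have hψ'c : Continuous ψ' := by
    rw [hψ']
    exact Continuous.Icc_extend' (continuousOn_iff_continuous_domRestrict.1 hψ)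
  have hagree : ∀ s ∈ Icc (-1 : ℝ) 1, ψ' s = ψ s := by
    intro s hs
    rw [hψ', IccExtend_of_mem _ _ hs]
  have hmem : ∀ᵐ s ∂(nuS m), s ∈ Icc (-1 : ℝ) 1 := by
    unfold nuS
    refine Measure.ae_smul_measure ?_ _
    exact (ae_map_iff hcm.aemeasurable measurableSet_Icc).2 (Filter.Eventually.of_forall hcI)
  have hae : ∀ᵐ s ∂(nuS m), ψ s = ψ' s := by
    filter_upwards [hmem] with s hs
    exact (hagree s hs).symm
  have hmass := massS_pos hm
  unfold massS at hmass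
  rw [integral_congr_ae hae]
  unfold nuS massS
  rw [integral_smul_measure, integral_map hcm.aemeasurable hψ'c.aestronglyMeasurable,
    smul_eq_mul, ← mul_assoc, ENNReal.toReal_inv, measureReal_def,
    mul_inv_cancel₀ (by rw [← measureReal_def]; exact hmass.ne'), one_mul]
  refine integral_congr_ae (Filter.Eventually.of_forall fun v => ?_)
  exact hagree _ (hcI v)

end Law2Aux

theorem sphInt_zonal {m : ℕ} [NeZero m] (hm : 2 ≤ m) {E : Type*} [NormedAddCommGroup E]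
    [InnerProductSpace ℝ E] [FiniteDimensional ℝ E] [MeasurableSpace E] [BorelSpace E]
    (hE : finrank ℝ E = m + 1) (e u : E) (he : ‖e‖ = 1) (hu : ‖u‖ = 1) (φ : ℝ → ℝ)
    (hφ : ContinuousOn φ (Icc (-1) 1)) :
    StarIB.sphInt (fun v => φ ⟪v, e⟫) u = massS m * Rad (nuS m) φ ⟪u, e⟫ := by
  obtain ⟨Ψ, hΨ⟩ := Law2Aux.exists_iso hE e u he hu
  have hsq : √(1 - ⟪u, e⟫ ^ 2) ∈ Icc (0 : ℝ) 1 := by
    refine ⟨Real.sqrt_nonneg _, ?_⟩
    exact Real.sqrt_le_one.2 (by nlinarith [sq_nonneg ⟪u, e⟫])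
  have hψ : ContinuousOn (fun s => φ (√(1 - ⟪u, e⟫ ^ 2) * s)) (Icc (-1) 1) := by
    refine hφ.comp (by fun_prop) ?_
    intro s hs
    rw [mem_Icc] at hs ⊢
    constructor <;> nlinarith [hsq.1, hsq.2, hs.1, hs.2]
  unfold Rad
  rw [Law2Aux.nuS_integral (by omega) _ hψ]
  unfold StarIB.sphInt
  rw [← (StarIB.toSphere_map Ψ).integral_comp (StarIB.sphEquiv Ψ).measurableEmbedding]
  refine integral_congr_ae (Filter.Eventually.of_forall fun v => ?_)
  change φ ⟪((v : (ℝ ∙ u)ᗮ) : E), e⟫ = _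
  rw [hΨ]
  rfl

end StarTr
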