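import Mathlib

set_option autoImplicit false
set_option linter.all false

/-!
# StarTr, module Pow: inequalities for real powers

Independent elementary lemmas.  Hints.

* `rpow_sub_le_of_add`: concavity of `x ^ β`: `u' ≤ min u (x+u') ≤ max u (x+u') ≤ x + u`, the sums agree; or: the function
  `z ↦ (z + u) ^ β - (z + u') ^ β` is antitone on `z ≥ 0` (derivative `≤ 0`).
* `sq_sub_le`: `τ ↦ 2 / p * t ^ (2 - p) * τ ^ p - τ ^ 2` is monotone on `[0, t]` (derivative
  `2 τ ^ (p-1) (t ^ (2-p) - τ ^ (2-p)) ≥ 0`); or Bernoulli.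
* `rpow_add_sub_le`: `τ ↦ τ ^ p + p B ^ (p-1) τ - (τ + B) ^ p` is monotone on `τ ≥ 0`, because
  `(τ + B) ^ (p-1) ≤ τ ^ (p-1) + B ^ (p-1)` (`0 ≤ p - 1 ≤ 1`).
* `rpow_incr`: convexity of `x ^ p` (increments are monotone in the base point).
* `abs_rpow_sub`: mean value theorem (`| |x| - |y| | ≤ |x - y|`).
-/

namespace StarTr

namespace PowAux

/-- increments of a convex function -/
theorem convex_incr {g : ℝ → ℝ} (hg : ConvexOn ℝ (Set.Ici 0) g) {a b d : ℝ} (ha : 0 ≤ a)
    (hab : a ≤ b) (hd : 0 ≤ d) : g (a + d) - g a ≤ g (b + d) - g b := by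
  rcases hab.eq_or_lt with rfl | hab
  · exact le_rfl
  · have hD : 0 < b - a + d := by linarith
    have m1 : a ∈ Set.Ici (0 : ℝ) := ha
    have m2 : b + d ∈ Set.Ici (0 : ℝ) := by
      rw [Set.mem_Ici]
      linarith
    have q1 : 0 ≤ (b - a) / (b - a + d) := div_nonneg (by linarith) hD.le
    have q2 : 0 ≤ d / (b - a + d) := div_nonneg hd hD.le
    have h1 := hg.2 m1 m2 q1 q2 (by field_simp)
    have h2 := hg.2 m1 m2 q2 q1 (by field_simp; ring)
    simp only [smul_eq_mul] at h1 h2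
    have e1 : (b - a) / (b - a + d) * a + d / (b - a + d) * (b + d) = a + d := by
      field_simp
      ring
    have e2 : d / (b - a + d) * a + (b - a) / (b - a + d) * (b + d) = b := by
      field_simp
      ring
    rw [e1] at h1
    rw [e2] at h2
    have e3 : (b - a) / (b - a + d) + d / (b - a + d) = 1 := by field_simp
    have e4 : (b - a) / (b - a + d) * g a + d / (b - a + d) * g (b + d) +
        (d / (b - a + d) * g a + (b - a) / (b - a + d) * g (b + d)) = g a + g (b + d) := by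
      linear_combination (g a + g (b + d)) * e3
    linarith

/-- the tangent line inequality -/
theorem tangent {q x y : ℝ} (hq : 1 ≤ q) (hx : 0 ≤ x) (hy : 0 ≤ y) :
    x ^ q - y ^ q ≤ q * x ^ (q - 1) * (x - y) := by
  rcases hx.eq_or_lt with h0 | hx
  · rw [← h0, Real.zero_rpow (by linarith)]
    rcases hq.eq_or_lt with h1 | h1
    · rw [← h1, sub_self, Real.rpow_zero, Real.rpow_one]
      linarith
    · rw [Real.zero_rpow (by linarith)]
      have := Real.rpow_nonneg hy q
      linarith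
  · have h1 := one_add_mul_self_le_rpow_one_add (s := y / x - 1)
      (by have := div_nonneg hy hx.le; linarith) hq
    rw [add_sub_cancel, Real.div_rpow hy hx.le] at h1
    have h2 : 0 < x ^ q := Real.rpow_pos_of_pos hx q
    have h3 := mul_le_mul_of_nonneg_left h1 h2.le
    rw [mul_div_cancel₀ _ h2.ne'] at h3
    have h4 : x ^ q = x ^ (q - 1) * x := by
      rw [Real.rpow_sub hx, Real.rpow_one, div_mul_cancel₀ _ hx.ne']
    have h5 : x ^ q * (1 + q * (y / x - 1)) = x ^ q - q * x ^ (q - 1) * (x - y) := by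
      rw [h4]
      field_simp
      ring
    rw [h5] at h3
    linarith

end PowAux

open PowAux

theorem rpow_sub_le_of_add {x u u' β : ℝ} (hx : 0 ≤ x) (hu' : 0 ≤ u') (huu : u' ≤ u) (hβ : 0 < β)
    (hβ1 : β ≤ 1) : (x + u) ^ β - (x + u') ^ β ≤ u ^ β - u' ^ β := by
  have h1 := convex_incr (Real.concaveOn_rpow hβ.le hβ1).neg (a := u') (b := x + u')
    (d := u - u') hu' (by linarith) (by linarith)
  simp only [Pi.neg_apply] at h1
  have e1 : u' + (u - u') = u := by ring
  have e2 : x + u' + (u - u') = x + u := by ring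
  rw [e1, e2] at h1
  linarith

theorem sq_sub_le {p t t' : ℝ} (hp : 1 ≤ p) (hp2 : p ≤ 2) (ht' : 0 ≤ t') (htt : t' ≤ t) :
    t ^ 2 - t' ^ 2 ≤ 2 / p * (t ^ (2 - p) * (t ^ p - t' ^ p)) := by
  have ht : 0 ≤ t := ht'.trans htt
  have hp0 : 0 < p := by linarith
  have hq : 1 ≤ 2 / p := by
    rw [le_div_iff₀ hp0]
    linarith
  have h1 := tangent hq (Real.rpow_nonneg ht p) (Real.rpow_nonneg ht' p)
  rw [← Real.rpow_mul ht, ← Real.rpow_mul ht', ← Real.rpow_mul ht] at h1
  have e1 : p * (2 / p) = ((2 : ℕ) : ℝ) := by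
    push_cast
    field_simp
  have e2 : p * (2 / p - 1) = 2 - p := by
    field_simp
  rw [e1, e2, Real.rpow_natCast, Real.rpow_natCast] at h1
  calc t ^ 2 - t' ^ 2 ≤ _ := h1
    _ = _ := by ring

theorem rpow_add_sub_le {p B x y : ℝ} (hp : 1 ≤ p) (hp2 : p ≤ 2) (hB : 0 ≤ B) (hy : 0 ≤ y)
    (hxy : y ≤ x) :
    (x + B) ^ p - (y + B) ^ p ≤ x ^ p - y ^ p + p * B ^ (p - 1) * (x - y) := by
  have hder : ∀ τ : ℝ, HasDerivAt (fun τ : ℝ => τ ^ p + p * B ^ (p - 1) * τ - (τ + B) ^ p)
      (p * τ ^ (p - 1) + p * B ^ (p - 1) - p * (τ + B) ^ (p - 1)) τ := by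
    intro τ
    have h1 := Real.hasDerivAt_rpow_const (x := τ) (p := p) (Or.inr hp)
    have h2 := ((hasDerivAt_id τ).add_const B).rpow_const (p := p) (Or.inr hp)
    have h3 := (hasDerivAt_id τ).const_mul (p * B ^ (p - 1))
    have h4 := (h1.add h3).sub h2
    simp only [id, mul_one, one_mul] at h4
    exact h4
  have hmono : MonotoneOn (fun τ : ℝ => τ ^ p + p * B ^ (p - 1) * τ - (τ + B) ^ p)
      (Set.Ici 0) := by
    apply monotoneOn_of_deriv_nonneg (convex_Ici 0)
    · intro τ _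
      exact (hder τ).continuousAt.continuousWithinAt
    · intro τ _
      exact (hder τ).differentiableAt.differentiableWithinAt
    · intro τ hτ
      rw [interior_Ici, Set.mem_Ioi] at hτ
      rw [(hder τ).deriv]
      have h1 : (τ + B) ^ (p - 1) ≤ τ ^ (p - 1) + B ^ (p - 1) :=
        Real.rpow_add_le_add_rpow hτ.le hB (by linarith) (by linarith)
      have h2 := mul_le_mul_of_nonneg_left h1 (by linarith : (0 : ℝ) ≤ p)
      linarith
  have h := hmono (Set.mem_Ici.mpr hy) (Set.mem_Ici.mpr (hy.trans hxy)) hxy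
  simp only at h
  linarith

theorem rpow_incr {p b B u : ℝ} (hp : 1 ≤ p) (hb : 0 ≤ b) (hbB : b ≤ B) (hu : 0 ≤ u) :
    (b + u) ^ p - b ^ p ≤ (B + u) ^ p - B ^ p :=
  convex_incr (convexOn_rpow hp) hb hbB hu

theorem abs_rpow_sub {p M x y : ℝ} (hp : 1 ≤ p) (hx : |x| ≤ M) (hy : |y| ≤ M) :
    |(|x| ^ p - |y| ^ p)| ≤ p * M ^ (p - 1) * |x - y| := by
  have key : ∀ x y : ℝ, |x| ≤ M → |y| ≤ M → |x| ^ p - |y| ^ p ≤ p * M ^ (p - 1) * |x - y| := by
    intro x y hx hy
    rcases le_total (|x|) (|y|) with h | h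
    · have h1 : |x| ^ p ≤ |y| ^ p := Real.rpow_le_rpow (abs_nonneg _) h (by linarith)
      have h2 : 0 ≤ p * M ^ (p - 1) * |x - y| := by
        have hM : 0 ≤ M := (abs_nonneg _).trans hx
        have := Real.rpow_nonneg hM (p - 1)
        have h3 : 0 ≤ p := by linarith
        positivity
      linarith
    · have h1 := tangent hp (abs_nonneg x) (abs_nonneg y)
      have h2 : |x| ^ (p - 1) ≤ M ^ (p - 1) :=
        Real.rpow_le_rpow (abs_nonneg _) hx (by linarith)
      have h3 : |x| - |y| ≤ |x - y| := abs_sub_abs_le_abs_sub x y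
      calc |x| ^ p - |y| ^ p ≤ p * |x| ^ (p - 1) * (|x| - |y|) := h1
        _ ≤ p * M ^ (p - 1) * |x - y| := by
            apply mul_le_mul _ h3 (by linarith)
            · have hM : 0 ≤ M := (abs_nonneg _).trans hx
              have := Real.rpow_nonneg hM (p - 1)
              have h3 : 0 ≤ p := by linarith
              positivity
            · exact mul_le_mul_of_nonneg_left h2 (by linarith)
  rw [abs_le]
  constructor
  · have := key y x hy hx
    rw [abs_sub_comm y x] at this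
    linarith
  · exact key x y hx hy

theorem rpow_lip {i η x y : ℝ} (hi : 1 ≤ i) (hη : 0 ≤ η) (hx : 0 < x) (hx1 : x ≤ 1 + η)
    (hy : 0 < y) (hy1 : y ≤ 1 + η) : |x ^ i - y ^ i| ≤ i * (1 + η) ^ (i - 1) * |x - y| := by
  have h := abs_rpow_sub (M := 1 + η) hi (x := x) (y := y) (by rw [abs_of_pos hx]; exact hx1)
    (by rw [abs_of_pos hy]; exact hy1)
  rw [abs_of_pos hx, abs_of_pos hy] at h
  exact h

end StarTr
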