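import Pool.Agent.StarTr.Def
import Pool.Agent.StarTr.Pow

set_option autoImplicit false

/-!
# StarTr, module RadEst: the zonal Radon transform and moduli

`Rad ν f t = ∫ f (√(1-t^2) s) dν(s)`, `ν` a law `SLaw m ν`.

* `rad_even`: `SLaw.symm`.
* `rad_contOn`: uniform continuity of `f` on `[-1,1]` (or dominated convergence).
-/

open MeasureTheory Set

namespace StarTr

variable {m : ℕ} {ν : Measure ℝ}

namespace RadEstAux

/-- continuous extension -/
noncomputable def ext (f : ℝ → ℝ) : ℝ → ℝ :=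
  Set.IccExtend (show (-1 : ℝ) ≤ 1 by norm_num) ((Icc (-1 : ℝ) 1).restrict f)

theorem ext_cont {f : ℝ → ℝ} (hf : ContinuousOn f (Icc (-1) 1)) : Continuous (ext f) :=
  (continuousOn_iff_continuous_restrict.1 hf).Icc_extend'

theorem ext_eq (f : ℝ → ℝ) {x : ℝ} (hx : |x| ≤ 1) : ext f x = f x := by
  unfold ext
  rw [Set.IccExtend_of_mem _ _ (abs_le.1 hx)]
  rfl

theorem ext_bound {f : ℝ → ℝ} (hf : ContinuousOn f (Icc (-1) 1)) : ∃ M, ∀ x, ‖ext f x‖ ≤ M := by
  obtain ⟨M, hM⟩ := isCompact_Icc.exists_bound_of_continuousOn hf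
  refine ⟨M, fun x => ?_⟩
  unfold ext Set.IccExtend
  exact hM _ (Subtype.mem _)

theorem abs_le_one {t s : ℝ} (hs : |s| < 1) : |√(1 - t ^ 2) * s| ≤ 1 := by
  have h1 : √(1 - t ^ 2) ≤ 1 := by
    rw [Real.sqrt_le_left zero_le_one]
    nlinarith [sq_nonneg t]
  rw [abs_mul, abs_of_nonneg (Real.sqrt_nonneg _)]
  have := mul_le_mul h1 hs.le (abs_nonneg _) zero_le_one
  linarith

theorem ae_eq (hν : SLaw m ν) (f : ℝ → ℝ) (t : ℝ) :
    (fun s => f (√(1 - t ^ 2) * s)) =ᵐ[ν] fun s => ext f (√(1 - t ^ 2) * s) := by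
  filter_upwards [hν.supp] with s hs
  exact (ext_eq f (abs_le_one hs)).symm

theorem int (hν : SLaw m ν) {f : ℝ → ℝ} (hf : ContinuousOn f (Icc (-1) 1)) (t : ℝ) :
    Integrable (fun s => f (√(1 - t ^ 2) * s)) ν := by
  have := hν.prob
  obtain ⟨M, hM⟩ := ext_bound hf
  refine Integrable.congr ?_ (ae_eq hν f t).symm
  refine (integrable_const M).mono' ?_ (Filter.Eventually.of_forall fun s => hM _)
  exact ((ext_cont hf).comp (continuous_const.mul continuous_id)).aestronglyMeasurable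

theorem cont (hν : SLaw m ν) {f : ℝ → ℝ} (hf : ContinuousOn f (Icc (-1) 1)) :
    Continuous (Rad ν f) := by
  have := hν.prob
  obtain ⟨M, hM⟩ := ext_bound hf
  have h1 : Rad ν f = fun t => ∫ s, ext f (√(1 - t ^ 2) * s) ∂ν := by
    funext t
    exact integral_congr_ae (ae_eq hν f t)
  rw [h1]
  refine continuous_of_dominated (bound := fun _ => M) ?_ ?_ (integrable_const M) ?_
  · intro t
    exact ((ext_cont hf).comp (continuous_const.mul continuous_id)).aestronglyMeasurable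
  · intro t
    exact Filter.Eventually.of_forall fun s => hM _
  · refine Filter.Eventually.of_forall fun s => ?_
    refine (ext_cont hf).comp ?_
    fun_prop

end RadEstAux

open RadEstAux

theorem rad_integrable (hν : SLaw m ν) {f : ℝ → ℝ} (hf : ContinuousOn f (Icc (-1) 1)) {t : ℝ}
    (ht : |t| ≤ 1) : Integrable (fun s => f (√(1 - t ^ 2) * s)) ν :=
  RadEstAux.int hν hf t

theorem rad_contOn (hν : SLaw m ν) {f : ℝ → ℝ} (hf : ContinuousOn f (Icc (-1) 1)) :
    ContinuousOn (Rad ν f) (Icc (-1) 1) :=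
  (RadEstAux.cont hν hf).continuousOn

theorem rad_close (hν : SLaw m ν) {f : ℝ → ℝ} (hf : ContinuousOn f (Icc (-1) 1)) {b ε : ℝ}
    (h : ∀ x : ℝ, |x| ≤ 1 → |f x - b| ≤ ε) {t : ℝ} (ht : |t| ≤ 1) : |Rad ν f t - b| ≤ ε := by
  have := hν.prob
  have h1 : Rad ν f t - b = ∫ s, (f (√(1 - t ^ 2) * s) - b) ∂ν := by
    rw [integral_sub (rad_integrable hν hf ht) (integrable_const b), integral_const]
    simp [Rad]
  rw [h1]
  have h2 := norm_integral_le_of_norm_le_const (μ := ν)
    (f := fun s => f (√(1 - t ^ 2) * s) - b) (C := ε) (by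
      filter_upwards [hν.supp] with s hs
      exact h _ (abs_le_one hs))
  simpa using h2

theorem rad_sub_le (hν : SLaw m ν) {f g : ℝ → ℝ} (hf : ContinuousOn f (Icc (-1) 1))
    (hg : ContinuousOn g (Icc (-1) 1)) {ε : ℝ}
    (h : ∀ x : ℝ, |x| ≤ 1 → |f x - g x| ≤ ε) {t : ℝ} (ht : |t| ≤ 1) :
    |Rad ν f t - Rad ν g t| ≤ ε := by
  have := hν.prob
  have h1 : Rad ν f t - Rad ν g t = ∫ s, (f (√(1 - t ^ 2) * s) - g (√(1 - t ^ 2) * s)) ∂ν := by
    rw [integral_sub (rad_integrable hν hf ht) (rad_integrable hν hg ht)]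
    rfl
  rw [h1]
  have h2 := norm_integral_le_of_norm_le_const (μ := ν)
    (f := fun s => f (√(1 - t ^ 2) * s) - g (√(1 - t ^ 2) * s)) (C := ε) (by
      filter_upwards [hν.supp] with s hs
      exact h _ (abs_le_one hs))
  simpa using h2

theorem rad_even (hν : SLaw m ν) {f : ℝ → ℝ} (hf : ContinuousOn f (Icc (-1) 1)) {t : ℝ}
    (ht : |t| ≤ 1) : Rad ν f t = Rad ν (fun x => (f x + f (-x)) / 2) t := by
  have := hν.prob
  have hf' : ContinuousOn (fun x => f (-x)) (Icc (-1) 1) := by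
    refine hf.comp continuous_neg.continuousOn ?_
    intro x hx
    simp only [mem_Icc] at hx ⊢
    constructor <;> linarith [hx.1, hx.2]
  have h1 : ∫ s, f (-(√(1 - t ^ 2) * s)) ∂ν = ∫ s, f (√(1 - t ^ 2) * s) ∂ν := by
    have h2 := integral_map_equiv (μ := ν) (MeasurableEquiv.neg ℝ)
      (fun s => f (√(1 - t ^ 2) * s))
    have h3 : Measure.map (MeasurableEquiv.neg ℝ) ν = ν := hν.symm
    rw [h3] at h2
    rw [h2]
    refine integral_congr_ae (Filter.Eventually.of_forall fun s => ?_)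
    simp
  unfold Rad
  rw [integral_div, integral_add (rad_integrable hν hf ht) (rad_integrable hν hf' ht), h1]
  ring

end StarTr
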