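import Pool.Agent.StarTr.Roots
import Pool.Agent.StarTr.RadEst
import Pool.Agent.StarTr.Law2
import Pool.Agent.StarIB.Bodies

set_option autoImplicit false

/-!
# StarTr, module Body: the star bodies
-/

open MeasureTheory Set Metric Module
open scoped ENNReal RealInnerProductSpace

namespace StarTr

open StarIB

section sets

variable {E : Type*} [NormedAddCommGroup E] [InnerProductSpace ℝ E]

/-- star set with radial function `f` -/
def starSet (f : E → ℝ) : Set E :=
  {x | ∃ u : E, ‖u‖ = 1 ∧ ∃ c : ℝ, 0 ≤ c ∧ c ≤ f u ∧ x = c • u}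

theorem smul_mem_starSet {f : E → ℝ} (hf : ∀ u, ‖u‖ = 1 → 0 ≤ f u) {u : E} (hu : ‖u‖ = 1) {c : ℝ}
    (hc : 0 ≤ c) : c • u ∈ starSet f ↔ c ≤ f u := by
  constructor
  · rintro ⟨u', hu', c', hc', hcf, he⟩
    have hn : c = c' := by
      have := congrArg norm he
      rwa [norm_smul, norm_smul, hu, hu', Real.norm_eq_abs, Real.norm_eq_abs,
        abs_of_nonneg hc, abs_of_nonneg hc', mul_one, mul_one] at this
    rcases hc.eq_or_lt with h0 | h0
    · rw [← h0]; exact hf u hu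
    · subst hn
      have : u = u' := smul_right_injective E h0.ne' he
      rw [this]; exact hcf
  · intro h
    exact ⟨u, hu, c, hc, h, rfl⟩

theorem exists_polar [Nontrivial E] (z : E) : ∃ u : E, ‖u‖ = 1 ∧ z = ‖z‖ • u := by
  by_cases hz : z = 0
  · obtain ⟨u, hu⟩ := exists_norm_eq E (zero_le_one)
    exact ⟨u, hu, by rw [hz, norm_zero, zero_smul]⟩
  · exact ⟨‖z‖⁻¹ • z, by rw [norm_smul, norm_inv, norm_norm, inv_mul_cancel₀ (norm_ne_zero_iff.2 hz)], by rw [smul_smul, mul_inv_cancel₀ (norm_ne_zero_iff.2 hz), one_smul]⟩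

theorem isStarBody_starSet [FiniteDimensional ℝ E] [Nontrivial E] {f : E → ℝ}
    (hf : ∀ u, ‖u‖ = 1 → 0 ≤ f u) (hc : ContinuousOn f (sphere (0 : E) 1)) :
    IsStarBody (starSet f) := by
  have himg : starSet f = (fun q : E × ℝ => (q.2 * f q.1) • q.1) '' (sphere (0 : E) 1 ×ˢ Icc (0 : ℝ) 1) := by
    ext x
    constructor
    · rintro ⟨u, hu, c, hc0, hcf, rfl⟩
      rcases (hf u hu).eq_or_lt with h0 | h0
      · refine ⟨(u, 0), ⟨by rw [mem_sphere_zero_iff_norm]; exact hu, by simp⟩, ?_⟩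
        have : c = 0 := le_antisymm (hcf.trans h0.symm.le) hc0
        simp [this]
      · refine ⟨(u, c / f u), ⟨by rw [mem_sphere_zero_iff_norm]; exact hu, by positivity, ?_⟩, ?_⟩
        · exact (div_le_one h0).2 hcf
        · simp only
          rw [div_mul_cancel₀ _ h0.ne']
    · rintro ⟨⟨u, s⟩, ⟨hu, hs0, hs1⟩, rfl⟩
      rw [mem_sphere_zero_iff_norm] at hu
      have h0 := hf u hu
      refine ⟨u, hu, s * f u, mul_nonneg hs0 h0, ?_, rfl⟩
      exact mul_le_of_le_one_left h0 hs1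
  constructor
  · rw [himg]
    apply IsCompact.image_of_continuousOn ((isCompact_sphere _ _).prod isCompact_Icc)
    apply ContinuousOn.smul _ continuous_fst.continuousOn
    apply ContinuousOn.mul continuous_snd.continuousOn
    exact hc.comp continuous_fst.continuousOn (fun q hq => hq.1)
  · obtain ⟨u, hu⟩ := exists_norm_eq E (zero_le_one)
    exact ⟨u, hu, 0, le_rfl, hf u hu, by rw [zero_smul]⟩
  · rintro x ⟨u, hu, c, hc0, hcf, rfl⟩ t ht0 ht1
    refine ⟨u, hu, t * c, mul_nonneg ht0 hc0, ?_, by rw [smul_smul]⟩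
    exact (mul_le_of_le_one_left hc0 ht1).trans hcf
  · apply hc.congr
    intro u hu
    rw [mem_sphere_zero_iff_norm] at hu
    exact radial_starSet hf hu

theorem radial_starSet' {f : E → ℝ} (hf : ∀ u, ‖u‖ = 1 → 0 ≤ f u) {u : E} (hu : ‖u‖ = 1) :
    radial (starSet f) u = f u := radial_starSet hf hu

theorem abs_inner_le_one {u e : E} (hu : ‖u‖ = 1) (he : ‖e‖ = 1) : |(⟪u, e⟫ : ℝ)| ≤ 1 := by
  have := abs_real_inner_le_norm u e
  rwa [hu, he, one_mul] at this

theorem norm_shift {u e : E} (hu : ‖u‖ = 1) (he : ‖e‖ = 1) (a c : ℝ) :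
    ‖a • e + c • u‖ = ww a c ⟪u, e⟫ := by
  unfold ww
  rw [← Real.sqrt_sq (norm_nonneg (a • e + c • u)), norm_add_sq_real, norm_smul, norm_smul, he, hu,
    real_inner_smul_left, real_inner_smul_right, real_inner_comm u e]
  congr 1
  simp only [Real.norm_eq_abs, mul_one, sq_abs]
  ring

theorem inner_shift {u e : E} (he : ‖e‖ = 1) (a c : ℝ) :
    ⟪a • e + c • u, e⟫ = a + c * ⟪u, e⟫ := by
  rw [inner_add_left, real_inner_smul_left, real_inner_smul_left, real_inner_self_eq_norm_sq, he]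
  ring

/-- the shifted body -/
theorem shift_mem [Nontrivial E] {p a : ℝ} {κ c : ℝ → ℝ} (hp : 1 ≤ p) (hp2 : p ≤ 2) (ha : 0 < a)
    (ha1 : a ≤ 1 / 100) (hκ : Cls p a κ) (hroot : ∀ t, |t| ≤ 1 → IsRoot a κ t (c t)) {e : E}
    (he : ‖e‖ = 1) (z : E) :
    a • e + z ∈ starSet (fun u : E => κ ⟪u, e⟫) ↔ z ∈ starSet (fun u : E => c ⟪u, e⟫) := by
  have hk0 : ∀ u : E, ‖u‖ = 1 → 0 ≤ κ ⟪u, e⟫ := by
    intro u hu
    have := hκ.abs_sub_one (by linarith) ha.le (abs_inner_le_one hu he)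
    have := (abs_le.1 this).1
    linarith
  have hc0 : ∀ u : E, ‖u‖ = 1 → 0 ≤ c ⟪u, e⟫ := fun u hu => (hroot _ (abs_inner_le_one hu he)).1.le
  obtain ⟨u, hu, hz⟩ := exists_polar z
  have ht := abs_inner_le_one hu he
  rw [hz, smul_mem_starSet hc0 hu (norm_nonneg z),
    ← root_le_iff hp hp2 ha ha1 hκ ht (hroot _ ht) (norm_nonneg z), ← norm_shift hu he]
  set y : E := a • e + ‖z‖ • u with hy
  by_cases hy0 : y = 0
  · have h1 : (0 : E) ∈ starSet (fun u : E => κ ⟪u, e⟫) := by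
      have := (smul_mem_starSet hk0 hu le_rfl).2 (hk0 u hu)
      rwa [zero_smul] at this
    have h2 : ‖y‖ ≤ κ (hh a ‖z‖ ⟪u, e⟫) := by
      rw [hy0, norm_zero]
      have := hκ.abs_sub_one (by linarith) ha.le (abs_hh_le (a := a) (c := ‖z‖) ht)
      have := (abs_le.1 this).1
      linarith
    rw [hy0] at h2 ⊢
    exact ⟨fun _ => h2, fun _ => h1⟩
  · have hyn : 0 < ‖y‖ := norm_pos_iff.2 hy0
    have hv : ‖‖y‖⁻¹ • y‖ = 1 := by
      rw [norm_smul, norm_inv, norm_norm, inv_mul_cancel₀ hyn.ne']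
    have h1 : y = ‖y‖ • (‖y‖⁻¹ • y) := by rw [smul_smul, mul_inv_cancel₀ hyn.ne', one_smul]
    have h2 : (⟪‖y‖⁻¹ • y, e⟫ : ℝ) = hh a ‖z‖ ⟪u, e⟫ := by
      rw [real_inner_smul_left, hy, inner_shift he, hh, ← norm_shift hu he, ← hy, div_eq_inv_mul]
    have h3 := smul_mem_starSet hk0 hv (norm_nonneg y)
    rw [← h1] at h3
    rw [h3, h2]

end sets

section copies

variable {E : Type*} [NormedAddCommGroup E] [InnerProductSpace ℝ E] [FiniteDimensional ℝ E]
  [MeasurableSpace E] [BorelSpace E]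

theorem interBody_neg' (i : ℝ) (L : Set E) {x : E} (hx : x ∈ interBody i L) :
    -x ∈ interBody i L := by
  obtain ⟨u, hu, c, hc, hle, rfl⟩ := hx
  refine ⟨-u, by rw [norm_neg, hu], c, hc, ?_, by rw [smul_neg]⟩
  unfold interRadial at *
  rwa [← neg_one_smul ℝ u, sphInt_smul _ _ _ (by norm_num)]

theorem translation_zero' (i : ℝ) {L : Set E} (hL : IsStarBody L) (hsym : ∀ y ∈ L, -y ∈ L)
    {x : E} {r : ℝ} (hr : 0 < r)
    (h : interBody i (interBody i L) = (fun y => x + r • y) '' L) : x = 0 := by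
  have hstep : ∀ y ∈ L, y + (2 / r) • x ∈ L := by
    intro y hy
    have h1 : x + r • y ∈ interBody i (interBody i L) := by rw [h]; exact ⟨y, hy, rfl⟩
    have h2 := interBody_neg' i _ h1
    rw [h] at h2
    obtain ⟨y', hy', he⟩ := h2
    simp only at he
    have h3 : y' = -(y + (2 / r) • x) := by
      have h4 : r • y' = -(x + r • y) - x := by rw [← he]; abel
      have h5 : y' = r⁻¹ • (r • y') := by rw [smul_smul, inv_mul_cancel₀ hr.ne', one_smul]
      rw [h5, h4]
      have h6 : (2 / r) • x = r⁻¹ • (x + x) := by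
        rw [← two_smul ℝ x, smul_smul]; congr 1; field_simp
      rw [h6]
      have h7 : y = r⁻¹ • (r • y) := by rw [smul_smul, inv_mul_cancel₀ hr.ne', one_smul]
      nth_rewrite 2 [h7]
      rw [← smul_add, ← smul_neg]
      congr 1
      abel
    have h8 := hsym y' hy'
    rw [h3, neg_neg] at h8
    exact h8
  have hall : ∀ k : ℕ, (k : ℝ) • ((2 / r) • x) ∈ L := by
    intro k
    induction k with
    | zero => simpa using hL.zero_mem
    | succ k ih =>
      have := hstep _ ih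
      push_cast
      rw [add_smul, one_smul]
      exact this
  obtain ⟨B, hB⟩ := hL.isCompact.isBounded.exists_norm_le
  by_contra hx
  have hpos : 0 < ‖(2 / r) • x‖ := norm_pos_iff.2 (smul_ne_zero (by positivity) hx)
  obtain ⟨k, hk⟩ := exists_nat_gt (B / ‖(2 / r) • x‖)
  have h1 := hB _ (hall k)
  rw [norm_smul, Real.norm_eq_abs, abs_of_nonneg (Nat.cast_nonneg k)] at h1
  rw [div_lt_iff₀ hpos] at hk
  linarith

/-- intersection body of a body of revolution -/
theorem interRadial_zonal {m : ℕ} [NeZero m] (hm : 2 ≤ m) (hE : finrank ℝ E = m + 1) {i : ℝ}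
    (hi : 0 ≤ i) {e : E} (he : ‖e‖ = 1) {L : Set E} {f : ℝ → ℝ} (hf : ContinuousOn f (Icc (-1) 1))
    (hL : ∀ v : E, ‖v‖ = 1 → radial L v = f ⟪v, e⟫) {u : E} (hu : ‖u‖ = 1) :
    interRadial i L u = (m : ℝ)⁻¹ * massS m * Rad (nuS m) (fun s => (f s) ^ i) ⟪u, e⟫ := by
  have h1 : sphInt (fun v => radial L v ^ i) u = sphInt (fun v : E => (fun s => (f s) ^ i) ⟪v, e⟫) u := by
    apply sphInt_congr
    intro v hv
    simp only
    rw [hL v hv]
  have hfi : ContinuousOn (fun s => (f s) ^ i) (Icc (-1) 1) := hf.rpow_const (fun x _ => Or.inr hi)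
  rw [interRadial, h1, sphInt_zonal hm hE e u he hu _ hfi, hE]
  push_cast
  ring

end copies

end StarTr
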