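import Mathlib

set_option autoImplicit false

/-!
# StarTr: star bodies which are translates of dilatates of their iterated intersection body

Definitions for the one dimensional analysis (zonal functions of the height `t = ⟨u, e⟩`).

`Cls p a κ`: `|κ - 1| ≤ a` and `κ` has modulus `a` with respect to `|h| ^ p` on `[-1, 1]`; in particular `κ` is
even there.  `κ` is the radial function of a centred body of revolution `M`.

`IsRoot a κ t c`: the point `a e + c u` with `⟨u, e⟩ = t`, `|u| = 1`, lies on the boundary of `M`; its norm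
is `ww a c t` and its height (direction cosine) is `hh a c t`.
-/

open MeasureTheory Set

namespace StarTr

/-- Properties of the law of a coordinate of a uniform point of the unit sphere of `ℝ^m`. -/
structure SLaw (m : ℕ) (ν : Measure ℝ) : Prop where
  prob : IsProbabilityMeasure ν
  supp : ∀ᵐ s ∂ν, |s| < 1
  symm : ν.map (fun s => -s) = ν
  sq : ∫ s, s ^ 2 ∂ν = (m : ℝ)⁻¹
  mom : ∀ q : ℝ, 0 ≤ q → q < 1 → Integrable (fun s : ℝ => (1 - s ^ 2) ^ (-(q / 2))) ν

/-- the spherical Radon transform of zonal functions -/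
noncomputable def Rad (ν : Measure ℝ) (f : ℝ → ℝ) (t : ℝ) : ℝ :=
  ∫ s, f (√(1 - t ^ 2) * s) ∂ν

/-- the class of radial functions -/
def Cls (p a : ℝ) (κ : ℝ → ℝ) : Prop :=
  (∀ h : ℝ, |h| ≤ 1 → |κ h - 1| ≤ a) ∧
    ∀ h h' : ℝ, |h| ≤ 1 → |h'| ≤ 1 → |κ h - κ h'| ≤ a * |(|h| ^ p - |h'| ^ p)|

/-- norm of `a e + c u`, `t = ⟨u, e⟩` -/
noncomputable def ww (a c t : ℝ) : ℝ := √(a ^ 2 + 2 * a * c * t + c ^ 2)

/-- height of `a e + c u` -/
noncomputable def hh (a c t : ℝ) : ℝ := (a + c * t) / ww a c t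

/-- `a e + c u` lies on the boundary of the body with radial function `κ` -/
def IsRoot (a : ℝ) (κ : ℝ → ℝ) (t c : ℝ) : Prop := 0 < c ∧ ww a c t = κ (hh a c t)

end StarTr
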