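import Pool.Agent.StarTr.Roots

set_option autoImplicit false

/-!
# StarTr, module Delta: the height of the boundary point depends on the direction almost trivially

`c`, `c'` are roots at `t`, `t'`.  Write `w = ww a c t`, `h = hh a c t`, `r = c + a t = √(w^2 - a^2 (1 - t^2)) > 0`.
Then `h w = a + c t = a (1 - t^2) + r t` and `w - r = a^2 (1 - t^2) / (w + r)`, so

  `h - t = (1 - t^2) * a * (1 - a t / (w + r)) / w`.          (1)

`delta_bound` follows (`w ≥ 0.99`).  For `delta_lip` use (1): the right side is a Lipschitz function of `(t, w)`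
with constants `≤ 3 a` in `t` and `≤ 2 a` in `w` (`|r - r'| ≤ 1.1 |w - w'| + 0.01 |t - t'|`), and
`|w - w'| = |κ h - κ h'| ≤ a | |h|^p - |h'|^p | ≤ 2 a |h - h'| ≤ 2 a (|t - t'| + |δ - δ'|)`, `δ = h - t`.
`c = r - a t`.
-/

namespace StarTr

variable {p a : ℝ} {κ : ℝ → ℝ} {t c t' c' : ℝ}

namespace DeltaAux

theorem ww_sq (ht : |t| ≤ 1) : ww a c t ^ 2 = (c + a * t) ^ 2 + a ^ 2 * (1 - t ^ 2) := by
  have h1 : t ^ 2 ≤ 1 := by
    rw [← sq_abs]
    have := abs_nonneg t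
    nlinarith
  have h2 : 0 ≤ a ^ 2 + 2 * a * c * t + c ^ 2 := by
    nlinarith [sq_nonneg (c + a * t), mul_nonneg (sq_nonneg a) (sub_nonneg.2 h1)]
  rw [ww, Real.sq_sqrt h2]
  ring

/-- all elementary facts at one root -/
theorem facts (hp : 1 ≤ p) (hp2 : p ≤ 2) (ha : 0 < a) (ha1 : a ≤ 1 / 100) (hκ : Cls p a κ)
    (ht : |t| ≤ 1) (hc : IsRoot a κ t c) :
    (99 / 100 ≤ ww a c t ∧ ww a c t ≤ 101 / 100) ∧
    (97 / 100 ≤ c + a * t ∧ c + a * t ≤ 103 / 100) ∧
    (0 ≤ ww a c t - (c + a * t) ∧ ww a c t - (c + a * t) ≤ a / 100) ∧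
    (ww a c t - (c + a * t)) * (ww a c t + (c + a * t)) = a ^ 2 * (1 - t ^ 2) ∧
    (hh a c t - t) * ww a c t = a * (1 - t ^ 2) - t * (ww a c t - (c + a * t)) := by
  obtain ⟨h1, h2⟩ := root_bounds hp hp2 ha ha1 hκ ht hc
  obtain ⟨t1, t2⟩ := abs_le.1 ht
  obtain ⟨h1a, h1b⟩ := abs_le.1 h1
  obtain ⟨h2a, h2b⟩ := abs_le.1 h2
  have hat1 : -a ≤ a * t := by nlinarith
  have hat2 : a * t ≤ a := by nlinarith
  have hsq := ww_sq (a := a) (c := c) ht
  set w := ww a c t with hw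
  set r := c + a * t with hr
  have hw1 : 99 / 100 ≤ w := by linarith
  have hw2 : w ≤ 101 / 100 := by linarith
  have hr1 : 97 / 100 ≤ r := by linarith
  have hr2 : r ≤ 103 / 100 := by linarith
  have ht2 : 0 ≤ 1 - t ^ 2 := by nlinarith
  have hprod : (w - r) * (w + r) = a ^ 2 * (1 - t ^ 2) := by linarith [hsq]
  have hs0 : 0 ≤ w - r := by
    by_contra hneg
    push Not at hneg
    have : (w - r) * (w + r) < 0 := by nlinarith
    have h3 : 0 ≤ a ^ 2 * (1 - t ^ 2) := mul_nonneg (sq_nonneg a) ht2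
    linarith
  have hs1 : w - r ≤ a / 100 := by
    have h3 : a ^ 2 * (1 - t ^ 2) ≤ a * (1 / 100) := by
      have h4 : a ^ 2 * (1 - t ^ 2) ≤ a ^ 2 := by nlinarith [sq_nonneg a, sq_nonneg t, mul_nonneg (sq_nonneg a) (sq_nonneg t)]
      nlinarith
    nlinarith
  refine ⟨⟨hw1, hw2⟩, ⟨hr1, hr2⟩, ⟨hs0, hs1⟩, hprod, ?_⟩
  have hw0 : w ≠ 0 := by linarith
  have h5 : hh a c t * w = a + c * t := by
    rw [hh, ← hw, div_mul_cancel₀ _ hw0]
  rw [sub_mul, h5]
  have h6 : c = r - a * t := by rw [hr]; ring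
  rw [h6]
  ring

end DeltaAux

open DeltaAux

theorem delta_eq (hp : 1 ≤ p) (hp2 : p ≤ 2) (ha : 0 < a) (ha1 : a ≤ 1 / 100) (hκ : Cls p a κ)
    (ht : |t| ≤ 1) (hc : IsRoot a κ t c) :
    hh a c t - t = (1 - t ^ 2) * a * (1 - a * t / (ww a c t + (c + a * t))) / ww a c t ∧
      c + a * t = √(ww a c t ^ 2 - a ^ 2 * (1 - t ^ 2)) := by
  obtain ⟨⟨hw1, hw2⟩, ⟨hr1, hr2⟩, ⟨hs0, hs1⟩, hprod, hdel⟩ := facts hp hp2 ha ha1 hκ ht hc
  constructor
  · have hw0 : ww a c t ≠ 0 := by linarith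
    have hwr : ww a c t + (c + a * t) ≠ 0 := by linarith
    have h1 : ww a c t - (c + a * t) = a ^ 2 * (1 - t ^ 2) / (ww a c t + (c + a * t)) := by
      rw [eq_div_iff hwr, hprod]
    rw [eq_div_iff hw0, hdel, h1]
    ring
  · have h2 : ww a c t ^ 2 - a ^ 2 * (1 - t ^ 2) = (c + a * t) ^ 2 := by
      rw [ww_sq ht]
      ring
    rw [h2, Real.sqrt_sq (by linarith)]

theorem delta_bound (hp : 1 ≤ p) (hp2 : p ≤ 2) (ha : 0 < a) (ha1 : a ≤ 1 / 100) (hκ : Cls p a κ)
    (ht : |t| ≤ 1) (hc : IsRoot a κ t c) : 0 ≤ hh a c t - t ∧ hh a c t - t ≤ 2 * a := by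
  obtain ⟨⟨hw1, hw2⟩, ⟨hr1, hr2⟩, ⟨hs0, hs1⟩, hprod, hdel⟩ := facts hp hp2 ha ha1 hκ ht hc
  obtain ⟨t1, t2⟩ := abs_le.1 ht
  have ht2 : 0 ≤ 1 - t ^ 2 := by nlinarith
  set w := ww a c t with hw
  set r := c + a * t with hr
  set δ := hh a c t - t with hδ
  constructor
  · -- `δ w = a (1 - t^2) - t s`, `s (w + r) = a^2 (1 - t^2)`
    have h1 : δ * w * (w + r) = a * (1 - t ^ 2) * ((w + r) - a * t) := by
      rw [hdel]
      have : t * (w - r) * (w + r) = t * (a ^ 2 * (1 - t ^ 2)) := by rw [mul_assoc, hprod]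
      linear_combination -this
    have h2 : 0 ≤ a * (1 - t ^ 2) * ((w + r) - a * t) := by
      apply mul_nonneg (mul_nonneg ha.le ht2)
      nlinarith
    have h3 : 0 < w * (w + r) := by
      apply mul_pos <;> linarith
    rw [← h1, mul_assoc] at h2
    exact nonneg_of_mul_nonneg_left h2 h3
  · have h1 : δ * w ≤ a + a / 100 := by
      rw [hdel]
      have h2 : a * (1 - t ^ 2) ≤ a := by nlinarith [sq_nonneg t]
      have h3 : -(t * (w - r)) ≤ a / 100 := by
        nlinarith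
      linarith
    by_contra hlt
    push Not at hlt
    have : 2 * a * (99 / 100) ≤ δ * w := by
      apply mul_le_mul hlt.le hw1 (by norm_num)
      linarith
    linarith

namespace DeltaAux

theorem sqa (ha : 0 < a) (ha1 : a ≤ 1 / 100) : a ^ 2 ≤ a / 100 := by nlinarith

theorem sqT {T : ℝ} (ha : 0 < a) (ha1 : a ≤ 1 / 100) (hT : 0 ≤ T) :
    a ^ 2 * (2 * T) ≤ a / 50 * T := by
  have h := mul_le_mul_of_nonneg_right (sqa ha ha1) (by positivity : 0 ≤ 2 * T)
  linarith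

/-- the core estimates -/
theorem core (hp : 1 ≤ p) (hp2 : p ≤ 2) (ha : 0 < a) (ha1 : a ≤ 1 / 100) (hκ : Cls p a κ)
    (ht : |t| ≤ 1) (hc : IsRoot a κ t c) (ht' : |t'| ≤ 1) (hc' : IsRoot a κ t' c') :
    |(hh a c t - t) - (hh a c' t' - t')| ≤ 3 * a * |t - t'| ∧
    |ww a c t - ww a c' t'| ≤ 2 * a * (|t - t'| + |(hh a c t - t) - (hh a c' t' - t')|) ∧
    |(c + a * t) - (c' + a * t')| ≤ 11 / 10 * |ww a c t - ww a c' t'| + a / 50 * |t - t'| := by
  obtain ⟨⟨hw1, hw2⟩, ⟨hr1, hr2⟩, ⟨hs0, hs1⟩, hprod, hdel⟩ := facts hp hp2 ha ha1 hκ ht hc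
  obtain ⟨⟨hw1', hw2'⟩, ⟨hr1', hr2'⟩, ⟨hs0', hs1'⟩, hprod', hdel'⟩ :=
    facts hp hp2 ha ha1 hκ ht' hc'
  obtain ⟨d1, d2⟩ := delta_bound hp hp2 ha ha1 hκ ht' hc'
  have hh1 : |hh a c t| ≤ 1 := abs_hh_le ht
  have hh2 : |hh a c' t'| ≤ 1 := abs_hh_le ht'
  have hwk : ww a c t - ww a c' t' = κ (hh a c t) - κ (hh a c' t') := by
    rw [hc.2, hc'.2]
  have hκ1 := hκ.2 _ _ hh1 hh2
  have hκ2 := abs_rpow_sub (M := 1) hp hh1 hh2
  rw [Real.one_rpow, mul_one] at hκ2
  set w := ww a c t with hw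
  set w' := ww a c' t' with hw'
  set r := c + a * t with hr
  set r' := c' + a * t' with hr'
  set h := hh a c t with hhdef
  set h' := hh a c' t' with hhdef'
  set T := |t - t'| with hT
  have hT0 : 0 ≤ T := abs_nonneg _
  obtain ⟨t1, t2⟩ := abs_le.1 ht
  obtain ⟨t1', t2'⟩ := abs_le.1 ht'
  -- `|t^2 - t'^2| ≤ 2 T`
  have hsqT : |t ^ 2 - t' ^ 2| ≤ 2 * T := by
    have h1 : t ^ 2 - t' ^ 2 = (t + t') * (t - t') := by ring
    rw [h1, abs_mul]
    apply mul_le_mul_of_nonneg_right _ hT0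
    rw [abs_le]
    constructor <;> linarith
  -- Lipschitz estimate of `w`
  have hW : |w - w'| ≤ 2 * a * (T + |(h - t) - (h' - t')|) := by
    have h1 : |h - h'| ≤ T + |(h - t) - (h' - t')| := by
      have : h - h' = (t - t') + ((h - t) - (h' - t')) := by ring
      rw [this]
      exact abs_add_le _ _
    rw [hwk]
    calc |κ h - κ h'| ≤ a * |(|h| ^ p - |h'| ^ p)| := hκ1
      _ ≤ a * (p * |h - h'|) := mul_le_mul_of_nonneg_left hκ2 ha.le
      _ ≤ a * (2 * (T + |(h - t) - (h' - t')|)) := by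
          apply mul_le_mul_of_nonneg_left _ ha.le
          exact mul_le_mul hp2 h1 (abs_nonneg _) (by norm_num)
      _ = _ := by ring
  -- Lipschitz estimate of `r`
  have hR : |r - r'| ≤ 11 / 10 * |w - w'| + a / 50 * T := by
    have h1 : (r + r') * (r - r') = (w + w') * (w - w') + a ^ 2 * (t ^ 2 - t' ^ 2) := by
      linear_combination hprod' - hprod
    have h2 : (r + r') * |r - r'| ≤ (w + w') * |w - w'| + a ^ 2 * (2 * T) := by
      calc (r + r') * |r - r'| = |(r + r') * (r - r')| := by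
            rw [abs_mul, abs_of_pos (show 0 < r + r' by linarith)]
        _ = |(w + w') * (w - w') + a ^ 2 * (t ^ 2 - t' ^ 2)| := by rw [h1]
        _ ≤ |(w + w') * (w - w')| + |a ^ 2 * (t ^ 2 - t' ^ 2)| := abs_add_le _ _
        _ = (w + w') * |w - w'| + a ^ 2 * |t ^ 2 - t' ^ 2| := by
            rw [abs_mul, abs_mul, abs_of_pos (show 0 < w + w' by linarith),
              abs_of_nonneg (sq_nonneg a)]
        _ ≤ _ := by
            have := mul_le_mul_of_nonneg_left hsqT (sq_nonneg a)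
            linarith
    have h3 : (194 / 100 : ℝ) * |r - r'| ≤ (r + r') * |r - r'| :=
      mul_le_mul_of_nonneg_right (by linarith) (abs_nonneg _)
    have h4 : (w + w') * |w - w'| ≤ 202 / 100 * |w - w'| :=
      mul_le_mul_of_nonneg_right (by linarith) (abs_nonneg _)
    have h5 : a ^ 2 * (2 * T) ≤ a / 50 * T := sqT ha ha1 hT0
    have h6 : 0 ≤ |w - w'| := abs_nonneg _
    have h7 : 0 ≤ a / 50 * T := by positivity
    linarith
  refine ⟨?_, hW, hR⟩
  -- the difference of `s = w - r`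
  have hS : |(w - r) - (w' - r')| ≤ a / 50 * T + a / 100 * (|w - w'| + |r - r'|) := by
    have h1 : ((w - r) - (w' - r')) * (w + r) = a ^ 2 * (t' ^ 2 - t ^ 2) -
        (w' - r') * ((w - w') + (r - r')) := by
      linear_combination hprod - hprod'
    have h2 : |(w - r) - (w' - r')| * (w + r) ≤ a ^ 2 * (2 * T) +
        (a / 100) * (|w - w'| + |r - r'|) := by
      calc |(w - r) - (w' - r')| * (w + r) = |((w - r) - (w' - r')) * (w + r)| := by
            rw [abs_mul, abs_of_pos (show 0 < w + r by linarith)]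
        _ = |a ^ 2 * (t' ^ 2 - t ^ 2) - (w' - r') * ((w - w') + (r - r'))| := by rw [h1]
        _ ≤ |a ^ 2 * (t' ^ 2 - t ^ 2)| + |(w' - r') * ((w - w') + (r - r'))| := abs_sub _ _
        _ = a ^ 2 * |t ^ 2 - t' ^ 2| + (w' - r') * |(w - w') + (r - r')| := by
            rw [abs_mul, abs_mul, abs_of_nonneg (sq_nonneg a), abs_of_nonneg hs0',
              abs_sub_comm (t' ^ 2)]
        _ ≤ _ := by
            have e1 := mul_le_mul_of_nonneg_left hsqT (sq_nonneg a)
            have e2 : (w' - r') * |(w - w') + (r - r')| ≤ (a / 100) * (|w - w'| + |r - r'|) :=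
              mul_le_mul hs1' (abs_add_le _ _) (abs_nonneg _) (by positivity)
            linarith
    have h3 : |(w - r) - (w' - r')| * 1 ≤ |(w - r) - (w' - r')| * (w + r) :=
      mul_le_mul_of_nonneg_left (by linarith) (abs_nonneg _)
    have h5 : a ^ 2 * (2 * T) ≤ a / 50 * T := sqT ha ha1 hT0
    linarith
  -- the difference of `δ`
  set D := |(h - t) - (h' - t')| with hD
  have hD0 : 0 ≤ D := abs_nonneg _
  have hmain : D * w ≤ 2 * a * T + a / 100 * T + |(w - r) - (w' - r')| + 2 * a * |w - w'| := by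
    have h1 : ((h - t) - (h' - t')) * w = a * (t' ^ 2 - t ^ 2) - (t - t') * (w - r) -
        t' * ((w - r) - (w' - r')) - (h' - t') * (w - w') := by
      linear_combination hdel - hdel'
    calc D * w = |((h - t) - (h' - t')) * w| := by
          rw [abs_mul, abs_of_pos (show 0 < w by linarith)]
      _ = |a * (t' ^ 2 - t ^ 2) - (t - t') * (w - r) -
        t' * ((w - r) - (w' - r')) - (h' - t') * (w - w')| := by rw [h1]
      _ ≤ |a * (t' ^ 2 - t ^ 2)| + |(t - t') * (w - r)| + |t' * ((w - r) - (w' - r'))| +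
          |(h' - t') * (w - w')| := by
          refine (abs_sub _ _).trans (add_le_add ((abs_sub _ _).trans
            (add_le_add (abs_sub _ _) le_rfl)) le_rfl)
      _ = a * |t ^ 2 - t' ^ 2| + T * (w - r) + |t'| * |(w - r) - (w' - r')| +
          (h' - t') * |w - w'| := by
          rw [abs_mul, abs_mul, abs_mul, abs_mul, abs_of_pos ha, abs_of_nonneg hs0,
            abs_of_nonneg d1, abs_sub_comm (t' ^ 2)]
      _ ≤ _ := by
          have e1 := mul_le_mul_of_nonneg_left hsqT ha.le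
          have e2 := mul_le_mul_of_nonneg_left hs1 hT0
          have e3 := mul_le_mul_of_nonneg_right ht' (abs_nonneg ((w - r) - (w' - r')))
          have e4 := mul_le_mul_of_nonneg_right d2 (abs_nonneg (w - w'))
          linarith
  have hDw : D * (99 / 100) ≤ D * w := mul_le_mul_of_nonneg_left hw1 hD0
  -- put everything together
  have hWd0 : 0 ≤ |w - w'| := abs_nonneg _
  have hW' : |w - w'| ≤ 1 / 50 * T + 1 / 50 * D := by
    refine hW.trans ?_
    have h1 : 2 * a ≤ 1 / 50 := by linarith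
    have h2 := mul_le_mul_of_nonneg_right h1 (add_nonneg hT0 hD0)
    linarith
  have hsum : |w - w'| + |r - r'| ≤ T + D := by
    have : a / 50 * T ≤ 1 / 5000 * T := mul_le_mul_of_nonneg_right (by linarith) hT0
    linarith
  have hS' : |(w - r) - (w' - r')| ≤ a / 50 * T + a / 100 * (T + D) := by
    have : a / 100 * (|w - w'| + |r - r'|) ≤ a / 100 * (T + D) :=
      mul_le_mul_of_nonneg_left hsum (by positivity)
    linarith
  have hW2 : 2 * a * |w - w'| ≤ 2 * a * (1 / 50 * T + 1 / 50 * D) :=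
    mul_le_mul_of_nonneg_left hW' (by positivity)
  -- `D * 0.99 ≤ (2.2 a) T + (a / 10) D`
  have hfin : D * (99 / 100) ≤ 22 / 10 * (a * T) + 1 / 10 * (a * D) := by
    have e0 : 0 ≤ a * T := by positivity
    have e1 : 0 ≤ a * D := by positivity
    linarith
  have haD : a * D ≤ 1 / 100 * D := mul_le_mul_of_nonneg_right ha1 hD0
  have e0 : 0 ≤ a * T := by positivity
  have : D * (98 / 100) ≤ 22 / 10 * (a * T) := by linarith
  linarith

end DeltaAux

theorem delta_lip (hp : 1 ≤ p) (hp2 : p ≤ 2) (ha : 0 < a) (ha1 : a ≤ 1 / 100) (hκ : Cls p a κ)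
    (ht : |t| ≤ 1) (hc : IsRoot a κ t c) (ht' : |t'| ≤ 1) (hc' : IsRoot a κ t' c') :
    |(hh a c t - t) - (hh a c' t' - t')| ≤ 10 * a * |t - t'| := by
  refine (core hp hp2 ha ha1 hκ ht hc ht' hc').1.trans ?_
  have : 0 ≤ a * |t - t'| := by positivity
  linarith

theorem ww_lip (hp : 1 ≤ p) (hp2 : p ≤ 2) (ha : 0 < a) (ha1 : a ≤ 1 / 100) (hκ : Cls p a κ)
    (ht : |t| ≤ 1) (hc : IsRoot a κ t c) (ht' : |t'| ≤ 1) (hc' : IsRoot a κ t' c') :
    |ww a c t - ww a c' t'| ≤ 3 * a * |t - t'| := by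
  obtain ⟨h1, h2, -⟩ := core hp hp2 ha ha1 hκ ht hc ht' hc'
  refine h2.trans ?_
  have h3 : |t - t'| + |(hh a c t - t) - (hh a c' t' - t')| ≤ 3 / 2 * |t - t'| := by
    have : 3 * a * |t - t'| ≤ 3 / 100 * |t - t'| :=
      mul_le_mul_of_nonneg_right (by linarith) (abs_nonneg _)
    have := abs_nonneg (t - t')
    linarith
  calc 2 * a * (|t - t'| + |(hh a c t - t) - (hh a c' t' - t')|)
      ≤ 2 * a * (3 / 2 * |t - t'|) := mul_le_mul_of_nonneg_left h3 (by positivity)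
    _ = _ := by ring

theorem root_lip (hp : 1 ≤ p) (hp2 : p ≤ 2) (ha : 0 < a) (ha1 : a ≤ 1 / 100) (hκ : Cls p a κ)
    (ht : |t| ≤ 1) (hc : IsRoot a κ t c) (ht' : |t'| ≤ 1) (hc' : IsRoot a κ t' c') :
    |c - c'| ≤ 10 * a * |t - t'| := by
  obtain ⟨-, -, h3⟩ := core hp hp2 ha ha1 hκ ht hc ht' hc'
  have h4 := ww_lip hp hp2 ha ha1 hκ ht hc ht' hc'
  have h5 : c - c' = ((c + a * t) - (c' + a * t')) - a * (t - t') := by ring
  have h6 : |c - c'| ≤ |(c + a * t) - (c' + a * t')| + a * |t - t'| := by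
    rw [h5]
    refine (abs_sub _ _).trans ?_
    rw [abs_mul a, abs_of_pos ha]
  have : 0 ≤ a * |t - t'| := by positivity
  linarith

end StarTr
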