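import Mathlib

set_option autoImplicit false

/-!
# StarTr, module Pow2: more inequalities for real powers

* `one_add_rpow`, `one_sub_rpow`: mean value theorem.
* `four_pt`: `φ λ = f (y + λ (x-y)) - f (y' + λ (x'-y'))`, `f = (· ^ i)`, mean value inequality on `[0,1]`:
  `φ' = f'(..) (x-y) - f'(..) (x'-y')`, `f'` bounded and Lipschitz on `[1/2, 2]`.
* `even_est`: `(ρ, x) ↦ ((ρ+x)^i + (ρ-x)^i)/2` is Lipschitz in `ρ`; in `x` its derivative is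
  `i/2 ((ρ+x)^(i-1) - (ρ-x)^(i-1))`, of absolute value `≤ C x`, so `K x^2 ± f` are monotone on `[0, 1/4]`.
-/

namespace StarTr

namespace Pow2Aux

lemma bound (r : ℝ) : ∃ C : ℝ, 0 ≤ C ∧ ∀ x : ℝ, 1 / 2 ≤ x → x ≤ 2 → |x ^ r| ≤ C := by
  have hc : ContinuousOn (fun x : ℝ => x ^ r) (Set.Icc (1 / 2) 2) := by
    intro x hx
    have hx0 : x ≠ 0 := by
      have := hx.1
      intro h
      rw [h] at this
      norm_num at this
    exact (Real.continuousAt_rpow_const x r (Or.inl hx0)).continuousWithinAt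
  obtain ⟨C, hC⟩ := isCompact_Icc.exists_bound_of_continuousOn hc
  refine ⟨max C 0, le_max_right _ _, ?_⟩
  intro x h1 h2
  exact (hC x ⟨h1, h2⟩).trans (le_max_left _ _)

lemma lip (r : ℝ) : ∃ C : ℝ, 0 ≤ C ∧ ∀ x y : ℝ, 1 / 2 ≤ x → x ≤ 2 → 1 / 2 ≤ y → y ≤ 2 →
    |x ^ r - y ^ r| ≤ C * |x - y| := by
  obtain ⟨C, hC0, hC⟩ := bound (r - 1)
  refine ⟨|r| * C, by positivity, ?_⟩
  intro x y h1 h2 h3 h4
  have hd : ∀ z ∈ Set.Icc (1 / 2 : ℝ) 2,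
      HasDerivWithinAt (fun z : ℝ => z ^ r) (r * z ^ (r - 1)) (Set.Icc (1 / 2 : ℝ) 2) z := by
    intro z hz
    have hz0 : z ≠ 0 := by
      have := hz.1
      intro h
      rw [h] at this
      norm_num at this
    exact (Real.hasDerivAt_rpow_const (Or.inl hz0)).hasDerivWithinAt
  have hb : ∀ z ∈ Set.Icc (1 / 2 : ℝ) 2, ‖r * z ^ (r - 1)‖ ≤ |r| * C := by
    intro z hz
    rw [norm_mul, Real.norm_eq_abs, Real.norm_eq_abs]
    exact mul_le_mul_of_nonneg_left (hC z hz.1 hz.2) (abs_nonneg r)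
  have h := (convex_Icc (1 / 2 : ℝ) 2).norm_image_sub_le_of_norm_hasDerivWithin_le hd hb
    (⟨h3, h4⟩ : y ∈ Set.Icc (1 / 2 : ℝ) 2) (⟨h1, h2⟩ : x ∈ Set.Icc (1 / 2 : ℝ) 2)
  simpa [Real.norm_eq_abs] using h

end Pow2Aux

open Pow2Aux

theorem one_add_rpow (r : ℝ) : ∃ C : ℝ, 0 ≤ C ∧ ∀ η : ℝ, 0 ≤ η → η ≤ 1 →
    (1 + η) ^ r ≤ 1 + C * η := by
  obtain ⟨C, hC0, hC⟩ := lip r
  refine ⟨C, hC0, ?_⟩
  intro η h0 h1
  have h := hC (1 + η) 1 (by linarith) (by linarith) (by norm_num) (by norm_num)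
  rw [Real.one_rpow] at h
  have h2 : |1 + η - 1| = η := by
    rw [add_sub_cancel_left, abs_of_nonneg h0]
  rw [h2] at h
  linarith [le_abs_self ((1 + η) ^ r - 1)]

theorem one_sub_rpow (r : ℝ) : ∃ C : ℝ, 0 ≤ C ∧ ∀ η : ℝ, 0 ≤ η → η ≤ 1 / 2 →
    1 - C * η ≤ (1 - η) ^ r := by
  obtain ⟨C, hC0, hC⟩ := lip r
  refine ⟨C, hC0, ?_⟩
  intro η h0 h1
  have h := hC (1 - η) 1 (by linarith) (by linarith) (by norm_num) (by norm_num)
  rw [Real.one_rpow] at h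
  have h2 : |1 - η - 1| = η := by
    have : 1 - η - 1 = -η := by ring
    rw [this, abs_neg, abs_of_nonneg h0]
  rw [h2] at h
  linarith [neg_abs_le ((1 - η) ^ r - 1)]

theorem four_pt (i : ℝ) : ∃ C : ℝ, 0 ≤ C ∧ ∀ x y x' y' : ℝ, 1 / 2 ≤ x → x ≤ 2 → 1 / 2 ≤ y → y ≤ 2 →
    1 / 2 ≤ x' → x' ≤ 2 → 1 / 2 ≤ y' → y' ≤ 2 →
    |(x ^ i - y ^ i) - (x' ^ i - y' ^ i)| ≤
      C * (|(x - y) - (x' - y')| + |x' - y'| * (|x - x'| + |y - y'|)) := by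
  obtain ⟨C1, hC10, hC1⟩ := bound (i - 1)
  obtain ⟨C2, hC20, hC2⟩ := lip (i - 1)
  refine ⟨|i| * (C1 + C2), by positivity, ?_⟩
  intro x y x' y' hx1 hx2 hy1 hy2 hx1' hx2' hy1' hy2'
  have mem : ∀ t ∈ Set.Icc (0 : ℝ) 1, ∀ a b : ℝ, 1 / 2 ≤ a → a ≤ 2 → 1 / 2 ≤ b → b ≤ 2 →
      1 / 2 ≤ b + t * (a - b) ∧ b + t * (a - b) ≤ 2 := by
    intro t ht a b h1 h2 h3 h4
    obtain ⟨ht0, ht1⟩ := ht
    constructor
    · nlinarith [mul_nonneg ht0 (sub_nonneg.2 h1), mul_nonneg (sub_nonneg.2 ht1) (sub_nonneg.2 h3)]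
    · nlinarith [mul_nonneg ht0 (sub_nonneg.2 h2), mul_nonneg (sub_nonneg.2 ht1) (sub_nonneg.2 h4)]
  set φ : ℝ → ℝ := fun t => (y + t * (x - y)) ^ i - (y' + t * (x' - y')) ^ i with hφ
  set φ' : ℝ → ℝ := fun t => (x - y) * i * (y + t * (x - y)) ^ (i - 1) -
    (x' - y') * i * (y' + t * (x' - y')) ^ (i - 1) with hφ'
  have hder1 : ∀ t ∈ Set.Icc (0 : ℝ) 1, ∀ a b : ℝ, 1 / 2 ≤ a → a ≤ 2 → 1 / 2 ≤ b → b ≤ 2 →
      HasDerivAt (fun t => (b + t * (a - b)) ^ i)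
        ((a - b) * i * (b + t * (a - b)) ^ (i - 1)) t := by
    intro t ht a b h1 h2 h3 h4
    obtain ⟨h5, h6⟩ := mem t ht a b h1 h2 h3 h4
    have h7 : HasDerivAt (fun t : ℝ => b + t * (a - b)) (a - b) t := by
      simpa using ((hasDerivAt_id t).mul_const (a - b)).const_add b
    exact h7.rpow_const (Or.inl (by linarith))
  have hder : ∀ t ∈ Set.Icc (0 : ℝ) 1, HasDerivWithinAt φ (φ' t) (Set.Icc (0 : ℝ) 1) t := by
    intro t ht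
    exact ((hder1 t ht x y hx1 hx2 hy1 hy2).sub
      (hder1 t ht x' y' hx1' hx2' hy1' hy2')).hasDerivWithinAt
  have hbd : ∀ t ∈ Set.Ico (0 : ℝ) 1, ‖φ' t‖ ≤ |i| * (C1 + C2) *
      (|(x - y) - (x' - y')| + |x' - y'| * (|x - x'| + |y - y'|)) := by
    intro t ht'
    have ht : t ∈ Set.Icc (0 : ℝ) 1 := ⟨ht'.1, ht'.2.le⟩
    obtain ⟨ha1, ha2⟩ := mem t ht x y hx1 hx2 hy1 hy2
    obtain ⟨hb1, hb2⟩ := mem t ht x' y' hx1' hx2' hy1' hy2'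
    have e1 := hC1 _ ha1 ha2
    have e2 := hC2 _ _ ha1 ha2 hb1 hb2
    set a := y + t * (x - y) with ha
    set b := y' + t * (x' - y') with hb
    have e3 : |a - b| ≤ |x - x'| + |y - y'| := by
      have e4 : a - b = t * (x - x') + (1 - t) * (y - y') := by rw [ha, hb]; ring
      rw [e4]
      refine (abs_add_le _ _).trans ?_
      rw [abs_mul, abs_mul, abs_of_nonneg ht.1, abs_of_nonneg (sub_nonneg.2 ht.2)]
      nlinarith [abs_nonneg (x - x'), abs_nonneg (y - y'), ht.1, ht.2]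
    have e5 : φ' t = i * ((x - y - (x' - y')) * a ^ (i - 1) +
        (x' - y') * (a ^ (i - 1) - b ^ (i - 1))) := by
      rw [hφ']
      ring
    rw [e5, Real.norm_eq_abs, abs_mul, mul_assoc]
    refine mul_le_mul_of_nonneg_left ?_ (abs_nonneg i)
    refine (abs_add_le _ _).trans ?_
    rw [abs_mul, abs_mul]
    have p1 : 0 ≤ |x - y - (x' - y')| := abs_nonneg _
    have p2 : 0 ≤ |x' - y'| := abs_nonneg _
    have p3 : 0 ≤ |x - x'| + |y - y'| := by positivity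
    have q1 : |x - y - (x' - y')| * |a ^ (i - 1)| ≤ |x - y - (x' - y')| * C1 :=
      mul_le_mul_of_nonneg_left e1 p1
    have q2 : |x' - y'| * |a ^ (i - 1) - b ^ (i - 1)| ≤
        |x' - y'| * (C2 * (|x - x'| + |y - y'|)) :=
      mul_le_mul_of_nonneg_left (e2.trans (mul_le_mul_of_nonneg_left e3 hC20)) p2
    have q3 : 0 ≤ |x - y - (x' - y')| * C2 := mul_nonneg p1 hC20
    have q4 : 0 ≤ |x' - y'| * (C1 * (|x - x'| + |y - y'|)) :=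
      mul_nonneg p2 (mul_nonneg hC10 p3)
    nlinarith
  have h := norm_image_sub_le_of_norm_deriv_le_segment_01' hder hbd
  have e0 : φ 1 - φ 0 = (x ^ i - y ^ i) - (x' ^ i - y' ^ i) := by
    simp only [hφ, one_mul, zero_mul, add_zero, add_sub_cancel]
    ring
  rw [e0, Real.norm_eq_abs] at h
  exact h

theorem even_est (i : ℝ) : ∃ C : ℝ, 0 ≤ C ∧ ∀ ρ ρ' x x' : ℝ, 3 / 4 ≤ ρ → ρ ≤ 5 / 4 →
    3 / 4 ≤ ρ' → ρ' ≤ 5 / 4 → 0 ≤ x → x ≤ 1 / 4 → 0 ≤ x' → x' ≤ 1 / 4 →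
    |((ρ + x) ^ i + (ρ - x) ^ i) / 2 - ((ρ' + x') ^ i + (ρ' - x') ^ i) / 2| ≤
      C * (|ρ - ρ'| + |x ^ 2 - x' ^ 2|) := by
  obtain ⟨C1, hC10, hC1⟩ := lip i
  obtain ⟨C2, hC20, hC2⟩ := four_pt i
  refine ⟨C1 + C2, by positivity, ?_⟩
  intro ρ ρ' x x' h1 h2 h3 h4 h5 h6 h7 h8
  have e1 := hC1 (ρ + x) (ρ' + x) (by linarith) (by linarith) (by linarith) (by linarith)
  have e2 := hC1 (ρ - x) (ρ' - x) (by linarith) (by linarith) (by linarith) (by linarith)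
  have e3 := hC2 (ρ' + x) (ρ' + x') (ρ' - x') (ρ' - x) (by linarith) (by linarith) (by linarith)
    (by linarith) (by linarith) (by linarith) (by linarith) (by linarith)
  have s1 : ρ + x - (ρ' + x) = ρ - ρ' := by ring
  have s2 : ρ - x - (ρ' - x) = ρ - ρ' := by ring
  have s3 : ρ' + x - (ρ' + x') - (ρ' - x' - (ρ' - x)) = 0 := by ring
  have s4 : ρ' - x' - (ρ' - x) = x - x' := by ring
  have s5 : ρ' + x - (ρ' - x') = x + x' := by ring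
  have s6 : ρ' + x' - (ρ' - x) = x + x' := by ring
  rw [s1] at e1
  rw [s2] at e2
  rw [s3, s4, s5, s6, abs_zero, zero_add] at e3
  have s7 : |x - x'| * (|x + x'| + |x + x'|) = 2 * |x ^ 2 - x' ^ 2| := by
    have : x ^ 2 - x' ^ 2 = (x - x') * (x + x') := by ring
    rw [this, abs_mul]
    ring
  rw [s7] at e3
  have key : ((ρ + x) ^ i + (ρ - x) ^ i) / 2 - ((ρ' + x') ^ i + (ρ' - x') ^ i) / 2 =
      ((ρ + x) ^ i - (ρ' + x) ^ i) / 2 + ((ρ - x) ^ i - (ρ' - x) ^ i) / 2 +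
      ((ρ' + x) ^ i - (ρ' + x') ^ i - ((ρ' - x') ^ i - (ρ' - x) ^ i)) / 2 := by ring
  rw [key]
  refine (abs_add_three _ _ _).trans ?_
  rw [abs_div, abs_div, abs_div, abs_two]
  have p1 : 0 ≤ C1 * |x ^ 2 - x' ^ 2| := by positivity
  have p2 : 0 ≤ C2 * |ρ - ρ'| := by positivity
  linarith

end StarTr
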