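import Pool.Agent.StarTr.Delta
import Pool.Agent.StarTr.Pow2

set_option autoImplicit false

/-!
# StarTr, module Delta2: the main estimate for `|h|^p`

`x = hh a c (σ t)`, `y = hh a c' (σ t')`, `L = 1 + 10 a`.  By `delta_lip`: `|x - y| ≤ L (t - t')` and
`σ (x - y) ≥ (1 - 10 a) (t - t') ≥ 0`; by `delta_bound`: `|y| ≤ t' + 2 a`.
* If `|x| ≥ |y|`: `|x|^p - |y|^p ≤ (|y| + L (t-t'))^p - |y|^p ≤ (B + L (t-t'))^p - B^p` with `B = L t' + 2 a`
  (`rpow_incr`) `= (L t + 2a)^p - (L t' + 2a)^p ≤ L^p (t^p - t'^p) + p (2a)^(p-1) L (t - t')` (`rpow_add_sub_le`), and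
  `L^p ≤ 1 + C a` (`one_add_rpow`).
* If `|x| < |y|`: for `σ = 1` both `x, y ≥ 0` (`a + c t ≥ 0`) and `x ≥ y`, impossible.  For `σ = -1`, `x ≤ y`, so `y > 0` and
  `y = -t' + δ ≤ 2 a`; `|y|^p - |x|^p ≤ p (2a)^(p-1) |x - y|` (`abs_rpow_sub`).
-/

namespace StarTr

namespace Delta2Aux

theorem coef {p a L D : ℝ} (_hp : 1 < p) (hp2 : p < 2) (ha : 0 < a) (hL0 : 0 ≤ L) (hL : L ≤ 11 / 10)
    (hD : 0 ≤ D) : p * (2 * a) ^ (p - 1) * (L * D) ≤ 5 * a ^ (p - 1) * D := by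
  have h1 : (2 * a) ^ (p - 1) = 2 ^ (p - 1) * a ^ (p - 1) :=
    Real.mul_rpow (by norm_num) ha.le
  have h2 : (2 : ℝ) ^ (p - 1) ≤ 2 := by
    calc (2 : ℝ) ^ (p - 1) ≤ 2 ^ (1 : ℝ) :=
          Real.rpow_le_rpow_of_exponent_le (by norm_num) (by linarith)
      _ = 2 := Real.rpow_one 2
  have h3 : (0 : ℝ) ≤ 2 ^ (p - 1) := by positivity
  have h4 : 0 ≤ a ^ (p - 1) := by positivity
  rw [h1]
  have h5 : p * 2 ^ (p - 1) * L ≤ 5 := by
    calc p * 2 ^ (p - 1) * L ≤ 2 * 2 * (11 / 10) := by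
          apply mul_le_mul _ hL hL0 (by norm_num)
          exact mul_le_mul hp2.le h2 h3 (by norm_num)
      _ ≤ 5 := by norm_num
  calc p * (2 ^ (p - 1) * a ^ (p - 1)) * (L * D) = (p * 2 ^ (p - 1) * L) * (a ^ (p - 1) * D) := by ring
    _ ≤ 5 * (a ^ (p - 1) * D) := mul_le_mul_of_nonneg_right h5 (mul_nonneg h4 hD)
    _ = _ := by ring

end Delta2Aux

/-- the main estimate for `|h|^p` -/
theorem hh_rpow_diff {p : ℝ} (hp : 1 < p) (hp2 : p < 2) : ∃ C : ℝ, 0 ≤ C ∧ ∀ (a : ℝ) (κ : ℝ → ℝ), 0 < a →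
    a ≤ 1 / 100 → Cls p a κ → ∀ t t' c c' : ℝ, 0 ≤ t' → t' ≤ t → t ≤ 1 → ∀ σ : ℝ, (σ = 1 ∨ σ = -1) →
    IsRoot a κ (σ * t) c → IsRoot a κ (σ * t') c' →
    |(|hh a c (σ * t)| ^ p - |hh a c' (σ * t')| ^ p)| ≤
      (1 + C * a) * (t ^ p - t' ^ p) + C * a ^ (p - 1) * (t - t') := by
  obtain ⟨C1, hC1, hC1'⟩ := one_add_rpow p
  refine ⟨10 * C1 + 5, by positivity, ?_⟩
  intro a κ ha ha1 hκ t t' c c' ht' htt ht1 σ hσ hc hc'
  have ht : 0 ≤ t := ht'.trans htt
  have hσa : |σ| = 1 := by rcases hσ with rfl | rfl <;> simp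
  have hst : |σ * t| ≤ 1 := by
    rw [abs_mul, hσa, one_mul, abs_of_nonneg ht]
    exact ht1
  have hst' : |σ * t'| ≤ 1 := by
    rw [abs_mul, hσa, one_mul, abs_of_nonneg ht']
    linarith
  obtain ⟨b1, b2⟩ := delta_bound hp.le hp2.le ha ha1 hκ hst hc
  obtain ⟨b1', b2'⟩ := delta_bound hp.le hp2.le ha ha1 hκ hst' hc'
  have hl := delta_lip hp.le hp2.le ha ha1 hκ hst hc hst' hc'
  set x := hh a c (σ * t) with hx
  set y := hh a c' (σ * t') with hy
  set D := t - t' with hD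
  have hD0 : 0 ≤ D := by rw [hD]; linarith
  have e1 : |σ * t - σ * t'| = D := by
    rw [← mul_sub, abs_mul, hσa, one_mul, abs_of_nonneg hD0]
  rw [e1, abs_le] at hl
  have hL0 : (0 : ℝ) ≤ 1 + 10 * a := by linarith
  have hL1 : 1 + 10 * a ≤ 11 / 10 := by linarith
  have haD : 10 * a * D ≤ D := by nlinarith
  have haD0 : 0 ≤ 10 * a * D := by positivity
  -- the two consequences
  have hxy : |x - y| ≤ (1 + 10 * a) * D := by
    have h1 : x - y = σ * D + ((x - σ * t) - (y - σ * t')) := by rw [hD]; ring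
    have h2 : |σ * D| = D := by rw [abs_mul, hσa, one_mul, abs_of_nonneg hD0]
    rw [h1]
    refine (abs_add_le _ _).trans ?_
    rw [h2]
    have h3 : |(x - σ * t) - (y - σ * t')| ≤ 10 * a * D := abs_le.mpr hl
    linarith
  have htp : 0 ≤ t ^ p - t' ^ p := by
    have := Real.rpow_le_rpow ht' htt (by linarith : (0 : ℝ) ≤ p)
    linarith
  have hapD : 0 ≤ a ^ (p - 1) * D := by positivity
  have h10 : 5 * a ^ (p - 1) * D ≤ (10 * C1 + 5) * a ^ (p - 1) * D := by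
    have h1 : 0 ≤ 10 * C1 * (a ^ (p - 1) * D) := mul_nonneg (by linarith) hapD
    have h2 : (10 * C1 + 5) * a ^ (p - 1) * D = 10 * C1 * (a ^ (p - 1) * D) + 5 * a ^ (p - 1) * D := by
      ring
    linarith
  have hcoefa : 1 + C1 * (10 * a) ≤ 1 + (10 * C1 + 5) * a := by
    have h2 : 1 + (10 * C1 + 5) * a = 1 + C1 * (10 * a) + 5 * a := by ring
    linarith
  have hfin : ∀ z : ℝ, z ≤ 5 * a ^ (p - 1) * D →
      z ≤ (1 + (10 * C1 + 5) * a) * (t ^ p - t' ^ p) + (10 * C1 + 5) * a ^ (p - 1) * D := by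
    intro z hz
    have h1 : 0 ≤ (1 + (10 * C1 + 5) * a) * (t ^ p - t' ^ p) := by positivity
    linarith
  rcases le_or_gt |y| |x| with hcase | hcase
  · -- |y| ≤ |x|
    have h0 : 0 ≤ |x| ^ p - |y| ^ p := by
      have := Real.rpow_le_rpow (abs_nonneg y) hcase (by linarith : (0 : ℝ) ≤ p)
      linarith
    rw [abs_of_nonneg h0]
    have hyB : |y| ≤ (1 + 10 * a) * t' + 2 * a := by
      have h1 : y = σ * t' + (y - σ * t') := by ring
      rw [h1]
      refine (abs_add_le _ _).trans ?_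
      rw [abs_mul, hσa, one_mul, abs_of_nonneg ht', abs_of_nonneg b1']
      have h2 : 0 ≤ 10 * a * t' := by positivity
      linarith
    have hxle : |x| ≤ |y| + (1 + 10 * a) * D := by
      have h1 : |x| - |y| ≤ |x - y| := abs_sub_abs_le_abs_sub x y
      linarith
    have h1 : |x| ^ p ≤ (|y| + (1 + 10 * a) * D) ^ p :=
      Real.rpow_le_rpow (abs_nonneg x) hxle (by linarith)
    have h2 := rpow_incr (p := p) (b := |y|) (B := (1 + 10 * a) * t' + 2 * a)
      (u := (1 + 10 * a) * D) hp.le (abs_nonneg y) hyB (mul_nonneg hL0 hD0)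
    have h3 := rpow_add_sub_le (p := p) (B := 2 * a) (x := (1 + 10 * a) * t)
      (y := (1 + 10 * a) * t') hp.le hp2.le (by linarith) (mul_nonneg hL0 ht')
      (mul_le_mul_of_nonneg_left htt hL0)
    have h4 : (1 + 10 * a) * t' + 2 * a + (1 + 10 * a) * D = (1 + 10 * a) * t + 2 * a := by
      rw [hD]; ring
    rw [h4] at h2
    have h5 : ((1 + 10 * a) * t) ^ p - ((1 + 10 * a) * t') ^ p
        = (1 + 10 * a) ^ p * (t ^ p - t' ^ p) := by
      rw [Real.mul_rpow hL0 ht, Real.mul_rpow hL0 ht']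
      ring
    have h6 : (1 + 10 * a) ^ p ≤ 1 + C1 * (10 * a) := hC1' (10 * a) (by linarith) (by linarith)
    have h7 : (1 + 10 * a) ^ p * (t ^ p - t' ^ p) ≤ (1 + C1 * (10 * a)) * (t ^ p - t' ^ p) :=
      mul_le_mul_of_nonneg_right h6 htp
    have h8 : p * (2 * a) ^ (p - 1) * ((1 + 10 * a) * t - (1 + 10 * a) * t')
        ≤ 5 * a ^ (p - 1) * D := by
      rw [← mul_sub]
      exact Delta2Aux.coef hp hp2 ha hL0 hL1 hD0
    have h9 : (1 + C1 * (10 * a)) * (t ^ p - t' ^ p)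
        ≤ (1 + (10 * C1 + 5) * a) * (t ^ p - t' ^ p) :=
      mul_le_mul_of_nonneg_right hcoefa htp
    linarith
  · -- |x| < |y|
    rcases hσ with rfl | rfl
    · exfalso
      rw [one_mul] at b1 b1' hl
      rw [one_mul] at hl
      have hx0 : 0 ≤ x := by linarith
      have hy0 : 0 ≤ y := by linarith
      rw [abs_of_nonneg hx0, abs_of_nonneg hy0] at hcase
      have := hl.1
      rw [hD] at this haD
      linarith
    · have hle : x ≤ y := by
        have := hl.2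
        rw [hD] at this haD
        linarith
      have hy0 : 0 < y := by
        by_contra h
        rw [not_lt] at h
        rw [abs_of_nonpos h, abs_of_nonpos (hle.trans h)] at hcase
        linarith
      have hy2 : |y| ≤ 2 * a := by
        rw [abs_of_pos hy0]
        linarith
      have h1 := abs_rpow_sub (p := p) (M := 2 * a) (x := x) (y := y) hp.le
        (hcase.le.trans hy2) hy2
      refine hfin _ (h1.trans ?_)
      refine le_trans ?_ (Delta2Aux.coef hp hp2 ha hL0 hL1 hD0)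
      exact mul_le_mul_of_nonneg_left hxy (by positivity)

end StarTr
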