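import Pool.Agent.StarTr.Roots

set_option autoImplicit false

/-!
# StarTr, module FixK: compactness of the class of radial functions

`KB p a` is closed, convex, equicontinuous (modulus `a | |h|^p - |h'|^p |`) and bounded (`|f - 1| ≤ a`), hence compact:
Arzela-Ascoli.  `KK ℓ p a` is the set of all elements `f` of `KB p a` which are normalised by `ℓ f = 1`.
-/

open Set

namespace StarTr

/-- the class as a subset of the space of continuous functions on `[-1, 1]` -/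
def KB (p a : ℝ) : Set C(Icc (-1 : ℝ) 1, ℝ) :=
  {f | (∀ x : Icc (-1 : ℝ) 1, |f x - 1| ≤ a) ∧
    ∀ x y : Icc (-1 : ℝ) 1, |f x - f y| ≤ a * |(|(x : ℝ)| ^ p - |(y : ℝ)| ^ p)|}

/-- the normalised elements of the class -/
def KK (ℓ : C(Icc (-1 : ℝ) 1, ℝ) →L[ℝ] ℝ) (p a : ℝ) : Set C(Icc (-1 : ℝ) 1, ℝ) :=
  KB p a ∩ {f | ℓ f = 1}

/-- extension to `ℝ` -/
noncomputable def ext (f : C(Icc (-1 : ℝ) 1, ℝ)) : ℝ → ℝ := IccExtend (by norm_num : (-1 : ℝ) ≤ 1) f

theorem FixKAux.ext_eq (f : C(Icc (-1 : ℝ) 1, ℝ)) {h : ℝ} (hh : |h| ≤ 1) :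
    ext f h = f ⟨h, abs_le.mp hh⟩ := by
  rw [ext, IccExtend_of_mem]

theorem ext_cls {p a : ℝ} {f : C(Icc (-1 : ℝ) 1, ℝ)} (hf : f ∈ KB p a) : Cls p a (ext f) := by
  refine ⟨?_, ?_⟩
  · intro h hh
    rw [FixKAux.ext_eq f hh]
    exact hf.1 _
  · intro h h' hh hh'
    rw [FixKAux.ext_eq f hh, FixKAux.ext_eq f hh']
    exact hf.2 ⟨h, abs_le.mp hh⟩ ⟨h', abs_le.mp hh'⟩

theorem FixKAux.cont {p : ℝ} (hp : 0 < p) :
    Continuous fun x : Icc (-1 : ℝ) 1 => |(x : ℝ)| ^ p := by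
  refine Continuous.rpow_const (continuous_subtype_val.abs) fun x => Or.inr hp.le

theorem KB_compact {p a : ℝ} (hp : 0 < p) : IsCompact (KB p a) := by
  apply ArzelaAscoli.isCompact_of_equicontinuous
  · have h1 : ContinuousMap.toFun '' KB p a = {f : Icc (-1 : ℝ) 1 → ℝ |
        (∀ x : Icc (-1 : ℝ) 1, |f x - 1| ≤ a) ∧
        ∀ x y : Icc (-1 : ℝ) 1, |f x - f y| ≤ a * |(|(x : ℝ)| ^ p - |(y : ℝ)| ^ p)|} := by
      ext f
      constructor
      · rintro ⟨g, hg, rfl⟩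
        exact hg
      · intro hf
        have hc : Continuous f := by
          rw [continuous_iff_continuousAt]
          intro x
          rw [ContinuousAt, tendsto_iff_dist_tendsto_zero]
          have hb : Filter.Tendsto (fun y : Icc (-1 : ℝ) 1 =>
              a * |(|(y : ℝ)| ^ p - |(x : ℝ)| ^ p)|) (nhds x) (nhds 0) := by
            have h2 : Continuous fun y : Icc (-1 : ℝ) 1 => a * |(|(y : ℝ)| ^ p - |(x : ℝ)| ^ p)| :=
              continuous_const.mul (((FixKAux.cont hp).sub continuous_const).abs)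
            have h3 := h2.tendsto x
            simp only [sub_self, abs_zero, mul_zero] at h3
            exact h3
          refine squeeze_zero (fun y => dist_nonneg) (fun y => ?_) hb
          rw [Real.dist_eq]
          exact hf.2 y x
        exact ⟨⟨f, hc⟩, hf, rfl⟩
    rw [h1]
    have hcl : IsClosed {f : Icc (-1 : ℝ) 1 → ℝ |
        (∀ x : Icc (-1 : ℝ) 1, |f x - 1| ≤ a) ∧
        ∀ x y : Icc (-1 : ℝ) 1, |f x - f y| ≤ a * |(|(x : ℝ)| ^ p - |(y : ℝ)| ^ p)|} := by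
      have h4 : {f : Icc (-1 : ℝ) 1 → ℝ |
          (∀ x : Icc (-1 : ℝ) 1, |f x - 1| ≤ a) ∧
          ∀ x y : Icc (-1 : ℝ) 1, |f x - f y| ≤ a * |(|(x : ℝ)| ^ p - |(y : ℝ)| ^ p)|} =
          (⋂ x : Icc (-1 : ℝ) 1, {f : Icc (-1 : ℝ) 1 → ℝ | |f x - 1| ≤ a}) ∩
          ⋂ x : Icc (-1 : ℝ) 1, ⋂ y : Icc (-1 : ℝ) 1, {f : Icc (-1 : ℝ) 1 → ℝ |
            |f x - f y| ≤ a * |(|(x : ℝ)| ^ p - |(y : ℝ)| ^ p)|} := by
        ext f
        simp only [Set.mem_inter_iff, Set.mem_iInter]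
        rfl
      rw [h4]
      refine IsClosed.inter ?_ ?_
      · refine isClosed_iInter fun x => ?_
        exact isClosed_le (((continuous_apply x).sub continuous_const).abs) continuous_const
      · refine isClosed_iInter fun x => isClosed_iInter fun y => ?_
        exact isClosed_le (((continuous_apply x).sub (continuous_apply y)).abs) continuous_const
    refine IsCompact.of_isClosed_subset
      (isCompact_univ_pi (s := fun _ : Icc (-1 : ℝ) 1 => Icc (1 - a) (1 + a))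
        fun _ => isCompact_Icc) hcl ?_
    intro f hf x _
    have h3 : |f x - 1| ≤ a := hf.1 x
    rw [abs_le] at h3
    exact ⟨by linarith, by linarith⟩
  · intro x
    refine Metric.equicontinuousAt_of_continuity_modulus
      (fun y : Icc (-1 : ℝ) 1 => a * |(|(x : ℝ)| ^ p - |(y : ℝ)| ^ p)|) ?_ _ ?_
    · have h2 : Continuous fun y : Icc (-1 : ℝ) 1 => a * |(|(x : ℝ)| ^ p - |(y : ℝ)| ^ p)| :=
        continuous_const.mul ((continuous_const.sub (FixKAux.cont hp)).abs)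
      have h3 := h2.tendsto x
      simp only [sub_self, abs_zero, mul_zero] at h3
      exact h3
    · refine Filter.Eventually.of_forall fun y f => ?_
      rw [Real.dist_eq]
      exact f.2.2 x y

theorem KK_compact (ℓ : C(Icc (-1 : ℝ) 1, ℝ) →L[ℝ] ℝ) {p a : ℝ} (hp : 0 < p) :
    IsCompact (KK ℓ p a) :=
  (KB_compact hp).inter_right (isClosed_eq ℓ.continuous continuous_const)

theorem KK_convex (ℓ : C(Icc (-1 : ℝ) 1, ℝ) →L[ℝ] ℝ) {p a : ℝ} : Convex ℝ (KK ℓ p a) := by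
  intro f hf g hg s t hs ht hst
  refine ⟨⟨?_, ?_⟩, ?_⟩
  · intro x
    change |(s * f x + t * g x) - 1| ≤ _
    have h1 : (s * f x + t * g x) - 1 = s * (f x - 1) + t * (g x - 1) + (s + t - 1) := by
      ring
    rw [h1, hst, sub_self, add_zero]
    refine (abs_add_le _ _).trans ?_
    rw [abs_mul, abs_mul, abs_of_nonneg hs, abs_of_nonneg ht]
    have h2 := mul_le_mul_of_nonneg_left (hf.1.1 x) hs
    have h3 := mul_le_mul_of_nonneg_left (hg.1.1 x) ht
    have h4 : s * a + t * a = a := by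
      rw [← add_mul, hst, one_mul]
    linarith
  · intro x y
    change |(s * f x + t * g x) - (s * f y + t * g y)| ≤ _
    have h1 : (s * f x + t * g x) - (s * f y + t * g y) = s * (f x - f y) + t * (g x - g y) := by
      ring
    rw [h1]
    refine (abs_add_le _ _).trans ?_
    rw [abs_mul, abs_mul, abs_of_nonneg hs, abs_of_nonneg ht]
    have h2 := mul_le_mul_of_nonneg_left (hf.1.2 x y) hs
    have h3 := mul_le_mul_of_nonneg_left (hg.1.2 x y) ht
    have h4 : s * (a * |(|(x : ℝ)| ^ p - |(y : ℝ)| ^ p)|) + t * (a * |(|(x : ℝ)| ^ p - |(y : ℝ)| ^ p)|)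
        = a * |(|(x : ℝ)| ^ p - |(y : ℝ)| ^ p)| := by
      rw [← add_mul, hst, one_mul]
    linarith
  · change ℓ (s • f + t • g) = 1
    have h1 : ℓ f = 1 := hf.2
    have h2 : ℓ g = 1 := hg.2
    rw [map_add, map_smul, map_smul, h1, h2, smul_eq_mul, smul_eq_mul, mul_one, mul_one, hst]

theorem KK_nonempty {ℓ : C(Icc (-1 : ℝ) 1, ℝ) →L[ℝ] ℝ} (hℓ : ℓ 1 = 1) {p a : ℝ} (ha : 0 ≤ a) :
    (KK ℓ p a).Nonempty := by
  refine ⟨1, ⟨fun x => ?_, fun x y => ?_⟩, hℓ⟩
  · change |(1 : ℝ) - 1| ≤ _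
    rw [sub_self, abs_zero]
    exact ha
  · change |(1 : ℝ) - 1| ≤ _
    rw [sub_self, abs_zero]
    exact mul_nonneg ha (abs_nonneg _)

/-- a normalised functional of norm at most one is a mean value -/
theorem mean_close {ℓ : C(Icc (-1 : ℝ) 1, ℝ) →L[ℝ] ℝ} (hℓ : ℓ 1 = 1) (hb : ∀ f, |ℓ f| ≤ ‖f‖)
    {f : C(Icc (-1 : ℝ) 1, ℝ)} {b δ : ℝ} (hδ : 0 ≤ δ)
    (h : ∀ x : Icc (-1 : ℝ) 1, |f x - b| ≤ δ) : |ℓ f - b| ≤ δ := by
  have h1 : ℓ f - b = ℓ (f - b • 1) := by
    rw [map_sub, map_smul, hℓ, smul_eq_mul, mul_one]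
  rw [h1]
  refine (hb _).trans ?_
  rw [ContinuousMap.norm_le _ hδ]
  intro x
  rw [Real.norm_eq_abs]
  simpa using h x

end StarTr
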