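import Pool.Agent.Lib.Brouwer

set_option autoImplicit false

/-!
# StarTr, module Schauder: the Schauder fixed point theorem

For `ε > 0` take a finite `ε`-net `y_1, ..., y_N` of `K`, and the Schauder projection
`P x = (∑ μ_j(x))⁻¹ ∑ μ_j(x) y_j`, `μ_j(x) = max 0 (ε - ‖x - y_j‖)`, continuous from `K` to `convexHull {y_j} ⊆ K`, with
`‖P x - x‖ ≤ ε`.  Brouwer (`brouwer_fixed_point_convex` or one of the other versions in `Pool/Agent/Lib/Brouwer.lean`) on the convex
hull of `{y_j}` (or for the map `λ ↦ (μ_j (T (∑ λ_i y_i)))_j / ∑` of the standard simplex `stdSimplex ℝ (Fin N)` to itself, which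
avoids finite dimensional subspaces of `V`) gives `x_ε ∈ K` with `‖T x_ε - x_ε‖ ≤ ε`.  By compactness a limit point of `x_ε` is a
fixed point.
-/

namespace StarTr

namespace SchauderAux

/-- Approximate fixed points: for every `ε > 0` there is `x ∈ K` with `‖T x - x‖ ≤ ε`. -/
theorem approx {V : Type*} [NormedAddCommGroup V] [NormedSpace ℝ V] {K : Set V}
    (hK : IsCompact K) (hc : Convex ℝ K) (hne : K.Nonempty) (T : V → V) (hT : ContinuousOn T K)
    (hm : Set.MapsTo T K K) {ε : ℝ} (hε : 0 < ε) : ∃ x ∈ K, ‖T x - x‖ ≤ ε := by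
  classical
  obtain ⟨t, htK, htf, hcov⟩ := hK.finite_cover_balls hε
  have : Fintype t := htf.fintype
  -- the tent functions
  set μ : t → V → ℝ := fun i x => max 0 (ε - ‖x - (i : V)‖) with hμ
  have hμ0 : ∀ i x, 0 ≤ μ i x := fun i x => le_max_left _ _
  have hμc : ∀ i, Continuous (μ i) := fun i => by
    simp only [hμ]
    fun_prop
  set M : V → ℝ := fun x => ∑ i, μ i x with hM
  have hMc : Continuous M := continuous_finsetSum _ fun i _ => hμc i
  have hMpos : ∀ x ∈ K, 0 < M x := by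
    intro x hx
    obtain ⟨y, hy⟩ := Set.mem_iUnion.1 (hcov hx)
    obtain ⟨hyt, hxy⟩ := Set.mem_iUnion.1 hy
    have h1 : 0 < μ ⟨y, hyt⟩ x := by
      have : ‖x - y‖ < ε := by simpa [dist_eq_norm] using hxy
      simp only [hμ]
      exact lt_max_of_lt_right (by linarith)
    exact Finset.sum_pos' (fun i _ => hμ0 i x) ⟨⟨y, hyt⟩, Finset.mem_univ _, h1⟩
  -- the point with barycentric coordinates `l`
  set S : (t → ℝ) → V := fun l => ∑ i, l i • (i : V) with hS
  have hSc : Continuous S := by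
    simp only [hS]
    fun_prop
  have hSK : ∀ l ∈ stdSimplex ℝ t, S l ∈ K := by
    intro l hl
    exact hc.sum_mem (fun i _ => hl.1 i) hl.2 (fun i _ => htK i.2)
  set F : (t → ℝ) → (t → ℝ) := fun l i => μ i (T (S l)) / M (T (S l)) with hF
  have hTS : ContinuousOn (fun l => T (S l)) (stdSimplex ℝ t) :=
    hT.comp hSc.continuousOn hSK
  have hFc : ContinuousOn F (stdSimplex ℝ t) := by
    refine continuousOn_pi.2 fun i => ?_
    refine ContinuousOn.div ((hμc i).comp_continuousOn hTS) (hMc.comp_continuousOn hTS) ?_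
    intro l hl
    exact (hMpos _ (hm (hSK l hl))).ne'
  have hFm : Set.MapsTo F (stdSimplex ℝ t) (stdSimplex ℝ t) := by
    intro l hl
    have hp := hMpos _ (hm (hSK l hl))
    refine ⟨fun i => div_nonneg (hμ0 _ _) hp.le, ?_⟩
    simp only [hF]
    rw [← Finset.sum_div]
    exact div_self hp.ne'
  have hsne : (stdSimplex ℝ t).Nonempty := by
    obtain ⟨x, hx⟩ := hne
    obtain ⟨y, hy⟩ := Set.mem_iUnion.1 (hcov hx)
    obtain ⟨hyt, -⟩ := Set.mem_iUnion.1 hy
    exact ⟨_, single_mem_stdSimplex ℝ (⟨y, hyt⟩ : t)⟩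
  obtain ⟨l, hl, hfix⟩ := Pool.Lib.brouwer_fixed_point_convex (isCompact_stdSimplex (𝕜 := ℝ) t)
    (convex_stdSimplex ℝ t) hsne hFc hFm
  refine ⟨S l, hSK l hl, ?_⟩
  set z : V := T (S l) with hz
  have hzK : z ∈ K := hm (hSK l hl)
  have hval : ∀ i, l i = μ i z / M z := fun i => by
    have := congrFun hfix i
    simpa [hF] using this.symm
  have h1 : z - S l = ∑ i, l i • (z - (i : V)) := by
    simp only [smul_sub, Finset.sum_sub_distrib, hS]
    rw [← Finset.sum_smul, hl.2, one_smul]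
  rw [h1]
  calc ‖∑ i, l i • (z - (i : V))‖ ≤ ∑ i, ‖l i • (z - (i : V))‖ := norm_sum_le _ _
    _ ≤ ∑ i, l i * ε := by
        refine Finset.sum_le_sum fun i _ => ?_
        rw [norm_smul, Real.norm_of_nonneg (hl.1 i)]
        by_cases h : ‖z - (i : V)‖ ≤ ε
        · exact mul_le_mul_of_nonneg_left h (hl.1 i)
        · have h2 : μ i z = 0 := by
            simp only [hμ]
            exact max_eq_left (by linarith [not_le.1 h])
          rw [hval i, h2]
          simp
    _ = ε := by rw [← Finset.sum_mul, hl.2, one_mul]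

end SchauderAux

theorem schauder {V : Type*} [NormedAddCommGroup V] [NormedSpace ℝ V] {K : Set V}
    (hK : IsCompact K) (hc : Convex ℝ K) (hne : K.Nonempty) (T : V → V) (hT : ContinuousOn T K)
    (hm : Set.MapsTo T K K) : ∃ x ∈ K, T x = x := by
  have hcont : ContinuousOn (fun x => ‖T x - x‖) K := (hT.sub continuousOn_id).norm
  obtain ⟨x, hx, hmin⟩ := hK.exists_isMinOn hne hcont
  refine ⟨x, hx, ?_⟩
  have h0 : ‖T x - x‖ ≤ 0 := by
    refine le_of_forall_pos_le_add fun ε hε => ?_
    obtain ⟨y, hy, hyε⟩ := SchauderAux.approx hK hc hne T hT hm hε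
    have := (isMinOn_iff.1 hmin) y hy
    linarith
  exact sub_eq_zero.1 (norm_le_zero_iff.1 h0)

end StarTr
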