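import Pool.Agent.StarTr.SelfMap
import Pool.Agent.StarTr.Schauder
import Pool.Agent.StarTr.FixK
import Pool.Agent.StarTr.Delta

set_option autoImplicit false

/-!
# StarTr, module Fix: existence of the radial function

Apply `schauder` in `V = C(Icc (-1 : ℝ) 1, ℝ)` to `KK ℓ p a` (module FixK) and to
`T f = k / ℓ k`, `k = Rad ν ((Rad ν (c_f ^ i)) ^ i)`, `c_f t` the root at `t` (`exists_root`; `c_f` is continuous on `[-1,1]` by
`root_lip`), `ℓ` a normalised functional of norm one (for example the value at `0`, or the mean over the sphere).  `T` maps `K` to `K` by `self_map`.  `T` is continuous on `K`: if `|f - f'| ≤ ε` then `|c - c'| ≤ 2 ε` (`root_stab`),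
all values of `c` are in `[0.98, 1.02]`, `x ↦ x ^ i` is Lipschitz on compact subsets of `(0, ∞)`, `rad_sub_le`, and `k 0` is bounded
below by a positive constant.
-/

open MeasureTheory Set

namespace StarTr

namespace FixAux

open Classical in
/-- the chosen root -/
noncomputable def cf (a : ℝ) (κ : ℝ → ℝ) (t : ℝ) : ℝ :=
  if h : ∃ c, IsRoot a κ t c then Classical.choose h else 1

/-- the double transform -/
noncomputable def kk (ν : Measure ℝ) (i : ℝ) (c : ℝ → ℝ) : ℝ → ℝ :=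
  Rad ν (fun t => (Rad ν (fun s => (c s) ^ i) t) ^ i)

theorem cf_root {p a : ℝ} {κ : ℝ → ℝ} (hp : 1 ≤ p) (hp2 : p ≤ 2) (ha : 0 < a)
    (ha1 : a ≤ 1 / 100) (hκ : Cls p a κ) {t : ℝ} (ht : |t| ≤ 1) : IsRoot a κ t (cf a κ t) := by
  have h := exists_root hp hp2 ha ha1 hκ ht
  unfold cf
  rw [dif_pos h]
  exact Classical.choose_spec h

theorem cf_cont {p a : ℝ} {κ : ℝ → ℝ} (hp : 1 ≤ p) (hp2 : p ≤ 2) (ha : 0 < a)
    (ha1 : a ≤ 1 / 100) (hκ : Cls p a κ) : ContinuousOn (cf a κ) (Icc (-1) 1) := by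
  have h : LipschitzOnWith ⟨10 * a, by positivity⟩ (cf a κ) (Icc (-1) 1) := by
    apply LipschitzOnWith.of_dist_le_mul
    intro x hx y hy
    rw [Real.dist_eq, Real.dist_eq]
    have hx' : |x| ≤ 1 := abs_le.2 hx
    have hy' : |y| ≤ 1 := abs_le.2 hy
    exact root_lip hp hp2 ha ha1 hκ hx' (cf_root hp hp2 ha ha1 hκ hx') hy'
      (cf_root hp hp2 ha ha1 hκ hy')
  exact h.continuousOn

theorem cf_bds {p a : ℝ} {κ : ℝ → ℝ} (hp : 1 ≤ p) (hp2 : p ≤ 2) (ha : 0 < a)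
    (ha1 : a ≤ 1 / 100) (hκ : Cls p a κ) {t : ℝ} (ht : |t| ≤ 1) :
    98 / 100 ≤ cf a κ t ∧ cf a κ t ≤ 102 / 100 := by
  have h := (root_bounds hp hp2 ha ha1 hκ ht (cf_root hp hp2 ha ha1 hκ ht)).1
  rw [abs_le] at h
  constructor <;> linarith

theorem rad_mem {m : ℕ} {ν : Measure ℝ} (hν : SLaw m ν) {f : ℝ → ℝ}
    (hf : ContinuousOn f (Icc (-1) 1)) {l u : ℝ} (h : ∀ x : ℝ, |x| ≤ 1 → l ≤ f x ∧ f x ≤ u)
    {t : ℝ} (ht : |t| ≤ 1) : l ≤ Rad ν f t ∧ Rad ν f t ≤ u := by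
  have h1 := rad_close hν hf (b := (l + u) / 2) (ε := (u - l) / 2) (fun x hx => by
    have := h x hx
    rw [abs_le]
    constructor <;> linarith) ht
  rw [abs_le] at h1
  constructor <;> linarith

theorem rpow_mem {i l u x : ℝ} (hi : 1 ≤ i) (hl : 0 < l) (h : l ≤ x ∧ x ≤ u) :
    l ^ i ≤ x ^ i ∧ x ^ i ≤ u ^ i :=
  ⟨Real.rpow_le_rpow hl.le h.1 (by linarith),
    Real.rpow_le_rpow (hl.le.trans h.1) h.2 (by linarith)⟩

theorem rpow_cont {i : ℝ} (hi : 1 ≤ i) {f : ℝ → ℝ} (hf : ContinuousOn f (Icc (-1) 1)) :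
    ContinuousOn (fun x => f x ^ i) (Icc (-1) 1) :=
  hf.rpow_const fun _ _ => Or.inr (by linarith)

theorem kk_cont {m : ℕ} {ν : Measure ℝ} (hν : SLaw m ν) {i : ℝ} (hi : 1 ≤ i) {c : ℝ → ℝ}
    (hc : ContinuousOn c (Icc (-1) 1)) : ContinuousOn (kk ν i c) (Icc (-1) 1) :=
  rad_contOn hν (rpow_cont hi (rad_contOn hν (rpow_cont hi hc)))

theorem gg_mem {m : ℕ} {ν : Measure ℝ} (hν : SLaw m ν) {i : ℝ} (hi : 1 ≤ i) {c : ℝ → ℝ}
    (hc : ContinuousOn c (Icc (-1) 1)) (hb : ∀ t : ℝ, |t| ≤ 1 → 98 / 100 ≤ c t ∧ c t ≤ 102 / 100)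
    {t : ℝ} (ht : |t| ≤ 1) : (98 / 100 : ℝ) ^ i ≤ Rad ν (fun s => (c s) ^ i) t ∧
      Rad ν (fun s => (c s) ^ i) t ≤ (102 / 100 : ℝ) ^ i :=
  rad_mem hν (rpow_cont hi hc) (fun x hx => rpow_mem hi (by norm_num) (hb x hx)) ht

theorem kk_mem {m : ℕ} {ν : Measure ℝ} (hν : SLaw m ν) {i : ℝ} (hi : 1 ≤ i) {c : ℝ → ℝ}
    (hc : ContinuousOn c (Icc (-1) 1)) (hb : ∀ t : ℝ, |t| ≤ 1 → 98 / 100 ≤ c t ∧ c t ≤ 102 / 100)
    {t : ℝ} (ht : |t| ≤ 1) : ((98 / 100 : ℝ) ^ i) ^ i ≤ kk ν i c t ∧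
      kk ν i c t ≤ ((102 / 100 : ℝ) ^ i) ^ i :=
  rad_mem hν (rpow_cont hi (rad_contOn hν (rpow_cont hi hc)))
    (fun _ hx => rpow_mem hi (by positivity) (gg_mem hν hi hc hb hx)) ht

theorem kk_lip {m : ℕ} {ν : Measure ℝ} (hν : SLaw m ν) {i : ℝ} (hi : 1 ≤ i) : ∃ L : ℝ, 0 ≤ L ∧
    ∀ (c c' : ℝ → ℝ) (ε : ℝ), ContinuousOn c (Icc (-1) 1) → ContinuousOn c' (Icc (-1) 1) →
    (∀ t : ℝ, |t| ≤ 1 → 98 / 100 ≤ c t ∧ c t ≤ 102 / 100) →
    (∀ t : ℝ, |t| ≤ 1 → 98 / 100 ≤ c' t ∧ c' t ≤ 102 / 100) →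
    (∀ t : ℝ, |t| ≤ 1 → |c t - c' t| ≤ ε) → ∀ t : ℝ, |t| ≤ 1 →
    |kk ν i c t - kk ν i c' t| ≤ L * ε := by
  set u : ℝ := (102 / 100 : ℝ) ^ i with hu
  have hu1 : 1 ≤ u := Real.one_le_rpow (by norm_num) (by linarith)
  have hL1 : 0 ≤ i * (1 + 2 / 100 : ℝ) ^ (i - 1) := by positivity
  have hL2 : 0 ≤ i * (1 + (u - 1)) ^ (i - 1) := by
    have : 0 ≤ 1 + (u - 1) := by linarith
    positivity
  refine ⟨(i * (1 + (u - 1)) ^ (i - 1)) * (i * (1 + 2 / 100 : ℝ) ^ (i - 1)), by positivity, ?_⟩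
  intro c c' ε hc hc' hb hb' he t ht
  have e1 : ∀ x : ℝ, |x| ≤ 1 → |(c x) ^ i - (c' x) ^ i| ≤
      i * (1 + 2 / 100 : ℝ) ^ (i - 1) * ε := by
    intro x hx
    have h1 := hb x hx
    have h2 := hb' x hx
    refine (rpow_lip (η := 2 / 100) hi (by norm_num) (by linarith) (by linarith) (by linarith)
      (by linarith)).trans ?_
    exact mul_le_mul_of_nonneg_left (he x hx) hL1
  have e2 : ∀ x : ℝ, |x| ≤ 1 → |Rad ν (fun s => (c s) ^ i) x - Rad ν (fun s => (c' s) ^ i) x| ≤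
      i * (1 + 2 / 100 : ℝ) ^ (i - 1) * ε := fun x hx =>
    rad_sub_le hν (rpow_cont hi hc) (rpow_cont hi hc') e1 hx
  have e3 : ∀ x : ℝ, |x| ≤ 1 → |(Rad ν (fun s => (c s) ^ i) x) ^ i -
      (Rad ν (fun s => (c' s) ^ i) x) ^ i| ≤
      i * (1 + (u - 1)) ^ (i - 1) * (i * (1 + 2 / 100 : ℝ) ^ (i - 1) * ε) := by
    intro x hx
    have h1 := gg_mem hν hi hc hb hx
    have h2 := gg_mem hν hi hc' hb' hx
    have h3 : (0 : ℝ) < (98 / 100 : ℝ) ^ i := by positivity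
    refine (rpow_lip (η := u - 1) hi (by linarith) (by linarith) (by linarith) (by linarith)
      (by linarith)).trans ?_
    exact mul_le_mul_of_nonneg_left (e2 x hx) hL2
  have e4 := rad_sub_le hν (rpow_cont hi (rad_contOn hν (rpow_cont hi hc)))
    (rpow_cont hi (rad_contOn hν (rpow_cont hi hc'))) e3 ht
  refine e4.trans (le_of_eq ?_)
  ring

open Classical in
/-- the double transform as a continuous function -/
noncomputable def kC (ν : Measure ℝ) (i a : ℝ) (f : C(Icc (-1 : ℝ) 1, ℝ)) :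
    C(Icc (-1 : ℝ) 1, ℝ) :=
  if h : Continuous (fun x : Icc (-1 : ℝ) 1 => kk ν i (cf a (ext f)) x) then
    ⟨fun x => kk ν i (cf a (ext f)) x, h⟩ else 1

theorem kC_apply {m : ℕ} {ν : Measure ℝ} (hν : SLaw m ν) {i : ℝ} (hi : 1 ≤ i) {p a : ℝ}
    (hp : 1 ≤ p) (hp2 : p ≤ 2) (ha : 0 < a) (ha1 : a ≤ 1 / 100) {f : C(Icc (-1 : ℝ) 1, ℝ)}
    (hf : f ∈ KB p a) (x : Icc (-1 : ℝ) 1) : kC ν i a f x = kk ν i (cf a (ext f)) x := by
  have h : Continuous (fun x : Icc (-1 : ℝ) 1 => kk ν i (cf a (ext f)) x) :=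
    (kk_cont hν hi (cf_cont hp hp2 ha ha1 (ext_cls hf))).domRestrict
  unfold kC
  rw [dif_pos h]
  rfl

theorem kC_cont {m : ℕ} {ν : Measure ℝ} (hν : SLaw m ν) {i : ℝ} (hi : 1 ≤ i) {p a : ℝ}
    (hp : 1 ≤ p) (hp2 : p ≤ 2) (ha : 0 < a) (ha1 : a ≤ 1 / 100) :
    ContinuousOn (kC ν i a) (KB p a) := by
  obtain ⟨L, hL, hlip⟩ := kk_lip hν hi
  have h : LipschitzOnWith ⟨L * 2, by positivity⟩ (kC ν i a) (KB p a) := by
    apply LipschitzOnWith.of_dist_le_mul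
    intro f hf f' hf'
    have hd : 0 ≤ dist f f' := dist_nonneg
    show dist (kC ν i a f) (kC ν i a f') ≤ L * 2 * dist f f'
    rw [ContinuousMap.dist_le (by positivity)]
    intro x
    rw [Real.dist_eq, kC_apply hν hi hp hp2 ha ha1 hf, kC_apply hν hi hp hp2 ha ha1 hf']
    have hκ := ext_cls hf
    have hκ' := ext_cls hf'
    have hc := cf_cont hp hp2 ha ha1 hκ
    have hc' := cf_cont hp hp2 ha ha1 hκ'
    have hb : ∀ t : ℝ, |t| ≤ 1 → 98 / 100 ≤ cf a (ext f) t ∧ cf a (ext f) t ≤ 102 / 100 :=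
      fun t ht => cf_bds hp hp2 ha ha1 hκ ht
    have hb' : ∀ t : ℝ, |t| ≤ 1 → 98 / 100 ≤ cf a (ext f') t ∧ cf a (ext f') t ≤ 102 / 100 :=
      fun t ht => cf_bds hp hp2 ha ha1 hκ' ht
    have hcc : ∀ t : ℝ, |t| ≤ 1 → |cf a (ext f) t - cf a (ext f') t| ≤ 2 * dist f f' := by
      intro t ht
      refine root_stab hp hp2 ha ha1 hκ hκ' ht (cf_root hp hp2 ha ha1 hκ ht)
        (cf_root hp hp2 ha ha1 hκ' ht) ?_
      intro s hs
      have hs' : s ∈ Icc (-1 : ℝ) 1 := abs_le.1 hs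
      unfold ext
      rw [IccExtend_of_mem _ _ hs', IccExtend_of_mem _ _ hs', ← Real.dist_eq]
      exact ContinuousMap.dist_apply_le_dist _
    have hx : |(x : ℝ)| ≤ 1 := abs_le.2 x.2
    have l1 := hlip _ _ _ hc hc' hb hb' hcc x hx
    linarith
  exact h.continuousOn

/-- the normalised map -/
noncomputable def TC (ν : Measure ℝ) (i a : ℝ) (ℓ : C(Icc (-1 : ℝ) 1, ℝ) →L[ℝ] ℝ)
    (f : C(Icc (-1 : ℝ) 1, ℝ)) : C(Icc (-1 : ℝ) 1, ℝ) :=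
  (ℓ (kC ν i a f))⁻¹ • kC ν i a f

end FixAux

open FixAux in
/-- existence of the radial function; `ℓ` is a normalising functional -/
theorem exists_fix {m : ℕ} (hm : 2 ≤ m) {ν : Measure ℝ} (hν : SLaw m ν) {i : ℝ} (hi : 1 ≤ i)
    (him : i < m) : ∃ p : ℝ, 1 < p ∧ p < 2 ∧ ∃ a₀ : ℝ, 0 < a₀ ∧ a₀ ≤ 1 / 100 ∧
    ∀ ℓ : C(Icc (-1 : ℝ) 1, ℝ) →L[ℝ] ℝ, ℓ 1 = 1 → (∀ f, |ℓ f| ≤ ‖f‖) →
    ∀ a : ℝ, 0 < a → a ≤ a₀ → ∃ (f : C(Icc (-1 : ℝ) 1, ℝ)) (c : ℝ → ℝ) (C : ℝ), ℓ f = 1 ∧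
      0 < C ∧ Cls p a (ext f) ∧
      ContinuousOn c (Icc (-1) 1) ∧ (∀ t, |t| ≤ 1 → IsRoot a (ext f) t (c t)) ∧
      ∀ t, |t| ≤ 1 → Rad ν (fun t => (Rad ν (fun s => (c s) ^ i) t) ^ i) t = C * ext f t := by
  obtain ⟨p, hp, hp2, a₀, ha₀, ha₁, hself⟩ := self_map hm hν hi him
  refine ⟨p, hp, hp2, a₀, ha₀, ha₁, fun ℓ hℓ hb a ha haa => ?_⟩
  have ha1 : a ≤ 1 / 100 := haa.trans ha₁
  have key : ∀ f ∈ KB p a, ∃ B : ℝ, 0 ≤ B ∧ B ≤ 1 / 2 ∧ 1 - B ≤ ℓ (kC ν i a f) ∧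
      ∀ x y : Icc (-1 : ℝ) 1, |kC ν i a f x - kC ν i a f y| ≤
        a * (1 - B) * |(|(x : ℝ)| ^ p - |(y : ℝ)| ^ p)| := by
    intro f hf
    have hκ := ext_cls hf
    obtain ⟨B, hB, hB2, h1, h2⟩ := hself a (ext f) ha haa hκ (cf a (ext f))
      (cf_cont hp.le hp2.le ha ha1 hκ) (fun t ht => cf_root hp.le hp2.le ha ha1 hκ ht)
    refine ⟨B, hB, hB2, ?_, ?_⟩
    · have h3 : |ℓ (kC ν i a f) - 1| ≤ B := by
        apply mean_close hℓ hb hB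
        intro x
        rw [kC_apply hν hi hp.le hp2.le ha ha1 hf]
        exact h1 x (abs_le.2 x.2)
      have := (abs_le.1 h3).1
      linarith
    · intro x y
      rw [kC_apply hν hi hp.le hp2.le ha ha1 hf, kC_apply hν hi hp.le hp2.le ha ha1 hf]
      exact h2 x y (abs_le.2 x.2) (abs_le.2 y.2)
  have hmaps : Set.MapsTo (TC ν i a ℓ) (KK ℓ p a) (KK ℓ p a) := by
    intro f hf
    obtain ⟨B, hB, hB2, h1, h2⟩ := key f hf.1
    have hpos : 0 < ℓ (kC ν i a f) := by linarith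
    have hone : ℓ (TC ν i a ℓ f) = 1 := by
      unfold TC
      rw [map_smul, smul_eq_mul, inv_mul_cancel₀ hpos.ne']
    have hmod : ∀ x y : Icc (-1 : ℝ) 1, |TC ν i a ℓ f x - TC ν i a ℓ f y| ≤
        a * |(|(x : ℝ)| ^ p - |(y : ℝ)| ^ p)| := by
      intro x y
      have e : TC ν i a ℓ f x - TC ν i a ℓ f y =
          (ℓ (kC ν i a f))⁻¹ * (kC ν i a f x - kC ν i a f y) := by
        unfold TC
        simp only [ContinuousMap.coe_smul, Pi.smul_apply, smul_eq_mul]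
        ring
      rw [e, abs_mul, abs_of_pos (inv_pos.2 hpos), inv_mul_le_iff₀ hpos]
      refine (h2 x y).trans ?_
      have h3 : 0 ≤ a * |(|(x : ℝ)| ^ p - |(y : ℝ)| ^ p)| := by positivity
      calc a * (1 - B) * |(|(x : ℝ)| ^ p - |(y : ℝ)| ^ p)|
          = (1 - B) * (a * |(|(x : ℝ)| ^ p - |(y : ℝ)| ^ p)|) := by ring
        _ ≤ ℓ (kC ν i a f) * (a * |(|(x : ℝ)| ^ p - |(y : ℝ)| ^ p)|) :=
            mul_le_mul_of_nonneg_right h1 h3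
    refine ⟨⟨?_, hmod⟩, hone⟩
    intro x
    have hx : |ℓ (TC ν i a ℓ f) - TC ν i a ℓ f x| ≤ a → |TC ν i a ℓ f x - 1| ≤ a := by
      intro h
      rw [hone] at h
      rwa [abs_sub_comm]
    apply hx
    apply mean_close hℓ hb ha.le
    intro y
    refine (hmod y x).trans ?_
    have h4 : |(|(y : ℝ)| ^ p - |(x : ℝ)| ^ p)| ≤ 1 := by
      have b1 : |(x : ℝ)| ^ p ≤ 1 := Real.rpow_le_one (abs_nonneg _) (abs_le.2 x.2) (by linarith)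
      have b2 : |(y : ℝ)| ^ p ≤ 1 := Real.rpow_le_one (abs_nonneg _) (abs_le.2 y.2) (by linarith)
      have b3 : 0 ≤ |(x : ℝ)| ^ p := Real.rpow_nonneg (abs_nonneg _) _
      have b4 : 0 ≤ |(y : ℝ)| ^ p := Real.rpow_nonneg (abs_nonneg _) _
      rw [abs_le]
      constructor <;> linarith
    calc a * |(|(y : ℝ)| ^ p - |(x : ℝ)| ^ p)| ≤ a * 1 := mul_le_mul_of_nonneg_left h4 ha.le
      _ = a := mul_one a
  have hcont : ContinuousOn (TC ν i a ℓ) (KK ℓ p a) := by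
    have h1 : ContinuousOn (kC ν i a) (KK ℓ p a) :=
      (kC_cont hν hi hp.le hp2.le ha ha1).mono inter_subset_left
    have h2 : ContinuousOn (fun f => (ℓ (kC ν i a f))⁻¹) (KK ℓ p a) := by
      apply ContinuousOn.inv₀ (ℓ.continuous.comp_continuousOn h1)
      intro f hf
      obtain ⟨B, hB, hB2, h2, -⟩ := key f hf.1
      have hpos : 0 < ℓ (kC ν i a f) := by linarith
      exact hpos.ne'
    exact ContinuousOn.smul (f := fun f => (ℓ (kC ν i a f))⁻¹) (g := fun f => kC ν i a f) h2 h1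
  obtain ⟨f, hf, hfix⟩ := schauder (KK_compact ℓ (by linarith)) (KK_convex ℓ)
    (KK_nonempty hℓ ha.le) (TC ν i a ℓ) hcont hmaps
  have hκ := ext_cls hf.1
  obtain ⟨B, hB, hB2, h1, -⟩ := key f hf.1
  have hpos : 0 < ℓ (kC ν i a f) := by linarith
  refine ⟨f, cf a (ext f), ℓ (kC ν i a f), hf.2, hpos, hκ, cf_cont hp.le hp2.le ha ha1 hκ,
    fun t ht => cf_root hp.le hp2.le ha ha1 hκ ht, fun t ht => ?_⟩
  have ht' : t ∈ Icc (-1 : ℝ) 1 := abs_le.1 ht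
  have h3 := kC_apply hν hi hp.le hp2.le ha ha1 hf.1 ⟨t, ht'⟩
  have h2 : ext f t = f ⟨t, ht'⟩ := IccExtend_of_mem _ _ ht'
  have h4 : f ⟨t, ht'⟩ = (ℓ (kC ν i a f))⁻¹ * kC ν i a f ⟨t, ht'⟩ := by
    conv_lhs => rw [← hfix]
    unfold TC
    simp only [ContinuousMap.coe_smul, Pi.smul_apply, smul_eq_mul]
  rw [h2, h4, h3, mul_inv_cancel_left₀ hpos.ne']
  rfl

end StarTr
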