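import Pool.Agent.StarTr.Roots
import Pool.Agent.StarTr.RadEst

set_option autoImplicit false

/-!
# StarTr, module NonConst: the fixed point is not the ball

If `κ = 1` on `[-1, 1]` then `c x = - a x + √(1 - a^2 (1 - x^2))`, the even part `q` of `c ^ i` is strictly increasing in `|x|`,
so `g = Rad q` has a strict maximum at `0`, and `k = Rad (g ^ i)` satisfies `k 0 < k 1 = (g 0) ^ i`.
-/

open MeasureTheory Set

namespace StarTr

theorem root_one {a t c : ℝ} {κ : ℝ → ℝ} (ha : 0 < a) (ha1 : a ≤ 1 / 100)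
    (hκ : ∀ h : ℝ, |h| ≤ 1 → κ h = 1) (ht : |t| ≤ 1) (hc : IsRoot a κ t c) :
    c = -(a * t) + √(1 - a ^ 2 * (1 - t ^ 2)) := by
  obtain ⟨hc0, hw⟩ := hc
  rw [hκ _ (abs_hh_le ht)] at hw
  have ht2 := abs_le.1 ht
  have ht3 : t ^ 2 ≤ 1 := by nlinarith
  have h1 : a ^ 2 + 2 * a * c * t + c ^ 2 = 1 := by
    have h0 : 0 ≤ a ^ 2 + 2 * a * c * t + c ^ 2 := by
      nlinarith [sq_nonneg (c + a * t), sq_nonneg a, mul_nonneg (sq_nonneg a) (by linarith : 0 ≤ 1 - t ^ 2)]
    have h2 := Real.sq_sqrt h0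
    unfold ww at hw
    rw [hw] at h2
    linarith
  have h3 : (c + a * t) ^ 2 = 1 - a ^ 2 * (1 - t ^ 2) := by nlinarith
  have h4 : 0 ≤ c + a * t := by
    -- otherwise `c < a`, and then the norm is at most `2 a`
    by_contra hcon
    push Not at hcon
    have h5 : c < a := by nlinarith
    nlinarith [sq_nonneg (a - c), mul_pos ha hc0]
  rw [← h3, Real.sqrt_sq h4]
  ring

/-- strict monotonicity of the even part -/
theorem even_strict {a i x y : ℝ} (ha : 0 < a) (ha1 : a ≤ 1 / 100) (hi : 1 ≤ i) (hx : 0 ≤ x)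
    (hxy : x < y) (hy : y ≤ 1) :
    ((-(a * x) + √(1 - a ^ 2 * (1 - x ^ 2))) ^ i + (a * x + √(1 - a ^ 2 * (1 - x ^ 2))) ^ i) / 2 <
    ((-(a * y) + √(1 - a ^ 2 * (1 - y ^ 2))) ^ i + (a * y + √(1 - a ^ 2 * (1 - y ^ 2))) ^ i) / 2 := by
  set r := √(1 - a ^ 2 * (1 - x ^ 2)) with hr
  set r' := √(1 - a ^ 2 * (1 - y ^ 2)) with hr'
  have hx1 : x ≤ 1 := by linarith
  have ha2 : a ^ 2 ≤ 1 / 100 := by nlinarith
  have hxx : 0 ≤ 1 - x ^ 2 := by nlinarith
  have hyy : 0 ≤ 1 - y ^ 2 := by nlinarith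
  have hr0 : 1 / 2 ≤ r := by
    rw [hr]
    apply Real.le_sqrt_of_sq_le
    nlinarith [mul_nonneg (sq_nonneg a) hxx, mul_nonneg (sub_nonneg.2 ha2) hxx, sq_nonneg x]
  have hrr : r < r' := by
    rw [hr, hr']
    apply Real.sqrt_lt_sqrt
    · nlinarith [mul_nonneg (sub_nonneg.2 ha2) hxx, sq_nonneg x]
    · have : x ^ 2 < y ^ 2 := by nlinarith
      nlinarith [pow_pos ha 2]
  have hay : a * y ≤ 1 / 100 := by nlinarith
  have hax : 0 ≤ a * x := by positivity
  have haxy : a * x ≤ a * y := by nlinarith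
  -- convexity: `φ (r + a y) + φ (r - a y) ≥ φ (r + a x) + φ (r - a x)`
  have h1 : (r - a * x) ^ i + (r + a * x) ^ i ≤ (r - a * y) ^ i + (r + a * y) ^ i := by
    have h2 := rpow_incr (p := i) (b := r - a * y) (B := r + a * x) (u := a * y - a * x) hi
      (by linarith) (by linarith) (by linarith)
    have e1 : r - a * y + (a * y - a * x) = r - a * x := by ring
    have e2 : r + a * x + (a * y - a * x) = r + a * y := by ring
    rw [e1, e2] at h2
    linarith
  have h3 : (r - a * y) ^ i < (r' - a * y) ^ i :=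
    Real.rpow_lt_rpow (by linarith) (by linarith) (by linarith)
  have h4 : (r + a * y) ^ i < (r' + a * y) ^ i :=
    Real.rpow_lt_rpow (by linarith) (by linarith) (by linarith)
  have e1 : -(a * x) + r = r - a * x := by ring
  have e2 : a * x + r = r + a * x := by ring
  have e3 : -(a * y) + r' = r' - a * y := by ring
  have e4 : a * y + r' = r' + a * y := by ring
  rw [e1, e2, e3, e4]
  linarith

theorem not_const {m : ℕ} (hm : 1 ≤ m) {ν : Measure ℝ} (hν : SLaw m ν) {i a : ℝ} (hi : 1 ≤ i)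
    (ha : 0 < a) (ha1 : a ≤ 1 / 100) {κ c : ℝ → ℝ} (hκ : ∀ h : ℝ, |h| ≤ 1 → κ h = 1)
    (hc : ContinuousOn c (Icc (-1) 1)) (hroot : ∀ t, |t| ≤ 1 → IsRoot a κ t (c t)) {C : ℝ}
    (hfix : ∀ t, |t| ≤ 1 → Rad ν (fun t => (Rad ν (fun s => (c s) ^ i) t) ^ i) t = C * κ t) :
    False := by
  have := hν.prob
  have h00 : |(0 : ℝ)| ≤ 1 := by norm_num
  have h11 : |(1 : ℝ)| ≤ 1 := by norm_num
  set q : ℝ → ℝ := fun x => ((c x) ^ i + (c (-x)) ^ i) / 2 with hq
  have hcpos : ∀ t, |t| ≤ 1 → 0 < c t := fun t ht => (hroot t ht).1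
  have hci : ContinuousOn (fun s => (c s) ^ i) (Icc (-1) 1) := hc.rpow_const (fun x _ => Or.inr (by linarith))
  have hneg : ContinuousOn (fun s : ℝ => (c (-s)) ^ i) (Icc (-1) 1) := by
    apply hci.comp continuous_neg.continuousOn
    intro x hx
    exact ⟨by linarith [hx.2], by linarith [hx.1]⟩
  have hqc : ContinuousOn q (Icc (-1) 1) := (hci.add hneg).div_const 2
  have hqeven : ∀ x, q (-x) = q x := by
    intro x
    simp only [hq, neg_neg]
    ring
  have hqabs : ∀ x, q x = q |x| := by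
    intro x
    rcases abs_choice x with h | h
    · rw [h]
    · rw [h, hqeven]
  have hqval : ∀ x, 0 ≤ x → x ≤ 1 → q x =
      ((-(a * x) + √(1 - a ^ 2 * (1 - x ^ 2))) ^ i + (a * x + √(1 - a ^ 2 * (1 - x ^ 2))) ^ i) / 2 := by
    intro x hx0 hx1
    have hx : |x| ≤ 1 := by rw [abs_of_nonneg hx0]; exact hx1
    have hx' : |-x| ≤ 1 := by rw [abs_neg]; exact hx
    simp only [hq]
    rw [root_one ha ha1 hκ hx (hroot x hx), root_one ha ha1 hκ hx' (hroot (-x) hx')]
    congr 3
    · ring_nf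
  have hqmono : ∀ x y, |x| < |y| → |y| ≤ 1 → q x < q y := by
    intro x y hxy hy
    rw [hqabs x, hqabs y, hqval _ (abs_nonneg x) (by linarith), hqval _ (abs_nonneg y) hy]
    exact even_strict ha ha1 hi (abs_nonneg x) hxy hy
  -- `ν` is not concentrated at zero
  have hnz : ¬ (∀ᵐ s ∂ν, s = 0) := by
    intro h
    have h1 : ∫ s, s ^ 2 ∂ν = 0 := by
      rw [integral_congr_ae (g := fun _ => (0 : ℝ)) (by
        filter_upwards [h] with s hs
        rw [hs]; norm_num)]
      simp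
    rw [hν.sq] at h1
    have : (0 : ℝ) < (m : ℝ)⁻¹ := by
      apply inv_pos.2
      exact_mod_cast hm
    linarith
  -- strictness principle
  have hstrict : ∀ F G : ℝ → ℝ, Integrable F ν → Integrable G ν → (∀ᵐ s ∂ν, F s ≤ G s) →
      (∀ᵐ s ∂ν, s ≠ 0 → F s < G s) → ∫ s, F s ∂ν < ∫ s, G s ∂ν := by
    intro F G hF hG hle hlt
    have h1 : 0 ≤ ∫ s, (G s - F s) ∂ν := by
      apply integral_nonneg_of_ae
      filter_upwards [hle] with s hs
      simp only [Pi.zero_apply]
      linarith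
    have h2 : ∫ s, (G s - F s) ∂ν = ∫ s, G s ∂ν - ∫ s, F s ∂ν := integral_sub hG hF
    rcases h1.eq_or_lt with h | h
    · exfalso
      apply hnz
      have h3 := (integral_eq_zero_iff_of_nonneg_ae (by
        filter_upwards [hle] with s hs
        simp only [Pi.zero_apply, Pi.sub_apply]
        linarith) (hG.sub hF)).1 h.symm
      filter_upwards [h3, hlt] with s hs hs'
      by_contra hne
      have := hs' hne
      simp only [Pi.zero_apply, Pi.sub_apply] at hs
      linarith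
    · linarith
  set g : ℝ → ℝ := Rad ν (fun s => (c s) ^ i) with hg
  have hgq : ∀ t, |t| ≤ 1 → g t = Rad ν q t := by
    intro t ht
    rw [hg, rad_even hν hci ht]
  have hgc : ContinuousOn g (Icc (-1) 1) := rad_contOn hν hci
  have hg0 : ∀ t, |t| ≤ 1 → t ≠ 0 → g t < g 0 := by
    intro t ht hne
    rw [hgq t ht, hgq 0 h00]
    unfold Rad
    have hsq : √(1 - t ^ 2) < 1 := by
      rw [Real.sqrt_lt' one_pos]
      have : 0 < t ^ 2 := by positivity
      linarith
    have hsq0 := Real.sqrt_nonneg (1 - t ^ 2)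
    have e0 : √(1 - (0 : ℝ) ^ 2) = 1 := by norm_num
    apply hstrict _ _ (rad_integrable hν hqc ht) (rad_integrable hν hqc h00)
    · filter_upwards [hν.supp] with s hs
      rw [e0, one_mul]
      by_cases h0 : s = 0
      · rw [h0, mul_zero]
      · apply le_of_lt
        apply hqmono _ _ _ hs.le
        rw [abs_mul, abs_of_nonneg hsq0]
        have : 0 < |s| := abs_pos.2 h0
        nlinarith
    · filter_upwards [hν.supp] with s hs h0
      rw [e0, one_mul]
      apply hqmono _ _ _ hs.le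
      rw [abs_mul, abs_of_nonneg hsq0]
      have : 0 < |s| := abs_pos.2 h0
      nlinarith
  have hgpos : ∀ t, |t| ≤ 1 → 0 ≤ g t := by
    intro t ht
    rw [hg]
    unfold Rad
    apply integral_nonneg_of_ae
    filter_upwards [hν.supp] with s hs
    simp only [Pi.zero_apply]
    apply Real.rpow_nonneg
    apply (hcpos _ _).le
    rw [abs_mul, abs_of_nonneg (Real.sqrt_nonneg _)]
    have : √(1 - t ^ 2) ≤ 1 := by
      rw [Real.sqrt_le_one]
      nlinarith [sq_nonneg t]
    have := abs_nonneg s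
    have := Real.sqrt_nonneg (1 - t ^ 2)
    nlinarith
  have hgi : ContinuousOn (fun t => (g t) ^ i) (Icc (-1) 1) :=
    hgc.rpow_const (fun x _ => Or.inr (by linarith))
  have hk : Rad ν (fun t => (g t) ^ i) 0 < Rad ν (fun t => (g t) ^ i) 1 := by
    unfold Rad
    apply hstrict _ _ (rad_integrable hν hgi h00) (rad_integrable hν hgi h11)
    · filter_upwards [hν.supp] with s hs
      have e0 : √(1 - (0 : ℝ) ^ 2) = 1 := by norm_num
      have e1 : √(1 - (1 : ℝ) ^ 2) = 0 := by norm_num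
      rw [e0, one_mul, e1, zero_mul]
      by_cases h0 : s = 0
      · rw [h0]
      · exact Real.rpow_le_rpow (hgpos s hs.le) (hg0 s hs.le h0).le (by linarith)
    · filter_upwards [hν.supp] with s hs h0
      have e0 : √(1 - (0 : ℝ) ^ 2) = 1 := by norm_num
      have e1 : √(1 - (1 : ℝ) ^ 2) = 0 := by norm_num
      rw [e0, one_mul, e1, zero_mul]
      exact Real.rpow_lt_rpow (hgpos s hs.le) (hg0 s hs.le h0) (by linarith)
  have h1 := hfix 0 h00
  have h2 := hfix 1 h11
  rw [hκ 0 h00] at h1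
  rw [hκ 1 h11] at h2
  rw [h1, h2] at hk
  exact lt_irrefl _ hk

end StarTr
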