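import Pool.Agent.StarTr.Body
import Pool.Agent.StarTr.NonConst
import Pool.Agent.StarTr.Fix

set_option autoImplicit false

/-!
# StarTr, module Final: assembly
-/

open MeasureTheory Set Metric Module
open scoped ENNReal RealInnerProductSpace

namespace StarTr

open StarIB

variable {E : Type*} [NormedAddCommGroup E] [InnerProductSpace ℝ E] [FiniteDimensional ℝ E]
  [MeasurableSpace E] [BorelSpace E]

omit [FiniteDimensional ℝ E] [MeasurableSpace E] [BorelSpace E] in
theorem image_shift [Nontrivial E] {p a : ℝ} {κ c : ℝ → ℝ} (hp : 1 ≤ p) (hp2 : p ≤ 2) (ha : 0 < a)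
    (ha1 : a ≤ 1 / 100) (hκ : Cls p a κ) (hroot : ∀ t, |t| ≤ 1 → IsRoot a κ t (c t)) {e : E}
    (he : ‖e‖ = 1) :
    (fun y => a • e + y) '' starSet (fun u : E => c ⟪u, e⟫) = starSet (fun u : E => κ ⟪u, e⟫) := by
  ext x
  constructor
  · rintro ⟨y, hy, rfl⟩
    exact (shift_mem hp hp2 ha ha1 hκ hroot he y).2 hy
  · intro hx
    refine ⟨x - a • e, ?_, ?_⟩
    · apply (shift_mem hp hp2 ha ha1 hκ hroot he _).1
      rwa [add_sub_cancel]
    · simp only
      rw [add_sub_cancel]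

omit [MeasurableSpace E] [BorelSpace E] in
theorem exists_height (hE : 2 ≤ finrank ℝ E) {e : E} (he : ‖e‖ = 1) {t : ℝ} (ht : |t| ≤ 1) :
    ∃ u : E, ‖u‖ = 1 ∧ (⟪u, e⟫ : ℝ) = t := by
  have he0 : e ≠ 0 := by
    intro h0; rw [h0, norm_zero] at he; exact zero_ne_one he
  have h1 : 0 < finrank ℝ (ℝ ∙ e)ᗮ := by
    have h2 := Submodule.finrank_add_finrank_orthogonal (K := ℝ ∙ e)
    rw [finrank_span_singleton he0] at h2
    omega
  have : Nontrivial (ℝ ∙ e)ᗮ := Module.nontrivial_of_finrank_pos (R := ℝ) h1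
  obtain ⟨f, hf⟩ := exists_norm_eq (ℝ ∙ e)ᗮ (zero_le_one)
  have hfe : (⟪(f : E), e⟫ : ℝ) = 0 := by
    rw [real_inner_comm]
    exact (Submodule.mem_orthogonal_singleton_iff_inner_right (𝕜 := ℝ)).mp f.2
  have hf1 : ‖(f : E)‖ = 1 := hf
  have ht2 : 0 ≤ 1 - t ^ 2 := by
    have := abs_le.1 ht
    nlinarith
  refine ⟨t • e + √(1 - t ^ 2) • (f : E), ?_, ?_⟩
  · have h3 : ‖t • e + √(1 - t ^ 2) • (f : E)‖ ^ 2 = 1 := by
      rw [norm_add_sq_real, norm_smul, norm_smul, he, hf1, real_inner_smul_left,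
        real_inner_smul_right, real_inner_comm (f : E) e, hfe]
      simp only [Real.norm_eq_abs, mul_one, sq_abs, mul_zero, add_zero]
      rw [Real.sq_sqrt ht2]
      ring
    have h4 : 0 ≤ ‖t • e + √(1 - t ^ 2) • (f : E)‖ := norm_nonneg _
    nlinarith
  · rw [inner_add_left, real_inner_smul_left, real_inner_smul_left, real_inner_self_eq_norm_sq, he,
      hfe]
    ring

omit [FiniteDimensional ℝ E] [MeasurableSpace E] [BorelSpace E] in
theorem center_zero [Nontrivial E] {w : E} {ρ : ℝ} (hρ : 0 ≤ ρ)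
    (h : ∀ x ∈ closedBall w ρ, -x ∈ closedBall w ρ) : w = 0 := by
  by_contra hw
  have hn : 0 < ‖w‖ := norm_pos_iff.2 hw
  have h1 : w + (ρ / ‖w‖) • w ∈ closedBall w ρ := by
    rw [mem_closedBall, dist_eq_norm, add_sub_cancel_left, norm_smul, Real.norm_eq_abs,
      abs_of_nonneg (by positivity), div_mul_cancel₀ _ hn.ne']
  have h2 := h _ h1
  rw [mem_closedBall, dist_eq_norm] at h2
  have h3 : -(w + (ρ / ‖w‖) • w) - w = -((2 + ρ / ‖w‖) • w) := by
    rw [add_smul, two_smul]; abel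
  rw [h3, norm_neg, norm_smul, Real.norm_eq_abs, abs_of_nonneg (by positivity), add_mul,
    div_mul_cancel₀ _ hn.ne'] at h2
  linarith

/-- the star body of a zonal solution -/
theorem fix_body {m : ℕ} [NeZero m] (hm : 2 ≤ m) (hE : finrank ℝ E = m + 1) {i : ℝ} (hi : 1 ≤ i)
    {p a : ℝ} (hp1 : 1 < p) (hp2 : p < 2) (ha : 0 < a) (ha1 : a ≤ 1 / 100) {κ c : ℝ → ℝ} {C : ℝ}
    (hC : 0 < C) (hκ : Cls p a κ) (hc : ContinuousOn c (Icc (-1) 1))
    (hroot : ∀ t, |t| ≤ 1 → IsRoot a κ t (c t))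
    (hfix : ∀ t, |t| ≤ 1 → Rad (nuS m) (fun t => (Rad (nuS m) (fun s => (c s) ^ i) t) ^ i) t = C * κ t)
    (hnorm : ∀ ρ : ℝ, (∀ t : ℝ, |t| ≤ 1 → κ t = ρ) → ρ = 1) {e : E} (he : ‖e‖ = 1) :
    IsStarBody (starSet (fun u : E => c ⟪u, e⟫)) ∧
    (∃ r : ℝ, 0 < r ∧ interBody i (interBody i (starSet (fun u : E => c ⟪u, e⟫))) =
      (fun y => r • (a • e) + r • y) '' starSet (fun u : E => c ⟪u, e⟫)) ∧
    (0 : E) ∈ interior (starSet (fun u : E => c ⟪u, e⟫)) ∧
    (∃ y ∈ starSet (fun u : E => c ⟪u, e⟫), -y ∉ starSet (fun u : E => c ⟪u, e⟫)) ∧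
    (∀ (z : E) (ρ : ℝ), starSet (fun u : E => c ⟪u, e⟫) ≠ closedBall z ρ) ∧
    (fun y => a • e + y) '' starSet (fun u : E => c ⟪u, e⟫) = starSet (fun u : E => κ ⟪u, e⟫) := by
  have hnt : Nontrivial E := Module.nontrivial_of_finrank_pos (R := ℝ) (by omega)
  have hν := nuS_slaw hm
  have hm0 : (0 : ℝ) < m := by exact_mod_cast (by omega : 0 < m)
  have hmass := massS_pos (m := m) (by omega)
  have hk0 : ∀ u : E, ‖u‖ = 1 → 0 ≤ κ ⟪u, e⟫ := by
    intro u hu
    have := hκ.abs_sub_one (by linarith) ha.le (abs_inner_le_one hu he)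
    have := (abs_le.1 this).1
    linarith
  have hc0 : ∀ u : E, ‖u‖ = 1 → 0 ≤ c ⟪u, e⟫ := fun u hu => (hroot _ (abs_inner_le_one hu he)).1.le
  have hinn : ContinuousOn (fun u : E => (⟪u, e⟫ : ℝ)) (sphere (0 : E) 1) :=
    (continuous_id.inner continuous_const).continuousOn
  have hinn2 : MapsTo (fun u : E => (⟪u, e⟫ : ℝ)) (sphere (0 : E) 1) (Icc (-1) 1) := by
    intro u hu
    rw [mem_sphere_zero_iff_norm] at hu
    exact abs_le.1 (abs_inner_le_one hu he)
  set L : Set E := starSet (fun u : E => c ⟪u, e⟫) with hL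
  have hLs : IsStarBody L := isStarBody_starSet hc0 (hc.comp hinn hinn2)
  have hLr : ∀ v : E, ‖v‖ = 1 → radial L v = c ⟪v, e⟫ := fun v hv => radial_starSet' hc0 hv
  have hM := image_shift (E := E) hp1.le hp2.le ha ha1 hκ hroot he
  rw [← hL] at hM
  -- the first intersection body
  set g : ℝ → ℝ := Rad (nuS m) (fun s => (c s) ^ i) with hg
  have hci : ContinuousOn (fun s => (c s) ^ i) (Icc (-1) 1) := hc.rpow_const (fun x _ => Or.inr (by linarith))
  have hgc : ContinuousOn g (Icc (-1) 1) := rad_contOn hν hci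
  have hg0 : ∀ t, |t| ≤ 1 → 0 ≤ g t := by
    intro t ht
    rw [hg]
    unfold Rad
    apply integral_nonneg_of_ae
    filter_upwards [hν.supp] with s hs
    simp only [Pi.zero_apply]
    apply Real.rpow_nonneg
    apply (hroot _ _).1.le
    rw [abs_mul, abs_of_nonneg (Real.sqrt_nonneg _)]
    have : √(1 - t ^ 2) ≤ 1 := by
      rw [Real.sqrt_le_one]
      nlinarith [sq_nonneg t]
    have := abs_nonneg s
    have := Real.sqrt_nonneg (1 - t ^ 2)
    nlinarith
  set b : ℝ := (m : ℝ)⁻¹ * massS m with hb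
  have hb0 : 0 < b := by positivity
  have h1 : ∀ u : E, ‖u‖ = 1 → interRadial i L u = b * g ⟪u, e⟫ := fun u hu =>
    interRadial_zonal hm hE (by linarith) he hc hLr hu
  have h2 : ∀ u : E, ‖u‖ = 1 → radial (interBody i L) u = (fun s => b * g s) ⟪u, e⟫ := by
    intro u hu
    rw [radial_interBody i (fun x hx => by rw [hLr x hx]; exact hc0 x hx) (by omega) hu, h1 u hu]
  have h3 : ∀ u : E, ‖u‖ = 1 → interRadial i (interBody i L) u = b * b ^ i * C * κ ⟪u, e⟫ := by
    intro u hu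
    rw [interRadial_zonal hm hE (by linarith) he (f := fun s => b * g s)
      (continuousOn_const.mul hgc) h2 hu, ← hb]
    have h4 : Rad (nuS m) (fun s => (b * g s) ^ i) ⟪u, e⟫ =
        b ^ i * Rad (nuS m) (fun s => (g s) ^ i) ⟪u, e⟫ := by
      unfold Rad
      rw [← integral_const_mul]
      apply integral_congr_ae
      filter_upwards [hν.supp] with s hs
      have h5 : |√(1 - (⟪u, e⟫ : ℝ) ^ 2) * s| ≤ 1 := by
        rw [abs_mul, abs_of_nonneg (Real.sqrt_nonneg _)]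
        have : √(1 - (⟪u, e⟫ : ℝ) ^ 2) ≤ 1 := by
          rw [Real.sqrt_le_one]
          nlinarith [sq_nonneg (⟪u, e⟫ : ℝ)]
        have := abs_nonneg s
        have := Real.sqrt_nonneg (1 - (⟪u, e⟫ : ℝ) ^ 2)
        nlinarith
      exact Real.mul_rpow hb0.le (hg0 _ h5)
    rw [h4, hfix _ (abs_inner_le_one hu he)]
    ring
  set r : ℝ := b * b ^ i * C with hr
  have hr0 : 0 < r := by positivity
  have hI : interBody i (interBody i L) = (fun y => r • (a • e) + r • y) '' L := by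
    have h4 : interBody i (interBody i L) = (fun y => r • y) '' starSet (fun u : E => κ ⟪u, e⟫) := by
      ext x
      constructor
      · rintro ⟨u, hu, s, hs0, hs, rfl⟩
        rw [h3 u hu] at hs
        refine ⟨(s / r) • u, ⟨u, hu, s / r, by positivity, ?_, rfl⟩, ?_⟩
        · rw [div_le_iff₀ hr0]
          linarith
        · simp only
          rw [smul_smul, mul_div_cancel₀ _ hr0.ne']
      · rintro ⟨y, ⟨u, hu, s, hs0, hs, rfl⟩, rfl⟩
        refine ⟨u, hu, r * s, by positivity, ?_, ?_⟩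
        · rw [h3 u hu]
          exact mul_le_mul_of_nonneg_left hs hr0.le
        · simp only
          rw [smul_smul]
    rw [h4, ← hM, image_image]
    apply image_congr
    intro y _
    rw [smul_add]
  refine ⟨hLs, ⟨r, hr0, hI⟩, ?_, ?_, ?_, hM⟩
  · rw [mem_interior_iff_mem_nhds]
    apply Filter.mem_of_superset (ball_mem_nhds (0 : E) (by norm_num : (0 : ℝ) < 1 / 2))
    intro y hy
    rw [mem_ball_zero_iff] at hy
    obtain ⟨u, hu, hyu⟩ := exists_polar y
    rw [hyu, hL, smul_mem_starSet hc0 hu (norm_nonneg y)]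
    have := (root_bounds hp1.le hp2.le ha ha1 hκ (abs_inner_le_one hu he)
      (hroot _ (abs_inner_le_one hu he))).1
    have := (abs_le.1 this).1
    linarith
  · by_contra hcon
    push Not at hcon
    have hI' : interBody i (interBody i L) = (fun y => (r • (a • e)) + r • y) '' L := hI
    have h5 := translation_zero' i hLs hcon hr0 hI'
    rw [smul_smul] at h5
    rcases smul_eq_zero.1 h5 with h6 | h6
    · exact (mul_pos hr0 ha).ne' h6
    · rw [h6, norm_zero] at he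
      exact zero_ne_one he
  · intro z ρ hball
    -- the shifted body is a ball
    have h5 : starSet (fun u : E => κ ⟪u, e⟫) = closedBall (a • e + z) ρ := by
      rw [← hM, hball]
      ext x
      simp only [mem_image, mem_closedBall, dist_eq_norm]
      constructor
      · rintro ⟨y, hy, rfl⟩
        rwa [add_sub_add_left_eq_sub]
      · intro hx
        refine ⟨x - a • e, ?_, by abel⟩
        have : x - a • e - z = x - (a • e + z) := by abel
        rwa [this]
    have h0 : (0 : E) ∈ starSet (fun u : E => κ ⟪u, e⟫) := by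
      obtain ⟨u, hu⟩ := exists_norm_eq E (zero_le_one)
      exact ⟨u, hu, 0, le_rfl, hk0 u hu, by rw [zero_smul]⟩
    have hρ : 0 ≤ ρ := by
      rw [h5, mem_closedBall] at h0
      exact dist_nonneg.trans h0
    have h6 : a • e + z = 0 := by
      apply center_zero hρ
      intro x hx
      rw [← h5] at hx ⊢
      obtain ⟨u, hu, s, hs0, hs, rfl⟩ := hx
      refine ⟨-u, by rw [norm_neg, hu], s, hs0, ?_, by rw [smul_neg]⟩
      simp only
      rw [inner_neg_left, hκ.even (abs_inner_le_one hu he)]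
      exact hs
    rw [h6] at h5
    have h7 : ∀ t : ℝ, |t| ≤ 1 → κ t = ρ := by
      intro t ht
      obtain ⟨u, hu, hut⟩ := exists_height (by omega) he ht
      have h8 : ∀ s : ℝ, 0 ≤ s → (s ≤ κ t ↔ s ≤ ρ) := by
        intro s hs
        have h9 := smul_mem_starSet hk0 hu hs
        rw [h5, mem_closedBall_zero_iff, norm_smul, hu, mul_one, Real.norm_eq_abs,
          abs_of_nonneg hs] at h9
        rw [← hut]
        exact h9.symm
      have h10 := hk0 u hu
      rw [hut] at h10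
      exact le_antisymm ((h8 _ h10).1 le_rfl) ((h8 _ hρ).2 le_rfl)
    have h8 : ρ = 1 := hnorm ρ h7
    rw [h8] at h7
    exact not_const (by omega) hν hi ha ha1 h7 hc hroot hfix

theorem main {m : ℕ} [NeZero m] (hm : 2 ≤ m) (hE : finrank ℝ E = m + 1) {i : ℝ} (hi : 1 ≤ i)
    (him : i < m) (e : E) (he : ‖e‖ = 1) :
    ∃ a₀ : ℝ, 0 < a₀ ∧ ∀ a : ℝ, 0 < a → a < a₀ →
      ∃ (L : Set E) (r : ℝ), IsStarBody L ∧ 0 < r ∧
        interBody i (interBody i L) = (fun y => r • (a • e) + r • y) '' L ∧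
        (0 : E) ∈ interior L ∧ (∃ y ∈ L, -y ∉ L) ∧ (∀ (z : E) (ρ : ℝ), L ≠ closedBall z ρ) ∧
        (∀ u, ‖u‖ = 1 → (⟪u, e⟫ : ℝ) = 0 → radial ((fun y => a • e + y) '' L) u = 1) := by
  have hν := nuS_slaw hm
  obtain ⟨p, hp1, hp2, a₀, ha₀, ha₀1, H⟩ := exists_fix hm hν hi him
  have h0I : (0 : ℝ) ∈ Icc (-1 : ℝ) 1 := ⟨by norm_num, by norm_num⟩
  refine ⟨a₀, ha₀, fun a ha haa => ?_⟩
  obtain ⟨f, c, C, hf1, hC, hκ, hc, hroot, hfix⟩ := H (ContinuousMap.evalCLM ℝ ⟨0, h0I⟩) rfl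
    (fun f => f.norm_coe_le_norm _) a ha haa.le
  have hκ0 : ext f 0 = 1 := by
    rw [← hf1]
    exact IccExtend_of_mem _ _ h0I
  have ha1 : a ≤ 1 / 100 := by linarith
  obtain ⟨h1, ⟨r, hr, h2⟩, h3, h4, h5, h6⟩ := fix_body hm hE hi hp1 hp2 ha ha1 hC hκ hc hroot hfix
    (fun ρ hρ => by rw [← hρ 0 (by norm_num), hκ0]) he
  refine ⟨_, r, h1, hr, h2, h3, h4, h5, ?_⟩
  intro u hu hue
  have hk0 : ∀ u : E, ‖u‖ = 1 → 0 ≤ ext f ⟪u, e⟫ := by
    intro u hu
    have := hκ.abs_sub_one (by linarith) ha.le (abs_inner_le_one hu he)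
    have := (abs_le.1 this).1
    linarith
  rw [h6, radial_starSet' hk0 hu, hue]
  exact hκ0

end StarTr
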