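import Pool.Agent.StarTr.Def
import Pool.Agent.StarIB.Kernel
import Pool.Agent.StarIB.Bodies

set_option autoImplicit false

/-!
# StarTr, module Law: the law of a coordinate on the sphere

`nuS m` is the law of the first coordinate of a uniform point of the unit sphere of `ℝ^m`, `massS m` the total mass of the sphere.

* `nuS_slaw`: `supp`: `|v 0| < 1` almost everywhere (the set `v 0 = ± 1` consists of two points, which have measure zero for
  `m ≥ 2`; or it follows from the finiteness of the integral in `mom` in `ℝ≥0∞`); `symm`: the isometry `v ↦ -v` (`StarIB.toSphere_map`); `sq`: the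
  integrals of `v j ^ 2` are equal for all `j` (permutation isometries) and sum up to the total mass; `mom`: as in
  `StarIB.dl_moment` (module Kernel), which treats dimension `≥ 3` and exponents `< 2`: `1 - (v 0)^2 = (distance to a line)^2` on the
  sphere; in polar coordinates (`StarIB.lintegral_polar`) reduce to `∫_{|z| ≤ 2} dist(z, line)^(-q) dz < ∞` for `q < 1`, `m ≥ 2`.
-/

open MeasureTheory Set Metric Module
open scoped ENNReal RealInnerProductSpace

namespace StarTr

/-- total mass of the unit sphere of `ℝ^m` -/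
noncomputable def massS (m : ℕ) : ℝ :=
  ((volume : Measure (EuclideanSpace ℝ (Fin m))).toSphere).real univ

/-- law of the first coordinate -/
noncomputable def nuS (m : ℕ) [NeZero m] : Measure ℝ :=
  (((volume : Measure (EuclideanSpace ℝ (Fin m))).toSphere) univ)⁻¹ •
    ((volume : Measure (EuclideanSpace ℝ (Fin m))).toSphere).map
      (fun v : sphere (0 : EuclideanSpace ℝ (Fin m)) 1 => (v : EuclideanSpace ℝ (Fin m)) 0)

namespace LawAux

variable {m : ℕ}

/-- the measure on the sphere -/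
noncomputable abbrev μS (m : ℕ) : Measure (sphere (0 : EuclideanSpace ℝ (Fin m)) 1) :=
  (volume : Measure (EuclideanSpace ℝ (Fin m))).toSphere

theorem μS_univ_ne (hm : 1 ≤ m) : μS m univ ≠ 0 := by
  have : Nonempty (Fin m) := ⟨⟨0, hm⟩⟩
  have : Nontrivial (EuclideanSpace ℝ (Fin m)) := by
    apply Module.nontrivial_of_finrank_pos (R := ℝ)
    rw [finrank_euclideanSpace_fin]
    omega
  rw [Ne, Measure.measure_univ_eq_zero]
  exact Measure.toSphere_ne_zero _

theorem sq_sum (v : sphere (0 : EuclideanSpace ℝ (Fin m)) 1) :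
    ∑ j, (v : EuclideanSpace ℝ (Fin m)) j ^ 2 = 1 := by
  have h1 : ‖(v : EuclideanSpace ℝ (Fin m))‖ = 1 := mem_sphere_zero_iff_norm.1 v.2
  have h2 := EuclideanSpace.norm_sq_eq (v : EuclideanSpace ℝ (Fin m))
  rw [h1] at h2
  simp only [Real.norm_eq_abs, sq_abs] at h2
  linarith

theorem meas_coord (j : Fin m) : Measurable
    (fun v : sphere (0 : EuclideanSpace ℝ (Fin m)) 1 => (v : EuclideanSpace ℝ (Fin m)) j) := by
  fun_prop

theorem cont_coord (j : Fin m) : Continuous
    (fun v : sphere (0 : EuclideanSpace ℝ (Fin m)) 1 => (v : EuclideanSpace ℝ (Fin m)) j) := by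
  fun_prop

open scoped Pointwise in
theorem ae_ne (j : Fin m) : ∀ᵐ v : sphere (0 : EuclideanSpace ℝ (Fin m)) 1 ∂(μS m), (v : EuclideanSpace ℝ (Fin m)) j ≠ 0 := by
  rw [ae_iff]
  have hs : {v : sphere (0 : EuclideanSpace ℝ (Fin m)) 1 |
      ¬ (v : EuclideanSpace ℝ (Fin m)) j ≠ 0} =
      (fun v : sphere (0 : EuclideanSpace ℝ (Fin m)) 1 =>
        (v : EuclideanSpace ℝ (Fin m)) j) ⁻¹' {0} := by
    ext v
    simp
  rw [hs]
  have hmeas : MeasurableSet ((fun v : sphere (0 : EuclideanSpace ℝ (Fin m)) 1 =>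
        (v : EuclideanSpace ℝ (Fin m)) j) ⁻¹' {0}) :=
    meas_coord j (measurableSet_singleton _)
  rw [Measure.toSphere_apply' _ hmeas]
  have hnull : (volume : Measure (EuclideanSpace ℝ (Fin m)))
      (LinearMap.ker (EuclideanSpace.proj (𝕜 := ℝ) j : EuclideanSpace ℝ (Fin m) →L[ℝ] ℝ).toLinearMap :
        Submodule ℝ (EuclideanSpace ℝ (Fin m))) = 0 := by
    apply Measure.addHaar_submodule
    intro htop
    have : EuclideanSpace.single j (1 : ℝ) ∈ LinearMap.ker
        (EuclideanSpace.proj (𝕜 := ℝ) j : EuclideanSpace ℝ (Fin m) →L[ℝ] ℝ).toLinearMap := by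
      rw [htop]
      trivial
    rw [LinearMap.mem_ker] at this
    simp at this
  have hle : (volume : Measure (EuclideanSpace ℝ (Fin m))) (Ioo (0 : ℝ) 1 •
      (Subtype.val '' ((fun v : sphere (0 : EuclideanSpace ℝ (Fin m)) 1 =>
        (v : EuclideanSpace ℝ (Fin m)) j) ⁻¹' {0}))) = 0 := by
    refine measure_mono_null ?_ hnull
    rintro _ ⟨r, -, _, ⟨v, hv, rfl⟩, rfl⟩
    have hv' : (v : EuclideanSpace ℝ (Fin m)) j = 0 := hv
    change r • (v : EuclideanSpace ℝ (Fin m)) ∈ LinearMap.ker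
        (EuclideanSpace.proj (𝕜 := ℝ) j : EuclideanSpace ℝ (Fin m) →L[ℝ] ℝ).toLinearMap
    rw [LinearMap.mem_ker]
    simp [hv']
  rw [hle, mul_zero]

theorem sub_sq (v : sphere (0 : EuclideanSpace ℝ (Fin m)) 1) {i j : Fin m} (h : i ≠ j) :
    (v : EuclideanSpace ℝ (Fin m)) i ^ 2 ≤ 1 - (v : EuclideanSpace ℝ (Fin m)) j ^ 2 := by
  have h1 := sq_sum v
  have h2 : ∑ k ∈ ({i, j} : Finset (Fin m)), (v : EuclideanSpace ℝ (Fin m)) k ^ 2 ≤
      ∑ k, (v : EuclideanSpace ℝ (Fin m)) k ^ 2 :=
    Finset.sum_le_sum_of_subset_of_nonneg (Finset.subset_univ _) (fun _ _ _ => sq_nonneg _)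
  rw [Finset.sum_pair h] at h2
  linarith

theorem int_sq (i j : Fin m) : ∫ v, (v : EuclideanSpace ℝ (Fin m)) i ^ 2 ∂(μS m) =
    ∫ v, (v : EuclideanSpace ℝ (Fin m)) j ^ 2 ∂(μS m) := by
  let Φ := LinearIsometryEquiv.piLpCongrLeft 2 ℝ ℝ (Equiv.swap i j)
  have h := (StarIB.toSphere_map Φ).integral_comp (StarIB.sphEquiv Φ).measurableEmbedding
    (fun v : sphere (0 : EuclideanSpace ℝ (Fin m)) 1 => (v : EuclideanSpace ℝ (Fin m)) i ^ 2)
  rw [← h]
  refine integral_congr_ae (Filter.Eventually.of_forall fun v => ?_)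
  change (Φ (v : EuclideanSpace ℝ (Fin m))) i ^ 2 = _
  congr 1
  simp [Φ, Equiv.piCongrLeft']

theorem integrable_cube {q : ℝ} (hq : q < 1) (j : Fin m) :
    ∫⁻ z : EuclideanSpace ℝ (Fin m), (ball (0 : EuclideanSpace ℝ (Fin m)) 1).indicator
      (fun z => ENNReal.ofReal (|z j| ^ (-q))) z < ∞ := by
  have h1 : Integrable (fun t : ℝ => (Ioo (-1 : ℝ) 1).indicator (fun t => |t| ^ (-q)) t) := by
    rw [integrable_indicator_iff measurableSet_Ioo]
    have h2 : IntervalIntegrable (fun t : ℝ => t ^ (-q)) volume 0 1 :=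
      intervalIntegral.intervalIntegrable_rpow' (by linarith)
    have h3 : IntegrableOn (fun t : ℝ => t ^ (-q)) (Ioc 0 1) :=
      (intervalIntegrable_iff_integrableOn_Ioc_of_le zero_le_one).1 h2
    have h4 : IntegrableOn (fun t : ℝ => |t| ^ (-q)) (Ioc 0 1) := by
      refine h3.congr_fun (fun t ht => ?_) measurableSet_Ioc
      simp only
      rw [abs_of_pos ht.1]
    have h5 : IntegrableOn (fun t : ℝ => |t| ^ (-q)) (Ico (-1) 0) := by
      have h6 := h4.comp_neg
      have h7 : -(Ioc (0 : ℝ) 1) = Ico (-1) 0 := by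
        ext t
        simp only [Set.mem_neg, mem_Ioc, mem_Ico]
        constructor <;> rintro ⟨a, b⟩ <;> constructor <;> linarith
      rw [h7] at h6
      simpa only [abs_neg] using h6
    have h8 : Ioo (-1 : ℝ) 1 ⊆ (Ico (-1) 0 ∪ {0}) ∪ Ioc 0 1 := by
      intro t ht
      rcases lt_trichotomy t 0 with h | h | h
      · exact Or.inl (Or.inl ⟨ht.1.le, h⟩)
      · exact Or.inl (Or.inr h)
      · exact Or.inr ⟨h, ht.2.le⟩
    refine IntegrableOn.mono_set ((h5.union ?_).union h4) h8
    exact integrableOn_singleton (by finiteness) (by rw [Real.volume_singleton]; simp)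
  have h0 : Integrable (fun t : ℝ => (Ioo (-1 : ℝ) 1).indicator (fun _ => (1 : ℝ)) t) := by
    rw [integrable_indicator_iff measurableSet_Ioo]
    exact integrableOn_const (by simp)
  set f : Fin m → ℝ → ℝ := fun k t => if k = j then
    (Ioo (-1 : ℝ) 1).indicator (fun t => |t| ^ (-q)) t else
    (Ioo (-1 : ℝ) 1).indicator (fun _ => (1 : ℝ)) t with hf
  have h9 : Integrable (fun x : Fin m → ℝ => ∏ k, f k (x k)) := by
    apply Integrable.fintype_prod
    intro k
    by_cases hk : k = j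
    · simp only [hf, hk, if_true]
      exact h1
    · simp only [hf, hk, if_false]
      exact h0
  have h10 : Integrable (fun z : EuclideanSpace ℝ (Fin m) => ∏ k, f k (z k)) :=
    (PiLp.volume_preserving_ofLp (Fin m)).integrable_comp_of_integrable h9
  refine lt_of_le_of_lt (lintegral_mono fun z => ?_) h10.lintegral_lt_top
  by_cases hz : z ∈ ball (0 : EuclideanSpace ℝ (Fin m)) 1
  · rw [indicator_of_mem hz]
    apply ENNReal.ofReal_le_ofReal
    have hk : ∀ k, z k ∈ Ioo (-1 : ℝ) 1 := by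
      intro k
      have h11 := PiLp.norm_apply_le z k
      rw [mem_ball_zero_iff] at hz
      have h12 : |z k| < 1 := lt_of_le_of_lt h11 hz
      exact abs_lt.1 h12
    have h13 : ∏ k, f k (z k) = |z j| ^ (-q) := by
      rw [Finset.prod_eq_single j]
      · simp only [hf, if_true]
        rw [indicator_of_mem (hk j)]
      · intro k _ hkj
        simp only [hf, hkj, if_false]
        rw [indicator_of_mem (hk k)]
      · intro h
        exact absurd (Finset.mem_univ j) h
    rw [h13]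
  · rw [indicator_of_notMem hz]
    exact zero_le

theorem lint_coord (hm : 1 ≤ m) {q : ℝ} (hq0 : 0 ≤ q) (hq : q < 1) (j : Fin m) :
    ∫⁻ v, ENNReal.ofReal (|(v : EuclideanSpace ℝ (Fin m)) j| ^ (-q)) ∂(μS m) < ∞ := by
  have : Nontrivial (EuclideanSpace ℝ (Fin m)) := by
    apply Module.nontrivial_of_finrank_pos (R := ℝ)
    rw [finrank_euclideanSpace_fin]
    omega
  have hmeas : Measurable (fun z : EuclideanSpace ℝ (Fin m) =>
      ENNReal.ofReal (|z j| ^ (-q))) := by
    fun_prop
  have h1 := integrable_cube hq j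
  rw [StarIB.lintegral_polar _ (hmeas.indicator measurableSet_ball)] at h1
  set K : ℝ≥0∞ := ENNReal.ofReal ((1 / 2 : ℝ) ^ (finrank ℝ (EuclideanSpace ℝ (Fin m)) - 1)) *
    ENNReal.ofReal (1 / 2) with hK
  have hK0 : K ≠ 0 := by
    rw [hK]
    refine mul_ne_zero ?_ ?_
    · rw [Ne, ENNReal.ofReal_eq_zero, not_le]
      positivity
    · rw [Ne, ENNReal.ofReal_eq_zero, not_le]
      norm_num
  have h2 : K * ∫⁻ v, ENNReal.ofReal (|(v : EuclideanSpace ℝ (Fin m)) j| ^ (-q)) ∂(μS m) ≤
      ∫⁻ θ : sphere (0 : EuclideanSpace ℝ (Fin m)) 1, (∫⁻ r in Ioi (0 : ℝ),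
        ENNReal.ofReal (r ^ (finrank ℝ (EuclideanSpace ℝ (Fin m)) - 1)) *
        (ball (0 : EuclideanSpace ℝ (Fin m)) 1).indicator
          (fun z => ENNReal.ofReal (|z j| ^ (-q))) (r • (θ : EuclideanSpace ℝ (Fin m))))
        ∂(μS m) := by
    rw [← lintegral_const_mul' _ _ (by rw [hK]; exact ENNReal.mul_ne_top (by simp) (by simp))]
    refine lintegral_mono fun θ => ?_
    have hsub : Ioo (1 / 2 : ℝ) 1 ⊆ Ioi 0 := fun r hr => by
      have := hr.1
      simp only [mem_Ioi]
      linarith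
    calc K * ENNReal.ofReal (|(θ : EuclideanSpace ℝ (Fin m)) j| ^ (-q))
        = ∫⁻ _ in Ioo (1 / 2 : ℝ) 1,
          ENNReal.ofReal ((1 / 2 : ℝ) ^ (finrank ℝ (EuclideanSpace ℝ (Fin m)) - 1)) *
          ENNReal.ofReal (|(θ : EuclideanSpace ℝ (Fin m)) j| ^ (-q)) := by
          rw [setLIntegral_const, Real.volume_Ioo, hK]
          have : (1 - 1 / 2 : ℝ) = 1 / 2 := by norm_num
          rw [this]
          ring
      _ ≤ ∫⁻ r in Ioo (1 / 2 : ℝ) 1,
          ENNReal.ofReal (r ^ (finrank ℝ (EuclideanSpace ℝ (Fin m)) - 1)) *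
        (ball (0 : EuclideanSpace ℝ (Fin m)) 1).indicator
          (fun z => ENNReal.ofReal (|z j| ^ (-q))) (r • (θ : EuclideanSpace ℝ (Fin m))) := by
          apply setLIntegral_mono' measurableSet_Ioo
          intro r hr
          have hr0 : 0 < r := by linarith [hr.1]
          have hn : ‖(θ : EuclideanSpace ℝ (Fin m))‖ = 1 := mem_sphere_zero_iff_norm.1 θ.2
          have hb : r • (θ : EuclideanSpace ℝ (Fin m)) ∈
              ball (0 : EuclideanSpace ℝ (Fin m)) 1 := by
            rw [mem_ball_zero_iff, norm_smul, hn, mul_one, Real.norm_eq_abs, abs_of_pos hr0]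
            exact hr.2
          rw [indicator_of_mem hb]
          refine mul_le_mul' (ENNReal.ofReal_le_ofReal ?_) (ENNReal.ofReal_le_ofReal ?_)
          · exact pow_le_pow_left₀ (by norm_num) hr.1.le _
          · have e1 : (r • (θ : EuclideanSpace ℝ (Fin m))) j =
                r * (θ : EuclideanSpace ℝ (Fin m)) j := by simp
            rw [e1, abs_mul, abs_of_pos hr0, Real.mul_rpow hr0.le (abs_nonneg _)]
            have e2 : 1 ≤ r ^ (-q) :=
              Real.one_le_rpow_of_pos_of_le_one_of_nonpos hr0 hr.2.le (by linarith)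
            have e3 : 0 ≤ |(θ : EuclideanSpace ℝ (Fin m)) j| ^ (-q) :=
              Real.rpow_nonneg (abs_nonneg _) _
            nlinarith
      _ ≤ _ := lintegral_mono_set hsub
  have h3 := lt_of_le_of_lt h2 h1
  by_contra h4
  have h5 : ∫⁻ v, ENNReal.ofReal (|(v : EuclideanSpace ℝ (Fin m)) j| ^ (-q)) ∂(μS m) = ∞ :=
    not_lt_top_iff.1 h4
  rw [h5, ENNReal.mul_top hK0] at h3
  exact lt_irrefl _ h3

theorem integrable_mom (hm : 2 ≤ m) {q : ℝ} (hq0 : 0 ≤ q) (hq : q < 1) {i j : Fin m}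
    (hij : i ≠ j) : Integrable
      (fun v : sphere (0 : EuclideanSpace ℝ (Fin m)) 1 =>
        (1 - (v : EuclideanSpace ℝ (Fin m)) j ^ 2) ^ (-(q / 2))) (μS m) := by
  have hm1 : Measurable (fun v : sphere (0 : EuclideanSpace ℝ (Fin m)) 1 =>
        (1 - (v : EuclideanSpace ℝ (Fin m)) j ^ 2) ^ (-(q / 2))) := by
    have := meas_coord j
    fun_prop
  have hm2 : Measurable (fun v : sphere (0 : EuclideanSpace ℝ (Fin m)) 1 =>
        |(v : EuclideanSpace ℝ (Fin m)) i| ^ (-q)) := by
    have := meas_coord i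
    fun_prop
  have h1 : Integrable (fun v : sphere (0 : EuclideanSpace ℝ (Fin m)) 1 =>
        |(v : EuclideanSpace ℝ (Fin m)) i| ^ (-q)) (μS m) := by
    refine ⟨hm2.aestronglyMeasurable, ?_⟩
    rw [hasFiniteIntegral_iff_ofReal
      (Filter.Eventually.of_forall fun v => Real.rpow_nonneg (abs_nonneg _) _)]
    exact lint_coord (by omega) hq0 hq i
  refine Integrable.mono' h1 hm1.aestronglyMeasurable ?_
  filter_upwards [ae_ne i] with v hv
  have h2 := sub_sq v hij
  have h3 : 0 < (v : EuclideanSpace ℝ (Fin m)) i ^ 2 := by positivity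
  rw [Real.norm_eq_abs, abs_of_nonneg (Real.rpow_nonneg (by linarith) _)]
  calc (1 - (v : EuclideanSpace ℝ (Fin m)) j ^ 2) ^ (-(q / 2))
      ≤ ((v : EuclideanSpace ℝ (Fin m)) i ^ 2) ^ (-(q / 2)) :=
        Real.rpow_le_rpow_of_nonpos h3 h2 (by linarith)
    _ = |(v : EuclideanSpace ℝ (Fin m)) i| ^ (-q) := by
        rw [← sq_abs, ← Real.rpow_natCast, ← Real.rpow_mul (abs_nonneg _)]
        congr 1
        push_cast
        ring

end LawAux

open LawAux

theorem massS_pos {m : ℕ} (hm : 1 ≤ m) : 0 < massS m := by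
  rw [massS, Measure.real]
  exact ENNReal.toReal_pos (μS_univ_ne hm) (measure_ne_top _ _)

theorem nuS_slaw {m : ℕ} [NeZero m] (hm : 2 ≤ m) : SLaw m (nuS m) := by
  have hne : μS m univ ≠ 0 := μS_univ_ne (by omega)
  have hinv : (μS m univ)⁻¹ ≠ ∞ := ENNReal.inv_ne_top.2 hne
  have hmc := meas_coord (0 : Fin m)
  have hij : (⟨1, by omega⟩ : Fin m) ≠ 0 := by
    intro h
    have := congrArg Fin.val h
    simp at this
  refine ⟨⟨?_⟩, ?_, ?_, ?_, ?_⟩
  · rw [nuS, Measure.smul_apply, Measure.map_apply hmc MeasurableSet.univ, preimage_univ,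
      smul_eq_mul]
    exact ENNReal.inv_mul_cancel hne (measure_ne_top _ _)
  · rw [nuS]
    apply Measure.ae_smul_measure
    rw [ae_map_iff hmc.aemeasurable (measurableSet_lt (by fun_prop) measurable_const)]
    filter_upwards [ae_ne (⟨1, by omega⟩ : Fin m)] with v hv
    have h2 := sub_sq v hij
    have h3 : 0 < (v : EuclideanSpace ℝ (Fin m)) ⟨1, by omega⟩ ^ 2 := by positivity
    have h4 : (v : EuclideanSpace ℝ (Fin m)) 0 ^ 2 < 1 ^ 2 := by linarith
    exact abs_lt_of_sq_lt_sq h4 zero_le_one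
  · rw [nuS, Measure.map_smul, Measure.map_map (by fun_prop) hmc]
    congr 1
    let Φ := LinearIsometryEquiv.neg ℝ (E := EuclideanSpace ℝ (Fin m))
    have h := (StarIB.toSphere_map Φ).map_eq
    conv_rhs => rw [← h]
    rw [Measure.map_map hmc (StarIB.sphEquiv Φ).continuous.measurable]
    rfl
  · rw [nuS, integral_smul_measure, integral_map hmc.aemeasurable (by fun_prop)]
    have hsum : ∑ j : Fin m, ∫ v, (v : EuclideanSpace ℝ (Fin m)) j ^ 2 ∂(μS m) =
        (μS m).real univ := by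
      rw [← integral_finsetSum]
      · have : ∀ v : sphere (0 : EuclideanSpace ℝ (Fin m)) 1,
            ∑ j, (v : EuclideanSpace ℝ (Fin m)) j ^ 2 = 1 := sq_sum
        simp only [this]
        simp
      · intro j _
        refine Integrable.mono' (integrable_const (1 : ℝ))
          ((meas_coord j).pow_const 2).aestronglyMeasurable
          (Filter.Eventually.of_forall fun v => ?_)
        rw [Real.norm_eq_abs, abs_of_nonneg (sq_nonneg _)]
        calc (v : EuclideanSpace ℝ (Fin m)) j ^ 2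
            ≤ ∑ k, (v : EuclideanSpace ℝ (Fin m)) k ^ 2 :=
              Finset.single_le_sum (f := fun k => (v : EuclideanSpace ℝ (Fin m)) k ^ 2)
                (fun _ _ => sq_nonneg _) (Finset.mem_univ j)
          _ = 1 := sq_sum v
    have hall : ∀ j : Fin m, ∫ v, (v : EuclideanSpace ℝ (Fin m)) j ^ 2 ∂(μS m) =
        ∫ v, (v : EuclideanSpace ℝ (Fin m)) 0 ^ 2 ∂(μS m) := fun j => int_sq j 0
    simp only [hall, Finset.sum_const, Finset.card_univ, Fintype.card_fin, nsmul_eq_mul] at hsum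
    have hm0 : (m : ℝ) ≠ 0 := by
      have : (2 : ℝ) ≤ m := by exact_mod_cast hm
      linarith
    have hu : (μS m).real univ ≠ 0 := by
      rw [Measure.real]
      exact (ENNReal.toReal_pos hne (measure_ne_top _ _)).ne'
    rw [ENNReal.toReal_inv, smul_eq_mul]
    change ((μS m).real univ)⁻¹ * _ = _
    rw [← hsum]
    have hI : ∫ v, (v : EuclideanSpace ℝ (Fin m)) 0 ^ 2 ∂(μS m) ≠ 0 := by
      intro h
      rw [h, mul_zero] at hsum
      exact hu hsum.symm
    field_simp
  · intro q hq0 hq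
    rw [nuS]
    refine Integrable.smul_measure ?_ hinv
    have hm2 : Measurable (fun s : ℝ => (1 - s ^ 2) ^ (-(q / 2))) := by fun_prop
    rw [integrable_map_measure hm2.aestronglyMeasurable hmc.aemeasurable]
    exact integrable_mom hm hq0 hq hij

end StarTr
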