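import Pool.Agent.StarTr.RadEst

set_option autoImplicit false

/-!
# StarTr, module RadEst1: the zonal Radon transform and moduli

* `rad_est1`: pointwise `|f (√(1-t^2) s) - f (√(1-t'^2) s)| ≤ A |s|^p |(1-t^2)^(p/2) - (1-t'^2)^(p/2)| + B |s| |√.. - √..|`,
  `∫ |s|^p dν ≤ (∫ s^2 dν)^(p/2) = m^(-p/2)` (Jensen / Hölder, `p ≤ 2`), `|s| ≤ 1`.
-/

open MeasureTheory Set

namespace StarTr

variable {m : ℕ} {ν : Measure ℝ}

namespace RadEst1Aux

theorem sq_rpow (s p : ℝ) : (s ^ 2) ^ (p / 2) = |s| ^ p := by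
  rw [← sq_abs, ← Real.rpow_natCast, ← Real.rpow_mul (abs_nonneg s)]
  congr 1
  push_cast
  ring

theorem int_sq (hν : SLaw m ν) : Integrable (fun s : ℝ => s ^ 2) ν := by
  have := hν.prob
  refine (integrable_const (1 : ℝ)).mono' (by fun_prop) ?_
  filter_upwards [hν.supp] with s hs
  rw [Real.norm_eq_abs, abs_pow]
  exact pow_le_one₀ (abs_nonneg s) hs.le

theorem int_rpow (hν : SLaw m ν) {p : ℝ} (hp : 0 ≤ p) :
    Integrable (fun s : ℝ => |s| ^ p) ν := by
  have := hν.prob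
  refine (integrable_const (1 : ℝ)).mono' ?_ ?_
  · exact (Continuous.rpow_const continuous_abs fun _ => Or.inr hp).aestronglyMeasurable
  · filter_upwards [hν.supp] with s hs
    rw [Real.norm_eq_abs, abs_of_nonneg (Real.rpow_nonneg (abs_nonneg s) p)]
    exact Real.rpow_le_one (abs_nonneg s) hs.le hp

/-- Jensen -/
theorem mom_le (hν : SLaw m ν) {p : ℝ} (hp : 0 ≤ p) (hp2 : p ≤ 2) :
    ∫ s, |s| ^ p ∂ν ≤ (m : ℝ) ^ (-(p / 2)) := by
  have := hν.prob
  have h1 := (Real.concaveOn_rpow (p := p / 2) (by linarith) (by linarith)).le_map_integral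
    (μ := ν) (f := fun s : ℝ => s ^ 2)
    (Real.continuous_rpow_const (by linarith)).continuousOn isClosed_Ici
    (Filter.Eventually.of_forall fun s => by
      simp only [Set.mem_Ici]
      positivity) (int_sq hν) (by
      refine (int_rpow hν hp).congr (Filter.Eventually.of_forall fun s => ?_)
      exact (sq_rpow s p).symm)
  rw [hν.sq, Real.inv_rpow (Nat.cast_nonneg m), ← Real.rpow_neg (Nat.cast_nonneg m)] at h1
  refine le_trans (le_of_eq ?_) h1
  exact integral_congr_ae (Filter.Eventually.of_forall fun s => (sq_rpow s p).symm)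

theorem abs_rpow {t s p : ℝ} (ht : |t| ≤ 1) :
    |√(1 - t ^ 2) * s| ^ p = (1 - t ^ 2) ^ (p / 2) * |s| ^ p := by
  have h0 : 0 ≤ 1 - t ^ 2 := by
    have := sq_le_one_iff_abs_le_one t |>.2 ht
    linarith
  rw [abs_mul, Real.mul_rpow (abs_nonneg _) (abs_nonneg _), abs_of_nonneg (Real.sqrt_nonneg _),
    Real.sqrt_eq_rpow, ← Real.rpow_mul h0]
  congr 2
  ring

end RadEst1Aux

open RadEst1Aux RadEstAux

theorem rad_est1 (hν : SLaw m ν) {p : ℝ} (hp : 1 ≤ p) (hp2 : p ≤ 2) {f : ℝ → ℝ}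
    (hf : ContinuousOn f (Icc (-1) 1)) {A B : ℝ} (hA : 0 ≤ A) (hB : 0 ≤ B)
    (h : ∀ x y : ℝ, |x| ≤ 1 → |y| ≤ 1 →
      |f x - f y| ≤ A * |(|x| ^ p - |y| ^ p)| + B * |(|x| - |y|)|)
    {t t' : ℝ} (ht : |t| ≤ 1) (ht' : |t'| ≤ 1) :
    |Rad ν f t - Rad ν f t'| ≤
      A * (m : ℝ) ^ (-(p / 2)) * |(1 - t ^ 2) ^ (p / 2) - (1 - t' ^ 2) ^ (p / 2)| +
        B * |√(1 - t ^ 2) - √(1 - t' ^ 2)| := by
  have := hν.prob
  set D := |(1 - t ^ 2) ^ (p / 2) - (1 - t' ^ 2) ^ (p / 2)| with hD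
  set E := |√(1 - t ^ 2) - √(1 - t' ^ 2)| with hE
  have hp0 : 0 ≤ p := by linarith
  have h1 : Rad ν f t - Rad ν f t' =
      ∫ s, (f (√(1 - t ^ 2) * s) - f (√(1 - t' ^ 2) * s)) ∂ν := by
    rw [integral_sub (rad_integrable hν hf ht) (rad_integrable hν hf ht')]
    rfl
  have h2 : |Rad ν f t - Rad ν f t'| ≤ ∫ s, (A * D * |s| ^ p + B * E) ∂ν := by
    rw [h1, ← Real.norm_eq_abs]
    refine norm_integral_le_of_norm_le
      (((int_rpow hν hp0).const_mul (A * D)).add (integrable_const (B * E))) ?_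
    filter_upwards [hν.supp] with s hs
    rw [Real.norm_eq_abs]
    refine (h _ _ (RadEstAux.abs_le_one hs) (RadEstAux.abs_le_one hs)).trans ?_
    rw [abs_rpow ht, abs_rpow ht', ← sub_mul, abs_mul,
      abs_of_nonneg (Real.rpow_nonneg (abs_nonneg s) p), ← hD]
    rw [abs_mul, abs_mul, abs_of_nonneg (Real.sqrt_nonneg _), abs_of_nonneg (Real.sqrt_nonneg _),
      ← sub_mul, abs_mul, abs_abs, ← hE]
    have h3 : B * (E * |s|) ≤ B * E := by
      refine mul_le_mul_of_nonneg_left ?_ hB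
      exact mul_le_of_le_one_right (abs_nonneg _) hs.le
    linarith
  refine h2.trans ?_
  rw [integral_add ((int_rpow hν hp0).const_mul (A * D)) (integrable_const (B * E)),
    integral_const_mul, integral_const]
  have h3 := mul_le_mul_of_nonneg_left (mom_le hν hp0 hp2) (mul_nonneg hA (abs_nonneg
    ((1 - t ^ 2) ^ (p / 2) - (1 - t' ^ 2) ^ (p / 2))))
  rw [← hD] at h3
  simp only [probReal_univ, one_smul]
  linarith

end StarTr
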