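import Pool.Agent.StarTr.RadEst

set_option autoImplicit false

/-!
# StarTr, module RadEst2: the zonal Radon transform and moduli

* `rad_est2`: with `h = √(1-t^2) s`: `1 - h^2 = (1 - s^2) + t^2 s^2`.  First term: `rpow_sub_le_of_add` with
  `x = 1 - s^2`, `β = p/2`: `|(1-h^2)^(p/2) - (1-h'^2)^(p/2)| ≤ |s|^p | |t|^p - |t'|^p |`.  Second term, for `|t'| ≤ |t|`:
  `|√(1-h^2) - √(1-h'^2)| = s^2 (t^2 - t'^2) / (√(1-h^2) + √(1-h'^2))` and
  `√(1-h^2) ≥ (1-s^2)^((p-1)/2) (|t| |s|)^(2-p)` (geometric mean of the two lower bounds `√(1-s^2)`, `|t s|`, exponents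
  `p-1` and `2-p`), so it is `≤ |s|^p (1-s^2)^(-(p-1)/2) (t^2 - t'^2) / |t|^(2-p)
  ≤ (2/p) (1-s^2)^(-(p-1)/2) (|t|^p - |t'|^p)` (`sq_sub_le`).  `K = (2/p) ∫ (1-s^2)^(-(p-1)/2) dν` (`SLaw.mom` with
  `q = p - 1`).
-/

open MeasureTheory Set

namespace StarTr

variable {m : ℕ} {ν : Measure ℝ}

namespace RadEst2Aux

theorem abs_pow_integrable (hν : SLaw m ν) {p : ℝ} (hp : 0 ≤ p) :
    Integrable (fun s : ℝ => |s| ^ p) ν := by
  have := hν.prob
  have hc : Continuous (fun s : ℝ => |s| ^ p) :=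
    continuous_abs.rpow_const (fun _ => Or.inr hp)
  refine Integrable.of_bound hc.aestronglyMeasurable 1 ?_
  filter_upwards [hν.supp] with s hs
  rw [Real.norm_eq_abs, abs_of_nonneg (by positivity)]
  exact Real.rpow_le_one (abs_nonneg s) hs.le hp

theorem sq_integrable (hν : SLaw m ν) : Integrable (fun s : ℝ => s ^ 2) ν := by
  have := hν.prob
  have hc : Continuous (fun s : ℝ => s ^ 2) := by fun_prop
  refine Integrable.of_bound hc.aestronglyMeasurable 1 ?_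
  filter_upwards [hν.supp] with s hs
  rw [Real.norm_eq_abs, abs_of_nonneg (by positivity)]
  have h := sq_abs s
  rw [← h]
  exact pow_le_one₀ (abs_nonneg s) hs.le

theorem sq_rpow_half {p : ℝ} (s : ℝ) : (s ^ 2) ^ (p / 2) = |s| ^ p := by
  rw [← sq_abs, ← Real.rpow_natCast, ← Real.rpow_mul (abs_nonneg s)]
  congr 1
  push_cast
  ring

theorem jensen (hν : SLaw m ν) {p : ℝ} (hp : 0 ≤ p) (hp2 : p ≤ 2) :
    ∫ s, |s| ^ p ∂ν ≤ (m : ℝ) ^ (-(p / 2)) := by
  have := hν.prob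
  have h := (Real.concaveOn_rpow (p := p / 2) (by linarith) (by linarith)).le_map_integral
    (μ := ν) (f := fun s : ℝ => s ^ 2)
    (fun x _ => (Real.continuousAt_rpow_const x (p / 2) (Or.inr (by linarith))).continuousWithinAt)
    isClosed_Ici (Filter.Eventually.of_forall fun s => sq_nonneg s) (sq_integrable hν)
    (by
      have h := abs_pow_integrable hν hp
      refine h.congr (Filter.Eventually.of_forall fun s => ?_)
      exact (sq_rpow_half s).symm)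
  simp only [sq_rpow_half] at h
  rw [hν.sq] at h
  rw [Real.rpow_neg (Nat.cast_nonneg m), ← Real.inv_rpow (Nat.cast_nonneg m)]
  exact h

theorem second {p s t t' X Y : ℝ} (hp : 1 < p) (hp2 : p < 2) (hs : |s| < 1) (htt : |t'| ≤ |t|)
    (hX : X = (1 - s ^ 2) + t ^ 2 * s ^ 2) (hY : Y = (1 - s ^ 2) + t' ^ 2 * s ^ 2) :
    √X - √Y ≤ 2 / p * (1 - s ^ 2) ^ (-((p - 1) / 2)) * (|t| ^ p - |t'| ^ p) := by
  have hs2 : 0 < 1 - s ^ 2 := by
    have h := sq_abs s
    have h2 : |s| ^ 2 < 1 := by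
      rw [sq_lt_one_iff₀ (abs_nonneg s)]
      exact hs
    linarith
  have hΔ : 0 ≤ |t| ^ p - |t'| ^ p :=
    sub_nonneg.2 (Real.rpow_le_rpow (abs_nonneg _) htt (by linarith))
  have htt2 : t' ^ 2 ≤ t ^ 2 := by
    rw [← sq_abs t, ← sq_abs t']
    exact pow_le_pow_left₀ (abs_nonneg _) htt 2
  have hw : 0 < (1 - s ^ 2) ^ (-((p - 1) / 2)) := Real.rpow_pos_of_pos hs2 _
  have hR : 0 ≤ 2 / p * (1 - s ^ 2) ^ (-((p - 1) / 2)) * (|t| ^ p - |t'| ^ p) := by
    have : 0 < 2 / p := by positivity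
    positivity
  have hXpos : 0 < X := by
    rw [hX]
    have : 0 ≤ t ^ 2 * s ^ 2 := by positivity
    linarith
  have hYX : Y ≤ X := by
    rw [hX, hY]
    have := mul_le_mul_of_nonneg_right htt2 (sq_nonneg s)
    linarith
  have hYpos : 0 < Y := by
    rw [hY]
    have : 0 ≤ t' ^ 2 * s ^ 2 := by positivity
    linarith
  by_cases h0 : |t| * |s| = 0
  · have hXY : X = Y := by
      rcases mul_eq_zero.1 h0 with h | h
      · have h1 : t = 0 := abs_eq_zero.1 h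
        have h2 : t' = 0 := by
          rw [h] at htt
          exact abs_eq_zero.1 (le_antisymm htt (abs_nonneg _))
        rw [hX, hY, h1, h2]
      · have h1 : s = 0 := abs_eq_zero.1 h
        rw [hX, hY, h1]
        ring
    rw [hXY, sub_self]
    exact hR
  · have hts : 0 < |t| * |s| := lt_of_le_of_ne (by positivity) (Ne.symm h0)
    have ht0 : 0 < |t| := by
      by_contra h
      have : |t| = 0 := le_antisymm (not_lt.1 h) (abs_nonneg _)
      rw [this, zero_mul] at hts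
      exact lt_irrefl _ hts
    have hs0 : 0 < |s| := by
      by_contra h
      have : |s| = 0 := le_antisymm (not_lt.1 h) (abs_nonneg _)
      rw [this, mul_zero] at hts
      exact lt_irrefl _ hts
    have hD : 0 ≤ √X - √Y := sub_nonneg.2 (Real.sqrt_le_sqrt hYX)
    have e1 : (√X - √Y) * (√X + √Y) = s ^ 2 * (t ^ 2 - t' ^ 2) := by
      have hx := Real.mul_self_sqrt hXpos.le
      have hy := Real.mul_self_sqrt hYpos.le
      have e : (√X - √Y) * (√X + √Y) = √X * √X - √Y * √Y := by ring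
      rw [e, hx, hy, hX, hY]
      ring
    have e2 : (√X - √Y) * √X ≤ s ^ 2 * (t ^ 2 - t' ^ 2) := by
      rw [← e1]
      apply mul_le_mul_of_nonneg_left _ hD
      linarith [Real.sqrt_nonneg Y]
    have e3 : t ^ 2 - t' ^ 2 ≤ 2 / p * (|t| ^ (2 - p) * (|t| ^ p - |t'| ^ p)) := by
      have h := sq_sub_le hp.le hp2.le (abs_nonneg t') htt
      rw [sq_abs, sq_abs] at h
      exact h
    -- lower bound for `√X`
    have g1 : √(1 - s ^ 2) ≤ √X := by
      apply Real.sqrt_le_sqrt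
      rw [hX]
      have : 0 ≤ t ^ 2 * s ^ 2 := by positivity
      linarith
    have g2 : |t| * |s| ≤ √X := by
      apply Real.le_sqrt_of_sq_le
      rw [hX, mul_pow, sq_abs, sq_abs]
      linarith
    have g3 : (1 - s ^ 2) ^ ((p - 1) / 2) * (|t| * |s|) ^ (2 - p) ≤ √X := by
      have hXs : 0 < √X := Real.sqrt_pos.2 hXpos
      have k1 : (1 - s ^ 2) ^ ((p - 1) / 2) = √(1 - s ^ 2) ^ (p - 1) := by
        rw [Real.sqrt_eq_rpow, ← Real.rpow_mul hs2.le]
        congr 1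
        ring
      have k2 : √X = √X ^ (p - 1) * √X ^ (2 - p) := by
        rw [← Real.rpow_add hXs]
        have : p - 1 + (2 - p) = 1 := by ring
        rw [this, Real.rpow_one]
      rw [k1]
      conv_rhs => rw [k2]
      apply mul_le_mul
      · exact Real.rpow_le_rpow (Real.sqrt_nonneg _) g1 (by linarith)
      · exact Real.rpow_le_rpow hts.le g2 (by linarith)
      · positivity
      · positivity
    have hG : 0 < (1 - s ^ 2) ^ ((p - 1) / 2) * (|t| * |s|) ^ (2 - p) := by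
      have := Real.rpow_pos_of_pos hs2 ((p - 1) / 2)
      positivity
    have e4 : (√X - √Y) * ((1 - s ^ 2) ^ ((p - 1) / 2) * (|t| * |s|) ^ (2 - p)) ≤
        s ^ 2 * (2 / p * (|t| ^ (2 - p) * (|t| ^ p - |t'| ^ p))) :=
      (mul_le_mul_of_nonneg_left g3 hD).trans
        (e2.trans (mul_le_mul_of_nonneg_left e3 (sq_nonneg s)))
    have e5 : s ^ 2 * (2 / p * (|t| ^ (2 - p) * (|t| ^ p - |t'| ^ p))) ≤
        (2 / p * (1 - s ^ 2) ^ (-((p - 1) / 2)) * (|t| ^ p - |t'| ^ p)) *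
          ((1 - s ^ 2) ^ ((p - 1) / 2) * (|t| * |s|) ^ (2 - p)) := by
      have k1 : (1 - s ^ 2) ^ (-((p - 1) / 2)) * (1 - s ^ 2) ^ ((p - 1) / 2) = 1 := by
        rw [← Real.rpow_add hs2, neg_add_cancel, Real.rpow_zero]
      have k2 : s ^ 2 ≤ |s| ^ (2 - p) := by
        rw [← sq_abs, ← Real.rpow_natCast]
        exact Real.rpow_le_rpow_of_exponent_ge hs0 hs.le (by push_cast; linarith)
      have k3 : (|t| * |s|) ^ (2 - p) = |t| ^ (2 - p) * |s| ^ (2 - p) :=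
        Real.mul_rpow (abs_nonneg _) (abs_nonneg _)
      have k4 : (2 / p * (1 - s ^ 2) ^ (-((p - 1) / 2)) * (|t| ^ p - |t'| ^ p)) *
          ((1 - s ^ 2) ^ ((p - 1) / 2) * (|t| * |s|) ^ (2 - p)) =
          |s| ^ (2 - p) * (2 / p * (|t| ^ (2 - p) * (|t| ^ p - |t'| ^ p))) *
            ((1 - s ^ 2) ^ (-((p - 1) / 2)) * (1 - s ^ 2) ^ ((p - 1) / 2)) := by
        rw [k3]
        ring
      rw [k4, k1, mul_one]
      apply mul_le_mul_of_nonneg_right k2
      have : 0 < 2 / p := by positivity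
      positivity
    exact le_of_mul_le_mul_right (e4.trans e5) hG

theorem first {p s t t' X Y : ℝ} (hp : 1 < p) (hp2 : p < 2) (hs : |s| < 1) (htt : |t'| ≤ |t|)
    (hX : X = (1 - s ^ 2) + t ^ 2 * s ^ 2) (hY : Y = (1 - s ^ 2) + t' ^ 2 * s ^ 2) :
    X ^ (p / 2) - Y ^ (p / 2) ≤ |s| ^ p * (|t| ^ p - |t'| ^ p) := by
  have hs2 : 0 ≤ 1 - s ^ 2 := by
    have h := sq_abs s
    have h2 : |s| ^ 2 < 1 := by
      rw [sq_lt_one_iff₀ (abs_nonneg s)]
      exact hs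
    linarith
  have htt2 : t' ^ 2 ≤ t ^ 2 := by
    rw [← sq_abs t, ← sq_abs t']
    exact pow_le_pow_left₀ (abs_nonneg _) htt 2
  have h := rpow_sub_le_of_add (x := 1 - s ^ 2) (u := t ^ 2 * s ^ 2) (u' := t' ^ 2 * s ^ 2)
    (β := p / 2) hs2 (by positivity) (mul_le_mul_of_nonneg_right htt2 (sq_nonneg s))
    (by linarith) (by linarith)
  rw [Real.mul_rpow (sq_nonneg _) (sq_nonneg _), Real.mul_rpow (sq_nonneg _) (sq_nonneg _),
    sq_rpow_half, sq_rpow_half, sq_rpow_half] at h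
  rw [hX, hY]
  linarith

/-- the one sided estimate -/
theorem main (hν : SLaw m ν) {p : ℝ} (hp : 1 < p) (hp2 : p < 2) (f : ℝ → ℝ)
    (hf : ContinuousOn f (Icc (-1) 1)) (A B : ℝ) (hA : 0 ≤ A) (hB : 0 ≤ B)
    (h : ∀ x y : ℝ, |x| ≤ 1 → |y| ≤ 1 →
      |f x - f y| ≤ A * |(1 - x ^ 2) ^ (p / 2) - (1 - y ^ 2) ^ (p / 2)| +
        B * |√(1 - x ^ 2) - √(1 - y ^ 2)|)
    (t t' : ℝ) (ht : |t| ≤ 1) (ht' : |t'| ≤ 1) (htt : |t'| ≤ |t|) :
    |Rad ν f t - Rad ν f t'| ≤ (A * (m : ℝ) ^ (-(p / 2)) +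
      B * (2 / p * ∫ s, (1 - s ^ 2) ^ (-((p - 1) / 2)) ∂ν)) * (|t| ^ p - |t'| ^ p) := by
  have hΔ : 0 ≤ |t| ^ p - |t'| ^ p :=
    sub_nonneg.2 (Real.rpow_le_rpow (abs_nonneg _) htt (by linarith))
  have hi1 := abs_pow_integrable hν (p := p) (by linarith)
  have hi2 := hν.mom (p - 1) (by linarith) (by linarith)
  have hg : Integrable (fun s : ℝ => (A * |s| ^ p +
      B * (2 / p * (1 - s ^ 2) ^ (-((p - 1) / 2)))) * (|t| ^ p - |t'| ^ p)) ν :=
    ((hi1.const_mul A).add ((hi2.const_mul (2 / p)).const_mul B)).mul_const _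
  have e0 : Rad ν f t - Rad ν f t' =
      ∫ s, (f (√(1 - t ^ 2) * s) - f (√(1 - t' ^ 2) * s)) ∂ν :=
    (integral_sub (rad_integrable hν hf ht) (rad_integrable hν hf ht')).symm
  have e1 : ∫ s, (A * |s| ^ p +
      B * (2 / p * (1 - s ^ 2) ^ (-((p - 1) / 2)))) * (|t| ^ p - |t'| ^ p) ∂ν =
      (A * (∫ s, |s| ^ p ∂ν) + B * (2 / p * ∫ s, (1 - s ^ 2) ^ (-((p - 1) / 2)) ∂ν)) *
        (|t| ^ p - |t'| ^ p) := by
    rw [integral_mul_const, integral_add (hi1.const_mul A) ((hi2.const_mul (2 / p)).const_mul B),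
      integral_const_mul, integral_const_mul, integral_const_mul]
  have e2 : |Rad ν f t - Rad ν f t'| ≤ (A * (∫ s, |s| ^ p ∂ν) +
      B * (2 / p * ∫ s, (1 - s ^ 2) ^ (-((p - 1) / 2)) ∂ν)) * (|t| ^ p - |t'| ^ p) := by
    rw [← e1, e0, ← Real.norm_eq_abs]
    apply norm_integral_le_of_norm_le hg
    filter_upwards [hν.supp] with s hs
    rw [Real.norm_eq_abs]
    have hb : ∀ r : ℝ, |r| ≤ 1 → |√(1 - r ^ 2) * s| ≤ 1 := by
      intro r _
      rw [abs_mul, abs_of_nonneg (Real.sqrt_nonneg _)]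
      have h1 : √(1 - r ^ 2) ≤ 1 := by
        rw [Real.sqrt_le_iff]
        have := sq_nonneg r
        constructor
        · norm_num
        · linarith
      calc √(1 - r ^ 2) * |s| ≤ 1 * 1 :=
            mul_le_mul h1 hs.le (abs_nonneg _) (by norm_num)
        _ = 1 := one_mul 1
    have hsq : ∀ r : ℝ, |r| ≤ 1 → 1 - (√(1 - r ^ 2) * s) ^ 2 = (1 - s ^ 2) + r ^ 2 * s ^ 2 := by
      intro r hr
      have h1 : r ^ 2 ≤ 1 := by
        rw [← sq_abs]
        exact pow_le_one₀ (abs_nonneg _) hr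
      rw [mul_pow, Real.sq_sqrt (by linarith)]
      ring
    have hh := h _ _ (hb t ht) (hb t' ht')
    have hfst := first hp hp2 hs htt (hsq t ht) (hsq t' ht')
    have hsnd := second hp hp2 hs htt (hsq t ht) (hsq t' ht')
    have htt2 : t' ^ 2 ≤ t ^ 2 := by
      rw [← sq_abs t, ← sq_abs t']
      exact pow_le_pow_left₀ (abs_nonneg _) htt 2
    have hs2 : 0 ≤ 1 - s ^ 2 := by
      have h := sq_abs s
      have h2 : |s| ^ 2 < 1 := by
        rw [sq_lt_one_iff₀ (abs_nonneg s)]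
        exact hs
      linarith
    have hle : 1 - (√(1 - t' ^ 2) * s) ^ 2 ≤ 1 - (√(1 - t ^ 2) * s) ^ 2 := by
      rw [hsq t ht, hsq t' ht']
      have := mul_le_mul_of_nonneg_right htt2 (sq_nonneg s)
      linarith
    have hn : 0 ≤ 1 - (√(1 - t' ^ 2) * s) ^ 2 := by
      rw [hsq t' ht']
      have : 0 ≤ t' ^ 2 * s ^ 2 := by positivity
      linarith
    have ha1 : |(1 - (√(1 - t ^ 2) * s) ^ 2) ^ (p / 2) - (1 - (√(1 - t' ^ 2) * s) ^ 2) ^ (p / 2)|
        ≤ |s| ^ p * (|t| ^ p - |t'| ^ p) := by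
      rw [abs_of_nonneg (sub_nonneg.2 (Real.rpow_le_rpow hn hle (by linarith)))]
      exact hfst
    have ha2 : |√(1 - (√(1 - t ^ 2) * s) ^ 2) - √(1 - (√(1 - t' ^ 2) * s) ^ 2)|
        ≤ 2 / p * (1 - s ^ 2) ^ (-((p - 1) / 2)) * (|t| ^ p - |t'| ^ p) := by
      rw [abs_of_nonneg (sub_nonneg.2 (Real.sqrt_le_sqrt hle))]
      exact hsnd
    calc |f (√(1 - t ^ 2) * s) - f (√(1 - t' ^ 2) * s)|
        ≤ A * (|s| ^ p * (|t| ^ p - |t'| ^ p)) +
          B * (2 / p * (1 - s ^ 2) ^ (-((p - 1) / 2)) * (|t| ^ p - |t'| ^ p)) :=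
          hh.trans (add_le_add (mul_le_mul_of_nonneg_left ha1 hA)
            (mul_le_mul_of_nonneg_left ha2 hB))
      _ = (A * |s| ^ p + B * (2 / p * (1 - s ^ 2) ^ (-((p - 1) / 2)))) *
          (|t| ^ p - |t'| ^ p) := by ring
  refine e2.trans (mul_le_mul_of_nonneg_right ?_ hΔ)
  have := mul_le_mul_of_nonneg_left (jensen hν (p := p) (by linarith) hp2.le) hA
  linarith

end RadEst2Aux

theorem rad_est2 (hν : SLaw m ν) {p : ℝ} (hp : 1 < p) (hp2 : p < 2) : ∃ K : ℝ, 0 ≤ K ∧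
    ∀ f : ℝ → ℝ, ContinuousOn f (Icc (-1) 1) → ∀ A B : ℝ, 0 ≤ A → 0 ≤ B →
    (∀ x y : ℝ, |x| ≤ 1 → |y| ≤ 1 →
      |f x - f y| ≤ A * |(1 - x ^ 2) ^ (p / 2) - (1 - y ^ 2) ^ (p / 2)| +
        B * |√(1 - x ^ 2) - √(1 - y ^ 2)|) →
    ∀ t t' : ℝ, |t| ≤ 1 → |t'| ≤ 1 →
    |Rad ν f t - Rad ν f t'| ≤ (A * (m : ℝ) ^ (-(p / 2)) + B * K) * |(|t| ^ p - |t'| ^ p)| := by
  refine ⟨2 / p * ∫ s, (1 - s ^ 2) ^ (-((p - 1) / 2)) ∂ν, ?_, ?_⟩
  · apply mul_nonneg (by positivity)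
    apply integral_nonneg_of_ae
    filter_upwards [hν.supp] with s hs
    have h2 : |s| ^ 2 < 1 := by
      rw [sq_lt_one_iff₀ (abs_nonneg s)]
      exact hs
    rw [sq_abs] at h2
    exact Real.rpow_nonneg (by linarith) _
  · intro f hf A B hA hB h t t' ht ht'
    rcases le_total |t'| |t| with htt | htt
    · rw [abs_of_nonneg (sub_nonneg.2 (Real.rpow_le_rpow (abs_nonneg _) htt (by linarith)))]
      exact RadEst2Aux.main hν hp hp2 f hf A B hA hB h t t' ht ht' htt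
    · rw [abs_sub_comm, abs_sub_comm (|t| ^ p),
        abs_of_nonneg (sub_nonneg.2 (Real.rpow_le_rpow (abs_nonneg _) htt (by linarith)))]
      exact RadEst2Aux.main hν hp hp2 f hf A B hA hB h t' t ht' ht htt

end StarTr
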