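import Pool.Agent.StarTr.Def
import Pool.Agent.StarTr.Pow

set_option autoImplicit false

/-!
# StarTr, module Roots: the radial function of the shifted body of revolution

`1 ≤ p ≤ 2`, `0 < a ≤ 1/100`, `κ` in the class `Cls p a`.
-/

namespace StarTr

theorem Cls.abs_sub_one {p a : ℝ} {κ : ℝ → ℝ} (_hp : 0 < p) (_ha : 0 ≤ a) (hκ : Cls p a κ) {h : ℝ}
    (hh : |h| ≤ 1) : |κ h - 1| ≤ a :=
  hκ.1 h hh

theorem Cls.even {p a : ℝ} {κ : ℝ → ℝ} (hκ : Cls p a κ) {h : ℝ} (hh : |h| ≤ 1) :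
    κ (-h) = κ h := by
  have h1 := hκ.2 (-h) h (by rwa [abs_neg]) hh
  rw [abs_neg, sub_self, abs_zero, mul_zero] at h1
  have h2 := abs_nonpos_iff.1 h1
  linarith

theorem Cls.continuousOn {p a : ℝ} {κ : ℝ → ℝ} (hp : 0 < p) (hκ : Cls p a κ) :
    ContinuousOn κ (Set.Icc (-1) 1) := by
  intro x hx
  have hx1 : |x| ≤ 1 := abs_le.2 ⟨hx.1, hx.2⟩
  rw [Metric.continuousWithinAt_iff']
  intro ε hε
  have hc : Continuous (fun h : ℝ => a * |(|h| ^ p - |x| ^ p)|) := by
    apply Continuous.mul continuous_const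
    apply Continuous.abs
    apply Continuous.sub _ continuous_const
    exact continuous_abs.rpow_const (fun _ => Or.inr hp.le)
  have h1 : ∀ᶠ h in nhdsWithin x (Set.Icc (-1) 1), a * |(|h| ^ p - |x| ^ p)| < ε := by
    have h2 := (hc.tendsto x).mono_left (nhdsWithin_le_nhds (s := Set.Icc (-1 : ℝ) 1))
    simp only [sub_self, abs_zero, mul_zero] at h2
    exact h2.eventually (gt_mem_nhds hε)
  filter_upwards [h1, self_mem_nhdsWithin] with h hh1 hh2
  rw [Real.dist_eq]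
  exact (hκ.2 h x (abs_le.2 ⟨hh2.1, hh2.2⟩) hx1).trans_lt hh1

theorem sq_nonneg_aux {a c t : ℝ} (ht : |t| ≤ 1) :
    (a + c * t) ^ 2 ≤ a ^ 2 + 2 * a * c * t + c ^ 2 := by
  have h1 : t ^ 2 ≤ 1 := by
    rw [← sq_abs]; nlinarith [abs_nonneg t]
  nlinarith [sq_nonneg c, mul_nonneg (sq_nonneg c) (sub_nonneg.2 h1)]

theorem abs_hh_le {a c t : ℝ} (ht : |t| ≤ 1) : |hh a c t| ≤ 1 := by
  unfold hh ww
  rw [abs_div, abs_of_nonneg (Real.sqrt_nonneg _)]
  apply div_le_one_of_le₀ _ (Real.sqrt_nonneg _)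
  apply Real.le_sqrt_of_sq_le
  rw [sq_abs]
  exact sq_nonneg_aux ht

theorem ww_le {a c t : ℝ} (ha : 0 ≤ a) (hc : 0 ≤ c) (ht : |t| ≤ 1) : ww a c t ≤ a + c := by
  unfold ww
  rw [Real.sqrt_le_left (by positivity)]
  have := (abs_le.1 ht).2
  nlinarith [mul_nonneg ha hc]

theorem le_ww {a c t : ℝ} (ha : 0 ≤ a) (hc : 0 ≤ c) (ht : |t| ≤ 1) : c - a ≤ ww a c t := by
  unfold ww
  apply Real.le_sqrt_of_sq_le
  have := (abs_le.1 ht).1
  nlinarith [mul_nonneg ha hc]

theorem ww_nonneg (a c t : ℝ) : 0 ≤ ww a c t := Real.sqrt_nonneg _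

theorem ww_sq {a c t : ℝ} (ht : |t| ≤ 1) : (ww a c t) ^ 2 = a ^ 2 + 2 * a * c * t + c ^ 2 := by
  unfold ww
  rw [Real.sq_sqrt]
  exact (sq_nonneg _).trans (sq_nonneg_aux ht)

theorem ww_lip_c {a c c' t : ℝ} (ha : 0 ≤ a) (hc : 0 ≤ c) (hc' : 0 ≤ c') (ht : |t| ≤ 1) :
    |ww a c t - ww a c' t| ≤ |c - c'| := by
  have key : ∀ x y : ℝ, x ≤ y → 0 ≤ x → |ww a x t - ww a y t| ≤ y - x := by
    intro x y hxy hx
    have h1 := ww_sq (a := a) (c := x) ht
    have h2 := ww_sq (a := a) (c := y) ht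
    have n1 := ww_nonneg a x t
    have n2 := ww_nonneg a y t
    have b1 : |a * t + x| ≤ ww a x t := by
      unfold ww
      apply Real.le_sqrt_of_sq_le
      rw [sq_abs]
      have h1 : t ^ 2 ≤ 1 := by
        rw [← sq_abs]; nlinarith [abs_nonneg t]
      nlinarith [mul_nonneg (sq_nonneg a) (sub_nonneg.2 h1)]
    have b2 : |a * t + y| ≤ ww a y t := by
      unfold ww
      apply Real.le_sqrt_of_sq_le
      rw [sq_abs]
      have h1 : t ^ 2 ≤ 1 := by
        rw [← sq_abs]; nlinarith [abs_nonneg t]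
      nlinarith [mul_nonneg (sq_nonneg a) (sub_nonneg.2 h1)]
    have h3 : (ww a x t - ww a y t) * (ww a x t + ww a y t) =
        (x - y) * ((a * t + x) + (a * t + y)) := by nlinarith
    rcases (add_nonneg n1 n2).eq_or_lt with h0 | h0
    · have e1 : ww a x t = 0 := by linarith
      have e2 : ww a y t = 0 := by linarith
      rw [e1, e2, sub_zero, abs_zero]
      linarith
    · have h4 : |ww a x t - ww a y t| * (ww a x t + ww a y t) ≤
          (y - x) * (ww a x t + ww a y t) := by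
        rw [← abs_of_pos h0, ← abs_mul, h3, abs_mul, abs_sub_comm, abs_of_nonneg (sub_nonneg.2 hxy)]
        apply mul_le_mul_of_nonneg_left _ (sub_nonneg.2 hxy)
        rw [abs_of_pos h0]
        exact (abs_add_le _ _).trans (add_le_add b1 b2)
      exact le_of_mul_le_mul_right h4 h0
  rcases le_total c c' with h | h
  · rw [abs_sub_comm c c', abs_of_nonneg (sub_nonneg.2 h)]
    exact key c c' h hc
  · rw [abs_of_nonneg (sub_nonneg.2 h), abs_sub_comm]
    exact key c' c h hc'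

theorem root_bounds {p a : ℝ} {κ : ℝ → ℝ} (hp : 1 ≤ p) (hp2 : p ≤ 2) (ha : 0 < a)
    (ha1 : a ≤ 1 / 100) (hκ : Cls p a κ) {t c : ℝ} (ht : |t| ≤ 1) (hc : IsRoot a κ t c) :
    |c - 1| ≤ 2 * a ∧ |ww a c t - 1| ≤ a := by
  obtain ⟨hc0, hc1⟩ := hc
  have h1 : |ww a c t - 1| ≤ a := by
    rw [hc1]
    exact hκ.abs_sub_one (by linarith) ha.le (abs_hh_le ht)
  refine ⟨?_, h1⟩
  have h2 := ww_le ha.le hc0.le ht
  have h3 := le_ww ha.le hc0.le ht
  rw [abs_le] at h1 ⊢
  constructor <;> linarith [h1.1, h1.2]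

theorem hh_lip {a c c' t : ℝ} (ha : 0 < a) (ha1 : a ≤ 1 / 100) (ht : |t| ≤ 1) (hc : 1 / 2 ≤ c)
    (hcc : c ≤ c') : |hh a c' t - hh a c t| ≤ 4.2 * (c' - c) := by
  have w1 := le_ww ha.le (by linarith : 0 ≤ c) ht
  have w2 := le_ww ha.le (by linarith : 0 ≤ c') ht
  have p1 : 0.49 ≤ ww a c t := by norm_num; linarith
  have p2 : 0.49 ≤ ww a c' t := by norm_num; linarith
  have q1 : 0 < ww a c t := by norm_num at p1; linarith
  have q2 : 0 < ww a c' t := by norm_num at p2; linarith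
  have h1 := abs_hh_le (a := a) (c := c) ht
  have h2 := ww_lip_c ha.le (by linarith : 0 ≤ c') (by linarith : 0 ≤ c) ht
  rw [abs_of_nonneg (sub_nonneg.2 hcc)] at h2
  have e1 : hh a c t * ww a c t = a + c * t := by
    unfold hh; field_simp
  have e2 : hh a c' t * ww a c' t = a + c' * t := by
    unfold hh; field_simp
  have h3 : (hh a c' t - hh a c t) * ww a c' t = (c' - c) * t - hh a c t * (ww a c' t - ww a c t) := by
    linarith [e1, e2, mul_sub (hh a c t) (ww a c' t) (ww a c t)]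
  have h4 : |hh a c' t - hh a c t| * ww a c' t ≤ 2 * (c' - c) := by
    rw [← abs_of_pos q2, ← abs_mul, h3]
    refine (abs_sub _ _).trans ?_
    rw [abs_mul, abs_mul, abs_of_nonneg (sub_nonneg.2 hcc)]
    have a1 : (c' - c) * |t| ≤ (c' - c) * 1 := mul_le_mul_of_nonneg_left ht (sub_nonneg.2 hcc)
    have a2 : |hh a c t| * |ww a c' t - ww a c t| ≤ 1 * (c' - c) :=
      mul_le_mul h1 h2 (abs_nonneg _) (by norm_num)
    linarith
  have h5 : |hh a c' t - hh a c t| * 0.49 ≤ |hh a c' t - hh a c t| * ww a c' t :=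
    mul_le_mul_of_nonneg_left p2 (abs_nonneg _)
  norm_num at h5 ⊢
  linarith

theorem root_mono {p a : ℝ} {κ : ℝ → ℝ} (hp : 1 ≤ p) (hp2 : p ≤ 2) (ha : 0 < a)
    (ha1 : a ≤ 1 / 100) (hκ : Cls p a κ) {t c c' : ℝ} (ht : |t| ≤ 1) (hc : 1 / 2 ≤ c)
    (hcc : c ≤ c') (hc' : c' ≤ 2) :
    (c' - c) / 2 ≤ (ww a c' t - κ (hh a c' t)) - (ww a c t - κ (hh a c t)) := by
  have h1 := hh_lip ha ha1 ht hc hcc
  have h2 := hκ.2 (hh a c' t) (hh a c t) (abs_hh_le ht) (abs_hh_le ht)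
  have h3 := abs_rpow_sub (M := 1) hp (abs_hh_le (a := a) (c := c') ht)
    (abs_hh_le (a := a) (c := c) ht)
  rw [Real.one_rpow, mul_one] at h3
  have h4 : |κ (hh a c' t) - κ (hh a c t)| ≤ a * (2 * (4.2 * (c' - c))) := by
    refine h2.trans ?_
    apply mul_le_mul_of_nonneg_left _ ha.le
    refine h3.trans ?_
    apply mul_le_mul hp2 h1 (abs_nonneg _) (by norm_num)
  have h5 : |κ (hh a c' t) - κ (hh a c t)| ≤ 0.1 * (c' - c) := by
    refine h4.trans ?_
    have : a * (2 * (4.2 * (c' - c))) ≤ 1 / 100 * (2 * (4.2 * (c' - c))) := by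
      apply mul_le_mul_of_nonneg_right ha1
      have := sub_nonneg.2 hcc
      positivity
    have h6 := sub_nonneg.2 hcc
    norm_num at this ⊢
    linarith
  have h6 := (abs_le.1 h5).2
  -- lower bound of the increment of ww
  have w1 := le_ww ha.le (by linarith : 0 ≤ c) ht
  have w2 := le_ww ha.le (by linarith : 0 ≤ c') ht
  have w3 := ww_le ha.le (by linarith : 0 ≤ c) ht
  have w4 := ww_le ha.le (by linarith : 0 ≤ c') ht
  have s1 := ww_sq (a := a) (c := c) ht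
  have s2 := ww_sq (a := a) (c := c') ht
  have h7 : (ww a c' t - ww a c t) * (ww a c' t + ww a c t) = (c' - c) * (c' + c + 2 * a * t) := by
    nlinarith
  have t1 := (abs_le.1 ht).1
  have hS : 0 < ww a c' t + ww a c t := by linarith
  have h8 : 0.9 * (c' - c) ≤ ww a c' t - ww a c t := by
    by_contra hcon
    push Not at hcon
    have h9 : (ww a c' t - ww a c t) * (ww a c' t + ww a c t) <
        0.9 * (c' - c) * (ww a c' t + ww a c t) := mul_lt_mul_of_pos_right hcon hS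
    have h10 : 0.9 * (c' - c) * (ww a c' t + ww a c t) ≤ (c' - c) * (c' + c + 2 * a * t) := by
      have h11 : 0.9 * (ww a c' t + ww a c t) ≤ c' + c + 2 * a * t := by
        have : a * t ≥ -a := by nlinarith
        norm_num
        linarith
      have h12 := mul_le_mul_of_nonneg_left h11 (sub_nonneg.2 hcc)
      nlinarith
    linarith
  have h13 := sub_nonneg.2 hcc
  norm_num at h6 h8
  linarith

theorem exists_root {p a : ℝ} {κ : ℝ → ℝ} (hp : 1 ≤ p) (hp2 : p ≤ 2) (ha : 0 < a)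
    (ha1 : a ≤ 1 / 100) (hκ : Cls p a κ) {t : ℝ} (ht : |t| ≤ 1) : ∃ c, IsRoot a κ t c := by
  have hκb : ∀ c, |κ (hh a c t) - 1| ≤ a := fun c =>
    hκ.abs_sub_one (by linarith) ha.le (abs_hh_le ht)
  have hww : Continuous (fun c => ww a c t) := by
    unfold ww
    fun_prop
  have hcont : ContinuousOn (fun c => ww a c t - κ (hh a c t)) (Set.Icc (1 / 2) 2) := by
    apply ContinuousOn.sub hww.continuousOn
    apply (hκ.continuousOn (by linarith)).comp
    · unfold hh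
      apply ContinuousOn.div (by fun_prop) hww.continuousOn
      intro c hc
      have := le_ww ha.le (by linarith [hc.1] : 0 ≤ c) ht
      have hc1 := hc.1
      linarith
    · intro c hc
      exact abs_le.1 (abs_hh_le ht)
  have h1 : ww a (1 / 2) t - κ (hh a (1 / 2) t) ≤ 0 := by
    have h2 := ww_le ha.le (by norm_num : (0 : ℝ) ≤ 1 / 2) ht
    have h3 := (abs_le.1 (hκb (1 / 2))).1
    linarith
  have h2 : 0 ≤ ww a 2 t - κ (hh a 2 t) := by
    have h2 := le_ww ha.le (by norm_num : (0 : ℝ) ≤ 2) ht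
    have h3 := (abs_le.1 (hκb 2)).2
    linarith
  obtain ⟨c, hc, hc2⟩ := intermediate_value_Icc (by norm_num : (1 / 2 : ℝ) ≤ 2) hcont ⟨h1, h2⟩
  refine ⟨c, by linarith [hc.1], ?_⟩
  simp only at hc2
  linarith

theorem root_le_iff {p a : ℝ} {κ : ℝ → ℝ} (hp : 1 ≤ p) (hp2 : p ≤ 2) (ha : 0 < a)
    (ha1 : a ≤ 1 / 100) (hκ : Cls p a κ) {t c c' : ℝ} (ht : |t| ≤ 1) (hc : IsRoot a κ t c)
    (hc' : 0 ≤ c') : ww a c' t ≤ κ (hh a c' t) ↔ c' ≤ c := by
  have hκb : ∀ c, |κ (hh a c t) - 1| ≤ a := fun c =>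
    hκ.abs_sub_one (by linarith) ha.le (abs_hh_le ht)
  have hb := abs_le.1 (root_bounds hp hp2 ha ha1 hκ ht hc).1
  rcases le_total c' (1 / 2) with h1 | h1
  · have h2 := ww_le ha.le hc' ht
    have h3 := (abs_le.1 (hκb c')).1
    constructor
    · intro _; linarith [hb.1]
    · intro _; linarith
  rcases le_total c' 2 with h2 | h2
  · have hr := hc.2
    rcases le_total c c' with h3 | h3
    · have h4 := root_mono hp hp2 ha ha1 hκ ht (by linarith [hb.1]) h3 h2
      constructor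
      · intro h5; linarith
      · intro h5
        have : c' = c := le_antisymm h5 h3
        rw [this]; exact hr.le
    · have h4 := root_mono hp hp2 ha ha1 hκ ht h1 h3 (by linarith [hb.2])
      constructor
      · intro _; exact h3
      · intro _; linarith
  · have h3 := le_ww ha.le hc' ht
    have h4 := (abs_le.1 (hκb c')).2
    constructor
    · intro _; linarith
    · intro _; linarith [hb.2]

theorem root_stab {p a ε : ℝ} {κ κ' : ℝ → ℝ} (hp : 1 ≤ p) (hp2 : p ≤ 2) (ha : 0 < a)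
    (ha1 : a ≤ 1 / 100) (hκ : Cls p a κ) (hκ' : Cls p a κ') {t c c' : ℝ} (ht : |t| ≤ 1)
    (hc : IsRoot a κ t c) (hc' : IsRoot a κ' t c') (hε : ∀ h : ℝ, |h| ≤ 1 → |κ h - κ' h| ≤ ε) :
    |c - c'| ≤ 2 * ε := by
  have hb := abs_le.1 (root_bounds hp hp2 ha ha1 hκ ht hc).1
  have hb' := abs_le.1 (root_bounds hp hp2 ha ha1 hκ' ht hc').1
  have hr := hc.2
  have hr' := hc'.2
  rcases le_total c c' with h | h
  · have h1 := root_mono hp hp2 ha ha1 hκ ht (by linarith [hb.1]) h (by linarith [hb'.2])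
    have h2 := abs_le.1 (hε (hh a c' t) (abs_hh_le ht))
    rw [abs_sub_comm, abs_of_nonneg (sub_nonneg.2 h)]
    linarith [h2.1, h2.2]
  · have h1 := root_mono hp hp2 ha ha1 hκ ht (by linarith [hb'.1]) h (by linarith [hb.2])
    have h2 := abs_le.1 (hε (hh a c' t) (abs_hh_le ht))
    rw [abs_of_nonneg (sub_nonneg.2 h)]
    linarith [h2.1, h2.2]

end StarTr
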