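import Pool.Agent.StarTr.Shift
import Pool.Agent.StarTr.RadEst1
import Pool.Agent.StarTr.RadEst2

set_option autoImplicit false

/-!
# StarTr, module SelfMap: the normalised map `κ ↦ R((R (c^i))^i)` preserves the class `Cls p a`

Choose `p < 2` close to `2` with `θ = i^2 m^(-p) < 1` (`i < m`; continuity of `p ↦ m^(-p)` at `p = 2`).  Let `q x = ((c x)^i + (c (-x))^i)/2`
(even), `g = Rad (c^i) = Rad q` (`rad_even`), `k = Rad (g^i)`.
* `|c - 1| ≤ 2a` (`root_bounds`), so `|c^i - 1| ≤ C a`, `|g - 1| ≤ C a`, `|g^i - 1| ≤ C a`, `|k - 1| ≤ C a` (`rpow_lip`,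
  `one_add_rpow`, `rad_close`), for `a ≤ a₀` so small that everything stays in `[1/2, 2]`.
* `q` has modulus `(i a + C a^2) | |x|^p - |y|^p | + C a^p | |x| - |y| |` (`shift_est`; `q x = q |x|`).
* `rad_est1`: `g` has modulus `(i a + C a^2) m^(-p/2) |(1-t^2)^(p/2) - ..| + C a^p |√(1-t^2) - ..|`.
* `g^i`: multiply by `i (1 + C a)` (`rpow_lip` with `η = C a`, `one_add_rpow`).
* `rad_est2`: `k` has modulus `(i^2 m^(-p) a + C a^2 + C a^p) | |t|^p - |t'|^p | ≤ (θ a + C a^p) ..` (`a^2 ≤ a^p`).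
* `θ a + C a^p ≤ a (1 - C a)` for `a ≤ a₀` as `θ < 1`, `p > 1`; so after division by any number which is at least
  `1 - C a` the modulus is at most `a`.
-/

open MeasureTheory Set

namespace StarTr

namespace SelfMapAux

/-- the exponent `p` -/
theorem exists_p {m : ℕ} (hm : 2 ≤ m) {i : ℝ} (hi : 1 ≤ i) (him : i < m) :
    ∃ p : ℝ, 1 < p ∧ p < 2 ∧
      i * i * ((m : ℝ) ^ (-(p / 2)) * (m : ℝ) ^ (-(p / 2))) < 1 := by
  have hm0 : (0 : ℝ) < m := by
    have : (2 : ℝ) ≤ m := by exact_mod_cast hm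
    linarith
  have hcont : Continuous fun p : ℝ => i * i * ((m : ℝ) ^ (-(p / 2)) * (m : ℝ) ^ (-(p / 2))) := by
    have h1 : Continuous fun p : ℝ => (m : ℝ) ^ (-(p / 2)) :=
      (Real.continuous_const_rpow hm0.ne').comp (by fun_prop)
    fun_prop
  have h2 : i * i * ((m : ℝ) ^ (-((2 : ℝ) / 2)) * (m : ℝ) ^ (-((2 : ℝ) / 2))) < 1 := by
    have e : (m : ℝ) ^ (-((2 : ℝ) / 2)) = (m : ℝ)⁻¹ := by
      rw [show -((2 : ℝ) / 2) = -1 by norm_num, Real.rpow_neg_one]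
    rw [e]
    have e2 : i * i * ((m : ℝ)⁻¹ * (m : ℝ)⁻¹) = (i / m) * (i / m) := by
      field_simp
    rw [e2]
    have h3 : i / m < 1 := (div_lt_one hm0).2 him
    have h4 : 0 < i / m := by positivity
    nlinarith
  have hev := (hcont.tendsto 2).eventually (gt_mem_nhds h2)
  obtain ⟨ε, hε, hεp⟩ := Metric.eventually_nhds_iff.1 hev
  refine ⟨max (3 / 2) (2 - ε / 2), ?_, ?_, ?_⟩
  · exact lt_of_lt_of_le (by norm_num) (le_max_left _ _)
  · exact max_lt (by norm_num) (by linarith)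
  · apply hεp
    rw [Real.dist_eq, abs_lt]
    constructor
    · have := le_max_right (3 / 2) (2 - ε / 2)
      linarith
    · have : max (3 / 2) (2 - ε / 2) < 2 := max_lt (by norm_num) (by linarith)
      linarith

/-- the threshold -/
theorem exists_a (i μ C1 C5 C6 K p : ℝ) (hp : 1 < p) (hθ : i * i * (μ * μ) < 1) :
    ∃ δ : ℝ, 0 < δ ∧ ∀ a : ℝ, 0 < a → a < δ →
      i * (1 + C5 * a) * (i * a + C1 * a ^ 2) * (μ * μ) +
        i * (1 + C5 * a) * (C1 * a ^ p) * K ≤ a * (1 - C6 * a) := by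
  have hcont : ContinuousAt (fun a : ℝ => i * (1 + C5 * a) * (i + C1 * a) * (μ * μ) +
      i * (1 + C5 * a) * (C1 * a ^ (p - 1)) * K + C6 * a) 0 := by
    have h1 : ContinuousAt (fun a : ℝ => a ^ (p - 1)) 0 :=
      Real.continuousAt_rpow_const 0 (p - 1) (Or.inr (by linarith))
    fun_prop
  have h0 : i * (1 + C5 * 0) * (i + C1 * 0) * (μ * μ) +
      i * (1 + C5 * 0) * (C1 * (0 : ℝ) ^ (p - 1)) * K + C6 * 0 < 1 := by
    rw [Real.zero_rpow (by linarith)]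
    simpa using hθ
  have hev := hcont.tendsto.eventually (gt_mem_nhds h0)
  obtain ⟨δ, hδ, hδa⟩ := Metric.eventually_nhds_iff.1 hev
  refine ⟨δ, hδ, fun a ha haδ => ?_⟩
  have h2 := hδa (y := a) (by rw [Real.dist_eq, sub_zero, abs_of_pos ha]; exact haδ)
  have e : a ^ p = a * a ^ (p - 1) := by
    rw [← Real.rpow_one_add' ha.le (by linarith)]
    congr 1
    ring
  rw [e]
  have h3 := mul_le_mul_of_nonneg_left h2.le ha.le
  have e2 : i * (1 + C5 * a) * (i * a + C1 * a ^ 2) * (μ * μ) +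
        i * (1 + C5 * a) * (C1 * (a * a ^ (p - 1))) * K =
      a * (i * (1 + C5 * a) * (i + C1 * a) * (μ * μ) +
      i * (1 + C5 * a) * (C1 * a ^ (p - 1)) * K + C6 * a) - C6 * a ^ 2 := by ring
  rw [e2]
  nlinarith

end SelfMapAux

open SelfMapAux in
theorem self_map {m : ℕ} (hm : 2 ≤ m) {ν : Measure ℝ} (hν : SLaw m ν) {i : ℝ} (hi : 1 ≤ i)
    (him : i < m) : ∃ p : ℝ, 1 < p ∧ p < 2 ∧ ∃ a₀ : ℝ, 0 < a₀ ∧ a₀ ≤ 1 / 100 ∧
    ∀ (a : ℝ) (κ : ℝ → ℝ), 0 < a → a ≤ a₀ → Cls p a κ →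
    ∀ c : ℝ → ℝ, ContinuousOn c (Icc (-1) 1) → (∀ t, |t| ≤ 1 → IsRoot a κ t (c t)) →
    ∃ B : ℝ, 0 ≤ B ∧ B ≤ 1 / 2 ∧
      (∀ t, |t| ≤ 1 → |Rad ν (fun t => (Rad ν (fun s => (c s) ^ i) t) ^ i) t - 1| ≤ B) ∧
      ∀ t t', |t| ≤ 1 → |t'| ≤ 1 → |Rad ν (fun t => (Rad ν (fun s => (c s) ^ i) t) ^ i) t -
        Rad ν (fun t => (Rad ν (fun s => (c s) ^ i) t) ^ i) t'| ≤
        a * (1 - B) * |(|t| ^ p - |t'| ^ p)| := by
  obtain ⟨p, hp1, hp2, hθ⟩ := exists_p hm hi him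
  refine ⟨p, hp1, hp2, ?_⟩
  set μ : ℝ := (m : ℝ) ^ (-(p / 2)) with hμ
  have hμ0 : 0 ≤ μ := Real.rpow_nonneg (Nat.cast_nonneg m) _
  obtain ⟨C1, hC1, hshift⟩ := shift_est (i := i) hi hp1 hp2
  obtain ⟨C3, hC3, hone⟩ := one_add_rpow (i - 1)
  obtain ⟨K, hK, hest2⟩ := rad_est2 hν hp1 hp2
  set C4 : ℝ := 2 * i * (1 + C3) with hC4
  have hi0 : 0 < i := by linarith
  have hC40 : 0 ≤ C4 := by positivity
  set C5 : ℝ := C3 * C4 with hC5
  have hC50 : 0 ≤ C5 := by positivity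
  set C6 : ℝ := i * (1 + C5) * C4 with hC6
  have hC60 : 0 ≤ C6 := by positivity
  obtain ⟨δ, hδ, hthr⟩ := exists_a i μ C1 C5 C6 K p hp1 hθ
  have hD : 0 < 1 / (2 * (C4 + C6 + 1)) := by positivity
  refine ⟨min (1 / 100) (min (δ / 2) (1 / (2 * (C4 + C6 + 1)))), ?_, min_le_left _ _, ?_⟩
  · exact lt_min (by norm_num) (lt_min (by linarith) hD)
  intro a κ ha ha0 hκ c hc hroot
  have ha1 : a ≤ 1 / 100 := ha0.trans (min_le_left _ _)
  have haδ : a < δ := by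
    have := ha0.trans ((min_le_right _ _).trans (min_le_left _ _))
    linarith
  have haD : a ≤ 1 / (2 * (C4 + C6 + 1)) :=
    ha0.trans ((min_le_right _ _).trans (min_le_right _ _))
  have haD' : (C4 + C6 + 1) * a ≤ 1 / 2 := by
    rw [le_div_iff₀ (by positivity)] at haD
    linarith
  have hC4a : C4 * a ≤ 1 / 2 := by nlinarith
  have hC6a : C6 * a ≤ 1 / 2 := by nlinarith
  have hcpos : ∀ t : ℝ, |t| ≤ 1 → 0 < c t := fun t ht => (hroot t ht).1
  have hcb : ∀ t : ℝ, |t| ≤ 1 → |c t - 1| ≤ 2 * a := fun t ht =>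
    (root_bounds hp1.le hp2.le ha ha1 hκ ht (hroot t ht)).1
  -- the power of c
  have hfc : ContinuousOn (fun s => (c s) ^ i) (Icc (-1) 1) :=
    hc.rpow_const fun x _ => Or.inr hi0.le
  have hfb : ∀ t : ℝ, |t| ≤ 1 → |(c t) ^ i - 1| ≤ C4 * a := by
    intro t ht
    have h1 := hcb t ht
    have h2 := abs_le.1 h1
    have h3 := rpow_lip (i := i) (η := 2 * a) (x := c t) (y := 1) hi (by linarith)
      (hcpos t ht) (by linarith) one_pos (by linarith)
    rw [Real.one_rpow] at h3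
    have h4 := hone (2 * a) (by linarith) (by linarith)
    have h5 : (1 + 2 * a) ^ (i - 1) ≤ 1 + C3 := by
      have : C3 * (2 * a) ≤ C3 * 1 := mul_le_mul_of_nonneg_left (by linarith) hC3
      linarith
    calc |(c t) ^ i - 1| ≤ i * (1 + 2 * a) ^ (i - 1) * |c t - 1| := h3
      _ ≤ i * (1 + C3) * (2 * a) := by
          apply mul_le_mul _ h1 (abs_nonneg _) (by positivity)
          exact mul_le_mul_of_nonneg_left h5 hi0.le
      _ = C4 * a := by rw [hC4]; ring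
  -- the even part
  set q : ℝ → ℝ := fun x => ((c x) ^ i + (c (-x)) ^ i) / 2 with hq
  have hnegc : ContinuousOn (fun s => (c (-s)) ^ i) (Icc (-1) 1) := by
    refine hfc.comp continuous_neg.continuousOn ?_
    intro x hx
    exact ⟨by linarith [hx.2], by linarith [hx.1]⟩
  have hqc : ContinuousOn q (Icc (-1) 1) := (hfc.add hnegc).div_const 2
  have hqabs : ∀ x : ℝ, q x = q |x| := by
    intro x
    rcases abs_choice x with h | h
    · rw [h]
    · rw [h]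
      simp only [hq, neg_neg]
      ring
  set g : ℝ → ℝ := fun t => Rad ν (fun s => (c s) ^ i) t with hg
  have hgq : ∀ t : ℝ, |t| ≤ 1 → g t = Rad ν q t := fun t ht => rad_even hν hfc ht
  have hgc : ContinuousOn g (Icc (-1) 1) := rad_contOn hν hfc
  have hgb : ∀ t : ℝ, |t| ≤ 1 → |g t - 1| ≤ C4 * a := fun t ht => rad_close hν hfc hfb ht
  have hap : 0 ≤ a ^ p := Real.rpow_nonneg ha.le p
  have hg1 : ∀ t t' : ℝ, |t| ≤ 1 → |t'| ≤ 1 → |g t - g t'| ≤
      (i * a + C1 * a ^ 2) * μ * |(1 - t ^ 2) ^ (p / 2) - (1 - t' ^ 2) ^ (p / 2)| +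
        (C1 * a ^ p) * |√(1 - t ^ 2) - √(1 - t' ^ 2)| := by
    intro t t' ht ht'
    rw [hgq t ht, hgq t' ht']
    refine rad_est1 hν hp1.le hp2.le hqc (by positivity) (by positivity) ?_ ht ht'
    intro x y hx hy
    rw [hqabs x, hqabs y]
    exact hshift a κ ha ha1 hκ c hroot |x| |y| (abs_nonneg _) hx (abs_nonneg _) hy
  -- powers of g
  have hgpos : ∀ t : ℝ, |t| ≤ 1 → 0 < g t := by
    intro t ht
    have := abs_le.1 (hgb t ht)
    linarith
  have hgle : ∀ t : ℝ, |t| ≤ 1 → g t ≤ 1 + C4 * a := by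
    intro t ht
    have := abs_le.1 (hgb t ht)
    linarith
  have hC4a0 : 0 ≤ C4 * a := by positivity
  have hpow : (1 + C4 * a) ^ (i - 1) ≤ 1 + C5 * a := by
    have := hone (C4 * a) hC4a0 (by linarith)
    calc (1 + C4 * a) ^ (i - 1) ≤ 1 + C3 * (C4 * a) := this
      _ = 1 + C5 * a := by rw [hC5]; ring
  have hC5a : 1 + C5 * a ≤ 1 + C5 := by nlinarith
  set f2 : ℝ → ℝ := fun t => (g t) ^ i with hf2
  have hf2c : ContinuousOn f2 (Icc (-1) 1) := hgc.rpow_const fun x _ => Or.inr hi0.le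
  have hf2b : ∀ t : ℝ, |t| ≤ 1 → |f2 t - 1| ≤ C6 * a := by
    intro t ht
    have h3 := rpow_lip (i := i) (η := C4 * a) (x := g t) (y := 1) hi hC4a0
      (hgpos t ht) (hgle t ht) one_pos (by linarith)
    rw [Real.one_rpow] at h3
    calc |f2 t - 1| ≤ i * (1 + C4 * a) ^ (i - 1) * |g t - 1| := h3
      _ ≤ i * (1 + C5) * (C4 * a) := by
          apply mul_le_mul _ (hgb t ht) (abs_nonneg _) (by positivity)
          exact mul_le_mul_of_nonneg_left (hpow.trans hC5a) hi0.le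
      _ = C6 * a := by rw [hC6]; ring
  have hf21 : ∀ t t' : ℝ, |t| ≤ 1 → |t'| ≤ 1 → |f2 t - f2 t'| ≤
      (i * (1 + C5 * a) * (i * a + C1 * a ^ 2) * μ) *
        |(1 - t ^ 2) ^ (p / 2) - (1 - t' ^ 2) ^ (p / 2)| +
        (i * (1 + C5 * a) * (C1 * a ^ p)) * |√(1 - t ^ 2) - √(1 - t' ^ 2)| := by
    intro t t' ht ht'
    have h3 := rpow_lip (i := i) (η := C4 * a) (x := g t) (y := g t') hi hC4a0
      (hgpos t ht) (hgle t ht) (hgpos t' ht') (hgle t' ht')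
    calc |f2 t - f2 t'| ≤ i * (1 + C4 * a) ^ (i - 1) * |g t - g t'| := h3
      _ ≤ i * (1 + C5 * a) * ((i * a + C1 * a ^ 2) * μ *
            |(1 - t ^ 2) ^ (p / 2) - (1 - t' ^ 2) ^ (p / 2)| +
            (C1 * a ^ p) * |√(1 - t ^ 2) - √(1 - t' ^ 2)|) := by
          apply mul_le_mul _ (hg1 t t' ht ht') (abs_nonneg _) (by positivity)
          exact mul_le_mul_of_nonneg_left hpow hi0.le
      _ = _ := by ring
  -- the last transform
  have hkb : ∀ t : ℝ, |t| ≤ 1 → |Rad ν f2 t - 1| ≤ C6 * a := fun t ht =>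
    rad_close hν hf2c hf2b ht
  have hk1 : ∀ t t' : ℝ, |t| ≤ 1 → |t'| ≤ 1 → |Rad ν f2 t - Rad ν f2 t'| ≤
      (i * (1 + C5 * a) * (i * a + C1 * a ^ 2) * μ * μ +
        i * (1 + C5 * a) * (C1 * a ^ p) * K) * |(|t| ^ p - |t'| ^ p)| := by
    intro t t' ht ht'
    exact hest2 f2 hf2c _ _ (by positivity) (by positivity)
      (fun x y hx hy => hf21 x y hx hy) t t' ht ht'
  have hfin := hthr a ha haδ
  refine ⟨C6 * a, by positivity, hC6a, hkb, ?_⟩
  intro h h' hh hh'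
  calc |Rad ν f2 h - Rad ν f2 h'| ≤ _ := hk1 h h' hh hh'
    _ ≤ (a * (1 - C6 * a)) * |(|h| ^ p - |h'| ^ p)| := by
        apply mul_le_mul_of_nonneg_right _ (abs_nonneg _)
        calc _ = i * (1 + C5 * a) * (i * a + C1 * a ^ 2) * (μ * μ) +
              i * (1 + C5 * a) * (C1 * a ^ p) * K := by ring
          _ ≤ a * (1 - C6 * a) := hfin

end StarTr
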