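import Pool.Agent.StarTr.Pow
import Pool.Agent.StarTr.Pow2

set_option autoImplicit false

/-!
# StarTr, module ShiftA: estimates for `ψ w t = (GG a w t)^i`

`GG a w t = -a t + √(w^2 - a^2 (1 - t^2))`, `0 < a ≤ 1/100`, `|w - 1| ≤ 1/100`, `|t| ≤ 1`; `r = √(w^2 - a^2(1-t^2)) ∈ [0.98, 1.01]`.

* `psi_first`: `|r - r'| = |w^2 - w'^2| / (r + r') ≤ (1 + C a) |w - w'|` (`r ≥ w (1 - 2 a^2)`), and `rpow_lip` with `η = 3 a`
  if `|w - 1| ≤ a`, `|w' - 1| ≤ a`; `one_add_rpow`.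
* `psi_mixed`: `four_pt` with `x = GG a w t`, `y = GG a 1 t`, `x' = GG a w t'`, `y' = GG a 1 t'`: `x - y = (w^2 - 1)/(r_w + r_1)`, so
  `|(x-y) - (x'-y')| ≤ C a^2 |w - 1| |t - t'|`, `|x' - y'| ≤ C |w - 1|`, `|x - x'|, |y - y'| ≤ 2 a |t - t'|`.
* `psi_even`: `even_est` with `ρ = √(1 - a^2 + a^2 t^2)`, `x = a t`: `|ρ - ρ'| ≤ a^2 |t^2 - t'^2|`.
-/

namespace StarTr

noncomputable def GG (a w t : ℝ) : ℝ := -(a * t) + √(w ^ 2 - a ^ 2 * (1 - t ^ 2))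

namespace ShiftAAux

/-- the square root in `GG` -/
noncomputable def RR (a w t : ℝ) : ℝ := √(w ^ 2 - a ^ 2 * (1 - t ^ 2))

theorem GG_eq (a w t : ℝ) : GG a w t = -(a * t) + RR a w t := rfl

theorem sq_le_one' {t : ℝ} (ht : |t| ≤ 1) : t ^ 2 ≤ 1 := by
  rw [abs_le] at ht
  nlinarith [ht.1, ht.2]

theorem arg_bounds {a w t : ℝ} (ha : 0 < a) (ha1 : a ≤ 1 / 100) (hw : |w - 1| ≤ a)
    (ht : |t| ≤ 1) : (1 - 2 * a) ^ 2 ≤ w ^ 2 - a ^ 2 * (1 - t ^ 2) ∧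
      w ^ 2 - a ^ 2 * (1 - t ^ 2) ≤ w ^ 2 := by
  have h1 := sq_le_one' ht
  have h2 : 0 ≤ t ^ 2 := sq_nonneg t
  have h3 : 0 ≤ a ^ 2 * (1 - t ^ 2) := mul_nonneg (sq_nonneg a) (by linarith)
  have h4 : a ^ 2 * (1 - t ^ 2) ≤ a ^ 2 := by nlinarith [sq_nonneg a]
  rw [abs_le] at hw
  constructor
  · have h5 : (1 - a) ^ 2 ≤ w ^ 2 := by
      apply pow_le_pow_left₀ (by linarith)
      linarith [hw.1]
    nlinarith
  · linarith

theorem RR_sq {a w t : ℝ} (ha : 0 < a) (ha1 : a ≤ 1 / 100) (hw : |w - 1| ≤ a)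
    (ht : |t| ≤ 1) : RR a w t ^ 2 = w ^ 2 - a ^ 2 * (1 - t ^ 2) :=
  Real.sq_sqrt (le_trans (sq_nonneg _) (arg_bounds ha ha1 hw ht).1)

theorem le_RR {a w t : ℝ} (ha : 0 < a) (ha1 : a ≤ 1 / 100) (hw : |w - 1| ≤ a)
    (ht : |t| ≤ 1) : 1 - 2 * a ≤ RR a w t :=
  Real.le_sqrt_of_sq_le (arg_bounds ha ha1 hw ht).1

theorem RR_le {a w t : ℝ} (ha : 0 < a) (ha1 : a ≤ 1 / 100) (hw : |w - 1| ≤ a)
    (ht : |t| ≤ 1) : RR a w t ≤ w := by
  rw [abs_le] at hw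
  have h0 : 0 ≤ w := by linarith [hw.1]
  unfold RR
  rw [Real.sqrt_le_left h0]
  exact (arg_bounds ha ha1 (abs_le.2 hw) ht).2

/-- `RR` is close to `w` -/
theorem sub_RR_le {a w t : ℝ} (ha : 0 < a) (ha1 : a ≤ 1 / 100) (hw : |w - 1| ≤ a)
    (ht : |t| ≤ 1) : w - RR a w t ≤ a ^ 2 := by
  have h1 := RR_sq ha ha1 hw ht
  have h2 := le_RR ha ha1 hw ht
  have h3 := RR_le ha ha1 hw ht
  have h4 : a ^ 2 * (1 - t ^ 2) ≤ a ^ 2 := by nlinarith [sq_nonneg a, sq_nonneg t]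
  have h5 : (w - RR a w t) * (w + RR a w t) ≤ a ^ 2 := by nlinarith
  have h6 : 1 ≤ w + RR a w t := by linarith
  nlinarith [mul_nonneg (sub_nonneg.2 h3) (sub_nonneg.2 h6)]

theorem RR_lip_w {a w w' t : ℝ} (ha : 0 < a) (ha1 : a ≤ 1 / 100) (hw : |w - 1| ≤ a)
    (hw' : |w' - 1| ≤ a) (ht : |t| ≤ 1) :
    |RR a w t - RR a w' t| ≤ (1 + a) * |w - w'| := by
  have h1 := RR_sq ha ha1 hw ht
  have h1' := RR_sq ha ha1 hw' ht
  have h2 := le_RR ha ha1 hw ht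
  have h2' := le_RR ha ha1 hw' ht
  have h3 := sub_RR_le ha ha1 hw ht
  have h3' := sub_RR_le ha ha1 hw' ht
  generalize RR a w t = R at *
  generalize RR a w' t = R' at *
  rw [abs_le] at hw hw'
  have h4 : (R - R') * (R + R') = (w - w') * (w + w') := by nlinarith
  have h5 : 1 ≤ R + R' := by linarith
  have h6 : |R - R'| * (R + R') = |w - w'| * (w + w') := by
    rw [← abs_of_pos (lt_of_lt_of_le one_pos h5), ← abs_mul, h4, abs_mul,
      abs_of_pos (show 0 < w + w' by linarith [hw.1, hw'.1])]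
  have h7 : w + w' ≤ (1 + a) * (R + R') := by nlinarith
  have h8 : |R - R'| * (R + R') ≤ ((1 + a) * |w - w'|) * (R + R') := by
    rw [h6]
    nlinarith [abs_nonneg (w - w')]
  exact le_of_mul_le_mul_right h8 (by linarith)

theorem RR_lip_t {a w t t' : ℝ} (ha : 0 < a) (ha1 : a ≤ 1 / 100) (hw : |w - 1| ≤ a)
    (ht : |t| ≤ 1) (ht' : |t'| ≤ 1) :
    |RR a w t - RR a w t'| ≤ a ^ 2 * |t ^ 2 - t' ^ 2| := by
  have h1 := RR_sq ha ha1 hw ht
  have h1' := RR_sq ha ha1 hw ht'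
  have h2 := le_RR ha ha1 hw ht
  have h2' := le_RR ha ha1 hw ht'
  generalize RR a w t = R at *
  generalize RR a w t' = R' at *
  have h4 : (R - R') * (R + R') = a ^ 2 * (t ^ 2 - t' ^ 2) := by nlinarith
  have h5 : 1 ≤ R + R' := by linarith
  have h6 : |R - R'| * (R + R') = a ^ 2 * |t ^ 2 - t' ^ 2| := by
    rw [← abs_of_pos (lt_of_lt_of_le one_pos h5), ← abs_mul, h4, abs_mul,
      abs_of_nonneg (sq_nonneg a)]
  rw [← h6]
  exact le_mul_of_one_le_right (abs_nonneg _) h5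

theorem sq_sub_le' {t t' : ℝ} (ht : |t| ≤ 1) (ht' : |t'| ≤ 1) :
    |t ^ 2 - t' ^ 2| ≤ 2 * |t - t'| := by
  have h1 : t ^ 2 - t' ^ 2 = (t + t') * (t - t') := by ring
  rw [h1, abs_mul]
  have h2 : |t + t'| ≤ 2 := (abs_add_le t t').trans (by linarith)
  nlinarith [abs_nonneg (t - t')]

theorem bounds {a w t : ℝ} (ha : 0 < a) (ha1 : a ≤ 1 / 100) (hw : |w - 1| ≤ a) (ht : |t| ≤ 1) :
    |GG a w t - 1| ≤ 3 * a := by
  have h1 := le_RR ha ha1 hw ht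
  have h2 := RR_le ha ha1 hw ht
  have h3 : |a * t| ≤ a := by
    rw [abs_mul, abs_of_pos ha]
    exact mul_le_of_le_one_right ha.le ht
  rw [GG_eq]
  rw [abs_le] at hw h3 ⊢
  constructor <;> linarith [hw.1, hw.2, h3.1, h3.2]

theorem GG_lip_t {a w t t' : ℝ} (ha : 0 < a) (ha1 : a ≤ 1 / 100) (hw : |w - 1| ≤ a)
    (ht : |t| ≤ 1) (ht' : |t'| ≤ 1) : |GG a w t - GG a w t'| ≤ 2 * a * |t - t'| := by
  have h1 := RR_lip_t ha ha1 hw ht ht'
  have h2 := sq_sub_le' ht ht'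
  rw [GG_eq, GG_eq]
  have h3 : -(a * t) + RR a w t - (-(a * t') + RR a w t') =
      -(a * (t - t')) + (RR a w t - RR a w t') := by ring
  rw [h3]
  have h4 : |-(a * (t - t'))| = a * |t - t'| := by rw [abs_neg, abs_mul, abs_of_pos ha]
  have h5 := abs_add_le (-(a * (t - t'))) (RR a w t - RR a w t')
  rw [h4] at h5
  have h6 : a ^ 2 * |t ^ 2 - t' ^ 2| ≤ a ^ 2 * (2 * |t - t'|) :=
    mul_le_mul_of_nonneg_left h2 (sq_nonneg a)
  have h7 : a ^ 2 * (2 * |t - t'|) ≤ a * |t - t'| := by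
    have h8 : 0 ≤ a * |t - t'| := mul_nonneg ha.le (abs_nonneg _)
    have h9 : a ^ 2 * (2 * |t - t'|) = (2 * a) * (a * |t - t'|) := by ring
    rw [h9]
    exact mul_le_of_le_one_left h8 (by linarith)
  linarith

/-- the difference in `w` -/
theorem diff_w {a w t : ℝ} (ha : 0 < a) (ha1 : a ≤ 1 / 100) (hw : |w - 1| ≤ a)
    (ht : |t| ≤ 1) : |GG a w t - GG a 1 t| ≤ 2 * |w - 1| := by
  have h1 : |(1 : ℝ) - 1| ≤ a := by rw [sub_self, abs_zero]; exact ha.le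
  have h2 := RR_lip_w ha ha1 hw h1 ht
  have h3 : GG a w t - GG a 1 t = RR a w t - RR a 1 t := by
    rw [GG_eq, GG_eq]
    ring
  rw [h3]
  nlinarith [abs_nonneg (w - 1)]

/-- the mixed difference -/
theorem mixed {a w t t' : ℝ} (ha : 0 < a) (ha1 : a ≤ 1 / 100) (hw : |w - 1| ≤ a)
    (ht : |t| ≤ 1) (ht' : |t'| ≤ 1) :
    |(GG a w t - GG a 1 t) - (GG a w t' - GG a 1 t')| ≤ 2 * a * |w - 1| * |t - t'| * 8 := by
  have h0 : |(1 : ℝ) - 1| ≤ a := by rw [sub_self, abs_zero]; exact ha.le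
  have a1 := RR_sq ha ha1 hw ht
  have a2 := RR_sq ha ha1 h0 ht
  have a3 := RR_sq ha ha1 hw ht'
  have a4 := RR_sq ha ha1 h0 ht'
  have b1 := le_RR ha ha1 hw ht
  have b2 := le_RR ha ha1 h0 ht
  have b3 := le_RR ha ha1 hw ht'
  have b4 := le_RR ha ha1 h0 ht'
  have c1 := RR_lip_t ha ha1 hw ht ht'
  have c2 := RR_lip_t ha ha1 h0 ht ht'
  have h2 := sq_sub_le' ht ht'
  have h3 : (GG a w t - GG a 1 t) - (GG a w t' - GG a 1 t') =
      (RR a w t - RR a 1 t) - (RR a w t' - RR a 1 t') := by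
    rw [GG_eq, GG_eq, GG_eq, GG_eq]
    ring
  rw [h3]
  generalize RR a w t = P at *
  generalize RR a 1 t = Q at *
  generalize RR a w t' = P' at *
  generalize RR a 1 t' = Q' at *
  have d1 : (P - Q) * (P + Q) = w ^ 2 - 1 := by nlinarith
  have d2 : (P' - Q') * (P' + Q') = w ^ 2 - 1 := by nlinarith
  have d3 : ((P - Q) - (P' - Q')) * (P + Q) = (P' - Q') * ((P' - P) + (Q' - Q)) := by
    linear_combination d1 - d2
  have e1 : 1 ≤ P + Q := by linarith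
  have e2 : 1 ≤ P' + Q' := by linarith
  have hw2 := abs_le.1 hw
  have e3 : |P' - Q'| ≤ 3 * |w - 1| := by
    have e4 : |P' - Q'| * (P' + Q') = |w - 1| * (w + 1) := by
      rw [← abs_of_pos (lt_of_lt_of_le one_pos e2), ← abs_mul, d2,
        show w ^ 2 - 1 = (w - 1) * (w + 1) by ring, abs_mul,
        abs_of_pos (show 0 < w + 1 by linarith [hw2.1])]
    have e5 : |P' - Q'| ≤ |P' - Q'| * (P' + Q') := le_mul_of_one_le_right (abs_nonneg _) e2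
    rw [e4] at e5
    nlinarith [abs_nonneg (w - 1), hw2.2]
  have e6 : |(P' - P) + (Q' - Q)| ≤ 4 * a ^ 2 * |t - t'| := by
    have e7 := abs_add_le (P' - P) (Q' - Q)
    rw [abs_sub_comm P' P, abs_sub_comm Q' Q] at e7
    have e8 : a ^ 2 * |t ^ 2 - t' ^ 2| ≤ a ^ 2 * (2 * |t - t'|) :=
      mul_le_mul_of_nonneg_left h2 (sq_nonneg a)
    linarith
  have e9 : |(P - Q) - (P' - Q')| ≤ |(P - Q) - (P' - Q')| * (P + Q) :=
    le_mul_of_one_le_right (abs_nonneg _) e1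
  have e10 : |(P - Q) - (P' - Q')| * (P + Q) = |P' - Q'| * |(P' - P) + (Q' - Q)| := by
    rw [← abs_of_pos (lt_of_lt_of_le one_pos e1), ← abs_mul, d3, abs_mul]
  rw [e10] at e9
  have e11 : |P' - Q'| * |(P' - P) + (Q' - Q)| ≤ (3 * |w - 1|) * (4 * a ^ 2 * |t - t'|) :=
    mul_le_mul e3 e6 (abs_nonneg _) (by positivity)
  have e12 : (3 * |w - 1|) * (4 * a ^ 2 * |t - t'|) = (12 * a) * (a * |w - 1| * |t - t'|) := by ring
  have e13 : (12 * a) * (a * |w - 1| * |t - t'|) ≤ 1 * (a * |w - 1| * |t - t'|) :=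
    mul_le_mul_of_nonneg_right (by linarith) (by positivity)
  have e14 : 0 ≤ a * |w - 1| * |t - t'| := by positivity
  linarith

end ShiftAAux

open ShiftAAux

theorem GG_bounds {a w t : ℝ} (ha : 0 < a) (ha1 : a ≤ 1 / 100) (hw : |w - 1| ≤ a) (ht : |t| ≤ 1) :
    |GG a w t - 1| ≤ 3 * a :=
  bounds ha ha1 hw ht

theorem psi_first {i : ℝ} (hi : 1 ≤ i) : ∃ C : ℝ, 0 ≤ C ∧ ∀ a w w' t : ℝ, 0 < a → a ≤ 1 / 100 →
    |w - 1| ≤ a → |w' - 1| ≤ a → |t| ≤ 1 →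
    |(GG a w t) ^ i - (GG a w' t) ^ i| ≤ (i + C * a) * |w - w'| := by
  obtain ⟨C0, hC0, hC⟩ := one_add_rpow (i - 1)
  refine ⟨i * (6 * C0 + 1), by positivity, ?_⟩
  intro a w w' t ha ha1 hw hw' ht
  have h1 := GG_bounds ha ha1 hw ht
  have h1' := GG_bounds ha ha1 hw' ht
  rw [abs_le] at h1 h1'
  have h2 := rpow_lip (i := i) (η := 3 * a) (x := GG a w t) (y := GG a w' t) hi (by linarith)
    (by linarith [h1.1]) (by linarith [h1.2]) (by linarith [h1'.1]) (by linarith [h1'.2])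
  have h3 : GG a w t - GG a w' t = RR a w t - RR a w' t := by
    rw [GG_eq, GG_eq]
    ring
  rw [h3] at h2
  have h4 := RR_lip_w ha ha1 hw hw' ht
  have h5 := hC (3 * a) (by linarith) (by linarith)
  have h6 : i * (1 + 3 * a) ^ (i - 1) * |RR a w t - RR a w' t| ≤
      i * (1 + C0 * (3 * a)) * ((1 + a) * |w - w'|) := by
    apply mul_le_mul _ h4 (abs_nonneg _) (by positivity)
    exact mul_le_mul_of_nonneg_left h5 (by linarith)
  refine h2.trans (h6.trans ?_)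
  have h7 : i * (1 + C0 * (3 * a)) * ((1 + a) * |w - w'|) =
      (i * ((1 + C0 * (3 * a)) * (1 + a))) * |w - w'| := by ring
  rw [h7]
  apply mul_le_mul_of_nonneg_right _ (abs_nonneg _)
  have h8 : (1 + C0 * (3 * a)) * (1 + a) ≤ 1 + (6 * C0 + 1) * a := by
    have h9 : C0 * a * a ≤ C0 * a * 1 := mul_le_mul_of_nonneg_left (by linarith) (by positivity)
    nlinarith
  have h10 : i * ((1 + C0 * (3 * a)) * (1 + a)) ≤ i * (1 + (6 * C0 + 1) * a) :=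
    mul_le_mul_of_nonneg_left h8 (by linarith)
  linarith

theorem psi_mixed (i : ℝ) : ∃ C : ℝ, 0 ≤ C ∧ ∀ a w t t' : ℝ, 0 < a → a ≤ 1 / 100 →
    |w - 1| ≤ a → |t| ≤ 1 → |t'| ≤ 1 →
    |((GG a w t) ^ i - (GG a 1 t) ^ i) - ((GG a w t') ^ i - (GG a 1 t') ^ i)| ≤
      C * a * |w - 1| * |t - t'| := by
  obtain ⟨C0, hC0, hC⟩ := four_pt i
  refine ⟨24 * C0, by positivity, ?_⟩
  intro a w t t' ha ha1 hw ht ht'
  have h0 : |(1 : ℝ) - 1| ≤ a := by rw [sub_self, abs_zero]; exact ha.le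
  have g1 := abs_le.1 (GG_bounds ha ha1 hw ht)
  have g2 := abs_le.1 (GG_bounds ha ha1 h0 ht)
  have g3 := abs_le.1 (GG_bounds ha ha1 hw ht')
  have g4 := abs_le.1 (GG_bounds ha ha1 h0 ht')
  have h1 := hC (GG a w t) (GG a 1 t) (GG a w t') (GG a 1 t') (by linarith [g1.1])
    (by linarith [g1.2]) (by linarith [g2.1]) (by linarith [g2.2]) (by linarith [g3.1])
    (by linarith [g3.2]) (by linarith [g4.1]) (by linarith [g4.2])
  refine h1.trans ?_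
  have h2 := mixed ha ha1 hw ht ht'
  have h3 := diff_w ha ha1 hw ht'
  have h4 := GG_lip_t ha ha1 hw ht ht'
  have h5 := GG_lip_t ha ha1 h0 ht ht'
  have h6 : |GG a w t' - GG a 1 t'| * (|GG a w t - GG a w t'| + |GG a 1 t - GG a 1 t'|) ≤
      (2 * |w - 1|) * (4 * a * |t - t'|) :=
    mul_le_mul h3 (by linarith) (by positivity) (by positivity)
  calc C0 * (|GG a w t - GG a 1 t - (GG a w t' - GG a 1 t')| +
        |GG a w t' - GG a 1 t'| * (|GG a w t - GG a w t'| + |GG a 1 t - GG a 1 t'|))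
      ≤ C0 * (2 * a * |w - 1| * |t - t'| * 8 + (2 * |w - 1|) * (4 * a * |t - t'|)) :=
        mul_le_mul_of_nonneg_left (add_le_add h2 h6) hC0
    _ = 24 * C0 * a * |w - 1| * |t - t'| := by ring

theorem psi_even (i : ℝ) : ∃ C : ℝ, 0 ≤ C ∧ ∀ a t t' : ℝ, 0 < a → a ≤ 1 / 100 →
    0 ≤ t → t ≤ 1 → 0 ≤ t' → t' ≤ 1 →
    |((GG a 1 t) ^ i + (GG a 1 (-t)) ^ i) / 2 - ((GG a 1 t') ^ i + (GG a 1 (-t')) ^ i) / 2| ≤
      C * a ^ 2 * |t ^ 2 - t' ^ 2| := by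
  obtain ⟨C0, hC0, hC⟩ := even_est i
  refine ⟨2 * C0, by positivity, ?_⟩
  intro a t t' ha ha1 ht0 ht ht0' ht'
  have h0 : |(1 : ℝ) - 1| ≤ a := by rw [sub_self, abs_zero]; exact ha.le
  have at1 : |t| ≤ 1 := by rw [abs_of_nonneg ht0]; exact ht
  have at1' : |t'| ≤ 1 := by rw [abs_of_nonneg ht0']; exact ht'
  have e1 : ∀ x : ℝ, RR a 1 (-x) = RR a 1 x := by
    intro x
    unfold RR
    rw [neg_sq]
  have e2 : ∀ x : ℝ, ((GG a 1 x) ^ i + (GG a 1 (-x)) ^ i) / 2 =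
      ((RR a 1 x + a * x) ^ i + (RR a 1 x - a * x) ^ i) / 2 := by
    intro x
    rw [GG_eq, GG_eq, e1, show -(a * x) + RR a 1 x = RR a 1 x - a * x by ring,
      show -(a * -x) + RR a 1 x = RR a 1 x + a * x by ring, add_comm]
  rw [e2, e2]
  have b1 := le_RR ha ha1 h0 at1
  have b2 := RR_le ha ha1 h0 at1
  have b3 := le_RR ha ha1 h0 at1'
  have b4 := RR_le ha ha1 h0 at1'
  have x1 : 0 ≤ a * t := mul_nonneg ha.le ht0
  have x2 : a * t ≤ 1 / 100 := by nlinarith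
  have x3 : 0 ≤ a * t' := mul_nonneg ha.le ht0'
  have x4 : a * t' ≤ 1 / 100 := by nlinarith
  have h1 := hC (RR a 1 t) (RR a 1 t') (a * t) (a * t') (by linarith) (by linarith) (by linarith)
    (by linarith) x1 (by linarith) x3 (by linarith)
  refine h1.trans ?_
  have h2 := RR_lip_t ha ha1 h0 at1 at1'
  have h3 : |(a * t) ^ 2 - (a * t') ^ 2| = a ^ 2 * |t ^ 2 - t' ^ 2| := by
    rw [show (a * t) ^ 2 - (a * t') ^ 2 = a ^ 2 * (t ^ 2 - t' ^ 2) by ring, abs_mul,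
      abs_of_nonneg (sq_nonneg a)]
  rw [h3]
  calc C0 * (|RR a 1 t - RR a 1 t'| + a ^ 2 * |t ^ 2 - t' ^ 2|)
      ≤ C0 * (a ^ 2 * |t ^ 2 - t' ^ 2| + a ^ 2 * |t ^ 2 - t' ^ 2|) :=
        mul_le_mul_of_nonneg_left (add_le_add h2 le_rfl) hC0
    _ = 2 * C0 * a ^ 2 * |t ^ 2 - t' ^ 2| := by ring

end StarTr
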