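import Pool.Agent.StarTr.Delta2
import Pool.Agent.StarTr.ShiftA

set_option autoImplicit false

/-!
# StarTr, module Shift: modulus of the even part of the `i`-th power of the radial function of the shifted body

`c t = -a t + √(w_t^2 - a^2 (1 - t^2))`, `w_t = ww a (c t) t = κ (hh a (c t) t)`.  Put (module ShiftA)
`GG a w t = -a t + √(w^2 - a^2 (1 - t^2))`, `ψ w t = (GG a w t)^i`, so `(c t)^i = ψ (w_t) t`.  Then
`(c t)^i = ψ 1 t + D t`, `D t = ψ (w_t) t - ψ 1 t`.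

* The even part of `ψ 1 t`: `psi_even` (module ShiftA) and `sq_sub_le` (`t ≤ 1`).
* For `0 ≤ t' ≤ t ≤ 1`, `σ = ±1`:
  `D (σ t) - D (σ t') = [ψ w (σ t) - ψ w' (σ t)] + [(ψ w' (σ t) - ψ 1 (σ t)) - (ψ w' (σ t') - ψ 1 (σ t'))]`.
  First bracket: `≤ (i + C a) |w - w'|` (`psi_first`), and
  `|w - w'| ≤ a | |h|^p - |h'|^p | ≤ a ((1 + C a)(t^p - t'^p) + C a^(p-1) (t - t'))` (`Cls`, `hh_rpow_diff`).
  Second bracket: `psi_mixed` (module ShiftA): it is `≤ C a |w' - 1| |t - t'|`, and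
  `|w' - 1| = |κ h' - 1| ≤ a`, hence the bracket is `≤ C a^2 (t - t') ≤ C a^p (t - t')`.
* average over `σ = ±1`.
-/

namespace StarTr

namespace ShiftAux

theorem root_eq {p a : ℝ} {κ : ℝ → ℝ} (hp : 1 < p) (hp2 : p < 2) (ha : 0 < a)
    (ha1 : a ≤ 1 / 100) (hκ : Cls p a κ) {t c : ℝ} (ht : |t| ≤ 1) (hc : IsRoot a κ t c) :
    c = GG a (ww a c t) t := by
  have h := (delta_eq hp.le hp2.le ha ha1 hκ ht hc).2
  rw [GG, ← h]
  ring

/-- the difference of the perturbation terms -/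
theorem D_diff {i p C1 C2 C3 : ℝ} (hi : 1 ≤ i) (hp : 1 < p) (hp2 : p < 2) (hC1 : 0 ≤ C1)
    (hC2 : 0 ≤ C2) (hC3 : 0 ≤ C3)
    (H1 : ∀ (a : ℝ) (κ : ℝ → ℝ), 0 < a →
      a ≤ 1 / 100 → Cls p a κ → ∀ t t' c c' : ℝ, 0 ≤ t' → t' ≤ t → t ≤ 1 → ∀ σ : ℝ,
      (σ = 1 ∨ σ = -1) → IsRoot a κ (σ * t) c → IsRoot a κ (σ * t') c' →
      |(|hh a c (σ * t)| ^ p - |hh a c' (σ * t')| ^ p)| ≤
        (1 + C1 * a) * (t ^ p - t' ^ p) + C1 * a ^ (p - 1) * (t - t'))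
    (H2 : ∀ a w w' t : ℝ, 0 < a → a ≤ 1 / 100 →
      |w - 1| ≤ a → |w' - 1| ≤ a → |t| ≤ 1 →
      |(GG a w t) ^ i - (GG a w' t) ^ i| ≤ (i + C2 * a) * |w - w'|)
    (H3 : ∀ a w t t' : ℝ, 0 < a → a ≤ 1 / 100 →
      |w - 1| ≤ a → |t| ≤ 1 → |t'| ≤ 1 →
      |((GG a w t) ^ i - (GG a 1 t) ^ i) - ((GG a w t') ^ i - (GG a 1 t') ^ i)| ≤
        C3 * a * |w - 1| * |t - t'|)
    {a : ℝ} {κ : ℝ → ℝ} (ha : 0 < a) (ha1 : a ≤ 1 / 100) (hκ : Cls p a κ)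
    {t t' c c' : ℝ} (ht' : 0 ≤ t') (htt : t' ≤ t) (ht1 : t ≤ 1) {σ : ℝ} (hσ : σ = 1 ∨ σ = -1)
    (hc : IsRoot a κ (σ * t) c) (hc' : IsRoot a κ (σ * t') c') :
    |(c ^ i - (GG a 1 (σ * t)) ^ i) - (c' ^ i - (GG a 1 (σ * t')) ^ i)| ≤
      (i * a + (C2 + i * C1 + C1 * C2 + 2 * C3) * a ^ 2) * (t ^ p - t' ^ p) +
        (i * C1 + C1 * C2 + 2 * C3) * a ^ p * (t - t') := by
  have ht : 0 ≤ t := ht'.trans htt
  have hσa : |σ| = 1 := by rcases hσ with rfl | rfl <;> simp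
  have hst : |σ * t| ≤ 1 := by
    rw [abs_mul, hσa, one_mul, abs_of_nonneg ht]
    exact ht1
  have hst' : |σ * t'| ≤ 1 := by
    rw [abs_mul, hσa, one_mul, abs_of_nonneg ht']
    linarith
  have e1 := root_eq hp hp2 ha ha1 hκ hst hc
  have e1' := root_eq hp hp2 ha ha1 hκ hst' hc'
  obtain ⟨w, hw⟩ : ∃ w, w = ww a c (σ * t) := ⟨_, rfl⟩
  obtain ⟨w', hw'⟩ : ∃ w', w' = ww a c' (σ * t') := ⟨_, rfl⟩
  have b := (root_bounds hp.le hp2.le ha ha1 hκ hst hc).2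
  have b' := (root_bounds hp.le hp2.le ha ha1 hκ hst' hc').2
  have k := hc.2
  have k' := hc'.2
  rw [← hw] at e1 b k
  rw [← hw'] at e1' b' k'
  have hD : |σ * t - σ * t'| = t - t' := by
    rw [← mul_sub, abs_mul, hσa, one_mul, abs_of_nonneg (by linarith)]
  have hX : 0 ≤ t ^ p - t' ^ p := by
    have := Real.rpow_le_rpow ht' htt (by linarith : (0 : ℝ) ≤ p)
    linarith
  have hY : 0 ≤ t - t' := by linarith
  obtain ⟨X, hXe⟩ : ∃ X, X = t ^ p - t' ^ p := ⟨_, rfl⟩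
  obtain ⟨Y, hYe⟩ : ∃ Y, Y = t - t' := ⟨_, rfl⟩
  -- first bracket
  have f1 := H2 a w w' (σ * t) ha ha1 b b' hst
  have g1 : |w - w'| ≤ a * ((1 + C1 * a) * X + C1 * a ^ (p - 1) * Y) := by
    rw [k, k', hXe, hYe]
    refine (hκ.2 _ _ (abs_hh_le hst) (abs_hh_le hst')).trans ?_
    exact mul_le_mul_of_nonneg_left (H1 a κ ha ha1 hκ t t' c c' ht' htt ht1 σ hσ hc hc') ha.le
  -- second bracket
  have f2 := H3 a w' (σ * t) (σ * t') ha ha1 b' hst hst'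
  rw [hD] at f2
  have hsplit : (c ^ i - (GG a 1 (σ * t)) ^ i) - (c' ^ i - (GG a 1 (σ * t')) ^ i) =
      ((GG a w (σ * t)) ^ i - (GG a w' (σ * t)) ^ i) +
      (((GG a w' (σ * t)) ^ i - (GG a 1 (σ * t)) ^ i) -
        ((GG a w' (σ * t')) ^ i - (GG a 1 (σ * t')) ^ i)) := by
    rw [← e1, ← e1']
    ring
  rw [hsplit]
  refine (abs_add_le _ _).trans ?_
  rw [← hXe, ← hYe]
  rw [← hYe] at f2
  rw [← hXe] at hX
  rw [← hYe] at hY
  have hapos : 0 < a ^ p := Real.rpow_pos_of_pos ha p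
  have hap : a * a ^ (p - 1) = a ^ p := by
    rw [← Real.rpow_one_add' ha.le (by linarith)]
    congr 1
    ring
  have ha2 : a ^ 2 ≤ a ^ p := by
    have h1 := Real.rpow_le_rpow_of_exponent_ge ha (by linarith : a ≤ 1)
      (by norm_num; linarith : p ≤ ((2 : ℕ) : ℝ))
    rwa [Real.rpow_natCast] at h1
  have k1 : (i + C2 * a) * |w - w'| ≤
      (i * a + (C2 + i * C1 + C1 * C2) * a ^ 2) * X + (i * C1 + C1 * C2) * a ^ p * Y := by
    have h1 : (i + C2 * a) * |w - w'| ≤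
        (i + C2 * a) * (a * ((1 + C1 * a) * X + C1 * a ^ (p - 1) * Y)) :=
      mul_le_mul_of_nonneg_left g1 (by positivity)
    have h2 : (i + C2 * a) * (a * ((1 + C1 * a) * X + C1 * a ^ (p - 1) * Y)) =
        (i * a + (C2 + i * C1) * a ^ 2 + C1 * C2 * (a ^ 2 * a)) * X +
          (i * C1 + C1 * C2 * a) * (a * a ^ (p - 1)) * Y := by ring
    rw [h2, hap] at h1
    have h3 : C1 * C2 * (a ^ 2 * a) ≤ C1 * C2 * (a ^ 2 * 1) := by
      apply mul_le_mul_of_nonneg_left _ (by positivity)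
      exact mul_le_mul_of_nonneg_left (by linarith) (by positivity)
    have h4 : C1 * C2 * a ≤ C1 * C2 * 1 :=
      mul_le_mul_of_nonneg_left (by linarith) (by positivity)
    have h5 : (i * a + (C2 + i * C1) * a ^ 2 + C1 * C2 * (a ^ 2 * a)) * X ≤
        (i * a + (C2 + i * C1 + C1 * C2) * a ^ 2) * X := by
      apply mul_le_mul_of_nonneg_right _ hX
      linarith
    have h6 : (i * C1 + C1 * C2 * a) * a ^ p * Y ≤ (i * C1 + C1 * C2) * a ^ p * Y := by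
      apply mul_le_mul_of_nonneg_right _ hY
      apply mul_le_mul_of_nonneg_right _ hapos.le
      linarith
    linarith
  have k2 : C3 * a * |w' - 1| * Y ≤ 2 * C3 * a ^ 2 * X + 2 * C3 * a ^ p * Y := by
    have h1 : C3 * a * |w' - 1| * Y ≤ C3 * a * a * Y := by
      apply mul_le_mul_of_nonneg_right _ hY
      exact mul_le_mul_of_nonneg_left b' (by positivity)
    have h2 : C3 * a * a * Y = C3 * a ^ 2 * Y := by ring
    have h3 : C3 * a ^ 2 * Y ≤ C3 * a ^ p * Y := by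
      apply mul_le_mul_of_nonneg_right _ hY
      exact mul_le_mul_of_nonneg_left ha2 hC3
    have h4 : 0 ≤ C3 * a ^ p * Y := by positivity
    have h5 : 0 ≤ C3 * a ^ 2 * X := by positivity
    linarith
  calc |GG a w (σ * t) ^ i - GG a w' (σ * t) ^ i| +
        |GG a w' (σ * t) ^ i - GG a 1 (σ * t) ^ i - (GG a w' (σ * t') ^ i - GG a 1 (σ * t') ^ i)|
      ≤ (i + C2 * a) * |w - w'| + C3 * a * |w' - 1| * Y := add_le_add f1 f2
    _ ≤ ((i * a + (C2 + i * C1 + C1 * C2) * a ^ 2) * X + (i * C1 + C1 * C2) * a ^ p * Y) +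
        (2 * C3 * a ^ 2 * X + 2 * C3 * a ^ p * Y) := add_le_add k1 k2
    _ = _ := by ring

end ShiftAux

open ShiftAux in
theorem shift_est {i p : ℝ} (hi : 1 ≤ i) (hp : 1 < p) (hp2 : p < 2) : ∃ C : ℝ, 0 ≤ C ∧
    ∀ (a : ℝ) (κ : ℝ → ℝ), 0 < a → a ≤ 1 / 100 → Cls p a κ →
    ∀ c : ℝ → ℝ, (∀ t, |t| ≤ 1 → IsRoot a κ t (c t)) →
    ∀ t t' : ℝ, 0 ≤ t → t ≤ 1 → 0 ≤ t' → t' ≤ 1 →
    |((c t) ^ i + (c (-t)) ^ i) / 2 - ((c t') ^ i + (c (-t')) ^ i) / 2| ≤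
      (i * a + C * a ^ 2) * |t ^ p - t' ^ p| + C * a ^ p * |t - t'| := by
  obtain ⟨C1, hC1, H1⟩ := hh_rpow_diff hp hp2
  obtain ⟨C2, hC2, H2⟩ := psi_first hi
  obtain ⟨C3, hC3, H3⟩ := psi_mixed i
  obtain ⟨C4, hC4, H4⟩ := psi_even i
  refine ⟨2 * C4 + (C2 + i * C1 + C1 * C2 + 2 * C3), by positivity, ?_⟩
  intro a κ ha ha1 hκ c hc
  have key : ∀ t t' : ℝ, 0 ≤ t' → t' ≤ t → t ≤ 1 →
      |((c t) ^ i + (c (-t)) ^ i) / 2 - ((c t') ^ i + (c (-t')) ^ i) / 2| ≤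
        (i * a + (2 * C4 + (C2 + i * C1 + C1 * C2 + 2 * C3)) * a ^ 2) * |t ^ p - t' ^ p| +
          (2 * C4 + (C2 + i * C1 + C1 * C2 + 2 * C3)) * a ^ p * |t - t'| := by
    intro t t' ht' htt ht1
    have ht : 0 ≤ t := ht'.trans htt
    have ht1' : t' ≤ 1 := htt.trans ht1
    have at1 : |t| ≤ 1 := by rw [abs_of_nonneg ht]; exact ht1
    have at1' : |t'| ≤ 1 := by rw [abs_of_nonneg ht']; exact ht1'
    have hX : 0 ≤ t ^ p - t' ^ p := by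
      have := Real.rpow_le_rpow ht' htt (by linarith : (0 : ℝ) ≤ p)
      linarith
    have hY : 0 ≤ t - t' := by linarith
    have r1 : IsRoot a κ (1 * t) (c t) := by rw [one_mul]; exact hc t at1
    have r1' : IsRoot a κ (1 * t') (c t') := by rw [one_mul]; exact hc t' at1'
    have r2 : IsRoot a κ (-1 * t) (c (-t)) := by
      rw [neg_one_mul]
      exact hc (-t) (by rwa [abs_neg])
    have r2' : IsRoot a κ (-1 * t') (c (-t')) := by
      rw [neg_one_mul]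
      exact hc (-t') (by rwa [abs_neg])
    have d1 := D_diff hi hp hp2 hC1 hC2 hC3 H1 H2 H3 ha ha1 hκ ht' htt ht1 (Or.inl rfl) r1 r1'
    have d2 := D_diff hi hp hp2 hC1 hC2 hC3 H1 H2 H3 ha ha1 hκ ht' htt ht1 (Or.inr rfl) r2 r2'
    rw [one_mul, one_mul] at d1
    rw [neg_one_mul, neg_one_mul] at d2
    have d3 := H4 a t t' ha ha1 ht ht1 ht' ht1'
    have hsq := sq_sub_le (p := p) hp.le hp2.le ht' htt
    obtain ⟨X, hXe⟩ : ∃ X, X = t ^ p - t' ^ p := ⟨_, rfl⟩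
    obtain ⟨Y, hYe⟩ : ∃ Y, Y = t - t' := ⟨_, rfl⟩
    rw [← hXe] at hX hsq d1 d2
    rw [← hYe] at hY d1 d2
    rw [← hXe, ← hYe, abs_of_nonneg hX, abs_of_nonneg hY]
    have hsq2 : |t ^ 2 - t' ^ 2| ≤ 2 * X := by
      rw [abs_of_nonneg (by nlinarith)]
      have h3 : t ^ (2 - p) ≤ 1 := Real.rpow_le_one ht ht1 (by linarith)
      have h4 : 2 / p ≤ 2 := by
        rw [div_le_iff₀ (by linarith)]
        linarith
      have h5 : t ^ (2 - p) * X ≤ 1 * X := mul_le_mul_of_nonneg_right h3 hX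
      have h6 : 0 ≤ t ^ (2 - p) * X := mul_nonneg (by positivity) hX
      calc t ^ 2 - t' ^ 2 ≤ 2 / p * (t ^ (2 - p) * X) := hsq
        _ ≤ 2 * (t ^ (2 - p) * X) := mul_le_mul_of_nonneg_right h4 h6
        _ ≤ 2 * X := by linarith
    have d4 : C4 * a ^ 2 * |t ^ 2 - t' ^ 2| ≤ C4 * a ^ 2 * (2 * X) :=
      mul_le_mul_of_nonneg_left hsq2 (by positivity)
    have hapos : 0 ≤ a ^ p := Real.rpow_nonneg ha.le p
    have hlast : (i * C1 + C1 * C2 + 2 * C3) * a ^ p * Y ≤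
        (2 * C4 + (C2 + i * C1 + C1 * C2 + 2 * C3)) * a ^ p * Y := by
      apply mul_le_mul_of_nonneg_right _ hY
      apply mul_le_mul_of_nonneg_right _ hapos
      linarith
    have hsplit : ((c t) ^ i + (c (-t)) ^ i) / 2 - ((c t') ^ i + (c (-t')) ^ i) / 2 =
        (((GG a 1 t) ^ i + (GG a 1 (-t)) ^ i) / 2 -
          ((GG a 1 t') ^ i + (GG a 1 (-t')) ^ i) / 2) +
        (((c t) ^ i - (GG a 1 t) ^ i) - ((c t') ^ i - (GG a 1 t') ^ i)) / 2 +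
        (((c (-t)) ^ i - (GG a 1 (-t)) ^ i) - ((c (-t')) ^ i - (GG a 1 (-t')) ^ i)) / 2 := by
      ring
    rw [hsplit, abs_le]
    rw [abs_le] at d1 d2 d3
    constructor <;> linarith [d1.1, d1.2, d2.1, d2.2, d3.1, d3.2]
  intro t t' ht ht1 ht' ht1'
  rcases le_total t' t with h | h
  · exact key t t' ht' h ht1
  · have h1 := key t' t ht h ht1'
    rw [abs_sub_comm, abs_sub_comm (t' ^ p), abs_sub_comm t'] at h1
    exact h1

end StarTr
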