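import Pool.Agent.StarTr.UUniq
import Pool.Agent.StarTr.Body

set_option autoImplicit false

/-!
# StarTr, module UBody: local uniqueness for star bodies
-/

open MeasureTheory Set Metric Module Filter Topology
open scoped ENNReal RealInnerProductSpace

namespace StarTr

open StarIB

variable {E : Type*} [NormedAddCommGroup E] [InnerProductSpace ℝ E] [FiniteDimensional ℝ E]
  [MeasurableSpace E] [BorelSpace E]

/-- `L` is a star body with `I_i² L = r (x + L)`, and `x + L` is `η`-close to the unit ball, with mean radius `1`. -/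
structure NearSol (i η : ℝ) (x : E) (L : Set E) : Prop where
  star : IsStarBody L
  eq : ∃ r : ℝ, 0 < r ∧ interBody i (interBody i L) = (fun y => r • (x + y)) '' L
  near : ∀ u : E, ‖u‖ = 1 → |radial ((fun y => x + y) '' L) u - 1| ≤ η
  lip : ∀ u v : E, ‖u‖ = 1 → ‖v‖ = 1 →
    |radial ((fun y => x + y) '' L) u - radial ((fun y => x + y) '' L) v| ≤ η * ‖u - v‖
  mean : SI (radial ((fun y => x + y) '' L)) = SI (fun _ : E => (1 : ℝ))

omit [FiniteDimensional ℝ E] [MeasurableSpace E] [BorelSpace E] in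
theorem norm_unit' {x : E} (hx : x ≠ 0) : ‖‖x‖⁻¹ • x‖ = 1 := by
  rw [norm_smul, norm_inv, norm_norm, inv_mul_cancel₀ (norm_ne_zero_iff.2 hx)]

omit [FiniteDimensional ℝ E] [MeasurableSpace E] [BorelSpace E] in
theorem ne_zero_of_unit' {x : E} (hx : ‖x‖ = 1) : x ≠ 0 := by
  intro h0; rw [h0, norm_zero] at hx; exact zero_ne_one hx

omit [FiniteDimensional ℝ E] [MeasurableSpace E] [BorelSpace E] in
theorem norm_smul_unit {x : E} (hx : x ≠ 0) : ‖x‖ • (‖x‖⁻¹ • x) = x := by
  rw [smul_smul, mul_inv_cancel₀ (norm_ne_zero_iff.2 hx), one_smul]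

/-- homogeneous extension of a radial function -/
noncomputable def hom0 (f : E → ℝ) (x : E) : ℝ := f (‖x‖⁻¹ • x)

omit [FiniteDimensional ℝ E] [MeasurableSpace E] [BorelSpace E] in
theorem hom0_unit (f : E → ℝ) {u : E} (hu : ‖u‖ = 1) : hom0 f u = f u := by
  unfold hom0
  rw [hu, inv_one, one_smul]

omit [FiniteDimensional ℝ E] [MeasurableSpace E] [BorelSpace E] in
theorem hom0_smul (f : E → ℝ) (x : E) {s : ℝ} (hs : 0 < s) :
    hom0 f (s • x) = hom0 f x := by
  unfold hom0
  congr 1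
  rw [norm_smul, Real.norm_eq_abs, abs_of_pos hs, smul_smul, mul_inv]
  congr 1
  field_simp

omit [FiniteDimensional ℝ E] [MeasurableSpace E] [BorelSpace E] in
theorem hom0_cont {f : E → ℝ} (hf : ContinuousOn f (sphere (0 : E) 1)) :
    ContinuousOn (hom0 f) {x : E | x ≠ 0} := by
  have hN : ContinuousOn (fun x : E => ‖x‖⁻¹ • x) {x : E | x ≠ 0} := by
    apply ContinuousOn.smul _ continuousOn_id
    apply ContinuousOn.inv₀ continuous_norm.continuousOn
    intro x hx; exact norm_ne_zero_iff.2 hx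
  exact hf.comp hN (by
    intro x hx
    rw [mem_sphere_zero_iff_norm]; exact norm_unit' hx)

/-- the second intersection body in terms of the normalised Radon transform -/
theorem interRadial_two {m : ℕ} [NeZero m] (hm : 2 ≤ m) (hE : finrank ℝ E = m + 1) {i : ℝ}
    (hi : 0 ≤ i) {L : Set E} (hL : IsStarBody L) {u : E} (hu : ‖u‖ = 1) :
    interRadial i (interBody i L) u = ((m : ℝ)⁻¹ * massS m) * ((m : ℝ)⁻¹ * massS m) ^ i *
      RR m (fun v => (RR m (fun w => (hom0 (radial L) w) ^ i) v) ^ i) u := by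
  have hm0 : (0 : ℝ) < m := by exact_mod_cast (by omega : 0 < m)
  have hmass := massS_pos (m := m) (by omega)
  have hrad0 : ∀ x : E, ‖x‖ = 1 → 0 ≤ radial L x := fun x hx =>
    (radial_set hL (ne_zero_of_unit' hx)).1
  have h1 : ∀ v : E, ‖v‖ = 1 → radial (interBody i L) v =
      ((m : ℝ)⁻¹ * massS m) * RR m (fun w => (hom0 (radial L) w) ^ i) v := by
    intro v hv
    rw [radial_interBody i hrad0 (by omega) hv, interRadial, RR, hE]
    have h2 : sphInt (fun v => radial L v ^ i) v = sphInt (fun w => (hom0 (radial L) w) ^ i) v := by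
      apply sphInt_congr
      intro w hw
      rw [hom0_unit _ hw]
    rw [h2]
    have e1 : (((m + 1 : ℕ) : ℝ) - 1) = m := by push_cast; ring
    rw [e1]
    generalize sphInt (fun w => (hom0 (radial L) w) ^ i) v = X
    have h4 : (m : ℝ)⁻¹ * massS m * ((massS m)⁻¹ * X) = (m : ℝ)⁻¹ * (massS m * (massS m)⁻¹) * X := by
      ring
    rw [h4, mul_inv_cancel₀ hmass.ne', mul_one]
    try rfl
    try (rw [inv_mul_eq_div])
  have h0 : ∀ v : E, ‖v‖ = 1 → 0 ≤ RR m (fun w => (hom0 (radial L) w) ^ i) v := by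
    intro v hv
    unfold RR
    apply mul_nonneg (inv_nonneg.2 hmass.le)
    apply sphInt_nonneg
    intro w hw
    rw [hom0_unit _ hw]
    exact Real.rpow_nonneg (hrad0 w hw) i
  rw [interRadial, hE]
  have h2 : sphInt (fun v => radial (interBody i L) v ^ i) u =
      sphInt (fun v => ((m : ℝ)⁻¹ * massS m) ^ i *
        (RR m (fun w => (hom0 (radial L) w) ^ i) v) ^ i) u := by
    apply sphInt_congr
    intro v hv
    rw [h1 v hv, Real.mul_rpow (by positivity) (h0 v hv)]
  rw [h2]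
  have h3 : sphInt (fun v : E => ((m : ℝ)⁻¹ * massS m) ^ i *
        (RR m (fun w => (hom0 (radial L) w) ^ i) v) ^ i) u = ((m : ℝ)⁻¹ * massS m) ^ i *
      sphInt (fun v : E => (RR m (fun w => (hom0 (radial L) w) ^ i) v) ^ i) u := by
    unfold sphInt
    rw [integral_const_mul]
  rw [h3]
  have e1 : (((m + 1 : ℕ) : ℝ) - 1) = m := by push_cast; ring
  rw [e1]
  have h5 : RR m (fun v => (RR m (fun w => (hom0 (radial L) w) ^ i) v) ^ i) u =
      (massS m)⁻¹ * sphInt (fun v : E => (RR m (fun w => (hom0 (radial L) w) ^ i) v) ^ i) u := rfl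
  rw [h5]
  generalize sphInt (fun v : E => (RR m (fun w => (hom0 (radial L) w) ^ i) v) ^ i) u = X
  generalize ((m : ℝ)⁻¹ * massS m) ^ i = Y
  have h4 : (m : ℝ)⁻¹ * massS m * Y * ((massS m)⁻¹ * X) =
      (m : ℝ)⁻¹ * (massS m * (massS m)⁻¹) * (Y * X) := by ring
  rw [h4, mul_inv_cancel₀ hmass.ne', mul_one]
  try rfl
  try (rw [inv_mul_eq_div])

section one

variable {m : ℕ} [NeZero m] {i η : ℝ} {x : E} {L : Set E}

theorem NearSol.data (hm : 2 ≤ m) (hE : finrank ℝ E = m + 1) (hi : 1 ≤ i) (hη : 0 < η)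
    (hη1 : η ≤ 1 / 100) (hx : ‖x‖ ≤ η) (h : NearSol i η x L) :
    ∃ k c : E → ℝ, Near η k ∧ H0 k ∧ Shifted η x k c ∧ SI k = SI (fun _ : E => (1 : ℝ)) ∧
      (∃ C : ℝ, ∀ u : E, ‖u‖ = 1 →
        k u = C * RR m (fun v => (RR m (fun w => (c w) ^ i) v) ^ i) u) ∧
      ∀ y : E, y ∈ L ↔ (x + y = 0 ∨ ‖x + y‖ ≤ k (x + y)) := by
  have hL := h.star
  obtain ⟨r, hr, heq⟩ := h.eq
  have hnt : Nontrivial E := Module.nontrivial_of_finrank_pos (R := ℝ) (by omega)
  set M : Set E := (fun y => x + y) '' L with hM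
  set J : E → ℝ := interRadial i (interBody i L) with hJ
  have hrad0 : ∀ x : E, ‖x‖ = 1 → 0 ≤ radial L x := fun x hx =>
    (radial_set hL (ne_zero_of_unit' hx)).1
  have hI0 : ∀ x : E, ‖x‖ = 1 → 0 ≤ radial (interBody i L) x := by
    intro y hy
    rw [radial_interBody i hrad0 (by omega) hy]
    exact interRadial_nonneg i hrad0 (by omega) y
  have hJ0 : ∀ u : E, 0 ≤ J u := fun u => interRadial_nonneg i hI0 (by omega) u
  have hMmem : ∀ y : E, y ∈ M ↔ y - x ∈ L := by
    intro y
    constructor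
    · rintro ⟨z, hz, rfl⟩
      simpa using hz
    · intro hy
      exact ⟨y - x, hy, by simp⟩
  have hMr : ∀ y : E, y ∈ M ↔ r • y ∈ starSet J := by
    intro y
    have h1 : interBody i (interBody i L) = starSet J := rfl
    rw [← h1, heq, hMmem]
    constructor
    · intro hy
      refine ⟨y - x, hy, ?_⟩
      simp only
      rw [add_sub_cancel]
    · rintro ⟨z, hz, he⟩
      have h2 : x + z = y := smul_right_injective E hr.ne' he
      rw [← h2]
      simpa using hz
  have hMu : ∀ u : E, ‖u‖ = 1 → ∀ s : ℝ, 0 ≤ s → (s • u ∈ M ↔ s ≤ J u / r) := by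
    intro u hu s hs
    rw [hMr, smul_smul, smul_mem_starSet (fun v _ => hJ0 v) hu (by positivity), le_div_iff₀ hr,
      mul_comm]
  have hradM : ∀ u : E, ‖u‖ = 1 → radial M u = J u / r := by
    intro u hu
    unfold radial
    have h1 : {c : ℝ | 0 ≤ c ∧ c • u ∈ M} = Icc 0 (J u / r) := by
      ext s
      constructor
      · rintro ⟨h0, h1⟩
        exact ⟨h0, (hMu u hu s h0).1 h1⟩
      · rintro ⟨h0, h1⟩
        exact ⟨h0, (hMu u hu s h0).2 h1⟩
    rw [h1, csSup_Icc (div_nonneg (hJ0 u) hr.le)]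
  set k : E → ℝ := fun y => J y / r with hk
  have hJsmul : ∀ (y : E) (s : ℝ), s ≠ 0 → J (s • y) = J y := by
    intro y s hs
    simp only [hJ, interRadial]
    rw [sphInt_smul _ _ _ hs]
  have hkM : ∀ u : E, ‖u‖ = 1 → k u = radial M u := fun u hu => (hradM u hu).symm
  have hcont_c : ContinuousOn (hom0 (radial L)) {x : E | x ≠ 0} := hom0_cont hL.cont
  have hcr : ContinuousOn (fun w => (hom0 (radial L) w) ^ i) {x : E | x ≠ 0} :=
    hcont_c.rpow_const (fun _ _ => Or.inr (by linarith))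
  have hB : ContinuousOn (fun v => (RR m (fun w => (hom0 (radial L) w) ^ i) v) ^ i)
      {x : E | x ≠ 0} := by
    apply ContinuousOn.rpow_const _ (fun _ _ => Or.inr (by linarith))
    exact (continuousOn_sphInt hcr).const_smul ((massS m)⁻¹)
  have hkform : ∀ u : E, ‖u‖ = 1 → k u = (((m : ℝ)⁻¹ * massS m) * ((m : ℝ)⁻¹ * massS m) ^ i / r) *
      RR m (fun v => (RR m (fun w => (hom0 (radial L) w) ^ i) v) ^ i) u := by
    intro u hu
    simp only [hk, hJ]
    rw [interRadial_two hm hE (by linarith) hL hu]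
    ring
  have hkH0 : H0 k := by
    refine ⟨fun y hy s hs => by simp only [hk]; rw [hJsmul y s hs], ?_⟩
    have h1 : ∀ y : E, y ≠ 0 → k y =
        (((m : ℝ)⁻¹ * massS m) * ((m : ℝ)⁻¹ * massS m) ^ i / r) *
        RR m (fun v => (RR m (fun w => (hom0 (radial L) w) ^ i) v) ^ i) y := by
      intro y hy
      have h2 := hkform _ (norm_unit' hy)
      have h3 : k (‖y‖⁻¹ • y) = k y := by
        simp only [hk]; rw [hJsmul y _ (inv_ne_zero (norm_ne_zero_iff.2 hy))]
      rw [h3] at h2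
      rw [h2]
      congr 1
      unfold RR
      rw [sphInt_smul _ _ _ (inv_ne_zero (norm_ne_zero_iff.2 hy))]
    have h2 : ContinuousOn (fun y => (((m : ℝ)⁻¹ * massS m) * ((m : ℝ)⁻¹ * massS m) ^ i / r) *
        RR m (fun v => (RR m (fun w => (hom0 (radial L) w) ^ i) v) ^ i) y) {x : E | x ≠ 0} := by
      apply ContinuousOn.mul continuousOn_const
      exact (continuousOn_sphInt hB).const_smul ((massS m)⁻¹)
    exact h2.congr h1
  have hnear : Near η k := by
    refine ⟨fun y hy s hs => hkH0.1 y hy s hs.ne', ?_, ?_⟩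
    · intro u hu
      rw [hkM u hu]
      exact h.near u hu
    · intro u v hu hv
      rw [hkM u hu, hkM v hv]
      exact h.lip u v hu hv
  have hmemM : ∀ y : E, y ≠ 0 → (y ∈ M ↔ ‖y‖ ≤ k y) := by
    intro y hy
    have h1 := hMu _ (norm_unit' hy) ‖y‖ (norm_nonneg y)
    rw [norm_smul_unit hy, hJsmul y _ (inv_ne_zero (norm_ne_zero_iff.2 hy))] at h1
    exact h1
  have h0M : (0 : E) ∈ M := by
    obtain ⟨u, hu⟩ := exists_norm_eq E (zero_le_one)
    have := (hMu u hu 0 le_rfl).2 (div_nonneg (hJ0 u) hr.le)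
    rwa [zero_smul] at this
  -- membership on rays
  have hray : ∀ u : E, ‖u‖ = 1 → ∀ s : ℝ, 0 ≤ s → (x + s • u ∈ M ↔ s ≤ hom0 (radial L) u) := by
    intro u hu s hs
    rw [hMmem, add_sub_cancel_left, mem_iff_radial hL (ne_zero_of_unit' hu) hs, hom0_unit _ hu]
  have hcn : ∀ u : E, ‖u‖ = 1 → |hom0 (radial L) u - 1| ≤ 3 * η := by
    intro u hu
    rw [abs_le]
    constructor
    · have h1 : x + (1 - 2 * η) • u ∈ M := by
        by_cases h0 : x + (1 - 2 * η) • u = 0
        · rw [h0]; exact h0M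
        · rw [hmemM _ h0]
          have h2 : ‖x + (1 - 2 * η) • u‖ ≤ η + (1 - 2 * η) := by
            refine (norm_add_le _ _).trans ?_
            rw [norm_smul, hu, Real.norm_eq_abs, abs_of_nonneg (by linarith)]
            linarith
          have h3 := hnear.near _ (norm_unit' h0)
          rw [hnear.hom _ h0 _ (inv_pos.2 (norm_pos_iff.2 h0))] at h3
          have h4 := (abs_le.1 h3).1
          linarith
      have h2 := (hray u hu _ (by linarith)).1 h1
      linarith
    · by_contra hcon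
      push Not at hcon
      have h1 : x + (1 + 3 * η) • u ∈ M := by
        rw [hray u hu _ (by linarith)]
        linarith
      have h5 : 1 + 3 * η - η ≤ ‖x + (1 + 3 * η) • u‖ := by
        have h6 : ‖(1 + 3 * η) • u‖ ≤ ‖x + (1 + 3 * η) • u‖ + ‖x‖ := by
          have h7 : (1 + 3 * η) • u = (x + (1 + 3 * η) • u) - x := by abel
          calc ‖(1 + 3 * η) • u‖ = ‖(x + (1 + 3 * η) • u) - x‖ := by rw [← h7]
            _ ≤ _ := norm_sub_le _ _
        rw [norm_smul, hu, Real.norm_eq_abs, abs_of_nonneg (by linarith)] at h6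
        linarith
      have h0 : x + (1 + 3 * η) • u ≠ 0 := by
        intro h0
        rw [h0, norm_zero] at h5
        linarith
      rw [hmemM _ h0] at h1
      have h3 := hnear.near _ (norm_unit' h0)
      rw [hnear.hom _ h0 _ (inv_pos.2 (norm_pos_iff.2 h0))] at h3
      have h4 := (abs_le.1 h3).2
      linarith
  have hshift : Shifted η x k (hom0 (radial L)) := by
    refine ⟨fun y _ s hs => hom0_smul _ y hs, hcont_c, hcn, ?_⟩
    intro u hu
    set c := hom0 (radial L) u with hc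
    have hcb := abs_le.1 (hcn u hu)
    have hnz : ∀ s : ℝ, 1 / 2 ≤ s → x + s • u ≠ 0 := by
      intro s hs h0
      have h1 : s • u = -x := by
        rw [eq_neg_iff_add_eq_zero, add_comm]; exact h0
      have h2 := congrArg norm h1
      rw [norm_smul, hu, norm_neg, Real.norm_eq_abs, abs_of_nonneg (by linarith)] at h2
      linarith
    have hc0 : 1 / 2 ≤ c := by linarith [hcb.1]
    apply le_antisymm
    · rw [← hmemM _ (hnz c hc0), hray u hu c (by linarith)]
    · -- limit from outside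
      have hcontk : ContinuousAt k (x + c • u) :=
        hkH0.2.continuousAt (isOpen_ne.mem_nhds (hnz c hc0))
      have h1 : Tendsto (fun s : ℝ => x + s • u) (𝓝[>] c) (𝓝 (x + c • u)) := by
        have : Continuous (fun s : ℝ => x + s • u) := by fun_prop
        exact (this.tendsto c).mono_left nhdsWithin_le_nhds
      have h2 : Tendsto (fun s : ℝ => k (x + s • u)) (𝓝[>] c) (𝓝 (k (x + c • u))) :=
        hcontk.tendsto.comp h1
      have h3 : Tendsto (fun s : ℝ => ‖x + s • u‖) (𝓝[>] c) (𝓝 ‖x + c • u‖) := h1.norm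
      apply le_of_tendsto_of_tendsto h2 h3
      filter_upwards [self_mem_nhdsWithin] with s hs
      have hs' : c < s := hs
      by_contra hcon
      push Not at hcon
      have h4 : x + s • u ∈ M := by
        rw [hmemM _ (hnz s (by linarith))]
        exact hcon.le
      rw [hray u hu s (by linarith)] at h4
      linarith
  refine ⟨k, hom0 (radial L), hnear, hkH0, hshift, ?_, ⟨_, hkform⟩, ?_⟩
  · rw [← h.mean]
    unfold SI
    congr 1
    ext v
    have hv : ‖(v : E)‖ = 1 := by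
      have := v.2
      rwa [mem_sphere_zero_iff_norm] at this
    exact hkM _ hv
  · intro y
    have h1 := hMmem (x + y)
    rw [add_sub_cancel_left] at h1
    rw [← h1]
    by_cases h0 : x + y = 0
    · simp only [h0, true_or, iff_true]
      exact h0M
    · rw [hmemM _ h0]
      simp [h0]

end one

theorem nearSol_unique {m : ℕ} [NeZero m] (hm : 2 ≤ m) (hE : finrank ℝ E = m + 1) {i : ℝ}
    (hi : 1 ≤ i) (him : i < m) : ∃ η₀ : ℝ, 0 < η₀ ∧ η₀ ≤ 1 / 100 ∧
    ∀ (η : ℝ) (x : E), 0 < η → η ≤ η₀ → ‖x‖ ≤ η → ∀ L₁ L₂ : Set E, NearSol i η x L₁ →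
    NearSol i η x L₂ → L₁ = L₂ := by
  obtain ⟨η₀, h0, h01, H⟩ := UUniq (E := E) hm hE hi him
  refine ⟨η₀, h0, h01, fun η x hη hη0 hx L₁ L₂ h1 h2 => ?_⟩
  obtain ⟨k₁, c₁, n1, z1, s1, m1, e1, d1⟩ := h1.data hm hE hi hη (hη0.trans h01) hx
  obtain ⟨k₂, c₂, n2, z2, s2, m2, e2, d2⟩ := h2.data hm hE hi hη (hη0.trans h01) hx
  have hk := H η x hη hη0 hx k₁ k₂ c₁ c₂ n1 n2 z1 z2 s1 s2 (m1.trans m2.symm) e1 e2
  have hk' : ∀ y : E, y ≠ 0 → k₁ y = k₂ y := by
    intro y hy
    have h3 := hk _ (norm_unit' hy)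
    rwa [z1.1 y hy _ (inv_ne_zero (norm_ne_zero_iff.2 hy)),
      z2.1 y hy _ (inv_ne_zero (norm_ne_zero_iff.2 hy))] at h3
  ext y
  rw [d1, d2]
  by_cases h3 : x + y = 0
  · simp [h3]
  · rw [hk' _ h3]

end StarTr
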