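import Pool.Agent.StarIB.Bodies

set_option autoImplicit false

/-!
# StarTr, module UConv: convex bodies close to the unit ball have a radial function with a small Lipschitz constant

`ρ = radial L`, `g x = ‖x‖ / ρ (x/‖x‖)` the gauge of `L` (`x ∈ L ↔ g x ≤ 1` for `x ≠ 0`, `StarIB.mem_iff_radial`), it is positively homogeneous and
subadditive (`L` convex), `‖x‖ / (1+ε) ≤ g x ≤ ‖x‖ / (1-ε)`.  Let `d = ‖u - v‖`.
* `d ≥ √ε`: `|ρ u - ρ v| ≤ 2 ε ≤ 2 √ε d`.
* `0 < d < √ε`: `s = √ε / d > 1`, `z = v + s (u - v)`, `‖z‖^2 = 1 - s d^2 + s^2 d^2 ≤ 1 + ε`, so `‖z‖ ≤ 1 + ε/2`, `g z ≤ (1 + ε/2)/(1 - ε) ≤ 1 + 2 ε`.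
  `u = (1 - 1/s) v + (1/s) z`, so `g u ≤ (1 - 1/s) g v + (1/s) g z`, `g u - g v ≤ (d/√ε) (g z - g v) ≤ 3 √ε d`, and
  `ρ v - ρ u = ρ u ρ v (g u - g v) ≤ 8 √ε d`.  Exchange `u` and `v`.
-/

open MeasureTheory Set Metric Module
open scoped ENNReal RealInnerProductSpace

namespace StarTr

open StarIB

variable {E : Type*} [NormedAddCommGroup E] [InnerProductSpace ℝ E]

theorem convex_lip_aux {ε : ℝ} (hε : 0 < ε) (hε1 : ε ≤ 1 / 4) {L : Set E} (hL : IsStarBody L)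
    (hc : Convex ℝ L) (hn : ∀ u : E, ‖u‖ = 1 → |radial L u - 1| ≤ ε) {u v : E} (hu : ‖u‖ = 1)
    (hv : ‖v‖ = 1) : radial L v - radial L u ≤ 8 * √ε * ‖u - v‖ := by
  have hue := abs_le.1 (hn u hu)
  have hve := abs_le.1 (hn v hv)
  have hsε : 0 < √ε := Real.sqrt_pos.2 hε
  have hsq : √ε * √ε = ε := Real.mul_self_sqrt hε.le
  by_cases hd : √ε ≤ ‖u - v‖
  · have h1 : √ε * √ε ≤ √ε * ‖u - v‖ := mul_le_mul_of_nonneg_left hd hsε.le
    linarith
  push Not at hd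
  by_cases hd0 : ‖u - v‖ = 0
  · have : u = v := by rwa [norm_eq_zero, sub_eq_zero] at hd0
    subst this
    simp
  have hdp : 0 < ‖u - v‖ := lt_of_le_of_ne (norm_nonneg _) (Ne.symm hd0)
  set d := ‖u - v‖ with hddef
  have hd2 : d ^ 2 = 2 - 2 * ⟪u, v⟫ := by
    rw [hddef, @norm_sub_sq_real, hu, hv]; ring
  -- the parameter t = d / sqrt ε
  have ht0 : 0 < d / √ε := div_pos hdp hsε
  have ht1 : d / √ε < 1 := (div_lt_one hsε).2 hd
  set s := √ε / d with hs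
  have hs0 : 0 < s := div_pos hsε hdp
  have hsd : s * d = √ε := by rw [hs]; field_simp
  have hs1 : 1 < s := (one_lt_div hdp).2 hd
  set z : E := v + s • (u - v) with hz
  have hz2 : ‖z‖ ^ 2 = 1 - s * d ^ 2 + s ^ 2 * d ^ 2 := by
    rw [hz, @norm_add_sq_real, hv, norm_smul, Real.norm_of_nonneg hs0.le, ← hddef, inner_smul_right,
      inner_sub_right, real_inner_self_eq_norm_sq, hv, real_inner_comm]
    linear_combination s * hd2
  have hz1 : 1 ≤ ‖z‖ := by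
    have : 1 ≤ ‖z‖ ^ 2 := by
      rw [hz2]
      linarith [mul_pos (mul_pos hs0 (sub_pos.2 hs1)) (pow_pos hdp 2)]
    exact (one_le_sq_iff₀ (norm_nonneg z)).1 this
  have hzu : ‖z‖ ≤ 1 + ε / 2 := by
    have h1 : s ^ 2 * d ^ 2 = ε := by rw [← mul_pow, hsd, pow_two, hsq]
    have h2 : ‖z‖ ^ 2 ≤ (1 + ε / 2) ^ 2 := by
      rw [hz2, h1]
      linarith [mul_pos hs0 (pow_pos hdp 2), sq_nonneg ε]
    exact le_of_sq_le_sq h2 (by linarith)
  have hz0 : 0 < ‖z‖ := by linarith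
  have hzne : z ≠ 0 := norm_pos_iff.1 hz0
  set w : E := ‖z‖⁻¹ • z with hw
  have hwn : ‖w‖ = 1 := by
    rw [hw, norm_smul, norm_inv, norm_norm, inv_mul_cancel₀ hz0.ne']
  have hwe := abs_le.1 (hn w hwn)
  have hwne : w ≠ 0 := by rw [← norm_pos_iff, hwn]; norm_num
  have hune : u ≠ 0 := by rw [← norm_pos_iff, hu]; norm_num
  have hvne : v ≠ 0 := by rw [← norm_pos_iff, hv]; norm_num
  set ρu := radial L u with hρu
  set ρv := radial L v with hρv
  set r := radial L w with hr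
  have hru : 0 < ρu := by linarith
  have hrv : 0 < ρv := by linarith
  have hrr : 0 < r := by linarith
  have mw : r • w ∈ L := (mem_iff_radial hL hwne hrr.le).2 le_rfl
  have mv : ρv • v ∈ L := (mem_iff_radial hL hvne hrv.le).2 le_rfl
  set t := d / √ε with ht
  have hts : t * s = 1 := by rw [ht, hs]; field_simp
  set a := (1 - t) / ρv with ha
  set b := t * ‖z‖ / r with hb
  have ha0 : 0 < a := div_pos (by linarith) hrv
  have hb0 : 0 < b := div_pos (mul_pos ht0 hz0) hrr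
  have hab : 0 < a + b := add_pos ha0 hb0
  have hucomb : u = a • (ρv • v) + b • (r • w) := by
    rw [smul_smul, smul_smul, hw, smul_smul, ha, hb]
    have e1 : (1 - t) / ρv * ρv = 1 - t := by field_simp
    have e2 : t * ‖z‖ / r * r * ‖z‖⁻¹ = t := by field_simp
    rw [e1, e2, hz, smul_add, smul_smul, hts]
    module
  have mem : (1 / (a + b)) • u ∈ L := by
    have h := hc mv mw (div_pos ha0 hab).le (div_pos hb0 hab).le (by field_simp)
    convert h using 1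
    conv_lhs => rw [hucomb]
    module
  have hle : 1 / (a + b) ≤ ρu := (mem_iff_radial hL hune (by positivity)).1 mem
  have h1 : 1 ≤ ρu * (a + b) := by
    rwa [div_le_iff₀ hab] at hle
  have h2 : ρv ≤ ρu * ((1 - t) + t * (‖z‖ * ρv / r)) := by
    have : ρu * (a + b) * ρv = ρu * ((1 - t) + t * (‖z‖ * ρv / r)) := by
      rw [ha, hb]; field_simp
    rw [← this]
    exact le_mul_of_one_le_left hrv.le h1
  have h3 : ρu * (‖z‖ * ρv / r - 1) ≤ 8 * ε := by
    have h4 : ‖z‖ * ρv ≤ (1 + ε / 2) * (1 + ε) :=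
      mul_le_mul hzu (by linarith) hrv.le (by linarith)
    have h5 : ‖z‖ * ρv / r ≤ (1 + ε / 2) * (1 + ε) / (1 - ε) :=
      div_le_div₀ (by positivity) h4 (by linarith) (by linarith)
    have h6 : (1 + ε / 2) * (1 + ε) / (1 - ε) ≤ 1 + 5 * ε := by
      rw [div_le_iff₀ (by linarith)]
      linarith [mul_nonneg hε.le (sub_nonneg.2 hε1)]
    have h7 : ‖z‖ * ρv / r - 1 ≤ 5 * ε := by linarith
    calc ρu * (‖z‖ * ρv / r - 1) ≤ ρu * (5 * ε) := mul_le_mul_of_nonneg_left h7 hru.le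
      _ ≤ 8 * ε := by
        have := mul_le_mul_of_nonneg_right (show ρu ≤ 5 / 4 by linarith) hε.le
        linarith
  have h8 : t * ε = √ε * d := by
    rw [ht]
    calc d / √ε * ε = d / √ε * (√ε * √ε) := by rw [hsq]
      _ = √ε * d := by field_simp
  have h9 : t * (ρu * (‖z‖ * ρv / r - 1)) ≤ t * (8 * ε) := mul_le_mul_of_nonneg_left h3 ht0.le
  generalize ‖z‖ * ρv / r = X at h2 h9
  linarith

theorem convex_lip {ε : ℝ} (hε : 0 < ε) (hε1 : ε ≤ 1 / 4) {L : Set E} (hL : IsStarBody L)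
    (hc : Convex ℝ L) (hn : ∀ u : E, ‖u‖ = 1 → |radial L u - 1| ≤ ε) {u v : E} (hu : ‖u‖ = 1)
    (hv : ‖v‖ = 1) : |radial L u - radial L v| ≤ 8 * √ε * ‖u - v‖ := by
  rw [abs_le]
  have h1 := convex_lip_aux hε hε1 hL hc hn hu hv
  have h2 := convex_lip_aux hε hε1 hL hc hn hv hu
  rw [norm_sub_rev] at h2
  constructor <;> linarith

end StarTr
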