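import Pool.Agent.StarTr.Law2

set_option autoImplicit false

/-!
# StarTr, local uniqueness: definitions

`E` has dimension `m + 1`, `m ≥ 2`.  `H0 f`: `f` is continuous on `E \ {0}` and `f (s x) = f x` for all `s ≠ 0` (an even continuous
function on the sphere).  `SI f` is the integral over the unit sphere, `RR m f` the normalised spherical Radon transform.
-/

open MeasureTheory Set Metric Module
open scoped ENNReal RealInnerProductSpace

namespace StarTr

variable {E : Type*} [NormedAddCommGroup E] [InnerProductSpace ℝ E] [FiniteDimensional ℝ E]
  [MeasurableSpace E] [BorelSpace E]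

/-- even continuous functions on the sphere, as homogeneous functions of degree zero -/
def H0 (f : E → ℝ) : Prop :=
  (∀ x : E, x ≠ 0 → ∀ s : ℝ, s ≠ 0 → f (s • x) = f x) ∧ ContinuousOn f {x : E | x ≠ 0}

/-- integral over the unit sphere -/
noncomputable def SI (f : E → ℝ) : ℝ :=
  ∫ v : sphere (0 : E) 1, f v ∂((volume : Measure E).toSphere)

/-- normalised spherical Radon transform -/
noncomputable def RR (m : ℕ) (f : E → ℝ) (u : E) : ℝ := (massS m)⁻¹ * StarIB.sphInt f u

end StarTr
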