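import Pool.Agent.StarTr.URidge

set_option autoImplicit false

/-!
# StarTr, module UDens: finite sums of ridge functions are dense in the even continuous functions

Stone-Weierstrass on the compact unit sphere: the span of all `v ↦ cos ⟨ξ, v⟩`, `v ↦ sin ⟨ξ, v⟩` is an algebra (product formulas; `ξ = 0` gives
`1`) and separates points.  So the even function `f` is approximated by `h = ∑ a_l cos ⟨ξ_l, v⟩ + b_l sin ⟨ξ_l, v⟩` up to `ε`, and then
also by the even part of `h`, which is `∑ a_l cos ⟨ξ_l, v⟩` (`f` is even).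
-/

open MeasureTheory Set Metric Module
open scoped ENNReal RealInnerProductSpace

namespace StarTr

variable {E : Type*} [NormedAddCommGroup E] [InnerProductSpace ℝ E] [FiniteDimensional ℝ E]
  [MeasurableSpace E] [BorelSpace E]

namespace UDensAux

omit [FiniteDimensional ℝ E] [MeasurableSpace E] [BorelSpace E] in
theorem sph_norm (x : sphere (0 : E) 1) : ‖(x : E)‖ = 1 := by
  have := x.2
  rwa [mem_sphere_zero_iff_norm] at this

/-- cosine ridge functions on the sphere -/
noncomputable def cc (ξ : E) : C(sphere (0 : E) 1, ℝ) :=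
  ⟨fun v => Real.cos ⟪ξ, (v : E)⟫, by fun_prop⟩

/-- sine ridge functions on the sphere -/
noncomputable def ss (ξ : E) : C(sphere (0 : E) 1, ℝ) :=
  ⟨fun v => Real.sin ⟪ξ, (v : E)⟫, by fun_prop⟩

variable (E) in
/-- generators -/
def gens : Set C(sphere (0 : E) 1, ℝ) := Set.range (cc (E := E)) ∪ Set.range (ss (E := E))

omit [FiniteDimensional ℝ E] [MeasurableSpace E] [BorelSpace E] in
theorem cc_mem (ξ : E) : cc ξ ∈ Submodule.span ℝ (gens E) :=
  Submodule.subset_span (Or.inl ⟨ξ, rfl⟩)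

omit [FiniteDimensional ℝ E] [MeasurableSpace E] [BorelSpace E] in
theorem ss_mem (ξ : E) : ss ξ ∈ Submodule.span ℝ (gens E) :=
  Submodule.subset_span (Or.inr ⟨ξ, rfl⟩)

omit [FiniteDimensional ℝ E] [MeasurableSpace E] [BorelSpace E] in
theorem cc_cc (ξ η : E) : cc ξ * cc η = (1 / 2 : ℝ) • (cc (ξ + η) + cc (ξ - η)) := by
  ext v
  simp only [ContinuousMap.mul_apply, ContinuousMap.smul_apply, ContinuousMap.add_apply, cc,
    ContinuousMap.coe_mk, smul_eq_mul, inner_add_left, inner_sub_left, Real.cos_add, Real.cos_sub]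
  ring

omit [FiniteDimensional ℝ E] [MeasurableSpace E] [BorelSpace E] in
theorem ss_ss (ξ η : E) : ss ξ * ss η = (1 / 2 : ℝ) • (cc (ξ - η) - cc (ξ + η)) := by
  ext v
  simp only [ContinuousMap.mul_apply, ContinuousMap.smul_apply, ContinuousMap.sub_apply, cc, ss,
    ContinuousMap.coe_mk, smul_eq_mul, inner_add_left, inner_sub_left, Real.cos_add, Real.cos_sub]
  ring

omit [FiniteDimensional ℝ E] [MeasurableSpace E] [BorelSpace E] in
theorem ss_cc (ξ η : E) : ss ξ * cc η = (1 / 2 : ℝ) • (ss (ξ + η) + ss (ξ - η)) := by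
  ext v
  simp only [ContinuousMap.mul_apply, ContinuousMap.smul_apply, ContinuousMap.add_apply, cc, ss,
    ContinuousMap.coe_mk, smul_eq_mul, inner_add_left, inner_sub_left, Real.sin_add, Real.sin_sub]
  ring

omit [FiniteDimensional ℝ E] [MeasurableSpace E] [BorelSpace E] in
theorem one_mem' : (1 : C(sphere (0 : E) 1, ℝ)) ∈ Submodule.span ℝ (gens E) := by
  have h : (1 : C(sphere (0 : E) 1, ℝ)) = cc 0 := by
    ext v
    simp [cc]
  rw [h]
  exact cc_mem 0

omit [FiniteDimensional ℝ E] [MeasurableSpace E] [BorelSpace E] in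
theorem mul_mem' (x y : C(sphere (0 : E) 1, ℝ)) (hx : x ∈ Submodule.span ℝ (gens E))
    (hy : y ∈ Submodule.span ℝ (gens E)) : x * y ∈ Submodule.span ℝ (gens E) := by
  have h := Submodule.mul_mem_mul hx hy
  rw [Submodule.span_mul_span] at h
  refine Submodule.span_le.mpr ?_ h
  rintro z ⟨a, ha, b, hb, rfl⟩
  show a * b ∈ Submodule.span ℝ (gens E)
  rcases ha with ⟨ξ, rfl⟩ | ⟨ξ, rfl⟩ <;> rcases hb with ⟨η, rfl⟩ | ⟨η, rfl⟩
  · rw [cc_cc]
    exact Submodule.smul_mem _ _ (Submodule.add_mem _ (cc_mem _) (cc_mem _))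
  · rw [mul_comm, ss_cc]
    exact Submodule.smul_mem _ _ (Submodule.add_mem _ (ss_mem _) (ss_mem _))
  · rw [ss_cc]
    exact Submodule.smul_mem _ _ (Submodule.add_mem _ (ss_mem _) (ss_mem _))
  · rw [ss_ss]
    exact Submodule.smul_mem _ _ (Submodule.sub_mem _ (cc_mem _) (cc_mem _))

variable (E) in
/-- the algebra of trigonometric functions -/
noncomputable def alg : Subalgebra ℝ C(sphere (0 : E) 1, ℝ) :=
  (Submodule.span ℝ (gens E)).toSubalgebra one_mem' mul_mem'

omit [FiniteDimensional ℝ E] [MeasurableSpace E] [BorelSpace E] in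
theorem sep : (alg E).SeparatesPoints := by
  intro x y hxy
  set ξ : E := (1 / 2 : ℝ) • ((x : E) - (y : E)) with hξ
  refine ⟨ss ξ, ⟨ss ξ, ss_mem ξ, rfl⟩, ?_⟩
  have hx := sph_norm x
  have hy := sph_norm y
  have hxx : ⟪(x : E), (x : E)⟫ = 1 := by rw [real_inner_self_eq_norm_sq, hx]; norm_num
  have hyy : ⟪(y : E), (y : E)⟫ = 1 := by rw [real_inner_self_eq_norm_sq, hy]; norm_num
  have hd : 0 < 1 - ⟪(x : E), (y : E)⟫ := by
    have h1 : 0 < ‖(x : E) - y‖ ^ 2 := by
      have h2 : (x : E) - y ≠ 0 := sub_ne_zero.mpr (fun h => hxy (Subtype.ext h))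
      positivity
    rw [@norm_sub_sq_real, hx, hy] at h1
    linarith
  have hd2 : 1 - ⟪(x : E), (y : E)⟫ ≤ 2 := by
    have h1 := abs_real_inner_le_norm (x : E) (y : E)
    rw [hx, hy] at h1
    have h2 := (abs_le.mp h1).1
    linarith
  set d := 1 - ⟪(x : E), (y : E)⟫ with hdd
  have e1 : ⟪ξ, (x : E)⟫ = d / 2 := by
    rw [hξ, inner_smul_left, inner_sub_left, hxx, real_inner_comm (x : E) (y : E)]
    simp only [conj_trivial]
    rw [hdd]
    ring
  have e2 : ⟪ξ, (y : E)⟫ = -(d / 2) := by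
    rw [hξ, inner_smul_left, inner_sub_left, hyy]
    simp only [conj_trivial]
    rw [hdd]
    ring
  show Real.sin ⟪ξ, (x : E)⟫ ≠ Real.sin ⟪ξ, (y : E)⟫
  rw [e1, e2, Real.sin_neg]
  have h3 : 0 < Real.sin (d / 2) := Real.sin_pos_of_pos_of_lt_pi (by linarith)
    (by linarith [Real.pi_gt_three])
  linarith

variable (E) in
/-- the antipodal map -/
def ngm : C(sphere (0 : E) 1, sphere (0 : E) 1) :=
  ⟨fun v => -v, continuous_neg⟩

variable (E) in
/-- even part -/
noncomputable def evl : C(sphere (0 : E) 1, ℝ) →ₗ[ℝ] C(sphere (0 : E) 1, ℝ) where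
  toFun g := (1 / 2 : ℝ) • (g + g.comp (ngm E))
  map_add' f g := by
    ext v
    simp only [ContinuousMap.smul_apply, ContinuousMap.add_apply, ContinuousMap.comp_apply,
      smul_eq_mul]
    ring
  map_smul' c g := by
    ext v
    simp only [ContinuousMap.smul_apply, ContinuousMap.add_apply, ContinuousMap.comp_apply,
      smul_eq_mul, RingHom.id_apply]
    ring

omit [FiniteDimensional ℝ E] [MeasurableSpace E] [BorelSpace E] in
theorem evl_apply (g : C(sphere (0 : E) 1, ℝ)) (v : sphere (0 : E) 1) :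
    evl E g v = (g v + g (-v)) / 2 := by
  show (1 / 2 : ℝ) * (g v + g (-v)) = _
  ring

omit [FiniteDimensional ℝ E] [MeasurableSpace E] [BorelSpace E] in
theorem evl_mem {g : C(sphere (0 : E) 1, ℝ)} (hg : g ∈ Submodule.span ℝ (gens E)) :
    evl E g ∈ Submodule.span ℝ (Set.range (cc (E := E))) := by
  have h : Submodule.span ℝ (gens E) ≤
      (Submodule.span ℝ (Set.range (cc (E := E)))).comap (evl E) := by
    rw [Submodule.span_le]
    rintro z (⟨ξ, rfl⟩ | ⟨ξ, rfl⟩)
    · show evl E (cc ξ) ∈ Submodule.span ℝ (Set.range (cc (E := E)))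
      have e : evl E (cc ξ) = cc ξ := by
        ext v
        rw [evl_apply]
        simp [cc]
      rw [e]
      exact Submodule.subset_span ⟨ξ, rfl⟩
    · show evl E (ss ξ) ∈ Submodule.span ℝ (Set.range (cc (E := E)))
      have e : evl E (ss ξ) = 0 := by
        ext v
        rw [evl_apply]
        simp [ss]
      rw [e]
      exact Submodule.zero_mem _
  exact h hg

end UDensAux

open UDensAux in
theorem ridge_dense {f : E → ℝ} (hf : H0 f) {ε : ℝ} (hε : 0 < ε) :
    ∃ (N : ℕ) (a : Fin N → ℝ) (ξ : Fin N → E), ∀ u : E, ‖u‖ = 1 →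
      |f u - ∑ l, a l * ridge (ξ l) u| ≤ ε := by
  have hS : ∀ x : sphere (0 : E) 1, (x : E) ≠ 0 := by
    intro x h
    have := sph_norm x
    rw [h, norm_zero] at this
    exact zero_ne_one this
  let F : C(sphere (0 : E) 1, ℝ) := ⟨fun v => f v, hf.2.comp_continuous continuous_subtype_val hS⟩
  obtain ⟨⟨g, hgA⟩, hg⟩ := ContinuousMap.exists_mem_subalgebra_near_continuousMap_of_separatesPoints
    (alg E) sep F ε hε
  have hg' : g ∈ Submodule.span ℝ (gens E) := hgA
  obtain ⟨c, hc⟩ := (Finsupp.mem_span_range_iff_exists_finsupp).mp (evl_mem hg')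
  refine ⟨c.support.card, fun l => c (c.support.equivFin.symm l : E),
    fun l => (c.support.equivFin.symm l : E), ?_⟩
  intro u hu
  let U : sphere (0 : E) 1 := ⟨u, by rwa [mem_sphere_zero_iff_norm]⟩
  have e1 : ∑ l : Fin c.support.card,
      c (c.support.equivFin.symm l : E) * ridge (c.support.equivFin.symm l : E) u =
      evl E g U := by
    rw [← hc, Finsupp.sum]
    have e2 : (∑ i ∈ c.support, c i • cc i) U = ∑ i ∈ c.support, c i * Real.cos ⟪i, u⟫ := by
      rw [ContinuousMap.sum_apply]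
      rfl
    rw [e2, ← Finset.sum_coe_sort c.support (fun i => c i * Real.cos ⟪i, u⟫),
      ← Equiv.sum_comp c.support.equivFin.symm]
    apply Finset.sum_congr rfl
    intro l _
    rw [ridge, hu, div_one]
  rw [e1, evl_apply]
  have h1 : |g U - f u| ≤ ε := by
    have := (ContinuousMap.norm_coe_le_norm (g - F) U).trans hg.le
    rwa [Real.norm_eq_abs] at this
  have h2 : |g (-U) - f u| ≤ ε := by
    have := (ContinuousMap.norm_coe_le_norm (g - F) (-U)).trans hg.le
    rw [Real.norm_eq_abs] at this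
    have e3 : F (-U) = f u := by
      have h0 : u ≠ 0 := hS U
      have := hf.1 u h0 (-1) (by norm_num)
      rw [neg_one_smul] at this
      rw [← this]
      rfl
    rw [ContinuousMap.sub_apply, e3] at this
    exact this
  rw [abs_le] at h1 h2 ⊢
  constructor <;> linarith [h1.1, h1.2, h2.1, h2.2]

end StarTr
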