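import Pool.Agent.StarTr.UDef
import Pool.Agent.StarIB.Bodies

set_option autoImplicit false

/-!
# StarTr, module UEquiv: linear isometries and dilatations

* `radial_map`: `c • T u ∈ T '' L ↔ c • u ∈ L`.
* `isStarBody_map`: `radial (T '' L) u = radial L (T.symm u)`.
* `interRadial_map`: `StarIB.sphInt_map`, `radial_map`.
* `interBody_map`: from `interRadial_map`.
* `SI_map`: `StarIB.toSphere_map` (`integral_comp` with `StarIB.sphEquiv T`, see `StarIB.sphInt_map` for the same argument).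
* `isStarBody_smul`, `interBody_smul`: `StarIB.radial_smul_set`, `Real.mul_rpow`.
* `homothety_unique`: `s = s'` by comparing diameters (`Metric.diam`, or a pair of points of maximal distance); then `s • L` is invariant under the
  translation by `z - z'`, so by all multiples of it, and bounded.
-/

open MeasureTheory Set Metric Module
open scoped ENNReal RealInnerProductSpace Pointwise

namespace StarTr

open StarIB

section sets

variable {E : Type*} [NormedAddCommGroup E] [InnerProductSpace ℝ E]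

theorem radial_map (T : E ≃ₗᵢ[ℝ] E) (L : Set E) (u : E) : radial (T '' L) (T u) = radial L u := by
  unfold radial
  congr 1
  ext c
  show (0 ≤ c ∧ c • T u ∈ T '' L) ↔ (0 ≤ c ∧ c • u ∈ L)
  rw [← map_smul T c u, T.injective.mem_set_image]

theorem isStarBody_map (T : E ≃ₗᵢ[ℝ] E) {L : Set E} (hL : IsStarBody L) :
    IsStarBody (T '' L) := by
  have hr : ∀ u : E, radial (T '' L) u = radial L (T.symm u) := by
    intro u
    rw [← radial_map T L (T.symm u), T.apply_symm_apply]
  refine ⟨hL.isCompact.image T.continuous, ⟨0, hL.zero_mem, map_zero T⟩, ?_, ?_⟩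
  · rintro x ⟨y, hy, rfl⟩ t ht0 ht1
    exact ⟨t • y, hL.star y hy t ht0 ht1, map_smul T t y⟩
  · have h1 : radial (T '' L) = fun u => radial L (T.symm u) := funext hr
    rw [h1]
    refine hL.cont.comp T.symm.continuous.continuousOn ?_
    intro u hu
    rw [mem_sphere_zero_iff_norm] at hu ⊢
    rw [LinearIsometryEquiv.norm_map, hu]

theorem isStarBody_smul {s : ℝ} (hs : 0 < s) {L : Set E} (hL : IsStarBody L) :
    IsStarBody (s • L) := by
  refine ⟨hL.isCompact.smul s, ⟨0, hL.zero_mem, smul_zero s⟩, ?_, ?_⟩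
  · rintro x ⟨y, hy, rfl⟩ t ht0 ht1
    exact ⟨t • y, hL.star y hy t ht0 ht1, smul_comm s t y⟩
  · have h1 : radial (s • L) = fun u => s * radial L u := funext (radial_smul_set hs)
    rw [h1]
    exact continuousOn_const.mul hL.cont

theorem homothety_unique {L : Set E} (hL : IsCompact L) (h2 : ∃ p ∈ L, ∃ q ∈ L, p ≠ q) {s s' : ℝ}
    (hs : 0 < s) (hs' : 0 < s') {z z' : E}
    (h : (fun w => z + s • w) '' L = (fun w => z' + s' • w) '' L) : s = s' ∧ z = z' := by
  have himg : ∀ (s : ℝ) (z : E), (fun w => z + s • w) '' L = (fun w => z + w) '' (s • L) := by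
    intro s z
    ext x
    constructor
    · rintro ⟨w, hw, rfl⟩
      exact ⟨s • w, ⟨w, hw, rfl⟩, rfl⟩
    · rintro ⟨_, ⟨w, hw, rfl⟩, rfl⟩
      exact ⟨w, hw, rfl⟩
  have hdiam : ∀ (s : ℝ) (z : E), 0 < s →
      Metric.diam ((fun w => z + s • w) '' L) = s * Metric.diam L := by
    intro s z hs
    rw [himg, (isometry_add_left z).diam_image, diam_smul₀, Real.norm_eq_abs, abs_of_pos hs]
  have hpos : 0 < Metric.diam L := by
    obtain ⟨p, hp, q, hq, hpq⟩ := h2
    exact lt_of_lt_of_le (dist_pos.2 hpq) (Metric.dist_le_diam_of_mem hL.isBounded hp hq)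
  have hss : s = s' := by
    have h3 := hdiam s z hs
    rw [h, hdiam s' z' hs'] at h3
    exact (mul_right_cancel₀ hpos.ne' h3).symm
  refine ⟨hss, ?_⟩
  subst hss
  by_contra hne
  obtain ⟨p, hp, -⟩ := h2
  have hcont : ContinuousOn (fun w : E => ⟪w, z - z'⟫) L :=
    (continuous_id.inner continuous_const).continuousOn
  obtain ⟨m, hm, hmax⟩ := hL.exists_isMaxOn ⟨p, hp⟩ hcont
  have h4 : z + s • m ∈ (fun w => z' + s • w) '' L := by
    rw [← h]
    exact ⟨m, hm, rfl⟩
  obtain ⟨w, hw, hweq⟩ := h4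
  have h5 : ⟪w, z - z'⟫ ≤ ⟪m, z - z'⟫ := hmax hw
  have h6 : s • w = (z - z') + s • m := by
    have : z' + s • w = z + s • m := hweq
    rw [eq_comm, ← sub_eq_iff_eq_add'] at this
    rw [← this]
    abel
  have h7 : s * ⟪w, z - z'⟫ = ‖z - z'‖ ^ 2 + s * ⟪m, z - z'⟫ := by
    rw [← real_inner_smul_left, h6, inner_add_left, real_inner_self_eq_norm_sq,
      real_inner_smul_left]
  have h8 : 0 < ‖z - z'‖ ^ 2 := by
    have : 0 < ‖z - z'‖ := norm_pos_iff.2 (sub_ne_zero.2 hne)
    positivity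
  have h9 : s * ⟪w, z - z'⟫ ≤ s * ⟪m, z - z'⟫ := mul_le_mul_of_nonneg_left h5 hs.le
  linarith

end sets

variable {E : Type*} [NormedAddCommGroup E] [InnerProductSpace ℝ E] [FiniteDimensional ℝ E]
  [MeasurableSpace E] [BorelSpace E]

theorem interRadial_map (T : E ≃ₗᵢ[ℝ] E) (i : ℝ) (L : Set E) (u : E) :
    interRadial i (T '' L) (T u) = interRadial i L u := by
  unfold interRadial
  rw [sphInt_map]
  simp only [radial_map]

theorem interBody_map (T : E ≃ₗᵢ[ℝ] E) (i : ℝ) (L : Set E) :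
    interBody i (T '' L) = T '' interBody i L := by
  ext x
  constructor
  · rintro ⟨u, hu, c, hc, hcu, rfl⟩
    refine ⟨c • T.symm u, ⟨T.symm u, ?_, c, hc, ?_, rfl⟩, ?_⟩
    · rw [LinearIsometryEquiv.norm_map, hu]
    · rwa [← interRadial_map T, T.apply_symm_apply]
    · rw [map_smul, T.apply_symm_apply]
  · rintro ⟨_, ⟨u, hu, c, hc, hcu, rfl⟩, rfl⟩
    refine ⟨T u, ?_, c, hc, ?_, map_smul T c u⟩
    · rw [LinearIsometryEquiv.norm_map, hu]
    · rwa [interRadial_map]

theorem SI_map (T : E ≃ₗᵢ[ℝ] E) (f : E → ℝ) : SI (fun v => f (T v)) = SI f := by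
  unfold SI
  rw [← (toSphere_map T).integral_comp (sphEquiv T).measurableEmbedding
    (fun v : sphere (0 : E) 1 => f v)]
  rfl

theorem interBody_smul {s : ℝ} (hs : 0 < s) (i : ℝ) {L : Set E}
    (hL : ∀ u : E, ‖u‖ = 1 → 0 ≤ radial L u) : interBody i (s • L) = (s ^ i) • interBody i L := by
  have hsi : 0 < s ^ i := Real.rpow_pos_of_pos hs i
  have hrad : ∀ u : E, interRadial i (s • L) u = s ^ i * interRadial i L u := by
    intro u
    unfold interRadial
    have h1 : sphInt (fun v => (radial (s • L) v) ^ i) u =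
        sphInt (fun v => s ^ i * (radial L v) ^ i) u := by
      apply sphInt_congr
      intro x hx
      rw [radial_smul_set hs, Real.mul_rpow hs.le (hL x hx)]
    rw [h1]
    have h2 : sphInt (fun v => s ^ i * (radial L v) ^ i) u =
        s ^ i * sphInt (fun v => (radial L v) ^ i) u := by
      unfold sphInt
      rw [integral_const_mul]
    rw [h2]
    ring
  ext x
  constructor
  · rintro ⟨u, hu, c, hc, hcu, rfl⟩
    rw [hrad] at hcu
    refine ⟨((s ^ i)⁻¹ * c) • u, ⟨u, hu, (s ^ i)⁻¹ * c, by positivity, ?_, rfl⟩, ?_⟩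
    · rw [inv_mul_le_iff₀ hsi]
      exact hcu
    · show s ^ i • (((s ^ i)⁻¹ * c) • u) = c • u
      rw [smul_smul, ← mul_assoc, mul_inv_cancel₀ hsi.ne', one_mul]
  · rintro ⟨_, ⟨u, hu, c, hc, hcu, rfl⟩, rfl⟩
    refine ⟨u, hu, s ^ i * c, by positivity, ?_, ?_⟩
    · rw [hrad]
      exact mul_le_mul_of_nonneg_left hcu hsi.le
    · show s ^ i • (c • u) = (s ^ i * c) • u
      rw [smul_smul]

end StarTr
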