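import Pool.Agent.StarTr.Final
import Pool.Agent.StarTr.UBody
import Pool.Agent.StarIB.Final2

set_option autoImplicit false

/-!
# StarTr, module UExist: existence of the normalised solutions close to the unit ball
-/

open MeasureTheory Set Metric Module
open scoped ENNReal RealInnerProductSpace

namespace StarTr

open StarIB

variable {E : Type*} [NormedAddCommGroup E] [InnerProductSpace ℝ E] [FiniteDimensional ℝ E]
  [MeasurableSpace E] [BorelSpace E]

theorem ext_continuous (f : C(Icc (-1 : ℝ) 1, ℝ)) : Continuous (ext f) :=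
  f.continuous.Icc_extend'

theorem ext_abs_le (f : C(Icc (-1 : ℝ) 1, ℝ)) (t : ℝ) : |ext f t| ≤ ‖f‖ := by
  unfold ext IccExtend
  exact f.norm_coe_le_norm _

theorem SI_one_pos {m : ℕ} (hE : finrank ℝ E = m + 1) : 0 < SI (fun _ : E => (1 : ℝ)) := by
  have hnt : Nontrivial E := Module.nontrivial_of_finrank_pos (R := ℝ) (by omega)
  unfold SI
  rw [integral_const, smul_eq_mul, mul_one, Measure.real]
  refine ENNReal.toReal_pos ?_ (measure_ne_top _ _)
  rw [Ne, Measure.measure_univ_eq_zero]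
  exact Measure.toSphere_ne_zero _

theorem zonal_int (e : E) (f : C(Icc (-1 : ℝ) 1, ℝ)) :
    Integrable (fun v : sphere (0 : E) 1 => ext f ⟪(v : E), e⟫) ((volume : Measure E).toSphere) := by
  apply Continuous.integrable_of_hasCompactSupport _ (HasCompactSupport.of_compactSpace _)
  exact (ext_continuous f).comp (continuous_subtype_val.inner continuous_const)

theorem SI_zonal_abs {m : ℕ} (hE : finrank ℝ E = m + 1) (e : E) (f : C(Icc (-1 : ℝ) 1, ℝ)) :
    |(SI (fun _ : E => (1 : ℝ)))⁻¹ * SI (fun u : E => ext f ⟪u, e⟫)| ≤ 1 * ‖f‖ := by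
  have hS := SI_one_pos (E := E) hE
  rw [abs_mul, abs_of_pos (inv_pos.2 hS), inv_mul_le_iff₀ hS, one_mul]
  unfold SI
  refine (abs_integral_le_integral_abs).trans ?_
  rw [← integral_mul_const]
  refine integral_mono (zonal_int e f).abs (integrable_const _) fun v => ?_
  simp only [one_mul]
  exact ext_abs_le f _

/-- the mean over the sphere of a zonal function -/
noncomputable def meanF {m : ℕ} (hE : finrank ℝ E = m + 1) (e : E) :
    C(Icc (-1 : ℝ) 1, ℝ) →L[ℝ] ℝ :=
  LinearMap.mkContinuous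
    { toFun := fun f => (SI (fun _ : E => (1 : ℝ)))⁻¹ * SI (fun u : E => ext f ⟪u, e⟫)
      map_add' := by
        intro f g
        have h1 : SI (fun u : E => ext (f + g) ⟪u, e⟫) =
            SI (fun u : E => ext f ⟪u, e⟫) + SI (fun u : E => ext g ⟪u, e⟫) := by
          unfold SI
          rw [← integral_add (zonal_int e f) (zonal_int e g)]
          rfl
        rw [h1, mul_add]
      map_smul' := by
        intro s f
        have h1 : SI (fun u : E => ext (s • f) ⟪u, e⟫) = s * SI (fun u : E => ext f ⟪u, e⟫) := by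
          unfold SI
          rw [← integral_const_mul]
          rfl
        rw [h1]
        simp only [RingHom.id_apply, smul_eq_mul]
        ring } 1 (fun f => SI_zonal_abs hE e f)

theorem meanF_apply {m : ℕ} (hE : finrank ℝ E = m + 1) (e : E) (f : C(Icc (-1 : ℝ) 1, ℝ)) :
    meanF hE e f = (SI (fun _ : E => (1 : ℝ)))⁻¹ * SI (fun u : E => ext f ⟪u, e⟫) := rfl

theorem meanF_one {m : ℕ} (hE : finrank ℝ E = m + 1) (e : E) : meanF hE e 1 = 1 := by
  rw [meanF_apply]
  have h1 : SI (fun u : E => ext 1 ⟪u, e⟫) = SI (fun _ : E => (1 : ℝ)) := rfl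
  rw [h1, inv_mul_cancel₀ (SI_one_pos (E := E) hE).ne']

theorem meanF_abs {m : ℕ} (hE : finrank ℝ E = m + 1) (e : E) (f : C(Icc (-1 : ℝ) 1, ℝ)) :
    |meanF hE e f| ≤ ‖f‖ := by
  have h := SI_zonal_abs hE e f
  rw [one_mul] at h
  exact h

theorem SI_congr' {f g : E → ℝ} (h : ∀ u : E, ‖u‖ = 1 → f u = g u) : SI f = SI g := by
  unfold SI
  congr 1
  ext v
  have hv : ‖(v : E)‖ = 1 := by
    have := v.2
    rwa [mem_sphere_zero_iff_norm] at this
  exact h _ hv

/-- existence of the normalised solutions with a genuine translation -/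
theorem exists_near {m : ℕ} [NeZero m] (hm : 2 ≤ m) (hE : finrank ℝ E = m + 1) {i : ℝ}
    (hi : 1 ≤ i) (him : i < m) : ∃ a₀ : ℝ, 0 < a₀ ∧ a₀ ≤ 1 / 100 ∧
    ∀ (a : ℝ) (e : E), 0 < a → a ≤ a₀ → ‖e‖ = 1 → ∃ L : Set E, NearSol i (2 * a) (a • e) L ∧
      (∀ u : E, ‖u‖ = 1 → |radial L u - 1| ≤ 2 * a) ∧
      (∀ u v : E, ‖u‖ = 1 → ‖v‖ = 1 → |radial L u - radial L v| ≤ 10 * a * ‖u - v‖) ∧
      (∃ y ∈ L, -y ∉ L) ∧ ∀ (z : E) (ρ : ℝ), L ≠ closedBall z ρ := by
  have hnt : Nontrivial E := Module.nontrivial_of_finrank_pos (R := ℝ) (by omega)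
  have hν := nuS_slaw hm
  obtain ⟨p, hp1, hp2, a₀, ha₀, ha₀1, H⟩ := exists_fix hm hν hi him
  refine ⟨a₀, ha₀, ha₀1, fun a e ha haa he => ?_⟩
  have ha1 : a ≤ 1 / 100 := by linarith
  have hS := SI_one_pos (E := E) hE
  obtain ⟨f, c, C, hf1, hC, hκ, hc, hroot, hfix⟩ := H (meanF hE e) (meanF_one hE e)
    (meanF_abs hE e) a ha haa
  have hmean : SI (fun u : E => ext f ⟪u, e⟫) = SI (fun _ : E => (1 : ℝ)) := by
    rw [meanF_apply, inv_mul_eq_div, div_eq_one_iff_eq hS.ne'] at hf1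
    exact hf1
  have hnorm : ∀ ρ : ℝ, (∀ t : ℝ, |t| ≤ 1 → ext f t = ρ) → ρ = 1 := by
    intro ρ hρ
    have h1 : SI (fun u : E => ext f ⟪u, e⟫) = SI (fun _ : E => ρ * (1 : ℝ)) := by
      apply SI_congr'
      intro u hu
      rw [hρ _ (abs_inner_le_one hu he), mul_one]
    have h2 : SI (fun _ : E => ρ * (1 : ℝ)) = ρ * SI (fun _ : E => (1 : ℝ)) := by
      unfold SI
      rw [integral_const_mul]
    rw [h1, h2] at hmean
    have h3 : (ρ - 1) * SI (fun _ : E => (1 : ℝ)) = 0 := by linarith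
    rcases mul_eq_zero.1 h3 with h4 | h4
    · linarith
    · exact absurd h4 hS.ne'
  obtain ⟨h1, ⟨r, hr, h2⟩, h3, h4, h5, h6⟩ := fix_body hm hE hi hp1 hp2 ha ha1 hC hκ hc hroot hfix
    hnorm he
  have hk0 : ∀ u : E, ‖u‖ = 1 → 0 ≤ ext f ⟪u, e⟫ := by
    intro u hu
    have := hκ.abs_sub_one (by linarith) ha.le (abs_inner_le_one hu he)
    have := (abs_le.1 this).1
    linarith
  have hc0 : ∀ u : E, ‖u‖ = 1 → 0 ≤ c ⟪u, e⟫ := fun u hu =>
    (hroot _ (abs_inner_le_one hu he)).1.le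
  have hrM : ∀ u : E, ‖u‖ = 1 → radial ((fun y => a • e + y) ''
      starSet (fun u : E => c ⟪u, e⟫)) u = ext f ⟪u, e⟫ := by
    intro u hu
    rw [h6, radial_starSet' hk0 hu]
  have hinner : ∀ u v : E, |(⟪u, e⟫ : ℝ) - ⟪v, e⟫| ≤ ‖u - v‖ := by
    intro u v
    rw [← inner_sub_left]
    have := abs_real_inner_le_norm (u - v) e
    rwa [he, mul_one] at this
  refine ⟨starSet (fun u : E => c ⟪u, e⟫), ⟨h1, ⟨r, hr, ?_⟩, ?_, ?_, ?_⟩, ?_, ?_, h4, h5⟩
  · rw [h2]
    apply image_congr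
    intro y _
    rw [smul_add]
  · intro u hu
    rw [hrM u hu]
    have := hκ.abs_sub_one (by linarith) ha.le (abs_inner_le_one hu he)
    linarith
  · intro u v hu hv
    rw [hrM u hu, hrM v hv]
    have e1 := hκ.2 ⟪u, e⟫ ⟪v, e⟫ (abs_inner_le_one hu he) (abs_inner_le_one hv he)
    have e2 := abs_rpow_sub (p := p) (M := 1) hp1.le (abs_inner_le_one hu he)
      (abs_inner_le_one hv he)
    rw [Real.one_rpow, mul_one] at e2
    have e3 := hinner u v
    have e4 : p * |(⟪u, e⟫ : ℝ) - ⟪v, e⟫| ≤ 2 * ‖u - v‖ :=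
      mul_le_mul hp2.le e3 (abs_nonneg _) (by norm_num)
    calc |ext f ⟪u, e⟫ - ext f ⟪v, e⟫| ≤ a * |(|(⟪u, e⟫ : ℝ)| ^ p - |(⟪v, e⟫ : ℝ)| ^ p)| := e1
      _ ≤ a * (2 * ‖u - v‖) := mul_le_mul_of_nonneg_left (e2.trans e4) ha.le
      _ = 2 * a * ‖u - v‖ := by ring
  · rw [← hmean]
    exact SI_congr' hrM
  · intro u hu
    rw [radial_starSet' hc0 hu]
    exact (root_bounds hp1.le hp2.le ha ha1 hκ (abs_inner_le_one hu he)
      (hroot _ (abs_inner_le_one hu he))).1
  · intro u v hu hv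
    rw [radial_starSet' hc0 hu, radial_starSet' hc0 hv]
    have e1 := root_lip hp1.le hp2.le ha ha1 hκ (abs_inner_le_one hu he)
      (hroot _ (abs_inner_le_one hu he)) (abs_inner_le_one hv he)
      (hroot _ (abs_inner_le_one hv he))
    refine e1.trans ?_
    exact mul_le_mul_of_nonneg_left (hinner u v) (by positivity)

/-- the unit ball is the normalised solution without translation -/
theorem near_ball {m : ℕ} (hm : 2 ≤ m) (hE : finrank ℝ E = m + 1) {i : ℝ}
    {η : ℝ} (hη : 0 ≤ η) : NearSol i η (0 : E) (closedBall 0 1) := by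
  have hnt : Nontrivial E := Module.nontrivial_of_finrank_pos (R := ℝ) (by omega)
  have him : (fun y : E => (0 : E) + y) '' closedBall (0 : E) 1 = closedBall 0 1 := by
    simp
  have hrad : ∀ u : E, ‖u‖ = 1 → radial (closedBall (0 : E) 1) u = 1 := fun u hu =>
    radial_ball zero_le_one hu
  obtain ⟨k, hk, hk'⟩ := exists_const (E := E) (by omega) i
  have h2 : interBody i (interBody i (closedBall (0 : E) 1)) =
      closedBall 0 (k * (k * 1 ^ i) ^ i) := by
    rw [hk' 1 zero_le_one, hk' _ (by positivity)]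
  refine ⟨⟨isCompact_closedBall _ _, by simp, ?_, ?_⟩, ⟨k * (k * 1 ^ i) ^ i, by positivity, ?_⟩, ?_,
    ?_, ?_⟩
  · intro x hx t ht0 ht1
    rw [mem_closedBall_zero_iff] at hx ⊢
    rw [norm_smul, Real.norm_eq_abs, abs_of_nonneg ht0]
    have := norm_nonneg x
    nlinarith
  · apply continuousOn_const.congr
    intro u hu
    rw [mem_sphere_zero_iff_norm] at hu
    exact hrad u hu
  · rw [h2]
    have h3 : (fun y : E => (k * (k * 1 ^ i) ^ i) • ((0 : E) + y)) '' closedBall (0 : E) 1 =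
        (fun y : E => (k * (k * 1 ^ i) ^ i) • y) '' closedBall (0 : E) 1 := by
      apply image_congr
      intro y _
      rw [zero_add]
    rw [h3]
    have hpos : 0 < k * (k * 1 ^ i) ^ i := by positivity
    ext x
    rw [mem_closedBall_zero_iff]
    constructor
    · intro hx
      refine ⟨(k * (k * 1 ^ i) ^ i)⁻¹ • x, ?_, ?_⟩
      · rw [mem_closedBall_zero_iff, norm_smul, norm_inv, Real.norm_eq_abs, abs_of_pos hpos,
          inv_mul_le_iff₀ hpos, mul_one]
        exact hx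
      · simp only
        rw [smul_smul, mul_inv_cancel₀ hpos.ne', one_smul]
    · rintro ⟨y, hy, rfl⟩
      rw [mem_closedBall_zero_iff] at hy
      rw [norm_smul, Real.norm_eq_abs, abs_of_pos hpos]
      nlinarith
  · intro u hu
    rw [him, hrad u hu, sub_self, abs_zero]
    exact hη
  · intro u v hu hv
    rw [him, hrad u hu, hrad v hv, sub_self, abs_zero]
    positivity
  · rw [him]
    exact SI_congr' hrad

theorem NearSol.mono {i η η' : ℝ} {x : E} {L : Set E} (h : NearSol i η x L) (hη : η ≤ η') :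
    NearSol i η' x L :=
  ⟨h.star, h.eq, fun u hu => (h.near u hu).trans hη, fun u v hu hv =>
    (h.lip u v hu hv).trans (mul_le_mul_of_nonneg_right hη (norm_nonneg _)), h.mean⟩

end StarTr
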