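import Pool.Agent.StarTr.USymm
import Pool.Agent.StarTr.Pow
import Pool.Agent.StarTr.Pow2
import Pool.Agent.StarIB.Bodies

set_option autoImplicit false

/-!
# StarTr, module ULipA: Lipschitz bounds for the spherical Radon transform

* `RR_lip`: if `‖u - v‖ ≤ 1` take the rotation `g`, `g u = v`, `‖g w - w‖ ≤ 8 ‖u - v‖ ‖w‖` (`StarIB.exists_rot`), `RR m f v = RR m (f ∘ g) u`
  (`StarIB.sphInt_map`) and `RR_add`/`RR_abs`.  If `‖u - v‖ ≥ 1`: `|f - f u| ≤ 2 Λ` on the sphere, so `RR m f` has oscillation at most `4 Λ`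
  (`RR_abs`).
* `JJ_est`: `A = c^i`: `|A - 1| ≤ C ε`, Lipschitz constant `C ε` (`rpow_lip`, `one_add_rpow`, or `rpow_lip` with `η = 1/2`), then `B = RR A`
  (`RR_abs`, `RR_lip`), `B ^ i` in the same way (`B ∈ [1/2, 3/2]` by `RR_abs` with `b = 1`, `c ∈ [1/2, 3/2]`-type bounds: note that `RR_abs` gives
  `min A ≤ B ≤ max A`, so `B` is in `[(1/2)^i, (3/2)^i]` and `rpow_lip` with `η = (3/2)^i` applies), and `RR (B ^ i)`.
-/

open MeasureTheory Set Metric Module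
open scoped ENNReal RealInnerProductSpace

namespace StarTr

variable {E : Type*} [NormedAddCommGroup E] [InnerProductSpace ℝ E] [FiniteDimensional ℝ E]
  [MeasurableSpace E] [BorelSpace E]

theorem RR_lip {m : ℕ} [NeZero m] (hm : 2 ≤ m) (hE : finrank ℝ E = m + 1) {f : E → ℝ}
    (hf : ContinuousOn f {x : E | x ≠ 0}) {Λ : ℝ} (hΛ : 0 ≤ Λ)
    (h : ∀ u v : E, ‖u‖ = 1 → ‖v‖ = 1 → |f u - f v| ≤ Λ * ‖u - v‖) {u v : E} (hu : ‖u‖ = 1)
    (hv : ‖v‖ = 1) : |RR m f u - RR m f v| ≤ 8 * Λ * ‖u - v‖ := by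
  have hu0 : u ≠ 0 := by
    intro h0
    rw [h0, norm_zero] at hu
    exact zero_ne_one hu
  have hv0 : v ≠ 0 := by
    intro h0
    rw [h0, norm_zero] at hv
    exact zero_ne_one hv
  rcases le_or_gt (‖u - v‖) 1 with huv | huv
  · obtain ⟨g, hg, hg'⟩ := StarIB.exists_rot hu hv huv
    have hfg : ContinuousOn (fun z => f (g z)) {x : E | x ≠ 0} :=
      hf.comp g.continuous.continuousOn (fun z hz => by simpa using hz)
    have e1 : RR m f v = RR m (fun z => f (g z)) u := by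
      rw [RR, RR, ← hg, StarIB.sphInt_map]
    have e2 : RR m f u - RR m f v = RR m (fun x => 1 * f x + (-1) * f (g x)) u := by
      rw [RR_add hf hfg, e1]
      ring
    have hc : ContinuousOn (fun x => 1 * f x + (-1) * f (g x)) {x : E | x ≠ 0} :=
      (continuousOn_const.mul hf).add (continuousOn_const.mul hfg)
    have h3 := RR_abs hm hE hc (b := 0) (ε := 8 * Λ * ‖u - v‖) (by
      intro x hx
      have h4 := h x (g x) hx (by rw [LinearIsometryEquiv.norm_map, hx])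
      have h5 := hg' x
      rw [hx, mul_one, norm_sub_rev] at h5
      have h6 : 1 * f x + (-1) * f (g x) - 0 = f x - f (g x) := by ring
      rw [h6]
      refine h4.trans ?_
      calc Λ * ‖x - g x‖ ≤ Λ * (8 * ‖u - v‖) := mul_le_mul_of_nonneg_left h5 hΛ
        _ = _ := by ring) hu0
    rw [e2]
    simpa using h3
  · have h1 : ∀ x : E, ‖x‖ = 1 → |f x - f u| ≤ 2 * Λ := by
      intro x hx
      refine (h x u hx hu).trans ?_
      have h2 : ‖x - u‖ ≤ 2 := by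
        refine (norm_sub_le _ _).trans ?_
        rw [hx, hu]
        norm_num
      nlinarith
    have h2 := RR_abs hm hE hf h1 hu0
    have h3 := RR_abs hm hE hf h1 hv0
    rw [abs_le] at h2 h3 ⊢
    have h4 : 4 * Λ ≤ 8 * Λ * ‖u - v‖ := by nlinarith
    constructor <;> linarith [h2.1, h2.2, h3.1, h3.2]

theorem JJ_est {m : ℕ} [NeZero m] (hm : 2 ≤ m) (hE : finrank ℝ E = m + 1) {i : ℝ} (hi : 1 ≤ i) :
    ∃ C : ℝ, 1 ≤ C ∧ ∀ (ε : ℝ) (c : E → ℝ), 0 < ε → ε ≤ 1 / 2 → ContinuousOn c {x : E | x ≠ 0} →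
      (∀ u : E, ‖u‖ = 1 → |c u - 1| ≤ ε) →
      (∀ u v : E, ‖u‖ = 1 → ‖v‖ = 1 → |c u - c v| ≤ ε * ‖u - v‖) →
      (∀ u : E, ‖u‖ = 1 → |RR m (fun v => (RR m (fun w => (c w) ^ i) v) ^ i) u - 1| ≤ C * ε) ∧
      (∀ u v : E, ‖u‖ = 1 → ‖v‖ = 1 → |RR m (fun v => (RR m (fun w => (c w) ^ i) v) ^ i) u -
        RR m (fun v => (RR m (fun w => (c w) ^ i) v) ^ i) v| ≤ C * ε * ‖u - v‖) := by
  obtain ⟨C0, hC0, hlip⟩ := Pow2Aux.lip i
  have hi0 : 0 ≤ i := by linarith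
  set P : ℝ := (3 / 2 : ℝ) ^ i with hP
  have hP1 : 1 ≤ P := Real.one_le_rpow (by norm_num) hi0
  have hQ : 0 < (1 / 2 : ℝ) ^ i := Real.rpow_pos_of_pos (by norm_num) i
  have hQP : (1 / 2 : ℝ) ^ i ≤ P := Real.rpow_le_rpow (by norm_num) (by norm_num) hi0
  set K : ℝ := i * P ^ (i - 1) with hK
  have hK0 : 0 ≤ K := mul_nonneg hi0 (Real.rpow_nonneg (by linarith) _)
  refine ⟨1 + 64 * (K * C0), by have := mul_nonneg hK0 hC0; linarith, ?_⟩
  intro ε c hε hε2 hc hc1 hcl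
  have hrange : ∀ u : E, ‖u‖ = 1 → 1 / 2 ≤ c u ∧ c u ≤ 3 / 2 := by
    intro u hu
    have h1 := hc1 u hu
    rw [abs_le] at h1
    constructor <;> linarith [h1.1, h1.2]
  set A : E → ℝ := fun w => (c w) ^ i with hA
  have hAc : ContinuousOn A {x : E | x ≠ 0} := hc.rpow_const (fun x _ => Or.inr hi0)
  have hA1 : ∀ u : E, ‖u‖ = 1 → |A u - 1| ≤ C0 * ε := by
    intro u hu
    obtain ⟨h1, h2⟩ := hrange u hu
    have h3 := hlip (c u) 1 h1 (by linarith) (by norm_num) (by norm_num)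
    rw [Real.one_rpow] at h3
    exact h3.trans (mul_le_mul_of_nonneg_left (hc1 u hu) hC0)
  have hAl : ∀ u v : E, ‖u‖ = 1 → ‖v‖ = 1 → |A u - A v| ≤ (C0 * ε) * ‖u - v‖ := by
    intro u v hu hv
    obtain ⟨h1, h2⟩ := hrange u hu
    obtain ⟨h3, h4⟩ := hrange v hv
    refine (hlip (c u) (c v) h1 (by linarith) h3 (by linarith)).trans ?_
    calc C0 * |c u - c v| ≤ C0 * (ε * ‖u - v‖) := mul_le_mul_of_nonneg_left (hcl u v hu hv) hC0
      _ = _ := by ring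
  set B : E → ℝ := fun v => RR m A v with hB
  have hne : ∀ u : E, ‖u‖ = 1 → u ≠ 0 := by
    intro u hu h0
    rw [h0, norm_zero] at hu
    exact zero_ne_one hu
  have hBc : ContinuousOn B {x : E | x ≠ 0} :=
    continuousOn_const.mul (StarIB.continuousOn_sphInt hAc)
  have hB1 : ∀ u : E, ‖u‖ = 1 → |B u - 1| ≤ C0 * ε := fun u hu => RR_abs hm hE hAc hA1 (hne u hu)
  have hBl : ∀ u v : E, ‖u‖ = 1 → ‖v‖ = 1 → |B u - B v| ≤ 8 * (C0 * ε) * ‖u - v‖ := by
    intro u v hu hv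
    exact RR_lip hm hE hAc (mul_nonneg hC0 hε.le) hAl hu hv
  have hBr : ∀ u : E, ‖u‖ = 1 → 0 < B u ∧ B u ≤ P := by
    intro u hu
    have h1 := RR_abs hm hE hAc (b := ((1 / 2 : ℝ) ^ i + P) / 2) (ε := (P - (1 / 2 : ℝ) ^ i) / 2) (by
      intro x hx
      obtain ⟨h2, h3⟩ := hrange x hx
      have h4 : (1 / 2 : ℝ) ^ i ≤ A x := Real.rpow_le_rpow (by norm_num) h2 hi0
      have h5 : A x ≤ P := Real.rpow_le_rpow (by linarith) h3 hi0
      rw [abs_le]
      constructor <;> linarith) (hne u hu)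
    rw [abs_le] at h1
    have e : B u = RR m A u := rfl
    constructor <;> linarith [h1.1, h1.2]
  set D : E → ℝ := fun v => (B v) ^ i with hD
  have hDc : ContinuousOn D {x : E | x ≠ 0} := hBc.rpow_const (fun x _ => Or.inr hi0)
  have hpow : ∀ x y : ℝ, 0 < x → x ≤ P → 0 < y → y ≤ P → |x ^ i - y ^ i| ≤ K * |x - y| := by
    intro x y hx hx1 hy hy1
    have h1 := rpow_lip (i := i) (η := P - 1) hi (by linarith) hx (by linarith) hy (by linarith)
    have e : 1 + (P - 1) = P := by ring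
    rw [e] at h1
    exact h1
  have hD1 : ∀ u : E, ‖u‖ = 1 → |D u - 1| ≤ K * (C0 * ε) := by
    intro u hu
    obtain ⟨h1, h2⟩ := hBr u hu
    have h3 := hpow (B u) 1 h1 h2 one_pos hP1
    rw [Real.one_rpow] at h3
    exact h3.trans (mul_le_mul_of_nonneg_left (hB1 u hu) hK0)
  have hDl : ∀ u v : E, ‖u‖ = 1 → ‖v‖ = 1 → |D u - D v| ≤ (8 * (K * (C0 * ε))) * ‖u - v‖ := by
    intro u v hu hv
    obtain ⟨h1, h2⟩ := hBr u hu
    obtain ⟨h3, h4⟩ := hBr v hv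
    refine (hpow (B u) (B v) h1 h2 h3 h4).trans ?_
    calc K * |B u - B v| ≤ K * (8 * (C0 * ε) * ‖u - v‖) := mul_le_mul_of_nonneg_left (hBl u v hu hv) hK0
      _ = _ := by ring
  have hKC : 0 ≤ K * (C0 * ε) := mul_nonneg hK0 (mul_nonneg hC0 hε.le)
  refine ⟨?_, ?_⟩
  · intro u hu
    refine (RR_abs hm hE hDc hD1 (hne u hu)).trans ?_
    nlinarith
  · intro u v hu hv
    have h1 := RR_lip hm hE hDc (by linarith) hDl hu hv
    refine h1.trans ?_
    have h2 : 0 ≤ ‖u - v‖ := norm_nonneg _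
    have h3 : 8 * (8 * (K * (C0 * ε))) ≤ (1 + 64 * (K * C0)) * ε := by nlinarith
    exact mul_le_mul_of_nonneg_right h3 h2

end StarTr
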