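import Pool.Agent.StarIB.Bodies

set_option autoImplicit false

/-!
# StarTr, module ULipB: a star body close to the unit ball, with a centred translate

`M = y + L`.  `L` contains all vectors of norm at most `1 - ε`, and all elements of `L` have norm at most `1 + ε` (`StarIB.mem_iff_radial`).
* `‖y‖ ≤ ε`: if `y ≠ 0` let `u = y/‖y‖`; `y + (1-ε) u ∈ M`, hence `-(y + (1-ε) u) ∈ M`, i.e. `-(2 y + (1-ε) u) ∈ L`, of norm `2 ‖y‖ + 1 - ε ≤ 1 + ε`.
* for a unit vector `u` and `c ≥ 0`: `c u ∈ M` implies `‖c u - y‖ ≤ 1 + ε`, so `c ≤ 1 + 2 ε`; and `(1 - 2 ε) u - y` has norm at most `1 - ε`, so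
  `(1 - 2 ε) u ∈ M`.  `radial M u = sSup {c | 0 ≤ c ∧ c • u ∈ M}`.
-/

open MeasureTheory Set Metric Module
open scoped ENNReal RealInnerProductSpace

namespace StarTr

open StarIB

variable {E : Type*} [NormedAddCommGroup E] [InnerProductSpace ℝ E]

theorem shift_small {ε : ℝ} (hε : 0 < ε) (hε1 : ε ≤ 1 / 4) {L : Set E} (hL : IsStarBody L)
    (hn : ∀ u : E, ‖u‖ = 1 → |radial L u - 1| ≤ ε) {y : E}
    (hsym : ∀ z ∈ (fun w => y + w) '' L, -z ∈ (fun w => y + w) '' L) :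
    ‖y‖ ≤ ε ∧ ∀ u : E, ‖u‖ = 1 → |radial ((fun w => y + w) '' L) u - 1| ≤ 2 * ε := by
  have hdir : ∀ w : E, w ≠ 0 → ‖‖w‖⁻¹ • w‖ = 1 ∧ ‖w‖ • (‖w‖⁻¹ • w) = w := by
    intro w hw
    have hw' : 0 < ‖w‖ := norm_pos_iff.2 hw
    constructor
    · rw [norm_smul, norm_inv, norm_norm, inv_mul_cancel₀ hw'.ne']
    · rw [smul_smul, mul_inv_cancel₀ hw'.ne', one_smul]
  have hin : ∀ w : E, ‖w‖ ≤ 1 - ε → w ∈ L := by
    intro w hw
    by_cases h0 : w = 0
    · rw [h0]
      exact hL.zero_mem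
    · obtain ⟨h1, h2⟩ := hdir w h0
      have h3 := abs_le.1 (hn _ h1)
      have h4 : ‖w‖⁻¹ • w ≠ 0 := by
        rw [← norm_pos_iff, h1]
        exact one_pos
      rw [← h2, mem_iff_radial hL h4 (norm_nonneg _)]
      linarith [h3.1]
  have hout : ∀ w ∈ L, ‖w‖ ≤ 1 + ε := by
    intro w hw
    by_cases h0 : w = 0
    · rw [h0, norm_zero]
      linarith
    · obtain ⟨h1, h2⟩ := hdir w h0
      have h3 := abs_le.1 (hn _ h1)
      have h4 : ‖w‖⁻¹ • w ≠ 0 := by
        rw [← norm_pos_iff, h1]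
        exact one_pos
      rw [← h2, mem_iff_radial hL h4 (norm_nonneg _)] at hw
      linarith [h3.2]
  have hy : ‖y‖ ≤ ε := by
    by_cases h0 : y = 0
    · rw [h0, norm_zero]
      exact hε.le
    · obtain ⟨h1, h2⟩ := hdir y h0
      set u : E := ‖y‖⁻¹ • y with hu
      have h3 : (1 - ε) • u ∈ L := by
        apply hin
        rw [norm_smul, h1, mul_one, Real.norm_of_nonneg (by linarith)]
      obtain ⟨w, hw, hw2⟩ := hsym _ ⟨_, h3, rfl⟩
      simp only at hw2
      have h4 : w = -((2 * ‖y‖ + (1 - ε)) • u) := by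
        have h5 : w = -(y + (1 - ε) • u) - y := by
          rw [← hw2]
          abel
        rw [h5]
        conv_lhs => rw [← h2]
        rw [add_smul, mul_smul, two_smul]
        abel
      have h6 := hout w hw
      rw [h4, norm_neg, norm_smul, h1, mul_one,
        Real.norm_of_nonneg (by have := norm_nonneg y; linarith)] at h6
      linarith
  refine ⟨hy, fun u hu => ?_⟩
  unfold radial
  set A : Set ℝ := {c : ℝ | 0 ≤ c ∧ c • u ∈ (fun w => y + w) '' L} with hA
  have hub : ∀ c ∈ A, c ≤ 1 + 2 * ε := by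
    rintro c ⟨hc, w, hw, hw2⟩
    simp only at hw2
    have h1 : ‖c • u‖ ≤ ‖y‖ + ‖w‖ := by
      rw [← hw2]
      exact norm_add_le _ _
    rw [norm_smul, hu, mul_one, Real.norm_of_nonneg hc] at h1
    have := hout w hw
    linarith
  have hmem : 1 - 2 * ε ∈ A := by
    refine ⟨by linarith, (1 - 2 * ε) • u - y, ?_, ?_⟩
    · apply hin
      have h1 := norm_sub_le ((1 - 2 * ε) • u) y
      rw [norm_smul, hu, mul_one, Real.norm_of_nonneg (by linarith)] at h1
      linarith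
    · simp only
      abel
  have h1 : sSup A ≤ 1 + 2 * ε := csSup_le ⟨_, hmem⟩ hub
  have h2 : 1 - 2 * ε ≤ sSup A := le_csSup ⟨_, hub⟩ hmem
  rw [abs_le]
  constructor <;> linarith

end StarTr
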