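import Pool.Agent.StarTr.UBody
import Pool.Agent.StarTr.UEquiv
import Pool.Agent.StarTr.ULipA
import Pool.Agent.StarTr.ULipB

set_option autoImplicit false

/-!
# StarTr, module ULipC: a star body close to the unit ball which is homothetic to `I_i² L` is, after a dilatation, a `NearSol`

Put `y₁ = r⁻¹ z`, `M = y₁ + L`, so `I_i² L = r M = starSet J`, `J u = interRadial i (interBody i L) u = b b^i RR((RR c^i)^i) u`
(`interRadial_two`, `b = m⁻¹ massS m`, `c = hom0 (radial L)`), and `radial M u = J u / r` on the unit sphere (see the proof of `NearSol.data` in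
UBody.lean).  `I_i² L` is symmetric (`StarIB.interBody_neg` is in StarIB/Final2, `interBody_neg'` in StarTr/Body), hence `M` is.
* `shift_small`: `‖y₁‖ ≤ ε`, `|radial M u - 1| ≤ 2 ε`.
* `JJ_est`: `|J u / (b b^i) - 1| ≤ C ε`, and `J / (b b^i)` has Lipschitz constant `C ε`; with `radial M u = J u / r ∈ [1/2, 3/2]` this gives
  `r ≥ b b^i / 4` or so, and `radial M` has Lipschitz constant `C' ε`.
* `μ = SI (radial M) / SI 1 ∈ [1 - 2 ε, 1 + 2 ε]` (`SI_integrable`; `radial M = J / r` is continuous), `s = μ⁻¹`.  `s • L` is a star body,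
  `I_i² (s • L) = (s^i)^i • I_i² L = (s^i)^i • (r • (y₁ + L)) = ((s^i)^i r s⁻¹) • (s y₁ + s • L)` (`interBody_smul` twice), and
  `s y₁ + s • L = s • M` has radial function `s radial M` (`radial_smul_set`), with mean `1`, `|s k - 1| ≤ C' ε`, Lipschitz constant `≤ C' ε`.
-/

open MeasureTheory Set Metric Module
open scoped ENNReal RealInnerProductSpace Pointwise

namespace StarTr

open StarIB

variable {E : Type*} [NormedAddCommGroup E] [InnerProductSpace ℝ E] [FiniteDimensional ℝ E]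
  [MeasurableSpace E] [BorelSpace E]

theorem SIc_congr {f g : E → ℝ} (h : ∀ u : E, ‖u‖ = 1 → f u = g u) : SI f = SI g := by
  unfold SI
  refine integral_congr_ae (Filter.Eventually.of_forall fun v => ?_)
  exact h _ (mem_sphere_zero_iff_norm.1 v.2)

theorem SIc_pos {m : ℕ} (hE : finrank ℝ E = m + 1) : 0 < SI (fun _ : E => (1 : ℝ)) := by
  have hnt : Nontrivial E := Module.nontrivial_of_finrank_pos (R := ℝ) (by omega)
  unfold SI
  rw [integral_const, smul_eq_mul, mul_one, Measure.real]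
  refine ENNReal.toReal_pos ?_ (measure_ne_top _ _)
  rw [Ne, Measure.measure_univ_eq_zero]
  exact Measure.toSphere_ne_zero _

theorem SIc_abs {f : E → ℝ} (hf : ContinuousOn f {x : E | x ≠ 0}) {δ : ℝ}
    (h : ∀ u : E, ‖u‖ = 1 → |f u - 1| ≤ δ) :
    |SI f - SI (fun _ : E => (1 : ℝ))| ≤ δ * SI (fun _ : E => (1 : ℝ)) := by
  have h1 := SI_integrable hf
  have h2 : Integrable (fun _ : sphere (0 : E) 1 => (1 : ℝ)) ((volume : Measure E).toSphere) :=
    integrable_const _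
  unfold SI
  rw [← integral_sub h1 h2, ← integral_const_mul]
  refine (abs_integral_le_integral_abs).trans ?_
  refine integral_mono (h1.sub h2).abs (h2.const_mul δ) fun v => ?_
  simp only [mul_one]
  exact h _ (mem_sphere_zero_iff_norm.1 v.2)

/-- the translate `M = y + L` is symmetric, and its radial function -/
theorem transl_data {m : ℕ} [NeZero m] (hm : 2 ≤ m) (hE : finrank ℝ E = m + 1) {i : ℝ}
    (hi : 1 ≤ i) {L : Set E} (hL : IsStarBody L) {x : E} {r : ℝ} (hr : 0 < r)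
    (heq : interBody i (interBody i L) = (fun y => r • (x + y)) '' L) :
    (∀ z ∈ (fun w => x + w) '' L, -z ∈ (fun w => x + w) '' L) ∧
    ∀ u : E, ‖u‖ = 1 → radial ((fun w => x + w) '' L) u =
      (((m : ℝ)⁻¹ * massS m) * ((m : ℝ)⁻¹ * massS m) ^ i / r) *
      RR m (fun v => (RR m (fun w => (hom0 (radial L) w) ^ i) v) ^ i) u := by
  have hrad0 : ∀ x : E, ‖x‖ = 1 → 0 ≤ radial L x := fun x hx =>
    (radial_set hL (ne_zero_of_unit' hx)).1
  have hI0 : ∀ x : E, ‖x‖ = 1 → 0 ≤ radial (interBody i L) x := by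
    intro y hy
    rw [radial_interBody i hrad0 (by omega) hy]
    exact interRadial_nonneg i hrad0 (by omega) y
  obtain ⟨J, hJ⟩ : ∃ J : E → ℝ, J = interRadial i (interBody i L) := ⟨_, rfl⟩
  have hJ0 : ∀ u : E, 0 ≤ J u := fun u => by
    rw [hJ]; exact interRadial_nonneg i hI0 (by omega) u
  have hMmem : ∀ y : E, y ∈ (fun w => x + w) '' L ↔ y - x ∈ L := by
    intro y
    constructor
    · rintro ⟨z, hz, rfl⟩
      simpa using hz
    · intro hy
      exact ⟨y - x, hy, by simp⟩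
  have hMr' : ∀ y : E, y ∈ (fun w => x + w) '' L ↔ r • y ∈ interBody i (interBody i L) := by
    intro y
    rw [heq, hMmem]
    constructor
    · intro hy
      refine ⟨y - x, hy, ?_⟩
      simp only
      rw [add_sub_cancel]
    · rintro ⟨z, hz, he⟩
      have h2 : x + z = y := smul_right_injective E hr.ne' he
      rw [← h2]
      simpa using hz
  have hMr : ∀ y : E, y ∈ (fun w => x + w) '' L ↔ r • y ∈ starSet J := by
    intro y
    have h1 : interBody i (interBody i L) = starSet J := by rw [hJ]; rfl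
    rw [← h1]
    exact hMr' y
  refine ⟨?_, ?_⟩
  · intro z hz
    rw [hMr'] at hz ⊢
    rw [smul_neg]
    exact interBody_neg' i _ hz
  · intro u hu
    have hMu : ∀ s : ℝ, 0 ≤ s → (s • u ∈ (fun w => x + w) '' L ↔ s ≤ J u / r) := by
      intro s hs
      rw [hMr, smul_smul, smul_mem_starSet (fun v _ => hJ0 v) hu (by positivity), le_div_iff₀ hr,
        mul_comm]
    have hradM : radial ((fun w => x + w) '' L) u = J u / r := by
      unfold radial
      have h1 : {c : ℝ | 0 ≤ c ∧ c • u ∈ (fun w => x + w) '' L} = Icc 0 (J u / r) := by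
        ext s
        constructor
        · rintro ⟨h0, h1⟩
          exact ⟨h0, (hMu s h0).1 h1⟩
        · rintro ⟨h0, h1⟩
          exact ⟨h0, (hMu s h0).2 h1⟩
      rw [h1, csSup_Icc (div_nonneg (hJ0 u) hr.le)]
    rw [hradM, hJ, interRadial_two hm hE (by linarith) hL hu]
    ring

theorem near_reduce {m : ℕ} [NeZero m] (hm : 2 ≤ m) (hE : finrank ℝ E = m + 1) {i : ℝ}
    (hi : 1 ≤ i) : ∃ C : ℝ, 4 ≤ C ∧ ∀ ε : ℝ, 0 < ε → C * ε ≤ 1 → ∀ L : Set E, IsStarBody L →
      (∀ u : E, ‖u‖ = 1 → |radial L u - 1| ≤ ε) →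
      (∀ u v : E, ‖u‖ = 1 → ‖v‖ = 1 → |radial L u - radial L v| ≤ ε * ‖u - v‖) →
      ∀ (z : E) (r : ℝ), 0 < r → interBody i (interBody i L) = (fun y => z + r • y) '' L →
      ∃ (s : ℝ) (y : E), 0 < s ∧ ‖y‖ ≤ C * ε ∧ NearSol i (C * ε) y (s • L) := by
  obtain ⟨C₁, hC₁, HJ⟩ := JJ_est (E := E) hm hE hi
  refine ⟨8 * C₁ + 8, by linarith, ?_⟩
  intro ε hε hCε L hL hn hlip z r hr heq
  have hCε1 : C₁ * ε ≤ 1 / 8 := by nlinarith
  have hε1 : ε ≤ 1 / 8 := by nlinarith
  have hS := SIc_pos (E := E) hE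
  have hcont_c : ContinuousOn (hom0 (radial L)) {x : E | x ≠ 0} := hom0_cont hL.cont
  have hrad0 : ∀ x : E, ‖x‖ = 1 → 0 ≤ radial L x := fun x hx =>
    (radial_set hL (ne_zero_of_unit' hx)).1
  have hI0 : ∀ x : E, ‖x‖ = 1 → 0 ≤ radial (interBody i L) x := by
    intro y hy
    rw [radial_interBody i hrad0 (by omega) hy]
    exact interRadial_nonneg i hrad0 (by omega) y
  obtain ⟨hK1, hK2⟩ := HJ ε (hom0 (radial L)) hε (by linarith) hcont_c
    (fun u hu => by rw [hom0_unit _ hu]; exact hn u hu)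
    (fun u v hu hv => by rw [hom0_unit _ hu, hom0_unit _ hv]; exact hlip u v hu hv)
  obtain ⟨x, hx⟩ : ∃ x : E, x = r⁻¹ • z := ⟨_, rfl⟩
  have hzx : z = r • x := by rw [hx, smul_smul, mul_inv_cancel₀ hr.ne', one_smul]
  have heq' : interBody i (interBody i L) = (fun y => r • (x + y)) '' L := by
    rw [heq, hzx]
    simp only [smul_add]
  obtain ⟨hsym, hrad⟩ := transl_data hm hE hi hL hr heq'
  obtain ⟨hxn, hMn⟩ := shift_small hε (by linarith) hL hn hsym
  obtain ⟨B, hB⟩ : ∃ B : ℝ, B = ((m : ℝ)⁻¹ * massS m) * ((m : ℝ)⁻¹ * massS m) ^ i / r := ⟨_, rfl⟩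
  obtain ⟨K, hK⟩ : ∃ K : E → ℝ,
      K = fun u => RR m (fun v => (RR m (fun w => (hom0 (radial L) w) ^ i) v) ^ i) u := ⟨_, rfl⟩
  have hradK : ∀ u : E, ‖u‖ = 1 → radial ((fun w => x + w) '' L) u = B * K u := by
    intro u hu
    rw [hrad u hu, ← hB, hK]
  have hK1' : ∀ u : E, ‖u‖ = 1 → |K u - 1| ≤ C₁ * ε := by
    intro u hu
    rw [hK]; exact hK1 u hu
  have hK2' : ∀ u v : E, ‖u‖ = 1 → ‖v‖ = 1 → |K u - K v| ≤ C₁ * ε * ‖u - v‖ := by
    intro u v hu hv
    rw [hK]; exact hK2 u v hu hv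
  have hB0 : 0 ≤ B := by
    have h1 := massS_pos (m := m) (by omega)
    rw [hB]
    positivity
  have hnt : Nontrivial E := Module.nontrivial_of_finrank_pos (R := ℝ) (by omega)
  obtain ⟨e, he⟩ := exists_norm_eq E (zero_le_one)
  have hB3 : B ≤ 3 := by
    have h1 := (abs_le.1 (hMn e he)).2
    rw [hradK e he] at h1
    have h2 := (abs_le.1 (hK1' e he)).1
    have h3 : 7 / 8 ≤ K e := by linarith
    nlinarith
  have hKcont : ContinuousOn K {x : E | x ≠ 0} := by
    have hcr : ContinuousOn (fun w => (hom0 (radial L) w) ^ i) {x : E | x ≠ 0} :=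
      hcont_c.rpow_const (fun _ _ => Or.inr (by linarith))
    have hB : ContinuousOn (fun v => (RR m (fun w => (hom0 (radial L) w) ^ i) v) ^ i)
        {x : E | x ≠ 0} := by
      apply ContinuousOn.rpow_const _ (fun _ _ => Or.inr (by linarith))
      exact (continuousOn_sphInt hcr).const_smul ((massS m)⁻¹)
    rw [hK]
    exact (continuousOn_sphInt hB).const_smul ((massS m)⁻¹)
  have hBKcont : ContinuousOn (fun u => B * K u) {x : E | x ≠ 0} :=
    continuousOn_const.mul hKcont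
  have hBKn : ∀ u : E, ‖u‖ = 1 → |B * K u - 1| ≤ 2 * ε := by
    intro u hu
    rw [← hradK u hu]
    exact hMn u hu
  obtain ⟨S, hSd⟩ : ∃ S : ℝ, S = SI (fun _ : E => (1 : ℝ)) := ⟨_, rfl⟩
  obtain ⟨T, hT⟩ : ∃ T : ℝ, T = SI (fun u : E => B * K u) := ⟨_, rfl⟩
  have hTS := SIc_abs hBKcont hBKn
  rw [← hSd, ← hT] at hTS
  rw [← hSd] at hS
  have hTS' := abs_le.1 hTS
  have hTlo : (1 - 2 * ε) * S ≤ T := by nlinarith [hTS'.1]
  have hThi : T ≤ (1 + 2 * ε) * S := by nlinarith [hTS'.2]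
  have hT0 : 0 < T := by
    have h1 : 0 < (1 - 2 * ε) * S := mul_pos (by linarith) hS
    linarith
  obtain ⟨μ, hμ⟩ : ∃ μ : ℝ, μ = T / S := ⟨_, rfl⟩
  have hμ0 : 0 < μ := by rw [hμ]; exact div_pos hT0 hS
  have hμlo : 1 - 2 * ε ≤ μ := by rw [hμ, le_div_iff₀ hS]; exact hTlo
  have hμhi : μ ≤ 1 + 2 * ε := by rw [hμ, div_le_iff₀ hS]; exact hThi
  obtain ⟨s, hs⟩ : ∃ s : ℝ, s = μ⁻¹ := ⟨_, rfl⟩
  have hs0 : 0 < s := by rw [hs]; exact inv_pos.2 hμ0
  have hsμ : s * μ = 1 := by rw [hs, inv_mul_cancel₀ hμ0.ne']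
  have hs2 : s ≤ 2 := by
    by_contra hcon
    push Not at hcon
    have h1 : 2 * (3 / 4) < s * μ := by nlinarith
    linarith
  have hsT : s * T = S := by
    have h1 : T = μ * S := by rw [hμ, div_mul_cancel₀ _ hS.ne']
    rw [h1, ← mul_assoc, hsμ, one_mul]
  -- the translate of `s • L`
  have himg : (fun y => s • x + y) '' (s • L) = s • ((fun w => x + w) '' L) := by
    ext y
    constructor
    · rintro ⟨w, hw, rfl⟩
      obtain ⟨v, hv, rfl⟩ := Set.mem_smul_set.1 hw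
      exact Set.mem_smul_set.2 ⟨x + v, ⟨v, hv, rfl⟩, by simp only [smul_add]⟩
    · intro hy
      obtain ⟨w, ⟨v, hv, rfl⟩, rfl⟩ := Set.mem_smul_set.1 hy
      exact ⟨s • v, Set.smul_mem_smul_set hv, by simp only [smul_add]⟩
  have hradS : ∀ u : E, ‖u‖ = 1 →
      radial ((fun y => s • x + y) '' (s • L)) u = s * (B * K u) := by
    intro u hu
    rw [himg, radial_smul_set hs0, hradK u hu]
  refine ⟨s, s • x, hs0, ?_, ?_, ?_, ?_, ?_, ?_⟩
  · rw [norm_smul, Real.norm_eq_abs, abs_of_pos hs0]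
    have h1 : s * ‖x‖ ≤ 2 * ε := mul_le_mul hs2 hxn (norm_nonneg _) (by norm_num)
    nlinarith
  · exact isStarBody_smul hs0 hL
  · refine ⟨(s ^ i) ^ i * r * s⁻¹, by positivity, ?_⟩
    have hsi : 0 < s ^ i := Real.rpow_pos_of_pos hs0 i
    rw [interBody_smul hs0 i hrad0, interBody_smul hsi i hI0, heq']
    ext y
    constructor
    · intro hy
      obtain ⟨w, ⟨v, hv, rfl⟩, rfl⟩ := Set.mem_smul_set.1 hy
      refine ⟨s • v, Set.smul_mem_smul_set hv, ?_⟩
      simp only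
      rw [← smul_add, smul_smul, smul_smul, mul_assoc, inv_mul_cancel₀ hs0.ne', mul_one]
    · rintro ⟨w, hw, rfl⟩
      obtain ⟨v, hv, rfl⟩ := Set.mem_smul_set.1 hw
      refine Set.mem_smul_set.2 ⟨r • (x + v), ⟨v, hv, rfl⟩, ?_⟩
      simp only
      rw [← smul_add, smul_smul, smul_smul, mul_assoc ((s ^ i) ^ i * r), inv_mul_cancel₀ hs0.ne',
        mul_one]
  · intro u hu
    rw [hradS u hu]
    have h1 := abs_le.1 (hBKn u hu)
    have h2 : s * (B * K u) - 1 = s * (B * K u - μ) := by rw [mul_sub, hsμ]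
    rw [h2, abs_mul, abs_of_pos hs0]
    have h3 : |B * K u - μ| ≤ 4 * ε := by
      rw [abs_le]
      constructor
      · linarith [h1.1]
      · linarith [h1.2]
    have h4 : s * |B * K u - μ| ≤ 2 * (4 * ε) := mul_le_mul hs2 h3 (abs_nonneg _) (by norm_num)
    nlinarith
  · intro u v hu hv
    rw [hradS u hu, hradS v hv]
    have h2 : s * (B * K u) - s * (B * K v) = s * (B * (K u - K v)) := by ring
    rw [h2, abs_mul, abs_mul, abs_of_pos hs0, abs_of_nonneg hB0]
    have h3 := hK2' u v hu hv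
    have h5 : B * |K u - K v| ≤ 3 * (C₁ * ε * ‖u - v‖) :=
      mul_le_mul hB3 h3 (abs_nonneg _) (by norm_num)
    have h6 : s * (B * |K u - K v|) ≤ 2 * (3 * (C₁ * ε * ‖u - v‖)) :=
      mul_le_mul hs2 h5 (mul_nonneg hB0 (abs_nonneg _)) (by norm_num)
    have h7 : 0 ≤ ε * ‖u - v‖ := mul_nonneg hε.le (norm_nonneg _)
    have h8 : 0 ≤ C₁ * (ε * ‖u - v‖) := mul_nonneg (by linarith) h7
    calc s * (B * |K u - K v|) ≤ 2 * (3 * (C₁ * ε * ‖u - v‖)) := h6
      _ = 6 * (C₁ * (ε * ‖u - v‖)) := by ring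
      _ ≤ 8 * (C₁ * (ε * ‖u - v‖)) + 8 * (ε * ‖u - v‖) := by linarith
      _ = (8 * C₁ + 8) * ε * ‖u - v‖ := by ring
  · have h1 : SI (radial ((fun y => s • x + y) '' (s • L))) = SI (fun u : E => s * (B * K u)) :=
      SIc_congr hradS
    rw [h1, ← hSd]
    have h2 : SI (fun u : E => s * (B * K u)) = s * SI (fun u : E => B * K u) := by
      unfold SI
      rw [integral_const_mul]
    rw [h2, ← hT, hsT]

end StarTr
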