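import Pool.Agent.StarTr.UExist
import Pool.Agent.StarTr.ULipC
import Pool.Agent.StarTr.UConv

set_option autoImplicit false

/-!
# StarTr, module UFinal: complete description of the solutions close to the unit ball
-/

open MeasureTheory Set Metric Module
open scoped ENNReal RealInnerProductSpace Pointwise

namespace StarTr

open StarIB

variable {E : Type*} [NormedAddCommGroup E] [InnerProductSpace ℝ E] [FiniteDimensional ℝ E]
  [MeasurableSpace E] [BorelSpace E]

theorem NearSol.map {i η : ℝ} {x : E} {L : Set E} (h : NearSol i η x L) (T : E ≃ₗᵢ[ℝ] E) :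
    NearSol i η (T x) (T '' L) := by
  have h1 : (fun y => T x + y) '' (T '' L) = T '' ((fun y => x + y) '' L) := by
    rw [image_image, image_image]
    apply image_congr
    intro y _
    rw [map_add]
  have h2 : ∀ u : E, radial ((fun y => T x + y) '' (T '' L)) u =
      radial ((fun y => x + y) '' L) (T.symm u) := by
    intro u
    rw [h1]
    have := radial_map T ((fun y => x + y) '' L) (T.symm u)
    rwa [LinearIsometryEquiv.apply_symm_apply] at this
  obtain ⟨r, hr, heq⟩ := h.eq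
  refine ⟨isStarBody_map T h.star, ⟨r, hr, ?_⟩, ?_, ?_, ?_⟩
  · rw [interBody_map, interBody_map, heq, image_image, image_image]
    apply image_congr
    intro y _
    rw [map_smul, map_add]
  · intro u hu
    rw [h2]
    exact h.near _ (by rw [LinearIsometryEquiv.norm_map, hu])
  · intro u v hu hv
    rw [h2, h2]
    refine (h.lip _ _ (by rw [LinearIsometryEquiv.norm_map, hu])
      (by rw [LinearIsometryEquiv.norm_map, hv])).trans ?_
    rw [← map_sub, LinearIsometryEquiv.norm_map]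
  · have h3 : SI (radial ((fun y => T x + y) '' (T '' L))) =
        SI (fun v => radial ((fun y => x + y) '' L) (T.symm v)) := by
      congr 1
      ext u
      exact h2 u
    rw [h3, SI_map T.symm]
    exact h.mean

theorem SI_smul' (s : ℝ) (f : E → ℝ) : SI (fun v => s * f v) = s * SI f := by
  unfold SI
  rw [integral_const_mul]

theorem local_class {m : ℕ} [NeZero m] (hm : 2 ≤ m) (hE : finrank ℝ E = m + 1) {i : ℝ}
    (hi : 1 ≤ i) (him : i < m) :
    ∃ (ε δ : ℝ) (K : E → Set E), 0 < ε ∧ 0 < δ ∧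
      (∀ y : E, ‖y‖ < δ → IsStarBody (K y) ∧
        (∃ r : ℝ, 0 < r ∧ interBody i (interBody i (K y)) = (fun w => r • (y + w)) '' K y) ∧
        (∀ u : E, ‖u‖ = 1 → |radial (K y) u - 1| ≤ 2 * ‖y‖) ∧
        (∀ u v : E, ‖u‖ = 1 → ‖v‖ = 1 →
          |radial (K y) u - radial (K y) v| ≤ 10 * ‖y‖ * ‖u - v‖) ∧
        (y ≠ 0 → (∃ w ∈ K y, -w ∉ K y) ∧ ∀ (z : E) (ρ : ℝ), K y ≠ closedBall z ρ) ∧
        (∀ T : E ≃ₗᵢ[ℝ] E, K (T y) = T '' K y)) ∧
      (∀ L : Set E, IsStarBody L → (∀ u : E, ‖u‖ = 1 → |radial L u - 1| ≤ ε) →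
        (Convex ℝ L ∨
          ∀ u v : E, ‖u‖ = 1 → ‖v‖ = 1 → |radial L u - radial L v| ≤ ε * ‖u - v‖) →
        ((∃ (z : E) (r : ℝ), 0 < r ∧
          interBody i (interBody i L) = (fun w => z + r • w) '' L) ↔
        ∃! q : ℝ × E, 0 < q.1 ∧ ‖q.2‖ < δ ∧ L = (fun w => q.1 • w) '' K q.2)) := by
  classical
  have hnt : Nontrivial E := Module.nontrivial_of_finrank_pos (R := ℝ) (by omega)
  have hS := SI_one_pos (E := E) hE
  obtain ⟨η₀, hη₀, hη₁, huniq⟩ := nearSol_unique (E := E) hm hE hi him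
  obtain ⟨a₀, ha₀, ha₁, hex⟩ := exists_near (E := E) hm hE hi him
  obtain ⟨C, hC, hred⟩ := near_reduce (E := E) hm hE hi
  -- the bodies
  have hex' : ∀ y : E, ‖y‖ < min a₀ (η₀ / 2) → ∃ L : Set E, NearSol i η₀ y L ∧
      (∀ u : E, ‖u‖ = 1 → |radial L u - 1| ≤ 2 * ‖y‖) ∧
      (∀ u v : E, ‖u‖ = 1 → ‖v‖ = 1 → |radial L u - radial L v| ≤ 10 * ‖y‖ * ‖u - v‖) ∧
      (y ≠ 0 → (∃ w ∈ L, -w ∉ L) ∧ ∀ (z : E) (ρ : ℝ), L ≠ closedBall z ρ) := by
    intro y hy
    by_cases hy0 : y = 0
    · refine ⟨closedBall 0 1, ?_, ?_, ?_, fun h => absurd hy0 h⟩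
      · rw [hy0]
        exact near_ball hm hE hη₀.le
      · intro u hu
        rw [radial_ball zero_le_one hu, sub_self, abs_zero]
        positivity
      · intro u v hu hv
        rw [radial_ball zero_le_one hu, radial_ball zero_le_one hv, sub_self, abs_zero]
        positivity
    · have hn : 0 < ‖y‖ := norm_pos_iff.2 hy0
      obtain ⟨L, h1, h2, h3, h4, h5⟩ := hex ‖y‖ (‖y‖⁻¹ • y) hn
        (hy.le.trans (min_le_left _ _)) (norm_unit' hy0)
      rw [norm_smul_unit hy0] at h1
      have h6 := hy.le.trans (min_le_right _ _)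
      exact ⟨L, h1.mono (by linarith), h2, h3, fun _ => ⟨h4, h5⟩⟩
  set δ : ℝ := min a₀ (η₀ / 2) with hδ
  have hδ0 : 0 < δ := lt_min ha₀ (by linarith)
  have hδη : δ ≤ η₀ := (min_le_right _ _).trans (by linarith)
  set K : E → Set E := fun y => if h : ‖y‖ < δ then Classical.choose (hex' y h) else ∅ with hK
  have hKs : ∀ (y : E) (h : ‖y‖ < δ), NearSol i η₀ y (K y) ∧
      (∀ u : E, ‖u‖ = 1 → |radial (K y) u - 1| ≤ 2 * ‖y‖) ∧
      (∀ u v : E, ‖u‖ = 1 → ‖v‖ = 1 →
        |radial (K y) u - radial (K y) v| ≤ 10 * ‖y‖ * ‖u - v‖) ∧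
      (y ≠ 0 → (∃ w ∈ K y, -w ∉ K y) ∧ ∀ (z : E) (ρ : ℝ), K y ≠ closedBall z ρ) := by
    intro y h
    have h1 : K y = Classical.choose (hex' y h) := by
      simp only [hK]
      rw [dif_pos h]
    rw [h1]
    exact Classical.choose_spec (hex' y h)
  have hKu : ∀ (y : E), ‖y‖ < δ → ∀ L : Set E, NearSol i η₀ y L → L = K y := by
    intro y h L hL
    exact huniq η₀ y hη₀ le_rfl (h.le.trans hδη) L (K y) hL (hKs y h).1
  -- the homothety of `t • K w`
  have key : ∀ (L : Set E) (t : ℝ) (w : E), 0 < t → ‖w‖ < δ → L = t • K w →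
      ∃ ρ : ℝ, 0 < ρ ∧ interBody i (interBody i L) =
        (fun v => ρ • (t • w) + ρ • v) '' L := by
    intro L t w ht hw hLt
    obtain ⟨h1, -⟩ := hKs w hw
    obtain ⟨ρ, hρ, h2⟩ := h1.eq
    have hr0 : ∀ u : E, ‖u‖ = 1 → 0 ≤ radial (K w) u := fun u hu =>
      (radial_set h1.star (ne_zero_of_unit' hu)).1
    have hr1 : ∀ u : E, ‖u‖ = 1 → 0 ≤ radial (interBody i (K w)) u := by
      intro u hu
      rw [radial_interBody i hr0 (by omega) hu]
      exact interRadial_nonneg i hr0 (by omega) u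
    have h3 : interBody i (interBody i L) = ((t ^ i) ^ i) • interBody i (interBody i (K w)) := by
      rw [hLt, interBody_smul ht i hr0, interBody_smul (by positivity) i hr1]
    refine ⟨(t ^ i) ^ i * ρ * t⁻¹, by positivity, ?_⟩
    rw [h3, h2]
    rw [hLt]
    rw [← image_smul, image_image, ← image_smul, image_image]
    apply image_congr
    intro v _
    have e1 : ((t ^ i) ^ i * ρ * t⁻¹) • t • w = ((t ^ i) ^ i * ρ) • w := by
      rw [smul_smul]
      congr 1
      field_simp
    have e2 : ((t ^ i) ^ i * ρ * t⁻¹) • t • v = ((t ^ i) ^ i * ρ) • v := by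
      rw [smul_smul]
      congr 1
      field_simp
    rw [e1, e2, smul_smul, ← smul_add]
  -- the case of a small Lipschitz constant
  have main : ∀ L : Set E, IsStarBody L →
      (∀ u : E, ‖u‖ = 1 → |radial L u - 1| ≤ min η₀ (δ / 2) / C) →
      (∀ u v : E, ‖u‖ = 1 → ‖v‖ = 1 →
        |radial L u - radial L v| ≤ min η₀ (δ / 2) / C * ‖u - v‖) →
      (∃ (z : E) (r : ℝ), 0 < r ∧
        interBody i (interBody i L) = (fun w => z + r • w) '' L) →
      ∃! q : ℝ × E, 0 < q.1 ∧ ‖q.2‖ < δ ∧ L = q.1 • K q.2 := by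
    intro L hL hn hl ⟨z, r, hr, heq⟩
    have hC0 : 0 < C := by linarith
    have hCe : C * (min η₀ (δ / 2) / C) = min η₀ (δ / 2) := by field_simp
    obtain ⟨s, y, hs, hy, hsol⟩ := hred (min η₀ (δ / 2) / C) (by positivity)
      (by rw [hCe]; exact (min_le_left _ _).trans (by linarith)) L hL hn hl z r hr heq
    rw [hCe] at hy hsol
    have hy' : ‖y‖ < δ := by
      have := hy.trans (min_le_right _ _)
      linarith
    have hsK : s • L = K y := hKu y hy' _ (hsol.mono (min_le_left _ _))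
    refine ⟨(s⁻¹, y), ⟨inv_pos.2 hs, hy', ?_⟩, ?_⟩
    · simp only
      rw [← hsK, smul_smul, inv_mul_cancel₀ hs.ne', one_smul]
    · rintro ⟨s', y'⟩ ⟨hs', hy'', hL'⟩
      simp only at hs' hy'' hL'
      have hLK : L = s⁻¹ • K y := by
        rw [← hsK, smul_smul, inv_mul_cancel₀ hs.ne', one_smul]
      obtain ⟨ρ₁, hρ₁, e₁⟩ := key L s⁻¹ y (inv_pos.2 hs) hy' hLK
      obtain ⟨ρ₂, hρ₂, e₂⟩ := key L s' y' hs' hy'' hL'
      have hpair : ∃ p ∈ L, ∃ q ∈ L, p ≠ q := by
        obtain ⟨u, hu⟩ := exists_norm_eq E (zero_le_one)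
        refine ⟨0, hL.zero_mem, radial L u • u, ?_, ?_⟩
        · exact (mem_iff_radial hL (ne_zero_of_unit' hu)
            (radial_set hL (ne_zero_of_unit' hu)).1).2 le_rfl
        · intro h0
          have h1 := hn u hu
          have h2 : radial L u = 0 := by
            rcases smul_eq_zero.1 h0.symm with h | h
            · exact h
            · exact absurd h (ne_zero_of_unit' hu)
          rw [h2] at h1
          have h3 : min η₀ (δ / 2) / C < 1 := by
            rw [div_lt_one hC0]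
            have := min_le_left η₀ (δ / 2)
            linarith
          norm_num at h1
          linarith
      obtain ⟨hρ, hz⟩ := homothety_unique hL.isCompact hpair hρ₁ hρ₂ (e₁.symm.trans e₂)
      have hyy : s⁻¹ • y = s' • y' := by
        rw [← hρ] at hz
        exact smul_right_injective E hρ₁.ne' hz
      -- the mean radius of the centred translate
      have hmean : ∀ (t : ℝ) (w : E), 0 < t → ‖w‖ < δ → L = t • K w →
          SI (radial ((fun v => t • w + v) '' L)) = t * SI (fun _ : E => (1 : ℝ)) := by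
        intro t w ht hw hLt
        have h1 := (hKs w hw).1
        have h2 : (fun v => t • w + v) '' L = t • ((fun v => w + v) '' K w) := by
          rw [hLt, ← image_smul, image_image, ← image_smul, image_image]
          apply image_congr
          intro v _
          rw [smul_add]
        rw [h2, ← h1.mean, ← SI_smul']
        congr 1
        ext u
        exact radial_smul_set ht u
      have m1 := hmean s⁻¹ y (inv_pos.2 hs) hy' hLK
      have m2 := hmean s' y' hs' hy'' hL'
      rw [← hyy, m1] at m2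
      have hss : s⁻¹ = s' := mul_right_cancel₀ hS.ne' m2
      rw [← hss] at hyy
      have hyy' : y = y' := smul_right_injective E (inv_pos.2 hs).ne' hyy
      rw [hss, hyy']
  obtain ⟨ε₀, hε₀⟩ : ∃ ε₀ : ℝ, ε₀ = min η₀ (δ / 2) / C := ⟨_, rfl⟩
  rw [← hε₀] at main
  have hε₀p : 0 < ε₀ := by
    have hC0 : 0 < C := by linarith
    rw [hε₀]; positivity
  have hε₀1 : ε₀ ≤ 1 / 4 := by
    rw [hε₀, div_le_iff₀ (by linarith)]
    have := min_le_left η₀ (δ / 2)
    linarith
  have hε₀2 : (ε₀ / 8) ^ 2 ≤ ε₀ := by nlinarith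
  refine ⟨(ε₀ / 8) ^ 2, δ, K, by positivity, hδ0, ?_, ?_⟩
  · intro y hy
    obtain ⟨h1, h2, h3, h4⟩ := hKs y hy
    refine ⟨h1.star, h1.eq, h2, h3, h4, ?_⟩
    intro T
    exact (hKu (T y) (by rw [LinearIsometryEquiv.norm_map]; exact hy) _ (h1.map T)).symm
  · intro L hL hn hl
    have hl' : ∀ u v : E, ‖u‖ = 1 → ‖v‖ = 1 → |radial L u - radial L v| ≤ ε₀ * ‖u - v‖ := by
      rcases hl with hcv | hl
      · intro u v hu hv
        have h1 := convex_lip (ε := (ε₀ / 8) ^ 2) (by positivity) (by linarith) hL hcv hn hu hv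
        rw [Real.sqrt_sq (by positivity)] at h1
        refine h1.trans (le_of_eq ?_)
        ring
      · intro u v hu hv
        exact (hl u v hu hv).trans (mul_le_mul_of_nonneg_right hε₀2 (norm_nonneg _))
    have himg : ∀ q : ℝ × E, (fun w => q.1 • w) '' K q.2 = q.1 • K q.2 := fun q => rfl
    simp only [himg]
    constructor
    · exact main L hL (fun u hu => (hn u hu).trans hε₀2) hl'
    · rintro ⟨⟨t, w⟩, ⟨ht, hw, hLt⟩, -⟩
      obtain ⟨ρ, hρ, h1⟩ := key L t w ht hw hLt
      exact ⟨_, ρ, hρ, h1⟩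

end StarTr
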