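import Pool.Agent.StarTr.UGapA
import Pool.Agent.StarTr.UDens

set_option autoImplicit false

/-!
# StarTr, module UGap: the `L²` gap of the spherical Radon transform on even functions with mean zero

For `f` with `SI f = 0` and `ε > 0` take `h = ∑ a_l ridge ξ_l` with `|f - h| ≤ ε` on the sphere (`ridge_dense`) and subtract the mean of `h`
(at most `ε`): `h₀ = h - mean`, `|f - h₀| ≤ 2 ε`.  `h₀` satisfies the decay hypothesis of `gap_of_decay` (`ridge_decay`, linearity `RR_add`,
`RR_const`; the iterates are linear).  Hence `‖R f‖ ≤ ‖R h₀‖ + 2ε ≤ m⁻¹ ‖h₀‖ + 2 ε ≤ m⁻¹ ‖f‖ + 4 ε` with the `L²` norm for the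
normalised measure (`RR_abs`); let `ε → 0`.
-/

open MeasureTheory Set Metric Module
open scoped ENNReal RealInnerProductSpace

namespace StarTr

variable {E : Type*} [NormedAddCommGroup E] [InnerProductSpace ℝ E] [FiniteDimensional ℝ E]
  [MeasurableSpace E] [BorelSpace E]

namespace UGapAux

omit [FiniteDimensional ℝ E] [MeasurableSpace E] [BorelSpace E] in
theorem H0_sum {ι : Type} (s : Finset ι) (a : ι → ℝ) {F : ι → E → ℝ} (hF : ∀ i, H0 (F i)) :
    H0 (fun x => ∑ i ∈ s, a i * F i x) := by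
  constructor
  · intro x hx t ht
    exact Finset.sum_congr rfl fun i _ => by rw [(hF i).1 x hx t ht]
  · exact continuousOn_finsetSum s fun i _ => continuousOn_const.mul (hF i).2

theorem RR_iter_H0 {m : ℕ} {f : E → ℝ} (hf : H0 f) (j : ℕ) : H0 ((RR m)^[j] f) := by
  induction j with
  | zero => exact hf
  | succ j ih =>
    rw [Function.iterate_succ_apply']
    exact RR_H0 ih

theorem RR_sum {m : ℕ} {ι : Type} (s : Finset ι) (a : ι → ℝ) {F : ι → E → ℝ}
    (hF : ∀ i, H0 (F i)) (u : E) :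
    RR m (fun x => ∑ i ∈ s, a i * F i x) u = ∑ i ∈ s, a i * RR m (F i) u := by
  classical
  induction s using Finset.induction_on with
  | empty =>
    have h := RR_add (m := m) (f := fun _ : E => (0 : ℝ)) (g := fun _ => 0) continuousOn_const
      continuousOn_const 0 0 u
    simp only [zero_mul, add_zero] at h
    simp only [Finset.sum_empty]
    exact h
  | insert i s hi ih =>
    have h := RR_add (m := m) (f := F i) (g := fun x => ∑ i ∈ s, a i * F i x) (hF i).2
      (H0_sum s a hF).2 (a i) 1 u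
    simp only [one_mul] at h
    rw [ih] at h
    rw [Finset.sum_insert hi, ← h]
    congr 1
    funext x
    rw [Finset.sum_insert hi]

theorem RR_iter_sum {m : ℕ} {ι : Type} (s : Finset ι) (a : ι → ℝ) {F : ι → E → ℝ}
    (hF : ∀ i, H0 (F i)) (j : ℕ) :
    ((RR m)^[j] (fun x => ∑ i ∈ s, a i * F i x)) =
      fun u => ∑ i ∈ s, a i * ((RR m)^[j] (F i)) u := by
  induction j with
  | zero => rfl
  | succ j ih =>
    rw [Function.iterate_succ_apply', ih]
    funext u
    rw [RR_sum s a (fun i => RR_iter_H0 (hF i) j) u]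
    exact Finset.sum_congr rfl fun i _ => by rw [Function.iterate_succ_apply']

/-- the gap for finite sums of ridge functions with mean zero -/
theorem gap_ridge {m : ℕ} [NeZero m] (hm : 2 ≤ m) (hE : finrank ℝ E = m + 1) {ι : Type}
    (s : Finset ι) (a : ι → ℝ) (ξ : ι → E)
    (h0 : SI (fun x : E => ∑ i ∈ s, a i * ridge (ξ i) x) = 0) :
    SI (fun u => (RR m (fun x : E => ∑ i ∈ s, a i * ridge (ξ i) x) u) ^ 2) ≤
      ((m : ℝ)⁻¹) ^ 2 * SI (fun u => (∑ i ∈ s, a i * ridge (ξ i) u) ^ 2) := by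
  choose C hC0 hC using fun i => ridge_decay hm hE (ξ i)
  have hF : ∀ i, H0 (ridge (ξ i)) := fun i => ridge_H0 (ξ i)
  refine gap_of_decay hm hE (H0_sum s a hF) h0 (C := ∑ i ∈ s, |a i| * C i) ?_
  intro j u v hu hv
  rw [RR_iter_sum s a hF j]
  simp only
  rw [← Finset.sum_sub_distrib, Finset.sum_mul]
  refine (Finset.abs_sum_le_sum_abs _ _).trans (Finset.sum_le_sum fun i _ => ?_)
  rw [← mul_sub, abs_mul, mul_assoc]
  exact mul_le_mul_of_nonneg_left (hC i j u v hu hv) (abs_nonneg _)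

omit [FiniteDimensional ℝ E] [MeasurableSpace E] [BorelSpace E] in
theorem ridge_zero (x : E) : ridge (0 : E) x = 1 := by
  unfold ridge
  rw [inner_zero_left, zero_div, Real.cos_zero]

theorem SI_le_add {f g : E → ℝ} (hf : ContinuousOn f {x : E | x ≠ 0})
    (hg : ContinuousOn g {x : E | x ≠ 0}) {e : ℝ} (h : ∀ u : E, ‖u‖ = 1 → f u ≤ g u + e) :
    SI f ≤ SI g + e * ((volume : Measure E).toSphere).real univ := by
  unfold SI
  have h1 := SI_integrable hf
  have h2 := SI_integrable hg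
  have h3 : ∫ v : sphere (0 : E) 1, f v ∂((volume : Measure E).toSphere) ≤
      ∫ v : sphere (0 : E) 1, (g v + e) ∂((volume : Measure E).toSphere) :=
    integral_mono h1 (h2.add (integrable_const e)) fun v => h v (by simp)
  rw [integral_add h2 (integrable_const e), integral_const, smul_eq_mul, mul_comm _ e] at h3
  exact h3

omit [MeasurableSpace E] [BorelSpace E] in
theorem exists_bound {f : E → ℝ} (hf : ContinuousOn f {x : E | x ≠ 0}) :
    ∃ B : ℝ, 0 ≤ B ∧ ∀ x : E, ‖x‖ = 1 → |f x| ≤ B := by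
  have hK : IsCompact (sphere (0 : E) 1) := isCompact_sphere 0 1
  have hsub : sphere (0 : E) 1 ⊆ {x : E | x ≠ 0} := by
    intro x hx h
    rw [h] at hx
    simp at hx
  obtain ⟨B, hB⟩ := hK.exists_bound_of_continuousOn (hf.mono hsub)
  refine ⟨max B 0, le_max_right _ _, fun x hx => ?_⟩
  have h1 := hB x (by simpa using hx)
  rw [Real.norm_eq_abs] at h1
  exact h1.trans (le_max_left _ _)

end UGapAux

open UGapAux in
theorem RR_gap {m : ℕ} [NeZero m] (hm : 2 ≤ m) (hE : finrank ℝ E = m + 1) {f : E → ℝ}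
    (hf : H0 f) (h0 : SI f = 0) :
    SI (fun u => (RR m f u) ^ 2) ≤ ((m : ℝ)⁻¹) ^ 2 * SI (fun u => (f u) ^ 2) := by
  obtain ⟨M, hM⟩ : ∃ M : ℝ, M = ((volume : Measure E).toSphere).real univ := ⟨_, rfl⟩
  have hM0 : 0 ≤ M := by rw [hM]; exact measureReal_nonneg
  obtain ⟨B, hB0, hB⟩ := exists_bound hf.2
  obtain ⟨θ, hθ⟩ : ∃ θ : ℝ, θ = ((m : ℝ)⁻¹) ^ 2 := ⟨_, rfl⟩
  have hθ0 : 0 ≤ θ := by rw [hθ]; positivity
  rw [← hθ]
  -- the main estimate
  have main : ∀ ε : ℝ, 0 < ε → ε ≤ 1 → SI (fun u => (RR m f u) ^ 2) ≤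
      θ * SI (fun u => (f u) ^ 2) + (1 + θ) * ((2 * B + 4) * (2 * ε) * M) := by
    intro ε hε hε1
    obtain ⟨N, a, ξ, hh⟩ := ridge_dense hf hε
    -- the correction by a constant
    obtain ⟨c, hc1, hc2⟩ : ∃ c : ℝ, |c| ≤ ε ∧ SI (fun x : E => ∑ l, a l * ridge (ξ l) x) = c * M := by
      have hhc : ContinuousOn (fun x : E => ∑ l, a l * ridge (ξ l) x) {x : E | x ≠ 0} :=
        (H0_sum _ a fun i => ridge_H0 (ξ i)).2
      have h1 := SI_le_add (e := ε) hhc hf.2 fun u hu => by
        have := (abs_le.1 (hh u hu)).1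
        linarith
      have h2 := SI_le_add (e := ε) hf.2 hhc fun u hu => by
        have := (abs_le.1 (hh u hu)).2
        linarith
      rw [h0, ← hM] at h1 h2
      rcases hM0.eq_or_lt with h3 | h3
      · refine ⟨0, by rw [abs_zero]; exact hε.le, ?_⟩
        rw [← h3] at h1 h2 ⊢
        linarith
      · refine ⟨SI (fun x : E => ∑ l, a l * ridge (ξ l) x) / M, ?_, (div_mul_cancel₀ _ h3.ne').symm⟩
        rw [abs_div, abs_of_pos h3, div_le_iff₀ h3, abs_le]
        constructor <;> linarith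
    -- the corrected function as a sum over `Option (Fin N)`
    obtain ⟨a', ha'⟩ : ∃ a' : Option (Fin N) → ℝ, a' = fun o => o.elim (-c) a := ⟨_, rfl⟩
    obtain ⟨ξ', hξ'⟩ : ∃ ξ' : Option (Fin N) → E, ξ' = fun o => o.elim 0 ξ := ⟨_, rfl⟩
    have hsum : ∀ x : E, ∑ o, a' o * ridge (ξ' o) x = -c + ∑ l, a l * ridge (ξ l) x := by
      intro x
      rw [Fintype.sum_option, ha', hξ']
      simp only [Option.elim_none, Option.elim_some]
      rw [ridge_zero, mul_one]
    obtain ⟨g, hg⟩ : ∃ g : E → ℝ, g = fun x => ∑ o, a' o * ridge (ξ' o) x := ⟨_, rfl⟩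
    have hgH : H0 g := by
      rw [hg]
      exact H0_sum _ a' fun i => ridge_H0 (ξ' i)
    have hfg : ∀ u : E, ‖u‖ = 1 → |f u - g u| ≤ 2 * ε := by
      intro u hu
      have h1 := hh u hu
      have h2 : g u = -c + ∑ l, a l * ridge (ξ l) u := by
        rw [hg]
        exact hsum u
      rw [h2]
      rw [abs_le] at h1 hc1 ⊢
      constructor <;> linarith
    have hg0 : SI g = 0 := by
      have h1 : g = fun x => -c + ∑ l, a l * ridge (ξ l) x := by
        rw [hg]
        funext x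
        exact hsum x
      have h2 := SI_integrable (E := E) (f := fun x : E => ∑ l, a l * ridge (ξ l) x)
        (H0_sum _ a fun i => ridge_H0 (ξ i)).2
      have h3 : SI g = -c * M + SI (fun x : E => ∑ l, a l * ridge (ξ l) x) := by
        rw [h1, hM]
        unfold SI
        rw [integral_add (integrable_const _) h2, integral_const, smul_eq_mul, mul_comm _ (-c)]
      rw [h3, hc2]
      ring
    have hgap : SI (fun u => (RR m g u) ^ 2) ≤ θ * SI (fun u => (g u) ^ 2) := by
      rw [hθ, hg]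
      rw [hg] at hg0
      exact gap_ridge hm hE Finset.univ a' ξ' hg0
    -- bounds
    have hgB : ∀ u : E, ‖u‖ = 1 → |g u| ≤ B + 2 * ε := by
      intro u hu
      have h1 := hfg u hu
      have h2 := hB u hu
      rw [abs_le] at h1 h2 ⊢
      constructor <;> linarith
    have hRf : ∀ u : E, ‖u‖ = 1 → |RR m f u| ≤ B := by
      intro u hu
      have h1 := RR_abs hm hE hf.2 (b := 0) (ε := B) (fun x hx => by rw [sub_zero]; exact hB x hx)
        (u := u) (by
          intro h
          rw [h, norm_zero] at hu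
          exact zero_ne_one hu)
      rwa [sub_zero] at h1
    have hRg : ∀ u : E, ‖u‖ = 1 → |RR m g u| ≤ B + 2 * ε := by
      intro u hu
      have h1 := RR_abs hm hE hgH.2 (b := 0) (ε := B + 2 * ε)
        (fun x hx => by rw [sub_zero]; exact hgB x hx)
        (u := u) (by
          intro h
          rw [h, norm_zero] at hu
          exact zero_ne_one hu)
      rwa [sub_zero] at h1
    have hRfg : ∀ u : E, ‖u‖ = 1 → |RR m f u - RR m g u| ≤ 2 * ε := by
      intro u hu
      have hu0 : u ≠ 0 := by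
        intro h
        rw [h, norm_zero] at hu
        exact zero_ne_one hu
      have h1 := RR_add (m := m) hf.2 hgH.2 1 (-1) u
      have h2 : ContinuousOn (fun x => 1 * f x + -1 * g x) {x : E | x ≠ 0} :=
        (continuousOn_const.mul hf.2).add (continuousOn_const.mul hgH.2)
      have h3 := RR_abs hm hE h2 (b := 0) (ε := 2 * ε) (fun x hx => by
        rw [sub_zero, one_mul, neg_one_mul, ← sub_eq_add_neg]
        exact hfg x hx) hu0
      rw [h1, sub_zero, one_mul, neg_one_mul, ← sub_eq_add_neg] at h3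
      exact h3
    have key : ∀ x y : ℝ, |x| ≤ B + 2 * ε → |y| ≤ B + 2 * ε → |x - y| ≤ 2 * ε →
        x ^ 2 ≤ y ^ 2 + (2 * B + 2 * (2 * ε)) * (2 * ε) := by
      intro x y hx hy hxy
      have h1 : x ^ 2 - y ^ 2 ≤ |x - y| * |x + y| := by
        rw [← abs_mul]
        refine le_trans (le_of_eq ?_) (le_abs_self _)
        ring
      have h2 : |x + y| ≤ 2 * B + 2 * (2 * ε) := (abs_add_le x y).trans (by linarith)
      have h3 : |x - y| * |x + y| ≤ (2 * ε) * (2 * B + 2 * (2 * ε)) :=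
        mul_le_mul hxy h2 (abs_nonneg _) (by linarith)
      linarith
    have e1 : SI (fun u => (RR m f u) ^ 2) ≤ SI (fun u => (RR m g u) ^ 2) +
        (2 * B + 2 * (2 * ε)) * (2 * ε) * M := by
      rw [hM]
      refine SI_le_add ((RR_H0 hf).2.pow 2) ((RR_H0 hgH).2.pow 2) fun u hu => ?_
      exact key _ _ ((hRf u hu).trans (by linarith)) (hRg u hu) (hRfg u hu)
    have e2 : SI (fun u => (g u) ^ 2) ≤ SI (fun u => (f u) ^ 2) +
        (2 * B + 2 * (2 * ε)) * (2 * ε) * M := by
      rw [hM]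
      refine SI_le_add (hgH.2.pow 2) (hf.2.pow 2) fun u hu => ?_
      refine key _ _ (hgB u hu) ((hB u hu).trans (by linarith)) ?_
      rw [abs_sub_comm]
      exact hfg u hu
    have e3 := mul_le_mul_of_nonneg_left e2 hθ0
    have e4 : (2 * B + 2 * (2 * ε)) * (2 * ε) * M ≤ (2 * B + 4) * (2 * ε) * M := by
      have : (2 * B + 2 * (2 * ε)) * (2 * ε) ≤ (2 * B + 4) * (2 * ε) :=
        mul_le_mul_of_nonneg_right (by linarith) (by linarith)
      exact mul_le_mul_of_nonneg_right this hM0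
    have e5 := mul_le_mul_of_nonneg_left e4 (show (0 : ℝ) ≤ 1 + θ by linarith)
    have e6 : θ * (SI (fun u => (f u) ^ 2) + (2 * B + 2 * (2 * ε)) * (2 * ε) * M) +
        (2 * B + 2 * (2 * ε)) * (2 * ε) * M = θ * SI (fun u => (f u) ^ 2) +
        (1 + θ) * ((2 * B + 2 * (2 * ε)) * (2 * ε) * M) := by ring
    calc SI (fun u => (RR m f u) ^ 2)
        ≤ SI (fun u => (RR m g u) ^ 2) + (2 * B + 2 * (2 * ε)) * (2 * ε) * M := e1
      _ ≤ θ * SI (fun u => (g u) ^ 2) + (2 * B + 2 * (2 * ε)) * (2 * ε) * M :=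
          add_le_add hgap le_rfl
      _ ≤ θ * (SI (fun u => (f u) ^ 2) + (2 * B + 2 * (2 * ε)) * (2 * ε) * M) +
          (2 * B + 2 * (2 * ε)) * (2 * ε) * M := add_le_add e3 le_rfl
      _ = _ := e6
      _ ≤ θ * SI (fun u => (f u) ^ 2) + (1 + θ) * ((2 * B + 4) * (2 * ε) * M) :=
          add_le_add le_rfl e5
  -- let `ε → 0`
  obtain ⟨K, hK⟩ : ∃ K : ℝ, K = (1 + θ) * ((2 * B + 4) * 2 * M) := ⟨_, rfl⟩
  have hK0 : 0 ≤ K := by rw [hK]; positivity
  refine le_of_forall_pos_le_add fun δ hδ => ?_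
  obtain ⟨ε, hε⟩ : ∃ ε : ℝ, ε = min 1 (δ / (K + 1)) := ⟨_, rfl⟩
  have hε0 : 0 < ε := by
    rw [hε]
    exact lt_min one_pos (div_pos hδ (by linarith))
  have hε1 : ε ≤ 1 := by
    rw [hε]
    exact min_le_left _ _
  have hε2 : ε * (K + 1) ≤ δ := by
    rw [← le_div_iff₀ (by linarith), hε]
    exact min_le_right _ _
  have h1 := main ε hε0 hε1
  have h2 : (1 + θ) * ((2 * B + 4) * (2 * ε) * M) = K * ε := by
    rw [hK]
    ring
  rw [h2] at h1
  linarith

end StarTr
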