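import Pool.Agent.StarTr.USymmB

set_option autoImplicit false

/-!
# StarTr, module UGapA: from geometric decay of the iterates to the `L²` gap

* `seq_gap`: if `N 0 = 0` then `N 1 = 0` by `hlog` (for `j = 0`: `N 1 ^ 2 ≤ N 0 * N 2`).  Otherwise, if `N 1 > θ N 0`, put `r = N 1 / N 0 > θ`; by
  induction `N (j+1) ≥ r N j` and `N j > 0`, so `N j ≥ r^j N 0`, which contradicts `N j ≤ C θ^j` for large `j`.
* `gap_of_decay`: `N j = SI ((RR^[j] f)^2)`.  `hlog`: `N (j+1) = SI (RR^[j+1] f * RR (RR^[j] f)) = SI (RR^[j] f * RR^[j+2] f)` (`SI_symm`) and Cauchy-Schwarz.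
  Decay: `SI (RR^[j] f) = SI f = 0` (`SI_RR`), so `|RR^[j] f u| ≤ C m^(-j)` for all unit `u` (a continuous function with mean zero and
  oscillation at most `δ` is bounded by `δ`), `N j ≤ C^2 (total mass) m^(-2j)`, `θ = (m⁻¹)^2`.
-/

open MeasureTheory Set Metric Module
open scoped ENNReal RealInnerProductSpace

namespace StarTr

theorem seq_gap {N : ℕ → ℝ} {C θ : ℝ} (hθ : 0 ≤ θ) (hN : ∀ j, 0 ≤ N j)
    (hlog : ∀ j, N (j + 1) ^ 2 ≤ N j * N (j + 2)) (hC : ∀ j, N j ≤ C * θ ^ j) :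
    N 1 ≤ θ * N 0 := by
  rcases eq_or_lt_of_le (hN 0) with h0 | h0
  · have h1 := hlog 0
    rw [← h0, zero_mul] at h1
    have h2 : N (0 + 1) = 0 := by
      have h3 : N (0 + 1) ^ 2 = 0 := le_antisymm h1 (sq_nonneg _)
      exact pow_eq_zero_iff (two_ne_zero) |>.1 h3
    rw [zero_add] at h2
    rw [h2, ← h0, mul_zero]
  · by_contra hcon
    rw [not_le] at hcon
    have hθr : θ < N 1 / N 0 := by
      rw [lt_div_iff₀ h0]
      exact hcon
    obtain ⟨r, hr⟩ : ∃ r, r = N 1 / N 0 := ⟨_, rfl⟩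
    rw [← hr] at hθr
    have hr0 : 0 < r := lt_of_le_of_lt hθ hθr
    have hrN : r * N 0 = N 1 := by
      rw [hr]
      field_simp
    have key : ∀ j, 0 < N j ∧ r * N j ≤ N (j + 1) := by
      intro j
      induction j with
      | zero => exact ⟨h0, by rw [hrN]⟩
      | succ j ih =>
        have h1 : 0 < N (j + 1) := lt_of_lt_of_le (mul_pos hr0 ih.1) ih.2
        refine ⟨h1, ?_⟩
        have h2 := hlog j
        have h3 : N j * (r * N (j + 1)) ≤ N j * N (j + 2) := by
          calc N j * (r * N (j + 1)) = (r * N j) * N (j + 1) := by ring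
            _ ≤ N (j + 1) * N (j + 1) := mul_le_mul_of_nonneg_right ih.2 h1.le
            _ = N (j + 1) ^ 2 := by ring
            _ ≤ N j * N (j + 2) := h2
        exact le_of_mul_le_mul_left h3 ih.1
    have hpow : ∀ j, r ^ j * N 0 ≤ N j := by
      intro j
      induction j with
      | zero => rw [pow_zero, one_mul]
      | succ j ih =>
        calc r ^ (j + 1) * N 0 = r * (r ^ j * N 0) := by ring
          _ ≤ r * N j := mul_le_mul_of_nonneg_left ih hr0.le
          _ ≤ N (j + 1) := (key j).2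
    have hC0 : 0 < C := by
      have h1 := hC 0
      rw [pow_zero, mul_one] at h1
      exact lt_of_lt_of_le h0 h1
    have hq0 : 0 ≤ θ / r := div_nonneg hθ hr0.le
    have hq1 : θ / r < 1 := by
      rw [div_lt_one hr0]
      exact hθr
    obtain ⟨j, hj⟩ := exists_pow_lt_of_lt_one (show 0 < N 0 / C by positivity) hq1
    rw [div_pow, lt_div_iff₀ hC0, div_mul_eq_mul_div, div_lt_iff₀ (pow_pos hr0 j)] at hj
    have h1 := hpow j
    have h2 := hC j
    nlinarith

variable {E : Type*} [NormedAddCommGroup E] [InnerProductSpace ℝ E] [FiniteDimensional ℝ E]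
  [MeasurableSpace E] [BorelSpace E]

namespace UGapAAux

open USymmBAux

theorem iter_H0 {m : ℕ} {f : E → ℝ} (hf : H0 f) (j : ℕ) : H0 ((RR m)^[j] f) := by
  induction j with
  | zero => exact hf
  | succ j ih =>
    rw [Function.iterate_succ_apply']
    exact RR_H0 ih

theorem iter_SI {m : ℕ} [NeZero m] (hm : 2 ≤ m) (hE : finrank ℝ E = m + 1) {f : E → ℝ}
    (hf : H0 f) (j : ℕ) : SI ((RR m)^[j] f) = SI f := by
  induction j with
  | zero => rfl
  | succ j ih =>
    rw [Function.iterate_succ_apply', SI_RR hm hE (iter_H0 hf j), ih]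

/-- Cauchy-Schwarz -/
theorem SI_cs {f g : E → ℝ} (hf : H0 f) (hg : H0 g) :
    SI (fun u => f u * g u) ^ 2 ≤ SI (fun u => f u ^ 2) * SI (fun u => g u ^ 2) := by
  have hff : ContinuousOn (fun u => f u ^ 2) {x : E | x ≠ 0} := hf.2.pow 2
  have hgg : ContinuousOn (fun u => g u ^ 2) {x : E | x ≠ 0} := hg.2.pow 2
  have hfg : ContinuousOn (fun u => f u * g u) {x : E | x ≠ 0} := hf.2.mul hg.2
  have h : ∀ t : ℝ, 0 ≤ SI (fun u => g u ^ 2) * (t * t) + 2 * SI (fun u => f u * g u) * t +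
      SI (fun u => f u ^ 2) := by
    intro t
    have h1 : 0 ≤ SI (fun u => (f u + t * g u) ^ 2) :=
      integral_nonneg fun v => sq_nonneg _
    have h2 : SI (fun u => (f u + t * g u) ^ 2) =
        SI (fun u => 1 * (1 * f u ^ 2 + (2 * t) * (f u * g u)) + (t * t) * g u ^ 2) := by
      refine SI_congr fun x hx => ?_
      ring
    have h3 : ContinuousOn (fun u => 1 * f u ^ 2 + (2 * t) * (f u * g u)) {x : E | x ≠ 0} :=
      (continuousOn_const.mul hff).add (continuousOn_const.mul hfg)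
    rw [h2, SI_lin h3 hgg, SI_lin hff hfg] at h1
    linarith
  have h3 := discrim_le_zero h
  unfold discrim at h3
  nlinarith

theorem sup_of_osc [Nontrivial E] {F : E → ℝ} (hF : H0 F) (h0 : SI F = 0) {δ : ℝ}
    (h : ∀ u v : E, ‖u‖ = 1 → ‖v‖ = 1 → |F u - F v| ≤ δ) {u : E} (hu : ‖u‖ = 1) : |F u| ≤ δ := by
  have hM : 0 < ((volume : Measure E).toSphere).real univ := by
    rw [Measure.toSphere_real_apply_univ]
    have h1 : 0 < (volume : Measure E).real (ball (0 : E) 1) := by
      rw [measureReal_def]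
      exact ENNReal.toReal_pos (measure_ball_pos _ _ one_pos).ne' measure_ball_lt_top.ne
    have h2 : 0 < finrank ℝ E := finrank_pos
    positivity
  have h1 : ∫ v : sphere (0 : E) 1, (F u - F v) ∂((volume : Measure E).toSphere) =
      ((volume : Measure E).toSphere).real univ * F u := by
    rw [integral_sub (integrable_const _) (SI_integrable hF.2), integral_const, smul_eq_mul]
    have h2 : ∫ v : sphere (0 : E) 1, F v ∂((volume : Measure E).toSphere) = 0 := h0
    rw [h2, sub_zero]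
  have h2 : ‖∫ v : sphere (0 : E) 1, (F u - F v) ∂((volume : Measure E).toSphere)‖ ≤
      δ * ((volume : Measure E).toSphere).real univ := by
    refine norm_integral_le_of_norm_le_const (Filter.Eventually.of_forall fun v => ?_)
    rw [Real.norm_eq_abs]
    exact h u v hu (mem_sphere_zero_iff_norm.1 v.2)
  rw [h1, Real.norm_eq_abs, abs_mul, abs_of_pos hM, mul_comm] at h2
  exact le_of_mul_le_mul_right h2 hM

end UGapAAux

open UGapAAux USymmBAux

theorem gap_of_decay {m : ℕ} [NeZero m] (hm : 2 ≤ m) (hE : finrank ℝ E = m + 1) {f : E → ℝ}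
    (hf : H0 f) (h0 : SI f = 0) {C : ℝ}
    (hC : ∀ (j : ℕ) (u v : E), ‖u‖ = 1 → ‖v‖ = 1 →
      |((RR m)^[j] f) u - ((RR m)^[j] f) v| ≤ C * ((m : ℝ)⁻¹) ^ j) :
    SI (fun u => (RR m f u) ^ 2) ≤ ((m : ℝ)⁻¹) ^ 2 * SI (fun u => (f u) ^ 2) := by
  have hnt : Nontrivial E := Module.nontrivial_of_finrank_pos (R := ℝ) (by omega)
  have hmain := seq_gap (N := fun j => SI (fun u => ((RR m)^[j] f u) ^ 2))
    (C := C ^ 2 * ((volume : Measure E).toSphere).real univ) (θ := ((m : ℝ)⁻¹) ^ 2)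
    (sq_nonneg _) (fun j => integral_nonneg fun v => sq_nonneg _) ?_ ?_
  · exact hmain
  · intro j
    have h1 : SI (fun u => ((RR m)^[j + 1] f u) ^ 2) =
        SI (fun u => (RR m)^[j] f u * (RR m)^[j + 2] f u) := by
      have h2 := SI_symm hm hE (iter_H0 (m := m) hf (j + 1)) (iter_H0 (m := m) hf j)
      have h3 : ∀ k, (RR m)^[k + 1] f = RR m ((RR m)^[k] f) := fun k =>
        Function.iterate_succ_apply' _ _ _
      rw [h3 (j + 1), ← h2, h3 j]
      refine SI_congr fun x hx => ?_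
      ring
    show SI (fun u => ((RR m)^[j + 1] f u) ^ 2) ^ 2 ≤
      SI (fun u => ((RR m)^[j] f u) ^ 2) * SI (fun u => ((RR m)^[j + 2] f u) ^ 2)
    rw [h1]
    exact SI_cs (iter_H0 hf j) (iter_H0 hf (j + 2))
  · intro j
    show SI (fun u => ((RR m)^[j] f u) ^ 2) ≤ _
    have hF := iter_H0 (m := m) hf j
    have hb : ∀ u : E, ‖u‖ = 1 → |(RR m)^[j] f u| ≤ C * ((m : ℝ)⁻¹) ^ j := fun u hu =>
      sup_of_osc hF (by rw [iter_SI hm hE hf j, h0]) (hC j) hu
    have h1 : ‖∫ v : sphere (0 : E) 1, ((RR m)^[j] f v) ^ 2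
        ∂((volume : Measure E).toSphere)‖ ≤
        (C * ((m : ℝ)⁻¹) ^ j) ^ 2 * ((volume : Measure E).toSphere).real univ := by
      refine norm_integral_le_of_norm_le_const (Filter.Eventually.of_forall fun v => ?_)
      rw [Real.norm_eq_abs, abs_pow]
      exact pow_le_pow_left₀ (abs_nonneg _) (hb v (mem_sphere_zero_iff_norm.1 v.2)) 2
    have h2 : SI (fun u => ((RR m)^[j] f u) ^ 2) ≤
        (C * ((m : ℝ)⁻¹) ^ j) ^ 2 * ((volume : Measure E).toSphere).real univ :=
      (le_abs_self _).trans h1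
    refine h2.trans (le_of_eq ?_)
    ring

end StarTr
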