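import Pool.Agent.StarTr.USymm
import Pool.Agent.StarTr.RadEst1

set_option autoImplicit false

/-!
# StarTr, module URidge: iterates of the Radon transform on ridge functions

`ridge ξ x = cos (⟨ξ, x⟩ / ‖x‖)`.  On the unit sphere it is the zonal function `φ₀ ⟨u, e⟩`, `φ₀ t = cos (‖ξ‖ t)`, `e = ξ / ‖ξ‖`
(`ξ = 0`: constant function `1`).  `|φ₀ t - φ₀ t'| ≤ A |t^2 - t'^2|`, `A = ‖ξ‖^2 / 2` (`cos x - cos y = 2 sin((x+y)/2) sin((y-x)/2)`).  By
`sphInt_zonal` the iterates `RR^[j] (ridge ξ)` are `φ_j ⟨u, e⟩` on the sphere, `φ_{j+1} = Rad (nuS m) φ_j`, and by `rad_est1` with `p = 2`, `B = 0`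
the modulus is `A m^(-j) |t^2 - t'^2|` (`(1-t^2)^(2/2) = 1-t^2`, `(m : ℝ) ^ (-(2/2)) = m⁻¹`).
-/

open MeasureTheory Set Metric Module
open scoped ENNReal RealInnerProductSpace

namespace StarTr

variable {E : Type*} [NormedAddCommGroup E] [InnerProductSpace ℝ E] [FiniteDimensional ℝ E]
  [MeasurableSpace E] [BorelSpace E]

/-- ridge functions -/
noncomputable def ridge (ξ x : E) : ℝ := Real.cos (⟪ξ, x⟫ / ‖x‖)

omit [FiniteDimensional ℝ E] [MeasurableSpace E] [BorelSpace E] in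
theorem ridge_H0 (ξ : E) : H0 (ridge ξ) := by
  refine ⟨fun x hx s hs => ?_, ?_⟩
  · have hn : ‖x‖ ≠ 0 := norm_ne_zero_iff.2 hx
    unfold ridge
    rw [inner_smul_right, norm_smul, Real.norm_eq_abs]
    rcases lt_or_gt_of_ne hs with h | h
    · rw [abs_of_neg h]
      have e1 : s * ⟪ξ, x⟫ / (-s * ‖x‖) = -(⟪ξ, x⟫ / ‖x‖) := by
        field_simp
      rw [e1, Real.cos_neg]
    · rw [abs_of_pos h]
      have e1 : s * ⟪ξ, x⟫ / (s * ‖x‖) = ⟪ξ, x⟫ / ‖x‖ := by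
        field_simp
      rw [e1]
  · unfold ridge
    refine Real.continuous_cos.comp_continuousOn ?_
    refine ContinuousOn.div (by fun_prop) continuous_norm.continuousOn ?_
    intro x hx
    exact norm_ne_zero_iff.2 hx

namespace URidgeAux

/-- the zonal profiles of the iterates -/
noncomputable def ph (m : ℕ) [NeZero m] (a : ℝ) : ℕ → ℝ → ℝ
  | 0 => fun t => Real.cos (a * t)
  | j + 1 => Rad (nuS m) (ph m a j)

theorem ph_cont {m : ℕ} [NeZero m] (hm : 2 ≤ m) (a : ℝ) (j : ℕ) :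
    ContinuousOn (ph m a j) (Icc (-1) 1) := by
  induction j with
  | zero =>
    show ContinuousOn (fun t => Real.cos (a * t)) (Icc (-1) 1)
    fun_prop
  | succ j ih => exact rad_contOn (nuS_slaw hm) ih

theorem cos_sub (a x y : ℝ) :
    |Real.cos (a * x) - Real.cos (a * y)| ≤ a ^ 2 / 2 * |x ^ 2 - y ^ 2| := by
  rw [Real.cos_sub_cos, abs_mul, abs_mul]
  have h1 := Real.abs_sin_le_abs (x := (a * x + a * y) / 2)
  have h2 := Real.abs_sin_le_abs (x := (a * x - a * y) / 2)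
  have h3 : |(-2 : ℝ)| = 2 := by norm_num
  rw [h3]
  have h4 : 2 * |Real.sin ((a * x + a * y) / 2)| * |Real.sin ((a * x - a * y) / 2)| ≤
      2 * |(a * x + a * y) / 2| * |(a * x - a * y) / 2| := by
    have := mul_le_mul h1 h2 (abs_nonneg _) (abs_nonneg _)
    nlinarith
  refine h4.trans (le_of_eq ?_)
  have h5 : a ^ 2 / 2 * |x ^ 2 - y ^ 2| = |a ^ 2 / 2 * (x ^ 2 - y ^ 2)| := by
    rw [abs_mul, abs_of_nonneg (by positivity : (0 : ℝ) ≤ a ^ 2 / 2)]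
  have h6 : (2 : ℝ) * |(a * x + a * y) / 2| * |(a * x - a * y) / 2| =
      |2 * ((a * x + a * y) / 2) * ((a * x - a * y) / 2)| := by
    rw [abs_mul, abs_mul]
    norm_num
  rw [h5, h6]
  congr 1
  ring

theorem ph_mod {m : ℕ} [NeZero m] (hm : 2 ≤ m) (a : ℝ) (j : ℕ) : ∀ x y : ℝ, |x| ≤ 1 → |y| ≤ 1 →
    |ph m a j x - ph m a j y| ≤ a ^ 2 / 2 * ((m : ℝ)⁻¹) ^ j * |x ^ 2 - y ^ 2| := by
  induction j with
  | zero =>
    intro x y _ _
    rw [pow_zero, mul_one]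
    exact cos_sub a x y
  | succ j ih =>
    intro x y hx hy
    have hA : 0 ≤ a ^ 2 / 2 * ((m : ℝ)⁻¹) ^ j := by positivity
    have h := rad_est1 (nuS_slaw hm) (p := 2) (by norm_num) le_rfl (ph_cont hm a j) hA le_rfl
      (B := 0) (fun x y hx hy => by
        rw [zero_mul, add_zero, Real.rpow_two, Real.rpow_two, sq_abs, sq_abs]
        exact ih x y hx hy) hx hy
    have e1 : (m : ℝ) ^ (-((2 : ℝ) / 2)) = (m : ℝ)⁻¹ := by
      rw [div_self (two_ne_zero), Real.rpow_neg_one]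
    have e2 : ∀ z : ℝ, z ^ ((2 : ℝ) / 2) = z := fun z => by
      rw [div_self (two_ne_zero), Real.rpow_one]
    rw [e1, e2, e2, zero_mul, add_zero] at h
    have e3 : |1 - x ^ 2 - (1 - y ^ 2)| = |x ^ 2 - y ^ 2| := by
      rw [← abs_neg]
      congr 1
      ring
    rw [e3] at h
    refine le_trans h (le_of_eq ?_)
    rw [pow_succ]
    ring

theorem iter_eq {m : ℕ} [NeZero m] (hm : 2 ≤ m) (hE : finrank ℝ E = m + 1) (e : E)
    (he : ‖e‖ = 1) (a : ℝ) (j : ℕ) : ∀ u : E, ‖u‖ = 1 →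
    ((RR m)^[j] (ridge (a • e))) u = ph m a j ⟪u, e⟫ := by
  induction j with
  | zero =>
    intro u hu
    show Real.cos (⟪a • e, u⟫ / ‖u‖) = Real.cos (a * ⟪u, e⟫)
    rw [hu, div_one, inner_smul_left, real_inner_comm]
    rfl
  | succ j ih =>
    intro u hu
    rw [Function.iterate_succ_apply']
    have h1 : StarIB.sphInt ((RR m)^[j] (ridge (a • e))) u =
        StarIB.sphInt (fun v => ph m a j ⟪v, e⟫) u := by
      unfold StarIB.sphInt
      congr 1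
      funext v
      apply ih
      have hv : ‖(v : (ℝ ∙ u)ᗮ)‖ = 1 := by
        have := v.2
        rwa [mem_sphere_zero_iff_norm] at this
      exact hv
    show (massS m)⁻¹ * StarIB.sphInt ((RR m)^[j] (ridge (a • e))) u = _
    rw [h1, sphInt_zonal hm hE e u he hu _ (ph_cont hm a j), ← mul_assoc,
      inv_mul_cancel₀ (massS_pos (by omega)).ne', one_mul]
    rfl

end URidgeAux

open URidgeAux

theorem ridge_decay {m : ℕ} [NeZero m] (hm : 2 ≤ m) (hE : finrank ℝ E = m + 1) (ξ : E) :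
    ∃ C : ℝ, 0 ≤ C ∧ ∀ (j : ℕ) (u v : E), ‖u‖ = 1 → ‖v‖ = 1 →
      |((RR m)^[j] (ridge ξ)) u - ((RR m)^[j] (ridge ξ)) v| ≤ C * ((m : ℝ)⁻¹) ^ j := by
  obtain ⟨e, he, hξ⟩ : ∃ e : E, ‖e‖ = 1 ∧ ξ = ‖ξ‖ • e := by
    by_cases h : ξ = 0
    · have : Nontrivial E := by
        apply Module.nontrivial_of_finrank_pos (R := ℝ)
        omega
      obtain ⟨e, he⟩ := exists_norm_eq E zero_le_one
      exact ⟨e, he, by simp [h]⟩
    · refine ⟨‖ξ‖⁻¹ • ξ, ?_, ?_⟩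
      · rw [norm_smul, norm_inv, norm_norm, inv_mul_cancel₀ (norm_ne_zero_iff.2 h)]
      · rw [smul_smul, mul_inv_cancel₀ (norm_ne_zero_iff.2 h), one_smul]
  refine ⟨‖ξ‖ ^ 2 / 2, by positivity, fun j u v hu hv => ?_⟩
  have h1 := iter_eq hm hE e he ‖ξ‖ j u hu
  have h2 := iter_eq hm hE e he ‖ξ‖ j v hv
  rw [← hξ] at h1 h2
  rw [h1, h2]
  have hin : ∀ w : E, ‖w‖ = 1 → |⟪w, e⟫| ≤ 1 := fun w hw => by
    have := abs_real_inner_le_norm w e
    rwa [hw, he, one_mul] at this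
  have h3 := ph_mod hm ‖ξ‖ j _ _ (hin u hu) (hin v hv)
  refine h3.trans ?_
  have h4 : |⟪u, e⟫ ^ 2 - ⟪v, e⟫ ^ 2| ≤ 1 := by
    have hu1 := (sq_le_one_iff_abs_le_one _).2 (hin u hu)
    have hv1 := (sq_le_one_iff_abs_le_one _).2 (hin v hv)
    rw [abs_le]
    constructor <;> nlinarith [sq_nonneg ⟪u, e⟫, sq_nonneg ⟪v, e⟫]
  have h5 : 0 ≤ ‖ξ‖ ^ 2 / 2 * ((m : ℝ)⁻¹) ^ j := by positivity
  nlinarith

end StarTr
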