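import Pool.Agent.StarTr.UShiftA

set_option autoImplicit false

/-!
# StarTr, module UShift: translating star bodies is almost an `L²` contraction for the radial functions

`UShift_L2`:  By polar coordinates (`StarIB.lintegral_polar`), with `φ (z) = d (z/‖z‖) ‖z‖^(-m)` on `{z | c₂ (z/‖z‖) < ‖z‖ ≤ c₁ (z/‖z‖)}`,
`∫_{c₂ < c₁} d^2 dσ = ∫ φ dz = ∫ φ (y - x) dy` (translation invariance) and by `UShift_point` (with `u = (y-x)/‖y-x‖`, `s = ‖y - x‖`) the set of all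
`y` with `φ (y - x) ≠ 0` is contained in `{y | k₂ y < ‖y‖ ≤ k₁ y}`, and `φ (y - x) ≤ (1 + C η) (k₁ y - k₂ y) ‖y‖^(-m)` there.  Polar coordinates again
give `≤ (1 + C η) ∫_{k₂ < k₁} (k₁ - k₂)^2 dσ`.  (For the inclusion: `‖y‖ ≤ k₁ y` and `k₂ y < ‖y‖`: the function `s ↦ ‖x + s u‖ - k_j (x + s u)` is
strictly increasing near `s = 1`, as in `UShift_mono`.)  Exchange the roles of `1` and `2` and add.  It is convenient to work with `∫⁻` and
`ENNReal.ofReal`.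
-/

open MeasureTheory Set Metric Module
open scoped ENNReal RealInnerProductSpace

namespace StarTr

variable {E : Type*} [NormedAddCommGroup E] [InnerProductSpace ℝ E] [FiniteDimensional ℝ E]
  [MeasurableSpace E] [BorelSpace E]

namespace UShiftAux

/-- the density used with polar coordinates -/
noncomputable def ph (m : ℕ) (c₁ c₂ : E → ℝ) : E → ℝ≥0∞ :=
  {z : E | z ≠ 0 ∧ c₂ z < ‖z‖ ∧ ‖z‖ ≤ c₁ z}.indicator
    (fun z => ENNReal.ofReal ((c₁ z - c₂ z) * (‖z‖ ^ m)⁻¹))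

omit [InnerProductSpace ℝ E] [FiniteDimensional ℝ E] in
theorem meas {c : E → ℝ} (hc : ContinuousOn c {x : E | x ≠ 0}) : Measurable c := by
  classical
  have h := ContinuousOn.measurable_piecewise (s := {x : E | x ≠ 0}) (f := c)
    (g := fun _ => c 0) hc continuousOn_const (measurableSet_singleton (0 : E)).compl
  have h2 : {x : E | x ≠ 0}.piecewise c (fun _ => c 0) = c := by
    funext x
    by_cases hx : x = 0
    · subst hx
      simp
    · simp [hx]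
  rwa [h2] at h

omit [InnerProductSpace ℝ E] [FiniteDimensional ℝ E] in
theorem ph_meas {m : ℕ} {c₁ c₂ : E → ℝ} (h₁ : Measurable c₁) (h₂ : Measurable c₂) :
    Measurable (ph m c₁ c₂) := by
  unfold ph
  refine Measurable.indicator ?_ ?_
  · exact ((h₁.sub h₂).mul (measurable_norm.pow_const m).inv).ennreal_ofReal
  · exact (measurableSet_singleton (0 : E)).compl.inter
      ((measurableSet_lt h₂ measurable_norm).inter (measurableSet_le measurable_norm h₁))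

theorem ph_int {m : ℕ} (hE : finrank ℝ E = m + 1) {c₁ c₂ : E → ℝ} (h₁ : Measurable c₁)
    (h₂ : Measurable c₂) (hom₁ : ∀ y : E, y ≠ 0 → ∀ s : ℝ, 0 < s → c₁ (s • y) = c₁ y)
    (hom₂ : ∀ y : E, y ≠ 0 → ∀ s : ℝ, 0 < s → c₂ (s • y) = c₂ y)
    (pos : ∀ u : E, ‖u‖ = 1 → 0 < c₂ u) :
    ∫⁻ z : E, ph m c₁ c₂ z = ∫⁻ θ : sphere (0 : E) 1,
      ENNReal.ofReal (c₁ θ - c₂ θ) * ENNReal.ofReal (c₁ θ - c₂ θ)
        ∂((volume : Measure E).toSphere) := by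
  have : Nontrivial E := by
    apply Module.nontrivial_of_finrank_pos (R := ℝ)
    omega
  rw [StarIB.lintegral_polar _ (ph_meas h₁ h₂), hE]
  refine lintegral_congr fun θ => ?_
  have hθ : ‖(θ : E)‖ = 1 := by
    have := θ.2
    rwa [mem_sphere_zero_iff_norm] at this
  have hθ0 : (θ : E) ≠ 0 := by
    intro h
    rw [h, norm_zero] at hθ
    exact zero_ne_one hθ
  have hp := pos θ hθ
  have e1 : ∀ r ∈ Ioi (0 : ℝ), ENNReal.ofReal (r ^ (m + 1 - 1)) * ph m c₁ c₂ (r • (θ : E)) =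
      (Ioc (c₂ θ) (c₁ θ)).indicator (fun _ => ENNReal.ofReal (c₁ θ - c₂ θ)) r := by
    intro r hr
    have hr0 : (0 : ℝ) < r := hr
    have hn : ‖r • (θ : E)‖ = r := by rw [norm_smul, hθ, mul_one, Real.norm_of_nonneg hr0.le]
    have hne : r • (θ : E) ≠ 0 := smul_ne_zero hr0.ne' hθ0
    unfold ph
    by_cases h : r ∈ Ioc (c₂ θ) (c₁ θ)
    · rw [indicator_of_mem h, indicator_of_mem]
      · rw [hn, hom₁ _ hθ0 r hr0, hom₂ _ hθ0 r hr0, ← ENNReal.ofReal_mul (by positivity)]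
        congr 1
        have : r ^ m ≠ 0 := by positivity
        rw [Nat.add_sub_cancel]
        field_simp
      · simp only [mem_ofPred_eq]
        rw [hn, hom₁ _ hθ0 r hr0, hom₂ _ hθ0 r hr0]
        exact ⟨hne, h.1, h.2⟩
    · rw [indicator_of_notMem h, indicator_of_notMem, mul_zero]
      simp only [mem_ofPred_eq]
      rw [hn, hom₁ _ hθ0 r hr0, hom₂ _ hθ0 r hr0]
      rintro ⟨-, h3, h4⟩
      exact h ⟨h3, h4⟩
  rw [setLIntegral_congr_fun measurableSet_Ioi e1, lintegral_indicator measurableSet_Ioc,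
    lintegral_const, Measure.restrict_restrict measurableSet_Ioc]
  rw [Measure.restrict_apply_univ]
  congr 1
  have e2 : Ioc (c₂ (θ : E)) (c₁ θ) ∩ Ioi (0 : ℝ) = Ioc (c₂ θ) (c₁ θ) := by
    ext r
    simp only [mem_inter_iff, mem_Ioc, mem_Ioi]
    exact ⟨fun h => h.1, fun h => ⟨h, hp.trans h.1⟩⟩
  rw [e2, Real.volume_Ioc]

theorem pow_bd (m : ℕ) {t : ℝ} (ht : 0 ≤ t) (ht1 : t ≤ 1) : (1 + t) ^ m ≤ 1 + m * 2 ^ m * t := by
  induction m with
  | zero => simp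
  | succ k ih =>
    have h1 : (1 + t) ^ (k + 1) ≤ (1 + k * 2 ^ k * t) * (1 + t) := by
      rw [pow_succ]
      exact mul_le_mul_of_nonneg_right ih (by linarith)
    refine h1.trans ?_
    have h2 : (1 : ℝ) ≤ 2 ^ k := one_le_pow₀ (by norm_num)
    have h3 : (0 : ℝ) ≤ (k : ℝ) * 2 ^ k * t := by positivity
    have h4 : (k : ℝ) * 2 ^ k * t * t ≤ (k : ℝ) * 2 ^ k * t := mul_le_of_le_one_right h3 ht1
    have h5 : t ≤ 2 ^ (k + 1) * t := by
      have : (1 : ℝ) ≤ 2 ^ (k + 1) := one_le_pow₀ (by norm_num)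
      nlinarith
    push_cast
    have e : (1 + (k : ℝ) * 2 ^ k * t) * (1 + t) =
        1 + t + (k : ℝ) * 2 ^ k * t + (k : ℝ) * 2 ^ k * t * t := by ring
    rw [e]
    have e2 : 1 + ((k : ℝ) + 1) * 2 ^ (k + 1) * t =
        1 + 2 ^ (k + 1) * t + 2 * ((k : ℝ) * 2 ^ k * t) := by ring
    rw [e2]
    linarith

omit [FiniteDimensional ℝ E] [MeasurableSpace E] [BorelSpace E] in
theorem ph_le (m : ℕ) {η : ℝ} (hη : 0 < η) (hη1 : η ≤ 1 / 100) {x : E} (hx : ‖x‖ ≤ η)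
    {k₁ k₂ c₁ c₂ : E → ℝ} (hk₁ : Near η k₁) (hk₂ : Near η k₂)
    (hc₁ : Shifted η x k₁ c₁) (hc₂ : Shifted η x k₂ c₂) (y : E) :
    ph m c₁ c₂ (y - x) ≤ ENNReal.ofReal (1 + (25 + 4 * (m * 2 ^ m)) * η) * ph m k₁ k₂ y := by
  unfold ph
  by_cases h : y - x ∈ {z : E | z ≠ 0 ∧ c₂ z < ‖z‖ ∧ ‖z‖ ≤ c₁ z}
  swap
  · rw [indicator_of_notMem h]
    exact zero_le
  rw [indicator_of_mem h]
  obtain ⟨hz0, hz2, hz1⟩ := h
  obtain ⟨z, hz⟩ : ∃ z, z = y - x := ⟨_, rfl⟩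
  rw [← hz] at hz0 hz2 hz1 ⊢
  have hy : y = x + z := by rw [hz]; abel
  have hn : 0 < ‖z‖ := norm_pos_iff.mpr hz0
  obtain ⟨u, hu⟩ : ∃ u, u = ‖z‖⁻¹ • z := ⟨_, rfl⟩
  have hu1 : ‖u‖ = 1 := by
    rw [hu, norm_smul, norm_inv, norm_norm, inv_mul_cancel₀ hn.ne']
  have hzu : z = ‖z‖ • u := by
    rw [hu, smul_smul, mul_inv_cancel₀ hn.ne', one_smul]
  have e1 : c₁ z = c₁ u := by
    rw [hu, hc₁.hom z hz0 _ (inv_pos.mpr hn)]
  have e2 : c₂ z = c₂ u := by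
    rw [hu, hc₂.hom z hz0 _ (inv_pos.mpr hn)]
  obtain ⟨s, hs⟩ : ∃ s, s = ‖z‖ := ⟨_, rfl⟩
  rw [← hs] at hn hz2 hz1 hzu ⊢
  rw [e1] at hz1 ⊢
  rw [e2] at hz2 ⊢
  rw [hzu] at hy
  have n1 := abs_le.mp (hc₁.near u hu1)
  have n2 := abs_le.mp (hc₂.near u hu1)
  have hpt := UShift_point hη hη1 hx hu1 hk₁ hk₂ hc₁ hc₂ hz2 hz1
  rw [← hy] at hpt
  have m1 := UShift_mono hη hη1 hx hu1 hk₁ (s := s) (s' := c₁ u) (by linarith) hz1 (by linarith)
  have m2 := UShift_mono hη hη1 hx hu1 hk₂ (s := c₂ u) (s' := s) (by linarith) hz2.le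
    (by linarith)
  rw [hc₁.eq u hu1, ← hy] at m1
  rw [hc₂.eq u hu1, ← hy] at m2
  have hd : 0 < c₁ u - c₂ u := by linarith
  have hyn : 0 < ‖y‖ := by
    have h1 : ‖s • u‖ ≤ ‖x‖ + ‖y‖ := by
      have : s • u = y - x := by rw [hy]; abel
      rw [this]
      linarith [norm_sub_le y x]
    rw [norm_smul, hu1, mul_one, Real.norm_of_nonneg hn.le] at h1
    linarith
  have hmem : y ∈ {z : E | z ≠ 0 ∧ k₂ z < ‖z‖ ∧ ‖z‖ ≤ k₁ z} :=
    ⟨norm_pos_iff.mp hyn, by linarith, by linarith⟩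
  rw [indicator_of_mem hmem, ← ENNReal.ofReal_mul (by positivity)]
  apply ENNReal.ofReal_le_ofReal
  -- the ratio of the norms
  have hr : ‖y‖ ≤ s * (1 + 2 * η) := by
    have h1 : ‖y‖ ≤ ‖x‖ + s := by
      rw [hy]
      refine (norm_add_le _ _).trans ?_
      rw [norm_smul, hu1, mul_one, Real.norm_of_nonneg hn.le]
    nlinarith
  have hr2 : (s ^ m)⁻¹ ≤ (1 + 2 * (m * 2 ^ m) * η) * (‖y‖ ^ m)⁻¹ := by
    have h1 : ‖y‖ ^ m ≤ s ^ m * (1 + m * 2 ^ m * (2 * η)) := by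
      refine (pow_le_pow_left₀ hyn.le hr m).trans ?_
      rw [mul_pow]
      exact mul_le_mul_of_nonneg_left (pow_bd m (by linarith) (by linarith)) (by positivity)
    have h2 : 0 < s ^ m := by positivity
    have h3 : 0 < ‖y‖ ^ m := by positivity
    rw [inv_le_iff_one_le_mul₀ h2]
    rw [mul_assoc, inv_mul_eq_div, mul_div_assoc', le_div_iff₀ h3]
    linarith
  have hB : 0 ≤ (m : ℝ) * 2 ^ m := by positivity
  obtain ⟨B, hBe⟩ : ∃ B : ℝ, B = (m : ℝ) * 2 ^ m := ⟨_, rfl⟩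
  rw [← hBe] at hr2 hB ⊢
  have hc : c₁ u - c₂ u ≤ (1 + 25 * η) * (k₁ y - k₂ y) := by
    have h1 : 1 ≤ (1 + 25 * η) * (1 - 20 * η) := by nlinarith
    calc c₁ u - c₂ u ≤ ((1 + 25 * η) * (1 - 20 * η)) * (c₁ u - c₂ u) :=
          le_mul_of_one_le_left hd.le h1
      _ = (1 + 25 * η) * ((1 - 20 * η) * (c₁ u - c₂ u)) := by ring
      _ ≤ _ := mul_le_mul_of_nonneg_left hpt (by positivity)
  have hk : 0 < k₁ y - k₂ y := by
    have : 0 < (1 - 20 * η) * (c₁ u - c₂ u) := mul_pos (by linarith) hd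
    linarith
  have hw : 0 < (‖y‖ ^ m)⁻¹ := by positivity
  calc (c₁ u - c₂ u) * (s ^ m)⁻¹
      ≤ ((1 + 25 * η) * (k₁ y - k₂ y)) * ((1 + 2 * B * η) * (‖y‖ ^ m)⁻¹) :=
        mul_le_mul hc hr2 (by positivity) (by positivity)
    _ = ((1 + 25 * η) * (1 + 2 * B * η)) * ((k₁ y - k₂ y) * (‖y‖ ^ m)⁻¹) := by ring
    _ ≤ (1 + (25 + 4 * B) * η) * ((k₁ y - k₂ y) * (‖y‖ ^ m)⁻¹) := by
        apply mul_le_mul_of_nonneg_right _ (by positivity)
        have h1 : 50 * B * η * η ≤ 50 * B * η * (1 / 100) :=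
          mul_le_mul_of_nonneg_left hη1 (by positivity)
        have h2 : 0 ≤ B * η := by positivity
        nlinarith

theorem sq_split (a b : ℝ) : ENNReal.ofReal ((a - b) ^ 2) =
    ENNReal.ofReal (a - b) * ENNReal.ofReal (a - b) +
      ENNReal.ofReal (b - a) * ENNReal.ofReal (b - a) := by
  rcases le_total a b with h | h
  · rw [ENNReal.ofReal_of_nonpos (by linarith : a - b ≤ 0), zero_mul, zero_add,
      ← ENNReal.ofReal_mul (by linarith)]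
    congr 1
    ring
  · rw [ENNReal.ofReal_of_nonpos (by linarith : b - a ≤ 0), zero_mul, add_zero,
      ← ENNReal.ofReal_mul (by linarith)]
    congr 1
    ring

theorem total {m : ℕ} (hE : finrank ℝ E = m + 1) {c₁ c₂ : E → ℝ} (h₁ : Measurable c₁)
    (h₂ : Measurable c₂) (hom₁ : ∀ y : E, y ≠ 0 → ∀ s : ℝ, 0 < s → c₁ (s • y) = c₁ y)
    (hom₂ : ∀ y : E, y ≠ 0 → ∀ s : ℝ, 0 < s → c₂ (s • y) = c₂ y)
    (pos₁ : ∀ u : E, ‖u‖ = 1 → 0 < c₁ u) (pos₂ : ∀ u : E, ‖u‖ = 1 → 0 < c₂ u) :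
    ∫⁻ θ : sphere (0 : E) 1, ENNReal.ofReal ((c₁ θ - c₂ θ) ^ 2)
      ∂((volume : Measure E).toSphere) = (∫⁻ z : E, ph m c₁ c₂ z) + (∫⁻ z : E, ph m c₂ c₁ z) := by
  rw [ph_int hE h₁ h₂ hom₁ hom₂ pos₂, ph_int hE h₂ h₁ hom₂ hom₁ pos₁, ← lintegral_add_left]
  · exact lintegral_congr fun θ => sq_split _ _
  · have h3 : Measurable fun θ : sphere (0 : E) 1 => ENNReal.ofReal (c₁ θ - c₂ θ) :=
      ((h₁.comp measurable_subtype_coe).sub (h₂.comp measurable_subtype_coe)).ennreal_ofReal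
    exact h3.mul h3

end UShiftAux

open UShiftAux in
theorem UShift_L2 {m : ℕ} (hm : 2 ≤ m) (hE : finrank ℝ E = m + 1) : ∃ C : ℝ, 0 ≤ C ∧
    ∀ (η : ℝ) (x : E), 0 < η → η ≤ 1 / 100 → ‖x‖ ≤ η → ∀ k₁ k₂ c₁ c₂ : E → ℝ, Near η k₁ → Near η k₂ →
    ContinuousOn k₁ {x : E | x ≠ 0} → ContinuousOn k₂ {x : E | x ≠ 0} →
    Shifted η x k₁ c₁ → Shifted η x k₂ c₂ →
    SI (fun u => (c₁ u - c₂ u) ^ 2) ≤ (1 + C * η) * SI (fun u => (k₁ u - k₂ u) ^ 2) := by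
  refine ⟨25 + 4 * (m * 2 ^ m), by positivity, ?_⟩
  intro η x hη hη1 hx k₁ k₂ c₁ c₂ hk₁ hk₂ hkc₁ hkc₂ hc₁ hc₂
  have mk₁ := meas hkc₁
  have mk₂ := meas hkc₂
  have mc₁ := meas hc₁.cont
  have mc₂ := meas hc₂.cont
  have pk₁ : ∀ u : E, ‖u‖ = 1 → 0 < k₁ u := fun u hu => by
    have := abs_le.mp (hk₁.near u hu)
    linarith
  have pk₂ : ∀ u : E, ‖u‖ = 1 → 0 < k₂ u := fun u hu => by
    have := abs_le.mp (hk₂.near u hu)
    linarith
  have pc₁ : ∀ u : E, ‖u‖ = 1 → 0 < c₁ u := fun u hu => by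
    have := abs_le.mp (hc₁.near u hu)
    linarith
  have pc₂ : ∀ u : E, ‖u‖ = 1 → 0 < c₂ u := fun u hu => by
    have := abs_le.mp (hc₂.near u hu)
    linarith
  have tk := total hE mk₁ mk₂ hk₁.hom hk₂.hom pk₁ pk₂
  have tc := total hE mc₁ mc₂ hc₁.hom hc₂.hom pc₁ pc₂
  have key : ∀ (f g a b : E → ℝ), Near η a → Near η b → Shifted η x a f → Shifted η x b g →
      ∫⁻ z : E, ph m f g z ≤
        ENNReal.ofReal (1 + (25 + 4 * (m * 2 ^ m)) * η) * ∫⁻ z : E, ph m a b z := by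
    intro f g a b ha hb hf hg
    rw [← lintegral_sub_right_eq_self (fun z => ph m f g z) x,
      ← lintegral_const_mul' _ _ ENNReal.ofReal_ne_top]
    exact lintegral_mono fun y => ph_le m hη hη1 hx ha hb hf hg y
  have hle : ∫⁻ θ : sphere (0 : E) 1, ENNReal.ofReal ((c₁ θ - c₂ θ) ^ 2)
      ∂((volume : Measure E).toSphere) ≤ ENNReal.ofReal (1 + (25 + 4 * (m * 2 ^ m)) * η) *
      ∫⁻ θ : sphere (0 : E) 1, ENNReal.ofReal ((k₁ θ - k₂ θ) ^ 2)
        ∂((volume : Measure E).toSphere) := by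
    rw [tk, tc, mul_add]
    exact add_le_add (key _ _ _ _ hk₁ hk₂ hc₁ hc₂) (key _ _ _ _ hk₂ hk₁ hc₂ hc₁)
  have hsi : ∀ (f g : E → ℝ), Measurable f → Measurable g → SI (fun u => (f u - g u) ^ 2) =
      (∫⁻ θ : sphere (0 : E) 1, ENNReal.ofReal ((f θ - g θ) ^ 2)
        ∂((volume : Measure E).toSphere)).toReal := by
    intro f g hf hg
    unfold SI
    rw [integral_eq_lintegral_of_nonneg_ae]
    · exact Filter.Eventually.of_forall fun θ => sq_nonneg _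
    · exact (((hf.comp measurable_subtype_coe).sub
        (hg.comp measurable_subtype_coe)).pow_const 2).aestronglyMeasurable
  have hfin : ∫⁻ θ : sphere (0 : E) 1, ENNReal.ofReal ((k₁ θ - k₂ θ) ^ 2)
      ∂((volume : Measure E).toSphere) ≠ ⊤ := by
    have h1 : ∫⁻ θ : sphere (0 : E) 1, ENNReal.ofReal ((k₁ θ - k₂ θ) ^ 2)
      ∂((volume : Measure E).toSphere) ≤ ∫⁻ _ : sphere (0 : E) 1, 1
      ∂((volume : Measure E).toSphere) := by
      refine lintegral_mono fun θ => ?_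
      have hθ : ‖(θ : E)‖ = 1 := by
        have := θ.2
        rwa [mem_sphere_zero_iff_norm] at this
      have a1 := abs_le.mp (hk₁.near θ hθ)
      have a2 := abs_le.mp (hk₂.near θ hθ)
      rw [← ENNReal.ofReal_one]
      apply ENNReal.ofReal_le_ofReal
      nlinarith
    refine ne_top_of_le_ne_top ?_ h1
    rw [lintegral_const, one_mul]
    exact measure_ne_top _ _
  rw [hsi _ _ mc₁ mc₂, hsi _ _ mk₁ mk₂]
  have h := ENNReal.toReal_mono (ENNReal.mul_ne_top ENNReal.ofReal_ne_top hfin) hle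
  rwa [ENNReal.toReal_mul, ENNReal.toReal_ofReal (by positivity)] at h

end StarTr
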