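import Pool.Agent.StarTr.UDef
import Pool.Agent.StarIB.Bodies

set_option autoImplicit false

/-!
# StarTr, module UShiftA: translating star bodies is almost an `L²` contraction for the radial functions

`k₁, k₂` are the radial functions of the bodies `M₁, M₂` (close to the unit ball), `c₁, c₂` those of `M₁ - x`, `M₂ - x`; the relation between them
is `Shifted`: for every unit vector `u` the point `x + c u` satisfies `‖x + c u‖ = k (x + c u)`.

Notation `z_j = x + c_j(u) u`, `d = c₁ u - c₂ u > 0`, and `y = x + s u` with `c₂ u < s ≤ c₁ u`.  Then `y ≠ 0` and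
`k₁ y - k₂ y ≥ (1 - C η) d` (`UShift_point`):  `k₁ y ≥ k₁ z₁ - η ‖y/‖y‖ - z₁/‖z₁‖‖ ≥ ‖z₁‖ - 4 η d`, `k₂ y ≤ ‖z₂‖ + 4 η d`, and
`‖z₁‖ - ‖z₂‖ = (c₁^2 - c₂^2 + 2 (c₁-c₂) ⟨x,u⟩)/(‖z₁‖ + ‖z₂‖) ≥ (1 - 4 η) d`.

-/

open MeasureTheory Set Metric Module
open scoped ENNReal RealInnerProductSpace

namespace StarTr

variable {E : Type*} [NormedAddCommGroup E] [InnerProductSpace ℝ E] [FiniteDimensional ℝ E]
  [MeasurableSpace E] [BorelSpace E]

/-- radial functions close to `1` -/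
structure Near (η : ℝ) (k : E → ℝ) : Prop where
  hom : ∀ x : E, x ≠ 0 → ∀ s : ℝ, 0 < s → k (s • x) = k x
  near : ∀ u : E, ‖u‖ = 1 → |k u - 1| ≤ η
  lip : ∀ u v : E, ‖u‖ = 1 → ‖v‖ = 1 → |k u - k v| ≤ η * ‖u - v‖

/-- `c` is the radial function of `M - x`, `k` the one of `M` -/
structure Shifted (η : ℝ) (x : E) (k c : E → ℝ) : Prop where
  hom : ∀ y : E, y ≠ 0 → ∀ s : ℝ, 0 < s → c (s • y) = c y
  cont : ContinuousOn c {x : E | x ≠ 0}
  near : ∀ u : E, ‖u‖ = 1 → |c u - 1| ≤ 3 * η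
  eq : ∀ u : E, ‖u‖ = 1 → ‖x + c u • u‖ = k (x + c u • u)

namespace UShiftAAux

omit [FiniteDimensional ℝ E] [MeasurableSpace E] [BorelSpace E] in
theorem dir_sub {a b : E} (ha : a ≠ 0) (hb : b ≠ 0) :
    ‖(1 / ‖a‖) • a - (1 / ‖b‖) • b‖ ≤ 2 * ‖a - b‖ / ‖a‖ := by
  have ha' : 0 < ‖a‖ := norm_pos_iff.2 ha
  have hb' : 0 < ‖b‖ := norm_pos_iff.2 hb
  have e : (1 / ‖a‖) • a - (1 / ‖b‖) • b = (1 / ‖a‖) • (a - b) + (1 / ‖a‖ - 1 / ‖b‖) • b := by
    rw [smul_sub, sub_smul]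
    abel
  have h1 : ‖(1 / ‖a‖ - 1 / ‖b‖) • b‖ = |‖b‖ - ‖a‖| / ‖a‖ := by
    rw [norm_smul, Real.norm_eq_abs]
    have e2 : 1 / ‖a‖ - 1 / ‖b‖ = (‖b‖ - ‖a‖) / (‖a‖ * ‖b‖) := by
      field_simp
    rw [e2, abs_div, abs_of_pos (mul_pos ha' hb')]
    field_simp
  have h2 : ‖(1 / ‖a‖) • (a - b)‖ = ‖a - b‖ / ‖a‖ := by
    rw [norm_smul, Real.norm_of_nonneg (by positivity)]
    ring
  rw [e]
  refine (norm_add_le _ _).trans ?_
  rw [h1, h2]
  have h3 : |‖b‖ - ‖a‖| ≤ ‖a - b‖ := by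
    rw [abs_sub_comm]
    exact abs_norm_sub_norm_le a b
  have h4 : |‖b‖ - ‖a‖| / ‖a‖ ≤ ‖a - b‖ / ‖a‖ := div_le_div_of_nonneg_right h3 ha'.le
  calc ‖a - b‖ / ‖a‖ + |‖b‖ - ‖a‖| / ‖a‖ ≤ ‖a - b‖ / ‖a‖ + ‖a - b‖ / ‖a‖ := by linarith
    _ = 2 * ‖a - b‖ / ‖a‖ := by ring

omit [FiniteDimensional ℝ E] [MeasurableSpace E] [BorelSpace E] in
theorem k_sub {η : ℝ} (hη : 0 < η) {k : E → ℝ} (hk : Near η k) {a b : E} {δ : ℝ}
    (ha : 49 / 100 ≤ ‖a‖) (hb : b ≠ 0) (hab : ‖a - b‖ ≤ δ) :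
    |k a - k b| ≤ 5 * η * δ := by
  have ha' : 0 < ‖a‖ := by linarith
  have ha0 : a ≠ 0 := norm_pos_iff.1 ha'
  have hb' : 0 < ‖b‖ := norm_pos_iff.2 hb
  have e1 : k ((1 / ‖a‖) • a) = k a := hk.hom a ha0 _ (by positivity)
  have e2 : k ((1 / ‖b‖) • b) = k b := hk.hom b hb _ (by positivity)
  have n1 : ‖(1 / ‖a‖) • a‖ = 1 := by
    rw [norm_smul, Real.norm_of_nonneg (by positivity)]
    field_simp
  have n2 : ‖(1 / ‖b‖) • b‖ = 1 := by
    rw [norm_smul, Real.norm_of_nonneg (by positivity)]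
    field_simp
  have h := hk.lip _ _ n1 n2
  rw [e1, e2] at h
  have h2 := dir_sub ha0 hb
  have h3 : 2 * ‖a - b‖ / ‖a‖ ≤ 5 * δ := by
    rw [div_le_iff₀ ha']
    have hδ : 0 ≤ δ := le_trans (norm_nonneg _) hab
    nlinarith
  calc |k a - k b| ≤ η * ‖(1 / ‖a‖) • a - (1 / ‖b‖) • b‖ := h
    _ ≤ η * (5 * δ) := mul_le_mul_of_nonneg_left (h2.trans h3) hη.le
    _ = 5 * η * δ := by ring

omit [FiniteDimensional ℝ E] [MeasurableSpace E] [BorelSpace E] in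
theorem norm_lower {η : ℝ} {x u : E} (hx : ‖x‖ ≤ η) (hu : ‖u‖ = 1) {s : ℝ} (hs : 0 ≤ s) :
    s - η ≤ ‖x + s • u‖ := by
  have h1 : ‖s • u‖ = s := by
    rw [norm_smul, hu, mul_one, Real.norm_of_nonneg hs]
  have h2 : ‖s • u‖ ≤ ‖x + s • u‖ + ‖x‖ := by
    have : s • u = (x + s • u) - x := by abel
    conv_lhs => rw [this]
    exact norm_sub_le _ _
  linarith

omit [FiniteDimensional ℝ E] [MeasurableSpace E] [BorelSpace E] in
theorem norm_upper {η : ℝ} {x u : E} (hx : ‖x‖ ≤ η) (hu : ‖u‖ = 1) {s : ℝ} (hs : 0 ≤ s) :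
    ‖x + s • u‖ ≤ s + η := by
  have h1 : ‖s • u‖ = s := by
    rw [norm_smul, hu, mul_one, Real.norm_of_nonneg hs]
  have h2 := norm_add_le x (s • u)
  linarith

omit [FiniteDimensional ℝ E] [MeasurableSpace E] [BorelSpace E] in
theorem norm_diff {η : ℝ} (hη : 0 < η) (hη1 : η ≤ 1 / 100) {x u : E} (hx : ‖x‖ ≤ η)
    (hu : ‖u‖ = 1) {s s' : ℝ} (hs : 1 / 2 ≤ s) (hss : s ≤ s') :
    (1 - 4 * η) * (s' - s) ≤ ‖x + s' • u‖ - ‖x + s • u‖ := by
  have hN : ∀ r : ℝ, ‖x + r • u‖ ^ 2 = ‖x‖ ^ 2 + 2 * r * inner ℝ x u + r ^ 2 := by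
    intro r
    rw [norm_add_sq_real, norm_smul, hu, inner_smul_right, mul_one, Real.norm_eq_abs, sq_abs]
    ring
  have h1 := hN s
  have h2 := hN s'
  have h3 : |inner ℝ x u| ≤ η := by
    have := abs_real_inner_le_norm x u
    rw [hu, mul_one] at this
    linarith
  have h4 := norm_lower hx hu (s := s) (by linarith)
  have h5 := norm_lower hx hu (s := s') (by linarith)
  have h6 := norm_upper hx hu (s := s) (by linarith)
  have h7 := norm_upper hx hu (s := s') (by linarith)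
  rw [abs_le] at h3
  obtain ⟨h3a, h3b⟩ := h3
  generalize ‖x + s • u‖ = N at *
  generalize ‖x + s' • u‖ = N' at *
  generalize inner ℝ x u = p at *
  have h8 : (N' - N) * (N' + N) = (s' - s) * (s' + s + 2 * p) := by nlinarith
  have h9 : (s' - s) * (s' + s - 2 * η) ≤ (N' - N) * (N' + N) := by
    rw [h8]
    exact mul_le_mul_of_nonneg_left (by linarith) (by linarith)
  have h10 : 0 ≤ N' - N := by
    by_contra hc
    push Not at hc
    have h11 : (N' - N) * (N' + N) < 0 := mul_neg_of_neg_of_pos hc (by linarith)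
    have h12 : 0 ≤ (s' - s) * (s' + s - 2 * η) := mul_nonneg (by linarith) (by linarith)
    linarith
  have h13 : (s' - s) * (s' + s - 2 * η) ≤ (N' - N) * (s' + s + 2 * η) :=
    h9.trans (mul_le_mul_of_nonneg_left (by linarith) h10)
  have h14 : (1 - 4 * η) * (s' - s) * (s' + s + 2 * η) ≤ (s' - s) * (s' + s - 2 * η) := by
    have h15 : (1 - 4 * η) * (s' + s + 2 * η) ≤ s' + s - 2 * η := by nlinarith
    calc (1 - 4 * η) * (s' - s) * (s' + s + 2 * η)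
        = (s' - s) * ((1 - 4 * η) * (s' + s + 2 * η)) := by ring
      _ ≤ (s' - s) * (s' + s - 2 * η) := mul_le_mul_of_nonneg_left h15 (by linarith)
  exact le_of_mul_le_mul_right (h14.trans h13) (by linarith)

omit [FiniteDimensional ℝ E] [MeasurableSpace E] [BorelSpace E] in
theorem seg_diff {x u : E} (hu : ‖u‖ = 1) (s s' : ℝ) :
    ‖(x + s • u) - (x + s' • u)‖ = |s - s'| := by
  have : (x + s • u) - (x + s' • u) = (s - s') • u := by
    rw [sub_smul]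
    abel
  rw [this, norm_smul, hu, mul_one, Real.norm_eq_abs]

end UShiftAAux

omit [FiniteDimensional ℝ E] [MeasurableSpace E] [BorelSpace E] in
/-- `s ↦ ‖x + s u‖ - k (x + s u)` is strictly increasing near `1` -/
theorem UShift_mono {η : ℝ} (hη : 0 < η) (hη1 : η ≤ 1 / 100) {x u : E} (hx : ‖x‖ ≤ η)
    (hu : ‖u‖ = 1) {k : E → ℝ} (hk : Near η k) {s s' : ℝ} (hs : 1 / 2 ≤ s) (hss : s ≤ s')
    (hs' : s' ≤ 2) :
    (s' - s) / 2 ≤ (‖x + s' • u‖ - k (x + s' • u)) - (‖x + s • u‖ - k (x + s • u)) := by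
  have h1 := UShiftAAux.norm_diff hη hη1 hx hu hs hss
  have h2 := UShiftAAux.norm_lower hx hu (s := s) (by linarith)
  have h3 := UShiftAAux.norm_lower hx hu (s := s') (by linarith)
  have h4 : x + s • u ≠ 0 := by
    rw [← norm_pos_iff]
    linarith
  have h5 : |k (x + s' • u) - k (x + s • u)| ≤ 5 * η * (s' - s) := by
    apply UShiftAAux.k_sub hη hk (by linarith) h4
    rw [UShiftAAux.seg_diff hu, abs_of_nonneg (by linarith)]
  rw [abs_le] at h5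
  nlinarith [h5.2]

omit [FiniteDimensional ℝ E] [MeasurableSpace E] [BorelSpace E] in
theorem UShift_point {η : ℝ} (hη : 0 < η) (hη1 : η ≤ 1 / 100) {x u : E} (hx : ‖x‖ ≤ η)
    (hu : ‖u‖ = 1) {k₁ k₂ c₁ c₂ : E → ℝ} (hk₁ : Near η k₁) (hk₂ : Near η k₂)
    (hc₁ : Shifted η x k₁ c₁) (hc₂ : Shifted η x k₂ c₂) {s : ℝ} (hs : c₂ u < s) (hs' : s ≤ c₁ u) :
    (1 - 20 * η) * (c₁ u - c₂ u) ≤ k₁ (x + s • u) - k₂ (x + s • u) := by
  have n1 := hc₁.near u hu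
  have n2 := hc₂.near u hu
  have e1 := hc₁.eq u hu
  have e2 := hc₂.eq u hu
  rw [abs_le] at n1 n2
  obtain ⟨n1a, n1b⟩ := n1
  obtain ⟨n2a, n2b⟩ := n2
  generalize c₁ u = a at *
  generalize c₂ u = b at *
  have h1 := UShiftAAux.norm_diff hη hη1 hx hu (s := b) (s' := a) (by linarith) (by linarith)
  have h2 := UShiftAAux.norm_lower hx hu (s := s) (by linarith)
  have h3 := UShiftAAux.norm_lower hx hu (s := a) (by linarith)
  have h4 := UShiftAAux.norm_lower hx hu (s := b) (by linarith)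
  have h5 : x + a • u ≠ 0 := by
    rw [← norm_pos_iff]
    linarith
  have h6 : x + b • u ≠ 0 := by
    rw [← norm_pos_iff]
    linarith
  have h7 : |k₁ (x + s • u) - k₁ (x + a • u)| ≤ 5 * η * (a - s) := by
    apply UShiftAAux.k_sub hη hk₁ (by linarith) h5
    rw [UShiftAAux.seg_diff hu, abs_sub_comm, abs_of_nonneg (by linarith)]
  have h8 : |k₂ (x + s • u) - k₂ (x + b • u)| ≤ 5 * η * (s - b) := by
    apply UShiftAAux.k_sub hη hk₂ (by linarith) h6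
    rw [UShiftAAux.seg_diff hu, abs_of_nonneg (by linarith)]
  rw [abs_le] at h7 h8
  rw [← e1] at h7
  rw [← e2] at h8
  nlinarith [h7.1, h8.2]

end StarTr
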