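import Pool.Agent.StarTr.UDef

set_option autoImplicit false

/-!
# StarTr, module USymm: basic properties of the normalised spherical Radon transform

* `SI_integrable`: continuous on the compact sphere.
* `RR_const`: `sphInt_zonal` with `φ = 1`, or `StarIB.toSphere_map`.
* `RR_H0`: `StarIB.continuousOn_sphInt`, `StarIB.sphInt_smul`.
* `RR_add`, `RR_smul`, `RR_le`, `RR_abs`: integrals (`StarIB.sph_integrable`, `StarIB.sph_norm`); for `RR_le` use that the total mass of the sphere
  of `(ℝ ∙ u)ᗮ` is `massS m`.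
* `RR_even`: a function `A` that is only homogeneous of degree zero for `s > 0` has the same Radon transform as its even part
  (isometry `v ↦ -v` of the sphere).
-/

open MeasureTheory Set Metric Module
open scoped ENNReal RealInnerProductSpace

namespace StarTr

variable {E : Type*} [NormedAddCommGroup E] [InnerProductSpace ℝ E] [FiniteDimensional ℝ E]
  [MeasurableSpace E] [BorelSpace E]

theorem SI_integrable {f : E → ℝ} (hf : ContinuousOn f {x : E | x ≠ 0}) :
    Integrable (fun v : sphere (0 : E) 1 => f v) ((volume : Measure E).toSphere) := by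
  have h1 : Continuous (fun v : sphere (0 : E) 1 => f v) := by
    apply hf.comp_continuous continuous_subtype_val
    intro v h0
    have h2 := mem_sphere_zero_iff_norm.1 v.2
    rw [h0, norm_zero] at h2
    exact zero_ne_one h2
  exact h1.integrable_of_hasCompactSupport (HasCompactSupport.of_compactSpace _)

theorem RR_const {m : ℕ} [NeZero m] (hm : 2 ≤ m) (hE : finrank ℝ E = m + 1) (c : ℝ) {u : E}
    (hu : u ≠ 0) : RR m (fun _ : E => c) u = c := by
  have hfact : Fact (finrank ℝ E = m + 1) := ⟨hE⟩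
  have h1 : StarIB.sphInt (fun _ : E => c) u = massS m * c := by
    let Ψ : (ℝ ∙ u)ᗮ ≃ₗᵢ[ℝ] EuclideanSpace ℝ (Fin m) :=
      (OrthonormalBasis.fromOrthogonalSpanSingleton m hu).repr
    have h2 := (StarIB.toSphere_map Ψ).integral_comp (StarIB.sphEquiv Ψ).measurableEmbedding
      (fun _ => c)
    unfold StarIB.sphInt
    rw [h2, integral_const, smul_eq_mul, massS]
  have h3 := massS_pos (show 1 ≤ m by omega)
  rw [RR, h1, inv_mul_cancel_left₀ h3.ne']

theorem RR_H0 {m : ℕ} {f : E → ℝ} (hf : H0 f) : H0 (RR m f) := by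
  refine ⟨fun x _ s hs => ?_, ?_⟩
  · rw [RR, RR, StarIB.sphInt_smul f x s hs]
  · exact continuousOn_const.mul (StarIB.continuousOn_sphInt hf.2)

theorem RR_add {m : ℕ} {f g : E → ℝ} (hf : ContinuousOn f {x : E | x ≠ 0})
    (hg : ContinuousOn g {x : E | x ≠ 0}) (a b : ℝ) (u : E) :
    RR m (fun x => a * f x + b * g x) u = a * RR m f u + b * RR m g u := by
  have h1 : StarIB.sphInt (fun x => a * f x + b * g x) u =
      a * StarIB.sphInt f u + b * StarIB.sphInt g u := by
    unfold StarIB.sphInt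
    rw [integral_add ((StarIB.sph_integrable hf u).const_mul a)
      ((StarIB.sph_integrable hg u).const_mul b), integral_const_mul, integral_const_mul]
  rw [RR, RR, RR, h1]
  ring

theorem RR_abs {m : ℕ} [NeZero m] (hm : 2 ≤ m) (hE : finrank ℝ E = m + 1) {f : E → ℝ}
    (hf : ContinuousOn f {x : E | x ≠ 0}) {b ε : ℝ} (h : ∀ x : E, ‖x‖ = 1 → |f x - b| ≤ ε) {u : E}
    (hu : u ≠ 0) : |RR m f u - b| ≤ ε := by
  have h1 := RR_add (m := m) hf (continuousOn_const (c := b)) 1 (-1) u
  rw [RR_const hm hE b hu] at h1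
  have h2 : RR m f u - b = RR m (fun x => 1 * f x + -1 * b) u := by
    rw [h1]
    ring
  have h3 := massS_pos (show 1 ≤ m by omega)
  have h4 : |StarIB.sphInt (fun x => 1 * f x + -1 * b) u| ≤ StarIB.sphInt (fun _ : E => ε) u := by
    unfold StarIB.sphInt
    rw [← Real.norm_eq_abs]
    refine norm_integral_le_of_norm_le (StarIB.sph_integrable continuousOn_const u)
      (Filter.Eventually.of_forall fun v => ?_)
    rw [Real.norm_eq_abs]
    have h5 := h _ (StarIB.sph_norm v)
    have h6 : (1 * f ((v : (ℝ ∙ u)ᗮ) : E) + -1 * b) = f ((v : (ℝ ∙ u)ᗮ) : E) - b := by ring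
    show |1 * f ((v : (ℝ ∙ u)ᗮ) : E) + -1 * b| ≤ ε
    rw [h6]
    exact h5
  have h7 := RR_const hm hE ε hu
  rw [RR] at h7
  rw [h2, RR, abs_mul, abs_of_pos (inv_pos.2 h3), ← h7]
  exact mul_le_mul_of_nonneg_left h4 (inv_pos.2 h3).le

theorem RR_even {m : ℕ} {f : E → ℝ} (hf : ContinuousOn f {x : E | x ≠ 0}) (u : E) :
    RR m f u = RR m (fun x => (f x + f (-x)) / 2) u := by
  have hf' : ContinuousOn (fun x => f (-x)) {x : E | x ≠ 0} := by
    refine hf.comp continuous_neg.continuousOn ?_
    intro x hx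
    exact neg_ne_zero.2 hx
  have h1 : StarIB.sphInt (fun x => f (-x)) u = StarIB.sphInt f u := by
    have h2 := (StarIB.toSphere_map (LinearIsometryEquiv.neg ℝ (E := (ℝ ∙ u)ᗮ))).integral_comp
      (StarIB.sphEquiv (LinearIsometryEquiv.neg ℝ (E := (ℝ ∙ u)ᗮ))).measurableEmbedding
      (fun v : sphere (0 : (ℝ ∙ u)ᗮ) 1 => f ((v : (ℝ ∙ u)ᗮ) : E))
    unfold StarIB.sphInt
    rw [← h2]
    rfl
  have h3 := RR_add (m := m) hf hf' (1 / 2) (1 / 2) u
  have h4 : RR m (fun x => f (-x)) u = RR m f u := by rw [RR, RR, h1]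
  rw [h4] at h3
  have h5 : (fun x => (f x + f (-x)) / 2) = fun x => 1 / 2 * f x + 1 / 2 * f (-x) := by
    funext x
    ring
  rw [h5, h3]
  ring

end StarTr
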