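import Pool.Agent.StarTr.USymm
import Pool.Agent.StarIB.Kernel

set_option autoImplicit false

/-!
# StarTr, module USymmB: symmetry of the spherical Radon transform

* `SI_symm`: for nonnegative `f`, `h` this is `StarIB.Rk_symm` (module StarIB/Kernel) with `StarIB.Rk_eq`, polar coordinates `StarIB.lintegral_polar`
  (the integral over the annulus of a function homogeneous of degree zero is a constant times the integral over the sphere) and
  `StarIB.lsph_ofReal`; for general `f`, `h` add large constants (`RR_const`, and first `h = 1`).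
* `SI_RR`: `SI_symm` with `h = 1`.
-/

open MeasureTheory Set Metric Module
open scoped ENNReal RealInnerProductSpace

namespace StarTr

variable {E : Type*} [NormedAddCommGroup E] [InnerProductSpace ℝ E] [FiniteDimensional ℝ E]
  [MeasurableSpace E] [BorelSpace E]

namespace USymmBAux

/-- `f` outside the origin as a `[0,∞]`-valued function, `0` at the origin -/
noncomputable def cut (f : E → ℝ) (x : E) : ℝ≥0∞ :=
  ENNReal.ofReal (({x : E | x ≠ 0} : Set E).indicator f x)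

omit [InnerProductSpace ℝ E] [FiniteDimensional ℝ E] [MeasurableSpace E] [BorelSpace E] in
theorem cut_of_ne (f : E → ℝ) {x : E} (hx : x ≠ 0) : cut f x = ENNReal.ofReal (f x) := by
  unfold cut
  rw [indicator_of_mem (by exact hx)]

omit [InnerProductSpace ℝ E] [FiniteDimensional ℝ E] in
theorem measurable_cut {f : E → ℝ} (hf : ContinuousOn f {x : E | x ≠ 0}) : Measurable (cut f) := by
  classical
  have hs : MeasurableSet ({x : E | x ≠ 0} : Set E) := (measurableSet_singleton (0 : E)).compl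
  have h1 : Measurable (({x : E | x ≠ 0} : Set E).piecewise f (fun _ => (0 : ℝ))) :=
    ContinuousOn.measurable_piecewise hf continuousOn_const hs
  have h2 : (({x : E | x ≠ 0} : Set E).indicator f) =
      (({x : E | x ≠ 0} : Set E).piecewise f (fun _ => (0 : ℝ))) := by
    exact (piecewise_eq_indicator (f := f)).symm
  unfold cut
  rw [h2]
  exact ENNReal.measurable_ofReal.comp h1

omit [FiniteDimensional ℝ E] [MeasurableSpace E] [BorelSpace E] in
theorem cut_hom {f : E → ℝ} (hf : ∀ x : E, x ≠ 0 → ∀ s : ℝ, s ≠ 0 → f (s • x) = f x)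
    (x : E) (hx : x ≠ 0) (s : ℝ) (hs : 0 < s) : cut f (s • x) = cut f x := by
  rw [cut_of_ne f hx, cut_of_ne f (smul_ne_zero hs.ne' hx), hf x hx s hs.ne']

omit [InnerProductSpace ℝ E] [FiniteDimensional ℝ E] [MeasurableSpace E] [BorelSpace E] in
theorem sphere_ne (v : sphere (0 : E) 1) : (v : E) ≠ 0 := by
  intro h
  have h1 := v.2
  rw [mem_sphere_zero_iff_norm, h, norm_zero] at h1
  exact zero_ne_one h1

/-- integral over the annulus of a function homogeneous of degree zero -/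
theorem annulus_polar [Nontrivial E] :
    ∃ c : ℝ, 0 < c ∧ ∀ g : E → ℝ, H0 g → (∀ x, x ≠ 0 → 0 ≤ g x) →
      ∫⁻ x in {x : E | 1 ≤ ‖x‖ ∧ ‖x‖ ≤ 2}, cut g x = ENNReal.ofReal (SI g) * ENNReal.ofReal c := by
  obtain ⟨c, hc, hc'⟩ := StarIB.radial_const (finrank ℝ E - 1)
    ((Icc (1 : ℝ) 2).indicator (fun _ => (1 : ℝ≥0∞)))
    (fun r hr => by rw [indicator_of_mem hr])
    (fun r => by
      by_cases h : r ∈ Icc (1 : ℝ) 2
      · rw [indicator_of_mem h, indicator_of_mem h]
        norm_num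
      · rw [indicator_of_notMem h]
        exact zero_le)
  refine ⟨c, hc, fun g hg hg0 => ?_⟩
  have hm : Measurable (cut g) := measurable_cut hg.2
  rw [← lintegral_indicator StarIB.measurableSet_annulus,
    StarIB.lintegral_polar _ (hm.indicator StarIB.measurableSet_annulus)]
  have h1 : ∀ θ : sphere (0 : E) 1,
      (∫⁻ r in Ioi (0 : ℝ), ENNReal.ofReal (r ^ (finrank ℝ E - 1)) *
        ({x : E | 1 ≤ ‖x‖ ∧ ‖x‖ ≤ 2} : Set E).indicator (cut g) (r • (θ : E))) =
      ENNReal.ofReal (g θ) * ENNReal.ofReal c := by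
    intro θ
    rw [← hc', ← lintegral_const_mul']
    · refine setLIntegral_congr_fun measurableSet_Ioi ?_
      intro r hr
      have hr0 : 0 < r := hr
      have hθ : ‖(θ : E)‖ = 1 := mem_sphere_zero_iff_norm.1 θ.2
      have hn : ‖r • (θ : E)‖ = r := by rw [norm_smul, hθ, mul_one, Real.norm_of_nonneg hr0.le]
      simp only
      by_cases h : r ∈ Icc (1 : ℝ) 2
      · rw [indicator_of_mem h, indicator_of_mem (by
          show 1 ≤ ‖r • (θ : E)‖ ∧ ‖r • (θ : E)‖ ≤ 2
          rw [hn]; exact h), cut_hom hg.1 _ (sphere_ne θ) r hr0, cut_of_ne g (sphere_ne θ)]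
        ring
      · rw [indicator_of_notMem h, indicator_of_notMem (by
          show ¬ (1 ≤ ‖r • (θ : E)‖ ∧ ‖r • (θ : E)‖ ≤ 2)
          rw [hn]; exact h)]
        simp
    · exact ENNReal.ofReal_ne_top
  rw [lintegral_congr h1, lintegral_mul_const', SI,
    ofReal_integral_eq_lintegral_ofReal (SI_integrable hg.2)]
  · exact Filter.Eventually.of_forall fun v => hg0 _ (sphere_ne v)
  · exact ENNReal.ofReal_ne_top

omit [FiniteDimensional ℝ E] [MeasurableSpace E] [BorelSpace E] in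
theorem H0_lin {f g : E → ℝ} (hf : H0 f) (hg : H0 g) (a b : ℝ) :
    H0 (fun x => a * f x + b * g x) := by
  refine ⟨fun x hx s hs => ?_, ?_⟩
  · simp only [hf.1 x hx s hs, hg.1 x hx s hs]
  · exact (continuousOn_const.mul hf.2).add (continuousOn_const.mul hg.2)

omit [FiniteDimensional ℝ E] [MeasurableSpace E] [BorelSpace E] in
theorem H0_mul {f g : E → ℝ} (hf : H0 f) (hg : H0 g) : H0 (fun x => f x * g x) := by
  refine ⟨fun x hx s hs => ?_, hf.2.mul hg.2⟩
  simp only [hf.1 x hx s hs, hg.1 x hx s hs]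

omit [FiniteDimensional ℝ E] [MeasurableSpace E] [BorelSpace E] in
theorem H0_const (c : ℝ) : H0 (fun _ : E => c) := ⟨fun _ _ _ _ => rfl, continuousOn_const⟩

theorem H0_sphInt {f : E → ℝ} (hf : H0 f) : H0 (StarIB.sphInt f) :=
  ⟨fun x _ s hs => StarIB.sphInt_smul f x s hs, StarIB.continuousOn_sphInt hf.2⟩

theorem lsph_cut {f : E → ℝ} (hf : H0 f) (h0 : ∀ x, x ≠ 0 → 0 ≤ f x) (w : E) :
    StarIB.lsph (cut f) w = ENNReal.ofReal (StarIB.sphInt f w) := by
  rw [← StarIB.lsph_ofReal f w hf.2 h0]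
  unfold StarIB.lsph
  refine lintegral_congr fun v => ?_
  refine cut_of_ne f ?_
  intro h
  have h1 := StarIB.sph_norm v
  rw [h, norm_zero] at h1
  exact zero_ne_one h1

theorem sphInt_nonneg' {f : E → ℝ} (h0 : ∀ x, x ≠ 0 → 0 ≤ f x) (w : E) :
    0 ≤ StarIB.sphInt f w :=
  StarIB.sphInt_nonneg (fun x hx => h0 x (by
    rintro rfl
    rw [norm_zero] at hx
    exact zero_ne_one hx)) w

/-- symmetry for nonnegative functions, unnormalised -/
theorem symm_nonneg (hE : 2 ≤ finrank ℝ E) {f h : E → ℝ} (hf : H0 f) (hh : H0 h)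
    (hf0 : ∀ x, x ≠ 0 → 0 ≤ f x) (hh0 : ∀ x, x ≠ 0 → 0 ≤ h x) :
    SI (fun u => f u * StarIB.sphInt h u) = SI (fun u => h u * StarIB.sphInt f u) := by
  have : Nontrivial E := Module.nontrivial_of_finrank_pos (R := ℝ) (by omega)
  obtain ⟨c, hc, hpol⟩ := annulus_polar (E := E)
  obtain ⟨κ, hκ, hRk⟩ := StarIB.Rk_eq (E := E) hE
  have hsym := StarIB.Rk_symm hE (cut f) (cut h) (measurable_cut hf.2) (measurable_cut hh.2)
  have key : ∀ f h : E → ℝ, H0 f → H0 h → (∀ x, x ≠ 0 → 0 ≤ f x) → (∀ x, x ≠ 0 → 0 ≤ h x) →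
      ∫⁻ x in {x : E | 1 ≤ ‖x‖ ∧ ‖x‖ ≤ 2}, cut f x * StarIB.Rk (cut h) x =
        ENNReal.ofReal κ * (ENNReal.ofReal (SI (fun u => f u * StarIB.sphInt h u)) *
          ENNReal.ofReal c) := by
    intro f h hf hh hf0 hh0
    rw [← hpol _ (H0_mul hf (H0_sphInt hh))
      (fun x hx => mul_nonneg (hf0 x hx) (sphInt_nonneg' hh0 x)),
      ← lintegral_const_mul' _ _ ENNReal.ofReal_ne_top]
    refine setLIntegral_congr_fun StarIB.measurableSet_annulus ?_
    intro x hx
    have hx1 : 1 ≤ ‖x‖ := hx.1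
    have hx0 : x ≠ 0 := by
      rintro rfl
      rw [norm_zero] at hx1
      linarith
    simp only
    rw [hRk (cut h) (measurable_cut hh.2) (cut_hom hh.1) x hx0, lsph_cut hh hh0,
      cut_of_ne f hx0, cut_of_ne _ hx0, ENNReal.ofReal_mul (hf0 x hx0)]
    ring
  rw [key f h hf hh hf0 hh0, key h f hh hf hh0 hf0] at hsym
  have hκ' : ENNReal.ofReal κ ≠ 0 := by
    rw [Ne, ENNReal.ofReal_eq_zero, not_le]
    exact hκ
  have hc'' : ENNReal.ofReal c ≠ 0 := by
    rw [Ne, ENNReal.ofReal_eq_zero, not_le]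
    exact hc
  rw [ENNReal.mul_right_inj hκ' ENNReal.ofReal_ne_top,
    ENNReal.mul_left_inj hc'' ENNReal.ofReal_ne_top] at hsym
  have hn : ∀ f h : E → ℝ, (∀ x, x ≠ 0 → 0 ≤ f x) → (∀ x, x ≠ 0 → 0 ≤ h x) →
      0 ≤ SI (fun u => f u * StarIB.sphInt h u) := by
    intro f h hf0 hh0
    exact integral_nonneg fun v => mul_nonneg (hf0 _ (sphere_ne v)) (sphInt_nonneg' hh0 _)
  exact (ENNReal.ofReal_eq_ofReal_iff (hn f h hf0 hh0) (hn h f hh0 hf0)).1 hsym

/-- symmetry for nonnegative functions -/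
theorem symm_nonneg' {m : ℕ} (hE : 2 ≤ finrank ℝ E) {f h : E → ℝ} (hf : H0 f) (hh : H0 h)
    (hf0 : ∀ x, x ≠ 0 → 0 ≤ f x) (hh0 : ∀ x, x ≠ 0 → 0 ≤ h x) :
    SI (fun u => f u * RR m h u) = SI (fun u => h u * RR m f u) := by
  have e : ∀ f h : E → ℝ, SI (fun u => f u * RR m h u) =
      (massS m)⁻¹ * SI (fun u => f u * StarIB.sphInt h u) := by
    intro f h
    unfold SI RR
    rw [← integral_const_mul]
    refine integral_congr_ae (Filter.Eventually.of_forall fun v => ?_)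
    simp only
    ring
  rw [e f h, e h f, symm_nonneg hE hf hh hf0 hh0]

omit [MeasurableSpace E] [BorelSpace E] in
theorem bdd {f : E → ℝ} (hf : H0 f) : ∃ C : ℝ, ∀ x : E, x ≠ 0 → |f x| ≤ C := by
  have hc : ContinuousOn f (sphere (0 : E) 1) := hf.2.mono (by
    intro z hz h0
    rw [h0, mem_sphere_zero_iff_norm, norm_zero] at hz
    exact zero_ne_one hz)
  obtain ⟨C, hC⟩ := (isCompact_sphere (0 : E) 1).exists_bound_of_continuousOn hc
  refine ⟨C, fun x hx => ?_⟩
  have hn : ‖x‖ ≠ 0 := norm_ne_zero_iff.2 hx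
  have h1 := hC (‖x‖⁻¹ • x) (by
    rw [mem_sphere_zero_iff_norm, norm_smul, norm_inv, norm_norm, inv_mul_cancel₀ hn])
  rw [hf.1 x hx _ (inv_ne_zero hn), Real.norm_eq_abs] at h1
  exact h1

theorem SI_lin {f g : E → ℝ} (hf : ContinuousOn f {x : E | x ≠ 0})
    (hg : ContinuousOn g {x : E | x ≠ 0}) (a b : ℝ) :
    SI (fun x => a * f x + b * g x) = a * SI f + b * SI g := by
  unfold SI
  rw [integral_add ((SI_integrable hf).const_mul a) ((SI_integrable hg).const_mul b),
    integral_const_mul, integral_const_mul]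

theorem SI_congr {f g : E → ℝ} (h : ∀ x : E, x ≠ 0 → f x = g x) : SI f = SI g := by
  unfold SI
  refine integral_congr_ae (Filter.Eventually.of_forall fun v => ?_)
  exact h _ (sphere_ne v)

theorem SI_RR' {m : ℕ} [NeZero m] (hm : 2 ≤ m) (hE : finrank ℝ E = m + 1) {f : E → ℝ}
    (hf : H0 f) : SI (RR m f) = SI f := by
  obtain ⟨C, hC⟩ := bdd hf
  have h1 : H0 (fun _ : E => (1 : ℝ)) := H0_const 1
  have hf' : H0 (fun x => 1 * f x + C * (1 : ℝ)) := H0_lin hf h1 1 C
  have hf0 : ∀ x : E, x ≠ 0 → 0 ≤ 1 * f x + C * (1 : ℝ) := by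
    intro x hx
    have := (abs_le.1 (hC x hx)).1
    linarith
  have hs := symm_nonneg' (m := m) (by omega) hf' h1 hf0 (fun _ _ => zero_le_one)
  have e1 : SI (fun u : E => (1 * f u + C * (1 : ℝ)) * RR m (fun _ : E => (1 : ℝ)) u) =
      1 * SI f + C * SI (fun _ : E => (1 : ℝ)) := by
    rw [← SI_lin hf.2 h1.2]
    refine SI_congr fun x hx => ?_
    rw [RR_const hm hE 1 hx]
    ring
  have e2 : SI (fun u : E => (1 : ℝ) * RR m (fun x => 1 * f x + C * (1 : ℝ)) u) =
      1 * SI (RR m f) + C * SI (fun _ : E => (1 : ℝ)) := by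
    rw [← SI_lin (RR_H0 hf).2 h1.2]
    refine SI_congr fun x hx => ?_
    rw [RR_add hf.2 h1.2, RR_const hm hE 1 hx]
    ring
  rw [e1, e2] at hs
  linarith

end USymmBAux

open USymmBAux

theorem SI_symm {m : ℕ} [NeZero m] (hm : 2 ≤ m) (hE : finrank ℝ E = m + 1) {f h : E → ℝ}
    (hf : H0 f) (hh : H0 h) : SI (fun u => f u * RR m h u) = SI (fun u => h u * RR m f u) := by
  obtain ⟨C, hC⟩ := bdd hf
  obtain ⟨D, hD⟩ := bdd hh
  have h1 : H0 (fun _ : E => (1 : ℝ)) := H0_const 1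
  have hf' : H0 (fun x => 1 * f x + C * (1 : ℝ)) := H0_lin hf h1 1 C
  have hh' : H0 (fun x => 1 * h x + D * (1 : ℝ)) := H0_lin hh h1 1 D
  have hf0 : ∀ x : E, x ≠ 0 → 0 ≤ 1 * f x + C * (1 : ℝ) := by
    intro x hx
    have := (abs_le.1 (hC x hx)).1
    linarith
  have hh0 : ∀ x : E, x ≠ 0 → 0 ≤ 1 * h x + D * (1 : ℝ) := by
    intro x hx
    have := (abs_le.1 (hD x hx)).1
    linarith
  have hs := symm_nonneg' (m := m) (by omega) hf' hh' hf0 hh0
  have key : ∀ (f h : E → ℝ) (C D : ℝ), H0 f → H0 h →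
      SI (fun u : E => (1 * f u + C * (1 : ℝ)) * RR m (fun x => 1 * h x + D * (1 : ℝ)) u) =
        SI (fun u => f u * RR m h u) + D * SI f + C * SI h + C * D * SI (fun _ : E => (1 : ℝ)) := by
    intro f h C D hf hh
    have e1 : SI (fun u : E => (1 * f u + C * (1 : ℝ)) * RR m (fun x => 1 * h x + D * (1 : ℝ)) u) =
        SI (fun u => 1 * (1 * (f u * RR m h u) + D * f u) +
          1 * (C * RR m h u + (C * D) * (1 : ℝ))) := by
      refine SI_congr fun x hx => ?_
      rw [RR_add hh.2 h1.2, RR_const hm hE 1 hx]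
      ring
    have hfh := H0_mul hf (RR_H0 (m := m) hh)
    rw [e1, SI_lin (H0_lin hfh hf 1 D).2 (H0_lin (RR_H0 (m := m) hh) h1 C (C * D)).2,
      SI_lin hfh.2 hf.2, SI_lin (RR_H0 (m := m) hh).2 h1.2, SI_RR' hm hE hh]
    ring
  rw [key f h C D hf hh, key h f D C hh hf] at hs
  linarith

theorem SI_RR {m : ℕ} [NeZero m] (hm : 2 ≤ m) (hE : finrank ℝ E = m + 1) {f : E → ℝ}
    (hf : H0 f) : SI (RR m f) = SI f :=
  SI_RR' hm hE hf

end StarTr
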