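import Pool.Agent.StarTr.UGap
import Pool.Agent.StarTr.UShift
import Pool.Agent.StarTr.Pow
import Pool.Agent.StarTr.Pow2

set_option autoImplicit false

/-!
# StarTr, module UUniq: local uniqueness for the equation `k = C R((R c^i)^i)`

`‖·‖` is the `L²(S)` norm (normalised), `P` the projection off the constants, all constants `C` depend on `m`, `i` only, `η` small.
`A_j = c_j^i`, `q_j` its even part, `B_j = R A_j = R q_j` (`RR_even`), `G_j = B_j^i`, `k_j = C_j R G_j`.  All of `A_j, q_j, B_j, G_j, C_j` are in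
`[1 - Cη, 1 + Cη]` (`RR_abs`).
1. `D = C₁ G₁ - C₂ G₂` is even and has mean zero (`SI_RR`, equal means of `k₁, k₂`), so `‖k₁ - k₂‖ ≤ m⁻¹ ‖D‖` (`RR_gap`).
2. `B_j = b_j B̃_j` with mean of `B̃_j` equal to `1`; `D = λ₁ B̃₁^i - λ₂ B̃₂^i`, `λ_j = C_j b_j^i`.  Mean zero gives
   `|λ₁ - λ₂| ≤ C ‖B̃₁ - B̃₂‖`; `D = P D = λ₁ P (B̃₁^i - B̃₂^i) + (λ₁ - λ₂) P B̃₂^i` and `|P B̃₂^i| ≤ C η`, so
   `‖D‖ ≤ (i + Cη) ‖B̃₁ - B̃₂‖` (`rpow_lip`, `one_add_rpow`).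
3. `B̃₁ - B̃₂ = R (q̃₁ - q̃₂)`, `q̃_j = q_j / b_j` (mean `1`): `‖B̃₁ - B̃₂‖ ≤ m⁻¹ ‖q̃₁ - q̃₂‖`, and in the same way
   `‖q̃₁ - q̃₂‖ ≤ (1 + Cη) ‖q₁ - q₂‖ ≤ (1 + Cη) ‖A₁ - A₂‖ ≤ (i + Cη) ‖c₁ - c₂‖ ≤ (i + Cη) ‖k₁ - k₂‖` (`UShift_L2`).
So `‖k₁ - k₂‖ ≤ (i²/m² + Cη) ‖k₁ - k₂‖`, hence `k₁ = k₂` on the sphere (continuity) if `η` is small.
-/

open MeasureTheory Set Metric Module
open scoped ENNReal RealInnerProductSpace

namespace StarTr

namespace UUniqAux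

section core

variable {S : Type*} [TopologicalSpace S] [CompactSpace S] [MeasurableSpace S]
  [OpensMeasurableSpace S] {ν : Measure S} [IsFiniteMeasure ν]

theorem integ {f : S → ℝ} (hf : Continuous f) : Integrable f ν :=
  hf.integrable_of_hasCompactSupport (HasCompactSupport.of_compactSpace f)

theorem var {f : S → ℝ} (hf : Continuous f) (t : ℝ) :
    ∫ u, (f u - t) ^ 2 ∂ν = ∫ u, (f u) ^ 2 ∂ν - 2 * t * ∫ u, f u ∂ν + t ^ 2 * ν.real univ := by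
  have h1 : ∀ u, (f u - t) ^ 2 = (f u) ^ 2 + ((-(2 * t)) * f u + t ^ 2) := by
    intro u
    ring
  simp only [h1]
  rw [integral_add (integ (by fun_prop)) (integ (by fun_prop)),
    integral_add (integ (by fun_prop)) (integrable_const _), integral_const_mul, integral_const,
    smul_eq_mul]
  ring

theorem cs {f : S → ℝ} (hf : Continuous f) {M : ℝ} (hM : ν.real univ = M) (hM0 : 0 < M) :
    (∫ u, f u ∂ν) ^ 2 ≤ M * ∫ u, (f u) ^ 2 ∂ν := by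
  have h1 := var (ν := ν) hf ((∫ u, f u ∂ν) / M)
  have h2 : 0 ≤ ∫ u, (f u - (∫ u, f u ∂ν) / M) ^ 2 ∂ν := integral_nonneg fun u => sq_nonneg _
  rw [h1, hM] at h2
  generalize ∫ u, f u ∂ν = a at h2 ⊢
  generalize ∫ u, (f u) ^ 2 ∂ν = b at h2 ⊢
  have h3 : b - 2 * (a / M) * a + (a / M) ^ 2 * M = b - a ^ 2 / M := by
    field_simp
    ring
  rw [h3] at h2
  have h4 : a ^ 2 / M ≤ b := by linarith
  rw [div_le_iff₀ hM0] at h4
  linarith

theorem imono {f g : S → ℝ} (hf : Continuous f) (hg : Continuous g) (h : ∀ u, f u ≤ g u) :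
    ∫ u, f u ∂ν ≤ ∫ u, g u ∂ν := integral_mono (integ hf) (integ hg) h

theorem young {a b A B η : ℝ} (hη : 0 < η) (ha : |a| ≤ A) (hb : |b| ≤ B) :
    (a + b) ^ 2 ≤ (1 + η) * A ^ 2 + (1 + 1 / η) * B ^ 2 := by
  have h1 : (a + b) ^ 2 ≤ (1 + η) * a ^ 2 + (1 + 1 / η) * b ^ 2 := by
    have h2 : (1 + η) * a ^ 2 + (1 + 1 / η) * b ^ 2 - (a + b) ^ 2 = (η * a - b) ^ 2 / η := by
      field_simp
      ring
    have h3 : 0 ≤ (η * a - b) ^ 2 / η := by positivity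
    linarith
  have h2 : a ^ 2 ≤ A ^ 2 := sq_le_sq' (by linarith [(abs_le.1 ha).1]) (abs_le.1 ha).2
  have h3 : b ^ 2 ≤ B ^ 2 := sq_le_sq' (by linarith [(abs_le.1 hb).1]) (abs_le.1 hb).2
  have h4 : 0 < 1 / η := by positivity
  have h5 := mul_le_mul_of_nonneg_left h2 (by linarith : 0 ≤ 1 + η)
  have h6 := mul_le_mul_of_nonneg_left h3 (by linarith : 0 ≤ 1 + 1 / η)
  linarith

theorem rpow_one_bd {i e x : ℝ} (hi : 1 ≤ i) (he : 0 ≤ e) (he1 : e ≤ 1) (hx0 : 0 < x)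
    (hx : |x - 1| ≤ e) : |x ^ i - 1| ≤ i * 2 ^ i * e := by
  have h1 := rpow_lip hi he hx0 (by linarith [(abs_le.1 hx).2]) one_pos (by linarith)
  rw [Real.one_rpow] at h1
  refine h1.trans ?_
  have h2 : (1 + e) ^ (i - 1) ≤ 2 ^ i := by
    calc (1 + e) ^ (i - 1) ≤ 2 ^ (i - 1) :=
          Real.rpow_le_rpow (by linarith) (by linarith) (by linarith)
      _ ≤ 2 ^ i := Real.rpow_le_rpow_of_exponent_le (by norm_num) (by linarith)
  have h3 : 0 ≤ i * (1 + e) ^ (i - 1) := by positivity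
  calc i * (1 + e) ^ (i - 1) * |x - 1| ≤ i * (1 + e) ^ (i - 1) * e :=
        mul_le_mul_of_nonneg_left hx h3
    _ ≤ i * 2 ^ i * e := by
        apply mul_le_mul_of_nonneg_right _ he
        exact mul_le_mul_of_nonneg_left h2 (by linarith)

/-- comparison of the normalised functions -/
theorem core1 {η ε e μ M b₁ b₂ : ℝ} (hη : 0 < η) (hε1 : ε ≤ 1 / 2)
    {B₁ B₂ : S → ℝ} (hB₁ : Continuous B₁) (hB₂ : Continuous B₂)
    (hb₁ : 1 - ε ≤ b₁) (hb₂ : 1 - ε ≤ b₂) (hμ : μ = b₁ - b₂)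
    (hT : ∀ u, |B₂ u / b₂ - 1| ≤ e) (hM : ν.real univ = M) :
    ∫ u, (B₁ u / b₁ - B₂ u / b₂) ^ 2 ∂ν ≤ ((1 - ε) ^ 2)⁻¹ *
      ((1 + η) * ∫ u, (B₁ u - B₂ u - μ) ^ 2 ∂ν + (1 + 1 / η) * (e ^ 2 * (μ ^ 2 * M))) := by
  have h1 : 0 < 1 - ε := by linarith
  have hb₁0 : 0 < b₁ := by linarith
  have hb₂0 : 0 < b₂ := by linarith
  have hinv : (b₁ ^ 2)⁻¹ ≤ ((1 - ε) ^ 2)⁻¹ := by
    apply inv_anti₀ (by positivity)
    exact pow_le_pow_left₀ h1.le hb₁ 2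
  have hpt : ∀ u, (B₁ u / b₁ - B₂ u / b₂) ^ 2 ≤ ((1 - ε) ^ 2)⁻¹ * ((1 + η) * (B₁ u - B₂ u - μ) ^ 2)
      + ((1 - ε) ^ 2)⁻¹ * ((1 + 1 / η) * (e ^ 2 * μ ^ 2)) := by
    intro u
    have e1 : B₁ u / b₁ - B₂ u / b₂ =
        ((B₁ u - B₂ u - μ) + (-(μ * (B₂ u / b₂ - 1)))) / b₁ := by
      rw [hμ]
      field_simp
      ring
    have e2 : |-(μ * (B₂ u / b₂ - 1))| ≤ |μ| * e := by
      rw [abs_neg, abs_mul]
      exact mul_le_mul_of_nonneg_left (hT u) (abs_nonneg _)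
    have e3 := young hη (le_refl |B₁ u - B₂ u - μ|) e2
    rw [sq_abs, mul_pow, sq_abs] at e3
    rw [e1, div_pow, div_eq_mul_inv]
    have e4 : 0 ≤ (1 + η) * (B₁ u - B₂ u - μ) ^ 2 + (1 + 1 / η) * (μ ^ 2 * e ^ 2) := by positivity
    calc _ ≤ ((1 + η) * (B₁ u - B₂ u - μ) ^ 2 + (1 + 1 / η) * (μ ^ 2 * e ^ 2)) * (b₁ ^ 2)⁻¹ :=
          mul_le_mul_of_nonneg_right e3 (by positivity)
      _ ≤ ((1 + η) * (B₁ u - B₂ u - μ) ^ 2 + (1 + 1 / η) * (μ ^ 2 * e ^ 2)) *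
          ((1 - ε) ^ 2)⁻¹ := mul_le_mul_of_nonneg_left hinv e4
      _ = _ := by ring
  have h2 := imono (ν := ν) (by fun_prop) (by fun_prop) hpt
  rw [integral_add (integ (by fun_prop)) (integrable_const _), integral_const_mul,
    integral_const_mul, integral_const, smul_eq_mul, hM] at h2
  refine h2.trans (le_of_eq ?_)
  ring

/-- the main comparison -/
theorem core2 {i η e M l₁ l₂ : ℝ} (hi : 1 ≤ i) (hη : 0 < η) (he : 0 ≤ e) (he1 : e ≤ 1)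
    (hLe : i * 2 ^ i * e ≤ 1 / 2) (hM : ν.real univ = M) (hM0 : 0 < M)
    {T₁ T₂ : S → ℝ} (hT₁ : Continuous T₁) (hT₂ : Continuous T₂)
    (h1 : ∀ u, |T₁ u - 1| ≤ e) (h2 : ∀ u, |T₂ u - 1| ≤ e) (p1 : ∀ u, 0 < T₁ u)
    (p2 : ∀ u, 0 < T₂ u) (h0 : ∫ u, (l₁ * (T₁ u) ^ i - l₂ * (T₂ u) ^ i) ∂ν = 0) :
    ∫ u, (l₁ * (T₁ u) ^ i - l₂ * (T₂ u) ^ i) ^ 2 ∂ν ≤
      (l₁ * (i * (1 + e) ^ (i - 1))) ^ 2 *
        ((1 + η) + 4 * ((1 + 1 / η) * (i * 2 ^ i * e) ^ 2)) *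
        ∫ u, (T₁ u - T₂ u) ^ 2 ∂ν := by
  have hi0 : 0 ≤ i := by linarith
  have c1 : Continuous fun u => (T₁ u) ^ i := hT₁.rpow_const fun _ => Or.inr hi0
  have c2 : Continuous fun u => (T₂ u) ^ i := hT₂.rpow_const fun _ => Or.inr hi0
  obtain ⟨s, hs⟩ : ∃ s, s = i * (1 + e) ^ (i - 1) := ⟨_, rfl⟩
  obtain ⟨q, hq⟩ : ∃ q, q = i * 2 ^ i * e := ⟨_, rfl⟩
  have hs0 : 0 ≤ s := by
    rw [hs]
    positivity
  have hd : ∀ u, |(T₁ u) ^ i - (T₂ u) ^ i| ≤ s * |T₁ u - T₂ u| := by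
    intro u
    rw [hs]
    exact rpow_lip hi he (p1 u) (by linarith [(abs_le.1 (h1 u)).2]) (p2 u)
      (by linarith [(abs_le.1 (h2 u)).2])
  have hq2 : ∀ u, |(T₂ u) ^ i - 1| ≤ q := by
    intro u
    rw [hq]
    exact rpow_one_bd hi he he1 (p2 u) (h2 u)
  rw [← hs, ← hq]
  rw [← hq] at hLe
  obtain ⟨N, hN⟩ : ∃ N, N = ∫ u, (T₁ u - T₂ u) ^ 2 ∂ν := ⟨_, rfl⟩
  have hN0 : 0 ≤ N := by
    rw [hN]
    exact integral_nonneg fun u => sq_nonneg _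
  rw [← hN]
  -- the difference of the factors
  have hI1 : (∫ u, ((T₁ u) ^ i - (T₂ u) ^ i) ∂ν) ^ 2 ≤ M * (s ^ 2 * N) := by
    refine (cs (ν := ν) (c1.sub c2) hM hM0).trans ?_
    apply mul_le_mul_of_nonneg_left _ hM0.le
    rw [hN, ← integral_const_mul]
    apply imono (by fun_prop) (by fun_prop)
    intro u
    have h3 := hd u
    change (T₁ u ^ i - T₂ u ^ i) ^ 2 ≤ s ^ 2 * (T₁ u - T₂ u) ^ 2
    rw [← sq_abs (T₁ u ^ i - T₂ u ^ i), ← sq_abs (T₁ u - T₂ u), ← mul_pow]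
    exact pow_le_pow_left₀ (abs_nonneg _) h3 2
  have hI2 : M / 2 ≤ ∫ u, (T₂ u) ^ i ∂ν := by
    have h3 : ∫ _ : S, (1 / 2 : ℝ) ∂ν ≤ ∫ u, (T₂ u) ^ i ∂ν := by
      apply imono (by fun_prop) c2
      intro u
      linarith [(abs_le.1 (hq2 u)).1]
    rw [integral_const, smul_eq_mul, hM] at h3
    linarith
  have hsplit : l₁ * (∫ u, ((T₁ u) ^ i - (T₂ u) ^ i) ∂ν) +
      (l₁ - l₂) * (∫ u, (T₂ u) ^ i ∂ν) = 0 := by
    rw [← integral_const_mul, ← integral_const_mul,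
      ← integral_add (integ (by fun_prop)) (integ (by fun_prop)), ← h0]
    congr 1
    funext u
    ring
  have hl : (l₁ - l₂) ^ 2 * M ≤ 4 * (l₁ ^ 2 * s ^ 2 * N) := by
    generalize ∫ u, ((T₁ u) ^ i - (T₂ u) ^ i) ∂ν = I1 at hI1 hsplit
    generalize ∫ u, (T₂ u) ^ i ∂ν = I2 at hI2 hsplit
    have h4 : (l₁ - l₂) ^ 2 * I2 ^ 2 = l₁ ^ 2 * I1 ^ 2 := by
      have : (l₁ - l₂) * I2 = -(l₁ * I1) := by linarith
      calc (l₁ - l₂) ^ 2 * I2 ^ 2 = ((l₁ - l₂) * I2) ^ 2 := by ring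
        _ = _ := by rw [this]; ring
    have h5 : (M / 2) ^ 2 ≤ I2 ^ 2 := pow_le_pow_left₀ (by linarith) hI2 2
    have h6 := mul_le_mul_of_nonneg_left h5 (sq_nonneg (l₁ - l₂))
    have h7 := mul_le_mul_of_nonneg_left hI1 (sq_nonneg l₁)
    have h8 : (l₁ - l₂) ^ 2 * (M / 2) ^ 2 ≤ l₁ ^ 2 * (M * (s ^ 2 * N)) := by linarith
    have h9 : M * ((l₁ - l₂) ^ 2 * M) ≤ M * (4 * (l₁ ^ 2 * s ^ 2 * N)) := by linarith
    exact le_of_mul_le_mul_left h9 hM0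
  have hD : Continuous fun u => l₁ * (T₁ u) ^ i - l₂ * (T₂ u) ^ i := by fun_prop
  have hv := var (ν := ν) hD (l₁ - l₂)
  rw [h0, hM] at hv
  have hle : ∫ u, (l₁ * (T₁ u) ^ i - l₂ * (T₂ u) ^ i) ^ 2 ∂ν ≤
      ∫ u, (l₁ * (T₁ u) ^ i - l₂ * (T₂ u) ^ i - (l₁ - l₂)) ^ 2 ∂ν := by
    rw [hv]
    have : 0 ≤ (l₁ - l₂) ^ 2 * M := by positivity
    linarith
  refine hle.trans ?_
  have hpt : ∀ u, (l₁ * (T₁ u) ^ i - l₂ * (T₂ u) ^ i - (l₁ - l₂)) ^ 2 ≤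
      ((1 + η) * (l₁ ^ 2 * s ^ 2)) * (T₁ u - T₂ u) ^ 2 +
        (1 + 1 / η) * ((l₁ - l₂) ^ 2 * q ^ 2) := by
    intro u
    have e1 : l₁ * (T₁ u) ^ i - l₂ * (T₂ u) ^ i - (l₁ - l₂) =
        l₁ * ((T₁ u) ^ i - (T₂ u) ^ i) + (l₁ - l₂) * ((T₂ u) ^ i - 1) := by ring
    have e2 : |l₁ * ((T₁ u) ^ i - (T₂ u) ^ i)| ≤ |l₁| * (s * |T₁ u - T₂ u|) := by
      rw [abs_mul]
      exact mul_le_mul_of_nonneg_left (hd u) (abs_nonneg _)
    have e3 : |(l₁ - l₂) * ((T₂ u) ^ i - 1)| ≤ |l₁ - l₂| * q := by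
      rw [abs_mul]
      exact mul_le_mul_of_nonneg_left (hq2 u) (abs_nonneg _)
    have e4 := young hη e2 e3
    rw [e1]
    refine e4.trans (le_of_eq ?_)
    rw [mul_pow, mul_pow, mul_pow, sq_abs, sq_abs, sq_abs]
    ring
  have h3 := imono (ν := ν) (by fun_prop) (by fun_prop) hpt
  rw [integral_add (integ (by fun_prop)) (integrable_const _), integral_const_mul,
    integral_const, smul_eq_mul, hM, ← hN] at h3
  refine h3.trans ?_
  have h4 : 0 < 1 / η := by positivity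
  have h5 := mul_le_mul_of_nonneg_left hl (by positivity : 0 ≤ (1 + 1 / η) * q ^ 2)
  calc (1 + η) * (l₁ ^ 2 * s ^ 2) * N + M * ((1 + 1 / η) * ((l₁ - l₂) ^ 2 * q ^ 2))
      = (1 + η) * (l₁ ^ 2 * s ^ 2) * N + (1 + 1 / η) * q ^ 2 * ((l₁ - l₂) ^ 2 * M) := by ring
    _ ≤ (1 + η) * (l₁ ^ 2 * s ^ 2) * N + (1 + 1 / η) * q ^ 2 * (4 * (l₁ ^ 2 * s ^ 2 * N)) := by
        linarith
    _ = _ := by ring

end core


section sph

variable {E : Type*} [NormedAddCommGroup E] [InnerProductSpace ℝ E] [FiniteDimensional ℝ E]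
  [MeasurableSpace E] [BorelSpace E]

omit [FiniteDimensional ℝ E] [MeasurableSpace E] [BorelSpace E] in
theorem sne (v : sphere (0 : E) 1) : (v : E) ≠ 0 := by
  intro h
  have h2 := mem_sphere_zero_iff_norm.1 v.2
  rw [h, norm_zero] at h2
  exact zero_ne_one h2

omit [FiniteDimensional ℝ E] [MeasurableSpace E] [BorelSpace E] in
theorem snorm (v : sphere (0 : E) 1) : ‖(v : E)‖ = 1 := mem_sphere_zero_iff_norm.1 v.2

omit [FiniteDimensional ℝ E] [MeasurableSpace E] [BorelSpace E] in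
/-- restriction to the sphere is continuous -/
theorem rc {f : E → ℝ} (hf : ContinuousOn f {x : E | x ≠ 0}) :
    Continuous (fun v : sphere (0 : E) 1 => f v) :=
  hf.comp_continuous continuous_subtype_val fun v => sne v

/-- the even part of `c ^ i` -/
noncomputable def qq (i : ℝ) (c : E → ℝ) : E → ℝ := fun x => ((c x) ^ i + (c (-x)) ^ i) / 2

omit [FiniteDimensional ℝ E] [MeasurableSpace E] [BorelSpace E] in
theorem qq_H0 {i : ℝ} (hi : 1 ≤ i) {c : E → ℝ}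
    (hom : ∀ y : E, y ≠ 0 → ∀ s : ℝ, 0 < s → c (s • y) = c y)
    (hc : ContinuousOn c {x : E | x ≠ 0}) : H0 (qq i c) := by
  have hc' : ContinuousOn (fun x => c (-x)) {x : E | x ≠ 0} := by
    refine hc.comp continuous_neg.continuousOn ?_
    intro x hx
    exact neg_ne_zero.2 hx
  refine ⟨fun x hx s hs => ?_, ?_⟩
  · rcases lt_or_gt_of_ne hs with h | h
    · have e1 : s • x = (-s) • (-x) := by rw [smul_neg, neg_smul, neg_neg]
      have e2 : -(s • x) = (-s) • x := by rw [neg_smul]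
      unfold qq
      rw [e2, e1, hom _ (neg_ne_zero.2 hx) _ (by linarith), hom _ hx _ (by linarith), add_comm]
    · have e2 : -(s • x) = s • (-x) := by rw [smul_neg]
      unfold qq
      rw [e2, hom _ hx _ h, hom _ (neg_ne_zero.2 hx) _ h]
  · unfold qq
    exact ((hc.rpow_const fun _ _ => Or.inr (by linarith)).add
      (hc'.rpow_const fun _ _ => Or.inr (by linarith))).div_const 2

theorem RR_qq {m : ℕ} {i : ℝ} (hi : 1 ≤ i) {c : E → ℝ} (hc : ContinuousOn c {x : E | x ≠ 0}) :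
    RR m (fun w => (c w) ^ i) = RR m (qq i c) := by
  funext u
  exact RR_even (hc.rpow_const fun _ _ => Or.inr (by linarith)) u

theorem int_neg {f : E → ℝ} :
    ∫ v : sphere (0 : E) 1, f (-(v : E)) ∂((volume : Measure E).toSphere) =
      ∫ v : sphere (0 : E) 1, f v ∂((volume : Measure E).toSphere) := by
  let Φ := LinearIsometryEquiv.neg ℝ (E := E)
  exact (StarIB.toSphere_map Φ).integral_comp (StarIB.sphEquiv Φ).measurableEmbedding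
    (fun v : sphere (0 : E) 1 => f v)

theorem qq_int {i η : ℝ} (hi : 1 ≤ i) (hη : 0 < η) (hη1 : η ≤ 1 / 100) {c₁ c₂ : E → ℝ}
    (hc₁ : ContinuousOn c₁ {x : E | x ≠ 0}) (hc₂ : ContinuousOn c₂ {x : E | x ≠ 0})
    (h₁ : ∀ u : E, ‖u‖ = 1 → |c₁ u - 1| ≤ 3 * η) (h₂ : ∀ u : E, ‖u‖ = 1 → |c₂ u - 1| ≤ 3 * η) :
    ∫ v : sphere (0 : E) 1, (qq i c₁ v - qq i c₂ v) ^ 2 ∂((volume : Measure E).toSphere) ≤
      (i * (1 + 3 * η) ^ (i - 1)) ^ 2 * SI (fun u => (c₁ u - c₂ u) ^ 2) := by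
  have neg_co : ∀ {c : E → ℝ}, ContinuousOn c {x : E | x ≠ 0} →
      Continuous (fun v : sphere (0 : E) 1 => c (-(v : E))) := by
    intro c hc
    refine hc.comp_continuous (continuous_subtype_val.neg) fun v => neg_ne_zero.2 (sne v)
  have k1 := rc hc₁
  have k2 := rc hc₂
  have k3 := neg_co hc₁
  have k4 := neg_co hc₂
  have hi0 : 0 ≤ i := by linarith
  obtain ⟨s, hs⟩ : ∃ s, s = i * (1 + 3 * η) ^ (i - 1) := ⟨_, rfl⟩
  have hs0 : 0 ≤ s := by rw [hs]; positivity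
  rw [← hs]
  have hpt : ∀ u : E, ‖u‖ = 1 → |(c₁ u) ^ i - (c₂ u) ^ i| ≤ s * |c₁ u - c₂ u| := by
    intro u hu
    have a1 := abs_le.1 (h₁ u hu)
    have a2 := abs_le.1 (h₂ u hu)
    rw [hs]
    exact rpow_lip hi (by positivity) (by linarith [a1.1]) (by linarith [a1.2])
      (by linarith [a2.1]) (by linarith [a2.2])
  have hle : ∀ v : sphere (0 : E) 1, (qq i c₁ v - qq i c₂ v) ^ 2 ≤
      s ^ 2 * (((c₁ v - c₂ v) ^ 2 + (c₁ (-(v : E)) - c₂ (-(v : E))) ^ 2) / 2) := by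
    intro v
    have b1 := hpt v (snorm v)
    have b2 := hpt (-(v : E)) (by rw [norm_neg, snorm v])
    have b1' : ((c₁ v) ^ i - (c₂ v) ^ i) ^ 2 ≤ s ^ 2 * (c₁ v - c₂ v) ^ 2 := by
      rw [← sq_abs ((c₁ v) ^ i - (c₂ v) ^ i), ← sq_abs (c₁ v - c₂ v), ← mul_pow]
      exact pow_le_pow_left₀ (abs_nonneg _) b1 2
    have b2' : ((c₁ (-(v : E))) ^ i - (c₂ (-(v : E))) ^ i) ^ 2 ≤
        s ^ 2 * (c₁ (-(v : E)) - c₂ (-(v : E))) ^ 2 := by
      rw [← sq_abs ((c₁ (-(v : E))) ^ i - (c₂ (-(v : E))) ^ i),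
        ← sq_abs (c₁ (-(v : E)) - c₂ (-(v : E))), ← mul_pow]
      exact pow_le_pow_left₀ (abs_nonneg _) b2 2
    have e1 : qq i c₁ v - qq i c₂ v = (((c₁ v) ^ i - (c₂ v) ^ i) +
        ((c₁ (-(v : E))) ^ i - (c₂ (-(v : E))) ^ i)) / 2 := by
      unfold qq
      ring
    rw [e1]
    generalize (c₁ v) ^ i - (c₂ v) ^ i = x at *
    generalize (c₁ (-(v : E))) ^ i - (c₂ (-(v : E))) ^ i = y at *
    nlinarith [sq_nonneg (x - y)]
  have hi1 : Continuous fun v : sphere (0 : E) 1 => qq i c₁ v := rc (by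
    unfold qq
    exact ((hc₁.rpow_const fun _ _ => Or.inr hi0).add
      ((hc₁.comp continuous_neg.continuousOn fun x hx => neg_ne_zero.2 hx).rpow_const
        fun _ _ => Or.inr hi0)).div_const 2)
  have hi2 : Continuous fun v : sphere (0 : E) 1 => qq i c₂ v := rc (by
    unfold qq
    exact ((hc₂.rpow_const fun _ _ => Or.inr hi0).add
      ((hc₂.comp continuous_neg.continuousOn fun x hx => neg_ne_zero.2 hx).rpow_const
        fun _ _ => Or.inr hi0)).div_const 2)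
  have k5 : Continuous fun v : sphere (0 : E) 1 => (c₁ v - c₂ v) ^ 2 := (k1.sub k2).pow 2
  have k6 : Continuous fun v : sphere (0 : E) 1 => (c₁ (-(v : E)) - c₂ (-(v : E))) ^ 2 :=
    (k3.sub k4).pow 2
  have k7 : Continuous fun v : sphere (0 : E) 1 =>
      s ^ 2 * (((c₁ v - c₂ v) ^ 2 + (c₁ (-(v : E)) - c₂ (-(v : E))) ^ 2) / 2) :=
    continuous_const.mul ((k5.add k6).div_const 2)
  have k8 : Continuous fun v : sphere (0 : E) 1 => (qq i c₁ v - qq i c₂ v) ^ 2 :=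
    (hi1.sub hi2).pow 2
  have h3 := imono (ν := (volume : Measure E).toSphere) k8 k7 hle
  refine h3.trans (le_of_eq ?_)
  rw [integral_const_mul, integral_div, integral_add (integ k5) (integ k6),
    int_neg (f := fun u => (c₁ u - c₂ u) ^ 2)]
  unfold SI
  ring

/-- the bound for the contraction constant -/
noncomputable def Phi (m : ℕ) (i C η : ℝ) : ℝ :=
  ((m : ℝ)⁻¹) ^ 2 * ((((1 + η) / (1 - i * 2 ^ i * (i * 2 ^ i * (3 * η))) *
    (1 + i * 2 ^ i * (3 * η)) ^ i * (i * (1 + 12 * (i * 2 ^ i) * η) ^ (i - 1))) ^ 2 *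
    ((1 + η) + 4 * ((12 * (i * 2 ^ i) ^ 2) ^ 2 * (η ^ 2 + η)))) *
    (((1 - i * 2 ^ i * (3 * η)) ^ 2)⁻¹ *
      (((1 + η) * ((m : ℝ)⁻¹) ^ 2 + (12 * (i * 2 ^ i)) ^ 2 * (η ^ 2 + η)) *
        ((i * (1 + 3 * η) ^ (i - 1)) ^ 2 * (1 + C * η)))))

theorem Phi_lt {m : ℕ} (hm : 2 ≤ m) {i : ℝ} (hi : 1 ≤ i) (him : i < m) (C : ℝ) :
    ∃ δ : ℝ, 0 < δ ∧ ∀ η : ℝ, 0 < η → η < δ → Phi m i C η < 1 := by
  have hi0 : 0 ≤ i := by linarith
  have hi1 : 0 ≤ i - 1 := by linarith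
  have hcont : ContinuousAt (Phi m i C) 0 := by
    unfold Phi
    have c1 : Continuous fun η : ℝ => (1 + i * 2 ^ i * (3 * η)) ^ i :=
      (by fun_prop : Continuous fun η : ℝ => 1 + i * 2 ^ i * (3 * η)).rpow_const
        fun _ => Or.inr hi0
    have c2 : Continuous fun η : ℝ => (1 + 12 * (i * 2 ^ i) * η) ^ (i - 1) :=
      (by fun_prop : Continuous fun η : ℝ => 1 + 12 * (i * 2 ^ i) * η).rpow_const
        fun _ => Or.inr hi1
    have c3 : Continuous fun η : ℝ => (1 + 3 * η) ^ (i - 1) :=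
      (by fun_prop : Continuous fun η : ℝ => 1 + 3 * η).rpow_const
        fun _ => Or.inr hi1
    have d1 : ContinuousAt (fun η : ℝ =>
        (1 + η) / (1 - i * 2 ^ i * (i * 2 ^ i * (3 * η)))) 0 := by
      apply ContinuousAt.div
      · fun_prop
      · fun_prop
      · simp
    have d2 : ContinuousAt (fun η : ℝ => ((1 - i * 2 ^ i * (3 * η)) ^ 2)⁻¹) 0 := by
      apply ContinuousAt.inv₀
      · fun_prop
      · simp
    have c1' := c1.continuousAt (x := (0 : ℝ))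
    have c2' := c2.continuousAt (x := (0 : ℝ))
    have c3' := c3.continuousAt (x := (0 : ℝ))
    exact continuousAt_const.mul (((((d1.mul c1').mul (continuousAt_const.mul c2')).pow 2).mul
      (by fun_prop)).mul (d2.mul ((by fun_prop : ContinuousAt (fun η : ℝ =>
        (1 + η) * ((m : ℝ)⁻¹) ^ 2 + (12 * (i * 2 ^ i)) ^ 2 * (η ^ 2 + η)) 0).mul
        (((continuousAt_const.mul c3').pow 2).mul (by fun_prop)))))
  have h0 : Phi m i C 0 < 1 := by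
    have hm0 : (0 : ℝ) < m := by
      have : (2 : ℝ) ≤ m := by exact_mod_cast hm
      linarith
    have e1 : Phi m i C 0 = (i / m) ^ 4 := by
      unfold Phi
      simp only [mul_zero, add_zero, sub_zero, Real.one_rpow, div_one, mul_one, one_pow, inv_one,
        one_mul, ne_eq, OfNat.ofNat_ne_zero, not_false_eq_true, zero_pow]
      field_simp
    rw [e1]
    apply pow_lt_one₀ (by positivity)
    · rw [div_lt_one hm0]
      exact him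
    · norm_num
  have hev := hcont.eventually_lt_const h0
  rw [Metric.eventually_nhds_iff] at hev
  obtain ⟨δ, hδ, h⟩ := hev
  refine ⟨δ, hδ, fun η h1 h2 => h ?_⟩
  rw [Real.dist_eq, sub_zero, abs_of_pos h1]
  exact h2

theorem SI_congr1 {f g : E → ℝ} (h : ∀ u : E, ‖u‖ = 1 → f u = g u) : SI f = SI g := by
  unfold SI
  exact integral_congr_ae (Filter.Eventually.of_forall fun v => h _ (snorm v))

/-- the facts about one of the two sides -/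
theorem side {m : ℕ} [NeZero m] (hm : 2 ≤ m) (hE : finrank ℝ E = m + 1) {i η ε L C : ℝ}
    (hi : 1 ≤ i) (hη : 0 < η) (hη1 : η ≤ 1 / 100) (hL : L = i * 2 ^ i) (hε : ε = L * (3 * η))
    (hε1 : ε ≤ 1 / 2) (hLe : L * ε ≤ 1 / 2) {x : E} {k c : E → ℝ} (hk : Near η k)
    (hc : Shifted η x k c)
    (hC : ∀ u : E, ‖u‖ = 1 → k u = C * RR m (fun v => (RR m (fun w => (c w) ^ i) v) ^ i) u) :
    H0 (qq i c) ∧ (∀ u : E, u ≠ 0 → |RR m (qq i c) u - 1| ≤ ε) ∧ 0 < C ∧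
      C ≤ (1 + η) / (1 - L * ε) ∧ H0 (fun v => (RR m (qq i c) v) ^ i) ∧
      (∀ u : E, ‖u‖ = 1 → k u = C * RR m (fun v => (RR m (qq i c) v) ^ i) u) := by
  have hi0 : 0 ≤ i := by linarith
  have hL0 : 0 < L := by rw [hL]; positivity
  have hε0 : 0 ≤ ε := by rw [hε]; positivity
  have hq := qq_H0 hi hc.hom hc.cont
  have hpt : ∀ u : E, ‖u‖ = 1 → |(c u) ^ i - 1| ≤ ε := by
    intro u hu
    have a1 := abs_le.1 (hc.near u hu)
    rw [hε, hL]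
    exact rpow_one_bd hi (by positivity) (by linarith) (by linarith [a1.1]) (hc.near u hu)
  have hqb : ∀ u : E, ‖u‖ = 1 → |qq i c u - 1| ≤ ε := by
    intro u hu
    have a1 := abs_le.1 (hpt u hu)
    have a2 := abs_le.1 (hpt (-u) (by rw [norm_neg, hu]))
    unfold qq
    rw [abs_le]
    constructor
    · linarith [a1.1, a2.1]
    · linarith [a1.2, a2.2]
  have hB : ∀ u : E, u ≠ 0 → |RR m (qq i c) u - 1| ≤ ε := fun u hu =>
    RR_abs hm hE hq.2 hqb hu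
  have hBH := RR_H0 (m := m) hq
  have hG : H0 (fun v => (RR m (qq i c) v) ^ i) :=
    ⟨fun y hy s hs => by simp only [hBH.1 y hy s hs],
      hBH.2.rpow_const fun _ _ => Or.inr hi0⟩
  have hGb : ∀ u : E, ‖u‖ = 1 → |(RR m (qq i c) u) ^ i - 1| ≤ L * ε := by
    intro u hu
    have hu0 : u ≠ 0 := by
      intro h
      rw [h, norm_zero] at hu
      exact zero_ne_one hu
    have a1 := abs_le.1 (hB u hu0)
    rw [hL]
    exact rpow_one_bd hi hε0 (by linarith) (by linarith [a1.1]) (hB u hu0)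
  have hk' : ∀ u : E, ‖u‖ = 1 → k u = C * RR m (fun v => (RR m (qq i c) v) ^ i) u := by
    intro u hu
    rw [hC u hu, RR_qq hi hc.cont]
  have : Nontrivial E := by
    apply Module.nontrivial_of_finrank_pos (R := ℝ)
    omega
  obtain ⟨u, hu⟩ := exists_norm_eq E (zero_le_one' ℝ)
  have hu0 : u ≠ 0 := by
    intro h
    rw [h, norm_zero] at hu
    exact zero_ne_one hu
  have hR := abs_le.1 (RR_abs hm hE hG.2 hGb hu0)
  have hku := abs_le.1 (hk.near u hu)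
  have heq := hk' u hu
  obtain ⟨r, hr⟩ : ∃ r, r = RR m (fun v => (RR m (qq i c) v) ^ i) u := ⟨_, rfl⟩
  rw [← hr] at hR heq
  have hr0 : 0 < r := by linarith [hR.1]
  have hk0 : 0 < k u := by linarith [hku.1]
  have hC0 : 0 < C := by
    by_contra hcon
    have : C * r ≤ 0 := mul_nonpos_of_nonpos_of_nonneg (not_lt.1 hcon) hr0.le
    linarith
  refine ⟨hq, hB, hC0, ?_, hG, hk'⟩
  rw [le_div_iff₀ (by linarith)]
  calc C * (1 - L * ε) ≤ C * r := mul_le_mul_of_nonneg_left (by linarith [hR.1]) hC0.le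
    _ = k u := heq.symm
    _ ≤ 1 + η := by linarith [hku.2]

/-- normalisation by the mean -/
theorem normal {S : Type*} [TopologicalSpace S] [CompactSpace S] [MeasurableSpace S]
    [OpensMeasurableSpace S] {ν : Measure S} [IsFiniteMeasure ν] {M ε b : ℝ}
    (hM : ν.real univ = M) (hM0 : 0 < M) (hε0 : 0 ≤ ε) (hε : ε ≤ 1 / 2) {B : S → ℝ}
    (hB : Continuous B) (h : ∀ u, |B u - 1| ≤ ε) (hb : b = (∫ u, B u ∂ν) / M) :
    |b - 1| ≤ ε ∧ (∀ u, |B u / b - 1| ≤ 4 * ε) ∧ (∀ u, 0 < B u / b) := by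
  have h1 : (1 - ε) * M ≤ ∫ u, B u ∂ν := by
    have h3 := imono (ν := ν) (continuous_const (y := 1 - ε)) hB
      (fun u => by linarith [(abs_le.1 (h u)).1])
    rw [integral_const, smul_eq_mul, hM] at h3
    linarith
  have h2 : ∫ u, B u ∂ν ≤ (1 + ε) * M := by
    have h3 := imono (ν := ν) hB (continuous_const (y := 1 + ε))
      (fun u => by linarith [(abs_le.1 (h u)).2])
    rw [integral_const, smul_eq_mul, hM] at h3
    linarith
  have h3 : 1 - ε ≤ b := by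
    rw [hb, le_div_iff₀ hM0]
    exact h1
  have h4 : b ≤ 1 + ε := by
    rw [hb, div_le_iff₀ hM0]
    exact h2
  have hb0 : 0 < b := by linarith
  refine ⟨abs_le.2 ⟨by linarith, by linarith⟩, fun u => ?_, fun u => ?_⟩
  · have a := abs_le.1 (h u)
    have e1 : B u / b - 1 = (B u - b) / b := by
      field_simp
    rw [e1, abs_div, abs_of_pos hb0, div_le_iff₀ hb0]
    have h5 : |B u - b| ≤ 2 * ε := abs_le.2 ⟨by linarith [a.1], by linarith [a.2]⟩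
    have h6 : 2 * ε ≤ 4 * ε * b := by nlinarith
    linarith
  · have a := abs_le.1 (h u)
    exact div_pos (by linarith [a.1]) hb0

theorem SI_mul (a : ℝ) (f : E → ℝ) : SI (fun u => a * f u) = a * SI f := by
  unfold SI
  rw [integral_const_mul]

open USymmBAux in
theorem key {m : ℕ} [NeZero m] (hm : 2 ≤ m) (hE : finrank ℝ E = m + 1) {i η Cs : ℝ}
    (hi : 1 ≤ i) (hη : 0 < η) (hη1 : η ≤ 1 / 100) (hη2 : 24 * (i * 2 ^ i) ^ 2 * η ≤ 1) {x : E}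
    {k₁ k₂ c₁ c₂ : E → ℝ} (hk₁ : Near η k₁) (hk₂ : Near η k₂)
    (hc₁ : Shifted η x k₁ c₁) (hc₂ : Shifted η x k₂ c₂) (hSI : SI k₁ = SI k₂) {C₁ C₂ : ℝ}
    (e₁ : ∀ u : E, ‖u‖ = 1 → k₁ u = C₁ * RR m (fun v => (RR m (fun w => (c₁ w) ^ i) v) ^ i) u)
    (e₂ : ∀ u : E, ‖u‖ = 1 → k₂ u = C₂ * RR m (fun v => (RR m (fun w => (c₂ w) ^ i) v) ^ i) u)
    (hCs : SI (fun u => (c₁ u - c₂ u) ^ 2) ≤ (1 + Cs * η) * SI (fun u => (k₁ u - k₂ u) ^ 2)) :
    SI (fun u => (k₁ u - k₂ u) ^ 2) ≤ Phi m i Cs η * SI (fun u => (k₁ u - k₂ u) ^ 2) := by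
  have hi0 : 0 ≤ i := by linarith
  obtain ⟨L, hL⟩ : ∃ L : ℝ, L = i * 2 ^ i := ⟨_, rfl⟩
  obtain ⟨ε, hε⟩ : ∃ ε : ℝ, ε = L * (3 * η) := ⟨_, rfl⟩
  have hL1 : 1 ≤ L := by
    rw [hL]
    have h1 : (1 : ℝ) ≤ 2 ^ i := Real.one_le_rpow (by norm_num) hi0
    nlinarith
  rw [← hL] at hη2
  have hLη : L ^ 2 * η ≤ 1 / 24 := by linarith
  have hε0 : 0 ≤ ε := by rw [hε]; positivity
  have hLe : L * ε = 3 * (L ^ 2 * η) := by rw [hε]; ring
  have hε1 : ε ≤ L * ε := by nlinarith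
  obtain ⟨q1H, B1b, hC1, hC1', G1H, k1e⟩ :=
    side hm hE hi hη hη1 hL hε (by linarith) (by linarith) hk₁ hc₁ e₁
  obtain ⟨q2H, B2b, hC2, hC2', G2H, k2e⟩ :=
    side hm hE hi hη hη1 hL hε (by linarith) (by linarith) hk₂ hc₂ e₂
  have B1H := RR_H0 (m := m) q1H
  have B2H := RR_H0 (m := m) q2H
  obtain ⟨K, hK⟩ : ∃ K : ℝ, K = SI (fun u => (k₁ u - k₂ u) ^ 2) := ⟨_, rfl⟩
  rw [← hK] at hCs ⊢
  -- step 1
  have hk₁' : SI k₁ = C₁ * SI (fun v => (RR m (qq i c₁) v) ^ i) := by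
    rw [← SI_RR hm hE G1H, ← SI_mul]
    exact SI_congr1 k1e
  have hk₂' : SI k₂ = C₂ * SI (fun v => (RR m (qq i c₂) v) ^ i) := by
    rw [← SI_RR hm hE G2H, ← SI_mul]
    exact SI_congr1 k2e
  have hD0 : SI (fun x => C₁ * (RR m (qq i c₁) x) ^ i + (-C₂) * (RR m (qq i c₂) x) ^ i) = 0 := by
    rw [SI_lin G1H.2 G2H.2]
    linarith
  have hK1 : K ≤ ((m : ℝ)⁻¹) ^ 2 *
      SI (fun x => (C₁ * (RR m (qq i c₁) x) ^ i + (-C₂) * (RR m (qq i c₂) x) ^ i) ^ 2) := by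
    refine le_trans (le_of_eq ?_) (RR_gap hm hE (H0_lin G1H G2H C₁ (-C₂)) hD0)
    rw [hK]
    refine SI_congr1 fun u hu => ?_
    rw [RR_add G1H.2 G2H.2, k1e u hu, k2e u hu]
    ring
  -- the sphere
  have hnt : Nontrivial E := by
    apply Module.nontrivial_of_finrank_pos (R := ℝ)
    omega
  obtain ⟨M, hM⟩ : ∃ M : ℝ, ((volume : Measure E).toSphere).real univ = M := ⟨_, rfl⟩
  have hM0 : 0 < M := by
    rw [← hM, Measure.real]
    refine ENNReal.toReal_pos ?_ (measure_ne_top _ _)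
    intro h
    exact (Measure.toSphere_ne_zero (volume : Measure E)) (Measure.measure_univ_eq_zero.1 h)
  obtain ⟨b₁, hb₁⟩ : ∃ b : ℝ, b = (∫ v : sphere (0 : E) 1, RR m (qq i c₁) v
    ∂((volume : Measure E).toSphere)) / M := ⟨_, rfl⟩
  obtain ⟨b₂, hb₂⟩ : ∃ b : ℝ, b = (∫ v : sphere (0 : E) 1, RR m (qq i c₂) v
    ∂((volume : Measure E).toSphere)) / M := ⟨_, rfl⟩
  obtain ⟨nb1, nT1, pT1⟩ := normal hM hM0 hε0 (by linarith) (rc B1H.2)
    (fun v => B1b v (sne v)) hb₁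
  obtain ⟨nb2, nT2, pT2⟩ := normal hM hM0 hε0 (by linarith) (rc B2H.2)
    (fun v => B2b v (sne v)) hb₂
  have hb10 : 0 < b₁ := by linarith [(abs_le.1 nb1).1]
  have hb20 : 0 < b₂ := by linarith [(abs_le.1 nb2).1]
  have B1p : ∀ v : sphere (0 : E) 1, 0 ≤ RR m (qq i c₁) v := fun v => by
    linarith [(abs_le.1 (B1b v (sne v))).1]
  have B2p : ∀ v : sphere (0 : E) 1, 0 ≤ RR m (qq i c₂) v := fun v => by
    linarith [(abs_le.1 (B2b v (sne v))).1]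
  obtain ⟨l₁, hl₁⟩ : ∃ l : ℝ, l = C₁ * b₁ ^ i := ⟨_, rfl⟩
  obtain ⟨l₂, hl₂⟩ : ∃ l : ℝ, l = C₂ * b₂ ^ i := ⟨_, rfl⟩
  have hDv : ∀ v : sphere (0 : E) 1, C₁ * (RR m (qq i c₁) v) ^ i + (-C₂) * (RR m (qq i c₂) v) ^ i =
      l₁ * (RR m (qq i c₁) v / b₁) ^ i - l₂ * (RR m (qq i c₂) v / b₂) ^ i := by
    intro v
    rw [Real.div_rpow (B1p v) hb10.le, Real.div_rpow (B2p v) hb20.le, hl₁, hl₂]
    have h1 : 0 < b₁ ^ i := Real.rpow_pos_of_pos hb10 i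
    have h2 : 0 < b₂ ^ i := Real.rpow_pos_of_pos hb20 i
    field_simp
    ring
  have hcT1 : Continuous fun v : sphere (0 : E) 1 => RR m (qq i c₁) v / b₁ :=
    (rc B1H.2).div_const b₁
  have hcT2 : Continuous fun v : sphere (0 : E) 1 => RR m (qq i c₂) v / b₂ :=
    (rc B2H.2).div_const b₂
  have h0 : ∫ v : sphere (0 : E) 1, (l₁ * (RR m (qq i c₁) v / b₁) ^ i -
      l₂ * (RR m (qq i c₂) v / b₂) ^ i) ∂((volume : Measure E).toSphere) = 0 := by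
    rw [← hD0]
    unfold SI
    exact integral_congr_ae (Filter.Eventually.of_forall fun v => (hDv v).symm)
  have hc2 := core2 (e := 4 * ε) hi hη (by linarith) (by linarith) (by rw [← hL]; linarith) hM hM0
    hcT1 hcT2 nT1 nT2 pT1 pT2 h0
  have hD2 : SI (fun x => (C₁ * (RR m (qq i c₁) x) ^ i + (-C₂) * (RR m (qq i c₂) x) ^ i) ^ 2) =
      ∫ v : sphere (0 : E) 1, (l₁ * (RR m (qq i c₁) v / b₁) ^ i -
        l₂ * (RR m (qq i c₂) v / b₂) ^ i) ^ 2 ∂((volume : Measure E).toSphere) := by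
    unfold SI
    exact integral_congr_ae (Filter.Eventually.of_forall fun v => by
      change (_ : ℝ) ^ 2 = _
      rw [hDv v])
  rw [← hD2] at hc2
  obtain ⟨μ, hμ⟩ : ∃ μ : ℝ, μ = b₁ - b₂ := ⟨_, rfl⟩
  have hc1 := core1 (ν := (volume : Measure E).toSphere) (η := η) (ε := ε) (e := 4 * ε) hη
    (by linarith) (rc B1H.2) (rc B2H.2) (by linarith [(abs_le.1 nb1).1])
    (by linarith [(abs_le.1 nb2).1]) hμ nT2 hM
  -- the even parts
  have hSq1 : SI (qq i c₁) = b₁ * M := by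
    rw [← SI_RR hm hE q1H, hb₁, div_mul_cancel₀ _ hM0.ne']
    rfl
  have hSq2 : SI (qq i c₂) = b₂ * M := by
    rw [← SI_RR hm hE q2H, hb₂, div_mul_cancel₀ _ hM0.ne']
    rfl
  have hqd : H0 (fun x => 1 * qq i c₁ x + (-1) * qq i c₂ x) := H0_lin q1H q2H 1 (-1)
  have hSqd : SI (fun x => 1 * qq i c₁ x + (-1) * qq i c₂ x) = μ * M := by
    rw [SI_lin q1H.2 q2H.2, hSq1, hSq2, hμ]
    ring
  have hF : H0 (fun x => 1 * (1 * qq i c₁ x + (-1) * qq i c₂ x) + (-μ) * (1 : ℝ)) :=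
    H0_lin hqd (H0_const 1) 1 (-μ)
  have hS1 : SI (fun _ : E => (1 : ℝ)) = M := by
    unfold SI
    rw [integral_const, hM, smul_eq_mul, mul_one]
  have hSF : SI (fun x => 1 * (1 * qq i c₁ x + (-1) * qq i c₂ x) + (-μ) * (1 : ℝ)) = 0 := by
    rw [SI_lin hqd.2 (H0_const 1).2, hSqd, hS1]
    ring
  have hgap := RR_gap hm hE hF hSF
  have hgl : SI (fun u => (RR m (fun x => 1 * (1 * qq i c₁ x + (-1) * qq i c₂ x) +
      (-μ) * (1 : ℝ)) u) ^ 2) = ∫ v : sphere (0 : E) 1, (RR m (qq i c₁) v - RR m (qq i c₂) v - μ) ^ 2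
        ∂((volume : Measure E).toSphere) := by
    unfold SI
    exact integral_congr_ae (Filter.Eventually.of_forall fun v => by
      change (_ : ℝ) ^ 2 = _
      rw [RR_add hqd.2 (H0_const 1).2, RR_add q1H.2 q2H.2, RR_const hm hE 1 (sne v)]
      ring)
  obtain ⟨Nq, hNq⟩ : ∃ N : ℝ, N = ∫ v : sphere (0 : E) 1, (qq i c₁ v - qq i c₂ v) ^ 2
    ∂((volume : Measure E).toSphere) := ⟨_, rfl⟩
  have hgr : SI (fun u => (1 * (1 * qq i c₁ u + (-1) * qq i c₂ u) + (-μ) * (1 : ℝ)) ^ 2) =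
      Nq - μ ^ 2 * M := by
    have hv := var (ν := (volume : Measure E).toSphere) ((rc q1H.2).sub (rc q2H.2)) μ
    have h1 : ∫ v : sphere (0 : E) 1, (qq i c₁ v - qq i c₂ v) ∂((volume : Measure E).toSphere) =
        μ * M := by
      rw [← hSqd]
      unfold SI
      exact integral_congr_ae (Filter.Eventually.of_forall fun v => by
        change _ = 1 * qq i c₁ v + (-1) * qq i c₂ v
        ring)
    have h2 : SI (fun u => (1 * (1 * qq i c₁ u + (-1) * qq i c₂ u) + (-μ) * (1 : ℝ)) ^ 2) =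
        ∫ v : sphere (0 : E) 1, ((qq i c₁ v - qq i c₂ v) - μ) ^ 2
          ∂((volume : Measure E).toSphere) := by
      unfold SI
      exact integral_congr_ae (Filter.Eventually.of_forall fun v => by
        change (1 * (1 * qq i c₁ v + (-1) * qq i c₂ v) + (-μ) * (1 : ℝ)) ^ 2 = _
        ring)
    rw [h2]
    refine hv.trans ?_
    rw [hM]
    change (∫ v : sphere (0 : E) 1, (qq i c₁ v - qq i c₂ v) ^ 2 ∂((volume : Measure E).toSphere)) -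
      2 * μ * (∫ v : sphere (0 : E) 1, (qq i c₁ v - qq i c₂ v) ∂((volume : Measure E).toSphere)) +
      μ ^ 2 * M = _
    rw [h1, ← hNq]
    ring
  have hNM : 0 ≤ Nq - μ ^ 2 * M := by
    rw [← hgr]
    exact integral_nonneg fun v => sq_nonneg _
  rw [hgl, hgr] at hgap
  have hqq := qq_int hi hη hη1 hc₁.cont hc₂.cont hc₁.near hc₂.near
  rw [← hNq] at hqq
  have hl1 : l₁ ≤ (1 + η) / (1 - L * ε) * (1 + ε) ^ i := by
    rw [hl₁]
    have h1 : b₁ ^ i ≤ (1 + ε) ^ i := Real.rpow_le_rpow hb10.le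
      (by linarith [(abs_le.1 nb1).2]) hi0
    exact mul_le_mul hC1' h1 (by positivity) (hC1.le.trans hC1')
  have hl10 : 0 ≤ l₁ := by
    rw [hl₁]
    positivity
  have hY0 : 0 ≤ ∫ v : sphere (0 : E) 1, (RR m (qq i c₁) v / b₁ - RR m (qq i c₂) v / b₂) ^ 2
      ∂((volume : Measure E).toSphere) := integral_nonneg fun v => sq_nonneg _
  generalize SI (fun x => (C₁ * (RR m (qq i c₁) x) ^ i + (-C₂) * (RR m (qq i c₂) x) ^ i) ^ 2) = X
    at hK1 hc2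
  generalize ∫ v : sphere (0 : E) 1, (RR m (qq i c₁) v / b₁ - RR m (qq i c₂) v / b₂) ^ 2
      ∂((volume : Measure E).toSphere) = Y at hc2 hc1 hY0
  generalize ∫ v : sphere (0 : E) 1, (RR m (qq i c₁) v - RR m (qq i c₂) v - μ) ^ 2
        ∂((volume : Measure E).toSphere) = Z at hc1 hgap
  generalize SI (fun u => (c₁ u - c₂ u) ^ 2) = W at hqq hCs
  have hμM : 0 ≤ μ ^ 2 * M := by positivity
  obtain ⟨a, ha⟩ : ∃ a : ℝ, a = ((m : ℝ)⁻¹) ^ 2 := ⟨_, rfl⟩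
  have ha0 : 0 ≤ a := by rw [ha]; positivity
  unfold Phi
  rw [← ha, ← hL]
  rw [← ha] at hK1 hgap
  have f1 : (1 + 1 / η) * (4 * ε) ^ 2 = (12 * L) ^ 2 * (η ^ 2 + η) := by
    rw [hε]
    field_simp
    ring
  have f2 : (1 + 1 / η) * (L * (4 * ε)) ^ 2 = (12 * L ^ 2) ^ 2 * (η ^ 2 + η) := by
    rw [hε]
    field_simp
    ring
  have f3 : 4 * ε = 12 * L * η := by
    rw [hε]
    ring
  rw [← hL, f2, f3] at hc2
  rw [← hε]
  have g1 : Nq ≤ (i * (1 + 3 * η) ^ (i - 1)) ^ 2 * (1 + Cs * η) * K := by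
    refine hqq.trans ?_
    rw [mul_assoc]
    exact mul_le_mul_of_nonneg_left hCs (sq_nonneg _)
  have g2 : Y ≤ ((1 - ε) ^ 2)⁻¹ * (((1 + η) * a + (12 * L) ^ 2 * (η ^ 2 + η)) * Nq) := by
    refine hc1.trans ?_
    apply mul_le_mul_of_nonneg_left _ (by positivity)
    rw [← mul_assoc (1 + 1 / η), f1]
    have h1 : Z ≤ a * Nq := hgap.trans (mul_le_mul_of_nonneg_left (by linarith) ha0)
    have h2 := mul_le_mul_of_nonneg_left h1 (by linarith : 0 ≤ 1 + η)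
    have h3 := mul_le_mul_of_nonneg_left (by linarith : μ ^ 2 * M ≤ Nq)
      (by positivity : 0 ≤ (12 * L) ^ 2 * (η ^ 2 + η))
    linarith
  have h1L : 0 < 1 - L * ε := by linarith
  have g3 : X ≤ ((1 + η) / (1 - L * ε) * (1 + ε) ^ i * (i * (1 + 12 * L * η) ^ (i - 1))) ^ 2 *
      ((1 + η) + 4 * ((12 * L ^ 2) ^ 2 * (η ^ 2 + η))) * Y := by
    refine hc2.trans ?_
    apply mul_le_mul_of_nonneg_right _ hY0
    apply mul_le_mul_of_nonneg_right _ (by positivity)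
    apply pow_le_pow_left₀ (by positivity)
    exact mul_le_mul_of_nonneg_right hl1 (by positivity)
  have g4 : 0 ≤ ((1 + η) / (1 - L * ε) * (1 + ε) ^ i * (i * (1 + 12 * L * η) ^ (i - 1))) ^ 2 *
      ((1 + η) + 4 * ((12 * L ^ 2) ^ 2 * (η ^ 2 + η))) := by positivity
  calc K ≤ a * X := hK1
    _ ≤ a * (((1 + η) / (1 - L * ε) * (1 + ε) ^ i * (i * (1 + 12 * L * η) ^ (i - 1))) ^ 2 *
      ((1 + η) + 4 * ((12 * L ^ 2) ^ 2 * (η ^ 2 + η))) * Y) := mul_le_mul_of_nonneg_left g3 ha0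
    _ ≤ a * (((1 + η) / (1 - L * ε) * (1 + ε) ^ i * (i * (1 + 12 * L * η) ^ (i - 1))) ^ 2 *
      ((1 + η) + 4 * ((12 * L ^ 2) ^ 2 * (η ^ 2 + η))) * (((1 - ε) ^ 2)⁻¹ *
        (((1 + η) * a + (12 * L) ^ 2 * (η ^ 2 + η)) *
          ((i * (1 + 3 * η) ^ (i - 1)) ^ 2 * (1 + Cs * η) * K)))) := by
        apply mul_le_mul_of_nonneg_left _ ha0
        apply mul_le_mul_of_nonneg_left _ g4
        refine g2.trans ?_
        apply mul_le_mul_of_nonneg_left _ (by positivity)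
        exact mul_le_mul_of_nonneg_left g1 (by positivity)
    _ = _ := by ring

end sph

end UUniqAux

open UUniqAux

variable {E : Type*} [NormedAddCommGroup E] [InnerProductSpace ℝ E] [FiniteDimensional ℝ E]
  [MeasurableSpace E] [BorelSpace E]

theorem UUniq {m : ℕ} [NeZero m] (hm : 2 ≤ m) (hE : finrank ℝ E = m + 1) {i : ℝ} (hi : 1 ≤ i)
    (him : i < m) : ∃ η₀ : ℝ, 0 < η₀ ∧ η₀ ≤ 1 / 100 ∧
    ∀ (η : ℝ) (x : E), 0 < η → η ≤ η₀ → ‖x‖ ≤ η → ∀ k₁ k₂ c₁ c₂ : E → ℝ, Near η k₁ → Near η k₂ →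
    H0 k₁ → H0 k₂ → Shifted η x k₁ c₁ → Shifted η x k₂ c₂ → SI k₁ = SI k₂ →
    (∃ C₁ : ℝ, ∀ u : E, ‖u‖ = 1 → k₁ u = C₁ * RR m (fun v => (RR m (fun w => (c₁ w) ^ i) v) ^ i) u) →
    (∃ C₂ : ℝ, ∀ u : E, ‖u‖ = 1 → k₂ u = C₂ * RR m (fun v => (RR m (fun w => (c₂ w) ^ i) v) ^ i) u) →
    ∀ u : E, ‖u‖ = 1 → k₁ u = k₂ u := by
  obtain ⟨Cs, hCs0, hCs⟩ := UShift_L2 (E := E) hm hE
  obtain ⟨δ, hδ, hPhi⟩ := Phi_lt hm hi him Cs
  obtain ⟨L, hL⟩ : ∃ L : ℝ, L = i * 2 ^ i := ⟨_, rfl⟩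
  have hL0 : 0 < L := by rw [hL]; positivity
  refine ⟨min (δ / 2) (min (1 / 100) (1 / (24 * L ^ 2))), by positivity,
    (min_le_right _ _).trans (min_le_left _ _), ?_⟩
  intro η x hη hη0 hx k₁ k₂ c₁ c₂ hk₁ hk₂ kH₁ kH₂ hc₁ hc₂ hSI ⟨C₁, e₁⟩ ⟨C₂, e₂⟩
  have hη1 : η ≤ 1 / 100 := hη0.trans ((min_le_right _ _).trans (min_le_left _ _))
  have hη2 : η ≤ 1 / (24 * L ^ 2) := hη0.trans ((min_le_right _ _).trans (min_le_right _ _))
  have hη3 : η < δ := by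
    have := hη0.trans (min_le_left _ _)
    linarith
  have hη4 : 24 * (i * 2 ^ i) ^ 2 * η ≤ 1 := by
    rw [← hL]
    rw [le_div_iff₀ (by positivity)] at hη2
    linarith
  have h1 := key hm hE hi hη hη1 hη4 hk₁ hk₂ hc₁ hc₂ hSI e₁ e₂
    (hCs η x hη hη1 hx k₁ k₂ c₁ c₂ hk₁ hk₂ kH₁.2 kH₂.2 hc₁ hc₂)
  have h2 := hPhi η hη hη3
  have hc : Continuous fun v : sphere (0 : E) 1 => (k₁ v - k₂ v) ^ 2 :=
    ((rc kH₁.2).sub (rc kH₂.2)).pow 2
  have h3 : 0 ≤ SI (fun u => (k₁ u - k₂ u) ^ 2) := integral_nonneg fun v => sq_nonneg _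
  have h4 : SI (fun u => (k₁ u - k₂ u) ^ 2) = 0 := by
    by_contra hne
    have h5 : 0 < SI (fun u => (k₁ u - k₂ u) ^ 2) := lt_of_le_of_ne h3 (Ne.symm hne)
    have h6 := mul_lt_mul_of_pos_right h2 h5
    linarith
  unfold SI at h4
  have h7 := (integral_eq_zero_iff_of_nonneg (fun v => sq_nonneg _) (integ hc)).1 h4
  have h8 := (Continuous.ae_eq_iff_eq ((volume : Measure E).toSphere) hc continuous_const).1 h7
  intro u hu
  have h9 := congrFun h8 ⟨u, mem_sphere_zero_iff_norm.2 hu⟩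
  have h10 : (k₁ u - k₂ u) ^ 2 = 0 := h9
  have h11 := pow_eq_zero_iff (two_ne_zero) |>.1 h10
  linarith

end StarTr
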