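import Pool.Agent.StarTr.VLin
import Pool.Agent.StarTr.UEquiv
import Pool.Agent.StarIB.Final2

set_option autoImplicit false

/-!
# StarTr, module VBody: the classical intersection body operator `I = I_m`, `m = n - 1`, and linear maps

`radial L` (as defined, `sSup {c ≥ 0 | c • u ∈ L}`) is homogeneous of degree `-1`, and `radial (A '' L) (A u) = radial L u`.  So `f = (radial (A '' L))^m` is
homogeneous of degree `-m`, `f ∘ A = (radial L)^m`, and `sphInt_lin` gives, for `w ≠ 0`, with `ρ w = ‖w‖⁻¹ interRadial m L w` (the radial function of the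
star set `interBody m L` at the vector `w`, not necessarily a unit vector):
`ρ_{I (A L)} w = |det A| ρ_{I L} (A† w)`, i.e. `I (A L) = |det A| (A†)⁻¹ (I L)`.
* `interBody_lin2`: apply this twice; `((A†)⁻¹)† = A⁻¹`; `interBody_smul` from UEquiv.  The constant is `|det A|^(m-1)`.
  (Real exponent: `x ^ (m : ℝ) = x ^ m` is `Real.rpow_natCast`.)
* `ball_lin2`: the case `L = closedBall 0 1`, `StarIB.exists_const`, `StarIB.smul_closedBall`-type lemma.
-/

open MeasureTheory Set Metric Module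
open scoped ENNReal RealInnerProductSpace Pointwise

namespace StarTr

open StarIB

section sets

variable {E : Type*} [NormedAddCommGroup E] [InnerProductSpace ℝ E]

theorem radial_hom (L : Set E) (u : E) {s : ℝ} (hs : 0 < s) :
    radial L (s • u) = s⁻¹ * radial L u := by
  unfold radial
  have h : {c : ℝ | 0 ≤ c ∧ c • (s • u) ∈ L} = s⁻¹ • {c : ℝ | 0 ≤ c ∧ c • u ∈ L} := by
    ext c
    rw [mem_smul_set_iff_inv_smul_mem₀ (inv_ne_zero hs.ne'), inv_inv]
    simp only [mem_ofPred_eq, smul_eq_mul]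
    rw [smul_smul, mul_comm c s]
    constructor
    · rintro ⟨h1, h2⟩
      exact ⟨mul_nonneg hs.le h1, h2⟩
    · rintro ⟨h1, h2⟩
      refine ⟨?_, h2⟩
      by_contra hcon
      have : s * c < 0 := mul_neg_of_pos_of_neg hs (not_le.1 hcon)
      linarith
  rw [h, Real.sSup_smul_of_nonneg (inv_nonneg.2 hs.le), smul_eq_mul]

theorem radial_lin (A : E ≃L[ℝ] E) (L : Set E) (u : E) : radial (A '' L) (A u) = radial L u := by
  unfold radial
  congr 1
  ext c
  show (0 ≤ c ∧ c • A u ∈ A '' L) ↔ (0 ≤ c ∧ c • u ∈ L)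
  rw [← map_smul A c u, A.injective.mem_set_image]

namespace VBodyAux

/-- the radial function is continuous and nonnegative outside the origin -/
def Good (L : Set E) : Prop :=
  ContinuousOn (radial L) {x : E | x ≠ 0} ∧ ∀ x : E, x ≠ 0 → 0 ≤ radial L x

theorem good_of_unit {L : Set E} (h1 : ContinuousOn (radial L) (sphere (0 : E) 1))
    (h2 : ∀ x : E, ‖x‖ = 1 → 0 ≤ radial L x) : Good L := by
  have hrep : ∀ x : E, x ≠ 0 → radial L x = ‖x‖⁻¹ * radial L (‖x‖⁻¹ • x) := by
    intro x hx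
    have hn : 0 < ‖x‖ := norm_pos_iff.2 hx
    rw [← radial_hom L _ hn, smul_smul, mul_inv_cancel₀ hn.ne', one_smul]
  constructor
  · refine ContinuousOn.congr (f := fun x : E => ‖x‖⁻¹ * radial L (‖x‖⁻¹ • x)) ?_ hrep
    have hc : ContinuousOn (fun x : E => ‖x‖⁻¹) {x : E | x ≠ 0} :=
      continuous_norm.continuousOn.inv₀ fun x hx => norm_ne_zero_iff.2 hx
    refine hc.mul (h1.comp (hc.smul continuousOn_id) ?_)
    intro x hx
    rw [mem_sphere_zero_iff_norm]
    exact norm_unit hx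
  · intro x hx
    rw [hrep x hx]
    exact mul_nonneg (inv_nonneg.2 (norm_nonneg x)) (h2 _ (norm_unit hx))

theorem good_starBody {L : Set E} (hL : IsStarBody L) : Good L :=
  good_of_unit hL.cont fun _ hx => (radial_set hL (ne_zero_of_unit hx)).1

theorem radial_image (A : E ≃L[ℝ] E) (L : Set E) (u : E) :
    radial (A '' L) u = radial L (A.symm u) := by
  rw [← radial_lin A L (A.symm u), A.apply_symm_apply]

theorem good_image (A : E ≃L[ℝ] E) {L : Set E} (hL : Good L) : Good (A '' L) := by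
  have hr : radial (A '' L) = fun u => radial L (A.symm u) := funext (radial_image A L)
  have hne : ∀ x : E, x ≠ 0 → A.symm x ≠ 0 := fun x hx h => hx (by
    have := congrArg A h
    rwa [A.apply_symm_apply, map_zero] at this)
  unfold Good
  rw [hr]
  exact ⟨hL.1.comp A.symm.continuous.continuousOn hne, fun x hx => hL.2 _ (hne x hx)⟩

end VBodyAux

theorem isStarBody_lin [FiniteDimensional ℝ E] (A : E ≃L[ℝ] E) {L : Set E} (hL : IsStarBody L) :
    IsStarBody (A '' L) := by
  refine ⟨hL.isCompact.image A.continuous, ⟨0, hL.zero_mem, map_zero A⟩, ?_, ?_⟩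
  · rintro x ⟨y, hy, rfl⟩ t ht0 ht1
    exact ⟨t • y, hL.star y hy t ht0 ht1, map_smul A t y⟩
  · exact (VBodyAux.good_image A (VBodyAux.good_starBody hL)).1.mono fun x hx =>
      ne_zero_of_unit (mem_sphere_zero_iff_norm.1 hx)

end sets

variable {E : Type*} [NormedAddCommGroup E] [InnerProductSpace ℝ E] [FiniteDimensional ℝ E]
  [MeasurableSpace E] [BorelSpace E]

namespace VBodyAux

/-- the inverse of the adjoint -/
noncomputable def invAdj (A : E ≃L[ℝ] E) : E ≃L[ℝ] E :=
  ContinuousLinearEquiv.equivOfInverse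
    (ContinuousLinearMap.adjoint (A.symm : E →L[ℝ] E)) (ContinuousLinearMap.adjoint (A : E →L[ℝ] E))
    (fun x => by
      rw [← ContinuousLinearMap.comp_apply, ← ContinuousLinearMap.adjoint_comp,
        ContinuousLinearEquiv.coe_symm_comp_coe, ContinuousLinearMap.adjoint_id,
        ContinuousLinearMap.id_apply])
    (fun x => by
      rw [← ContinuousLinearMap.comp_apply, ← ContinuousLinearMap.adjoint_comp,
        ContinuousLinearEquiv.coe_comp_coe_symm, ContinuousLinearMap.adjoint_id,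
        ContinuousLinearMap.id_apply])

omit [MeasurableSpace E] [BorelSpace E] in
theorem invAdj_symm_apply (A : E ≃L[ℝ] E) (x : E) :
    (invAdj A).symm x = ContinuousLinearMap.adjoint (A : E →L[ℝ] E) x := rfl

omit [MeasurableSpace E] [BorelSpace E] in
theorem invAdj_invAdj (A : E ≃L[ℝ] E) (x : E) : invAdj (invAdj A) x = A x := by
  have h1 : ((invAdj A).symm : E →L[ℝ] E) = ContinuousLinearMap.adjoint (A : E →L[ℝ] E) := by
    ext y
    rfl
  show ContinuousLinearMap.adjoint ((invAdj A).symm : E →L[ℝ] E) x = A x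
  rw [h1, ContinuousLinearMap.adjoint_adjoint]
  rfl

omit [FiniteDimensional ℝ E] [MeasurableSpace E] [BorelSpace E] in
theorem det_pos (A : E ≃L[ℝ] E) : 0 < |LinearMap.det (A : E →ₗ[ℝ] E)| :=
  abs_pos.2 (LinearEquiv.isUnit_det' A.toLinearEquiv).ne_zero

omit [MeasurableSpace E] [BorelSpace E] in
theorem adj_ne (A : E ≃L[ℝ] E) {w : E} (hw : w ≠ 0) :
    ContinuousLinearMap.adjoint (A : E →L[ℝ] E) w ≠ 0 := by
  rw [← invAdj_symm_apply]
  intro h
  apply hw
  have := congrArg (invAdj A) h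
  rwa [ContinuousLinearEquiv.apply_symm_apply, map_zero] at this

theorem interRadial_smul (i : ℝ) (L : Set E) (u : E) {s : ℝ} (hs : s ≠ 0) :
    interRadial i L (s • u) = interRadial i L u := by
  unfold interRadial
  rw [sphInt_smul _ _ _ hs]

/-- one step -/
theorem step {m : ℕ} (hm : 2 ≤ m) (hE : finrank ℝ E = m + 1) (A : E ≃L[ℝ] E) {L : Set E}
    (hL : Good L) {w : E} (hw : w ≠ 0) :
    ‖w‖⁻¹ * interRadial (m : ℝ) (A '' L) w = |LinearMap.det (A : E →ₗ[ℝ] E)| *
      (‖ContinuousLinearMap.adjoint (A : E →L[ℝ] E) w‖⁻¹ *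
        interRadial (m : ℝ) L (ContinuousLinearMap.adjoint (A : E →L[ℝ] E) w)) := by
  have hG := good_image A hL
  have h := sphInt_lin hm hE A (f := fun x => (radial (A '' L) x) ^ (m : ℝ))
    (hG.1.rpow_const fun x _ => Or.inr (Nat.cast_nonneg m)) (by
      intro x hx s hs
      simp only [radial_hom _ _ hs, Real.rpow_natCast, mul_pow, inv_pow]) hw
  simp only [radial_lin] at h
  unfold interRadial
  calc ‖w‖⁻¹ * (((finrank ℝ E : ℝ) - 1)⁻¹ * sphInt (fun v => radial (A '' L) v ^ (m : ℝ)) w)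
      = ((finrank ℝ E : ℝ) - 1)⁻¹ *
        (‖w‖⁻¹ * sphInt (fun v => radial (A '' L) v ^ (m : ℝ)) w) := by ring
    _ = _ := by
      rw [h]
      ring

theorem mem_interBody (i : ℝ) (L : Set E) {w : E} (hw : w ≠ 0) :
    w ∈ interBody i L ↔ ‖w‖ ≤ interRadial i L w := by
  have hn : 0 < ‖w‖ := norm_pos_iff.2 hw
  constructor
  · rintro ⟨u, hu, c, hc, hle, rfl⟩
    have hc0 : c ≠ 0 := by
      rintro rfl
      exact hw (zero_smul ℝ u)
    rw [interRadial_smul i L u hc0, norm_smul, hu, mul_one, Real.norm_of_nonneg hc]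
    exact hle
  · intro h
    refine ⟨‖w‖⁻¹ • w, norm_unit hw, ‖w‖, hn.le, ?_, ?_⟩
    · rw [interRadial_smul i L w (inv_ne_zero hn.ne')]
      exact h
    · rw [smul_smul, mul_inv_cancel₀ hn.ne', one_smul]

theorem zero_mem_interBody (hE : 1 ≤ finrank ℝ E) (i : ℝ) {L : Set E} (hL : Good L) :
    (0 : E) ∈ interBody i L := by
  have : Nontrivial E := Module.nontrivial_of_finrank_pos (R := ℝ) (by omega)
  obtain ⟨e, he⟩ := exists_norm_eq E (zero_le_one' ℝ)
  exact ⟨e, he, 0, le_rfl, interRadial_nonneg i (fun x hx => hL.2 x (ne_zero_of_unit hx)) hE e,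
    (zero_smul ℝ e).symm⟩

/-- `I (A L) = |det A| (A†)⁻¹ (I L)` -/
theorem interBody_lin {m : ℕ} (hm : 2 ≤ m) (hE : finrank ℝ E = m + 1) (A : E ≃L[ℝ] E) {L : Set E}
    (hL : Good L) : interBody (m : ℝ) (A '' L) =
      |LinearMap.det (A : E →ₗ[ℝ] E)| • (invAdj A '' interBody (m : ℝ) L) := by
  have hδ := det_pos A
  set δ := |LinearMap.det (A : E →ₗ[ℝ] E)| with hδdef
  ext w
  by_cases hw : w = 0
  · subst hw
    constructor
    · intro _
      exact ⟨0, ⟨0, zero_mem_interBody (by omega) _ hL, map_zero _⟩, smul_zero _⟩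
    · intro _
      exact zero_mem_interBody (by omega) _ (good_image A hL)
  · have hn : 0 < ‖w‖ := norm_pos_iff.2 hw
    have hA := adj_ne A hw
    have hnA : 0 < ‖ContinuousLinearMap.adjoint (A : E →L[ℝ] E) w‖ := norm_pos_iff.2 hA
    have hstep := step hm hE A hL hw
    rw [← hδdef] at hstep
    have h1 : w ∈ δ • (invAdj A '' interBody (m : ℝ) L) ↔
        δ⁻¹ • ContinuousLinearMap.adjoint (A : E →L[ℝ] E) w ∈ interBody (m : ℝ) L := by
      rw [mem_smul_set_iff_inv_smul_mem₀ hδ.ne', ← invAdj_symm_apply, ← map_smul]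
      constructor
      · rintro ⟨y, hy, hyw⟩
        rw [← hyw, ContinuousLinearEquiv.symm_apply_apply]
        exact hy
      · intro h
        exact ⟨_, h, ContinuousLinearEquiv.apply_symm_apply _ _⟩
    rw [h1, mem_interBody _ _ hw, mem_interBody _ _ (smul_ne_zero (inv_ne_zero hδ.ne') hA),
      interRadial_smul _ _ _ (inv_ne_zero hδ.ne'), norm_smul,
      Real.norm_of_nonneg (inv_nonneg.2 hδ.le)]
    have h2 : ‖w‖ ≤ interRadial (m : ℝ) (A '' L) w ↔
        1 ≤ ‖w‖⁻¹ * interRadial (m : ℝ) (A '' L) w := by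
      rw [← div_eq_inv_mul, one_le_div hn]
    rw [h2, hstep]
    set a := ‖ContinuousLinearMap.adjoint (A : E →L[ℝ] E) w‖ with ha
    set b := interRadial (m : ℝ) L (ContinuousLinearMap.adjoint (A : E →L[ℝ] E) w) with hb
    have e : δ * (a⁻¹ * b) = b / (δ⁻¹ * a) := by
      field_simp
    rw [e, one_le_div (by positivity)]

theorem good_interBody (hE : 1 ≤ finrank ℝ E) {i : ℝ} (hi : 0 ≤ i) {L : Set E} (hL : Good L) :
    Good (interBody i L) := by
  have hu : ∀ x : E, ‖x‖ = 1 → 0 ≤ radial L x := fun x hx => hL.2 x (ne_zero_of_unit hx)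
  refine good_of_unit ?_ ?_
  · have hc : ContinuousOn (interRadial i L) {x : E | x ≠ 0} := by
      unfold interRadial
      exact continuousOn_const.mul
        (continuousOn_sphInt (hL.1.rpow_const fun x _ => Or.inr hi))
    have hc' : ContinuousOn (interRadial i L) (sphere (0 : E) 1) := hc.mono fun x hx =>
      ne_zero_of_unit (mem_sphere_zero_iff_norm.1 hx)
    refine hc'.congr ?_
    intro x hx
    exact radial_interBody i hu hE (mem_sphere_zero_iff_norm.1 hx)
  · intro x hx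
    rw [radial_interBody i hu hE hx]
    exact interRadial_nonneg i hu hE x

end VBodyAux

open VBodyAux

theorem interBody_lin2 {m : ℕ} (hm : 2 ≤ m) (hE : finrank ℝ E = m + 1) (A : E ≃L[ℝ] E) {L : Set E}
    (hL : IsStarBody L) : ∃ c : ℝ, 0 < c ∧ interBody (m : ℝ) (interBody (m : ℝ) (A '' L)) =
      c • (A '' interBody (m : ℝ) (interBody (m : ℝ) L)) := by
  have hG := good_starBody hL
  have hK : Good (interBody (m : ℝ) L) := good_interBody (by omega) (Nat.cast_nonneg m) hG
  have hδ := det_pos A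
  have hδ' := det_pos (invAdj A)
  refine ⟨|LinearMap.det (A : E →ₗ[ℝ] E)| ^ (m : ℝ) *
    |LinearMap.det ((invAdj A : E ≃L[ℝ] E) : E →ₗ[ℝ] E)|,
    mul_pos (Real.rpow_pos_of_pos hδ _) hδ', ?_⟩
  have himg : invAdj (invAdj A) '' interBody (m : ℝ) (interBody (m : ℝ) L) =
      A '' interBody (m : ℝ) (interBody (m : ℝ) L) := image_congr fun x _ => invAdj_invAdj A x
  rw [interBody_lin hm hE A hG, interBody_smul hδ (m : ℝ) (fun u hu =>
    (good_image (invAdj A) hK).2 u (ne_zero_of_unit hu)), interBody_lin hm hE (invAdj A) hK,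
    himg, smul_smul]

theorem ball_lin2 {m : ℕ} (hm : 2 ≤ m) (hE : finrank ℝ E = m + 1) (A : E ≃L[ℝ] E) :
    ∃ c : ℝ, 0 < c ∧ interBody (m : ℝ) (interBody (m : ℝ) (A '' closedBall (0 : E) 1)) =
      (fun w => (0 : E) + c • w) '' (A '' closedBall (0 : E) 1) := by
  have hball : IsStarBody (closedBall (0 : E) 1) := by
    refine ⟨isCompact_closedBall 0 1, by simp, ?_, ?_⟩
    · intro x hx t ht0 ht1
      rw [mem_closedBall_zero_iff] at hx ⊢
      rw [norm_smul, Real.norm_of_nonneg ht0]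
      have := norm_nonneg x
      nlinarith
    · refine continuousOn_const (c := (1 : ℝ)) |>.congr ?_
      intro x hx
      exact radial_ball zero_le_one (mem_sphere_zero_iff_norm.1 hx)
  obtain ⟨c, hc, h⟩ := interBody_lin2 hm hE A hball
  obtain ⟨k, hk, hk'⟩ := exists_const (E := E) (by omega) (m : ℝ)
  have hk1 : 0 < k * (1 : ℝ) ^ (m : ℝ) := mul_pos hk (Real.rpow_pos_of_pos one_pos _)
  set κ : ℝ := k * (k * (1 : ℝ) ^ (m : ℝ)) ^ (m : ℝ) with hκ
  have hκ0 : 0 < κ := mul_pos hk (Real.rpow_pos_of_pos hk1 _)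
  rw [hk' 1 zero_le_one, hk' _ hk1.le, ← hκ] at h
  refine ⟨c * κ, mul_pos hc hκ0, ?_⟩
  rw [h]
  have hcl : closedBall (0 : E) κ = κ • closedBall (0 : E) 1 := by
    rw [smul_unitClosedBall, Real.norm_of_nonneg hκ0.le]
  rw [hcl]
  ext x
  constructor
  · rintro ⟨_, ⟨_, ⟨y, hy, rfl⟩, rfl⟩, rfl⟩
    refine ⟨A y, ⟨y, hy, rfl⟩, ?_⟩
    show (0 : E) + (c * κ) • A y = c • A (κ • y)
    rw [zero_add, map_smul, smul_smul]
  · rintro ⟨_, ⟨y, hy, rfl⟩, rfl⟩
    refine ⟨A (κ • y), ⟨κ • y, ⟨y, hy, rfl⟩, rfl⟩, ?_⟩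
    show c • A (κ • y) = (0 : E) + (c * κ) • A y
    rw [zero_add, map_smul, smul_smul]

end StarTr
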