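import Pool.Agent.StarTr.VLinz
import Pool.Agent.StarTr.UEquiv

set_option autoImplicit false

/-!
# StarTr, module VCore: the classical case `i = m` close to the ball, in isotropic position

`N f = (SI f²)^(1/2)`, `v = k - 1`, `V = N v`, `a = ‖y‖`, `w = wE y c`.  Decompose (`exists_proj`, `proj_trace`)
`v = quad T + h`, `w = mean w + quad S + h'`, `e = quad T_e + h_e` with `e` the function in `lin_est`, `h, h', h_e` orthogonal to all quadratic forms,
`trE T = trE S = 0`.  `RR (RR (quad S)) = m⁻² quad S` (`RR_quad`), so `lin_est` says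
`quad T = quad S + (m/2) τ + quad T_e` (up to constants), `τ u = ⟪y,u⟫² - a²/(m+1)` a traceless quadratic form, and `h = m² RR (RR h') + h_e`.
* `N h ≤ θ N h' + N e`, `θ = m² lam4² < 1` (`RR_gap4` twice, `RR_perp`, `lam4_lt`), `N h' ≤ N w ≤ (1 + C η) V`, `N e ≤ C (η V + a⁴)`.
* isotropy: `SI (k^(m+3) quad T') = 0` for all traceless `T'` (polarisation of `IsoPos`), and `SI (quad T') = 0`; `k^(m+3) = 1 + (m+3) v + ρ`,
  `|ρ| ≤ C η |v|`; so `|SI (v quad T')| ≤ C η V N (quad T')`, and `T' = T` gives `N (quad T) ≤ C η V`.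
* `V ≤ N (quad T) + N h ≤ (θ + C η) V + C a⁴`, so `V ≤ C a⁴` for small `η`.
* `(m/2) N τ ≤ N (quad T) + N (quad S) + N (quad T_e) ≤ C (V + a⁴) ≤ C a⁴`, but `N τ = c a²` with `c > 0` (rotation invariance; `SI ((⟪e,u⟫² - 1/(m+1))²) > 0`,
  it is not constant on the sphere).  So `c a² ≤ C a⁴`, and `a = 0` if `η₀` is small.
* then `V = 0` and `k = 1` on the sphere by continuity.
-/

open MeasureTheory Set Metric Module
open scoped ENNReal RealInnerProductSpace

namespace StarTr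

open StarIB

variable {E : Type*} [NormedAddCommGroup E] [InnerProductSpace ℝ E] [FiniteDimensional ℝ E]
  [MeasurableSpace E] [BorelSpace E]

namespace VCoreAux

/-- `L²` norm on the sphere -/
noncomputable def nn (f : E → ℝ) : ℝ := √(SI (fun u => (f u) ^ 2))

theorem SI_sq_nonneg (f : E → ℝ) : 0 ≤ SI (fun u => (f u) ^ 2) :=
  integral_nonneg fun _ => sq_nonneg _

theorem nn_nonneg (f : E → ℝ) : 0 ≤ nn f := Real.sqrt_nonneg _

theorem nn_sq (f : E → ℝ) : nn f ^ 2 = SI (fun u => (f u) ^ 2) := Real.sq_sqrt (SI_sq_nonneg f)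

theorem SI_congr1 {f g : E → ℝ} (h : ∀ x : E, ‖x‖ = 1 → f x = g x) : SI f = SI g := by
  unfold SI
  refine integral_congr_ae (Filter.Eventually.of_forall fun v => ?_)
  exact h _ (mem_sphere_zero_iff_norm.1 v.2)

theorem SI_mono {f g : E → ℝ} (hf : ContinuousOn f {x : E | x ≠ 0})
    (hg : ContinuousOn g {x : E | x ≠ 0}) (h : ∀ x : E, ‖x‖ = 1 → f x ≤ g x) : SI f ≤ SI g := by
  unfold SI
  refine integral_mono (SI_integrable hf) (SI_integrable hg) fun v => ?_
  exact h _ (mem_sphere_zero_iff_norm.1 v.2)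

theorem nn_congr {f g : E → ℝ} (h : ∀ x : E, ‖x‖ = 1 → f x = g x) : nn f = nn g := by
  unfold nn
  rw [SI_congr1 (f := fun u => (f u) ^ 2) (g := fun u => (g u) ^ 2) fun x hx => by rw [h x hx]]

omit [FiniteDimensional ℝ E] [MeasurableSpace E] [BorelSpace E] in
theorem H0_add {f g : E → ℝ} (hf : H0 f) (hg : H0 g) : H0 (fun x => f x + g x) := by
  refine ⟨fun x hx s hs => ?_, hf.2.add hg.2⟩
  simp only [hf.1 x hx s hs, hg.1 x hx s hs]

omit [FiniteDimensional ℝ E] [MeasurableSpace E] [BorelSpace E] in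
theorem H0_sub {f g : E → ℝ} (hf : H0 f) (hg : H0 g) : H0 (fun x => f x - g x) := by
  refine ⟨fun x hx s hs => ?_, hf.2.sub hg.2⟩
  simp only [hf.1 x hx s hs, hg.1 x hx s hs]

omit [FiniteDimensional ℝ E] [MeasurableSpace E] [BorelSpace E] in
theorem H0_smul {f : E → ℝ} (hf : H0 f) (c : ℝ) : H0 (fun x => c * f x) := by
  refine ⟨fun x hx s hs => ?_, continuousOn_const.mul hf.2⟩
  simp only [hf.1 x hx s hs]

omit [FiniteDimensional ℝ E] [MeasurableSpace E] [BorelSpace E] in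
theorem H0_pow {f : E → ℝ} (hf : H0 f) (n : ℕ) : H0 (fun x => f x ^ n) := by
  refine ⟨fun x hx s hs => ?_, hf.2.pow n⟩
  simp only [hf.1 x hx s hs]

theorem SI_sub {f g : E → ℝ} (hf : ContinuousOn f {x : E | x ≠ 0})
    (hg : ContinuousOn g {x : E | x ≠ 0}) : SI (fun x => f x - g x) = SI f - SI g := by
  unfold SI
  exact integral_sub (SI_integrable hf) (SI_integrable hg)

theorem SI_add {f g : E → ℝ} (hf : ContinuousOn f {x : E | x ≠ 0})
    (hg : ContinuousOn g {x : E | x ≠ 0}) : SI (fun x => f x + g x) = SI f + SI g := by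
  unfold SI
  exact integral_add (SI_integrable hf) (SI_integrable hg)

theorem SI_mul_const (c : ℝ) (f : E → ℝ) : SI (fun x => c * f x) = c * SI f := by
  unfold SI
  exact integral_const_mul _ _

theorem cs {f g : E → ℝ} (hf : H0 f) (hg : H0 g) :
    |SI (fun u => f u * g u)| ≤ nn f * nn g := by
  have h := UGapAAux.SI_cs hf hg
  apply abs_le_of_sq_le_sq _ (mul_nonneg (nn_nonneg f) (nn_nonneg g))
  rw [mul_pow, nn_sq, nn_sq]
  exact h

theorem nn_add {f g : E → ℝ} (hf : H0 f) (hg : H0 g) :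
    nn (fun u => f u + g u) ≤ nn f + nn g := by
  apply Real.sqrt_le_iff.2
  refine ⟨add_nonneg (nn_nonneg f) (nn_nonneg g), ?_⟩
  have h1 : SI (fun u => (f u + g u) ^ 2) =
      SI (fun u => (f u) ^ 2) + 2 * SI (fun u => f u * g u) + SI (fun u => (g u) ^ 2) := by
    have e : (fun u => (f u + g u) ^ 2) =
        fun u => ((f u) ^ 2 + 2 * (f u * g u)) + (g u) ^ 2 := by
      funext u
      ring
    rw [e, SI_add (f := fun u => (f u) ^ 2 + 2 * (f u * g u)) (g := fun u => (g u) ^ 2)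
      ((hf.2.pow 2).add (continuousOn_const.mul (hf.2.mul hg.2))) (hg.2.pow 2),
      SI_add (f := fun u => (f u) ^ 2) (g := fun u => 2 * (f u * g u)) (hf.2.pow 2)
      (continuousOn_const.mul (hf.2.mul hg.2)), SI_mul_const]
  rw [h1, add_sq, nn_sq, nn_sq]
  have h2 := (le_abs_self _).trans (cs hf hg)
  linarith

theorem nn_smul (c : ℝ) (f : E → ℝ) : nn (fun u => c * f u) = |c| * nn f := by
  unfold nn
  have e : (fun u => (c * f u) ^ 2) = fun u => c ^ 2 * (f u) ^ 2 := by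
    funext u
    ring
  rw [e, SI_mul_const, Real.sqrt_mul (sq_nonneg c), Real.sqrt_sq_eq_abs]

theorem nn_sub {f g : E → ℝ} (hf : H0 f) (hg : H0 g) :
    nn (fun u => f u - g u) ≤ nn f + nn g := by
  have h := nn_add hf (H0_smul hg (-1))
  rw [nn_smul, abs_neg, abs_one, one_mul] at h
  have e : (fun u => f u - g u) = fun u => f u + -1 * g u := by
    funext u
    ring
  rw [e]
  exact h

theorem nn_mono {f g : E → ℝ} (hf : H0 f) (hg : H0 g) {c : ℝ} (hc : 0 ≤ c)
    (h : ∀ x : E, ‖x‖ = 1 → |f x| ≤ c * |g x|) : nn f ≤ c * nn g := by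
  have h1 : nn f ≤ nn (fun u => c * g u) := by
    apply Real.sqrt_le_sqrt
    refine SI_mono (hf.2.pow 2) ((continuousOn_const.mul hg.2).pow 2) fun x hx => ?_
    rw [sq_le_sq, abs_mul, abs_of_nonneg hc]
    exact h x hx
  rw [nn_smul, abs_of_nonneg hc] at h1
  exact h1

/-- orthogonal decomposition -/
theorem proj_norm {f : E → ℝ} (hf : H0 f) {T : E →L[ℝ] E}
    (hT : ∀ S : E →L[ℝ] E, SI (fun u => (f u - quad T u) * quad S u) = 0) :
    nn (fun u => f u - quad T u) ≤ nn f ∧ nn (quad T) ≤ nn f := by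
  have hq := quad_H0 (E := E) T
  have h1 : SI (fun u => (f u) ^ 2) =
      SI (fun u => (f u - quad T u) ^ 2) + SI (fun u => (quad T u) ^ 2) := by
    have e : (fun u => (f u) ^ 2) = fun u => ((f u - quad T u) ^ 2 + (quad T u) ^ 2) +
        2 * ((f u - quad T u) * quad T u) := by
      funext u
      ring
    rw [e, SI_add (f := fun u => (f u - quad T u) ^ 2 + (quad T u) ^ 2)
      (g := fun u => 2 * ((f u - quad T u) * quad T u))
      (((hf.2.sub hq.2).pow 2).add (hq.2.pow 2))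
      (continuousOn_const.mul ((hf.2.sub hq.2).mul hq.2)),
      SI_add (f := fun u => (f u - quad T u) ^ 2) (g := fun u => (quad T u) ^ 2)
      ((hf.2.sub hq.2).pow 2) (hq.2.pow 2), SI_mul_const, hT T]
    ring
  have h2 := SI_sq_nonneg (fun u => f u - quad T u)
  have h3 := SI_sq_nonneg (quad T)
  exact ⟨Real.sqrt_le_sqrt (by linarith), Real.sqrt_le_sqrt (by linarith)⟩

omit [FiniteDimensional ℝ E] [MeasurableSpace E] [BorelSpace E] in
theorem quad_sub (A B : E →L[ℝ] E) (x : E) : quad (A - B) x = quad A x - quad B x := by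
  unfold quad
  rw [_root_.sub_apply, inner_sub_left]
  ring

omit [FiniteDimensional ℝ E] [MeasurableSpace E] [BorelSpace E] in
theorem quad_smul (c : ℝ) (A : E →L[ℝ] E) (x : E) : quad (c • A) x = c * quad A x := by
  unfold quad
  rw [_root_.smul_apply, real_inner_smul_left]
  ring

/-- the operator of the quadratic form `⟪y, u⟫² - ‖y‖²/(m+1)` -/
noncomputable def tauOp (m : ℕ) (y : E) : E →L[ℝ] E :=
  (innerSL ℝ y).smulRight y - (‖y‖ ^ 2 / ((m : ℝ) + 1)) • ContinuousLinearMap.id ℝ E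

omit [FiniteDimensional ℝ E] [MeasurableSpace E] [BorelSpace E] in
theorem quad_tau (m : ℕ) (y : E) {u : E} (hu : ‖u‖ = 1) :
    quad (tauOp m y) u = ⟪y, u⟫ ^ 2 - ‖y‖ ^ 2 / ((m : ℝ) + 1) := by
  unfold tauOp
  rw [quad_sub, quad_smul]
  unfold quad
  rw [ContinuousLinearMap.smulRight_apply, innerSL_apply_apply, real_inner_smul_left,
    ContinuousLinearMap.id_apply, real_inner_self_eq_norm_sq, hu]
  ring

theorem RR_congr {m : ℕ} {f g : E → ℝ} (h : ∀ x, ‖x‖ = 1 → f x = g x) (u : E) :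
    RR m f u = RR m g u := by
  unfold RR
  rw [sphInt_congr h u]

theorem RR_sub {m : ℕ} {f g : E → ℝ} (hf : ContinuousOn f {x : E | x ≠ 0})
    (hg : ContinuousOn g {x : E | x ≠ 0}) (u : E) :
    RR m (fun x => f x - g x) u = RR m f u - RR m g u := by
  have h := RR_add (m := m) hf hg 1 (-1) u
  have e : (fun x => f x - g x) = fun x => 1 * f x + -1 * g x := by
    funext x
    ring
  rw [e, h]
  ring

theorem M_pos {m : ℕ} (hE : finrank ℝ E = m + 1) : 0 < SI (fun _ : E => (1 : ℝ)) := by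
  have hnt : Nontrivial E := Module.nontrivial_of_finrank_pos (R := ℝ) (by omega)
  unfold SI
  rw [integral_const, smul_eq_mul, mul_one]
  rw [Measure.toSphere_real_apply_univ]
  have h1 : 0 < (volume : Measure E).real (ball (0 : E) 1) := by
    rw [measureReal_def]
    exact ENNReal.toReal_pos (measure_ball_pos _ _ one_pos).ne' measure_ball_lt_top.ne
  have h2 : 0 < finrank ℝ E := finrank_pos
  positivity

/-- a continuous function with vanishing `L²` norm vanishes -/
theorem zero_of_nn {f : E → ℝ} (hf : H0 f) (h : nn f = 0) {u : E} (hu : ‖u‖ = 1) : f u = 0 := by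
  have h1 : SI (fun u => (f u) ^ 2) = 0 := by
    rw [← nn_sq, h]
    ring
  have hc : Continuous (fun v : sphere (0 : E) 1 => (f v) ^ 2) := by
    apply (hf.2.pow 2).comp_continuous continuous_subtype_val
    intro v h0
    have h2 := mem_sphere_zero_iff_norm.1 v.2
    rw [h0, norm_zero] at h2
    exact zero_ne_one h2
  have h2 := (integral_eq_zero_iff_of_nonneg (fun v : sphere (0 : E) 1 => sq_nonneg (f v))
    (SI_integrable (hf.2.pow 2))).1 h1
  have h3 : (fun v : sphere (0 : E) 1 => (f v) ^ 2) = 0 :=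
    Continuous.ae_eq_iff_eq _ hc continuous_const |>.1 h2
  have h4 := congrFun h3 ⟨u, mem_sphere_zero_iff_norm.2 hu⟩
  simpa using h4

/-- polarised isotropy -/
theorem iso_quad {K : E → ℝ} (hK : ContinuousOn K {x : E | x ≠ 0}) {c : ℝ}
    (h : ∀ p : E, SI (fun u => K u * ⟪u, p⟫ ^ 2) = c * ‖p‖ ^ 2) (T : E →L[ℝ] E) :
    SI (fun u => K u * quad T u) = c * trE T := by
  have hin : ∀ p : E, ContinuousOn (fun u : E => ⟪u, p⟫) {x : E | x ≠ 0} := fun p =>
    (continuous_id.inner continuous_const).continuousOn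
  have hpol : ∀ p q : E, SI (fun u => K u * (⟪u, p⟫ * ⟪u, q⟫)) = c * ⟪p, q⟫ := by
    intro p q
    have e : (fun u => K u * ⟪u, p + q⟫ ^ 2) = fun u => (K u * ⟪u, p⟫ ^ 2 +
        2 * (K u * (⟪u, p⟫ * ⟪u, q⟫))) + K u * ⟪u, q⟫ ^ 2 := by
      funext u
      rw [inner_add_right]
      ring
    have h1 := h (p + q)
    rw [e, SI_add (f := fun u => K u * ⟪u, p⟫ ^ 2 + 2 * (K u * (⟪u, p⟫ * ⟪u, q⟫)))
      (g := fun u => K u * ⟪u, q⟫ ^ 2) ((hK.mul ((hin p).pow 2)).add (continuousOn_const.mul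
      (hK.mul ((hin p).mul (hin q))))) (hK.mul ((hin q).pow 2)),
      SI_add (f := fun u => K u * ⟪u, p⟫ ^ 2) (g := fun u => 2 * (K u * (⟪u, p⟫ * ⟪u, q⟫)))
      (hK.mul ((hin p).pow 2)) (continuousOn_const.mul
      (hK.mul ((hin p).mul (hin q)))), SI_mul_const, h p, h q, norm_add_sq_real] at h1
    linarith
  let b := stdOrthonormalBasis ℝ E
  have h1 : ∀ u : E, ‖u‖ = 1 → K u * quad T u =
      ∑ i, K u * (⟪u, b i⟫ * ⟪u, ContinuousLinearMap.adjoint T (b i)⟫) := by
    intro u hu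
    unfold quad
    rw [hu, one_pow, div_one, ← Finset.mul_sum, ← b.sum_inner_mul_inner (T u) u]
    congr 1
    refine Finset.sum_congr rfl fun i _ => ?_
    rw [ContinuousLinearMap.adjoint_inner_right, real_inner_comm u (b i), mul_comm]
  rw [SI_congr1 h1]
  have h2 : SI (fun u => ∑ i, K u * (⟪u, b i⟫ * ⟪u, ContinuousLinearMap.adjoint T (b i)⟫)) =
      ∑ i, SI (fun u => K u * (⟪u, b i⟫ * ⟪u, ContinuousLinearMap.adjoint T (b i)⟫)) := by
    unfold SI
    exact integral_finsetSum _ fun i _ =>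
      SI_integrable (hK.mul ((hin (b i)).mul (hin (ContinuousLinearMap.adjoint T (b i)))))
  rw [h2]
  simp_rw [hpol]
  rw [← Finset.mul_sum, trE, LinearMap.trace_eq_sum_inner _ b]
  congr 1
  refine Finset.sum_congr rfl fun i _ => ?_
  rw [ContinuousLinearMap.adjoint_inner_right, real_inner_comm]
  rfl

theorem pow_taylor (n : ℕ) {v : ℝ} (hv : |v| ≤ 1) :
    |(1 + v) ^ n - 1 - n * v| ≤ 3 ^ n * v ^ 2 := by
  induction n with
  | zero => simp [sq_nonneg]
  | succ n ih =>
    have e : (1 + v) ^ (n + 1) - 1 - ((n + 1 : ℕ) : ℝ) * v =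
        (1 + v) * ((1 + v) ^ n - 1 - n * v) + n * v ^ 2 := by
      push_cast
      ring
    have h1 : |1 + v| ≤ 2 := by
      have := abs_le.1 hv
      rw [abs_le]
      constructor <;> linarith
    have h3 : (n : ℝ) ≤ 3 ^ n := by
      exact_mod_cast (Nat.lt_pow_self (by norm_num : 1 < 3)).le
    rw [e]
    calc |(1 + v) * ((1 + v) ^ n - 1 - n * v) + n * v ^ 2|
        ≤ |(1 + v) * ((1 + v) ^ n - 1 - n * v)| + |n * v ^ 2| := abs_add_le _ _
      _ = |1 + v| * |(1 + v) ^ n - 1 - n * v| + n * v ^ 2 := by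
          rw [abs_mul, abs_of_nonneg (by positivity : (0 : ℝ) ≤ n * v ^ 2)]
      _ ≤ 2 * (3 ^ n * v ^ 2) + 3 ^ n * v ^ 2 := by
          have := mul_le_mul h1 ih (abs_nonneg _) (by norm_num : (0 : ℝ) ≤ 2)
          have := mul_le_mul_of_nonneg_right h3 (sq_nonneg v)
          linarith
      _ = 3 ^ (n + 1) * v ^ 2 := by ring

theorem num1 {x : ℝ} (hx : 0 ≤ x) : 1 + x ≤ (1 + x) ^ 2 := by nlinarith

theorem num2 {x a : ℝ} (hx : 0 ≤ x) (ha : 0 ≤ a) : x ^ 2 + a ^ 8 ≤ (x + a ^ 4) ^ 2 := by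
  have := mul_nonneg hx (pow_nonneg ha 4)
  nlinarith

theorem num3 {C : ℝ} (hC : 0 ≤ C) : C ≤ (1 + C) ^ 2 := by nlinarith

theorem num4 {x a b : ℝ} (hb : 1 ≤ b) (ha : 0 ≤ a) (h : b * x ^ 2 ≤ a * x) : x ≤ a := by
  by_contra hcon
  push Not at hcon
  have h8 : 0 < x := lt_of_le_of_lt ha hcon
  have h10 : x ^ 2 ≤ b * x ^ 2 := le_mul_of_one_le_left (sq_nonneg _) hb
  nlinarith

theorem num5 {V t h e w θ C η P a : ℝ} (h1 : V ≤ t + h) (ht : t ≤ P * η * V)
    (hh : h ≤ e + θ * w) (he : e ≤ (1 + C) * (η * V + a)) (hw : θ * w ≤ θ * ((1 + C * η) * V))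
    (h3 : θ * (C * η) * V ≤ C * η * V) : V ≤ θ * V + (P + 1 + 2 * C) * η * V + (1 + C) * a := by
  nlinarith

theorem num6 {x V t q e w C η P a : ℝ} (h1 : x ≤ t + q + e + 0) (ht : t ≤ P * η * V)
    (hq : q ≤ w) (hw : w ≤ (1 + C * η) * V) {e' : ℝ} (hee : e ≤ e')
    (he : e' ≤ (1 + C) * (η * V + a))
    (h5 : P * η * V ≤ P * V) (h6 : C * η * V ≤ C * V) (h7 : (1 + C) * (η * V) ≤ (1 + C) * V) :
    x ≤ (P + 2 + 2 * C) * V + (1 + C) * a := by
  nlinarith

theorem num7 {a η : ℝ} (ha : 0 ≤ a) (hy : a ≤ η) (h1 : η ≤ 1) : a ^ 2 ≤ η := by nlinarith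

/-- norm of `τ` -/
theorem nn_tau {m : ℕ} (hm : 2 ≤ m) (hE : finrank ℝ E = m + 1) :
    ∃ c : ℝ, 0 < c ∧ ∀ y : E, nn (quad (tauOp m y)) = c * ‖y‖ ^ 2 := by
  have hnt : Nontrivial E := Module.nontrivial_of_finrank_pos (R := ℝ) (by omega)
  obtain ⟨e₀, he₀⟩ := exists_norm_eq E (zero_le_one (α := ℝ))
  have hm0 : (2 : ℝ) ≤ m := by exact_mod_cast hm
  refine ⟨nn (quad (tauOp m e₀)), ?_, fun y => ?_⟩
  · rcases (nn_nonneg (quad (tauOp m e₀))).lt_or_eq with h | h
    · exact h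
    · exfalso
      have h1 := zero_of_nn (quad_H0 (tauOp m e₀)) h.symm he₀
      rw [quad_tau m e₀ he₀, real_inner_self_eq_norm_sq, he₀] at h1
      have h2 : (1 : ℝ) / ((m : ℝ) + 1) < 1 := by
        rw [div_lt_one (by linarith)]
        linarith
      norm_num at h1
      norm_num at h2
      linarith
  · by_cases hy : y = 0
    · subst hy
      have h1 : nn (quad (tauOp m (0 : E))) = 0 := by
        unfold nn
        rw [SI_congr1 (g := fun _ => (0 : ℝ)) fun x hx => by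
          rw [quad_tau m 0 hx, inner_zero_left, norm_zero]
          ring]
        unfold SI
        simp
      rw [h1, norm_zero]
      ring
    · have hy0 : 0 < ‖y‖ := norm_pos_iff.2 hy
      -- the unit vector of `y`
      set e : E := ‖y‖⁻¹ • y with he
      have he1 : ‖e‖ = 1 := by
        rw [he, norm_smul, norm_inv, norm_norm, inv_mul_cancel₀ hy0.ne']
      have hye : y = ‖y‖ • e := by
        rw [he, smul_smul, mul_inv_cancel₀ hy0.ne', one_smul]
      have h1 : nn (quad (tauOp m y)) = nn (fun u => ‖y‖ ^ 2 * quad (tauOp m e) u) := by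
        refine nn_congr fun u hu => ?_
        rw [quad_tau m y hu, quad_tau m e hu, he1]
        conv_lhs => rw [hye, real_inner_smul_left, norm_smul, norm_norm, he1]
        ring
      have h2 : nn (quad (tauOp m e)) = nn (quad (tauOp m e₀)) := by
        let R : E ≃ₗᵢ[ℝ] E := Submodule.reflection (ℝ ∙ (e - e₀))ᗮ
        have hR : R e = e₀ := Submodule.reflection_sub (by rw [he1, he₀])
        unfold nn
        congr 1
        rw [← SI_map R (fun u => (quad (tauOp m e₀) u) ^ 2)]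
        refine SI_congr1 fun u hu => ?_
        have hRu : ‖R u‖ = 1 := by rw [R.norm_map, hu]
        rw [quad_tau m e hu, quad_tau m e₀ hRu, ← hR, R.inner_map_map, R.norm_map]
      rw [h1, nn_smul, h2, abs_of_nonneg (sq_nonneg _)]
      ring

end VCoreAux

open VCoreAux UGapAAux USymmBAux

theorem iso_core {m : ℕ} [NeZero m] (hm : 2 ≤ m) (hE : finrank ℝ E = m + 1) :
    ∃ η₀ : ℝ, 0 < η₀ ∧ η₀ ≤ 1 / 100 ∧ ∀ (η : ℝ) (y : E), 0 < η → η ≤ η₀ → ‖y‖ ≤ η →
      ∀ k c : E → ℝ, Near η k → H0 k → Shifted η y k c → SI k = SI (fun _ : E => (1 : ℝ)) →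
      (∃ C₁ : ℝ, ∀ u : E, ‖u‖ = 1 → k u = C₁ * DT m (m : ℝ) c u) →
      (∃ c' : ℝ, ∀ p : E, SI (fun u => (k u) ^ (m + 3) * ⟪u, p⟫ ^ 2) = c' * ‖p‖ ^ 2) →
      y = 0 ∧ ∀ u : E, ‖u‖ = 1 → k u = 1 := by
  obtain ⟨C, hC0, hlin⟩ := lin_est (E := E) hm hE
  obtain ⟨cτ, hcτ, hτ⟩ := nn_tau (E := E) hm hE
  have hM := M_pos (E := E) hE
  have hm0 : (2 : ℝ) ≤ m := by exact_mod_cast hm
  have hlam0 := lam4_nonneg m
  set θ : ℝ := ((m : ℝ) * lam4 m) ^ 2 with hθ
  have hθ0 : 0 ≤ θ := sq_nonneg _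
  have hθ1 : θ < 1 := by
    have h1 := lam4_lt hm
    have h2 : (m : ℝ) * lam4 m < 1 := by
      have := mul_lt_mul_of_pos_left h1 (show (0 : ℝ) < m by linarith)
      rwa [mul_inv_cancel₀ (by linarith : (m : ℝ) ≠ 0)] at this
    have h3 : 0 ≤ (m : ℝ) * lam4 m := mul_nonneg (by linarith) hlam0
    rw [hθ]
    nlinarith
  set P : ℝ := 3 ^ (m + 3) with hP
  have hP0 : 0 < P := by rw [hP]; positivity
  set A : ℝ := P + 1 + 2 * C with hA
  have hA0 : 0 < A := by rw [hA]; positivity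
  set D : ℝ := 2 / (1 - θ) * (1 + C) with hD
  have hD0 : 0 < D := by
    rw [hD]
    have : 0 < 1 - θ := by linarith
    positivity
  set F : ℝ := (P + 2 + 2 * C) * D + (1 + C) with hF
  have hF0 : 0 < F := by rw [hF]; positivity
  have hδ : 0 < (1 - θ) / (2 * A) := div_pos (by linarith) (by linarith)
  refine ⟨min (min (1 / 100) (1 / (C + 1))) (min ((1 - θ) / (2 * A)) (cτ / (F + 1))), ?_, ?_, ?_⟩
  · refine lt_min (lt_min (by norm_num) (by positivity)) (lt_min hδ (by positivity))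
  · exact (min_le_left _ _).trans (min_le_left _ _)
  intro η y hη hη0 hy k c hk hk0 hc hSI hC₁ hiso
  have hη1 : η ≤ 1 / 100 := hη0.trans ((min_le_left _ _).trans (min_le_left _ _))
  have hη2 : η ≤ 1 / (C + 1) := hη0.trans ((min_le_left _ _).trans (min_le_right _ _))
  have hη3 : η ≤ (1 - θ) / (2 * A) := hη0.trans ((min_le_right _ _).trans (min_le_left _ _))
  have hη4 : η ≤ cτ / (F + 1) := hη0.trans ((min_le_right _ _).trans (min_le_right _ _))
  have hCη : C * η ≤ 1 := by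
    have h1 : C * η ≤ C * (1 / (C + 1)) := mul_le_mul_of_nonneg_left hη2 hC0
    have h2 : C * (1 / (C + 1)) ≤ 1 := by
      rw [mul_one_div, div_le_one (by linarith)]
      linarith
    linarith
  obtain ⟨hl1, hl2⟩ := hlin η y hη hCη hη1 hy k c hk hk0 hc hSI hC₁
  set a : ℝ := ‖y‖ with ha
  have ha0 : 0 ≤ a := norm_nonneg y
  -- the functions
  set v : E → ℝ := fun x => k x - 1 with hvdef
  have hv : H0 v := H0_sub hk0 (H0_const 1)
  have hSv : SI v = 0 := by
    rw [hvdef, SI_sub hk0.2 (H0_const 1).2, hSI, sub_self]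
  set w : E → ℝ := wE y c with hwdef
  have hw : H0 w := wE_H0 hη hη1 hy hc
  set M : ℝ := SI (fun _ : E => (1 : ℝ)) with hMdef
  set mw : ℝ := SI w / M with hmw
  have hcst : SI (fun _ : E => mw) = mw * M := by
    have h1 := SI_mul_const (E := E) mw (fun _ => 1)
    simpa using h1
  set w0 : E → ℝ := fun x => w x - mw with hw0def
  have hw0 : H0 w0 := H0_sub hw (H0_const mw)
  have hSw0 : SI w0 = 0 := by
    rw [hw0def, SI_sub hw.2 (H0_const mw).2, hcst, hmw, div_mul_cancel₀ _ hM.ne', sub_self]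
  obtain ⟨T, hT⟩ := exists_proj hE hv
  have hTtr := proj_trace hm hE hv hSv hT
  obtain ⟨S, hS⟩ := exists_proj hE hw0
  have hStr := proj_trace hm hE hw0 hSw0 hS
  set e : E → ℝ := fun x => v x - ((m : ℝ) ^ 2 * (RR m (RR m w) x - mw) +
    (m : ℝ) / 2 * quad (tauOp m y) x) with hedef
  have hRRw : H0 (RR m (RR m w)) := RR_H0 (RR_H0 hw)
  have he : H0 e := H0_sub hv (H0_add (H0_smul (H0_sub hRRw (H0_const mw)) _)
    (H0_smul (quad_H0 _) _))
  obtain ⟨Te, hTe⟩ := exists_proj hE he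
  set h : E → ℝ := fun x => v x - quad T x with hhdef
  have hh : H0 h := H0_sub hv (quad_H0 T)
  set h' : E → ℝ := fun x => w0 x - quad S x with hh'def
  have hh' : H0 h' := H0_sub hw0 (quad_H0 S)
  set he' : E → ℝ := fun x => e x - quad Te x with he'def
  have hhe' : H0 he' := H0_sub he (quad_H0 Te)
  have hR1 : H0 (RR m h') := RR_H0 hh'
  have hR2 : H0 (RR m (RR m h')) := RR_H0 hR1
  set V : ℝ := nn v with hV
  have hV0 : 0 ≤ V := nn_nonneg v
  -- norms
  have hVT := proj_norm hv hT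
  have hWS := proj_norm hw0 hS
  have hET := proj_norm he hTe
  have hw0w : nn w0 ≤ nn w := by
    apply Real.sqrt_le_sqrt
    have e1 : (fun u => (w0 u) ^ 2) = fun u => ((w u) ^ 2 - (2 * mw) * w u) + mw * mw := by
      funext u
      rw [hw0def]
      ring
    have h2 : SI (fun _ : E => mw * mw) = mw * mw * M := by
      have h1 := SI_mul_const (E := E) (mw * mw) (fun _ => 1)
      simpa using h1
    rw [e1, SI_add (f := fun u => (w u) ^ 2 - (2 * mw) * w u) (g := fun _ => mw * mw)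
      ((hw.2.pow 2).sub (continuousOn_const.mul hw.2)) continuousOn_const,
      SI_sub (f := fun u => (w u) ^ 2) (g := fun u => (2 * mw) * w u)
      (hw.2.pow 2) (continuousOn_const.mul hw.2), SI_mul_const, h2]
    have h3 : SI w = mw * M := by rw [hmw, div_mul_cancel₀ _ hM.ne']
    rw [h3]
    have h4 := mul_nonneg (mul_self_nonneg mw) hM.le
    linarith
  have hwV : nn w ≤ (1 + C * η) * V := by
    have h1 : nn w ^ 2 ≤ ((1 + C * η) * V) ^ 2 := by
      rw [nn_sq, mul_pow, hV, nn_sq]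
      refine hl2.trans ?_
      have h3 := SI_sq_nonneg v
      have h4 : 0 ≤ C * η := mul_nonneg hC0 hη.le
      exact mul_le_mul_of_nonneg_right (num1 h4) h3
    exact le_of_sq_le_sq h1 (mul_nonneg (add_nonneg zero_le_one (mul_nonneg hC0 hη.le)) hV0)
  have heV : nn e ≤ (1 + C) * (η * V + a ^ 4) := by
    have h0 : nn e ^ 2 ≤ C * (η ^ 2 * V ^ 2 + a ^ 8) := by
      rw [nn_sq, hV, nn_sq]
      refine le_trans (le_of_eq (SI_congr1 fun u hu => ?_)) hl1
      rw [hedef]
      simp only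
      rw [quad_tau m y hu]
    have h1 : nn e ^ 2 ≤ ((1 + C) * (η * V + a ^ 4)) ^ 2 := by
      refine h0.trans ?_
      have h2 : 0 ≤ η * V := mul_nonneg hη.le hV0
      have h3 : η ^ 2 * V ^ 2 + a ^ 8 ≤ (η * V + a ^ 4) ^ 2 := by
        rw [← mul_pow]
        exact num2 h2 ha0
      rw [mul_pow]
      exact mul_le_mul (num3 hC0) h3 (by positivity) (by positivity)
    exact le_of_sq_le_sq h1 (by positivity)
  -- the Radon transforms
  have r1 : ∀ z : E, ‖z‖ = 1 → RR m w0 z = RR m w z - mw := by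
    intro z hz
    have hz0 : z ≠ 0 := by
      rintro rfl
      rw [norm_zero] at hz
      exact zero_ne_one hz
    rw [hw0def, RR_sub hw.2 (H0_const mw).2, RR_const hm hE mw hz0]
  have r2 : ∀ z : E, ‖z‖ = 1 → RR m (RR m w0) z = RR m (RR m w) z - mw := by
    intro z hz
    have hz0 : z ≠ 0 := by
      rintro rfl
      rw [norm_zero] at hz
      exact zero_ne_one hz
    rw [RR_congr (m := m) r1 z, RR_sub (RR_H0 hw).2 (H0_const mw).2, RR_const hm hE mw hz0]
  have hinv : (m : ℝ) * (m : ℝ)⁻¹ = 1 := mul_inv_cancel₀ (by linarith)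
  have r3 : ∀ z : E, ‖z‖ = 1 → RR m h' z = 1 * RR m w0 z + (m : ℝ)⁻¹ * quad S z := by
    intro z hz
    have hz0 : z ≠ 0 := by
      rintro rfl
      rw [norm_zero] at hz
      exact zero_ne_one hz
    rw [hh'def, RR_sub hw0.2 (quad_H0 S).2, RR_quad hm hE S hz0, hStr]
    ring
  have r4 : ∀ z : E, ‖z‖ = 1 → RR m (RR m h') z =
      RR m (RR m w0) z - (m : ℝ)⁻¹ * (m : ℝ)⁻¹ * quad S z := by
    intro z hz
    have hz0 : z ≠ 0 := by
      rintro rfl
      rw [norm_zero] at hz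
      exact zero_ne_one hz
    rw [RR_congr (m := m) r3 z, RR_add (RR_H0 hw0).2 (quad_H0 S).2, RR_quad hm hE S hz0, hStr]
    ring
  set Q : E →L[ℝ] E := T - S - ((m : ℝ) / 2) • tauOp m y - Te with hQ
  have hQ1 : ∀ x : E, quad Q x =
      quad T x - quad S x - (m : ℝ) / 2 * quad (tauOp m y) x - quad Te x := by
    intro x
    rw [hQ, quad_sub, quad_sub, quad_sub, quad_smul]
  have hQ2 : ∀ x : E, ‖x‖ = 1 → quad Q x =
      (he' x + (m : ℝ) ^ 2 * RR m (RR m h') x) - h x := by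
    intro x hx
    rw [hQ1, r4 x hx, r2 x hx, he'def, hhdef, hedef]
    simp only
    have : (m : ℝ) ^ 2 * ((m : ℝ)⁻¹ * (m : ℝ)⁻¹ * quad S x) = quad S x := by
      calc (m : ℝ) ^ 2 * ((m : ℝ)⁻¹ * (m : ℝ)⁻¹ * quad S x)
          = ((m : ℝ) * (m : ℝ)⁻¹) ^ 2 * quad S x := by ring
        _ = quad S x := by rw [hinv]; ring
    linear_combination this
  have hp1 : ∀ S' : E →L[ℝ] E, SI (fun u => RR m h' u * quad S' u) = 0 :=
    fun S' => RR_perp hm hE hh' hS S'
  have hp2 : ∀ S' : E →L[ℝ] E, SI (fun u => RR m (RR m h') u * quad S' u) = 0 :=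
    fun S' => RR_perp hm hE hR1 hp1 S'
  have hnQ : nn (quad Q) = 0 := by
    have hqQ := quad_H0 (E := E) Q
    have h1 : SI (fun u => (quad Q u) ^ 2) = 0 := by
      rw [SI_congr1 (g := fun u => (he' u * quad Q u + (m : ℝ) ^ 2 *
        (RR m (RR m h') u * quad Q u)) - h u * quad Q u) fun u hu => by
          rw [sq]
          nth_rewrite 1 [hQ2 u hu]
          ring]
      rw [SI_sub (f := fun u => he' u * quad Q u + (m : ℝ) ^ 2 *
          (RR m (RR m h') u * quad Q u)) (g := fun u => h u * quad Q u)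
          ((hhe'.2.mul hqQ.2).add (continuousOn_const.mul (hR2.2.mul hqQ.2)))
        (hh.2.mul hqQ.2), SI_add (f := fun u => he' u * quad Q u)
          (g := fun u => (m : ℝ) ^ 2 * (RR m (RR m h') u * quad Q u))
          (hhe'.2.mul hqQ.2) (continuousOn_const.mul (hR2.2.mul hqQ.2)),
        SI_mul_const, hp2 Q, hTe Q, hT Q]
      ring
    unfold nn
    rw [h1, Real.sqrt_zero]
  -- estimate of `h`
  have hgap : nn (RR m (RR m h')) ≤ (lam4 m) ^ 2 * nn h' := by
    have g1 : nn (RR m h') ≤ lam4 m * nn h' := by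
      have h1 := RR_gap4 hm hE hh' hS
      apply le_of_sq_le_sq _ (mul_nonneg hlam0 (nn_nonneg _))
      rw [mul_pow, nn_sq, nn_sq]
      exact h1
    have g2 : nn (RR m (RR m h')) ≤ lam4 m * nn (RR m h') := by
      have h1 := RR_gap4 hm hE hR1 hp1
      apply le_of_sq_le_sq _ (mul_nonneg hlam0 (nn_nonneg _))
      rw [mul_pow, nn_sq, nn_sq]
      exact h1
    calc nn (RR m (RR m h')) ≤ lam4 m * nn (RR m h') := g2
      _ ≤ lam4 m * (lam4 m * nn h') := mul_le_mul_of_nonneg_left g1 hlam0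
      _ = (lam4 m) ^ 2 * nn h' := by ring
  have hnh : nn h ≤ nn e + θ * nn w := by
    have h1 : nn h = nn (fun x => (he' x + (m : ℝ) ^ 2 * RR m (RR m h') x) - quad Q x) := by
      refine nn_congr fun x hx => ?_
      rw [hQ2 x hx]
      ring
    have h2 := nn_sub (H0_add hhe' (H0_smul hR2 ((m : ℝ) ^ 2))) (quad_H0 Q)
    have h3 := nn_add hhe' (H0_smul hR2 ((m : ℝ) ^ 2))
    rw [nn_smul, abs_of_nonneg (by positivity : (0 : ℝ) ≤ (m : ℝ) ^ 2)] at h3
    have h4 : (m : ℝ) ^ 2 * nn (RR m (RR m h')) ≤ θ * nn w := by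
      calc (m : ℝ) ^ 2 * nn (RR m (RR m h')) ≤ (m : ℝ) ^ 2 * ((lam4 m) ^ 2 * nn h') :=
            mul_le_mul_of_nonneg_left hgap (by positivity)
        _ = θ * nn h' := by rw [hθ]; ring
        _ ≤ θ * nn w := mul_le_mul_of_nonneg_left (hWS.1.trans hw0w) hθ0
    have h5 := hET.1
    rw [h1]
    rw [hnQ] at h2
    linarith
  -- isotropy
  have hTV : nn (quad T) ≤ P * η * V := by
    obtain ⟨c', hc'⟩ := hiso
    have hK : H0 (fun u => k u ^ (m + 3)) := H0_pow hk0 (m + 3)
    have hz := iso_quad hK.2 hc' T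
    rw [hTtr, mul_zero] at hz
    set ρ : E → ℝ := fun u => (k u ^ (m + 3) - 1) - ((m + 3 : ℕ) : ℝ) * v u with hρ
    have hρ0 : H0 ρ := H0_sub (H0_sub hK (H0_const 1)) (H0_smul hv _)
    have hρn : nn ρ ≤ (P * η) * V := by
      refine nn_mono hρ0 hv (by positivity) fun x hx => ?_
      have h1 := hk.near x hx
      have hvx : |v x| ≤ η := h1
      have h2 := pow_taylor (m + 3) (v := v x) (hvx.trans (by linarith))
      have h3 : 1 + v x = k x := by
        rw [hvdef]
        ring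
      rw [h3] at h2
      have h4 : (v x) ^ 2 ≤ η * |v x| := by
        rw [← sq_abs, sq]
        exact mul_le_mul_of_nonneg_right hvx (abs_nonneg _)
      calc |ρ x| ≤ P * (v x) ^ 2 := h2
        _ ≤ P * (η * |v x|) := mul_le_mul_of_nonneg_left h4 hP0.le
        _ = P * η * |v x| := by ring
    have hq := quad_H0 (E := E) T
    have h1 : SI (quad T) = 0 := by
      rw [SI_quad hm hE T, hTtr]
      ring
    have h2 : SI (fun u => k u ^ (m + 3) * quad T u) =
        SI (quad T) + ((m + 3 : ℕ) : ℝ) * SI (fun u => v u * quad T u) +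
          SI (fun u => ρ u * quad T u) := by
      rw [← SI_mul_const, ← SI_add (f := quad T)
        (g := fun u => ((m + 3 : ℕ) : ℝ) * (v u * quad T u)) hq.2
        (continuousOn_const.mul (hv.2.mul hq.2)),
        ← SI_add (f := fun u => quad T u + ((m + 3 : ℕ) : ℝ) * (v u * quad T u))
        (g := fun u => ρ u * quad T u)
        (hq.2.add (continuousOn_const.mul (hv.2.mul hq.2))) (hρ0.2.mul hq.2)]
      refine SI_congr1 fun u hu => ?_
      rw [hρ]
      ring
    rw [hz, h1, zero_add] at h2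
    have h3 : SI (fun u => v u * quad T u) = nn (quad T) ^ 2 := by
      rw [nn_sq]
      have e1 : (fun u => v u * quad T u) =
          fun u => (v u - quad T u) * quad T u + (quad T u) ^ 2 := by
        funext u
        ring
      rw [e1, SI_add (f := fun u => (v u - quad T u) * quad T u) (g := fun u => (quad T u) ^ 2)
        ((hv.2.sub hq.2).mul hq.2) (hq.2.pow 2), hT T, zero_add]
    have h4 := cs hρ0 hq
    rw [h3] at h2
    have h5 : ((m + 3 : ℕ) : ℝ) * nn (quad T) ^ 2 ≤ P * η * V * nn (quad T) := by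
      have h6 := neg_abs_le (SI (fun u => ρ u * quad T u))
      have h7 := mul_le_mul_of_nonneg_right hρn (nn_nonneg (quad T))
      linarith
    have h9 : (1 : ℝ) ≤ ((m + 3 : ℕ) : ℝ) := by
      push_cast
      linarith
    exact num4 h9 (by positivity) h5
  -- conclusion for `V`
  have hVh : V ≤ nn (quad T) + nn h := by
    have h1 := nn_add (quad_H0 T) hh
    have h2 : V = nn (fun u => quad T u + h u) := by
      rw [hV]
      refine nn_congr fun x _ => ?_
      rw [hhdef]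
      ring
    rw [h2]
    exact h1
  have hV4 : V ≤ D * a ^ 4 := by
    have hθη : θ * (C * η) ≤ C * η := mul_le_of_le_one_left (mul_nonneg hC0 hη.le) hθ1.le
    have h1 : V ≤ θ * V + A * η * V + (1 + C) * a ^ 4 := by
      have h2 : θ * nn w ≤ θ * ((1 + C * η) * V) := mul_le_mul_of_nonneg_left hwV hθ0
      have h3 : θ * (C * η) * V ≤ C * η * V := mul_le_mul_of_nonneg_right hθη hV0
      exact num5 hVh hTV hnh heV h2 h3
    have h2 : A * η ≤ (1 - θ) / 2 := by
      rw [le_div_iff₀ (by positivity)] at hη3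
      linarith
    have h3 : A * η * V ≤ (1 - θ) / 2 * V := mul_le_mul_of_nonneg_right h2 hV0
    have h4 : (1 - θ) / 2 * V ≤ (1 + C) * a ^ 4 := by linarith
    have h5 : 0 < 1 - θ := by linarith
    rw [hD]
    have h6 : V = 2 / (1 - θ) * ((1 - θ) / 2 * V) := by
      field_simp
    rw [h6, mul_assoc]
    exact mul_le_mul_of_nonneg_left h4 (by positivity)
  -- conclusion for `a`
  have hτa : (m : ℝ) / 2 * (cτ * a ^ 2) ≤ F * a ^ 4 := by
    have h1 : nn (fun x => (m : ℝ) / 2 * quad (tauOp m y) x) ≤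
        nn (quad T) + nn (quad S) + nn (quad Te) + nn (quad Q) := by
      have e1 : (fun x => (m : ℝ) / 2 * quad (tauOp m y) x) =
          fun x => ((quad T x - quad S x) - quad Te x) - quad Q x := by
        funext x
        rw [hQ1]
        ring
      rw [e1]
      have g1 := nn_sub (H0_sub (H0_sub (quad_H0 T) (quad_H0 S)) (quad_H0 Te)) (quad_H0 Q)
      have g2 := nn_sub (H0_sub (quad_H0 T) (quad_H0 S)) (quad_H0 Te)
      have g3 := nn_sub (quad_H0 T) (quad_H0 S)
      linarith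
    rw [nn_smul, hτ y, abs_of_nonneg (by linarith : (0 : ℝ) ≤ (m : ℝ) / 2), hnQ] at h1
    have hη5 : η ≤ 1 := by linarith
    have h4 : η * V ≤ V := mul_le_of_le_one_left hV0 hη5
    have h5 : P * η * V ≤ P * V := by
      rw [mul_assoc]
      exact mul_le_mul_of_nonneg_left h4 hP0.le
    have h6 : C * η * V ≤ C * V := by
      rw [mul_assoc]
      exact mul_le_mul_of_nonneg_left h4 hC0
    have h7 : (1 + C) * (η * V) ≤ (1 + C) * V := mul_le_mul_of_nonneg_left h4 (by linarith)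
    have h8 : (m : ℝ) / 2 * (cτ * a ^ 2) ≤ (P + 2 + 2 * C) * V + (1 + C) * a ^ 4 :=
      num6 h1 hTV (hWS.2.trans hw0w) hwV hET.2 heV h5 h6 h7
    have h9 : (P + 2 + 2 * C) * V ≤ (P + 2 + 2 * C) * (D * a ^ 4) :=
      mul_le_mul_of_nonneg_left hV4 (by positivity)
    rw [hF]
    linarith
  have haz : a = 0 := by
    by_contra hne
    have hap : 0 < a := lt_of_le_of_ne ha0 (Ne.symm hne)
    have h1 : cτ * a ^ 2 ≤ (m : ℝ) / 2 * (cτ * a ^ 2) :=
      le_mul_of_one_le_left (by positivity) (by linarith)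
    have h2 : cτ * a ^ 2 ≤ F * a ^ 2 * a ^ 2 := by
      calc cτ * a ^ 2 ≤ F * a ^ 4 := h1.trans hτa
        _ = F * a ^ 2 * a ^ 2 := by ring
    have h3 : cτ ≤ F * a ^ 2 := le_of_mul_le_mul_right h2 (by positivity)
    have h4 : a ^ 2 ≤ η := num7 ha0 hy (by linarith)
    have h5 : F * a ^ 2 ≤ F * (cτ / (F + 1)) :=
      mul_le_mul_of_nonneg_left (h4.trans hη4) hF0.le
    have h6 : F * (cτ / (F + 1)) < cτ := by
      rw [← mul_div_assoc, div_lt_iff₀ (by linarith), mul_add, mul_one, mul_comm F cτ]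
      linarith
    linarith
  have hVz : nn v = 0 := by
    rw [haz] at hV4
    have : D * (0 : ℝ) ^ 4 = 0 := by ring
    rw [this] at hV4
    exact le_antisymm hV4 hV0
  refine ⟨norm_eq_zero.1 haz, fun u hu => ?_⟩
  have h1 := zero_of_nn hv hVz hu
  have h2 : k u - 1 = 0 := h1
  linarith

end StarTr
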