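import Pool.Agent.StarTr.UBody

set_option autoImplicit false

/-!
# StarTr, part III (the classical case `i = n - 1 = m` close to the ball): definitions

* `quad T x = ⟪T x, x⟫ / ‖x‖²`: quadratic forms, as functions homogeneous of degree zero.
* `cB y`: the radial function of the translate `B - y` of the unit ball, homogeneous of degree zero.
* `IsoPos m M`: `M` is in isotropic position.
* `DT m i c = R((R c^i)^i)`.
-/

open MeasureTheory Set Metric Module
open scoped ENNReal RealInnerProductSpace

namespace StarTr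

open StarIB

variable {E : Type*} [NormedAddCommGroup E] [InnerProductSpace ℝ E] [FiniteDimensional ℝ E]
  [MeasurableSpace E] [BorelSpace E]

/-- quadratic forms as functions homogeneous of degree zero -/
noncomputable def quad (T : E →L[ℝ] E) (x : E) : ℝ := ⟪T x, x⟫ / ‖x‖ ^ 2

/-- trace -/
noncomputable def trE (T : E →L[ℝ] E) : ℝ := LinearMap.trace ℝ E (T : E →ₗ[ℝ] E)

/-- radial function of the unit ball translated by `-y` -/
noncomputable def cB (y x : E) : ℝ :=
  -(⟪y, x⟫ / ‖x‖) + √(1 - ‖y‖ ^ 2 + (⟪y, x⟫ / ‖x‖) ^ 2)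

/-- isotropic position: the matrix of inertia of `M` is a multiple of the identity (in polar coordinates) -/
def IsoPos (m : ℕ) (M : Set E) : Prop :=
  ∃ c : ℝ, ∀ p : E, SI (fun u => (radial M u) ^ (m + 3) * ⟪u, p⟫ ^ 2) = c * ‖p‖ ^ 2

/-- the double transform -/
noncomputable def DT (m : ℕ) (i : ℝ) (c : E → ℝ) (u : E) : ℝ :=
  RR m (fun v => (RR m (fun w => (c w) ^ i) v) ^ i) u

/-- even part of `c - cB y` -/
noncomputable def wE (y : E) (c : E → ℝ) (x : E) : ℝ :=
  ((c x - cB y x) + (c (-x) - cB y (-x))) / 2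

/-- fourth moment of a coordinate -/
noncomputable def lam4 (m : ℕ) [NeZero m] : ℝ := ∫ s, s ^ 4 ∂(nuS m)

end StarTr
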