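import Pool.Agent.StarTr.VDef
import Pool.Agent.StarTr.UShiftA
import Pool.Agent.StarTr.ShiftA

set_option autoImplicit false

/-!
# StarTr, module VExp: the double transform of the translated ball, second order expansion

`t = ⟪y, x⟫/‖x‖` with `|t| ≤ a = ‖y‖`, `cB y x = -t + √(1 - a² + t²)`.
* `cB_shifted`: for a unit vector `u`, `‖y + cB y u • u‖² = a² + 2 c t + c² = 1`.
* even part of `(cB)^m` (natural exponent `m`): `((r - t)^m + (r + t)^m)/2`, `r² = 1 - a² + t²`, equals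
  `1 - (m/2) a² + (m²/2) t² + O(a⁴)` (`VExpAux.evenPow`, by the three term recurrence for the power sums).
* `RR (cB^m) u = RR (even part) u` (`RR_even`), and `RR (⟪y, v⟫²) u = m⁻¹ (a² - ⟪y,u⟫²)` for unit `u` (`sphInt_zonal`, second moment), so
  `RR (cB^m) u = 1 - (m/2) ⟪y,u⟫² + O(a⁴)`; its `m`-th power is `1 - (m²/2) ⟪y,u⟫² + O(a⁴)`; applying `RR` again gives
  `1 - (m/2) (a² - ⟪y,u⟫²) + O(a⁴)`.  (`RR_abs`, `RR_add`, `RR_const`.)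
-/

open MeasureTheory Set Metric Module
open scoped ENNReal RealInnerProductSpace

namespace StarTr

open StarIB

variable {E : Type*} [NormedAddCommGroup E] [InnerProductSpace ℝ E] [FiniteDimensional ℝ E]
  [MeasurableSpace E] [BorelSpace E]

namespace VExpAux

theorem sqrt_exp {a t : ℝ} (ha : 0 ≤ a) (ha1 : a ≤ 1 / 100) (ht : |t| ≤ a) :
    |√(1 - a ^ 2 + t ^ 2) - (1 - (a ^ 2 - t ^ 2) / 2)| ≤ a ^ 4 := by
  have ht2 : t ^ 2 ≤ a ^ 2 := sq_le_sq' (by linarith [abs_le.1 ht]) (abs_le.1 ht).2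
  have ht0 : 0 ≤ t ^ 2 := sq_nonneg t
  have ha2 : a ^ 2 ≤ 1 / 10000 := by nlinarith
  set s := a ^ 2 - t ^ 2 with hs
  have hs0 : 0 ≤ s := by linarith
  have hs1 : s ≤ a ^ 2 := by linarith
  have e : 1 - a ^ 2 + t ^ 2 = 1 - s := by rw [hs]; ring
  rw [e]
  have h4 : s ^ 2 ≤ a ^ 4 := by
    have : a ^ 4 = (a ^ 2) ^ 2 := by ring
    rw [this]
    exact pow_le_pow_left₀ hs0 hs1 2
  have hup : √(1 - s) ≤ 1 - s / 2 := by
    apply Real.sqrt_le_iff.2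
    constructor
    · linarith
    · nlinarith
  have hlo : 1 - s / 2 - s ^ 2 ≤ √(1 - s) := by
    apply Real.le_sqrt_of_sq_le
    have h5 : s ≤ 1 / 10000 := by linarith
    nlinarith [mul_nonneg hs0 hs0, mul_nonneg (mul_nonneg hs0 hs0) hs0, mul_nonneg (mul_nonneg hs0 hs0) (sub_nonneg.2 h5),
      mul_nonneg (mul_nonneg (mul_nonneg hs0 hs0) hs0) (sub_nonneg.2 h5)]
  rw [abs_le]
  constructor <;> linarith

/-- the even part of the `n`-th power -/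
noncomputable def P (n : ℕ) (a t : ℝ) : ℝ :=
  ((-t + √(1 - a ^ 2 + t ^ 2)) ^ n + (t + √(1 - a ^ 2 + t ^ 2)) ^ n) / 2

/-- its second order expansion -/
noncomputable def Q (n : ℕ) (a t : ℝ) : ℝ := 1 - (n : ℝ) / 2 * a ^ 2 + (n : ℝ) ^ 2 / 2 * t ^ 2

theorem P_rec (n : ℕ) {a t : ℝ} (h : 0 ≤ 1 - a ^ 2 + t ^ 2) :
    P (n + 2) a t = 2 * √(1 - a ^ 2 + t ^ 2) * P (n + 1) a t - (1 - a ^ 2) * P n a t := by
  unfold P
  have hr : √(1 - a ^ 2 + t ^ 2) ^ 2 = 1 - a ^ 2 + t ^ 2 := Real.sq_sqrt h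
  set r := √(1 - a ^ 2 + t ^ 2) with hrr
  have h1 : (-t + r) ^ 2 = 2 * r * (-t + r) - (1 - a ^ 2) := by
    have : (-t + r) ^ 2 = 2 * r * (-t + r) - r ^ 2 + t ^ 2 := by ring
    rw [this, hr]; ring
  have h2 : (t + r) ^ 2 = 2 * r * (t + r) - (1 - a ^ 2) := by
    have : (t + r) ^ 2 = 2 * r * (t + r) - r ^ 2 + t ^ 2 := by ring
    rw [this, hr]; ring
  have e1 : (-t + r) ^ (n + 2) = (-t + r) ^ n * (-t + r) ^ 2 := by ring
  have e2 : (t + r) ^ (n + 2) = (t + r) ^ n * (t + r) ^ 2 := by ring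
  rw [e1, e2, h1, h2]
  ring

theorem Q_bound (n : ℕ) {a t : ℝ} (ha : 0 ≤ a) (ha1 : a ≤ 1 / 100) (ht : |t| ≤ a) :
    |Q n a t| ≤ 1 + n + (n : ℝ) ^ 2 := by
  have ht2 : t ^ 2 ≤ a ^ 2 := sq_le_sq' (by linarith [abs_le.1 ht]) (abs_le.1 ht).2
  have ht0 : 0 ≤ t ^ 2 := sq_nonneg t
  have ha2 : a ^ 2 ≤ 1 := by nlinarith
  have ha0 : 0 ≤ a ^ 2 := sq_nonneg a
  have hn : (0 : ℝ) ≤ n := Nat.cast_nonneg n
  have h1 : (n : ℝ) * a ^ 2 ≤ n := by nlinarith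
  have h1' : 0 ≤ (n : ℝ) * a ^ 2 := by positivity
  have h2 : (n : ℝ) ^ 2 * t ^ 2 ≤ (n : ℝ) ^ 2 := by
    have := mul_le_mul_of_nonneg_left (ht2.trans ha2) (sq_nonneg (n : ℝ))
    linarith
  have h2' : 0 ≤ (n : ℝ) ^ 2 * t ^ 2 := by positivity
  have e : Q n a t = 1 - (n : ℝ) * a ^ 2 / 2 + (n : ℝ) ^ 2 * t ^ 2 / 2 := by unfold Q; ring
  rw [e, abs_le]
  constructor <;> nlinarith [sq_nonneg (n : ℝ)]

theorem Q_rec (n : ℕ) {a t : ℝ} (ha : 0 ≤ a) (ha1 : a ≤ 1 / 100) (ht : |t| ≤ a) :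
    |2 * √(1 - a ^ 2 + t ^ 2) * Q (n + 1) a t - (1 - a ^ 2) * Q n a t - Q (n + 2) a t| ≤
      (2 * (1 + ((n + 1 : ℕ) : ℝ) + ((n + 1 : ℕ) : ℝ) ^ 2) + 4 * ((n : ℝ) + 1) ^ 2) * a ^ 4 := by
  have hρ := sqrt_exp ha ha1 ht
  set r := √(1 - a ^ 2 + t ^ 2) with hr
  have hQ := Q_bound (n + 1) ha ha1 ht
  have ht2 : t ^ 2 ≤ a ^ 2 := sq_le_sq' (by linarith [abs_le.1 ht]) (abs_le.1 ht).2
  have ht0 : 0 ≤ t ^ 2 := sq_nonneg t
  have ha0 : 0 ≤ a ^ 2 := sq_nonneg a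
  have hn : (0 : ℝ) ≤ n := Nat.cast_nonneg n
  have e : 2 * r * Q (n + 1) a t - (1 - a ^ 2) * Q n a t - Q (n + 2) a t =
      2 * ((r - (1 - (a ^ 2 - t ^ 2) / 2)) * Q (n + 1) a t) +
      (-(a ^ 2 - t ^ 2) * (-(((n : ℝ) + 1) / 2 * a ^ 2) + ((n : ℝ) + 1) ^ 2 / 2 * t ^ 2) +
        a ^ 2 * (-((n : ℝ) / 2 * a ^ 2) + (n : ℝ) ^ 2 / 2 * t ^ 2)) := by
    unfold Q
    push_cast
    ring
  rw [e]
  have h1 : |2 * ((r - (1 - (a ^ 2 - t ^ 2) / 2)) * Q (n + 1) a t)| ≤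
      2 * (1 + ((n + 1 : ℕ) : ℝ) + ((n + 1 : ℕ) : ℝ) ^ 2) * a ^ 4 := by
    rw [abs_mul, abs_mul, abs_of_pos (by norm_num : (0 : ℝ) < 2)]
    have := mul_le_mul hρ hQ (abs_nonneg _) (by positivity)
    nlinarith
  have h3 : |-(((n : ℝ) + 1) / 2 * a ^ 2) + ((n : ℝ) + 1) ^ 2 / 2 * t ^ 2| ≤ ((n : ℝ) + 1) ^ 2 * a ^ 2 := by
    have g1 : 0 ≤ ((n : ℝ) + 1) * a ^ 2 := by positivity
    have g2 : ((n : ℝ) + 1) * a ^ 2 ≤ ((n : ℝ) + 1) ^ 2 * a ^ 2 := by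
      apply mul_le_mul_of_nonneg_right _ ha0
      nlinarith
    have g3 : 0 ≤ ((n : ℝ) + 1) ^ 2 * t ^ 2 := by positivity
    have g4 : ((n : ℝ) + 1) ^ 2 * t ^ 2 ≤ ((n : ℝ) + 1) ^ 2 * a ^ 2 :=
      mul_le_mul_of_nonneg_left ht2 (by positivity)
    rw [abs_le]
    constructor <;> nlinarith
  have h4 : |-((n : ℝ) / 2 * a ^ 2) + (n : ℝ) ^ 2 / 2 * t ^ 2| ≤ ((n : ℝ) + 1) ^ 2 * a ^ 2 := by
    have g1 : 0 ≤ (n : ℝ) * a ^ 2 := by positivity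
    have g2 : (n : ℝ) * a ^ 2 ≤ ((n : ℝ) + 1) ^ 2 * a ^ 2 := by
      apply mul_le_mul_of_nonneg_right _ ha0
      nlinarith
    have g3 : 0 ≤ (n : ℝ) ^ 2 * t ^ 2 := by positivity
    have g4 : (n : ℝ) ^ 2 * t ^ 2 ≤ ((n : ℝ) + 1) ^ 2 * a ^ 2 := by
      apply mul_le_mul _ ht2 ht0 (by positivity)
      nlinarith
    rw [abs_le]
    constructor <;> nlinarith
  have h5 : |-(a ^ 2 - t ^ 2)| ≤ a ^ 2 := by
    rw [abs_neg, abs_of_nonneg (by linarith)]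
    linarith
  have h2 : |(-(a ^ 2 - t ^ 2) * (-(((n : ℝ) + 1) / 2 * a ^ 2) + ((n : ℝ) + 1) ^ 2 / 2 * t ^ 2) +
        a ^ 2 * (-((n : ℝ) / 2 * a ^ 2) + (n : ℝ) ^ 2 / 2 * t ^ 2))| ≤
      2 * ((n : ℝ) + 1) ^ 2 * a ^ 4 := by
    refine (abs_add_le _ _).trans ?_
    rw [abs_mul, abs_mul, abs_of_nonneg ha0]
    have k1 := mul_le_mul h5 h3 (abs_nonneg _) ha0
    have k2 := mul_le_mul_of_nonneg_left h4 ha0
    nlinarith
  refine (abs_add_le _ _).trans ?_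
  have h6 : 0 ≤ ((n : ℝ) + 1) ^ 2 * a ^ 4 := by positivity
  nlinarith

theorem evenPow (n : ℕ) : (∃ C : ℝ, 0 ≤ C ∧ ∀ a t : ℝ, 0 ≤ a → a ≤ 1 / 100 → |t| ≤ a →
      |P n a t - Q n a t| ≤ C * a ^ 4) ∧ (∃ C : ℝ, 0 ≤ C ∧ ∀ a t : ℝ, 0 ≤ a → a ≤ 1 / 100 → |t| ≤ a →
      |P (n + 1) a t - Q (n + 1) a t| ≤ C * a ^ 4) := by
  induction n with
  | zero =>
    refine ⟨⟨0, le_rfl, fun a t _ _ _ => ?_⟩, ⟨1, zero_le_one, fun a t ha ha1 ht => ?_⟩⟩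
    · have : P 0 a t - Q 0 a t = 0 := by
        unfold P Q
        simp
      rw [this]
      simp
    · have h := sqrt_exp ha ha1 ht
      have e : P (0 + 1) a t - Q (0 + 1) a t = √(1 - a ^ 2 + t ^ 2) - (1 - (a ^ 2 - t ^ 2) / 2) := by
        unfold P Q
        push_cast
        ring
      rw [e, one_mul]
      exact h
  | succ n ih =>
    obtain ⟨⟨C0, hC0, h0⟩, ⟨C1, hC1, h1⟩⟩ := ih
    refine ⟨⟨C1, hC1, h1⟩, ?_⟩
    refine ⟨2 * C1 + C0 +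
      (2 * (1 + ((n + 1 : ℕ) : ℝ) + ((n + 1 : ℕ) : ℝ) ^ 2) + 4 * ((n : ℝ) + 1) ^ 2), by positivity,
      fun a t ha ha1 ht => ?_⟩
    have ht2 : t ^ 2 ≤ a ^ 2 := sq_le_sq' (by linarith [abs_le.1 ht]) (abs_le.1 ht).2
    have ht0 : 0 ≤ t ^ 2 := sq_nonneg t
    have ha2 : a ^ 2 ≤ 1 / 10000 := by nlinarith
    have hnn : 0 ≤ 1 - a ^ 2 + t ^ 2 := by linarith
    have hr0 : 0 ≤ √(1 - a ^ 2 + t ^ 2) := Real.sqrt_nonneg _
    have hr1 : √(1 - a ^ 2 + t ^ 2) ≤ 1 := by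
      rw [Real.sqrt_le_one]
      linarith
    have hq := Q_rec n ha ha1 ht
    have hrec := P_rec n (a := a) (t := t) hnn
    have k0 := h0 a t ha ha1 ht
    have k1 := h1 a t ha ha1 ht
    set r := √(1 - a ^ 2 + t ^ 2) with hr
    have e : P (n + 1 + 1) a t - Q (n + 1 + 1) a t = 2 * r * (P (n + 1) a t - Q (n + 1) a t) +
        (-(1 - a ^ 2) * (P n a t - Q n a t)) +
        (2 * r * Q (n + 1) a t - (1 - a ^ 2) * Q n a t - Q (n + 2) a t) := by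
      have : P (n + 1 + 1) a t = P (n + 2) a t := rfl
      rw [this, hrec]
      have : Q (n + 1 + 1) a t = Q (n + 2) a t := rfl
      rw [this]
      ring
    rw [e]
    refine (abs_add_le _ _).trans ?_
    refine (add_le_add (abs_add_le _ _) le_rfl).trans ?_
    rw [abs_mul, abs_mul, abs_mul, abs_of_nonneg hr0, abs_of_pos (by norm_num : (0 : ℝ) < 2), abs_neg,
      abs_of_nonneg (by linarith : 0 ≤ 1 - a ^ 2)]
    have j1 : 2 * r * |P (n + 1) a t - Q (n + 1) a t| ≤ 2 * C1 * a ^ 4 := by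
      have : 2 * r * |P (n + 1) a t - Q (n + 1) a t| ≤ 2 * 1 * (C1 * a ^ 4) := by
        apply mul_le_mul _ k1 (abs_nonneg _) (by norm_num)
        linarith
      linarith
    have j0 : (1 - a ^ 2) * |P n a t - Q n a t| ≤ C0 * a ^ 4 := by
      have : (1 - a ^ 2) * |P n a t - Q n a t| ≤ 1 * (C0 * a ^ 4) := by
        apply mul_le_mul _ k0 (abs_nonneg _) (by norm_num)
        linarith [sq_nonneg a]
      linarith
    have hexp : (2 * C1 + C0 +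
      (2 * (1 + ((n + 1 : ℕ) : ℝ) + ((n + 1 : ℕ) : ℝ) ^ 2) + 4 * ((n : ℝ) + 1) ^ 2)) * a ^ 4 =
      2 * C1 * a ^ 4 + C0 * a ^ 4 +
      (2 * (1 + ((n + 1 : ℕ) : ℝ) + ((n + 1 : ℕ) : ℝ) ^ 2) + 4 * ((n : ℝ) + 1) ^ 2) * a ^ 4 := by ring
    rw [hexp]
    exact add_le_add (add_le_add j1 j0) hq

/-- powers of an approximately known number -/
theorem powExp (b : ℝ) (hb : 0 ≤ b) (C : ℝ) (hC : 0 ≤ C) (k : ℕ) : ∃ D : ℝ, 0 ≤ D ∧
    ∀ a τ X : ℝ, 0 ≤ a → a ≤ 1 / 100 → |τ| ≤ a → |X - (1 - b * τ ^ 2)| ≤ C * a ^ 4 →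
      |X ^ k - (1 - (k : ℝ) * b * τ ^ 2)| ≤ D * a ^ 4 := by
  induction k with
  | zero =>
    refine ⟨0, le_rfl, fun a τ X _ _ _ _ => ?_⟩
    simp
  | succ k ih =>
    obtain ⟨D, hD, h⟩ := ih
    refine ⟨D * (1 + b + C) + (1 + k * b) * C + k * b ^ 2, by positivity, fun a τ X ha ha1 hτ hX => ?_⟩
    have hk := h a τ X ha ha1 hτ hX
    have ht2 : τ ^ 2 ≤ a ^ 2 := sq_le_sq' (by linarith [abs_le.1 hτ]) (abs_le.1 hτ).2
    have ht0 : 0 ≤ τ ^ 2 := sq_nonneg τ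
    have ha2 : a ^ 2 ≤ 1 := by nlinarith
    have ha0 : 0 ≤ a ^ 2 := sq_nonneg a
    have ha4 : a ^ 4 ≤ 1 := by nlinarith
    have ha40 : 0 ≤ a ^ 4 := by positivity
    have hτ4 : τ ^ 4 ≤ a ^ 4 := by
      have e1 : τ ^ 4 = (τ ^ 2) ^ 2 := by ring
      have e2 : a ^ 4 = (a ^ 2) ^ 2 := by ring
      rw [e1, e2]
      exact pow_le_pow_left₀ ht0 ht2 2
    have hτ40 : 0 ≤ τ ^ 4 := by positivity
    have hk0 : (0 : ℝ) ≤ k := Nat.cast_nonneg k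
    have hbτ : b * τ ^ 2 ≤ b := by nlinarith
    have hbτ0 : 0 ≤ b * τ ^ 2 := by positivity
    have hCa : C * a ^ 4 ≤ C := by nlinarith
    have hXb : |X| ≤ 1 + b + C := by
      have h1 := abs_le.1 hX
      rw [abs_le]
      constructor <;> nlinarith [h1.1, h1.2]
    have e : X ^ (k + 1) - (1 - ((k + 1 : ℕ) : ℝ) * b * τ ^ 2) =
        (X ^ k - (1 - (k : ℝ) * b * τ ^ 2)) * X +
        (1 - (k : ℝ) * b * τ ^ 2) * (X - (1 - b * τ ^ 2)) + (k : ℝ) * b ^ 2 * τ ^ 4 := by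
      push_cast
      ring
    rw [e]
    refine (abs_add_le _ _).trans ?_
    refine (add_le_add (abs_add_le _ _) le_rfl).trans ?_
    rw [abs_mul, abs_mul, abs_of_nonneg (by positivity : 0 ≤ (k : ℝ) * b ^ 2 * τ ^ 4)]
    have j1 : |X ^ k - (1 - (k : ℝ) * b * τ ^ 2)| * |X| ≤ D * a ^ 4 * (1 + b + C) :=
      mul_le_mul hk hXb (abs_nonneg _) (by positivity)
    have j2' : |1 - (k : ℝ) * b * τ ^ 2| ≤ 1 + k * b := by
      have h3 : 0 ≤ (k : ℝ) * (b * τ ^ 2) := by positivity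
      have h4 : (k : ℝ) * (b * τ ^ 2) ≤ k * b := mul_le_mul_of_nonneg_left hbτ hk0
      rw [abs_le]
      constructor <;> nlinarith
    have j2 : |1 - (k : ℝ) * b * τ ^ 2| * |X - (1 - b * τ ^ 2)| ≤ (1 + k * b) * (C * a ^ 4) :=
      mul_le_mul j2' hX (abs_nonneg _) (by positivity)
    have j3 : (k : ℝ) * b ^ 2 * τ ^ 4 ≤ k * b ^ 2 * a ^ 4 :=
      mul_le_mul_of_nonneg_left hτ4 (by positivity)
    nlinarith

omit [FiniteDimensional ℝ E] [MeasurableSpace E] [BorelSpace E] in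
theorem cont_t (y : E) : ContinuousOn (fun x : E => ⟪y, x⟫ / ‖x‖) {x : E | x ≠ 0} := by
  apply ContinuousOn.div
  · exact (continuous_const.inner continuous_id).continuousOn
  · exact continuous_norm.continuousOn
  · intro x hx
    exact norm_ne_zero_iff.2 hx

omit [FiniteDimensional ℝ E] [MeasurableSpace E] [BorelSpace E] in
theorem cont_cB (y : E) : ContinuousOn (cB y) {x : E | x ≠ 0} := by
  have h := cont_t y
  have h2 : ContinuousOn (fun x : E => √(1 - ‖y‖ ^ 2 + (⟪y, x⟫ / ‖x‖) ^ 2)) {x : E | x ≠ 0} :=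
    (continuousOn_const.add (h.pow 2)).sqrt
  exact h.neg.add h2

omit [FiniteDimensional ℝ E] [MeasurableSpace E] [BorelSpace E] in
theorem abs_inner_le {y u : E} (hu : ‖u‖ = 1) : |⟪y, u⟫| ≤ ‖y‖ := by
  have := abs_real_inner_le_norm y u
  rwa [hu, mul_one] at this

theorem RR_t {m : ℕ} [NeZero m] (hm : 2 ≤ m) (hE : finrank ℝ E = m + 1) (y : E) {u : E}
    (hu : ‖u‖ = 1) :
    RR m (fun v => (⟪y, v⟫ / ‖v‖) ^ 2) u = (m : ℝ)⁻¹ * (‖y‖ ^ 2 - ⟪y, u⟫ ^ 2) := by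
  have hu0 : u ≠ 0 := by
    rintro rfl
    simp at hu
  by_cases hy : y = 0
  · subst hy
    have e : (fun v : E => (⟪(0 : E), v⟫ / ‖v‖) ^ 2) = fun _ : E => (0 : ℝ) := by
      funext v
      simp
    rw [e, RR_const hm hE 0 hu0]
    simp
  · have hy0 : 0 < ‖y‖ := norm_pos_iff.2 hy
    set e : E := ‖y‖⁻¹ • y with he
    have he1 : ‖e‖ = 1 := by
      rw [he, norm_smul, norm_inv, norm_norm, inv_mul_cancel₀ hy0.ne']
    have hye : y = ‖y‖ • e := by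
      rw [he, smul_smul, mul_inv_cancel₀ hy0.ne', one_smul]
    have hmass := massS_pos (show 1 ≤ m by omega)
    have hz := sphInt_zonal hm hE e u he1 hu (fun s => ‖y‖ ^ 2 * s ^ 2) (by fun_prop)
    have h1 : StarIB.sphInt (fun v => (⟪y, v⟫ / ‖v‖) ^ 2) u =
        StarIB.sphInt (fun v => ‖y‖ ^ 2 * ⟪v, e⟫ ^ 2) u := by
      apply StarIB.sphInt_congr
      intro x hx
      have : ⟪y, x⟫ = ‖y‖ * ⟪x, e⟫ := by
        conv_lhs => rw [hye]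
        rw [real_inner_smul_left, real_inner_comm]
      show (⟪y, x⟫ / ‖x‖) ^ 2 = ‖y‖ ^ 2 * ⟪x, e⟫ ^ 2
      rw [hx, div_one, this]
      ring
    have ht : ⟪u, e⟫ ^ 2 ≤ 1 := by
      have := abs_real_inner_le_norm u e
      rw [hu, he1, mul_one] at this
      have h2 := abs_le.1 this
      nlinarith
    have h2 : Rad (nuS m) (fun s => ‖y‖ ^ 2 * s ^ 2) ⟪u, e⟫ =
        ‖y‖ ^ 2 * ((1 - ⟪u, e⟫ ^ 2) * (m : ℝ)⁻¹) := by
      unfold Rad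
      have h3 := (nuS_slaw hm).sq
      have h4 : ∀ s : ℝ, ‖y‖ ^ 2 * (√(1 - ⟪u, e⟫ ^ 2) * s) ^ 2 =
          (‖y‖ ^ 2 * (1 - ⟪u, e⟫ ^ 2)) * s ^ 2 := by
        intro s
        rw [mul_pow, Real.sq_sqrt (by linarith)]
        ring
      simp only [h4]
      rw [integral_const_mul, h3]
      ring
    have h5 : ⟪y, u⟫ = ‖y‖ * ⟪u, e⟫ := by
      conv_lhs => rw [hye]
      rw [real_inner_smul_left, real_inner_comm]
    rw [RR, h1, hz, h2, inv_mul_cancel_left₀ hmass.ne', h5]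
    ring

end VExpAux

open VExpAux

omit [FiniteDimensional ℝ E] [MeasurableSpace E] [BorelSpace E] in
theorem one_near {η : ℝ} (hη : 0 < η) : Near η (fun _ : E => (1 : ℝ)) := by
  refine ⟨fun _ _ _ _ => rfl, fun u _ => ?_, fun u v _ _ => ?_⟩
  · rw [sub_self, abs_zero]
    exact hη.le
  · rw [sub_self, abs_zero]
    positivity

omit [FiniteDimensional ℝ E] [MeasurableSpace E] [BorelSpace E] in
theorem cB_shifted {η : ℝ} (hη : 0 < η) (hη1 : η ≤ 1 / 100) {y : E} (hy : ‖y‖ ≤ η) :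
    Shifted η y (fun _ : E => (1 : ℝ)) (cB y) := by
  have hy0 := norm_nonneg y
  refine ⟨fun x hx s hs => ?_, cont_cB y, fun u hu => ?_, fun u hu => ?_⟩
  · have e : ⟪y, s • x⟫ / ‖s • x‖ = ⟪y, x⟫ / ‖x‖ := by
      have hx' : ‖x‖ ≠ 0 := norm_ne_zero_iff.2 hx
      rw [real_inner_smul_right, norm_smul, Real.norm_of_nonneg hs.le]
      field_simp
    unfold cB
    rw [e]
  · have ht := abs_inner_le (y := y) hu
    have ht2 : ⟪y, u⟫ ^ 2 ≤ ‖y‖ ^ 2 := sq_le_sq' (by linarith [abs_le.1 ht]) (abs_le.1 ht).2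
    have hs := sqrt_exp hy0 (hy.trans hη1) ht
    have h0 := sq_nonneg ⟪y, u⟫
    have hy2 : ‖y‖ ^ 2 ≤ η / 100 := by nlinarith
    have hy4 : ‖y‖ ^ 4 ≤ η / 100 := by
      have : ‖y‖ ^ 4 = ‖y‖ ^ 2 * ‖y‖ ^ 2 := by ring
      rw [this]
      nlinarith [sq_nonneg ‖y‖]
    unfold cB
    rw [hu, div_one]
    have h1 := abs_le.1 ht
    have h2 := abs_le.1 hs
    rw [abs_le]
    constructor <;> linarith [h1.1, h1.2, h2.1, h2.2]
  · have ht := abs_inner_le (y := y) hu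
    have ht2 : ⟪y, u⟫ ^ 2 ≤ ‖y‖ ^ 2 := sq_le_sq' (by linarith [abs_le.1 ht]) (abs_le.1 ht).2
    have h0 := sq_nonneg ⟪y, u⟫
    have hy2 : ‖y‖ ^ 2 ≤ 1 := by nlinarith
    have hnn : 0 ≤ 1 - ‖y‖ ^ 2 + ⟪y, u⟫ ^ 2 := by linarith
    have hr : √(1 - ‖y‖ ^ 2 + ⟪y, u⟫ ^ 2) ^ 2 = 1 - ‖y‖ ^ 2 + ⟪y, u⟫ ^ 2 := Real.sq_sqrt hnn
    show ‖y + cB y u • u‖ = 1
    have hc : cB y u = -⟪y, u⟫ + √(1 - ‖y‖ ^ 2 + ⟪y, u⟫ ^ 2) := by
      unfold cB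
      rw [hu, div_one]
    have h1 : ‖y + cB y u • u‖ ^ 2 = 1 := by
      rw [norm_add_sq_real, real_inner_smul_right, norm_smul, hu, mul_one, Real.norm_eq_abs, sq_abs,
        hc]
      have : ‖y‖ ^ 2 + 2 * ((-⟪y, u⟫ + √(1 - ‖y‖ ^ 2 + ⟪y, u⟫ ^ 2)) * ⟪y, u⟫) +
          (-⟪y, u⟫ + √(1 - ‖y‖ ^ 2 + ⟪y, u⟫ ^ 2)) ^ 2 =
          ‖y‖ ^ 2 - ⟪y, u⟫ ^ 2 + √(1 - ‖y‖ ^ 2 + ⟪y, u⟫ ^ 2) ^ 2 := by ring
      rw [this, hr]
      ring
    have h2 := norm_nonneg (y + cB y u • u)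
    nlinarith

theorem DT_ball {m : ℕ} [NeZero m] (hm : 2 ≤ m) (hE : finrank ℝ E = m + 1) :
    ∃ C : ℝ, 0 ≤ C ∧ ∀ y : E, ‖y‖ ≤ 1 / 100 → ∀ u : E, ‖u‖ = 1 →
      |DT m (m : ℝ) (cB y) u - (1 - (m : ℝ) / 2 * (‖y‖ ^ 2 - ⟪y, u⟫ ^ 2))| ≤ C * ‖y‖ ^ 4 := by
  obtain ⟨C, hC, hCP⟩ := (evenPow m).1
  obtain ⟨D, hD, hDP⟩ := powExp ((m : ℝ) / 2) (by positivity) C hC m
  refine ⟨D, hD, fun y hy u hu => ?_⟩
  have hm0 : (m : ℝ) ≠ 0 := by exact_mod_cast (by omega : m ≠ 0)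
  have hy0 := norm_nonneg y
  have hne : ∀ v : E, ‖v‖ = 1 → v ≠ 0 := by
    intro v hv h0
    rw [h0, norm_zero] at hv
    exact zero_ne_one hv
  -- first transform
  have hgc : ContinuousOn (fun w : E => (cB y w) ^ m) {x : E | x ≠ 0} := (cont_cB y).pow m
  have htc : ContinuousOn (fun w : E => (⟪y, w⟫ / ‖w‖) ^ 2) {x : E | x ≠ 0} := (cont_t y).pow 2
  have hev : ContinuousOn (fun w : E => ((cB y w) ^ m + (cB y (-w)) ^ m) / 2) {x : E | x ≠ 0} := by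
    have h1 : ContinuousOn (fun w : E => (cB y (-w)) ^ m) {x : E | x ≠ 0} := by
      refine hgc.comp continuous_neg.continuousOn ?_
      intro x hx
      exact neg_ne_zero.2 hx
    exact (hgc.add h1).div_const 2
  have first : ∀ v : E, ‖v‖ = 1 →
      |RR m (fun w : E => (cB y w) ^ m) v - (1 - (m : ℝ) / 2 * ⟪y, v⟫ ^ 2)| ≤ C * ‖y‖ ^ 4 := by
    intro v hv
    have hv0 := hne v hv
    rw [RR_even hgc v]
    have h1 := RR_add (m := m) hev htc 1 (-((m : ℝ) ^ 2 / 2)) v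
    rw [RR_t hm hE y hv] at h1
    have h2 : |RR m (fun x : E => 1 * (((cB y x) ^ m + (cB y (-x)) ^ m) / 2) +
        -((m : ℝ) ^ 2 / 2) * (⟪y, x⟫ / ‖x‖) ^ 2) v - (1 - (m : ℝ) / 2 * ‖y‖ ^ 2)| ≤ C * ‖y‖ ^ 4 := by
      apply RR_abs hm hE _ _ hv0
      · exact (continuousOn_const.mul hev).add (continuousOn_const.mul htc)
      · intro x hx
        have h3 := hCP ‖y‖ ⟪y, x⟫ hy0 hy (abs_inner_le hx)
        have e : 1 * (((cB y x) ^ m + (cB y (-x)) ^ m) / 2) +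
            -((m : ℝ) ^ 2 / 2) * (⟪y, x⟫ / ‖x‖) ^ 2 - (1 - (m : ℝ) / 2 * ‖y‖ ^ 2) =
            P m ‖y‖ ⟪y, x⟫ - Q m ‖y‖ ⟪y, x⟫ := by
          unfold cB P Q
          rw [norm_neg, hx, div_one, div_one, inner_neg_right, neg_neg, neg_sq]
          ring
        rw [e]
        exact h3
    rw [h1] at h2
    have e2 : RR m (fun x : E => ((cB y x) ^ m + (cB y (-x)) ^ m) / 2) v -
        (1 - (m : ℝ) / 2 * ⟪y, v⟫ ^ 2) =
        1 * RR m (fun x : E => ((cB y x) ^ m + (cB y (-x)) ^ m) / 2) v +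
        -((m : ℝ) ^ 2 / 2) * ((m : ℝ)⁻¹ * (‖y‖ ^ 2 - ⟪y, v⟫ ^ 2)) - (1 - (m : ℝ) / 2 * ‖y‖ ^ 2) := by
      field_simp
      ring
    rw [e2]
    exact h2
  -- power
  have second : ∀ v : E, ‖v‖ = 1 →
      |(RR m (fun w : E => (cB y w) ^ m) v) ^ m - (1 - (m : ℝ) * ((m : ℝ) / 2) * ⟪y, v⟫ ^ 2)| ≤
        D * ‖y‖ ^ 4 := fun v hv => hDP ‖y‖ ⟪y, v⟫ _ hy0 hy (abs_inner_le hv) (first v hv)
  have hFc : ContinuousOn (fun v : E => (RR m (fun w : E => (cB y w) ^ m) v) ^ m) {x : E | x ≠ 0} :=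
    (continuousOn_const.mul (StarIB.continuousOn_sphInt hgc)).pow m
  have hDT : DT m (m : ℝ) (cB y) u = RR m (fun v : E => (RR m (fun w : E => (cB y w) ^ m) v) ^ m) u := by
    unfold DT
    simp only [Real.rpow_natCast]
  rw [hDT]
  have hu0 := hne u hu
  have h1 := RR_add (m := m) hFc htc 1 ((m : ℝ) ^ 2 / 2) u
  rw [RR_t hm hE y hu] at h1
  have h2 : |RR m (fun x : E => 1 * (RR m (fun w : E => (cB y w) ^ m) x) ^ m +
      ((m : ℝ) ^ 2 / 2) * (⟪y, x⟫ / ‖x‖) ^ 2) u - 1| ≤ D * ‖y‖ ^ 4 := by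
    apply RR_abs hm hE _ _ hu0
    · exact (continuousOn_const.mul hFc).add (continuousOn_const.mul htc)
    · intro x hx
      have h3 := second x hx
      have e : 1 * (RR m (fun w : E => (cB y w) ^ m) x) ^ m +
          ((m : ℝ) ^ 2 / 2) * (⟪y, x⟫ / ‖x‖) ^ 2 - 1 =
          (RR m (fun w : E => (cB y w) ^ m) x) ^ m - (1 - (m : ℝ) * ((m : ℝ) / 2) * ⟪y, x⟫ ^ 2) := by
        rw [hx, div_one]
        ring
      rw [e]
      exact h3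
  rw [h1] at h2
  have e2 : RR m (fun v : E => (RR m (fun w : E => (cB y w) ^ m) v) ^ m) u -
      (1 - (m : ℝ) / 2 * (‖y‖ ^ 2 - ⟪y, u⟫ ^ 2)) =
      1 * RR m (fun v : E => (RR m (fun w : E => (cB y w) ^ m) v) ^ m) u +
      ((m : ℝ) ^ 2 / 2) * ((m : ℝ)⁻¹ * (‖y‖ ^ 2 - ⟪y, u⟫ ^ 2)) - 1 := by
    field_simp
    ring
  rw [e2]
  exact h2

end StarTr
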