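import Pool.Agent.StarTr.VDef
import Pool.Agent.StarTr.VBody

set_option autoImplicit false

/-!
# StarTr, module VIso: isotropic position of a star body close to the unit ball

`b (p, q) = ∫_S (radial M u)^(m+3) ⟪u, p⟫ ⟪u, q⟫`, a symmetric bilinear form, `|b (p, p) - c₁ ‖p‖²| ≤ C η c₁ ‖p‖²`, `c₁ = ∫_S ⟪u, e⟫² > 0` (the same for all
unit vectors `e`, rotation invariance `SI_map`).  Let `e_j` be an orthonormal basis of eigenvectors of the symmetric operator of `b`, with eigenvalues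
`λ_j ∈ [c₁ (1 - C η), c₁ (1 + C η)]` (`LinearMap.IsSymmetric.eigenvectorBasis`), and `A e_j = √(c₁/λ_j) e_j`, a symmetric operator, `A† = A`, so that
`b (A p, A p) = c₁ ‖p‖²` and `‖A z - z‖ ≤ C' η ‖z‖`.  By `SI_lin` for the function `f u = (radial (A '' M) u)^(m+3) ⟪u, p⟫²`, homogeneous of degree `-(m+1)`
(`radial_hom`, continuity of `radial` off `0` from continuity on the sphere and homogeneity), and `radial_lin`:
`∫_S (radial (A '' M) u)^(m+3) ⟪u, p⟫² = |det A| ∫_S (radial M v)^(m+3) ⟪A v, p⟫² = |det A| b (A p, A p) = |det A| c₁ ‖p‖²`.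
-/

open MeasureTheory Set Metric Module
open scoped ENNReal RealInnerProductSpace

namespace StarTr

open StarIB

variable {E : Type*} [NormedAddCommGroup E] [InnerProductSpace ℝ E] [FiniteDimensional ℝ E]
  [MeasurableSpace E] [BorelSpace E]

namespace VIsoAux

omit [MeasurableSpace E] [BorelSpace E] in
theorem radial_contOn {L : Set E} (hL : IsStarBody L) :
    ContinuousOn (radial L) {x : E | x ≠ 0} := by
  have h1 : ContinuousOn (fun x : E => ‖x‖⁻¹ * hom0 (radial L) x) {x : E | x ≠ 0} := by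
    refine ContinuousOn.mul ?_ (hom0_cont hL.cont)
    exact ContinuousOn.inv₀ continuous_norm.continuousOn fun x hx => norm_ne_zero_iff.2 hx
  refine h1.congr fun x hx => ?_
  have hx' : (0 : ℝ) < ‖x‖ := norm_pos_iff.2 hx
  have h2 := radial_hom L (‖x‖⁻¹ • x) hx'
  rw [smul_smul, mul_inv_cancel₀ hx'.ne', one_smul] at h2
  rw [h2]
  rfl

theorem SI_add {f g : E → ℝ} (hf : ContinuousOn f {x : E | x ≠ 0})
    (hg : ContinuousOn g {x : E | x ≠ 0}) : SI (fun x => f x + g x) = SI f + SI g := by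
  unfold SI
  rw [integral_add (SI_integrable hf) (SI_integrable hg)]

theorem SI_cmul (a : ℝ) (f : E → ℝ) : SI (fun u => a * f u) = a * SI f := by
  unfold SI
  rw [integral_const_mul]

theorem SI_one_pos' {m : ℕ} (hE : finrank ℝ E = m + 1) : 0 < SI (fun _ : E => (1 : ℝ)) := by
  have hnt : Nontrivial E := Module.nontrivial_of_finrank_pos (R := ℝ) (by omega)
  unfold SI
  rw [integral_const, smul_eq_mul, mul_one, Measure.real]
  refine ENNReal.toReal_pos ?_ (measure_ne_top _ _)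
  rw [Ne, Measure.measure_univ_eq_zero]
  exact Measure.toSphere_ne_zero _

theorem SI_sq_unit {e e' : E} (he : ‖e‖ = 1) (he' : ‖e'‖ = 1) :
    SI (fun u : E => ⟪u, e⟫ ^ 2) = SI (fun u : E => ⟪u, e'⟫ ^ 2) := by
  have h1 : ((ℝ ∙ (e - e'))ᗮ).reflection e = e' :=
    Submodule.reflection_sub (by rw [he, he'])
  have h2 := SI_map ((ℝ ∙ (e - e'))ᗮ).reflection (fun u : E => ⟪u, e'⟫ ^ 2)
  rw [← h2]
  unfold SI
  refine integral_congr_ae (Filter.Eventually.of_forall fun v => ?_)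
  show ⟪(v : E), e⟫ ^ 2 = ⟪((ℝ ∙ (e - e'))ᗮ).reflection (v : E), e'⟫ ^ 2
  have h3 := LinearIsometryEquiv.inner_map_map ((ℝ ∙ (e - e'))ᗮ).reflection (v : E) e
  rw [h1] at h3
  rw [h3]

/-- the second moment of the sphere -/
theorem exists_c1 {m : ℕ} (hE : finrank ℝ E = m + 1) : ∃ c : ℝ, 0 < c ∧
    ∀ p : E, SI (fun u : E => ⟪u, p⟫ ^ 2) = c * ‖p‖ ^ 2 := by
  have hnt : Nontrivial E := Module.nontrivial_of_finrank_pos (R := ℝ) (by omega)
  obtain ⟨e, he⟩ := exists_norm_eq E (zero_le_one' ℝ)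
  have hall : ∀ p : E, SI (fun u : E => ⟪u, p⟫ ^ 2) = SI (fun u : E => ⟪u, e⟫ ^ 2) * ‖p‖ ^ 2 := by
    intro p
    by_cases hp : p = 0
    · subst hp
      simp only [inner_zero_right, norm_zero, ne_eq, OfNat.ofNat_ne_zero, not_false_eq_true,
        zero_pow, mul_zero]
      unfold SI
      exact integral_zero _ _
    · have h1 : ∀ u : E, ⟪u, p⟫ ^ 2 = ‖p‖ ^ 2 * ⟪u, ‖p‖⁻¹ • p⟫ ^ 2 := by
        intro u
        rw [inner_smul_right]
        have := norm_ne_zero_iff.2 hp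
        field_simp
      simp_rw [h1]
      rw [SI_cmul, SI_sq_unit (norm_unit' hp) he]
      ring
  refine ⟨SI (fun u : E => ⟪u, e⟫ ^ 2), ?_, hall⟩
  have b := stdOrthonormalBasis ℝ E
  have h2 : ∑ j, SI (fun u : E => ⟪u, b j⟫ ^ 2) = SI (fun _ : E => (1 : ℝ)) := by
    unfold SI
    rw [← integral_finsetSum]
    · refine integral_congr_ae (Filter.Eventually.of_forall fun v => ?_)
      show ∑ j, ⟪(v : E), b j⟫ ^ 2 = 1
      have h3 := b.sum_sq_norm_inner_right (v : E)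
      have h4 := mem_sphere_zero_iff_norm.1 v.2
      rw [h4] at h3
      rw [one_pow] at h3
      refine Eq.trans (Finset.sum_congr rfl fun j _ => ?_) h3
      rw [Real.norm_eq_abs, sq_abs, real_inner_comm]
    · intro j _
      exact SI_integrable ((continuous_id.inner continuous_const).pow 2).continuousOn
  have h5 : ∀ j, SI (fun u : E => ⟪u, b j⟫ ^ 2) = SI (fun u : E => ⟪u, e⟫ ^ 2) := by
    intro j
    rw [hall (b j), b.norm_eq_one]
    ring
  simp_rw [h5] at h2
  rw [Finset.sum_const, nsmul_eq_mul] at h2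
  have h6 := SI_one_pos' (E := E) hE
  rw [← h2] at h6
  exact pos_of_mul_pos_right h6 (Nat.cast_nonneg _)

/-- the bilinear form of inertia -/
noncomputable def bf (M : Set E) (m : ℕ) (p q : E) : ℝ :=
  SI (fun u => (radial M u) ^ (m + 3) * (⟪u, p⟫ * ⟪u, q⟫))

theorem bf_cont {M : Set E} (hM : IsStarBody M) (m : ℕ) (p q : E) :
    ContinuousOn (fun u : E => (radial M u) ^ (m + 3) * (⟪u, p⟫ * ⟪u, q⟫)) {x : E | x ≠ 0} :=
  ((radial_contOn hM).pow _).mul
    ((continuous_id.inner continuous_const).mul (continuous_id.inner continuous_const)).continuousOn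

theorem bf_add_left {M : Set E} (hM : IsStarBody M) (m : ℕ) (p p' q : E) :
    bf M m (p + p') q = bf M m p q + bf M m p' q := by
  unfold bf
  rw [← SI_add (bf_cont hM m p q) (bf_cont hM m p' q)]
  congr 1
  funext u
  rw [inner_add_right]
  ring

theorem bf_smul_left (M : Set E) (m : ℕ) (a : ℝ) (p q : E) :
    bf M m (a • p) q = a * bf M m p q := by
  unfold bf
  rw [← SI_cmul]
  congr 1
  funext u
  rw [inner_smul_right]
  ring

theorem bf_comm (M : Set E) (m : ℕ) (p q : E) : bf M m p q = bf M m q p := by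
  unfold bf
  congr 1
  funext u
  ring

/-- linear form `q ↦ b (p, q)` -/
noncomputable def bfL {M : Set E} (hM : IsStarBody M) (m : ℕ) (p : E) : E →ₗ[ℝ] ℝ where
  toFun q := bf M m p q
  map_add' := by
    intro x y
    rw [bf_comm, bf_add_left hM, bf_comm M m x, bf_comm M m y]
  map_smul' := by
    intro a x
    rw [bf_comm, bf_smul_left, bf_comm M m x]
    rfl

/-- the operator of inertia -/
noncomputable def bT {M : Set E} (hM : IsStarBody M) (m : ℕ) : E →ₗ[ℝ] E where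
  toFun p := ∑ j, bf M m p (stdOrthonormalBasis ℝ E j) • stdOrthonormalBasis ℝ E j
  map_add' := by
    intro x y
    rw [← Finset.sum_add_distrib]
    refine Finset.sum_congr rfl fun j _ => ?_
    rw [bf_add_left hM, add_smul]
  map_smul' := by
    intro a x
    rw [Finset.smul_sum]
    refine Finset.sum_congr rfl fun j _ => ?_
    rw [bf_smul_left, mul_smul]
    rfl

theorem bT_inner {M : Set E} (hM : IsStarBody M) (m : ℕ) (p q : E) :
    ⟪bT hM m p, q⟫ = bf M m p q := by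
  have h1 : bfL hM m p (∑ j, ⟪stdOrthonormalBasis ℝ E j, q⟫ • stdOrthonormalBasis ℝ E j) =
      bf M m p q := by
    rw [(stdOrthonormalBasis ℝ E).sum_repr' q]
    rfl
  rw [← h1, map_sum]
  show ⟪∑ j, bf M m p (stdOrthonormalBasis ℝ E j) • stdOrthonormalBasis ℝ E j, q⟫ = _
  rw [sum_inner]
  refine Finset.sum_congr rfl fun j _ => ?_
  rw [real_inner_smul_left, map_smul, smul_eq_mul, mul_comm]
  rfl

theorem bT_symm {M : Set E} (hM : IsStarBody M) (m : ℕ) : (bT hM m).IsSymmetric := by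
  intro p q
  rw [bT_inner, real_inner_comm, bT_inner, bf_comm]

/-- elementary estimate -/
theorem pow_est (k : ℕ) {r η : ℝ} (hη : 0 ≤ η) (h1 : η ≤ 1) (h : |r - 1| ≤ η) :
    |r ^ k - 1| ≤ 2 ^ k * η := by
  obtain ⟨h2, h3⟩ := abs_le.1 h
  have hr0 : 0 ≤ r := by linarith
  have hr2 : r ≤ 2 := by linarith
  induction k with
  | zero => simp [hη]
  | succ k ih =>
    have h4 : r ^ (k + 1) - 1 = r * (r ^ k - 1) + (r - 1) := by ring
    have h5 : |r ^ k - 1| ≤ (2 ^ k - 1) * η + 0 := by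
      clear ih h4
      induction k with
      | zero => simp
      | succ k ih =>
        have h4 : r ^ (k + 1) - 1 = r * (r ^ k - 1) + (r - 1) := by ring
        rw [h4]
        refine (abs_add_le _ _).trans ?_
        rw [abs_mul, abs_of_nonneg hr0]
        have h6 : r * |r ^ k - 1| ≤ 2 * ((2 ^ k - 1) * η + 0) := by
          have h7 := abs_nonneg (r ^ k - 1)
          nlinarith
        have h8 : (2 : ℝ) ^ (k + 1) = 2 * 2 ^ k := by ring
        rw [h8]
        linarith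
    rw [h4]
    refine (abs_add_le _ _).trans ?_
    rw [abs_mul, abs_of_nonneg hr0]
    have h6 : r * |r ^ k - 1| ≤ 2 * ((2 ^ k - 1) * η + 0) := by
      have h7 := abs_nonneg (r ^ k - 1)
      nlinarith
    have h8 : (2 : ℝ) ^ (k + 1) = 2 * 2 ^ k := by ring
    rw [h8]
    linarith

theorem bf_est {m : ℕ} {M : Set E} (hM : IsStarBody M) {η : ℝ}
    (hη : 0 ≤ η) (h1 : η ≤ 1) (h : ∀ u : E, ‖u‖ = 1 → |radial M u - 1| ≤ η) (p : E) :
    |bf M m p p - SI (fun u : E => ⟪u, p⟫ ^ 2)| ≤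
      2 ^ (m + 3) * η * SI (fun u : E => ⟪u, p⟫ ^ 2) := by
  have hc : ContinuousOn (fun u : E => ⟪u, p⟫ ^ 2) {x : E | x ≠ 0} :=
    ((continuous_id.inner continuous_const).pow 2).continuousOn
  unfold bf SI
  rw [← integral_sub (SI_integrable (bf_cont hM m p p)) (SI_integrable hc),
    ← integral_const_mul]
  refine (abs_integral_le_integral_abs).trans ?_
  refine integral_mono ((SI_integrable (bf_cont hM m p p)).sub (SI_integrable hc)).abs
    ((SI_integrable hc).const_mul _) fun v => ?_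
  show |radial M (v : E) ^ (m + 3) * (⟪(v : E), p⟫ * ⟪(v : E), p⟫) - ⟪(v : E), p⟫ ^ 2| ≤
    2 ^ (m + 3) * η * ⟪(v : E), p⟫ ^ 2
  have h2 : radial M (v : E) ^ (m + 3) * (⟪(v : E), p⟫ * ⟪(v : E), p⟫) - ⟪(v : E), p⟫ ^ 2 =
      (radial M (v : E) ^ (m + 3) - 1) * ⟪(v : E), p⟫ ^ 2 := by ring
  rw [h2, abs_mul, abs_of_nonneg (sq_nonneg ⟪(v : E), p⟫)]
  exact mul_le_mul_of_nonneg_right
    (pow_est _ hη h1 (h _ (mem_sphere_zero_iff_norm.1 v.2))) (sq_nonneg _)

/-- estimate for the factors -/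
theorem w_est {c l κ : ℝ} (hc : 0 < c) (hκ : 0 ≤ κ) (hκ1 : κ ≤ 1 / 4)
    (h : |l - c| ≤ κ * c) : 0 < l ∧ |√(c / l) - 1| ≤ 4 * κ := by
  obtain ⟨h1, h2⟩ := abs_le.1 h
  have h3 : κ * c ≤ 1 / 4 * c := mul_le_mul_of_nonneg_right hκ1 hc.le
  have hl : 0 < l := by linarith
  refine ⟨hl, ?_⟩
  have hl2 : 3 / 4 * c ≤ l := by linarith
  set w := √(c / l) with hw
  have hw0 : 0 ≤ w := Real.sqrt_nonneg _
  have hw2 : w ^ 2 = c / l := Real.sq_sqrt (div_nonneg hc.le hl.le)
  have h4 : |w ^ 2 - 1| ≤ 4 * κ := by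
    rw [hw2]
    have h5 : c / l - 1 = (c - l) / l := by field_simp
    rw [h5, abs_div, abs_of_pos hl, div_le_iff₀ hl, abs_sub_comm]
    refine h.trans ?_
    nlinarith
  have h6 : |w - 1| ≤ |w ^ 2 - 1| := by
    have h7 : w ^ 2 - 1 = (w - 1) * (w + 1) := by ring
    rw [h7, abs_mul, abs_of_nonneg (show (0:ℝ) ≤ w + 1 by linarith)]
    have := abs_nonneg (w - 1)
    nlinarith
  exact h6.trans h4

/-- diagonal maps -/
theorem exists_diag {n : ℕ} (B : OrthonormalBasis (Fin n) ℝ E) (w : Fin n → ℝ)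
    (hw : ∀ j, w j ≠ 0) : ∃ A : E ≃L[ℝ] E, ∀ x : E, ∀ j, ⟪A x, B j⟫ = w j * ⟪x, B j⟫ := by
  let A0 : E ≃ₗ[ℝ] E := B.toBasis.equiv (B.toBasis.isUnitSMul (w := w)
    (fun j => (isUnit_iff_ne_zero.2 (hw j)))) (Equiv.refl _)
  have hA0 : ∀ j, A0 (B j) = w j • B j := by
    intro j
    have h1 := Basis.equiv_apply (b := B.toBasis) (b' := B.toBasis.isUnitSMul (w := w)
      (fun j => (isUnit_iff_ne_zero.2 (hw j)))) j (Equiv.refl _)
    rw [Basis.isUnitSMul_apply] at h1
    simpa using h1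
  refine ⟨A0.toContinuousLinearEquiv, fun x j => ?_⟩
  show ⟪A0 x, B j⟫ = w j * ⟪x, B j⟫
  conv_lhs => rw [← B.sum_repr' x]
  rw [map_sum, sum_inner]
  rw [Finset.sum_eq_single j]
  · rw [map_smul, hA0, real_inner_smul_left, real_inner_smul_left, real_inner_self_eq_norm_sq,
      B.norm_eq_one, real_inner_comm]
    ring
  · intro k _ hk
    rw [map_smul, hA0, real_inner_smul_left, real_inner_smul_left, B.inner_eq_zero hk]
    ring
  · intro h; exact absurd (Finset.mem_univ j) h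

end VIsoAux

open VIsoAux in
theorem exists_isoPos {m : ℕ} (hm : 2 ≤ m) (hE : finrank ℝ E = m + 1) :
    ∃ C : ℝ, 1 ≤ C ∧ ∀ η : ℝ, 0 < η → C * η ≤ 1 → ∀ M : Set E, IsStarBody M →
      (∀ u : E, ‖u‖ = 1 → |radial M u - 1| ≤ η) →
      ∃ A : E ≃L[ℝ] E, (∀ z : E, ‖A z - z‖ ≤ C * η * ‖z‖) ∧ IsoPos m (A '' M) := by
  obtain ⟨c, hc, hcS⟩ := exists_c1 (E := E) hE
  have hK : (1 : ℝ) ≤ 2 ^ (m + 3) := one_le_pow₀ (by norm_num)
  refine ⟨4 * 2 ^ (m + 3), by linarith, ?_⟩
  intro η hη hη1 M hM hMη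
  have hη2 : η ≤ 1 := by nlinarith
  have hκ : 2 ^ (m + 3) * η ≤ 1 / 4 := by linarith
  set κ : ℝ := 2 ^ (m + 3) * η with hκdef
  have hκ0 : 0 ≤ κ := by positivity
  set T := bT hM m with hT
  have hTs : T.IsSymmetric := bT_symm hM m
  set B := hTs.eigenvectorBasis hE with hB
  set l := hTs.eigenvalues hE with hl
  have hTB : ∀ j, T (B j) = l j • B j := by
    intro j
    exact hTs.apply_eigenvectorBasis hE j
  have hest : ∀ j, |l j - c| ≤ κ * c := by
    intro j
    have h1 := bf_est (m := m) hM hη.le hη2 hMη (B j)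
    rw [hcS, ← bT_inner hM m (B j) (B j), ← hT, hTB, real_inner_smul_left,
      real_inner_self_eq_norm_sq, B.norm_eq_one, one_pow, mul_one, mul_one] at h1
    exact h1
  have hw := fun j => w_est hc hκ0 hκ (hest j)
  obtain ⟨A, hA⟩ := exists_diag B (fun j => √(c / l j)) (fun j =>
    (Real.sqrt_pos.2 (div_pos hc (hw j).1)).ne')
  refine ⟨A, ?_, ?_⟩
  · intro z
    have h1 : ‖A z - z‖ ^ 2 ≤ (4 * κ * ‖z‖) ^ 2 := by
      rw [← B.sum_sq_norm_inner_right (A z - z), mul_pow, ← B.sum_sq_norm_inner_right z,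
        Finset.mul_sum]
      refine Finset.sum_le_sum fun j _ => ?_
      rw [real_inner_comm, inner_sub_left, hA z j, Real.norm_eq_abs, Real.norm_eq_abs, sq_abs,
        sq_abs, real_inner_comm]
      have h2 : √(c / l j) * ⟪B j, z⟫ - ⟪B j, z⟫ = (√(c / l j) - 1) * ⟪B j, z⟫ := by ring
      rw [h2, mul_pow]
      refine mul_le_mul_of_nonneg_right ?_ (sq_nonneg _)
      rw [sq_le_sq, abs_of_nonneg (show (0:ℝ) ≤ 4 * κ by positivity)]
      exact (hw j).2
    have h3 : ‖A z - z‖ ≤ 4 * κ * ‖z‖ :=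
      (pow_le_pow_iff_left₀ (norm_nonneg _) (by positivity) two_ne_zero).1 h1
    refine h3.trans (le_of_eq ?_)
    rw [hκdef]
    ring
  · refine ⟨|LinearMap.det (A : E →ₗ[ℝ] E)| * c, fun p => ?_⟩
    have hstar := isStarBody_lin A hM
    have hcont : ContinuousOn (fun u : E => (radial (A '' M) u) ^ (m + 3) * ⟪u, p⟫ ^ 2)
        {x : E | x ≠ 0} :=
      ((radial_contOn hstar).pow _).mul
        ((continuous_id.inner continuous_const).pow 2).continuousOn
    have hhom : ∀ x : E, x ≠ 0 → ∀ s : ℝ, 0 < s →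
        (radial (A '' M) (s • x)) ^ (m + 3) * ⟪s • x, p⟫ ^ 2 =
        (s ^ (m + 1))⁻¹ * ((radial (A '' M) x) ^ (m + 3) * ⟪x, p⟫ ^ 2) := by
      intro x _ s hs
      rw [radial_hom _ _ hs, real_inner_smul_left]
      have hs' := hs.ne'
      rw [mul_pow, mul_pow, inv_pow, pow_add s m 3, pow_add s m 1]
      field_simp
    rw [SI_lin hE A hcont hhom]
    have h1 : SI (fun v : E => (radial (A '' M) (A v)) ^ (m + 3) * ⟪A v, p⟫ ^ 2) =
        bf M m (A p) (A p) := by
      unfold bf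
      congr 1
      funext u
      rw [radial_lin]
      have h2 : ⟪A u, p⟫ = ⟪u, A p⟫ := by
        rw [← B.sum_inner_mul_inner (A u) p, ← B.sum_inner_mul_inner u (A p)]
        refine Finset.sum_congr rfl fun j _ => ?_
        rw [hA u j, real_inner_comm (A p) (B j), hA p j, real_inner_comm p (B j)]
        ring
      rw [h2]
      ring
    rw [h1, ← bT_inner hM m, ← hT, ← B.sum_inner_mul_inner (T (A p)) (A p)]
    have h3 : ∑ j, ⟪T (A p), B j⟫ * ⟪B j, A p⟫ = ∑ j, c * ⟪p, B j⟫ ^ 2 := by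
      refine Finset.sum_congr rfl fun j _ => ?_
      rw [hTs (A p) (B j), hTB, inner_smul_right, real_inner_comm (A p) (B j), hA p j]
      have h4 : √(c / l j) * √(c / l j) = c / l j :=
        Real.mul_self_sqrt (div_nonneg hc.le (hw j).1.le)
      have h5 := (hw j).1.ne'
      calc l j * (√(c / l j) * ⟪p, B j⟫) * (√(c / l j) * ⟪p, B j⟫)
          = l j * (√(c / l j) * √(c / l j)) * ⟪p, B j⟫ ^ 2 := by ring
        _ = c * ⟪p, B j⟫ ^ 2 := by
          rw [h4]
          field_simp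
    rw [h3, ← Finset.mul_sum]
    have h6 := B.sum_sq_norm_inner_right p
    have h7 : ∑ j, ⟪p, B j⟫ ^ 2 = ‖p‖ ^ 2 := by
      refine Eq.trans (Finset.sum_congr rfl fun j _ => ?_) h6
      rw [Real.norm_eq_abs, sq_abs, real_inner_comm]
    rw [h7]
    ring

theorem IsoPos.smul {m : ℕ} {M : Set E} (h : IsoPos m M) {s : ℝ} (hs : 0 < s) :
    IsoPos m ((fun w => s • w) '' M) := by
  obtain ⟨c, hc⟩ := h
  refine ⟨s ^ (m + 3) * c, fun p => ?_⟩
  have h1 : ∀ u : E, radial ((fun w => s • w) '' M) u = s * radial M u := fun u =>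
    radial_smul_set hs u
  have h2 : SI (fun u : E => (radial ((fun w => s • w) '' M) u) ^ (m + 3) * ⟪u, p⟫ ^ 2) =
      s ^ (m + 3) * SI (fun u : E => (radial M u) ^ (m + 3) * ⟪u, p⟫ ^ 2) := by
    rw [← VIsoAux.SI_cmul]
    congr 1
    funext u
    rw [h1, mul_pow]
    ring
  rw [h2, hc p]
  ring

end StarTr
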