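import Pool.Agent.StarTr.VBody

set_option autoImplicit false

/-!
# StarTr, module VNear: linear images close to the identity of star bodies close to the unit ball

For unit vectors `u, v` let `x = A⁻¹ u`, `y = A⁻¹ v`: `radial (A '' L) u = radial L x = ‖x‖⁻¹ radial L (x/‖x‖)` (`radial_lin`, `radial_hom`).
`|‖x‖⁻¹ - 1| ≤ ε` as `‖u - x‖ ≤ ε ‖x‖`; `‖x - y‖ ≤ (1-ε)⁻¹ ‖u - v‖`;
`‖x‖² - ‖y‖² = ⟪x - y, x + y⟫ - ⟪A (x - y), A (x + y)⟫` (as `‖A x‖ = ‖A y‖ = 1`), hence `|‖x‖ - ‖y‖| ≤ (2 ε + ε²) ‖x - y‖`;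
`‖x/‖x‖ - y/‖y‖‖ ≤ 2 ‖x - y‖ / ‖x‖`.
-/

open MeasureTheory Set Metric Module
open scoped ENNReal RealInnerProductSpace

namespace StarTr

open StarIB

variable {E : Type*} [NormedAddCommGroup E] [InnerProductSpace ℝ E] [FiniteDimensional ℝ E]

theorem near_lin {ε : ℝ} (hε : 0 < ε) (hε1 : ε ≤ 1 / 4) (A : E ≃L[ℝ] E)
    (hA : ∀ z : E, ‖A z - z‖ ≤ ε * ‖z‖) {L : Set E}
    (hn : ∀ u : E, ‖u‖ = 1 → |radial L u - 1| ≤ ε)
    (hl : ∀ u v : E, ‖u‖ = 1 → ‖v‖ = 1 → |radial L u - radial L v| ≤ ε * ‖u - v‖) :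
    (∀ u : E, ‖u‖ = 1 → |radial (A '' L) u - 1| ≤ 20 * ε) ∧
    (∀ u v : E, ‖u‖ = 1 → ‖v‖ = 1 →
      |radial (A '' L) u - radial (A '' L) v| ≤ 20 * ε * ‖u - v‖) := by
  -- the radial function of the image
  have hrad : ∀ u : E, ‖u‖ = 1 → 0 < ‖A.symm u‖ ∧ ‖(‖A.symm u‖⁻¹ • A.symm u)‖ = 1 ∧
      radial (A '' L) u = ‖A.symm u‖⁻¹ * radial L (‖A.symm u‖⁻¹ • A.symm u) := by
    intro u hu
    have hx0 : A.symm u ≠ 0 := by
      intro h0
      have : u = 0 := by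
        have := congrArg A h0
        simpa using this
      rw [this, norm_zero] at hu
      norm_num at hu
    have hx : 0 < ‖A.symm u‖ := norm_pos_iff.2 hx0
    refine ⟨hx, ?_, ?_⟩
    · rw [norm_smul, norm_inv, norm_norm, inv_mul_cancel₀ hx.ne']
    · have h1 : radial (A '' L) u = radial L (A.symm u) := by
        have := radial_lin A L (A.symm u)
        rwa [ContinuousLinearEquiv.apply_symm_apply] at this
      rw [h1]
      have h2 : A.symm u = ‖A.symm u‖ • (‖A.symm u‖⁻¹ • A.symm u) := by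
        rw [smul_smul, mul_inv_cancel₀ hx.ne', one_smul]
      conv_lhs => rw [h2]
      exact radial_hom L _ hx
  have hinv : ∀ u : E, ‖u‖ = 1 → |‖A.symm u‖⁻¹ - 1| ≤ ε := by
    intro u hu
    obtain ⟨hx, -, -⟩ := hrad u hu
    have h1 := hA (A.symm u)
    rw [ContinuousLinearEquiv.apply_symm_apply] at h1
    have h2 : |‖u‖ - ‖A.symm u‖| ≤ ‖u - A.symm u‖ := abs_norm_sub_norm_le _ _
    rw [hu] at h2
    have h3 : |1 - ‖A.symm u‖| ≤ ε * ‖A.symm u‖ := h2.trans h1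
    have h4 : ‖A.symm u‖⁻¹ - 1 = ‖A.symm u‖⁻¹ * (1 - ‖A.symm u‖) := by
      field_simp
    rw [h4, abs_mul, abs_of_pos (inv_pos.2 hx)]
    calc ‖A.symm u‖⁻¹ * |1 - ‖A.symm u‖| ≤ ‖A.symm u‖⁻¹ * (ε * ‖A.symm u‖) :=
          mul_le_mul_of_nonneg_left h3 (inv_pos.2 hx).le
      _ = ε := by field_simp
  refine ⟨?_, ?_⟩
  · intro u hu
    obtain ⟨hx, hx1, hr⟩ := hrad u hu
    have h1 := hinv u hu
    have h2 := hn _ hx1
    rw [hr]
    set r := radial L (‖A.symm u‖⁻¹ • A.symm u)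
    set s := ‖A.symm u‖⁻¹
    have h3 : s * r - 1 = (s - 1) * r + (r - 1) := by ring
    rw [h3]
    have h4 : |r| ≤ 1 + ε := by
      have := abs_le.1 h2
      rw [abs_le]
      constructor <;> linarith [this.1, this.2]
    calc |(s - 1) * r + (r - 1)| ≤ |(s - 1) * r| + |r - 1| := abs_add_le _ _
      _ = |s - 1| * |r| + |r - 1| := by rw [abs_mul]
      _ ≤ ε * (1 + ε) + ε := by
          refine add_le_add (mul_le_mul h1 h4 (abs_nonneg _) hε.le) h2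
      _ ≤ 20 * ε := by nlinarith
  · intro u v hu hv
    obtain ⟨hx, hx1, hru⟩ := hrad u hu
    obtain ⟨hy, hy1, hrv⟩ := hrad v hv
    have hsu := hinv u hu
    have hsv := hinv v hv
    have hnu := hn _ hx1
    have hll := hl _ _ hx1 hy1
    set x := A.symm u with hxdef
    set y := A.symm v with hydef
    have hAx : A x = u := by rw [hxdef]; exact A.apply_symm_apply u
    have hAy : A y = v := by rw [hydef]; exact A.apply_symm_apply v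
    -- the difference
    have hxy : ‖x - y‖ ≤ 4 / 3 * ‖u - v‖ := by
      have h1 := hA (x - y)
      have h2 : A (x - y) = u - v := by rw [map_sub, hAx, hAy]
      rw [h2] at h1
      have h3 : ‖x - y‖ ≤ ‖u - v‖ + ‖(u - v) - (x - y)‖ := by
        have := norm_sub_le (u - v) ((u - v) - (x - y))
        simpa using this
      have h4 : 0 ≤ ‖x - y‖ := norm_nonneg _
      nlinarith
    have hsq : |‖x‖ - ‖y‖| ≤ (2 * ε + ε ^ 2) * ‖x - y‖ := by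
      have h0 : ‖x‖ ^ 2 - ‖y‖ ^ 2 = ⟪x - y, x + y⟫ := by
        rw [inner_sub_left, inner_add_right, inner_add_right, real_inner_comm x y,
          real_inner_self_eq_norm_sq, real_inner_self_eq_norm_sq]
        ring
      have h1 : ⟪A (x - y), A (x + y)⟫ = 0 := by
        rw [map_sub, map_add, hAx, hAy, inner_sub_left, inner_add_right, inner_add_right,
          real_inner_comm u v, real_inner_self_eq_norm_sq, real_inner_self_eq_norm_sq, hu, hv]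
        ring
      have h2 : ⟪x - y, x + y⟫ = -(⟪A (x - y) - (x - y), x + y⟫ + ⟪x - y, A (x + y) - (x + y)⟫ +
          ⟪A (x - y) - (x - y), A (x + y) - (x + y)⟫) := by
        have h3 : ⟪A (x - y), A (x + y)⟫ = ⟪x - y, x + y⟫ + (⟪A (x - y) - (x - y), x + y⟫ +
            ⟪x - y, A (x + y) - (x + y)⟫ +
            ⟪A (x - y) - (x - y), A (x + y) - (x + y)⟫) := by
          simp only [inner_sub_left, inner_sub_right]
          ring
        linarith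
      have hb1 := hA (x - y)
      have hb2 := hA (x + y)
      have hc1 : |⟪A (x - y) - (x - y), x + y⟫| ≤ ε * ‖x - y‖ * ‖x + y‖ :=
        (abs_real_inner_le_norm _ _).trans
          (mul_le_mul_of_nonneg_right hb1 (norm_nonneg _))
      have hc2 : |⟪x - y, A (x + y) - (x + y)⟫| ≤ ‖x - y‖ * (ε * ‖x + y‖) :=
        (abs_real_inner_le_norm _ _).trans
          (mul_le_mul_of_nonneg_left hb2 (norm_nonneg _))
      have hc3 : |⟪A (x - y) - (x - y), A (x + y) - (x + y)⟫| ≤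
          (ε * ‖x - y‖) * (ε * ‖x + y‖) :=
        (abs_real_inner_le_norm _ _).trans
          (mul_le_mul hb1 hb2 (norm_nonneg _) (by positivity))
      have h5 : |‖x‖ ^ 2 - ‖y‖ ^ 2| ≤ (2 * ε + ε ^ 2) * ‖x - y‖ * ‖x + y‖ := by
        rw [h0, h2, abs_neg]
        refine (abs_add_le _ _).trans ?_
        have := abs_add_le ⟪A (x - y) - (x - y), x + y⟫ ⟪x - y, A (x + y) - (x + y)⟫
        nlinarith
      have h6 : ‖x + y‖ ≤ ‖x‖ + ‖y‖ := norm_add_le _ _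
      have h7 : |‖x‖ ^ 2 - ‖y‖ ^ 2| = |‖x‖ - ‖y‖| * (‖x‖ + ‖y‖) := by
        have : ‖x‖ ^ 2 - ‖y‖ ^ 2 = (‖x‖ - ‖y‖) * (‖x‖ + ‖y‖) := by ring
        rw [this, abs_mul, abs_of_pos (add_pos hx hy)]
      rw [h7] at h5
      have h8 : |‖x‖ - ‖y‖| * (‖x‖ + ‖y‖) ≤ (2 * ε + ε ^ 2) * ‖x - y‖ * (‖x‖ + ‖y‖) :=
        h5.trans (mul_le_mul_of_nonneg_left h6 (by positivity))
      exact le_of_mul_le_mul_right h8 (add_pos hx hy)
    -- the norms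
    have hs1 : ‖x‖⁻¹ ≤ 1 + ε := by linarith [(abs_le.1 hsu).2]
    have hs2 : ‖y‖⁻¹ ≤ 1 + ε := by linarith [(abs_le.1 hsv).2]
    have hsx0 : 0 < ‖x‖⁻¹ := inv_pos.2 hx
    have hsy0 : 0 < ‖y‖⁻¹ := inv_pos.2 hy
    have hr1 : |radial L (‖x‖⁻¹ • x)| ≤ 1 + ε := by
      have := abs_le.1 hnu
      rw [abs_le]
      constructor <;> linarith [this.1, this.2]
    have hd1 : |‖x‖⁻¹ - ‖y‖⁻¹| ≤ (1 + ε) ^ 2 * ((2 * ε + ε ^ 2) * ‖x - y‖) := by
      have h1 : ‖x‖⁻¹ - ‖y‖⁻¹ = (‖x‖⁻¹ * ‖y‖⁻¹) * (‖y‖ - ‖x‖) := by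
        field_simp
      rw [h1, abs_mul, abs_of_pos (mul_pos hsx0 hsy0), abs_sub_comm ‖y‖ ‖x‖]
      have h2 : ‖x‖⁻¹ * ‖y‖⁻¹ ≤ (1 + ε) ^ 2 := by
        rw [pow_two]
        exact mul_le_mul hs1 hs2 hsy0.le (by linarith)
      exact mul_le_mul h2 hsq (abs_nonneg _) (by positivity)
    have hd2 : ‖‖x‖⁻¹ • x - ‖y‖⁻¹ • y‖ ≤ 2 * (1 + ε) * ‖x - y‖ := by
      have h1 : ‖x‖⁻¹ • x - ‖y‖⁻¹ • y = ‖x‖⁻¹ • (x - y) + (‖x‖⁻¹ - ‖y‖⁻¹) • y := by
        rw [smul_sub, sub_smul]; abel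
      rw [h1]
      refine (norm_add_le _ _).trans ?_
      rw [norm_smul, norm_smul, Real.norm_eq_abs, Real.norm_eq_abs, abs_of_pos hsx0]
      have h2 : |‖x‖⁻¹ - ‖y‖⁻¹| * ‖y‖ ≤ ‖x‖⁻¹ * ‖x - y‖ := by
        have h3 : ‖x‖⁻¹ - ‖y‖⁻¹ = (‖x‖⁻¹ * ‖y‖⁻¹) * (‖y‖ - ‖x‖) := by
          field_simp
        rw [h3, abs_mul, abs_of_pos (mul_pos hsx0 hsy0), abs_sub_comm ‖y‖ ‖x‖]
        have h4 : ‖x‖⁻¹ * ‖y‖⁻¹ * |‖x‖ - ‖y‖| * ‖y‖ = ‖x‖⁻¹ * |‖x‖ - ‖y‖| := by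
          field_simp
        rw [h4]
        exact mul_le_mul_of_nonneg_left (abs_norm_sub_norm_le _ _) hsx0.le
      have h5 : ‖x‖⁻¹ * ‖x - y‖ ≤ (1 + ε) * ‖x - y‖ :=
        mul_le_mul_of_nonneg_right hs1 (norm_nonneg _)
      linarith
    rw [hru, hrv]
    set rx := radial L (‖x‖⁻¹ • x)
    set ry := radial L (‖y‖⁻¹ • y)
    have h1 : ‖x‖⁻¹ * rx - ‖y‖⁻¹ * ry = (‖x‖⁻¹ - ‖y‖⁻¹) * rx + ‖y‖⁻¹ * (rx - ry) := by ring
    rw [h1]
    have hxy0 : 0 ≤ ‖x - y‖ := norm_nonneg _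
    have h2 : |(‖x‖⁻¹ - ‖y‖⁻¹) * rx| ≤ (1 + ε) ^ 2 * ((2 * ε + ε ^ 2) * ‖x - y‖) * (1 + ε) := by
      rw [abs_mul]
      exact mul_le_mul hd1 hr1 (abs_nonneg _) (by positivity)
    have h3 : |‖y‖⁻¹ * (rx - ry)| ≤ (1 + ε) * (ε * (2 * (1 + ε) * ‖x - y‖)) := by
      rw [abs_mul, abs_of_pos hsy0]
      refine mul_le_mul hs2 (hll.trans ?_) (abs_nonneg _) (by linarith)
      exact mul_le_mul_of_nonneg_left hd2 hε.le
    have h4 : (1 + ε) ^ 2 * ((2 * ε + ε ^ 2) * ‖x - y‖) * (1 + ε) ≤ 5 * ε * ‖x - y‖ := by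
      have : (1 + ε) ^ 2 * ((2 * ε + ε ^ 2) * ‖x - y‖) * (1 + ε) =
          ((1 + ε) ^ 3 * (2 + ε)) * (ε * ‖x - y‖) := by ring
      rw [this]
      have h5 : (1 + ε) ^ 3 * (2 + ε) ≤ 5 := by
        have h6 : (1 + ε) ^ 3 ≤ (5 / 4) ^ 3 := by
          apply pow_le_pow_left₀ (by linarith) (by linarith)
        calc (1 + ε) ^ 3 * (2 + ε) ≤ (5 / 4) ^ 3 * (9 / 4) :=
              mul_le_mul h6 (by linarith) (by linarith) (by norm_num)
          _ ≤ 5 := by norm_num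
      calc (1 + ε) ^ 3 * (2 + ε) * (ε * ‖x - y‖) ≤ 5 * (ε * ‖x - y‖) :=
            mul_le_mul_of_nonneg_right h5 (by positivity)
        _ = 5 * ε * ‖x - y‖ := by ring
    have h5 : (1 + ε) * (ε * (2 * (1 + ε) * ‖x - y‖)) ≤ 4 * ε * ‖x - y‖ := by
      have : (1 + ε) * (ε * (2 * (1 + ε) * ‖x - y‖)) =
          (2 * (1 + ε) ^ 2) * (ε * ‖x - y‖) := by ring
      rw [this]
      have h6 : 2 * (1 + ε) ^ 2 ≤ 4 := by nlinarith
      calc 2 * (1 + ε) ^ 2 * (ε * ‖x - y‖) ≤ 4 * (ε * ‖x - y‖) :=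
            mul_le_mul_of_nonneg_right h6 (by positivity)
        _ = 4 * ε * ‖x - y‖ := by ring
    have h6 := abs_add_le ((‖x‖⁻¹ - ‖y‖⁻¹) * rx) (‖y‖⁻¹ * (rx - ry))
    have h7 : 9 * ε * ‖x - y‖ ≤ 9 * ε * (4 / 3 * ‖u - v‖) :=
      mul_le_mul_of_nonneg_left hxy (by positivity)
    have h8 : 0 ≤ ε * ‖u - v‖ := by positivity
    linarith

end StarTr
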