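import Pool.Agent.StarTr.VCore
import Pool.Agent.StarTr.VIso
import Pool.Agent.StarTr.VNear
import Pool.Agent.StarTr.ULipC
import Pool.Agent.StarTr.UConv

set_option autoImplicit false

/-!
# StarTr, module VFinal: the classical case `i = n - 1 = m` close to the ball
-/

open MeasureTheory Set Metric Module
open scoped ENNReal RealInnerProductSpace Pointwise

namespace StarTr

open StarIB

variable {E : Type*} [NormedAddCommGroup E] [InnerProductSpace ℝ E] [FiniteDimensional ℝ E]
  [MeasurableSpace E] [BorelSpace E]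

theorem isStarBody_interBody (hE : 2 ≤ finrank ℝ E) {i : ℝ} (hi : 0 ≤ i) {L : Set E}
    (hL : IsStarBody L) : IsStarBody (interBody i L) := by
  have hnt : Nontrivial E := Module.nontrivial_of_finrank_pos (R := ℝ) (by omega)
  have hrad0 : ∀ x : E, ‖x‖ = 1 → 0 ≤ radial L x := fun x hx =>
    (radial_set hL (ne_zero_of_unit' hx)).1
  have hcont : ContinuousOn (fun w => (hom0 (radial L) w) ^ i) {x : E | x ≠ 0} :=
    (hom0_cont hL.cont).rpow_const (fun _ _ => Or.inr hi)
  have h1 : ContinuousOn (interRadial i L) (sphere (0 : E) 1) := by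
    have h2 : ContinuousOn (fun u => ((finrank ℝ E : ℝ) - 1)⁻¹ *
        sphInt (fun w => (hom0 (radial L) w) ^ i) u) {x : E | x ≠ 0} :=
      continuousOn_const.mul (continuousOn_sphInt hcont)
    refine (h2.mono ?_).congr ?_
    · intro u hu
      rw [mem_sphere_zero_iff_norm] at hu
      exact ne_zero_of_unit' hu
    · intro u _
      unfold interRadial
      congr 1
      apply sphInt_congr
      intro w hw
      rw [hom0_unit _ hw]
  exact isStarBody_starSet (fun u _ => interRadial_nonneg i hrad0 (by omega) u) h1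

omit [FiniteDimensional ℝ E] [MeasurableSpace E] [BorelSpace E] in
theorem smul_image_aux (X : Set E) (a r s : ℝ) (hs : s ≠ 0) (z : E) :
    a • ((fun w => z + r • w) '' X) = (fun w => a • z + (a * r * s⁻¹) • w) '' (s • X) := by
  rw [← image_smul, image_image, ← image_smul, image_image]
  apply image_congr
  intro w _
  rw [smul_add, smul_smul, smul_smul]
  congr 2
  field_simp

theorem ell_of_near {m : ℕ} [NeZero m] (hm : 2 ≤ m) (hE : finrank ℝ E = m + 1) :
    ∃ ε : ℝ, 0 < ε ∧ ε ≤ 1 / 4 ∧ ∀ L : Set E, IsStarBody L →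
      (∀ u : E, ‖u‖ = 1 → |radial L u - 1| ≤ ε) →
      (∀ u v : E, ‖u‖ = 1 → ‖v‖ = 1 → |radial L u - radial L v| ≤ ε * ‖u - v‖) →
      (∃ (z : E) (r : ℝ), 0 < r ∧
        interBody (m : ℝ) (interBody (m : ℝ) L) = (fun w => z + r • w) '' L) →
      ∃ A : E ≃L[ℝ] E, L = A '' closedBall (0 : E) 1 := by
  have hnt : Nontrivial E := Module.nontrivial_of_finrank_pos (R := ℝ) (by omega)
  have hi : (1 : ℝ) ≤ m := by exact_mod_cast (by omega : 1 ≤ m)
  obtain ⟨C₁, hC₁, hred⟩ := near_reduce (E := E) hm hE hi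
  obtain ⟨C₂, hC₂, hiso⟩ := exists_isoPos (E := E) hm hE
  obtain ⟨η₀, hη₀, hη₁, hcore⟩ := iso_core (E := E) hm hE
  -- the size of the neighbourhood
  obtain ⟨ε, hε⟩ : ∃ ε : ℝ, ε = η₀ / (C₁ * (20 * (C₂ * 2))) := ⟨_, rfl⟩
  have hden : 0 < C₁ * (20 * (C₂ * 2)) := by positivity
  have hε0 : 0 < ε := by rw [hε]; positivity
  have hη : C₁ * (20 * (C₂ * (2 * ε))) = η₀ := by
    rw [hε]; field_simp
  have hε3 : 20 * (C₂ * (2 * ε)) ≤ η₀ := by
    have : 0 ≤ 20 * (C₂ * (2 * ε)) := by positivity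
    nlinarith
  have hε2 : C₂ * (2 * ε) ≤ 1 / 100 := by linarith
  have hε1 : ε ≤ C₂ * (2 * ε) := by nlinarith
  refine ⟨ε, hε0, by linarith, ?_⟩
  intro L hL hn hl ⟨z, r, hr, heq⟩
  -- the centred translate
  set y₁ : E := r⁻¹ • z with hy₁
  set M : Set E := (fun w => y₁ + w) '' L with hM
  have hIM : interBody (m : ℝ) (interBody (m : ℝ) L) = r • M := by
    rw [heq, hM, ← image_smul, image_image]
    apply image_congr
    intro w _
    rw [hy₁, smul_add, smul_smul, mul_inv_cancel₀ hr.ne', one_smul]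
  have hMI : M = r⁻¹ • interBody (m : ℝ) (interBody (m : ℝ) L) := by
    rw [hIM, smul_smul, inv_mul_cancel₀ hr.ne', one_smul]
  have hMs : IsStarBody M := by
    rw [hMI]
    exact isStarBody_smul (inv_pos.2 hr) (isStarBody_interBody (by omega) (by linarith)
      (isStarBody_interBody (by omega) (by linarith) hL))
  have hMsym : ∀ w ∈ M, -w ∈ M := by
    intro w hw
    rw [hMI] at hw ⊢
    rw [mem_smul_set_iff_inv_smul_mem₀ (inv_pos.2 hr).ne'] at hw ⊢
    rw [smul_neg]
    exact interBody_neg' _ _ hw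
  obtain ⟨hy₁n, hMn⟩ := shift_small hε0 (by linarith) hL hn hMsym
  obtain ⟨A, hA, hpos⟩ := hiso (2 * ε) (by positivity) (by linarith) M hMs hMn
  -- the linear image of `L`
  set L₂ : Set E := A '' L with hL₂
  have hL₂s : IsStarBody L₂ := isStarBody_lin A hL
  have hC₂ε : 0 < C₂ * (2 * ε) := by positivity
  obtain ⟨hn₂, hl₂⟩ := near_lin hC₂ε (by linarith) A hA
    (fun u hu => (hn u hu).trans hε1)
    (fun u v hu hv => (hl u v hu hv).trans (mul_le_mul_of_nonneg_right hε1 (norm_nonneg _)))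
  obtain ⟨c, hc, hlin⟩ := interBody_lin2 hm hE A hL
  have heq₂ : interBody (m : ℝ) (interBody (m : ℝ) L₂) =
      (fun w => c • A z + (c * r) • w) '' L₂ := by
    rw [hlin, heq, hL₂, ← image_smul, image_image, image_image, image_image]
    apply image_congr
    intro w _
    rw [map_add, map_smul, smul_add, smul_smul]
  obtain ⟨s, y, hs, hy, hsol⟩ := hred (20 * (C₂ * (2 * ε))) (by positivity)
    (by rw [hη]; linarith) L₂ hL₂s hn₂ hl₂ (c • A z) (c * r) (by positivity) heq₂
  rw [hη] at hy hsol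
  obtain ⟨k, c', hk, hkH, hsh, hmean, hform, hmem⟩ := hsol.data hm hE hi hη₀ (by linarith) hy
  -- the translate `y + s • L₂` is a dilate of `A '' M`
  have hsL₂ : IsStarBody (s • L₂) := hsol.star
  have hr₂ : ∀ u : E, ‖u‖ = 1 → 0 ≤ radial L₂ u := fun u hu =>
    (radial_set hL₂s (ne_zero_of_unit' hu)).1
  have hr₃ : ∀ u : E, ‖u‖ = 1 → 0 ≤ radial (interBody (m : ℝ) L₂) u := by
    intro u hu
    rw [radial_interBody _ hr₂ (by omega) hu]
    exact interRadial_nonneg _ hr₂ (by omega) u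
  have hpair : ∃ p ∈ s • L₂, ∃ q ∈ s • L₂, p ≠ q := by
    obtain ⟨u, hu⟩ := exists_norm_eq E (zero_le_one)
    have h1 := (abs_le.1 (hn₂ u hu)).1
    have h2 : 0 < radial L₂ u := by linarith
    refine ⟨0, hsL₂.zero_mem, s • (radial L₂ u • u), ?_, ?_⟩
    · apply smul_mem_smul_set
      exact (mem_iff_radial hL₂s (ne_zero_of_unit' hu) h2.le).2 le_rfl
    · intro h0
      have h3 := h0.symm
      rw [smul_smul] at h3
      rcases smul_eq_zero.1 h3 with h | h
      · exact (mul_pos hs h2).ne' h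
      · exact absurd h (ne_zero_of_unit' hu)
  have hyA : y = s • A y₁ := by
    obtain ⟨ρ, hρ, h1⟩ := hsol.eq
    have h2 : interBody (m : ℝ) (interBody (m : ℝ) (s • L₂)) =
        (fun w => ρ • y + ρ • w) '' (s • L₂) := by
      rw [h1]
      apply image_congr
      intro w _
      rw [smul_add]
    have h3 : interBody (m : ℝ) (interBody (m : ℝ) (s • L₂)) =
        (fun w => ((s ^ (m : ℝ)) ^ (m : ℝ) * c) • A z +
          ((s ^ (m : ℝ)) ^ (m : ℝ) * (c * r) * s⁻¹) • w) '' (s • L₂) := by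
      rw [interBody_smul hs _ hr₂, interBody_smul (by positivity) _ hr₃, heq₂,
        smul_image_aux L₂ _ _ s hs.ne', smul_smul]
    obtain ⟨h4, h5⟩ := homothety_unique hsL₂.isCompact hpair hρ (by positivity)
      (h2.symm.trans h3)
    have h6 : y = ρ⁻¹ • (ρ • y) := by rw [smul_smul, inv_mul_cancel₀ hρ.ne', one_smul]
    rw [h6, h5, h4, hy₁, map_smul, smul_smul, smul_smul]
    congr 1
    have : (0 : ℝ) < (s ^ (m : ℝ)) ^ (m : ℝ) := by positivity
    field_simp
  have hset : (fun w => y + w) '' (s • L₂) = (fun w => s • w) '' (A '' M) := by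
    rw [hM, hL₂, hyA, ← image_smul, image_image, image_image, image_image, image_image]
    apply image_congr
    intro w _
    rw [map_add, smul_add]
  have hiso₂ : IsoPos m ((fun w => y + w) '' (s • L₂)) := by
    rw [hset]
    exact hpos.smul hs
  -- the radial function of the translate is `k`
  have hkr : ∀ u : E, ‖u‖ = 1 → radial ((fun w => y + w) '' (s • L₂)) u = k u := by
    intro u hu
    have hk0 : 0 ≤ k u := by
      have := (abs_le.1 (hk.near u hu)).1
      linarith
    unfold radial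
    have h1 : {t : ℝ | 0 ≤ t ∧ t • u ∈ (fun w => y + w) '' (s • L₂)} = Icc 0 (k u) := by
      ext t
      have h2 : t • u ∈ (fun w => y + w) '' (s • L₂) ↔ (t • u = 0 ∨ ‖t • u‖ ≤ k (t • u)) := by
        have h3 := hmem (t • u - y)
        rw [add_sub_cancel] at h3
        rw [← h3]
        constructor
        · rintro ⟨w, hw, he⟩
          have : w = t • u - y := by rw [← he]; simp
          rwa [← this]
        · intro h
          exact ⟨_, h, by simp⟩
      rw [mem_ofPred_eq, h2, mem_Icc]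
      constructor
      · rintro ⟨h0, h3⟩
        refine ⟨h0, ?_⟩
        rcases h3 with h3 | h3
        · rcases smul_eq_zero.1 h3 with h | h
          · rw [h]; exact hk0
          · exact absurd h (ne_zero_of_unit' hu)
        · rcases h0.eq_or_lt with h4 | h4
          · rw [← h4]; exact hk0
          · rw [hkH.1 u (ne_zero_of_unit' hu) t h4.ne', norm_smul, hu, mul_one,
              Real.norm_eq_abs, abs_of_pos h4] at h3
            exact h3
      · rintro ⟨h0, h3⟩
        refine ⟨h0, ?_⟩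
        rcases h0.eq_or_lt with h4 | h4
        · left; rw [← h4, zero_smul]
        · right
          rw [hkH.1 u (ne_zero_of_unit' hu) t h4.ne', norm_smul, hu, mul_one,
            Real.norm_eq_abs, abs_of_pos h4]
          exact h3
    rw [h1, csSup_Icc hk0]
  have hcore' := hcore η₀ y hη₀ le_rfl hy k c' hk hkH hsh hmean hform (by
    obtain ⟨d, hd⟩ := hiso₂
    refine ⟨d, fun p => ?_⟩
    rw [← hd p]
    apply SIc_congr
    intro u hu
    rw [hkr u hu])
  obtain ⟨hy0, hk1⟩ := hcore'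
  have hball : s • L₂ = closedBall (0 : E) 1 := by
    ext w
    rw [hmem, hy0, zero_add, mem_closedBall_zero_iff]
    by_cases hw : w = 0
    · simp [hw]
    · have h1 : k w = 1 := by
        have h2 := hk1 _ (norm_unit' hw)
        rwa [hkH.1 w hw _ (inv_ne_zero (norm_ne_zero_iff.2 hw))] at h2
      rw [h1]
      simp [hw]
  let B : E ≃L[ℝ] E := (LinearEquiv.smulOfNeZero ℝ E s⁻¹ (inv_ne_zero hs.ne')).toContinuousLinearEquiv.trans A.symm
  have hB : ∀ w : E, B w = A.symm (s⁻¹ • w) := fun w => rfl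
  refine ⟨B, ?_⟩
  rw [← hball]
  ext w
  constructor
  · intro hw
    refine ⟨s • A w, smul_mem_smul_set ⟨w, hw, rfl⟩, ?_⟩
    rw [hB, smul_smul, inv_mul_cancel₀ hs.ne', one_smul, ContinuousLinearEquiv.symm_apply_apply]
  · rintro ⟨v, ⟨v', ⟨x, hx, rfl⟩, rfl⟩, rfl⟩
    rw [hB]
    simp only
    rw [smul_smul, inv_mul_cancel₀ hs.ne', one_smul, ContinuousLinearEquiv.symm_apply_apply]
    exact hx

/-- the classical case: `I² L` is homothetic to `L`, `L` close to the ball -/
theorem local_ell {m : ℕ} [NeZero m] (hm : 2 ≤ m) (hE : finrank ℝ E = m + 1) :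
    ∃ ε : ℝ, 0 < ε ∧ ∀ L : Set E, IsStarBody L →
      (∀ u : E, ‖u‖ = 1 → |radial L u - 1| ≤ ε) →
      (Convex ℝ L ∨
        ∀ u v : E, ‖u‖ = 1 → ‖v‖ = 1 → |radial L u - radial L v| ≤ ε * ‖u - v‖) →
      ((∃ (z : E) (r : ℝ), 0 < r ∧
        interBody (m : ℝ) (interBody (m : ℝ) L) = (fun w => z + r • w) '' L) ↔
      ∃ A : E ≃L[ℝ] E, L = A '' closedBall (0 : E) 1) := by
  obtain ⟨ε₀, hε₀, hε₁, H⟩ := ell_of_near (E := E) hm hE
  have hε₂ : (ε₀ / 8) ^ 2 ≤ ε₀ := by nlinarith
  refine ⟨(ε₀ / 8) ^ 2, by positivity, fun L hL hn hl => ⟨?_, ?_⟩⟩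
  · have hl' : ∀ u v : E, ‖u‖ = 1 → ‖v‖ = 1 → |radial L u - radial L v| ≤ ε₀ * ‖u - v‖ := by
      rcases hl with hcv | hl
      · intro u v hu hv
        have h1 := convex_lip (ε := (ε₀ / 8) ^ 2) (by positivity) (by linarith) hL hcv hn hu hv
        rw [Real.sqrt_sq (by positivity)] at h1
        refine h1.trans (le_of_eq ?_)
        ring
      · intro u v hu hv
        exact (hl u v hu hv).trans (mul_le_mul_of_nonneg_right hε₂ (norm_nonneg _))
    exact H L hL (fun u hu => (hn u hu).trans hε₂) hl'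
  · rintro ⟨A, rfl⟩
    obtain ⟨c, hc, h⟩ := ball_lin2 hm hE A
    exact ⟨0, c, hc, h⟩

end StarTr
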