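import Pool.Agent.StarTr.VDef
import Pool.Agent.StarTr.URidge

set_option autoImplicit false

/-!
# StarTr, module VRidge: iterates of the Radon transform on ridge functions, up to quadratic forms

* `lam4_lt`: `s^4 ≤ s^2` for `|s| < 1` (`SLaw.supp`), `∫ s^2 = 1/m`; equality would give `s = 0` a.e.
* Class `D A`: functions `Φ : ℝ → ℝ` with `|λ Φ x + (1-λ) Φ y - Φ (λ x + (1-λ) y)| ≤ A λ (1-λ) (x-y)^2` for `x, y, λ ∈ [0,1]`.
  - `Φ₀ x = cos (a √x)` is in `D (C a)`: power series `∑ (-1)^k a^(2k) x^k / (2k)!` (`Real.hasSum_cos`), and `x^k` is in `D (k^2)`.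
  - if `Φ ∈ D A` is continuous on `[0,1]`, then `Φ₁ x = ∫ Φ ((1-x) s^2) dν(s) ∈ D (A lam4)` (insert, `((1-x)s^2 - (1-y)s^2)^2 = (x-y)^2 s^4`).
  - `Φ ∈ D A` implies `|Φ x - (Φ 0 + (Φ 1 - Φ 0) x)| ≤ A / 4` on `[0,1]`.
* The iterates `(RR m)^[j] (ridge (a • e))` are `ph m a j ⟪u, e⟫` on the sphere (`iter_eq`, URidge), `ph m a j t = Φ_j (t^2)`.  With `T = α 1 + β e⟨e,·⟩`,
  `quad T u = α + β ⟪u, e⟫²` for unit `u`.
-/

open MeasureTheory Set Metric Module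
open scoped ENNReal RealInnerProductSpace

namespace StarTr

open StarIB

theorem lam4_nonneg (m : ℕ) [NeZero m] : 0 ≤ lam4 m := by
  unfold lam4
  exact integral_nonneg fun s => by positivity

namespace VRidgeAux

theorem int_four {m : ℕ} {ν : Measure ℝ} (hν : SLaw m ν) :
    Integrable (fun s : ℝ => s ^ 4) ν := by
  have := hν.prob
  refine (integrable_const (1 : ℝ)).mono' (by fun_prop) ?_
  filter_upwards [hν.supp] with s hs
  rw [Real.norm_eq_abs, abs_pow]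
  exact pow_le_one₀ (abs_nonneg s) hs.le

/-- the class `D A`, written for even functions of `t`, `x = t^2` -/
def DD (A : ℝ) (f : ℝ → ℝ) : Prop :=
  ∀ x y z l : ℝ, |x| ≤ 1 → |y| ≤ 1 → |z| ≤ 1 → 0 ≤ l → l ≤ 1 →
    z ^ 2 = l * x ^ 2 + (1 - l) * y ^ 2 →
    |l * f x + (1 - l) * f y - f z| ≤ A * (l * (1 - l) * (x ^ 2 - y ^ 2) ^ 2)

theorem pow_sub_le (k : ℕ) {x y : ℝ} (hx : 0 ≤ x) (hx1 : x ≤ 1) (hy : 0 ≤ y) (hy1 : y ≤ 1) :
    |x ^ k - y ^ k| ≤ k * |x - y| := by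
  induction k with
  | zero => simp
  | succ k ih =>
    have e : x ^ (k + 1) - y ^ (k + 1) = x * (x ^ k - y ^ k) + y ^ k * (x - y) := by ring
    rw [e]
    refine (abs_add_le _ _).trans ?_
    rw [abs_mul, abs_mul, abs_of_nonneg hx, abs_of_nonneg (pow_nonneg hy k)]
    have h1 : x * |x ^ k - y ^ k| ≤ 1 * |x ^ k - y ^ k| :=
      mul_le_mul_of_nonneg_right hx1 (abs_nonneg _)
    have h2 : y ^ k * |x - y| ≤ 1 * |x - y| :=
      mul_le_mul_of_nonneg_right (pow_le_one₀ hy hy1) (abs_nonneg _)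
    push_cast
    linarith

theorem pow_D (k : ℕ) {x y l : ℝ} (hx : 0 ≤ x) (hx1 : x ≤ 1) (hy : 0 ≤ y) (hy1 : y ≤ 1)
    (hl : 0 ≤ l) (hl1 : l ≤ 1) :
    |l * x ^ k + (1 - l) * y ^ k - (l * x + (1 - l) * y) ^ k| ≤
      (k : ℝ) ^ 2 * (l * (1 - l) * (x - y) ^ 2) := by
  have hc : 0 ≤ l * (1 - l) := mul_nonneg hl (by linarith)
  induction k with
  | zero => simp
  | succ k ih =>
    set z := l * x + (1 - l) * y with hz
    have hz0 : 0 ≤ z := by
      have := mul_nonneg hl hx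
      have := mul_nonneg (sub_nonneg.2 hl1) hy
      linarith
    have hz1 : z ≤ 1 := by
      have h1 := mul_le_mul_of_nonneg_left hx1 hl
      have h2 := mul_le_mul_of_nonneg_left hy1 (sub_nonneg.2 hl1)
      linarith
    have e : l * x ^ (k + 1) + (1 - l) * y ^ (k + 1) - z ^ (k + 1) =
        l * (1 - l) * ((x - y) * (x ^ k - y ^ k)) +
          z * (l * x ^ k + (1 - l) * y ^ k - z ^ k) := by
      rw [hz]
      ring
    rw [e]
    refine (abs_add_le _ _).trans ?_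
    rw [abs_mul (l * (1 - l)), abs_mul (x - y), abs_mul z, abs_of_nonneg hc, abs_of_nonneg hz0]
    have h1 := pow_sub_le k hx hx1 hy hy1
    have h2 : |x - y| * |x ^ k - y ^ k| ≤ k * (x - y) ^ 2 := by
      have := mul_le_mul_of_nonneg_left h1 (abs_nonneg (x - y))
      refine this.trans (le_of_eq ?_)
      rw [← sq_abs (x - y)]
      ring
    have h3 := mul_le_mul_of_nonneg_left h2 hc
    have h4 : z * |l * x ^ k + (1 - l) * y ^ k - z ^ k| ≤
        1 * |l * x ^ k + (1 - l) * y ^ k - z ^ k| :=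
      mul_le_mul_of_nonneg_right hz1 (abs_nonneg _)
    have h5 : 0 ≤ l * (1 - l) * (x - y) ^ 2 := mul_nonneg hc (sq_nonneg _)
    push_cast
    have h6 : ((k : ℝ) + 1) ^ 2 * (l * (1 - l) * (x - y) ^ 2) =
        l * (1 - l) * (k * (x - y) ^ 2) + (k : ℝ) ^ 2 * (l * (1 - l) * (x - y) ^ 2) +
          (k + 1) * (l * (1 - l) * (x - y) ^ 2) := by ring
    have h7 : 0 ≤ ((k : ℝ) + 1) * (l * (1 - l) * (x - y) ^ 2) := by positivity
    linarith

theorem summ (a : ℝ) : Summable (fun k : ℕ => (a ^ 2) ^ k / ((2 * k).factorial : ℝ) * (k : ℝ) ^ 2) := by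
  have h1 : Summable (fun n : ℕ => (2 * |a|) ^ n / (n.factorial : ℝ)) :=
    Real.summable_pow_div_factorial (2 * |a|)
  have h2 : Summable (fun k : ℕ => (2 * |a|) ^ (2 * k) / ((2 * k).factorial : ℝ)) := by
    have := h1.comp_injective (i := fun k : ℕ => 2 * k) (fun i j h => by
      simpa using h)
    exact this
  refine Summable.of_nonneg_of_le (fun k => by positivity) (fun k => ?_) h2
  have h3 : (k : ℝ) ≤ 2 ^ k := by
    exact_mod_cast Nat.lt_two_pow_self.le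
  have h4 : (k : ℝ) ^ 2 ≤ 4 ^ k := by
    have := pow_le_pow_left₀ (Nat.cast_nonneg k) h3 2
    refine this.trans (le_of_eq ?_)
    rw [← pow_mul, mul_comm k 2, pow_mul]
    norm_num
  have h5 : (2 * |a|) ^ (2 * k) = (a ^ 2) ^ k * 4 ^ k := by
    rw [pow_mul, mul_pow, sq_abs, ← mul_pow]
    ring
  rw [h5, div_mul_eq_mul_div]
  gcongr

theorem cos_D (a : ℝ) : DD (∑' k : ℕ, (a ^ 2) ^ k / ((2 * k).factorial : ℝ) * (k : ℝ) ^ 2)
    (fun t => Real.cos (a * t)) := by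
  intro x y z l hx hy hz hl hl1 he
  have hs : ∀ t : ℝ, HasSum (fun k : ℕ => (-1) ^ k * ((a ^ 2) ^ k / ((2 * k).factorial : ℝ)) *
      (t ^ 2) ^ k) (Real.cos (a * t)) := by
    intro t
    refine (Real.hasSum_cos (a * t)).congr_fun ?_
    intro k
    rw [mul_pow a t (2 * k), pow_mul a, pow_mul t]
    ring
  have hsum := (((hs x).mul_left l).add ((hs y).mul_left (1 - l))).sub (hs z)
  have hx2 : x ^ 2 ≤ 1 := (sq_le_one_iff_abs_le_one x).2 hx
  have hy2 : y ^ 2 ≤ 1 := (sq_le_one_iff_abs_le_one y).2 hy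
  have hb : ∀ k : ℕ, ‖l * ((-1) ^ k * ((a ^ 2) ^ k / ((2 * k).factorial : ℝ)) * (x ^ 2) ^ k) +
      (1 - l) * ((-1) ^ k * ((a ^ 2) ^ k / ((2 * k).factorial : ℝ)) * (y ^ 2) ^ k) -
      (-1) ^ k * ((a ^ 2) ^ k / ((2 * k).factorial : ℝ)) * (z ^ 2) ^ k‖ ≤
      (a ^ 2) ^ k / ((2 * k).factorial : ℝ) * (k : ℝ) ^ 2 *
        (l * (1 - l) * (x ^ 2 - y ^ 2) ^ 2) := by
    intro k
    have e : l * ((-1) ^ k * ((a ^ 2) ^ k / ((2 * k).factorial : ℝ)) * (x ^ 2) ^ k) +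
      (1 - l) * ((-1) ^ k * ((a ^ 2) ^ k / ((2 * k).factorial : ℝ)) * (y ^ 2) ^ k) -
      (-1) ^ k * ((a ^ 2) ^ k / ((2 * k).factorial : ℝ)) * (z ^ 2) ^ k =
      (-1) ^ k * (((a ^ 2) ^ k / ((2 * k).factorial : ℝ)) *
        (l * (x ^ 2) ^ k + (1 - l) * (y ^ 2) ^ k - (l * x ^ 2 + (1 - l) * y ^ 2) ^ k)) := by
      rw [he]
      ring
    rw [e, norm_mul, norm_pow, norm_neg, norm_one, one_pow, one_mul, norm_mul,
      Real.norm_eq_abs, Real.norm_eq_abs,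
      abs_of_nonneg (by positivity : (0 : ℝ) ≤ (a ^ 2) ^ k / ((2 * k).factorial : ℝ)),
      mul_assoc]
    exact mul_le_mul_of_nonneg_left
      (pow_D k (sq_nonneg x) hx2 (sq_nonneg y) hy2 hl hl1) (by positivity)
  have h1 := ((summ a).mul_right (l * (1 - l) * (x ^ 2 - y ^ 2) ^ 2)).hasSum
  have h2 := hsum.norm_le_of_bounded h1 hb
  rw [Real.norm_eq_abs, tsum_mul_right] at h2
  exact h2

theorem rad_D {m : ℕ} {ν : Measure ℝ} (hν : SLaw m ν) {f : ℝ → ℝ}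
    (hf : ContinuousOn f (Icc (-1) 1)) {A : ℝ} (hD : DD A f) :
    DD (A * ∫ s, s ^ 4 ∂ν) (Rad ν f) := by
  intro x y z l hx hy hz hl hl1 he
  have hx2 : x ^ 2 ≤ 1 := (sq_le_one_iff_abs_le_one x).2 hx
  have hy2 : y ^ 2 ≤ 1 := (sq_le_one_iff_abs_le_one y).2 hy
  have hz2 : z ^ 2 ≤ 1 := (sq_le_one_iff_abs_le_one z).2 hz
  have h1 : l * Rad ν f x + (1 - l) * Rad ν f y - Rad ν f z =
      ∫ s, (l * f (√(1 - x ^ 2) * s) + (1 - l) * f (√(1 - y ^ 2) * s) -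
        f (√(1 - z ^ 2) * s)) ∂ν := by
    have i1 := (rad_integrable hν hf hx).const_mul l
    have i2 := (rad_integrable hν hf hy).const_mul (1 - l)
    have i3 : Integrable (fun s => l * f (√(1 - x ^ 2) * s) +
        (1 - l) * f (√(1 - y ^ 2) * s)) ν := i1.add i2
    rw [integral_sub i3 (rad_integrable hν hf hz), integral_add i1 i2,
      integral_const_mul, integral_const_mul]
    rfl
  rw [h1, ← Real.norm_eq_abs]
  have h2 := norm_integral_le_of_norm_le (μ := ν)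
    (f := fun s => (l * f (√(1 - x ^ 2) * s) + (1 - l) * f (√(1 - y ^ 2) * s) -
        f (√(1 - z ^ 2) * s)))
    (g := fun s => A * (l * (1 - l) * (x ^ 2 - y ^ 2) ^ 2) * s ^ 4)
    ((int_four hν).const_mul _) (by
      filter_upwards [hν.supp] with s hs
      rw [Real.norm_eq_abs]
      refine (hD _ _ _ l (RadEstAux.abs_le_one hs) (RadEstAux.abs_le_one hs)
        (RadEstAux.abs_le_one hs) hl hl1 ?_).trans (le_of_eq ?_)
      · rw [mul_pow, mul_pow, mul_pow, Real.sq_sqrt (by linarith), Real.sq_sqrt (by linarith),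
          Real.sq_sqrt (by linarith), he]
        ring
      · rw [mul_pow, mul_pow, Real.sq_sqrt (by linarith), Real.sq_sqrt (by linarith)]
        ring)
  refine h2.trans (le_of_eq ?_)
  rw [integral_const_mul]
  ring

theorem ph_D {m : ℕ} [NeZero m] (hm : 2 ≤ m) (a : ℝ) (j : ℕ) :
    DD ((∑' k : ℕ, (a ^ 2) ^ k / ((2 * k).factorial : ℝ) * (k : ℝ) ^ 2) * (lam4 m) ^ j)
      (URidgeAux.ph m a j) := by
  induction j with
  | zero =>
    rw [pow_zero, mul_one]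
    exact cos_D a
  | succ j ih =>
    have h := rad_D (nuS_slaw hm) (URidgeAux.ph_cont hm a j) ih
    rw [pow_succ (lam4 m) j, ← mul_assoc]
    exact h

end VRidgeAux

open VRidgeAux

theorem lam4_lt {m : ℕ} [NeZero m] (hm : 2 ≤ m) : lam4 m < (m : ℝ)⁻¹ := by
  have hν := nuS_slaw hm
  have := hν.prob
  have hm0 : (0 : ℝ) < (m : ℝ)⁻¹ := by
    have : (0 : ℝ) < m := by
      have : 0 < m := by omega
      exact_mod_cast this
    positivity
  by_contra hcon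
  rw [not_lt] at hcon
  have hi2 := RadEst1Aux.int_sq hν
  have hi4 := int_four hν
  have h1 : ∫ s, (s ^ 2 - s ^ 4) ∂(nuS m) ≤ 0 := by
    rw [integral_sub hi2 hi4, hν.sq]
    unfold lam4 at hcon
    linarith
  have h2 : 0 ≤ᵐ[nuS m] fun s : ℝ => s ^ 2 - s ^ 4 := by
    filter_upwards [hν.supp] with s hs
    have h3 : s ^ 2 ≤ 1 := (sq_le_one_iff_abs_le_one s).2 hs.le
    have h4 : s ^ 2 - s ^ 4 = s ^ 2 * (1 - s ^ 2) := by ring
    simp only [Pi.zero_apply]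
    rw [h4]
    exact mul_nonneg (sq_nonneg s) (by linarith)
  have h3 := (integral_eq_zero_iff_of_nonneg_ae h2 (hi2.sub hi4)).1
    (le_antisymm h1 (integral_nonneg_of_ae h2))
  have h4 : ∫ s, s ^ 2 ∂(nuS m) = 0 := by
    rw [integral_eq_zero_of_ae]
    filter_upwards [h3, hν.supp] with s hs hs1
    simp only [Pi.zero_apply] at hs ⊢
    have h5 : s ^ 2 < 1 := (sq_lt_one_iff_abs_lt_one s).2 hs1
    have h6 : s ^ 2 * (1 - s ^ 2) = 0 := by
      rw [← hs]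
      ring
    rcases mul_eq_zero.1 h6 with h | h
    · exact h
    · linarith
  rw [hν.sq] at h4
  linarith

variable {E : Type*} [NormedAddCommGroup E] [InnerProductSpace ℝ E] [FiniteDimensional ℝ E]
  [MeasurableSpace E] [BorelSpace E]

theorem ridge_decay2 {m : ℕ} [NeZero m] (hm : 2 ≤ m) (hE : finrank ℝ E = m + 1) (ξ : E) :
    ∃ C : ℝ, 0 ≤ C ∧ ∀ j : ℕ, ∃ T : E →L[ℝ] E, ∀ u : E, ‖u‖ = 1 →
      |((RR m)^[j] (ridge ξ)) u - quad T u| ≤ C * (lam4 m) ^ j := by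
  obtain ⟨e, he, hξ⟩ : ∃ e : E, ‖e‖ = 1 ∧ ξ = ‖ξ‖ • e := by
    by_cases h : ξ = 0
    · have : Nontrivial E := by
        apply Module.nontrivial_of_finrank_pos (R := ℝ)
        omega
      obtain ⟨e, he⟩ := exists_norm_eq E zero_le_one
      exact ⟨e, he, by simp [h]⟩
    · refine ⟨‖ξ‖⁻¹ • ξ, ?_, ?_⟩
      · rw [norm_smul, norm_inv, norm_norm, inv_mul_cancel₀ (norm_ne_zero_iff.2 h)]
      · rw [smul_smul, mul_inv_cancel₀ (norm_ne_zero_iff.2 h), one_smul]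
  set C : ℝ := ∑' k : ℕ, (‖ξ‖ ^ 2) ^ k / ((2 * k).factorial : ℝ) * (k : ℝ) ^ 2 with hC
  have hC0 : 0 ≤ C := tsum_nonneg fun k => by positivity
  refine ⟨C, hC0, fun j => ?_⟩
  set φ := URidgeAux.ph m ‖ξ‖ j with hφ
  refine ⟨φ 0 • ContinuousLinearMap.id ℝ E +
    (φ 1 - φ 0) • (innerSL ℝ e).smulRight e, fun u hu => ?_⟩
  have h1 := URidgeAux.iter_eq hm hE e he ‖ξ‖ j u hu
  rw [← hξ] at h1
  rw [h1]
  have hin : |⟪u, e⟫| ≤ 1 := by
    have := abs_real_inner_le_norm u e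
    rwa [hu, he, one_mul] at this
  have hin2 : ⟪u, e⟫ ^ 2 ≤ 1 := (sq_le_one_iff_abs_le_one _).2 hin
  have hq : quad (φ 0 • ContinuousLinearMap.id ℝ E +
      (φ 1 - φ 0) • (innerSL ℝ e).smulRight e) u = φ 0 + (φ 1 - φ 0) * ⟪u, e⟫ ^ 2 := by
    unfold quad
    rw [hu]
    simp only [add_apply, smul_apply,
      ContinuousLinearMap.id_apply, ContinuousLinearMap.smulRight_apply, innerSL_apply_apply,
      inner_add_left, inner_smul_left, conj_trivial, one_pow, div_one]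
    rw [real_inner_self_eq_norm_sq, hu, real_inner_comm u e]
    ring
  rw [hq]
  have hD := ph_D hm ‖ξ‖ j 1 0 ⟪u, e⟫ (⟪u, e⟫ ^ 2) (by simp) (by simp) hin (sq_nonneg _) hin2
    (by ring)
  rw [← hC, ← hφ] at hD
  have h2 : |φ ⟪u, e⟫ - (φ 0 + (φ 1 - φ 0) * ⟪u, e⟫ ^ 2)| =
      |⟪u, e⟫ ^ 2 * φ 1 + (1 - ⟪u, e⟫ ^ 2) * φ 0 - φ ⟪u, e⟫| := by
    rw [← abs_neg]
    congr 1
    ring
  rw [h2]
  refine hD.trans ?_
  have h3 : ⟪u, e⟫ ^ 2 * (1 - ⟪u, e⟫ ^ 2) * ((1 : ℝ) ^ 2 - 0 ^ 2) ^ 2 ≤ 1 := by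
    nlinarith [sq_nonneg ⟪u, e⟫, sq_nonneg (1 - ⟪u, e⟫ ^ 2)]
  have h4 : 0 ≤ C * lam4 m ^ j := mul_nonneg hC0 (pow_nonneg (lam4_nonneg m) j)
  have := mul_le_mul_of_nonneg_left h3 h4
  rw [mul_one] at this
  exact this

end StarTr
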