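import Pool.Agent.StarTr.VQuad
import Pool.Agent.StarTr.VRidge
import Pool.Agent.StarTr.UGapA
import Pool.Agent.StarTr.UGap

set_option autoImplicit false

/-!
# StarTr, module VGap: the `L²` gap of the Radon transform on the orthogonal complement of the quadratic forms

As in UGapA / UGap.  Let `N f = (SI f²)^(1/2)`.
* If `g₀ ∈ H0` is orthogonal to all `quad S` and all iterates satisfy `|R^j g₀ - quad T_j| ≤ C lam4^j` on the sphere for some `T_j`, then
  `N(R^j g₀)² = SI (R^j g₀ (R^j g₀ - quad T_j)) ≤ N(R^j g₀) N(R^j g₀ - quad T_j)` (`RR_perp` iterated), so `N(R^j g₀) ≤ C' lam4^j`, and `seq_gap` with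
  `N_j = SI ((R^j g₀)²)`, `θ = lam4²` gives `SI ((R g₀)²) ≤ lam4² SI (g₀²)`.
* In general approximate `h` by `g = ∑ a_l ridge ξ_l` up to `ε` (`ridge_dense`), `g₀ = g - quad T` (`exists_proj`).  As `h` is orthogonal to the quadratic forms,
  `h - g₀ = (h - g) + quad T` is the projection of `h - g`, so `N(h - g₀) ≤ N(h - g) ≤ C ε`.  `R^j g₀ = R^j g - R^j (quad T)` and `R^j (quad T)` is a
  quadratic form (`RR_quad`).  Let `ε → 0`, using `N (R f) ≤ N f` (`RR_contr`, from Jensen/`SI_RR`: `(R f)² ≤ R (f²)` pointwise).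
-/

open MeasureTheory Set Metric Module
open scoped ENNReal RealInnerProductSpace

namespace StarTr

open StarIB

variable {E : Type*} [NormedAddCommGroup E] [InnerProductSpace ℝ E] [FiniteDimensional ℝ E]
  [MeasurableSpace E] [BorelSpace E]

namespace VGapAux

open USymmBAux UGapAAux UGapAux VQuadAux

theorem RR_congr {m : ℕ} {f g : E → ℝ} (h : ∀ v : E, ‖v‖ = 1 → f v = g v) (u : E) :
    RR m f u = RR m g u := by
  unfold RR StarIB.sphInt
  congr 1
  refine integral_congr_ae (Filter.Eventually.of_forall fun v => ?_)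
  exact h _ (StarIB.sph_norm v)

/-- the `L²` norm -/
noncomputable def N2 (f : E → ℝ) : ℝ := √(SI (fun u => f u ^ 2))

theorem SI_sq_nonneg (f : E → ℝ) : 0 ≤ SI (fun u => f u ^ 2) :=
  integral_nonneg fun v => sq_nonneg _

theorem N2_nonneg (f : E → ℝ) : 0 ≤ N2 f := Real.sqrt_nonneg _

theorem N2_sq (f : E → ℝ) : N2 f ^ 2 = SI (fun u => f u ^ 2) := Real.sq_sqrt (SI_sq_nonneg f)

theorem N2_congr {f g : E → ℝ} (h : ∀ x : E, x ≠ 0 → f x = g x) : N2 f = N2 g := by
  unfold N2
  congr 1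
  exact SI_congr fun x hx => by rw [h x hx]

theorem SI_comb {f g : E → ℝ} (hf : H0 f) (hg : H0 g) (b : ℝ) :
    SI (fun u => (f u + b * g u) ^ 2) =
      SI (fun u => f u ^ 2) + 2 * b * SI (fun u => f u * g u) + b ^ 2 * SI (fun u => g u ^ 2) := by
  have h2 : SI (fun u => (f u + b * g u) ^ 2) =
      SI (fun u => 1 * (1 * f u ^ 2 + (2 * b) * (f u * g u)) + (b ^ 2) * g u ^ 2) := by
    refine SI_congr fun x hx => ?_
    ring
  have hff : ContinuousOn (fun u => f u ^ 2) {x : E | x ≠ 0} := hf.2.pow 2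
  have hgg : ContinuousOn (fun u => g u ^ 2) {x : E | x ≠ 0} := hg.2.pow 2
  have hfg : ContinuousOn (fun u => f u * g u) {x : E | x ≠ 0} := hf.2.mul hg.2
  have h3 : ContinuousOn (fun u => 1 * f u ^ 2 + (2 * b) * (f u * g u)) {x : E | x ≠ 0} :=
    (continuousOn_const.mul hff).add (continuousOn_const.mul hfg)
  rw [h2, SI_lin h3 hgg, SI_lin hff hfg]
  ring

theorem SI_mul_le {f g : E → ℝ} (hf : H0 f) (hg : H0 g) :
    SI (fun u => f u * g u) ≤ N2 f * N2 g := by
  unfold N2
  rw [← Real.sqrt_mul (SI_sq_nonneg f)]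
  exact Real.le_sqrt_of_sq_le (SI_cs hf hg)

theorem N2_add {f g : E → ℝ} (hf : H0 f) (hg : H0 g) :
    N2 (fun u => f u + g u) ≤ N2 f + N2 g := by
  have h1 := SI_comb hf hg 1
  have h2 := SI_mul_le hf hg
  have h3 : N2 (fun u => f u + g u) ^ 2 ≤ (N2 f + N2 g) ^ 2 := by
    rw [N2_sq]
    have h4 : SI (fun u => (f u + g u) ^ 2) = SI (fun u => (f u + 1 * g u) ^ 2) :=
      SI_congr fun x _ => by ring
    rw [h4, h1, ← N2_sq, ← N2_sq]
    nlinarith
  exact (sq_le_sq₀ (N2_nonneg _) (add_nonneg (N2_nonneg _) (N2_nonneg _))).1 h3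

theorem RR_iter_lin {m : ℕ} {f g : E → ℝ} (hf : H0 f) (hg : H0 g) (b : ℝ) (j : ℕ) :
    ((RR m)^[j] (fun x => 1 * f x + b * g x)) =
      fun u => 1 * ((RR m)^[j] f) u + b * ((RR m)^[j] g) u := by
  induction j with
  | zero => rfl
  | succ j ih =>
    rw [Function.iterate_succ_apply', ih]
    funext u
    rw [RR_add (RR_iter_H0 hf j).2 (RR_iter_H0 hg j).2]
    rw [Function.iterate_succ_apply', Function.iterate_succ_apply']

omit [FiniteDimensional ℝ E] [MeasurableSpace E] [BorelSpace E] in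
theorem quad_one {x : E} (hx : x ≠ 0) : quad (1 : E →L[ℝ] E) x = 1 := by
  unfold quad
  rw [ContinuousLinearMap.one_apply, real_inner_self_eq_norm_sq]
  exact div_self (pow_ne_zero 2 (norm_ne_zero_iff.2 hx))

omit [FiniteDimensional ℝ E] [MeasurableSpace E] [BorelSpace E] in
theorem quad_sum {ι : Type} (s : Finset ι) (a : ι → ℝ) (T : ι → E →L[ℝ] E) (x : E) :
    quad (∑ l ∈ s, a l • T l) x = ∑ l ∈ s, a l * quad (T l) x := by
  classical
  induction s using Finset.induction_on with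
  | empty => simp [quad]
  | insert i s hi ih =>
    rw [Finset.sum_insert hi, Finset.sum_insert hi, quad_add, quad_smul, ih]

/-- iterates of quadratic forms are quadratic forms -/
theorem iter_quad {m : ℕ} [NeZero m] (hm : 2 ≤ m) (hE : finrank ℝ E = m + 1) (T : E →L[ℝ] E)
    (j : ℕ) : ∃ S : E →L[ℝ] E, ∀ x : E, x ≠ 0 → ((RR m)^[j] (quad T)) x = quad S x := by
  induction j with
  | zero => exact ⟨T, fun x _ => rfl⟩
  | succ j ih =>
    obtain ⟨S, hS⟩ := ih
    refine ⟨(m : ℝ)⁻¹ • ((trE S) • (1 : E →L[ℝ] E) + (-1 : ℝ) • S), fun x hx => ?_⟩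
    rw [Function.iterate_succ_apply', RR_congr (g := quad S) (fun v hv => hS v (by
      intro h
      rw [h, norm_zero] at hv
      exact zero_ne_one hv)) x, RR_quad hm hE S hx, quad_smul, quad_add, quad_smul, quad_smul,
      quad_one hx]
    ring

theorem iter_perp {m : ℕ} [NeZero m] (hm : 2 ≤ m) (hE : finrank ℝ E = m + 1) {h : E → ℝ}
    (hh : H0 h) (h0 : ∀ S : E →L[ℝ] E, SI (fun u => h u * quad S u) = 0) (j : ℕ) :
    ∀ S : E →L[ℝ] E, SI (fun u => ((RR m)^[j] h) u * quad S u) = 0 := by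
  induction j with
  | zero => exact h0
  | succ j ih =>
    intro S
    rw [Function.iterate_succ_apply']
    exact RR_perp hm hE (RR_iter_H0 hh j) ih S

/-- the gap from the decay up to quadratic forms -/
theorem gap_perp {m : ℕ} [NeZero m] (hm : 2 ≤ m) (hE : finrank ℝ E = m + 1) {f : E → ℝ}
    (hf : H0 f) (h0 : ∀ S : E →L[ℝ] E, SI (fun u => f u * quad S u) = 0) {C : ℝ}
    (hC : ∀ j : ℕ, ∃ S : E →L[ℝ] E, ∀ u : E, ‖u‖ = 1 →
      |((RR m)^[j] f) u - quad S u| ≤ C * (lam4 m) ^ j) :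
    SI (fun u => (RR m f u) ^ 2) ≤ (lam4 m) ^ 2 * SI (fun u => (f u) ^ 2) := by
  have hmain := seq_gap (N := fun j => SI (fun u => ((RR m)^[j] f u) ^ 2))
    (C := C ^ 2 * ((volume : Measure E).toSphere).real univ) (θ := (lam4 m) ^ 2)
    (sq_nonneg _) (fun j => integral_nonneg fun v => sq_nonneg _) ?_ ?_
  · exact hmain
  · intro j
    have h1 : SI (fun u => ((RR m)^[j + 1] f u) ^ 2) =
        SI (fun u => (RR m)^[j] f u * (RR m)^[j + 2] f u) := by
      have h2 := SI_symm hm hE (iter_H0 (m := m) hf (j + 1)) (iter_H0 (m := m) hf j)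
      have h3 : ∀ k, (RR m)^[k + 1] f = RR m ((RR m)^[k] f) := fun k =>
        Function.iterate_succ_apply' _ _ _
      rw [h3 (j + 1), ← h2, h3 j]
      refine SI_congr fun x hx => ?_
      ring
    show SI (fun u => ((RR m)^[j + 1] f u) ^ 2) ^ 2 ≤
      SI (fun u => ((RR m)^[j] f u) ^ 2) * SI (fun u => ((RR m)^[j + 2] f u) ^ 2)
    rw [h1]
    exact SI_cs (iter_H0 hf j) (iter_H0 hf (j + 2))
  · intro j
    show SI (fun u => ((RR m)^[j] f u) ^ 2) ≤ _
    obtain ⟨S, hS⟩ := hC j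
    have hF := iter_H0 (m := m) hf j
    obtain ⟨F, hFd⟩ : ∃ F : E → ℝ, F = (RR m)^[j] f := ⟨_, rfl⟩
    have hp := iter_perp hm hE hf h0 j S
    rw [← hFd] at hF hS hp ⊢
    have hG : H0 (fun u => 1 * F u + (-1) * quad S u) := H0_lin hF (quad_H0 S) 1 (-1)
    have h1 : SI (fun u => F u ^ 2) = SI (fun u => F u * (1 * F u + (-1) * quad S u)) := by
      have h2 : SI (fun u => F u * (1 * F u + (-1) * quad S u)) =
          SI (fun u => 1 * F u ^ 2 + (-1) * (F u * quad S u)) :=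
        SI_congr fun x _ => by ring
      rw [h2, SI_lin (f := fun u => F u ^ 2) (g := fun u => F u * quad S u) (hF.2.pow 2)
        (H0_mul hF (quad_H0 S)).2, hp]
      ring
    have h3 := SI_cs hF hG
    rw [← h1] at h3
    have h4 : SI (fun u => (1 * F u + (-1) * quad S u) ^ 2) ≤
        (C * (lam4 m) ^ j) ^ 2 * ((volume : Measure E).toSphere).real univ := by
      have h5 : ‖∫ v : sphere (0 : E) 1, (1 * F v + (-1) * quad S v) ^ 2
          ∂((volume : Measure E).toSphere)‖ ≤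
          (C * (lam4 m) ^ j) ^ 2 * ((volume : Measure E).toSphere).real univ := by
        refine norm_integral_le_of_norm_le_const (Filter.Eventually.of_forall fun v => ?_)
        rw [Real.norm_eq_abs, abs_pow]
        refine pow_le_pow_left₀ (abs_nonneg _) ?_ 2
        have h6 := hS v (mem_sphere_zero_iff_norm.1 v.2)
        rwa [one_mul, neg_one_mul, ← sub_eq_add_neg]
      exact (le_abs_self _).trans h5
    have h5 : SI (fun u => F u ^ 2) ≤ SI (fun u => (1 * F u + (-1) * quad S u) ^ 2) := by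
      have h6 := SI_sq_nonneg F
      have h7 := SI_sq_nonneg (fun u => 1 * F u + (-1) * quad S u)
      rcases h6.eq_or_lt with h8 | h8
      · rw [← h8]
        exact h7
      · rw [pow_two] at h3
        exact le_of_mul_le_mul_left h3 h8
    refine (h5.trans h4).trans (le_of_eq ?_)
    ring

/-- finite sums of ridge functions, corrected by a quadratic form -/
theorem gap_ridge4 {m : ℕ} [NeZero m] (hm : 2 ≤ m) (hE : finrank ℝ E = m + 1) {ι : Type}
    (s : Finset ι) (a : ι → ℝ) (ξ : ι → E) (T : E →L[ℝ] E)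
    (h0 : ∀ S : E →L[ℝ] E,
      SI (fun u => (1 * (∑ i ∈ s, a i * ridge (ξ i) u) + (-1) * quad T u) * quad S u) = 0) :
    SI (fun u => (RR m (fun x : E => 1 * (∑ i ∈ s, a i * ridge (ξ i) x) + (-1) * quad T x) u)
      ^ 2) ≤ (lam4 m) ^ 2 *
        SI (fun u => (1 * (∑ i ∈ s, a i * ridge (ξ i) u) + (-1) * quad T u) ^ 2) := by
  choose C hC0 hC using fun i => ridge_decay2 hm hE (ξ i)
  choose S hS using hC
  have hF : ∀ i, H0 (ridge (ξ i)) := fun i => ridge_H0 (ξ i)
  have hg : H0 (fun x => ∑ i ∈ s, a i * ridge (ξ i) x) := H0_sum s a hF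
  refine gap_perp hm hE (H0_lin hg (quad_H0 T) 1 (-1)) h0 (C := ∑ i ∈ s, |a i| * C i) ?_
  intro j
  obtain ⟨U, hU⟩ := iter_quad hm hE T j
  refine ⟨(∑ i ∈ s, a i • S i j) + (-1 : ℝ) • U, fun u hu => ?_⟩
  have hu0 : u ≠ 0 := by
    intro h
    rw [h, norm_zero] at hu
    exact zero_ne_one hu
  rw [RR_iter_lin hg (quad_H0 T) (-1) j, RR_iter_sum s a hF j]
  simp only
  rw [hU u hu0, quad_add, quad_smul, quad_sum]
  have h1 : 1 * (∑ i ∈ s, a i * ((RR m)^[j] (ridge (ξ i))) u) + -1 * quad U u -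
      (∑ i ∈ s, a i * quad (S i j) u + -1 * quad U u) =
      ∑ i ∈ s, a i * (((RR m)^[j] (ridge (ξ i))) u - quad (S i j) u) := by
    simp only [mul_sub, Finset.sum_sub_distrib]
    ring
  rw [h1, Finset.sum_mul]
  refine (Finset.abs_sum_le_sum_abs _ _).trans (Finset.sum_le_sum fun i _ => ?_)
  rw [abs_mul, mul_assoc]
  exact mul_le_mul_of_nonneg_left (hS i j u hu) (abs_nonneg _)

theorem N2_sup {f : E → ℝ} {ε : ℝ} (hε : 0 ≤ ε) (h : ∀ u : E, ‖u‖ = 1 → |f u| ≤ ε) :
    N2 f ≤ ε * √(((volume : Measure E).toSphere).real univ) := by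
  have h5 : ‖∫ v : sphere (0 : E) 1, (f v) ^ 2
      ∂((volume : Measure E).toSphere)‖ ≤
      ε ^ 2 * ((volume : Measure E).toSphere).real univ := by
    refine norm_integral_le_of_norm_le_const (Filter.Eventually.of_forall fun v => ?_)
    rw [Real.norm_eq_abs, abs_pow]
    exact pow_le_pow_left₀ (abs_nonneg _) (h v (mem_sphere_zero_iff_norm.1 v.2)) 2
  have h6 : SI (fun u => f u ^ 2) ≤ ε ^ 2 * ((volume : Measure E).toSphere).real univ :=
    (le_abs_self _).trans h5
  unfold N2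
  refine (Real.sqrt_le_sqrt h6).trans (le_of_eq ?_)
  rw [Real.sqrt_mul (sq_nonneg _), Real.sqrt_sq hε]

end VGapAux

open VGapAux USymmBAux UGapAux VQuadAux

theorem RR_contr {m : ℕ} [NeZero m] (hm : 2 ≤ m) (hE : finrank ℝ E = m + 1) {f : E → ℝ}
    (hf : H0 f) : SI (fun u => (RR m f u) ^ 2) ≤ SI (fun u => (f u) ^ 2) := by
  have hn : Nontrivial E := by
    apply Module.nontrivial_of_finrank_pos (R := ℝ)
    omega
  have h1 : H0 (fun _ : E => (1 : ℝ)) := H0_const 1
  have hM : 0 < SI (fun _ : E => (1 : ℝ)) := by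
    unfold SI
    rw [integral_const, smul_eq_mul, mul_one, Measure.real]
    apply ENNReal.toReal_pos _ (measure_ne_top _ _)
    rw [Ne, Measure.measure_univ_eq_zero]
    exact Measure.toSphere_ne_zero _
  obtain ⟨c, hc⟩ : ∃ c : ℝ, c * SI (fun _ : E => (1 : ℝ)) = SI f :=
    ⟨SI f / SI (fun _ : E => (1 : ℝ)), div_mul_cancel₀ _ hM.ne'⟩
  obtain ⟨g, hg⟩ : ∃ g : E → ℝ, g = fun x => 1 * f x + (-c) * (1 : ℝ) := ⟨_, rfl⟩
  have hgH : H0 g := by
    rw [hg]
    exact H0_lin hf h1 1 (-c)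
  have hg0 : SI g = 0 := by
    rw [hg, SI_lin hf.2 h1.2]
    linarith
  have hgap := RR_gap hm hE hgH hg0
  have hRg0 : SI (RR m g) = 0 := by rw [SI_RR hm hE hgH, hg0]
  have e1 : SI (fun u => f u ^ 2) = SI (fun u => g u ^ 2) +
      c ^ 2 * SI (fun _ : E => (1 : ℝ)) := by
    have h2 : SI (fun u => f u ^ 2) = SI (fun u => (g u + c * (fun _ : E => (1 : ℝ)) u) ^ 2) :=
      SI_congr fun x _ => by
        rw [hg]
        ring
    rw [h2, SI_comb hgH h1 c]
    have h3 : SI (fun u => g u * (fun _ : E => (1 : ℝ)) u) = SI g :=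
      SI_congr fun x _ => mul_one _
    have h4 : SI (fun u => (fun _ : E => (1 : ℝ)) u ^ 2) = SI (fun _ : E => (1 : ℝ)) :=
      SI_congr fun x _ => one_pow 2
    rw [h3, h4, hg0]
    ring
  have e2 : SI (fun u => RR m f u ^ 2) = SI (fun u => RR m g u ^ 2) +
      c ^ 2 * SI (fun _ : E => (1 : ℝ)) := by
    have h2 : SI (fun u => RR m f u ^ 2) =
        SI (fun u => (RR m g u + c * (fun _ : E => (1 : ℝ)) u) ^ 2) :=
      SI_congr fun x hx => by
        rw [hg, RR_add hf.2 h1.2, RR_const hm hE 1 hx]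
        ring
    rw [h2, SI_comb (RR_H0 hgH) h1 c]
    have h3 : SI (fun u => RR m g u * (fun _ : E => (1 : ℝ)) u) = SI (RR m g) :=
      SI_congr fun x _ => mul_one _
    have h4 : SI (fun u => (fun _ : E => (1 : ℝ)) u ^ 2) = SI (fun _ : E => (1 : ℝ)) :=
      SI_congr fun x _ => one_pow 2
    rw [h3, h4, hRg0]
    ring
  have h5 := SI_sq_nonneg g
  have h6 : ((m : ℝ)⁻¹) ^ 2 ≤ 1 := by
    refine pow_le_one₀ (inv_nonneg.2 (Nat.cast_nonneg _)) (inv_le_one_of_one_le₀ ?_)
    exact_mod_cast (by omega : 1 ≤ m)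
  have h7 := mul_le_mul_of_nonneg_right h6 h5
  rw [e1, e2]
  linarith

theorem RR_gap4 {m : ℕ} [NeZero m] (hm : 2 ≤ m) (hE : finrank ℝ E = m + 1) {h : E → ℝ}
    (hh : H0 h) (h0 : ∀ S : E →L[ℝ] E, SI (fun u => h u * quad S u) = 0) :
    SI (fun u => (RR m h u) ^ 2) ≤ (lam4 m) ^ 2 * SI (fun u => (h u) ^ 2) := by
  have hlam : 0 ≤ lam4 m := lam4_nonneg m
  obtain ⟨M, hM⟩ : ∃ M : ℝ, M = √(((volume : Measure E).toSphere).real univ) := ⟨_, rfl⟩
  have hM0 : 0 ≤ M := by
    rw [hM]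
    exact Real.sqrt_nonneg _
  have hcontr : ∀ f : E → ℝ, H0 f → N2 (RR m f) ≤ N2 f := fun f hf =>
    Real.sqrt_le_sqrt (RR_contr hm hE hf)
  have main : ∀ ε : ℝ, 0 < ε → N2 (RR m h) ≤ lam4 m * N2 h + (1 + lam4 m) * (ε * M) := by
    intro ε hε
    obtain ⟨N, a, ξ, hha⟩ := ridge_dense hh hε
    obtain ⟨g, hg⟩ : ∃ g : E → ℝ, g = fun x => ∑ l, a l * ridge (ξ l) x := ⟨_, rfl⟩
    have hgH : H0 g := by
      rw [hg]
      exact H0_sum _ a fun i => ridge_H0 (ξ i)
    obtain ⟨T, hT⟩ := exists_proj hE hgH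
    obtain ⟨g0, hg0⟩ : ∃ g0 : E → ℝ, g0 = fun x => 1 * g x + (-1) * quad T x := ⟨_, rfl⟩
    have hg0H : H0 g0 := by
      rw [hg0]
      exact H0_lin hgH (quad_H0 T) 1 (-1)
    have hperp : ∀ S : E →L[ℝ] E, SI (fun u => g0 u * quad S u) = 0 := by
      intro S
      rw [← hT S, hg0]
      refine SI_congr fun x _ => ?_
      ring
    -- the gap for g0
    have hgap : N2 (RR m g0) ≤ lam4 m * N2 g0 := by
      have h1 := gap_ridge4 hm hE Finset.univ a ξ T (by
        intro S
        have h2 := hperp S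
        rw [hg0, hg] at h2
        exact h2)
      have h2 : SI (fun u => RR m g0 u ^ 2) ≤ (lam4 m) ^ 2 * SI (fun u => g0 u ^ 2) := by
        rw [hg0, hg]
        exact h1
      unfold N2
      refine (Real.sqrt_le_sqrt h2).trans (le_of_eq ?_)
      rw [Real.sqrt_mul (sq_nonneg _), Real.sqrt_sq hlam]
    -- the difference
    obtain ⟨w, hw⟩ : ∃ w : E → ℝ, w = fun x => 1 * h x + (-1) * g0 x := ⟨_, rfl⟩
    have hwH : H0 w := by
      rw [hw]
      exact H0_lin hh hg0H 1 (-1)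
    have hwperp : SI (fun u => w u * quad T u) = 0 := by
      have h1 : SI (fun u => w u * quad T u) =
          SI (fun u => 1 * (h u * quad T u) + (-1) * (g0 u * quad T u)) := by
        rw [hw]
        refine SI_congr fun x _ => ?_
        ring
      rw [h1, SI_lin (f := fun u => h u * quad T u) (g := fun u => g0 u * quad T u)
        (H0_mul hh (quad_H0 T)).2 (H0_mul hg0H (quad_H0 T)).2, h0, hperp]
      ring
    have hwN : N2 w ≤ ε * M := by
      have h1 : N2 w ≤ N2 (fun x => h x - g x) := by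
        unfold N2
        refine Real.sqrt_le_sqrt ?_
        have h2 : SI (fun u => (h u - g u) ^ 2) = SI (fun u => (w u + (-1) * quad T u) ^ 2) := by
          rw [hw, hg0]
          refine SI_congr fun x _ => ?_
          ring
        rw [h2, SI_comb hwH (quad_H0 T), hwperp]
        have h3 := SI_sq_nonneg (quad T)
        linarith
      refine h1.trans ?_
      rw [hM]
      refine N2_sup hε.le fun u hu => ?_
      have h2 := hha u hu
      rw [hg]
      exact h2
    -- assembly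
    have h1 : N2 (RR m h) ≤ N2 (RR m g0) + N2 (RR m w) := by
      have h2 : N2 (RR m h) = N2 (fun u => RR m g0 u + RR m w u) := by
        refine N2_congr fun x hx => ?_
        rw [hw, RR_add hh.2 hg0H.2]
        ring
      rw [h2]
      exact N2_add (RR_H0 hg0H) (RR_H0 hwH)
    have h2 : N2 g0 ≤ N2 h + N2 w := by
      have h3 : N2 g0 = N2 (fun u => h u + (-1) * w u) := by
        refine N2_congr fun x _ => ?_
        rw [hw]
        ring
      have h4 : H0 (fun x => 0 * h x + (-1) * w x) := H0_lin hh hwH 0 (-1)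
      have h5 : N2 (fun u => h u + (-1) * w u) ≤ N2 h + N2 (fun x => 0 * h x + (-1) * w x) := by
        have h6 := N2_add hh h4
        have h7 : N2 (fun u => h u + (-1) * w u) =
            N2 (fun u => h u + (0 * h u + (-1) * w u)) := N2_congr fun x _ => by ring
        rw [h7]
        exact h6
      have h8 : N2 (fun x => 0 * h x + (-1) * w x) = N2 w := by
        unfold N2
        congr 1
        exact SI_congr fun x _ => by ring
      rw [h3]
      linarith
    have h3 := hcontr w hwH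
    have h4 := mul_le_mul_of_nonneg_left h2 hlam
    have h5 := mul_le_mul_of_nonneg_left hwN hlam
    calc N2 (RR m h) ≤ N2 (RR m g0) + N2 (RR m w) := h1
      _ ≤ lam4 m * N2 g0 + N2 w := add_le_add hgap h3
      _ ≤ lam4 m * (N2 h + N2 w) + N2 w := by linarith
      _ ≤ lam4 m * N2 h + (1 + lam4 m) * (ε * M) := by linarith
  have hfin : N2 (RR m h) ≤ lam4 m * N2 h := by
    obtain ⟨K, hK⟩ : ∃ K : ℝ, K = (1 + lam4 m) * M := ⟨_, rfl⟩
    have hK0 : 0 ≤ K := by
      rw [hK]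
      exact mul_nonneg (by linarith) hM0
    refine le_of_forall_pos_le_add fun δ hδ => ?_
    have h1 := main (δ / (K + 1)) (div_pos hδ (by linarith))
    have h2 : (1 + lam4 m) * (δ / (K + 1) * M) = K * (δ / (K + 1)) := by
      rw [hK]
      ring
    have h3 : K * (δ / (K + 1)) ≤ δ := by
      rw [mul_div_assoc', div_le_iff₀ (by linarith)]
      nlinarith
    rw [h2] at h1
    linarith
  have h1 := pow_le_pow_left₀ (N2_nonneg _) hfin 2
  rw [N2_sq, mul_pow, N2_sq] at h1
  exact h1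

end StarTr
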