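import Pool.Agent.StarTr.UDef
import Pool.Agent.StarIB.Bodies

set_option autoImplicit false

/-!
# StarTr, module VLin: spherical integrals of homogeneous functions under linear maps

* `sphere_lin`: for `f` homogeneous of degree `-d` on the `d`-dimensional space `G'`,
  `∫_{S(G')} f = ∫_{x : 1 ≤ N x ≤ e} f x dx` for EVERY continuous positive `N` which is homogeneous of degree one (polar coordinates,
  `∫_{1 ≤ r N ≤ e} dr / r = 1`).  Use it on `G'` with `N = ‖·‖`, and on `G` with `N x = ‖B x‖` and the function `f ∘ B`; the Lebesgue measure of `G'` is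
  `κ` times the image of the Lebesgue measure of `G` under `B` (`κ = |det|` of `B` in orthonormal bases; Haar measure).
* `SI_lin`: `κ = |det A|` if `G = G' = E`.
* `sphInt_lin`: `A` maps the hyperplane `(A† w)^⊥` onto `w^⊥`; the absolute value of the determinant of this map (in orthonormal bases) is
  `|det A| ‖A† w‖⁻¹ ‖w‖`: compose with isometries of `E` so that both hyperplanes become `F × 0` in `F × ℝ` (`StarIB.exists_isometry`) and
  use the block triangular form, the last diagonal entry being `⟪A u, w⟫ / ‖w‖ = ‖A† w‖ / ‖w‖` for `u = A† w / ‖A† w‖`.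
  (Any other way is fine, for example Fubini with slabs.)
-/

open MeasureTheory Set Metric Module
open scoped ENNReal RealInnerProductSpace

namespace StarTr

open StarIB

namespace VLinAux

theorem radial_one {a : ℝ} (ha : 0 < a) :
    ∫⁻ r in Ioi (0 : ℝ), (Icc a⁻¹ (Real.exp 1 * a⁻¹)).indicator
      (fun r => ENNReal.ofReal r⁻¹) r = 1 := by
  have ha' : 0 < a⁻¹ := inv_pos.2 ha
  have he : (1 : ℝ) ≤ Real.exp 1 := Real.one_le_exp (by norm_num)
  have hle : a⁻¹ ≤ Real.exp 1 * a⁻¹ := by nlinarith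
  rw [lintegral_indicator measurableSet_Icc, Measure.restrict_restrict measurableSet_Icc,
    inter_eq_left.2 (show Icc a⁻¹ (Real.exp 1 * a⁻¹) ⊆ Ioi 0 from
      fun r hr => lt_of_lt_of_le ha' hr.1)]
  have hint : IntervalIntegrable (fun r : ℝ => r⁻¹) volume a⁻¹ (Real.exp 1 * a⁻¹) := by
    apply ContinuousOn.intervalIntegrable
    rw [uIcc_of_le hle]
    exact continuousOn_inv₀.mono fun r hr => (lt_of_lt_of_le ha' hr.1).ne'
  have hion : IntegrableOn (fun r : ℝ => r⁻¹) (Icc a⁻¹ (Real.exp 1 * a⁻¹)) := by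
    rw [integrableOn_Icc_iff_integrableOn_Ioc]
    exact (intervalIntegrable_iff_integrableOn_Ioc_of_le hle).1 hint
  rw [← ofReal_integral_eq_lintegral_ofReal hion]
  · rw [integral_Icc_eq_integral_Ioc, ← intervalIntegral.integral_of_le hle,
      integral_inv_of_pos ha' (by positivity), mul_div_assoc, div_self ha'.ne', mul_one,
      Real.log_exp, ENNReal.ofReal_one]
  · rw [Filter.EventuallyLE, ae_restrict_iff' measurableSet_Icc]
    exact Filter.Eventually.of_forall fun r hr => inv_nonneg.2 (ha'.le.trans hr.1)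

theorem sphere_ne' {G : Type*} [NormedAddCommGroup G] (v : sphere (0 : G) 1) : (v : G) ≠ 0 := by
  intro h
  have h1 := v.2
  rw [mem_sphere_zero_iff_norm, h, norm_zero] at h1
  exact zero_ne_one h1

/-- the integral over the sphere of a function homogeneous of degree `-d` -/
theorem lsphere_eq {G : Type*} [NormedAddCommGroup G] [InnerProductSpace ℝ G]
    [FiniteDimensional ℝ G] [MeasurableSpace G] [BorelSpace G] {d : ℕ}
    (hd : 1 ≤ d) (hG : finrank ℝ G = d) {N : G → ℝ} (hN : Measurable N)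
    (hpos : ∀ x, x ≠ 0 → 0 < N x) (hNh : ∀ x, x ≠ 0 → ∀ s : ℝ, 0 < s → N (s • x) = s * N x)
    {g : G → ℝ≥0∞} (hg : Measurable g)
    (hgh : ∀ x, x ≠ 0 → ∀ s : ℝ, 0 < s → g (s • x) = ENNReal.ofReal ((s ^ d)⁻¹) * g x) :
    ∫⁻ x : G, ({x : G | 1 ≤ N x ∧ N x ≤ Real.exp 1} : Set G).indicator g x =
      ∫⁻ v : sphere (0 : G) 1, g v ∂((volume : Measure G).toSphere) := by
  have : Nontrivial G := Module.nontrivial_of_finrank_pos (R := ℝ) (by omega)
  have hms : MeasurableSet ({x : G | 1 ≤ N x ∧ N x ≤ Real.exp 1} : Set G) :=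
    (measurableSet_le measurable_const hN).inter (measurableSet_le hN measurable_const)
  rw [lintegral_polar _ (hg.indicator hms)]
  refine lintegral_congr fun θ => ?_
  have hθ0 := sphere_ne' θ
  have hNθ := hpos _ hθ0
  have key : ∀ r : ℝ, 0 < r → ENNReal.ofReal (r ^ (finrank ℝ G - 1)) *
      ({x : G | 1 ≤ N x ∧ N x ≤ Real.exp 1} : Set G).indicator g (r • (θ : G)) =
      (Icc (N θ)⁻¹ (Real.exp 1 * (N θ)⁻¹)).indicator
      (fun r => ENNReal.ofReal r⁻¹) r * g θ := by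
    intro r hr
    have hiff : (r • (θ : G) ∈ ({x : G | 1 ≤ N x ∧ N x ≤ Real.exp 1} : Set G)) ↔
        r ∈ Icc (N θ)⁻¹ (Real.exp 1 * (N θ)⁻¹) := by
      rw [mem_ofPred_eq, hNh _ hθ0 r hr, mem_Icc, ← div_eq_mul_inv, le_div_iff₀ hNθ,
        inv_le_iff_one_le_mul₀ hNθ]
    by_cases h : r ∈ Icc (N θ)⁻¹ (Real.exp 1 * (N θ)⁻¹)
    · rw [indicator_of_mem h, indicator_of_mem (hiff.2 h), hgh _ hθ0 r hr, ← mul_assoc,
        ← ENNReal.ofReal_mul (by positivity)]
      congr 2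
      rw [hG]
      obtain ⟨k, rfl⟩ : ∃ k, d = k + 1 := ⟨d - 1, by omega⟩
      rw [Nat.add_sub_cancel, pow_succ]
      field_simp
    · rw [indicator_of_notMem h, indicator_of_notMem (fun h' => h (hiff.1 h')), mul_zero, zero_mul]
  rw [setLIntegral_congr_fun measurableSet_Ioi (fun r hr => key r hr)]
  rw [lintegral_mul_const _ ?_, radial_one hNθ, one_mul]
  exact Measurable.indicator (by fun_prop) measurableSet_Icc

theorem lsphere_lin {G G' : Type*} [NormedAddCommGroup G] [InnerProductSpace ℝ G]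
    [FiniteDimensional ℝ G] [MeasurableSpace G] [BorelSpace G] [NormedAddCommGroup G']
    [InnerProductSpace ℝ G'] [FiniteDimensional ℝ G'] [MeasurableSpace G'] [BorelSpace G'] {d : ℕ}
    (hd : 1 ≤ d) (hG : finrank ℝ G = d) (hG' : finrank ℝ G' = d) (B : G ≃ₗ[ℝ] G') {κ : ℝ}
    (hB : (volume : Measure G') = ENNReal.ofReal κ • (volume : Measure G).map B)
    {f : G' → ℝ} (hf : ContinuousOn f {x : G' | x ≠ 0})
    (hom : ∀ x : G', x ≠ 0 → ∀ s : ℝ, 0 < s → f (s • x) = (s ^ d)⁻¹ * f x) :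
    ∫⁻ v : sphere (0 : G') 1, ENNReal.ofReal (f v) ∂((volume : Measure G').toSphere) =
      ENNReal.ofReal κ *
        ∫⁻ v : sphere (0 : G) 1, ENNReal.ofReal (f (B v)) ∂((volume : Measure G).toSphere) := by
  have hfm : Measurable f := measurable_of_continuousOn_compl_singleton (0 : G') hf
  have hBc : Continuous B := B.toLinearMap.continuous_of_finiteDimensional
  have hB0 : ∀ x : G, x ≠ 0 → B x ≠ 0 := fun x hx h => hx (B.map_eq_zero_iff.1 h)
  have hgm : Measurable (fun x => ENNReal.ofReal (f x)) := hfm.ennreal_ofReal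
  have h1 := lsphere_eq hd hG' (N := fun x : G' => ‖x‖) measurable_norm
    (fun x hx => norm_pos_iff.2 hx)
    (fun x _ s hs => by rw [norm_smul, Real.norm_of_nonneg hs.le])
    (g := fun x => ENNReal.ofReal (f x)) hgm
    (fun x hx s hs => by rw [hom x hx s hs, ENNReal.ofReal_mul (by positivity)])
  have h2 := lsphere_eq hd hG (N := fun x : G => ‖B x‖) hBc.norm.measurable
    (fun x hx => norm_pos_iff.2 (hB0 x hx))
    (fun x _ s hs => by rw [map_smul, norm_smul, Real.norm_of_nonneg hs.le])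
    (g := fun x => ENNReal.ofReal (f (B x))) (hgm.comp hBc.measurable)
    (fun x hx s hs => by
      rw [map_smul, hom _ (hB0 x hx) s hs, ENNReal.ofReal_mul (by positivity)])
  rw [← h1, ← h2, hB, lintegral_smul_measure, smul_eq_mul, lintegral_map _ hBc.measurable]
  · rfl
  · refine hgm.indicator ?_
    exact (measurableSet_le measurable_const measurable_norm).inter
      (measurableSet_le measurable_norm measurable_const)

theorem sphere_integrable {G G' : Type*} [NormedAddCommGroup G] [InnerProductSpace ℝ G]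
    [FiniteDimensional ℝ G] [MeasurableSpace G] [BorelSpace G] [NormedAddCommGroup G']
    {f : G' → ℝ} (hf : ContinuousOn f {x : G' | x ≠ 0})
    {h : G → G'} (hc : Continuous h) (h0 : ∀ x, x ≠ 0 → h x ≠ 0) :
    Integrable (fun v : sphere (0 : G) 1 => f (h v)) ((volume : Measure G).toSphere) := by
  have hcont : Continuous (fun v : sphere (0 : G) 1 => f (h v)) :=
    hf.comp_continuous (hc.comp continuous_subtype_val) (fun v => h0 _ (sphere_ne' v))
  exact hcont.integrable_of_hasCompactSupport (HasCompactSupport.of_compactSpace _)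

end VLinAux

open VLinAux

theorem sphere_lin {G G' : Type*} [NormedAddCommGroup G] [InnerProductSpace ℝ G]
    [FiniteDimensional ℝ G] [MeasurableSpace G] [BorelSpace G] [NormedAddCommGroup G']
    [InnerProductSpace ℝ G'] [FiniteDimensional ℝ G'] [MeasurableSpace G'] [BorelSpace G'] {d : ℕ}
    (hd : 1 ≤ d) (hG : finrank ℝ G = d) (hG' : finrank ℝ G' = d) (B : G ≃ₗ[ℝ] G') {κ : ℝ}
    (hκ : 0 < κ) (hB : (volume : Measure G') = ENNReal.ofReal κ • (volume : Measure G).map B)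
    {f : G' → ℝ} (hf : ContinuousOn f {x : G' | x ≠ 0})
    (hom : ∀ x : G', x ≠ 0 → ∀ s : ℝ, 0 < s → f (s • x) = (s ^ d)⁻¹ * f x) :
    ∫ v : sphere (0 : G') 1, f v ∂((volume : Measure G').toSphere) =
      κ * ∫ v : sphere (0 : G) 1, f (B v) ∂((volume : Measure G).toSphere) := by
  have hBc : Continuous B := B.toLinearMap.continuous_of_finiteDimensional
  have hB0 : ∀ x : G, x ≠ 0 → B x ≠ 0 := fun x hx h => hx (B.map_eq_zero_iff.1 h)
  have i1 : Integrable (fun v : sphere (0 : G') 1 => f v) ((volume : Measure G').toSphere) :=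
    sphere_integrable hf continuous_id (fun x hx => hx)
  have i2 : Integrable (fun v : sphere (0 : G) 1 => f (B v)) ((volume : Measure G).toSphere) :=
    sphere_integrable hf hBc hB0
  rw [integral_eq_lintegral_pos_part_sub_lintegral_neg_part i1,
    integral_eq_lintegral_pos_part_sub_lintegral_neg_part i2]
  have e1 := lsphere_lin hd hG hG' B hB hf hom
  have e2 := lsphere_lin hd hG hG' B hB (f := fun x => -f x) hf.neg
    (fun x hx s hs => by rw [hom x hx s hs, mul_neg])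
  rw [e1, e2, ENNReal.toReal_mul, ENNReal.toReal_mul, ENNReal.toReal_ofReal hκ.le]
  ring

variable {E : Type*} [NormedAddCommGroup E] [InnerProductSpace ℝ E] [FiniteDimensional ℝ E]
  [MeasurableSpace E] [BorelSpace E]

theorem SI_lin {m : ℕ} (hE : finrank ℝ E = m + 1) (A : E ≃L[ℝ] E) {f : E → ℝ}
    (hf : ContinuousOn f {x : E | x ≠ 0})
    (hom : ∀ x : E, x ≠ 0 → ∀ s : ℝ, 0 < s → f (s • x) = (s ^ (m + 1))⁻¹ * f x) :
    SI f = |LinearMap.det (A : E →ₗ[ℝ] E)| * SI (fun v => f (A v)) := by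
  have hdet : LinearMap.det (A : E →ₗ[ℝ] E) ≠ 0 := by
    have := A.toLinearEquiv.isUnit_det'
    exact this.ne_zero
  have hm := Measure.map_linearMap_addHaar_eq_smul_addHaar (volume : Measure E) hdet
  refine sphere_lin (by omega) hE hE A.toLinearEquiv (abs_pos.2 hdet) ?_ hf hom
  have h1 : (volume : Measure E).map A.toLinearEquiv =
      ENNReal.ofReal |(LinearMap.det (A : E →ₗ[ℝ] E))⁻¹| • (volume : Measure E) := hm
  rw [h1, smul_smul, ← ENNReal.ofReal_mul (abs_nonneg _), ← abs_mul, mul_inv_cancel₀ hdet,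
    abs_one, ENNReal.ofReal_one, one_smul]

theorem sphInt_lin {m : ℕ} (hm : 2 ≤ m) (hE : finrank ℝ E = m + 1) (A : E ≃L[ℝ] E) {f : E → ℝ}
    (hf : ContinuousOn f {x : E | x ≠ 0})
    (hom : ∀ x : E, x ≠ 0 → ∀ s : ℝ, 0 < s → f (s • x) = (s ^ m)⁻¹ * f x) {w : E} (hw : w ≠ 0) :
    ‖w‖⁻¹ * sphInt f w = |LinearMap.det (A : E →ₗ[ℝ] E)| *
      (‖ContinuousLinearMap.adjoint (A : E →L[ℝ] E) w‖⁻¹ *
        sphInt (fun x => f (A x)) (ContinuousLinearMap.adjoint (A : E →L[ℝ] E) w)) := by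
  set A' : E →L[ℝ] E := ContinuousLinearMap.adjoint (A : E →L[ℝ] E) with hA'
  set u : E := A' w with hu
  have hadj : ∀ x : E, ⟪u, x⟫ = ⟪w, A x⟫ := fun x =>
    ContinuousLinearMap.adjoint_inner_left (A : E →L[ℝ] E) x w
  have hu0 : u ≠ 0 := by
    intro h
    have h1 := hadj (A.symm w)
    rw [h, inner_zero_left, A.apply_symm_apply, real_inner_self_eq_norm_sq] at h1
    exact hw (norm_eq_zero.1 (pow_eq_zero_iff (by norm_num) |>.1 h1.symm))
  have hnw : 0 < ‖w‖ := norm_pos_iff.2 hw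
  have hnu : 0 < ‖u‖ := norm_pos_iff.2 hu0
  -- the isometry
  obtain ⟨Ψ, hΨ⟩ : ∃ Ψ : E ≃ₗᵢ[ℝ] E, Ψ w = (‖w‖ / ‖u‖) • u := by
    refine ⟨Submodule.reflection (ℝ ∙ (w - (‖w‖ / ‖u‖) • u))ᗮ, Submodule.reflection_sub ?_⟩
    rw [norm_smul, Real.norm_of_nonneg (by positivity), div_mul_cancel₀ _ hnu.ne']
  set T : E ≃ₗ[ℝ] E := A.toLinearEquiv.trans Ψ.toLinearEquiv with hT
  have hTx : ∀ x, T x = Ψ (A x) := fun x => rfl
  have hTu : ∀ x : E, ⟪u, T x⟫ = (‖u‖ / ‖w‖) * ⟪u, x⟫ := by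
    intro x
    have h1 : u = (‖u‖ / ‖w‖) • Ψ w := by
      rw [hΨ, smul_smul, div_mul_div_comm, mul_comm ‖w‖ ‖u‖, div_self (by positivity), one_smul]
    calc ⟪u, T x⟫ = ⟪(‖u‖ / ‖w‖) • Ψ w, Ψ (A x)⟫ := by rw [← h1, hTx]
      _ = (‖u‖ / ‖w‖) * ⟪w, A x⟫ := by
          rw [real_inner_smul_left, LinearIsometryEquiv.inner_map_map]
      _ = _ := by rw [← hadj]
  have hmem : ∀ x : E, x ∈ (ℝ ∙ u)ᗮ ↔ ⟪u, x⟫ = 0 := fun x =>
    Submodule.mem_orthogonal_singleton_iff_inner_right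
  have hW : (ℝ ∙ u)ᗮ ≤ ((ℝ ∙ u)ᗮ).comap (T : E →ₗ[ℝ] E) := by
    intro x hx
    rw [Submodule.mem_comap, hmem]
    show ⟪u, T x⟫ = 0
    rw [hTu, (hmem x).1 hx, mul_zero]
  have hfr : finrank ℝ (ℝ ∙ u)ᗮ = m := by
    have : Fact (finrank ℝ E = m + 1) := ⟨hE⟩
    exact Submodule.finrank_orthogonal_span_singleton hu0
  -- the determinant
  have hdetT : LinearMap.det (T : E →ₗ[ℝ] E) =
      LinearMap.det (LinearMap.restrict (p := (ℝ ∙ u)ᗮ) (q := (ℝ ∙ u)ᗮ) (T : E →ₗ[ℝ] E) hW) *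
        (‖u‖ / ‖w‖) := by
    rw [LinearMap.det_eq_det_mul_det (ℝ ∙ u)ᗮ (T : E →ₗ[ℝ] E) hW]
    congr 1
    have hq : Submodule.mapQ (ℝ ∙ u)ᗮ (ℝ ∙ u)ᗮ (T : E →ₗ[ℝ] E) hW =
        (‖u‖ / ‖w‖) • (1 : (E ⧸ (ℝ ∙ u)ᗮ) →ₗ[ℝ] (E ⧸ (ℝ ∙ u)ᗮ)) := by
      apply Submodule.linearMap_qext
      ext x
      simp only [LinearMap.comp_apply, Submodule.mkQ_apply, Submodule.mapQ_apply,
        LinearMap.smul_apply, Module.End.one_apply]
      rw [← Submodule.Quotient.mk_smul, Submodule.Quotient.eq, hmem, inner_sub_right,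
        real_inner_smul_right]
      show ⟪u, T x⟫ - _ = 0
      rw [hTu, sub_self]
    have hfq : finrank ℝ (E ⧸ (ℝ ∙ u)ᗮ) = 1 := by
      have := Submodule.finrank_quotient_add_finrank (ℝ ∙ u)ᗮ
      omega
    rw [hq, LinearMap.det_smul, hfq, pow_one, map_one, mul_one]
  have hdetA : |LinearMap.det (T : E →ₗ[ℝ] E)| = |LinearMap.det (A : E →ₗ[ℝ] E)| := by
    have h1 : (T : E →ₗ[ℝ] E) = (Ψ.toLinearEquiv : E →ₗ[ℝ] E) ∘ₗ (A : E →ₗ[ℝ] E) := rfl
    have h2 : |LinearMap.det (Ψ.toLinearEquiv : E →ₗ[ℝ] E)| = 1 := by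
      rw [← LinearMap.normDet_eq_abs_det]
      exact Ψ.toLinearIsometry.normDet_eq_one
    rw [h1, LinearMap.det_comp, abs_mul, h2, one_mul]
  have hdet0 : LinearMap.det (A : E →ₗ[ℝ] E) ≠ 0 := by
    have := A.toLinearEquiv.isUnit_det'
    exact this.ne_zero
  have hdetT0 : LinearMap.det (T : E →ₗ[ℝ] E) ≠ 0 := T.isUnit_det'.ne_zero
  set TW := LinearMap.restrict (p := (ℝ ∙ u)ᗮ) (q := (ℝ ∙ u)ᗮ) (T : E →ₗ[ℝ] E) hW with hTW
  have hdW0 : LinearMap.det TW ≠ 0 := by
    intro h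
    rw [h, zero_mul] at hdetT
    exact hdetT0 hdetT
  have hκ : |LinearMap.det TW| * (‖u‖ / ‖w‖) = |LinearMap.det (A : E →ₗ[ℝ] E)| := by
    rw [← hdetA, hdetT, abs_mul, abs_of_pos (div_pos hnu hnw)]
  -- restriction as a linear equivalence
  have hinj : Function.Injective TW := by
    intro x y hxy
    have h1 : T x = T y := congrArg Subtype.val hxy
    exact Subtype.ext (T.injective h1)
  set B : (ℝ ∙ u)ᗮ ≃ₗ[ℝ] (ℝ ∙ u)ᗮ := LinearEquiv.ofInjectiveEndo TW hinj with hB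
  have hBx : ∀ x, ((B x : (ℝ ∙ u)ᗮ) : E) = T x := fun x => rfl
  have hvol : (volume : Measure (ℝ ∙ u)ᗮ) =
      ENNReal.ofReal |LinearMap.det TW| • (volume : Measure (ℝ ∙ u)ᗮ).map B := by
    have h1 : (volume : Measure (ℝ ∙ u)ᗮ).map B =
        ENNReal.ofReal |(LinearMap.det TW)⁻¹| • (volume : Measure (ℝ ∙ u)ᗮ) :=
      Measure.map_linearMap_addHaar_eq_smul_addHaar (volume : Measure (ℝ ∙ u)ᗮ) hdW0
    rw [h1, smul_smul, ← ENNReal.ofReal_mul (abs_nonneg _), ← abs_mul, mul_inv_cancel₀ hdW0,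
      abs_one, ENNReal.ofReal_one, one_smul]
  -- transport
  have hfΨ : ContinuousOn (fun x => f (Ψ.symm x)) {x : E | x ≠ 0} :=
    hf.comp Ψ.symm.continuous.continuousOn (fun x hx => by simpa using hx)
  have hs1 : sphInt f w = sphInt (fun x => f (Ψ.symm x)) u := by
    have h1 := sphInt_map Ψ w (fun x => f (Ψ.symm x))
    rw [hΨ, sphInt_smul _ _ _ (div_pos hnw hnu).ne'] at h1
    rw [h1]
    simp only [LinearIsometryEquiv.symm_apply_apply]
  have hs2 : sphInt (fun x => f (Ψ.symm x)) u =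
      |LinearMap.det TW| * sphInt (fun x => f (A x)) u := by
    have h1 := sphere_lin (by omega) hfr hfr B (abs_pos.2 hdW0) hvol
      (f := fun x : (ℝ ∙ u)ᗮ => f (Ψ.symm (x : E)))
      (hfΨ.comp continuous_subtype_val.continuousOn (fun x hx => by
        intro h
        exact hx (Subtype.ext h)))
      (fun x hx s hs => by
        have hx' : Ψ.symm (x : E) ≠ 0 := by
          intro h
          exact hx (Subtype.ext (Ψ.symm.map_eq_zero_iff.1 h))
        rw [Submodule.coe_smul, map_smul, hom _ hx' s hs])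
    have h2 : ∀ v : sphere (0 : (ℝ ∙ u)ᗮ) 1, f (Ψ.symm ((B v : (ℝ ∙ u)ᗮ) : E)) =
        f (A ((v : (ℝ ∙ u)ᗮ) : E)) := by
      intro v
      rw [hBx, hTx, LinearIsometryEquiv.symm_apply_apply]
    simp only [h2] at h1
    exact h1
  rw [hs1, hs2, ← hκ]
  field_simp

end StarTr
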