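import Pool.Agent.StarTr.VDef
import Pool.Agent.StarTr.USymmB
import Pool.Agent.StarTr.UGap

set_option autoImplicit false

/-!
# StarTr, module VQuad: quadratic forms and the spherical Radon transform

* `RR_sq`: `sphInt_zonal` with `φ s = s^2` and the second moment `SLaw.sq` of `nuS m` (`nuS_slaw`), for unit `u`; then scale in `p`.
* `RR_quad`: the identity for `T` symmetric follows from `RR_sq` by diagonalisation; for arbitrary `T` the form only depends on the symmetric part; or: both sides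
  are linear in `T`, and by polarisation of `RR_sq` it holds for the rank one operators `z ↦ ⟪p, z⟫ q`, which span.
* `SI_quad`: rotation invariance (`SI_map` in UEquiv) gives `SI ⟪u,e⟫²` independent of the unit vector `e`; sum over an orthonormal basis; or use
  `SI_RR` and `RR_quad`: `SI (quad T) = SI (RR (quad T)) = m⁻¹ (trE T SI 1 - SI (quad T))`.
* `exists_proj`: orthogonal projection of `f` onto the finite dimensional space of all `quad S` (for example minimise `SI ((f - quad T)^2)`, or use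
  `Submodule.orthogonalProjection` in `Lp ℝ 2` of the sphere, or Gram-Schmidt; only existence is needed).
* `proj_trace`: take `S = 1` (`quad 1 = 1` off zero).
* `RR_perp`: `SI_symm` (USymmB) and `RR_quad`.
-/

open MeasureTheory Set Metric Module
open scoped ENNReal RealInnerProductSpace

namespace StarTr

open StarIB

variable {E : Type*} [NormedAddCommGroup E] [InnerProductSpace ℝ E] [FiniteDimensional ℝ E]
  [MeasurableSpace E] [BorelSpace E]

omit [FiniteDimensional ℝ E] [MeasurableSpace E] [BorelSpace E] in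
theorem quad_H0 (T : E →L[ℝ] E) : H0 (quad T) := by
  constructor
  · intro x hx s hs
    unfold quad
    rw [map_smul, real_inner_smul_left, real_inner_smul_right, norm_smul, mul_pow,
      Real.norm_eq_abs, sq_abs, ← mul_assoc, ← pow_two]
    exact mul_div_mul_left _ _ (pow_ne_zero 2 hs)
  · unfold quad
    refine ContinuousOn.div ?_ ?_ (fun x hx => pow_ne_zero 2 (norm_ne_zero_iff.2 hx))
    · exact (T.continuous.inner continuous_id).continuousOn
    · exact (continuous_norm.pow 2).continuousOn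

namespace VQuadAux

open USymmBAux

omit [FiniteDimensional ℝ E] [MeasurableSpace E] [BorelSpace E] in
/-- rank one forms -/
theorem rk_H0 (p q : E) : H0 (fun v : E => ⟪v, p⟫ * ⟪v, q⟫ / ‖v‖ ^ 2) := by
  constructor
  · intro x hx s hs
    simp only
    rw [real_inner_smul_left, real_inner_smul_left, norm_smul, mul_pow, Real.norm_eq_abs,
      sq_abs]
    have h1 : s * ⟪x, p⟫ * (s * ⟪x, q⟫) = s ^ 2 * (⟪x, p⟫ * ⟪x, q⟫) := by ring
    rw [h1]
    exact mul_div_mul_left _ _ (pow_ne_zero 2 hs)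
  · refine ContinuousOn.div ?_ ?_ (fun x hx => pow_ne_zero 2 (norm_ne_zero_iff.2 hx))
    · exact ((continuous_id.inner continuous_const).mul
        (continuous_id.inner continuous_const)).continuousOn
    · exact (continuous_norm.pow 2).continuousOn

end VQuadAux

theorem RR_sq {m : ℕ} [NeZero m] (hm : 2 ≤ m) (hE : finrank ℝ E = m + 1) (p : E) {u : E}
    (hu : ‖u‖ = 1) :
    RR m (fun v => (⟪v, p⟫ / ‖v‖) ^ 2) u = (m : ℝ)⁻¹ * (‖p‖ ^ 2 - ⟪u, p⟫ ^ 2) := by
  have hmass := massS_pos (show 1 ≤ m by omega)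
  have hcong : ∀ f g : E → ℝ, (∀ v : E, ‖v‖ = 1 → f v = g v) →
      StarIB.sphInt f u = StarIB.sphInt g u := by
    intro f g h
    unfold StarIB.sphInt
    refine integral_congr_ae (Filter.Eventually.of_forall fun v => ?_)
    exact h _ (StarIB.sph_norm v)
  by_cases hp : p = 0
  · subst hp
    have h1 : StarIB.sphInt (fun v : E => (⟪v, (0 : E)⟫ / ‖v‖) ^ 2) u = 0 := by
      rw [hcong _ (fun _ => 0) (fun v _ => by simp)]
      unfold StarIB.sphInt
      simp
    rw [RR, h1]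
    simp
  · have hp0 : 0 < ‖p‖ := norm_pos_iff.2 hp
    obtain ⟨e, he⟩ : ∃ e : E, e = ‖p‖⁻¹ • p := ⟨_, rfl⟩
    have he1 : ‖e‖ = 1 := by
      rw [he, norm_smul, norm_inv, norm_norm, inv_mul_cancel₀ hp0.ne']
    have hpe : p = ‖p‖ • e := by
      rw [he, smul_smul, mul_inv_cancel₀ hp0.ne', one_smul]
    have hin : ∀ v : E, ⟪v, p⟫ = ‖p‖ * ⟪v, e⟫ := by
      intro v
      conv_lhs => rw [hpe]
      rw [real_inner_smul_right]
    have h1 := sphInt_zonal hm hE e u he1 hu (fun s => ‖p‖ ^ 2 * s ^ 2) (by fun_prop)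
    have h2 : StarIB.sphInt (fun v : E => (⟪v, p⟫ / ‖v‖) ^ 2) u =
        StarIB.sphInt (fun v => ‖p‖ ^ 2 * ⟪v, e⟫ ^ 2) u := by
      apply hcong
      intro v hv
      rw [hv, div_one, hin]
      ring
    have ht : ⟪u, e⟫ ^ 2 ≤ 1 := by
      have h3 := abs_real_inner_le_norm u e
      rw [hu, he1, mul_one] at h3
      rw [← sq_abs]
      exact pow_le_one₀ (abs_nonneg _) h3
    have h4 : Rad (nuS m) (fun s => ‖p‖ ^ 2 * s ^ 2) ⟪u, e⟫ =
        ‖p‖ ^ 2 * (1 - ⟪u, e⟫ ^ 2) * (m : ℝ)⁻¹ := by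
      unfold Rad
      rw [← (nuS_slaw hm).sq, ← integral_const_mul]
      refine integral_congr_ae (Filter.Eventually.of_forall fun s => ?_)
      simp only
      rw [mul_pow, Real.sq_sqrt (by linarith)]
      ring
    rw [RR, h2, h1, h4, hin]
    field_simp

theorem RR_rk {m : ℕ} [NeZero m] (hm : 2 ≤ m) (hE : finrank ℝ E = m + 1) (p q : E) {u : E}
    (hu : ‖u‖ = 1) :
    RR m (fun v => ⟪v, p⟫ * ⟪v, q⟫ / ‖v‖ ^ 2) u = (m : ℝ)⁻¹ * (⟪p, q⟫ - ⟪u, p⟫ * ⟪u, q⟫) := by
  have h1 := RR_sq hm hE (p + q) hu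
  have h2 := RR_sq hm hE (p - q) hu
  have hc : ∀ r : E, ContinuousOn (fun v : E => (⟪v, r⟫ / ‖v‖) ^ 2) {x : E | x ≠ 0} := by
    intro r
    refine ContinuousOn.pow (ContinuousOn.div ?_ ?_ (fun x hx => norm_ne_zero_iff.2 hx)) 2
    · exact (continuous_id.inner continuous_const).continuousOn
    · exact continuous_norm.continuousOn
  have h3 := RR_add (m := m) (hc (p + q)) (hc (p - q)) (1 / 4) (-(1 / 4)) u
  have h4 : (fun v : E => ⟪v, p⟫ * ⟪v, q⟫ / ‖v‖ ^ 2) =
      fun v => 1 / 4 * (⟪v, p + q⟫ / ‖v‖) ^ 2 + -(1 / 4) * (⟪v, p - q⟫ / ‖v‖) ^ 2 := by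
    funext v
    rw [inner_add_right, inner_sub_right, div_pow, div_pow]
    ring
  rw [h4, h3, h1, h2, inner_add_right, inner_sub_right, norm_add_sq_real, norm_sub_sq_real]
  ring

theorem RR_quad_unit {m : ℕ} [NeZero m] (hm : 2 ≤ m) (hE : finrank ℝ E = m + 1)
    (T : E →L[ℝ] E) {u : E} (hu : ‖u‖ = 1) :
    RR m (quad T) u = (m : ℝ)⁻¹ * (trE T - quad T u) := by
  obtain ⟨b, hb⟩ : ∃ b, b = stdOrthonormalBasis ℝ E := ⟨_, rfl⟩
  have h1 : quad T = fun v => ∑ j, 1 * (⟪v, b j⟫ * ⟪v, T (b j)⟫ / ‖v‖ ^ 2) := by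
    funext v
    unfold quad
    have h2 : T v = ∑ j, ⟪b j, v⟫ • T (b j) := by
      conv_lhs => rw [← b.sum_repr' v]
      rw [map_sum]
      simp only [map_smul]
    rw [h2, sum_inner, Finset.sum_div]
    apply Finset.sum_congr rfl
    intro j _
    rw [real_inner_smul_left, real_inner_comm v (b j), real_inner_comm v (T (b j)), one_mul]
  have h3 := UGapAux.RR_sum (m := m) Finset.univ (fun _ => (1 : ℝ))
    (fun j => VQuadAux.rk_H0 (b j) (T (b j))) u
  have h4 : trE T = ∑ j, ⟪b j, T (b j)⟫ := by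
    unfold trE
    rw [LinearMap.trace_eq_sum_inner _ b]
    rfl
  have h5 : quad T u = ∑ j, ⟪u, b j⟫ * ⟪u, T (b j)⟫ := by
    have h6 := congrFun h1 u
    rw [h6]
    apply Finset.sum_congr rfl
    intro j _
    rw [hu]
    ring
  rw [h5, h4, ← Finset.sum_sub_distrib, Finset.mul_sum]
  rw [← h1] at h3
  rw [h3]
  apply Finset.sum_congr rfl
  intro j _
  rw [one_mul, RR_rk hm hE _ _ hu]

theorem RR_quad {m : ℕ} [NeZero m] (hm : 2 ≤ m) (hE : finrank ℝ E = m + 1) (T : E →L[ℝ] E) {u : E}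
    (hu : u ≠ 0) : RR m (quad T) u = (m : ℝ)⁻¹ * (trE T - quad T u) := by
  have hu0 : ‖u‖⁻¹ ≠ 0 := inv_ne_zero (norm_ne_zero_iff.2 hu)
  have h1 : ‖‖u‖⁻¹ • u‖ = 1 := by
    rw [norm_smul, norm_inv, norm_norm, inv_mul_cancel₀ (norm_ne_zero_iff.2 hu)]
  have h2 := RR_quad_unit hm hE T h1
  rwa [(RR_H0 (m := m) (quad_H0 T)).1 u hu _ hu0, (quad_H0 T).1 u hu _ hu0] at h2

theorem SI_quad {m : ℕ} [NeZero m] (hm : 2 ≤ m) (hE : finrank ℝ E = m + 1) (T : E →L[ℝ] E) :
    SI (quad T) = ((m : ℝ) + 1)⁻¹ * trE T * SI (fun _ : E => (1 : ℝ)) := by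
  have hm0 : (0 : ℝ) < m := by
    have : 0 < m := by omega
    exact_mod_cast this
  have h1 := SI_RR hm hE (quad_H0 T)
  have h2 : SI (RR m (quad T)) = SI (fun u : E => ((m : ℝ)⁻¹ * trE T) * (1 : ℝ) +
      (-(m : ℝ)⁻¹) * quad T u) := by
    refine USymmBAux.SI_congr fun x hx => ?_
    rw [RR_quad hm hE T hx]
    ring
  rw [USymmBAux.SI_lin continuousOn_const (quad_H0 T).2] at h2
  rw [h2] at h1
  have h3 : (m : ℝ)⁻¹ * trE T * SI (fun _ : E => (1 : ℝ)) = (1 + (m : ℝ)⁻¹) * SI (quad T) := by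
    linarith
  have h4 : (1 + (m : ℝ)⁻¹) = (m : ℝ)⁻¹ * (m + 1) := by
    rw [mul_add, inv_mul_cancel₀ hm0.ne', mul_one]
  rw [h4, mul_assoc, mul_assoc] at h3
  have h5 := mul_left_cancel₀ (inv_ne_zero hm0.ne') h3
  rw [mul_assoc, h5, ← mul_assoc, inv_mul_cancel₀ (by linarith), one_mul]

namespace VQuadAux

omit [FiniteDimensional ℝ E] [MeasurableSpace E] [BorelSpace E] in
theorem quad_add (S T : E →L[ℝ] E) (x : E) : quad (S + T) x = quad S x + quad T x := by
  unfold quad
  rw [ContinuousLinearMap.add_apply, inner_add_left, add_div]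

omit [FiniteDimensional ℝ E] [MeasurableSpace E] [BorelSpace E] in
theorem quad_smul (c : ℝ) (T : E →L[ℝ] E) (x : E) : quad (c • T) x = c * quad T x := by
  unfold quad
  rw [ContinuousLinearMap.smul_apply, real_inner_smul_left, mul_div_assoc]

omit [FiniteDimensional ℝ E] [MeasurableSpace E] [BorelSpace E] in
/-- restriction to the sphere -/
theorem cont_sph {f : E → ℝ} (hf : H0 f) : Continuous (fun v : sphere (0 : E) 1 => f v) := by
  apply hf.2.comp_continuous continuous_subtype_val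
  intro v h0
  have h2 := mem_sphere_zero_iff_norm.1 v.2
  rw [h0, norm_zero] at h2
  exact zero_ne_one h2

/-- the quadratic forms as a linear map to the continuous functions on the sphere -/
noncomputable def qc (E : Type*) [NormedAddCommGroup E] [InnerProductSpace ℝ E] :
    (E →L[ℝ] E) →ₗ[ℝ] C(sphere (0 : E) 1, ℝ) where
  toFun T := ⟨fun v => quad T v, cont_sph (quad_H0 T)⟩
  map_add' S T := by
    ext v
    exact quad_add S T v
  map_smul' c T := by
    ext v
    exact quad_smul c T v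

omit [FiniteDimensional ℝ E] [MeasurableSpace E] [BorelSpace E] in
theorem qc_apply (T : E →L[ℝ] E) (v : sphere (0 : E) 1) : qc E T v = quad T v := rfl

end VQuadAux

open VQuadAux

theorem exists_proj {m : ℕ} (hE : finrank ℝ E = m + 1) {f : E → ℝ} (hf : H0 f) :
    ∃ T : E →L[ℝ] E, ∀ S : E →L[ℝ] E, SI (fun u => (f u - quad T u) * quad S u) = 0 := by
  obtain ⟨μ, hμ⟩ : ∃ μ : Measure (sphere (0 : E) 1), μ = (volume : Measure E).toSphere :=
    ⟨_, rfl⟩
  have hfin : IsFiniteMeasure μ := by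
    rw [hμ]
    infer_instance
  obtain ⟨L, hL⟩ : ∃ L : (E →L[ℝ] E) →ₗ[ℝ] (Lp ℝ 2 μ),
      L = (ContinuousMap.toLp 2 μ ℝ).toLinearMap ∘ₗ qc E := ⟨_, rfl⟩
  have hLa : ∀ T, L T = ContinuousMap.toLp 2 μ ℝ (qc E T) := by
    intro T
    rw [hL]
    rfl
  obtain ⟨fc, hfc⟩ : ∃ fc : C(sphere (0 : E) 1, ℝ), ∀ v, fc v = f v :=
    ⟨⟨fun v => f v, cont_sph hf⟩, fun v => rfl⟩
  have hfd : FiniteDimensional ℝ (LinearMap.range L) := inferInstance
  have hmem := Submodule.starProjection_apply_mem (LinearMap.range L)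
    (ContinuousMap.toLp 2 μ ℝ fc)
  obtain ⟨T, hT⟩ := LinearMap.mem_range.1 hmem
  refine ⟨T, fun S => ?_⟩
  have h1 := Submodule.starProjection_inner_eq_zero (K := LinearMap.range L)
    (ContinuousMap.toLp 2 μ ℝ fc) (L S) (LinearMap.mem_range_self L S)
  rw [← hT, hLa, hLa, ← map_sub, ContinuousMap.inner_toLp] at h1
  unfold SI
  rw [← hμ, ← h1]
  refine integral_congr_ae (Filter.Eventually.of_forall fun v => ?_)
  simp only [ContinuousMap.sub_apply, hfc, qc_apply, conj_trivial]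
  ring

theorem proj_trace {m : ℕ} [NeZero m] (hm : 2 ≤ m) (hE : finrank ℝ E = m + 1) {f : E → ℝ}
    (hf : H0 f) (h0 : SI f = 0) {T : E →L[ℝ] E}
    (hT : ∀ S : E →L[ℝ] E, SI (fun u => (f u - quad T u) * quad S u) = 0) : trE T = 0 := by
  have hm0 : (0 : ℝ) < m := by
    have : 0 < m := by omega
    exact_mod_cast this
  have hn : Nontrivial E := by
    apply Module.nontrivial_of_finrank_pos (R := ℝ)
    omega
  have h1 := hT 1
  have h2 : SI (fun u => (f u - quad T u) * quad (1 : E →L[ℝ] E) u) =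
      SI (fun u => 1 * f u + (-1) * quad T u) := by
    refine USymmBAux.SI_congr fun x hx => ?_
    have h3 : quad (1 : E →L[ℝ] E) x = 1 := by
      unfold quad
      rw [ContinuousLinearMap.one_apply, real_inner_self_eq_norm_sq]
      exact div_self (pow_ne_zero 2 (norm_ne_zero_iff.2 hx))
    rw [h3]
    ring
  rw [h2, USymmBAux.SI_lin hf.2 (quad_H0 T).2, h0, SI_quad hm hE] at h1
  have h4 : 0 < SI (fun _ : E => (1 : ℝ)) := by
    unfold SI
    rw [integral_const, smul_eq_mul, mul_one, Measure.real]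
    apply ENNReal.toReal_pos _ (measure_ne_top _ _)
    rw [Ne, Measure.measure_univ_eq_zero]
    exact Measure.toSphere_ne_zero _
  have h5 : ((m : ℝ) + 1)⁻¹ * trE T * SI (fun _ : E => (1 : ℝ)) = 0 := by linarith
  have h6 : ((m : ℝ) + 1)⁻¹ ≠ 0 := inv_ne_zero (by linarith)
  rcases mul_eq_zero.1 h5 with h7 | h7
  · exact (mul_eq_zero.1 h7).resolve_left h6
  · exact absurd h7 h4.ne'

theorem RR_perp {m : ℕ} [NeZero m] (hm : 2 ≤ m) (hE : finrank ℝ E = m + 1) {h : E → ℝ}
    (hh : H0 h) (h0 : ∀ S : E →L[ℝ] E, SI (fun u => h u * quad S u) = 0) (S : E →L[ℝ] E) :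
    SI (fun u => RR m h u * quad S u) = 0 := by
  have h1 := SI_symm hm hE (quad_H0 S) hh
  have h2 : SI (fun u => RR m h u * quad S u) = SI (fun u => quad S u * RR m h u) :=
    USymmBAux.SI_congr fun x _ => mul_comm _ _
  have hq1 : ∀ x : E, x ≠ 0 → quad (1 : E →L[ℝ] E) x = 1 := by
    intro x hx
    unfold quad
    rw [ContinuousLinearMap.one_apply, real_inner_self_eq_norm_sq]
    exact div_self (pow_ne_zero 2 (norm_ne_zero_iff.2 hx))
  have h3 : SI (fun u => h u * RR m (quad S) u) =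
      SI (fun u => ((m : ℝ)⁻¹ * trE S) * (h u * quad (1 : E →L[ℝ] E) u) +
        (-(m : ℝ)⁻¹) * (h u * quad S u)) := by
    refine USymmBAux.SI_congr fun x hx => ?_
    rw [RR_quad hm hE S hx, hq1 x hx]
    ring
  rw [h2, h1, h3, USymmBAux.SI_lin (f := fun u => h u * quad (1 : E →L[ℝ] E) u)
    (g := fun u => h u * quad S u) (hh.2.mul (quad_H0 _).2) (hh.2.mul (quad_H0 _).2), h0, h0]
  ring

end StarTr
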