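import Pool.Agent.StarTr.VExp
import Pool.Agent.StarTr.VQuad
import Pool.Agent.StarTr.VGap
import Pool.Agent.StarTr.UShift

set_option autoImplicit false

/-!
# StarTr, module VLinz: linearisation of the equation around the translated ball

Write `N f = (SI f²)^(1/2)`, `V = N (k - 1)`, `a = ‖y‖`, `c₀ = cB y`, `w = wE y c` (even part of `c - c₀`), all constants `C` depend on `m` only.
* `UShift_L2` with `k₂ = 1`, `c₂ = c₀` (`one_near`, `cB_shifted`): `N (c - c₀)² ≤ (1 + C η) V²`, and `N w ≤ N (c - c₀)` (second claim).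
* `c^m - c₀^m = m (c - c₀) + e`, `|e| ≤ C η |c - c₀|` pointwise; `RR` kills odd functions (`RR_even`) and is an `L²` contraction (`RR_contr`):
  `Δ = RR (c^m) - RR (c₀^m) = m RR w + e₁`, `N e₁ ≤ C η V`.
* `(RR c^m)^m - (RR c₀^m)^m = m Δ + e₂`, `|e₂| ≤ C η |Δ|` pointwise; so `DT c - DT c₀ = m² RR (RR w) + e₃`, `N e₃ ≤ C η V`.
* `k = C₁ DT c`, `SI k = SI 1`; `C₁ = SI 1 / SI (DT c)`, `C₀ = SI 1 / SI (DT c₀)`: `|C₁ - 1| ≤ C η`, `|C₁ - C₀| ≤ C V`, and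
  `DT c₀ = 1 - (m/2)(a² - ⟪y,u⟫²) + O(a⁴)` (`DT_ball`), so `DT c₀` differs from its mean by at most `C a² ≤ C η`.  Subtracting means,
  `k - 1 = m² (RR (RR w) - mean w) + (m/2) (⟪y,u⟫² - a²/(m+1)) + e`, `N e ≤ C (η V + a⁴)`
  (`SI (⟪y,u⟫²) = a²/(m+1) SI 1` by `SI_quad`).
-/

open MeasureTheory Set Metric Module
open scoped ENNReal RealInnerProductSpace

namespace StarTr

open StarIB

namespace VLinzAux

section core

variable {S : Type*} [TopologicalSpace S] [CompactSpace S] [MeasurableSpace S]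
  [OpensMeasurableSpace S] {ν : Measure S} [IsFiniteMeasure ν]

theorem integ {f : S → ℝ} (hf : Continuous f) : Integrable f ν :=
  hf.integrable_of_hasCompactSupport (HasCompactSupport.of_compactSpace f)

theorem imono {f g : S → ℝ} (hf : Continuous f) (hg : Continuous g) (h : ∀ u, f u ≤ g u) :
    ∫ u, f u ∂ν ≤ ∫ u, g u ∂ν := integral_mono (integ hf) (integ hg) h

/-- variance -/
theorem var {f : S → ℝ} (hf : Continuous f) {M : ℝ} (hM : ν.real univ = M) (hM0 : 0 < M) :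
    ∫ u, (f u - (∫ v, f v ∂ν) / M) ^ 2 ∂ν ≤ ∫ u, (f u) ^ 2 ∂ν ∧
      (∫ u, f u ∂ν) ^ 2 ≤ M * ∫ u, (f u) ^ 2 ∂ν := by
  have h1 := UUniqAux.var (ν := ν) hf ((∫ u, f u ∂ν) / M)
  refine ⟨?_, UUniqAux.cs hf hM hM0⟩
  rw [h1, hM]
  generalize ∫ u, f u ∂ν = a
  generalize ∫ u, (f u) ^ 2 ∂ν = b
  have h3 : b - 2 * (a / M) * a + (a / M) ^ 2 * M = b - a ^ 2 / M := by
    field_simp
    ring
  rw [h3]
  have : 0 ≤ a ^ 2 / M := by positivity
  linarith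

theorem sq4 (a b c d : ℝ) : (a + b + c + d) ^ 2 ≤ 4 * (a ^ 2 + b ^ 2 + c ^ 2 + d ^ 2) := by
  nlinarith [sq_nonneg (a - b), sq_nonneg (a - c), sq_nonneg (a - d), sq_nonneg (b - c),
    sq_nonneg (b - d), sq_nonneg (c - d)]

theorem sq3 (a b c : ℝ) : (a + b + c) ^ 2 ≤ 3 * (a ^ 2 + b ^ 2 + c ^ 2) := by
  nlinarith [sq_nonneg (a - b), sq_nonneg (a - c), sq_nonneg (b - c)]

theorem sq2 (a b : ℝ) : (a + b) ^ 2 ≤ 2 * (a ^ 2 + b ^ 2) := by
  nlinarith [sq_nonneg (a - b)]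

/-- constants of the core estimate -/
noncomputable def Q1 (m : ℕ) (K3 K4 K5 M : ℝ) : ℝ :=
  4 * ((m : ℝ) ^ 2 + K4 ^ 2 + (m : ℝ) ^ 4 * K5 / M + K3 / M)

noncomputable def Q2 (m : ℕ) (K5 M : ℝ) : ℝ := 2 * (m : ℝ) ^ 4 * K5 + 2 * (m : ℝ) ^ 2 * M

theorem core {m : ℕ} {η a K3 K4 K5 M C₁ : ℝ} (hη : 0 < η) (hη1 : η ≤ 1) (ha : 0 ≤ a)
    (haη : a ≤ η) (hK3 : 0 ≤ K3) (hK4 : 0 ≤ K4) (hK5 : 0 ≤ K5) (hM : ν.real univ = M)
    (hM0 : 0 < M) {k D rw e3 e4 q : S → ℝ} (ck : Continuous k) (cr : Continuous rw)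
    (c3 : Continuous e3) (c4 : Continuous e4) (cq : Continuous q)
    (hD : ∀ u, D u = 1 - (m : ℝ) / 2 * (a ^ 2 - q u) + e4 u + ((m : ℝ) ^ 2 * rw u + e3 u))
    (hk : ∀ u, k u = C₁ * D u) (hkI : ∫ u, k u ∂ν = M)
    (hqI : ∫ u, q u ∂ν = a ^ 2 / ((m : ℝ) + 1) * M)
    (h4 : ∀ u, |e4 u| ≤ K4 * a ^ 4) (hq0 : ∀ u, 0 ≤ q u) (hq1 : ∀ u, q u ≤ a ^ 2)
    (h3 : ∫ u, (e3 u) ^ 2 ∂ν ≤ K3 * (η ^ 2 * ∫ u, (k u - 1) ^ 2 ∂ν))
    (h5 : ∫ u, (rw u) ^ 2 ∂ν ≤ K5 * ∫ u, (k u - 1) ^ 2 ∂ν)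
    (hD1 : ∀ u, |D u - 1| ≤ 1 / 2) (hk1 : ∀ u, |k u - 1| ≤ η) :
    ∫ u, ((k u - 1) - ((m : ℝ) ^ 2 * (rw u - (∫ v, rw v ∂ν) / M) +
      (m : ℝ) / 2 * (q u - a ^ 2 / ((m : ℝ) + 1)))) ^ 2 ∂ν ≤
      (24 * Q1 m K3 K4 K5 M * Q2 m K5 M * (M + 1) + 12 * K3 + 48 * K4 ^ 2 * M) *
        (η ^ 2 * ∫ u, (k u - 1) ^ 2 ∂ν + a ^ 8) := by
  have hm0 : (0 : ℝ) ≤ m := Nat.cast_nonneg m
  obtain ⟨V2, hV2⟩ : ∃ V2, V2 = ∫ u, (k u - 1) ^ 2 ∂ν := ⟨_, rfl⟩
  have hV0 : 0 ≤ V2 := by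
    rw [hV2]
    exact integral_nonneg fun u => sq_nonneg _
  have hVη : V2 ≤ η ^ 2 * M := by
    have h := imono (ν := ν) (f := fun u => (k u - 1) ^ 2) (g := fun _ => η ^ 2) (by fun_prop)
      (by fun_prop) (fun u => by
        rw [← sq_abs (k u - 1)]
        exact pow_le_pow_left₀ (abs_nonneg _) (hk1 u) 2)
    rw [integral_const, hM, smul_eq_mul] at h
    rw [hV2]
    linarith
  rw [← hV2] at h3 h5 ⊢
  have cD : Continuous D := by
    have : D = fun u => 1 - (m : ℝ) / 2 * (a ^ 2 - q u) + e4 u + ((m : ℝ) ^ 2 * rw u + e3 u) :=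
      funext hD
    rw [this]
    fun_prop
  have hDint : C₁ * ∫ u, D u ∂ν = M := by
    rw [← integral_const_mul, ← hkI]
    exact integral_congr_ae (Filter.Eventually.of_forall fun u => (hk u).symm)
  obtain ⟨Db, hDb⟩ : ∃ Db, Db = (∫ u, D u ∂ν) / M := ⟨_, rfl⟩
  have hCD : C₁ * Db = 1 := by
    rw [hDb, mul_div_assoc', hDint, div_self hM0.ne']
  have hDb1 : |Db - 1| ≤ 1 / 2 := by
    have g1 := imono (ν := ν) (f := fun _ => (1 / 2 : ℝ)) (g := D) (by fun_prop) cD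
      (fun u => by linarith [(abs_le.1 (hD1 u)).1])
    have g2 := imono (ν := ν) (f := D) (g := fun _ => (3 / 2 : ℝ)) cD (by fun_prop)
      (fun u => by linarith [(abs_le.1 (hD1 u)).2])
    rw [integral_const, hM, smul_eq_mul] at g1 g2
    rw [hDb, abs_le]
    constructor
    · rw [le_sub_iff_add_le, le_div_iff₀ hM0]
      linarith
    · rw [sub_le_iff_le_add, div_le_iff₀ hM0]
      linarith
  have hDb2 : 1 / 2 ≤ Db := by linarith [(abs_le.1 hDb1).1]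
  have hC2 : C₁ ^ 2 ≤ 4 := by
    have g1 : C₁ ^ 2 * Db ^ 2 = 1 := by
      rw [← mul_pow, hCD, one_pow]
    have g2 : (1 / 2 : ℝ) ^ 2 ≤ Db ^ 2 := pow_le_pow_left₀ (by norm_num) hDb2 2
    have g3 := mul_le_mul_of_nonneg_left g2 (sq_nonneg C₁)
    linarith
  obtain ⟨rb, hrb⟩ : ∃ rb, rb = (∫ u, rw u ∂ν) / M := ⟨_, rfl⟩
  obtain ⟨e3b, he3b⟩ : ∃ r, r = (∫ u, e3 u ∂ν) / M := ⟨_, rfl⟩
  obtain ⟨e4b, he4b⟩ : ∃ r, r = (∫ u, e4 u ∂ν) / M := ⟨_, rfl⟩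
  have hDbf : Db = 1 - (m : ℝ) / 2 * (a ^ 2 - a ^ 2 / ((m : ℝ) + 1)) + e4b +
      ((m : ℝ) ^ 2 * rb + e3b) := by
    have g1 : ∫ u, D u ∂ν = (1 - (m : ℝ) / 2 * a ^ 2) * M + (m : ℝ) / 2 * (∫ u, q u ∂ν) +
        (∫ u, e4 u ∂ν) + ((m : ℝ) ^ 2 * (∫ u, rw u ∂ν) + ∫ u, e3 u ∂ν) := by
      have g2 : ∀ u, D u = (((1 - (m : ℝ) / 2 * a ^ 2) + (m : ℝ) / 2 * q u) + e4 u) +
          ((m : ℝ) ^ 2 * rw u + e3 u) := by
        intro u
        rw [hD u]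
        ring
      rw [integral_congr_ae (Filter.Eventually.of_forall g2), integral_add (integ (by fun_prop))
        (integ (by fun_prop)), integral_add (integ (by fun_prop)) (integ (by fun_prop)),
        integral_add (integrable_const _) (integ (by fun_prop)), integral_const, hM, smul_eq_mul,
        integral_const_mul, integral_add (integ (by fun_prop)) (integ (by fun_prop)),
        integral_const_mul]
      ring
    rw [hDb, g1, hqI, hrb, he3b, he4b]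
    field_simp
    ring
  obtain ⟨v3, v3'⟩ := var (ν := ν) c3 hM hM0
  obtain ⟨vr, vr'⟩ := var (ν := ν) cr hM hM0
  rw [← he3b] at v3
  rw [← hrb] at vr
  have b3 : e3b ^ 2 ≤ K3 * V2 / M := by
    have g1 : (∫ u, e3 u ∂ν) = e3b * M := by
      rw [he3b, div_mul_cancel₀ _ hM0.ne']
    rw [g1] at v3'
    have g2 : e3b ^ 2 * M ≤ ∫ u, (e3 u) ^ 2 ∂ν := by
      have : M * (e3b ^ 2 * M) ≤ M * ∫ u, (e3 u) ^ 2 ∂ν := by
        calc M * (e3b ^ 2 * M) = (e3b * M) ^ 2 := by ring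
          _ ≤ _ := v3'
      exact le_of_mul_le_mul_left this hM0
    rw [le_div_iff₀ hM0]
    have g4 : η ^ 2 * V2 ≤ 1 * V2 := by
      apply mul_le_mul_of_nonneg_right _ hV0
      nlinarith
    have g3 : K3 * (η ^ 2 * V2) ≤ K3 * V2 := by
      apply mul_le_mul_of_nonneg_left _ hK3
      linarith
    linarith
  have br : rb ^ 2 ≤ K5 * V2 / M := by
    have g1 : (∫ u, rw u ∂ν) = rb * M := by
      rw [hrb, div_mul_cancel₀ _ hM0.ne']
    rw [g1] at vr'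
    have g2 : rb ^ 2 * M ≤ ∫ u, (rw u) ^ 2 ∂ν := by
      have : M * (rb ^ 2 * M) ≤ M * ∫ u, (rw u) ^ 2 ∂ν := by
        calc M * (rb ^ 2 * M) = (rb * M) ^ 2 := by ring
          _ ≤ _ := vr'
      exact le_of_mul_le_mul_left this hM0
    rw [le_div_iff₀ hM0]
    linarith
  have ha4 : 0 ≤ a ^ 4 := by positivity
  have ha1 : a ≤ 1 := haη.trans hη1
  have ha41 : a ^ 4 ≤ 1 := pow_le_one₀ ha ha1
  have b4 : |e4b| ≤ K4 * a ^ 4 := by
    have g1 := imono (ν := ν) (f := fun _ => -(K4 * a ^ 4)) (g := e4) (by fun_prop) c4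
      (fun u => (abs_le.1 (h4 u)).1)
    have g2 := imono (ν := ν) (f := e4) (g := fun _ => K4 * a ^ 4) c4 (by fun_prop)
      (fun u => (abs_le.1 (h4 u)).2)
    rw [integral_const, hM, smul_eq_mul] at g1 g2
    rw [he4b, abs_le]
    constructor
    · rw [le_div_iff₀ hM0]
      linarith
    · rw [div_le_iff₀ hM0]
      linarith
  have hQ1 : 0 ≤ Q1 m K3 K4 K5 M := by
    unfold Q1
    positivity
  have hQ2 : 0 ≤ Q2 m K5 M := by
    unfold Q2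
    positivity
  have hm1 : (0 : ℝ) < (m : ℝ) + 1 := by linarith
  have haq : 0 ≤ a ^ 2 / ((m : ℝ) + 1) ∧ a ^ 2 / ((m : ℝ) + 1) ≤ a ^ 2 := by
    refine ⟨by positivity, ?_⟩
    rw [div_le_iff₀ hm1]
    nlinarith [sq_nonneg a]
  -- the factor `C₁ - 1`
  have hC1 : (C₁ - 1) ^ 2 ≤ 4 * (Q1 m K3 K4 K5 M * (V2 + a ^ 4)) := by
    have g1 : C₁ - 1 = C₁ * (1 - Db) := by
      rw [mul_sub, hCD]
      ring
    have g2 : 1 - Db = (m : ℝ) / 2 * (a ^ 2 - a ^ 2 / ((m : ℝ) + 1)) + (-e4b) +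
        (-((m : ℝ) ^ 2 * rb)) + (-e3b) := by
      rw [hDbf]
      ring
    have g3 : (1 - Db) ^ 2 ≤ Q1 m K3 K4 K5 M * (V2 + a ^ 4) := by
      rw [g2]
      refine (sq4 _ _ _ _).trans ?_
      have g4 : ((m : ℝ) / 2 * (a ^ 2 - a ^ 2 / ((m : ℝ) + 1))) ^ 2 ≤ (m : ℝ) ^ 2 * a ^ 4 := by
        have g5 : (a ^ 2 - a ^ 2 / ((m : ℝ) + 1)) ^ 2 ≤ (a ^ 2) ^ 2 :=
          pow_le_pow_left₀ (by linarith [haq.2]) (by linarith [haq.1]) 2
        rw [mul_pow]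
        calc ((m : ℝ) / 2) ^ 2 * (a ^ 2 - a ^ 2 / ((m : ℝ) + 1)) ^ 2
            ≤ ((m : ℝ) / 2) ^ 2 * (a ^ 2) ^ 2 := mul_le_mul_of_nonneg_left g5 (sq_nonneg _)
          _ = (m : ℝ) ^ 2 * a ^ 4 / 4 := by ring
          _ ≤ (m : ℝ) ^ 2 * a ^ 4 := by
              have : 0 ≤ (m : ℝ) ^ 2 * a ^ 4 := by positivity
              linarith
      have g6 : (-e4b) ^ 2 ≤ K4 ^ 2 * a ^ 4 := by
        rw [neg_sq, ← sq_abs]
        calc |e4b| ^ 2 ≤ (K4 * a ^ 4) ^ 2 := pow_le_pow_left₀ (abs_nonneg _) b4 2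
          _ = K4 ^ 2 * (a ^ 4 * a ^ 4) := by ring
          _ ≤ K4 ^ 2 * (1 * a ^ 4) := by
              apply mul_le_mul_of_nonneg_left _ (sq_nonneg _)
              exact mul_le_mul_of_nonneg_right ha41 ha4
          _ = _ := by ring
      have g7 : (-((m : ℝ) ^ 2 * rb)) ^ 2 ≤ (m : ℝ) ^ 4 * K5 / M * V2 := by
        calc (-((m : ℝ) ^ 2 * rb)) ^ 2 = (m : ℝ) ^ 4 * rb ^ 2 := by ring
          _ ≤ (m : ℝ) ^ 4 * (K5 * V2 / M) := mul_le_mul_of_nonneg_left br (by positivity)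
          _ = _ := by ring
      have g8 : (-e3b) ^ 2 ≤ K3 / M * V2 := by
        rw [neg_sq]
        calc e3b ^ 2 ≤ K3 * V2 / M := b3
          _ = _ := by ring
      have g9 : 0 ≤ (m : ℝ) ^ 4 * K5 / M := by positivity
      have g10 : 0 ≤ K3 / M := by positivity
      have g11 : 0 ≤ ((m : ℝ) ^ 2 + K4 ^ 2) * V2 := by positivity
      have g12 : 0 ≤ ((m : ℝ) ^ 4 * K5 / M + K3 / M) * a ^ 4 := by positivity
      unfold Q1
      linarith
    rw [g1, mul_pow]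
    calc C₁ ^ 2 * (1 - Db) ^ 2 ≤ 4 * (1 - Db) ^ 2 :=
          mul_le_mul_of_nonneg_right hC2 (sq_nonneg _)
      _ ≤ _ := by linarith
  -- the main term
  obtain ⟨T, hT⟩ : ∃ T : S → ℝ, T = fun u => (m : ℝ) ^ 2 * (rw u - rb) +
      (m : ℝ) / 2 * (q u - a ^ 2 / ((m : ℝ) + 1)) := ⟨_, rfl⟩
  have cT : Continuous T := by
    rw [hT]
    fun_prop
  have hTI : ∫ u, (T u) ^ 2 ∂ν ≤ Q2 m K5 M * (V2 + a ^ 4) := by
    have g1 : ∀ u, (T u) ^ 2 ≤ 2 * (m : ℝ) ^ 4 * (rw u - rb) ^ 2 + 2 * (m : ℝ) ^ 2 * a ^ 4 := by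
      intro u
      rw [hT]
      refine (sq2 _ _).trans ?_
      have g5 : (q u - a ^ 2 / ((m : ℝ) + 1)) ^ 2 ≤ (a ^ 2) ^ 2 := by
        apply sq_le_sq'
        · linarith [hq0 u, haq.2]
        · linarith [hq1 u, haq.1]
      have g6 : ((m : ℝ) / 2) ^ 2 * (q u - a ^ 2 / ((m : ℝ) + 1)) ^ 2 ≤
          ((m : ℝ) / 2) ^ 2 * (a ^ 2) ^ 2 := mul_le_mul_of_nonneg_left g5 (sq_nonneg _)
      have g7 : 0 ≤ (m : ℝ) ^ 2 * a ^ 4 := by positivity
      nlinarith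
    have g2 := imono (ν := ν) (by fun_prop) (by fun_prop) g1
    rw [integral_add (integ (by fun_prop)) (integrable_const _), integral_const_mul,
      integral_const, hM, smul_eq_mul] at g2
    have g3 : 2 * (m : ℝ) ^ 4 * ∫ u, (rw u - rb) ^ 2 ∂ν ≤ 2 * (m : ℝ) ^ 4 * (K5 * V2) :=
      mul_le_mul_of_nonneg_left (vr.trans h5) (by positivity)
    have g4 : 0 ≤ 2 * (m : ℝ) ^ 4 * K5 * a ^ 4 := by positivity
    have g5 : 0 ≤ 2 * (m : ℝ) ^ 2 * M * V2 := by positivity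
    unfold Q2
    linarith
  -- the pointwise identity
  have hpt : ∀ u, ((k u - 1) - ((m : ℝ) ^ 2 * (rw u - rb) +
      (m : ℝ) / 2 * (q u - a ^ 2 / ((m : ℝ) + 1)))) ^ 2 ≤
      3 * ((C₁ - 1) ^ 2 * (T u) ^ 2) + (12 * (e3 u - e3b) ^ 2 + 48 * (K4 ^ 2 * a ^ 8)) := by
    intro u
    have g1 : (k u - 1) - ((m : ℝ) ^ 2 * (rw u - rb) +
        (m : ℝ) / 2 * (q u - a ^ 2 / ((m : ℝ) + 1))) =
        (C₁ - 1) * T u + C₁ * (e3 u - e3b) + C₁ * (e4 u - e4b) := by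
      have g2 : k u - 1 = C₁ * (D u - Db) := by
        rw [hk u, mul_sub, hCD]
      have g3 : D u - Db = T u + (e3 u - e3b) + (e4 u - e4b) := by
        rw [hD u, hDbf, hT]
        ring
      rw [g2, g3, hT]
      ring
    rw [g1]
    refine (sq3 _ _ _).trans ?_
    have g4 : (C₁ * (e3 u - e3b)) ^ 2 ≤ 4 * (e3 u - e3b) ^ 2 := by
      rw [mul_pow]
      exact mul_le_mul_of_nonneg_right hC2 (sq_nonneg _)
    have g5 : (C₁ * (e4 u - e4b)) ^ 2 ≤ 16 * (K4 ^ 2 * a ^ 8) := by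
      have g6 : (e4 u - e4b) ^ 2 ≤ (2 * (K4 * a ^ 4)) ^ 2 := by
        have g7 := abs_le.1 (h4 u)
        have g8 := abs_le.1 b4
        apply sq_le_sq'
        · linarith [g7.1, g8.2]
        · linarith [g7.2, g8.1]
      rw [mul_pow]
      calc C₁ ^ 2 * (e4 u - e4b) ^ 2 ≤ 4 * (2 * (K4 * a ^ 4)) ^ 2 :=
            mul_le_mul hC2 g6 (sq_nonneg _) (by norm_num)
        _ = _ := by ring
    have g6 : ((C₁ - 1) * T u) ^ 2 = (C₁ - 1) ^ 2 * (T u) ^ 2 := by ring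
    rw [g6]
    linarith
  rw [← hrb]
  have h6 := imono (ν := ν) (by fun_prop) (by fun_prop) hpt
  rw [integral_add (integ (by fun_prop)) (integ (by fun_prop)), integral_const_mul,
    integral_const_mul, integral_add (integ (by fun_prop)) (integrable_const _),
    integral_const_mul, integral_const, hM, smul_eq_mul] at h6
  refine h6.trans ?_
  have h7 : (C₁ - 1) ^ 2 * ∫ u, (T u) ^ 2 ∂ν ≤
      (4 * (Q1 m K3 K4 K5 M * (V2 + a ^ 4))) * (Q2 m K5 M * (V2 + a ^ 4)) := by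
    apply mul_le_mul hC1 hTI (integral_nonneg fun u => sq_nonneg _)
    positivity
  have h8 : (V2 + a ^ 4) ^ 2 ≤ 2 * ((M + 1) * (η ^ 2 * V2 + a ^ 8)) := by
    have g1 := sq2 V2 (a ^ 4)
    have g2 : V2 ^ 2 ≤ (η ^ 2 * M) * V2 := by
      rw [sq]
      exact mul_le_mul_of_nonneg_right hVη hV0
    have g3 : 0 ≤ η ^ 2 * V2 := by positivity
    have g4 : 0 ≤ M * a ^ 8 := by positivity
    have g5 : (a ^ 4) ^ 2 = a ^ 8 := by ring
    rw [g5] at g1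
    nlinarith
  have h9 : (4 * (Q1 m K3 K4 K5 M * (V2 + a ^ 4))) * (Q2 m K5 M * (V2 + a ^ 4)) ≤
      8 * (Q1 m K3 K4 K5 M * Q2 m K5 M) * ((M + 1) * (η ^ 2 * V2 + a ^ 8)) := by
    have g1 : 0 ≤ 4 * (Q1 m K3 K4 K5 M * Q2 m K5 M) := by positivity
    have g2 := mul_le_mul_of_nonneg_left h8 g1
    calc _ = 4 * (Q1 m K3 K4 K5 M * Q2 m K5 M) * (V2 + a ^ 4) ^ 2 := by ring
      _ ≤ _ := g2
      _ = _ := by ring
  have h10 : ∫ u, (e3 u - e3b) ^ 2 ∂ν ≤ K3 * (η ^ 2 * V2) := v3.trans h3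
  have h11 : 0 ≤ 12 * K3 * a ^ 8 := by positivity
  have h12 : 0 ≤ 48 * K4 ^ 2 * M * (η ^ 2 * V2) := by positivity
  calc _ ≤ 3 * (8 * (Q1 m K3 K4 K5 M * Q2 m K5 M) * ((M + 1) * (η ^ 2 * V2 + a ^ 8))) +
        (12 * (K3 * (η ^ 2 * V2)) + M * (48 * (K4 ^ 2 * a ^ 8))) := by linarith
    _ = 24 * Q1 m K3 K4 K5 M * Q2 m K5 M * (M + 1) * (η ^ 2 * V2 + a ^ 8) +
        12 * K3 * (η ^ 2 * V2) + 48 * K4 ^ 2 * M * a ^ 8 := by ring
    _ ≤ 24 * Q1 m K3 K4 K5 M * Q2 m K5 M * (M + 1) * (η ^ 2 * V2 + a ^ 8) +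
        12 * K3 * (η ^ 2 * V2) + 48 * K4 ^ 2 * M * a ^ 8 + 12 * K3 * a ^ 8 +
        48 * K4 ^ 2 * M * (η ^ 2 * V2) := by linarith
    _ = _ := by ring

end core

theorem pow_lin (m : ℕ) : ∃ C : ℝ, 0 ≤ C ∧ ∀ δ x y : ℝ, 0 ≤ δ → δ ≤ 1 → |x - 1| ≤ δ →
    |y - 1| ≤ δ → |x ^ m - y ^ m - m * (x - y)| ≤ C * δ * |x - y| := by
  induction m with
  | zero => exact ⟨0, le_refl _, fun δ x y _ _ _ _ => by simp⟩
  | succ m ih =>
    obtain ⟨C, hC, h⟩ := ih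
    have hm0 : (0 : ℝ) ≤ m := Nat.cast_nonneg m
    refine ⟨2 * C + m + (m + C), by positivity, fun δ x y hδ hδ1 hx hy => ?_⟩
    have h1 := h δ x y hδ hδ1 hx hy
    have h2 := h δ y 1 hδ hδ1 hy (by simpa using hδ)
    have h3 : |y ^ m - 1| ≤ (m + C) * δ := by
      have e1 : y ^ m - 1 = (y ^ m - 1 ^ m - m * (y - 1)) + m * (y - 1) := by
        rw [one_pow]
        ring
      rw [e1]
      refine (abs_add_le _ _).trans ?_
      have g1 : C * δ * |y - 1| ≤ C * δ * 1 :=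
        mul_le_mul_of_nonneg_left (hy.trans hδ1) (by positivity)
      have g2 : |(m : ℝ) * (y - 1)| ≤ m * δ := by
        rw [abs_mul, abs_of_nonneg hm0]
        exact mul_le_mul_of_nonneg_left hy hm0
      linarith
    have h4 : |x| ≤ 2 := by
      rw [abs_le]
      constructor
      · linarith [(abs_le.1 hx).1]
      · linarith [(abs_le.1 hx).2]
    have e1 : x ^ (m + 1) - y ^ (m + 1) - ((m + 1 : ℕ) : ℝ) * (x - y) =
        x * (x ^ m - y ^ m - m * (x - y)) + (x - 1) * (m * (x - y)) + (y ^ m - 1) * (x - y) := by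
      push_cast
      ring
    rw [e1]
    refine (abs_add_three _ _ _).trans ?_
    have g1 : |x * (x ^ m - y ^ m - m * (x - y))| ≤ 2 * (C * δ * |x - y|) := by
      rw [abs_mul]
      exact mul_le_mul h4 h1 (abs_nonneg _) (by norm_num)
    have g2 : |(x - 1) * (m * (x - y))| ≤ δ * (m * |x - y|) := by
      rw [abs_mul, abs_mul, abs_of_nonneg hm0]
      exact mul_le_mul_of_nonneg_right hx (by positivity)
    have g3 : |(y ^ m - 1) * (x - y)| ≤ (m + C) * δ * |x - y| := by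
      rw [abs_mul]
      exact mul_le_mul_of_nonneg_right h3 (abs_nonneg _)
    linarith

end VLinzAux

variable {E : Type*} [NormedAddCommGroup E] [InnerProductSpace ℝ E] [FiniteDimensional ℝ E]
  [MeasurableSpace E] [BorelSpace E]

theorem wE_H0 {η : ℝ} {y : E} {k c : E → ℝ} (hη : 0 < η) (hη1 : η ≤ 1 / 100) (hy : ‖y‖ ≤ η)
    (hc : Shifted η y k c) : H0 (wE y c) := by
  have hb := cB_shifted hη hη1 hy
  have cn : ∀ {f : E → ℝ}, ContinuousOn f {x : E | x ≠ 0} →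
      ContinuousOn (fun x => f (-x)) {x : E | x ≠ 0} := by
    intro f hf
    refine hf.comp continuous_neg.continuousOn ?_
    intro x hx
    exact neg_ne_zero.2 hx
  refine ⟨fun x hx s hs => ?_, ?_⟩
  · rcases lt_or_gt_of_ne hs with h | h
    · have e1 : s • x = (-s) • (-x) := by rw [smul_neg, neg_smul, neg_neg]
      have e2 : -(s • x) = (-s) • x := by rw [neg_smul]
      unfold wE
      rw [e2, e1, hc.hom _ (neg_ne_zero.2 hx) _ (by linarith), hc.hom _ hx _ (by linarith),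
        hb.hom _ (neg_ne_zero.2 hx) _ (by linarith), hb.hom _ hx _ (by linarith)]
      ring
    · have e2 : -(s • x) = s • (-x) := by rw [smul_neg]
      unfold wE
      rw [e2, hc.hom _ hx _ h, hc.hom _ (neg_ne_zero.2 hx) _ h, hb.hom _ hx _ h,
        hb.hom _ (neg_ne_zero.2 hx) _ h]
  · unfold wE
    exact ((hc.cont.sub hb.cont).add ((cn hc.cont).sub (cn hb.cont))).div_const 2

namespace VLinzAux

open UUniqAux

theorem side' {m : ℕ} [NeZero m] (hm : 2 ≤ m) (hE : finrank ℝ E = m + 1) {η ε L : ℝ}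
    (hη : 0 < η) (hη1 : η ≤ 1 / 100) (hL : L = (m : ℝ) * 2 ^ (m : ℝ)) (hε : ε = L * (3 * η))
    (hε1 : ε ≤ 1 / 2) {x : E} {k c : E → ℝ} (hc : Shifted η x k c) :
    H0 (qq (m : ℝ) c) ∧ (∀ u : E, u ≠ 0 → |RR m (qq (m : ℝ) c) u - 1| ≤ ε) ∧
      H0 (fun v => (RR m (qq (m : ℝ) c) v) ^ (m : ℝ)) ∧
      (∀ u : E, u ≠ 0 → |DT m (m : ℝ) c u - 1| ≤ L * ε) ∧
      DT m (m : ℝ) c = RR m (fun v => (RR m (qq (m : ℝ) c) v) ^ (m : ℝ)) := by
  have hi : (1 : ℝ) ≤ m := by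
    have : (2 : ℝ) ≤ m := by exact_mod_cast hm
    linarith
  have hi0 : (0 : ℝ) ≤ m := by linarith
  have hL0 : 0 < L := by rw [hL]; positivity
  have hε0 : 0 ≤ ε := by rw [hε]; positivity
  have hq := qq_H0 hi hc.hom hc.cont
  have hpt : ∀ u : E, ‖u‖ = 1 → |(c u) ^ (m : ℝ) - 1| ≤ ε := by
    intro u hu
    have a1 := abs_le.1 (hc.near u hu)
    rw [hε, hL]
    exact rpow_one_bd hi (by positivity) (by linarith) (by linarith [a1.1]) (hc.near u hu)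
  have hqb : ∀ u : E, ‖u‖ = 1 → |qq (m : ℝ) c u - 1| ≤ ε := by
    intro u hu
    have a1 := abs_le.1 (hpt u hu)
    have a2 := abs_le.1 (hpt (-u) (by rw [norm_neg, hu]))
    unfold qq
    rw [abs_le]
    constructor
    · linarith [a1.1, a2.1]
    · linarith [a1.2, a2.2]
  have hB : ∀ u : E, u ≠ 0 → |RR m (qq (m : ℝ) c) u - 1| ≤ ε := fun u hu =>
    RR_abs hm hE hq.2 hqb hu
  have hBH := RR_H0 (m := m) hq
  have hG : H0 (fun v => (RR m (qq (m : ℝ) c) v) ^ (m : ℝ)) :=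
    ⟨fun y hy s hs => by simp only [hBH.1 y hy s hs],
      hBH.2.rpow_const fun _ _ => Or.inr hi0⟩
  have hGb : ∀ u : E, ‖u‖ = 1 → |(RR m (qq (m : ℝ) c) u) ^ (m : ℝ) - 1| ≤ L * ε := by
    intro u hu
    have hu0 : u ≠ 0 := by
      intro h
      rw [h, norm_zero] at hu
      exact zero_ne_one hu
    have a1 := abs_le.1 (hB u hu0)
    rw [hL]
    exact rpow_one_bd hi hε0 (by linarith) (by linarith [a1.1]) (hB u hu0)
  have hDT : DT m (m : ℝ) c = RR m (fun v => (RR m (qq (m : ℝ) c) v) ^ (m : ℝ)) := by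
    funext u
    rw [DT, RR_qq hi hc.cont]
  refine ⟨hq, hB, hG, fun u hu => ?_, hDT⟩
  rw [hDT]
  exact RR_abs hm hE hG.2 hGb hu

/-- the even part of the square -/
theorem even_int {d f : E → ℝ} (hd : ContinuousOn d {x : E | x ≠ 0})
    (hf : ContinuousOn f {x : E | x ≠ 0}) {K : ℝ} (hK : 0 ≤ K)
    (h : ∀ u : E, ‖u‖ = 1 → |f u| ≤ K * ((|d u| + |d (-u)|) / 2)) :
    SI (fun u => (f u) ^ 2) ≤ K ^ 2 * SI (fun u => (d u) ^ 2) := by
  have cn : Continuous (fun v : sphere (0 : E) 1 => d (-(v : E))) :=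
    hd.comp_continuous (continuous_subtype_val.neg) fun v => neg_ne_zero.2 (sne v)
  have cd := rc hd
  have cf := rc hf
  have hle : ∀ v : sphere (0 : E) 1, (f v) ^ 2 ≤
      K ^ 2 * (((d v) ^ 2 + (d (-(v : E))) ^ 2) / 2) := by
    intro v
    have h1 := h v (snorm v)
    rw [← sq_abs (f v), ← sq_abs (d v), ← sq_abs (d (-(v : E)))]
    refine (pow_le_pow_left₀ (abs_nonneg _) h1 2).trans ?_
    rw [mul_pow]
    apply mul_le_mul_of_nonneg_left _ (sq_nonneg K)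
    generalize |d v| = p
    generalize |d (-(v : E))| = q
    nlinarith [sq_nonneg (p - q)]
  have k5 : Continuous fun v : sphere (0 : E) 1 => (d v) ^ 2 := cd.pow 2
  have k6 : Continuous fun v : sphere (0 : E) 1 => (d (-(v : E))) ^ 2 := cn.pow 2
  have k7 : Continuous fun v : sphere (0 : E) 1 =>
      K ^ 2 * (((d v) ^ 2 + (d (-(v : E))) ^ 2) / 2) :=
    continuous_const.mul ((k5.add k6).div_const 2)
  have k8 : Continuous fun v : sphere (0 : E) 1 => (f v) ^ 2 := cf.pow 2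
  have h3 := imono (ν := (volume : Measure E).toSphere) k8 k7 hle
  refine h3.trans (le_of_eq ?_)
  rw [integral_const_mul, integral_div, integral_add (integ k5) (integ k6),
    int_neg (f := fun u => (d u) ^ 2)]
  unfold SI
  ring

theorem SI_sq {m : ℕ} [NeZero m] (hm : 2 ≤ m) (hE : finrank ℝ E = m + 1) (y : E) :
    SI (fun u => ⟪y, u⟫ ^ 2) = ‖y‖ ^ 2 / ((m : ℝ) + 1) * SI (fun _ : E => (1 : ℝ)) := by
  have hm0 : (0 : ℝ) < m := by
    have : (2 : ℝ) ≤ m := by exact_mod_cast hm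
    linarith
  have hf : H0 (fun v : E => (⟪v, y⟫ / ‖v‖) ^ 2) := by
    refine ⟨fun x hx s hs => ?_, ?_⟩
    · have hx' : ‖x‖ ≠ 0 := norm_ne_zero_iff.2 hx
      have hs' : |s| ≠ 0 := abs_ne_zero.2 hs
      change (⟪s • x, y⟫ / ‖s • x‖) ^ 2 = (⟪x, y⟫ / ‖x‖) ^ 2
      rw [norm_smul, Real.norm_eq_abs, real_inner_smul_left, div_pow, div_pow, mul_pow, mul_pow,
        sq_abs]
      have hs2 : s ^ 2 ≠ 0 := pow_ne_zero 2 hs
      rw [mul_div_mul_left _ _ hs2]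
    · refine ContinuousOn.pow (ContinuousOn.div ?_ ?_ ?_) 2
      · exact (continuous_id.inner continuous_const).continuousOn
      · exact continuous_norm.continuousOn
      · intro x hx
        exact norm_ne_zero_iff.2 hx
  have e1 : SI (fun u => ⟪y, u⟫ ^ 2) = SI (fun v : E => (⟪v, y⟫ / ‖v‖) ^ 2) := by
    apply SI_congr1
    intro u hu
    rw [hu, div_one, real_inner_comm]
  have e2 : SI (fun v : E => (⟪v, y⟫ / ‖v‖) ^ 2) =
      SI (fun u : E => (m : ℝ)⁻¹ * ‖y‖ ^ 2 * (1 : ℝ) + -(m : ℝ)⁻¹ * (⟪u, y⟫ / ‖u‖) ^ 2) := by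
    rw [← SI_RR hm hE hf]
    apply SI_congr1
    intro u hu
    rw [RR_sq hm hE y hu, hu, div_one]
    ring
  rw [USymmBAux.SI_lin (USymmBAux.H0_const 1).2 hf.2] at e2
  rw [e1]
  generalize SI (fun v : E => (⟪v, y⟫ / ‖v‖) ^ 2) = X at e2
  generalize SI (fun _ : E => (1 : ℝ)) = M at e2 ⊢
  field_simp at e2 ⊢
  linarith

end VLinzAux

open VLinzAux UUniqAux USymmBAux in
theorem lin_est {m : ℕ} [NeZero m] (hm : 2 ≤ m) (hE : finrank ℝ E = m + 1) :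
    ∃ C : ℝ, 0 ≤ C ∧ ∀ (η : ℝ) (y : E), 0 < η → C * η ≤ 1 → η ≤ 1 / 100 → ‖y‖ ≤ η →
      ∀ k c : E → ℝ, Near η k → H0 k → Shifted η y k c → SI k = SI (fun _ : E => (1 : ℝ)) →
      (∃ C₁ : ℝ, ∀ u : E, ‖u‖ = 1 → k u = C₁ * DT m (m : ℝ) c u) →
      SI (fun u => ((k u - 1) - ((m : ℝ) ^ 2 *
        (RR m (RR m (wE y c)) u - SI (wE y c) / SI (fun _ : E => (1 : ℝ))) +
        (m : ℝ) / 2 * (⟪y, u⟫ ^ 2 - ‖y‖ ^ 2 / ((m : ℝ) + 1)))) ^ 2) ≤
        C * (η ^ 2 * SI (fun u => (k u - 1) ^ 2) + ‖y‖ ^ 8) ∧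
      SI (fun u => (wE y c u) ^ 2) ≤ (1 + C * η) * SI (fun u => (k u - 1) ^ 2) := by
  obtain ⟨Cs, hCs, hSh⟩ := UShift_L2 (E := E) hm hE
  obtain ⟨Cp, hCp, hpow⟩ := pow_lin m
  obtain ⟨CB, hCB, hball⟩ := DT_ball (E := E) hm hE
  obtain ⟨L, hL⟩ : ∃ L : ℝ, L = (m : ℝ) * 2 ^ (m : ℝ) := ⟨_, rfl⟩
  have hm1 : (2 : ℝ) ≤ m := by exact_mod_cast hm
  have hm0 : (0 : ℝ) ≤ m := by linarith
  have hL1 : 1 ≤ L := by
    rw [hL]
    have h1 : (1 : ℝ) ≤ 2 ^ (m : ℝ) := Real.one_le_rpow (by norm_num) hm0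
    nlinarith
  have hnt : Nontrivial E := by
    apply Module.nontrivial_of_finrank_pos (R := ℝ)
    omega
  obtain ⟨M, hM⟩ : ∃ M : ℝ, ((volume : Measure E).toSphere).real univ = M := ⟨_, rfl⟩
  have hM0 : 0 < M := by
    rw [← hM, Measure.real]
    refine ENNReal.toReal_pos ?_ (measure_ne_top _ _)
    intro h
    exact (Measure.toSphere_ne_zero (volume : Measure E)) (Measure.measure_univ_eq_zero.1 h)
  have hS1 : SI (fun _ : E => (1 : ℝ)) = M := by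
    unfold SI
    rw [integral_const, hM, smul_eq_mul, mul_one]
  obtain ⟨K5, hK5⟩ : ∃ K : ℝ, K = 1 + Cs := ⟨_, rfl⟩
  obtain ⟨K3, hK3⟩ : ∃ K : ℝ, K = 2 * ((m : ℝ) ^ 2 * (9 * Cp ^ 2) +
    9 * Cp ^ 2 * L ^ 2 * (2 * ((m : ℝ) ^ 2 + 9 * Cp ^ 2))) * (1 + Cs) := ⟨_, rfl⟩
  have hK50 : 0 ≤ K5 := by rw [hK5]; positivity
  have hK30 : 0 ≤ K3 := by rw [hK3]; positivity
  obtain ⟨Q, hQ⟩ : ∃ Q : ℝ, Q = 24 * Q1 m K3 CB K5 M * Q2 m K5 M * (M + 1) + 12 * K3 +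
    48 * CB ^ 2 * M := ⟨_, rfl⟩
  have hQ0 : 0 ≤ Q := by
    rw [hQ]
    unfold Q1 Q2
    positivity
  refine ⟨Q + Cs + 6 * L ^ 2, by positivity, ?_⟩
  intro η y hη hCη hη1 hy k c hk hkH hc hSI hex
  obtain ⟨C₁, hC₁⟩ := hex
  have hη2 : η ≤ 1 := by linarith
  have hQη : 0 ≤ Q * η := by positivity
  have hCsη : 0 ≤ Cs * η := by positivity
  have hLη : 6 * L ^ 2 * η ≤ 1 := by
    have : (Q + Cs + 6 * L ^ 2) * η = Q * η + Cs * η + 6 * L ^ 2 * η := by ring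
    linarith
  obtain ⟨ε, hε⟩ : ∃ ε : ℝ, ε = L * (3 * η) := ⟨_, rfl⟩
  have hε0 : 0 ≤ ε := by rw [hε]; positivity
  have hLε : L * ε ≤ 1 / 2 := by
    rw [hε]
    have : L * (L * (3 * η)) = 6 * L ^ 2 * η / 2 := by ring
    linarith
  have hε1 : ε ≤ 1 / 2 := by
    have : ε ≤ L * ε := by nlinarith
    linarith
  have hb := cB_shifted hη hη1 hy
  obtain ⟨qH, Bb, GH, Db, hDT⟩ := side' hm hE hη hη1 hL hε hε1 hc
  obtain ⟨qH', Bb', GH', Db', hDT'⟩ := side' hm hE hη hη1 hL hε hε1 hb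
  have BH := RR_H0 (m := m) qH
  have BH' := RR_H0 (m := m) qH'
  have wH := wE_H0 hη hη1 hy hc
  obtain ⟨V2, hV2⟩ : ∃ V, V = SI (fun u => (k u - 1) ^ 2) := ⟨_, rfl⟩
  have hV0 : 0 ≤ V2 := by
    rw [hV2]
    exact integral_nonneg fun v => sq_nonneg _
  -- the difference of the shifted functions
  have hW := hSh η y hη hη1 hy k (fun _ => 1) c (cB y) hk (one_near hη) hkH.2
    continuousOn_const hc hb
  rw [← hV2] at hW
  obtain ⟨W2, hW2⟩ : ∃ W, W = SI (fun u => (c u - cB y u) ^ 2) := ⟨_, rfl⟩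
  rw [← hW2] at hW
  have hW0 : 0 ≤ W2 := by
    rw [hW2]
    exact integral_nonneg fun v => sq_nonneg _
  have hWV : W2 ≤ (1 + Cs) * V2 := by
    have : Cs * η ≤ Cs * 1 := mul_le_mul_of_nonneg_left hη2 hCs
    have := mul_le_mul_of_nonneg_right (by linarith : 1 + Cs * η ≤ 1 + Cs) hV0
    linarith
  have hdc : ContinuousOn (fun u => c u - cB y u) {x : E | x ≠ 0} := hc.cont.sub hb.cont
  have hw2 : SI (fun u => (wE y c u) ^ 2) ≤ W2 := by
    have h := even_int hdc wH.2 (zero_le_one) (fun u hu => by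
      unfold wE
      rw [abs_div, one_mul, abs_of_pos (by norm_num : (0 : ℝ) < 2)]
      have := abs_add_le (c u - cB y u) (c (-u) - cB y (-u))
      linarith)
    rw [one_pow, one_mul, ← hW2] at h
    exact h
  refine ⟨?_, ?_⟩
  swap
  · rw [← hV2]
    refine hw2.trans (hW.trans ?_)
    apply mul_le_mul_of_nonneg_right _ hV0
    have : 0 ≤ 6 * L ^ 2 * η := by positivity
    have : (Q + Cs + 6 * L ^ 2) * η = Q * η + Cs * η + 6 * L ^ 2 * η := by ring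
    linarith
  -- the first error
  obtain ⟨eE, heE⟩ : ∃ e : E → ℝ, e = fun x => 1 * (1 * qq (m : ℝ) c x +
      (-1) * qq (m : ℝ) (cB y) x) + (-(m : ℝ)) * wE y c x := ⟨_, rfl⟩
  have eH : H0 eE := by
    rw [heE]
    exact H0_lin (H0_lin qH qH' 1 (-1)) wH 1 (-(m : ℝ))
  have hpt : ∀ u : E, ‖u‖ = 1 → |(c u) ^ (m : ℝ) - (cB y u) ^ (m : ℝ) - m * (c u - cB y u)| ≤
      (3 * Cp * η) * |c u - cB y u| := by
    intro u hu
    rw [Real.rpow_natCast, Real.rpow_natCast]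
    have h := hpow (3 * η) (c u) (cB y u) (by positivity) (by linarith) (hc.near u hu)
      (hb.near u hu)
    refine h.trans (le_of_eq ?_)
    ring
  have heb : ∀ u : E, ‖u‖ = 1 → |eE u| ≤ (3 * Cp * η) * ((|c u - cB y u| +
      |c (-u) - cB y (-u)|) / 2) := by
    intro u hu
    have h1 := hpt u hu
    have h2 := hpt (-u) (by rw [norm_neg, hu])
    have e1 : eE u = (((c u) ^ (m : ℝ) - (cB y u) ^ (m : ℝ) - m * (c u - cB y u)) +
        ((c (-u)) ^ (m : ℝ) - (cB y (-u)) ^ (m : ℝ) - m * (c (-u) - cB y (-u)))) / 2 := by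
      rw [heE]
      unfold qq wE
      ring
    rw [e1, abs_div, abs_of_pos (by norm_num : (0 : ℝ) < 2)]
    have h3 := abs_add_le ((c u) ^ (m : ℝ) - (cB y u) ^ (m : ℝ) - m * (c u - cB y u))
      ((c (-u)) ^ (m : ℝ) - (cB y (-u)) ^ (m : ℝ) - m * (c (-u) - cB y (-u)))
    linarith
  have he2 : SI (fun u => (eE u) ^ 2) ≤ (3 * Cp * η) ^ 2 * W2 := by
    rw [hW2]
    exact even_int hdc eH.2 (by positivity) heb
  -- `Δ`
  have hΔ : ∀ u : E, RR m (qq (m : ℝ) c) u - RR m (qq (m : ℝ) (cB y)) u =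
      (m : ℝ) * RR m (wE y c) u + 1 * RR m eE u := by
    intro u
    rw [heE, RR_add (H0_lin qH qH' 1 (-1)).2 wH.2, RR_add qH.2 qH'.2]
    ring
  obtain ⟨Δ, hΔd⟩ : ∃ D : E → ℝ, D = fun x => (m : ℝ) * RR m (wE y c) x + 1 * RR m eE x :=
    ⟨_, rfl⟩
  have rwH := RR_H0 (m := m) wH
  have reH := RR_H0 (m := m) eH
  have ΔH : H0 Δ := by
    rw [hΔd]
    exact H0_lin rwH reH _ _
  have two : ∀ (a b : ℝ) (f g : E → ℝ), H0 f → H0 g → SI (fun x => (a * f x + b * g x) ^ 2) ≤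
      2 * (a ^ 2 * SI (fun x => (f x) ^ 2) + b ^ 2 * SI (fun x => (g x) ^ 2)) := by
    intro a b f g hf hg
    have hf2 : ContinuousOn (fun x => (f x) ^ 2) {x : E | x ≠ 0} := hf.2.pow 2
    have hg2 : ContinuousOn (fun x => (g x) ^ 2) {x : E | x ≠ 0} := hg.2.pow 2
    have h1 := UGapAux.SI_le_add (f := fun x => (a * f x + b * g x) ^ 2)
      (g := fun x => (2 * a ^ 2) * (f x) ^ 2 + (2 * b ^ 2) * (g x) ^ 2) (e := 0)
      ((H0_lin hf hg a b).2.pow 2)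
      ((continuousOn_const.mul hf2).add (continuousOn_const.mul hg2))
      (fun u _ => by
        have := sq2 (a * f u) (b * g u)
        nlinarith)
    rw [SI_lin hf2 hg2] at h1
    linarith
  have hΔ2 : SI (fun u => (Δ u) ^ 2) ≤ 2 * ((m : ℝ) ^ 2 + 9 * Cp ^ 2) * W2 := by
    have h1 := two (m : ℝ) 1 _ _ rwH reH
    have h2 := (RR_contr hm hE wH).trans hw2
    have h3 := (RR_contr hm hE eH).trans he2
    have h4 : (3 * Cp * η) ^ 2 * W2 ≤ 9 * Cp ^ 2 * W2 := by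
      apply mul_le_mul_of_nonneg_right _ hW0
      have : η ^ 2 ≤ 1 := pow_le_one₀ hη.le hη2
      calc (3 * Cp * η) ^ 2 = 9 * Cp ^ 2 * η ^ 2 := by ring
        _ ≤ 9 * Cp ^ 2 * 1 := mul_le_mul_of_nonneg_left this (by positivity)
        _ = _ := by ring
    have h5 := mul_le_mul_of_nonneg_left h2 (sq_nonneg (m : ℝ))
    rw [hΔd]
    refine h1.trans ?_
    rw [one_pow, one_mul]
    nlinarith
  -- the second error
  obtain ⟨e2, he2d⟩ : ∃ e : E → ℝ, e = fun x => 1 * (1 * (RR m (qq (m : ℝ) c) x) ^ (m : ℝ) +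
      (-1) * (RR m (qq (m : ℝ) (cB y)) x) ^ (m : ℝ)) + (-(m : ℝ)) * Δ x := ⟨_, rfl⟩
  have e2H : H0 e2 := by
    rw [he2d]
    exact H0_lin (H0_lin GH GH' 1 (-1)) ΔH 1 (-(m : ℝ))
  have he2b : ∀ u : E, ‖u‖ = 1 → |e2 u| ≤ (3 * Cp * L * η) * ((|Δ u| + |Δ (-u)|) / 2) := by
    intro u hu
    have hu0 : u ≠ 0 := by
      intro h
      rw [h, norm_zero] at hu
      exact zero_ne_one hu
    have h1 := hpow ε (RR m (qq (m : ℝ) c) u) (RR m (qq (m : ℝ) (cB y)) u) hε0 (by linarith)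
      (Bb u hu0) (Bb' u hu0)
    have e1 : Δ (-u) = Δ u := by
      have := ΔH.1 u hu0 (-1) (by norm_num)
      rw [neg_one_smul] at this
      exact this
    have e3 : RR m (qq (m : ℝ) c) u - RR m (qq (m : ℝ) (cB y)) u = Δ u := by
      rw [hΔ u, hΔd]
    have e4 : e2 u = (RR m (qq (m : ℝ) c) u) ^ m - (RR m (qq (m : ℝ) (cB y)) u) ^ m -
        m * (RR m (qq (m : ℝ) c) u - RR m (qq (m : ℝ) (cB y)) u) := by
      rw [he2d, e3]
      simp only [Real.rpow_natCast]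
      ring
    rw [e4, e1]
    refine h1.trans (le_of_eq ?_)
    rw [e3, hε]
    ring
  have he22 : SI (fun u => (e2 u) ^ 2) ≤ (3 * Cp * L * η) ^ 2 *
      (2 * ((m : ℝ) ^ 2 + 9 * Cp ^ 2) * W2) :=
    (even_int ΔH.2 e2H.2 (by positivity) he2b).trans
      (mul_le_mul_of_nonneg_left hΔ2 (sq_nonneg _))
  -- the third error
  obtain ⟨e3, he3d⟩ : ∃ e : E → ℝ, e = fun x => (m : ℝ) * RR m (RR m eE) x + 1 * RR m e2 x :=
    ⟨_, rfl⟩
  have rreH := RR_H0 (m := m) reH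
  have re2H := RR_H0 (m := m) e2H
  have rrwH := RR_H0 (m := m) rwH
  have e3H : H0 e3 := by
    rw [he3d]
    exact H0_lin rreH re2H _ _
  have he32 : SI (fun u => (e3 u) ^ 2) ≤ K3 * (η ^ 2 * V2) := by
    have h1 := two (m : ℝ) 1 _ _ rreH re2H
    have h2 := ((RR_contr hm hE reH).trans (RR_contr hm hE eH)).trans he2
    have h3 := (RR_contr hm hE e2H).trans he22
    have h5 := mul_le_mul_of_nonneg_left h2 (sq_nonneg (m : ℝ))
    rw [he3d]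
    refine h1.trans ?_
    rw [one_pow, one_mul]
    have h6 : 2 * ((m : ℝ) ^ 2 * ((3 * Cp * η) ^ 2 * W2) + (3 * Cp * L * η) ^ 2 *
        (2 * ((m : ℝ) ^ 2 + 9 * Cp ^ 2) * W2)) = (2 * ((m : ℝ) ^ 2 * (9 * Cp ^ 2) +
        9 * Cp ^ 2 * L ^ 2 * (2 * ((m : ℝ) ^ 2 + 9 * Cp ^ 2))) * η ^ 2) * W2 := by ring
    have h7 : 0 ≤ 2 * ((m : ℝ) ^ 2 * (9 * Cp ^ 2) +
        9 * Cp ^ 2 * L ^ 2 * (2 * ((m : ℝ) ^ 2 + 9 * Cp ^ 2))) * η ^ 2 := by positivity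
    have h8 := mul_le_mul_of_nonneg_left hWV h7
    rw [hK3]
    linarith
  have hDD : ∀ u : E, DT m (m : ℝ) c u = DT m (m : ℝ) (cB y) u +
      ((m : ℝ) ^ 2 * RR m (RR m (wE y c)) u + e3 u) := by
    intro u
    have h1 : RR m Δ u = (m : ℝ) * RR m (RR m (wE y c)) u + 1 * RR m (RR m eE) u := by
      rw [hΔd, RR_add rwH.2 reH.2]
    have h2 : RR m e2 u = 1 * (1 * DT m (m : ℝ) c u + (-1) * DT m (m : ℝ) (cB y) u) +
        (-(m : ℝ)) * RR m Δ u := by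
      rw [he2d, RR_add (H0_lin GH GH' 1 (-1)).2 ΔH.2, RR_add GH.2 GH'.2, hDT, hDT']
    rw [he3d]
    have h3 : DT m (m : ℝ) c u = DT m (m : ℝ) (cB y) u + (m : ℝ) * RR m Δ u + RR m e2 u := by
      rw [h2]
      ring
    rw [h3, h1]
    ring
  -- application of the core estimate
  have hRw : ∫ v : sphere (0 : E) 1, RR m (RR m (wE y c)) v ∂((volume : Measure E).toSphere) =
      SI (wE y c) := by
    rw [← SI_RR hm hE wH, ← SI_RR hm hE rwH]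
    rfl
  have hDTH : H0 (DT m (m : ℝ) (cB y)) := by
    rw [hDT']
    exact RR_H0 GH'
  have hin : Continuous fun v : sphere (0 : E) 1 => ⟪y, (v : E)⟫ ^ 2 :=
    (continuous_const.inner continuous_subtype_val).pow 2
  have hcore := core (ν := (volume : Measure E).toSphere) (m := m) (η := η) (a := ‖y‖) (K3 := K3)
    (K4 := CB) (K5 := K5) (M := M) (C₁ := C₁) hη hη2 (norm_nonneg y) hy hK30 hCB hK50 hM hM0
    (k := fun v => k v) (D := fun v => DT m (m : ℝ) c v) (rw := fun v => RR m (RR m (wE y c)) v)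
    (e3 := fun v => e3 v) (e4 := fun v => DT m (m : ℝ) (cB y) v -
      (1 - (m : ℝ) / 2 * (‖y‖ ^ 2 - ⟪y, (v : E)⟫ ^ 2))) (q := fun v => ⟪y, (v : E)⟫ ^ 2)
    (rc hkH.2) (rc rrwH.2) (rc e3H.2)
    ((rc hDTH.2).sub (continuous_const.sub (continuous_const.mul (continuous_const.sub hin))))
    hin
    (fun v => by
      rw [hDD v]
      ring)
    (fun v => hC₁ v (snorm v))
    (by
      rw [← hS1, ← hSI]
      rfl)
    (by
      rw [← hS1, ← SI_sq hm hE y]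
      rfl)
    (fun v => hball y (by linarith) v (snorm v))
    (fun v => sq_nonneg _)
    (fun v => by
      have h := abs_real_inner_le_norm y (v : E)
      rw [snorm v, mul_one] at h
      rw [← sq_abs]
      exact pow_le_pow_left₀ (abs_nonneg _) h 2)
    (by
      have := he32
      rw [hV2] at this
      exact this)
    (by
      have h2 := ((RR_contr hm hE rwH).trans (RR_contr hm hE wH)).trans hw2
      have h3 := h2.trans hWV
      rw [hV2, ← hK5] at h3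
      exact h3)
    (fun v => (Db v (sne v)).trans hLε)
    (fun v => hk.near v (snorm v))
  rw [hRw, ← hQ] at hcore
  rw [hS1]
  refine (le_trans hcore ?_)
  change Q * (η ^ 2 * SI (fun u => (k u - 1) ^ 2) + ‖y‖ ^ 8) ≤
    (Q + Cs + 6 * L ^ 2) * (η ^ 2 * SI (fun u => (k u - 1) ^ 2) + ‖y‖ ^ 8)
  rw [← hV2]
  apply mul_le_mul_of_nonneg_right _ (by positivity)
  have : 0 ≤ 6 * L ^ 2 := by positivity
  linarith

end StarTr
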